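import Mathlib.CategoryTheory.Category.Init
import Mathlib.Algebra.Order.Star.Real
import Mathlib.Analysis.CStarAlgebra.Classes
import Mathlib.Analysis.Calculus.BumpFunction.FiniteDimension
import Mathlib.Analysis.Calculus.BumpFunction.Normed
import Mathlib.Combinatorics.SimpleGraph.Basic
import Mathlib.Order.CompletePartialOrder

/-! Definitions for the non-realisability of densities (project BIOM). -/

set_option autoImplicit false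

open MeasureTheory Set Metric Filter Topology

noncomputable section

namespace Pool.Agent.MP_20bec2_an.h7

abbrev E (d : ℕ) := EuclideanSpace ℝ (Fin d)

/-- the unit cube -/
def cube (d : ℕ) : Set (E d) := {x | ∀ i, x i ∈ Icc (0 : ℝ) 1}

def bump (d : ℕ) : ContDiffBump (0 : E d) := ⟨1 / 2, 1, by norm_num, by norm_num⟩

/-- the smoothing kernel: smooth, nonnegative, integral one, support the unit ball -/
def ze (d : ℕ) (w : E d) : ℝ := (bump d).normed volume w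

theorem exists_Cz (d : ℕ) : ∃ C : ℝ, 1 ≤ C ∧ (∀ w, ze d w ≤ C) ∧ 1 ≤ C * ze d 0 ∧
    (∀ w, ‖fderiv ℝ (ze d) w‖ ≤ C) ∧
    (∀ w w', ‖fderiv ℝ (ze d) w - fderiv ℝ (ze d) w'‖ ≤ C * ‖w - w'‖) ∧
    volume.real (ball (0 : E d) 1) ≤ C := by
  have hc : ContDiff ℝ 2 (ze d) := (bump d).contDiff_normed
  have hs : HasCompactSupport (ze d) := (bump d).hasCompactSupport_normed
  obtain ⟨C₁, h₁⟩ := hc.continuous.bounded_above_of_compact_support hs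
  have hc1 : ContDiff ℝ 1 (fderiv ℝ (ze d)) := hc.fderiv_right (by norm_num)
  obtain ⟨C₂, h₂⟩ := hc1.continuous.bounded_above_of_compact_support (hs.fderiv ℝ)
  obtain ⟨C₃, h₃⟩ := hc1.lipschitzWith_of_hasCompactSupport (hs.fderiv ℝ) one_ne_zero
  have h0 : 0 < ze d 0 := by
    have : (0 : E d) ∈ Function.support ((bump d).normed volume) := by
      rw [(bump d).support_normed_eq]; exact mem_ball_self (bump d).rOut_pos
    exact lt_of_le_of_ne ((bump d).nonneg_normed 0) (Ne.symm this)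
  have a1 : 0 ≤ C₁ := (norm_nonneg _).trans (h₁ 0)
  have a2 : 0 ≤ C₂ := (norm_nonneg _).trans (h₂ 0)
  have a3 : (0 : ℝ) ≤ C₃ := C₃.2
  have a4 : 0 ≤ (ze d 0)⁻¹ := inv_nonneg.2 h0.le
  have a5 : 0 ≤ volume.real (ball (0 : E d) 1) := measureReal_nonneg
  refine ⟨1 + C₁ + C₂ + C₃ + (ze d 0)⁻¹ + volume.real (ball (0 : E d) 1), by linarith,
    fun w => ?_, ?_, fun w => ?_, fun w w' => ?_, by linarith⟩
  · have := (le_abs_self _).trans (h₁ w); linarith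
  · have : (ze d 0)⁻¹ * ze d 0 = 1 := inv_mul_cancel₀ h0.ne'
    nlinarith
  · have := h₂ w; linarith
  · have := h₃.dist_le_mul w w'
    rw [dist_eq_norm, dist_eq_norm] at this
    nlinarith [norm_nonneg (w - w')]

/-- a constant dominating the kernel, its derivatives, and the volume of the unit ball -/
def Cz (d : ℕ) : ℝ := (exists_Cz d).choose

/-- the master constant of dimension `d` -/
def Cw (d : ℕ) : ℝ := 2 ^ (d + 1) * Cz d ^ 2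

section ops

variable {d : ℕ} {F : Type*} [NormedAddCommGroup F] [NormedSpace ℝ F]

/-- smoothing at scale `μ` -/
def cv (μ : ℝ) (G : E d → F) (y : E d) : F := ∫ w, ze d w • G (y - μ • w)

/-- directional derivative -/
def dd (G : E d → F) (v y : E d) : F := fderiv ℝ G y v

/-- weighted integral along the segment through `y` in direction `u` -/
def ln (T : ℝ) (u : E d) (κ : ℝ → ℝ) (G : E d → F) (y : E d) : F :=
  ∫ τ in (-(3 * T))..(3 * T), κ τ • G (y + τ • u)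

/-- twice continuously differentiable with derivative bounded by `L` -/
structure Sm (L : ℝ) (G : E d → F) : Prop where
  cd : ContDiff ℝ 2 G
  bd : ∀ y, ‖fderiv ℝ G y‖ ≤ L

end ops

variable {d : ℕ}

/-- a coordinate of a map -/
def co (e : E d) (Ψ : E d → E d) (y : E d) : ℝ := inner ℝ e (Ψ y)

/-- the two-dimensional Jacobian -/
def jac (q p : E d → ℝ) (v' v y : E d) : ℝ := dd q v' y * dd p v y - dd q v y * dd p v' y

/-- orthonormal pair -/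
def ON (a b : E d) : Prop := ‖a‖ = 1 ∧ ‖b‖ = 1 ∧ inner ℝ a b = 0

def ax (i : Fin d) : E d := EuclideanSpace.single i 1

/-- rescaled map -/
def scl (s : ℝ) (Ψ : E d → E d) (y : E d) : E d := s⁻¹ • Ψ (s • y)

/-! ### profiles -/

def bb (x : ℝ) : ℝ := 30 * max (x * (1 - x)) 0 ^ 2

def bd (x : ℝ) : ℝ := 60 * max (x * (1 - x)) 0 * (1 - 2 * x)

def be (x : ℝ) : ℝ := ∫ t in (0 : ℝ)..x, bb t

/-- equal to one on `[a, b]`, zero off `(a - 1, b + 1)` -/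
def tr (a b x : ℝ) : ℝ := be (x - a + 1) - be (x - b)

/-- the slab coordinate: period `ε ^ 50`, unit `ε ^ 70` -/
def xi (ε p : ℝ) : ℝ := (p - ε ^ 50 * round (p / ε ^ 50)) / ε ^ 70

def W0 (ε p : ℝ) : ℝ := tr 0 1 (xi ε p)

def W1 (ε p : ℝ) : ℝ := tr (-1) 2 (xi ε p)

def Wh (ε p : ℝ) : ℝ := tr (-3) 4 (xi ε p)

def bk (ε : ℝ) (m k : ℕ) (p : ℝ) : ℝ := bb (m * xi ε p - k)

def Wk (ε : ℝ) (m k : ℕ) (p : ℝ) : ℝ := tr (-1) 2 (m * xi ε p - k)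

/-- the window profile and its derivative -/
def th (T τ : ℝ) : ℝ := tr (-1) 1 (τ / T)

def th' (T τ : ℝ) : ℝ := (bb (τ / T + 2) - bb (τ / T - 1)) / T

/-- frequency of step `k` -/
def om (ε : ℝ) (m : ℕ) (l : ℝ) (k : ℕ) : ℝ := (1 + (k : ℝ) / m) * (m * l / ε ^ 70)

/-- the test pattern -/
def gg (ε : ℝ) (m : ℕ) (l q p : ℝ) : ℝ :=
  ∑ k ∈ Finset.range m, bk ε m k p * Real.cos (om ε m l k * q)

/-- the plates -/
def Pl (ε q p : ℝ) : Prop :=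
  Int.fract (q / ε ^ 140) ∈ Icc (1 / 8 : ℝ) (3 / 8) ∧ Int.fract (p / ε ^ 141) ∈ Icc (1 / 8 : ℝ) (3 / 8)

def lg (ε : ℝ) : ℝ := -Real.log ε

/-- number of steps -/
def mm (ε δ l : ℝ) : ℕ := ⌊δ * l / lg ε⌋₊

/-! ### the potential -/

def FF (ε x : ℝ) : ℝ := x + (x + ε) * Real.log (1 + x / ε) / (2 * lg ε)

def F1 (ε x : ℝ) : ℝ := 1 + (1 + Real.log (1 + x / ε)) / (2 * lg ε)

def val (ε M M' A B : ℝ) : ℝ := FF ε (max A 0 / M) + 8 * B / M'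

/-- the potential of the fields smoothed at scale `μ` is at most `H` at the point `y` -/
def Pot (ε M M' H μ : ℝ) (q p : E d → ℝ) (y : E d) : Prop :=
  ∀ (c₁ c₂ : ℝ) (v' v : E d), c₁ ^ 2 + c₂ ^ 2 = 1 → ON v' v →
    val ε M M' (c₁ * cv μ (dd q v) y + c₂ * cv μ (dd p v) y) (cv μ (jac q p v' v) y) ≤ H

/-! ### contexts -/

/-- modulus of continuity of translation in the mean -/
def Osc (ϑ : E d → ℝ) (r o : ℝ) : Prop := ∀ a : E d, ‖a‖ ≤ r → ∫ x, |ϑ x - ϑ (x - a)| ≤ o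

/-- `ϑ` is the kernel at `y` of scale `μ` seen from the side of the density -/
structure Wt (L σ μ : ℝ) (Ψ : E d → E d) (ρ : E d → ℝ) (y : E d) (ϑ : E d → ℝ) : Prop where
  meas : Measurable ϑ
  int : Integrable ϑ
  nn : ∀ x, 0 ≤ ϑ x
  le : ∀ x, ϑ x ≤ Cw d / μ ^ d
  supp : ∀ x, ϑ x ≠ 0 → ‖x - Ψ y‖ ≤ L * μ + σ
  lo : 1 / 2 ≤ ∫ x, ϑ x
  hi : ∫ x, ϑ x ≤ 2
  osc : ∀ r : ℝ, 0 ≤ r → L * r + σ ≤ μ → Osc ϑ r (Cw d * (L * r + σ) / μ)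
  tr : ∀ (G : E d → ℝ) (B K : ℝ), 0 ≤ K → (∀ x, |G x| ≤ B) →
    (∀ x x', |G x - G x'| ≤ K * ‖x - x'‖) →
    |cv μ (fun z => G (Ψ z)) y - ∫ x, ϑ x * G x * ρ x| ≤ (K + B) * σ

/-- a smooth approximate inverse of a solution of the pushforward equation -/
structure Ctx (L σ μ₀ : ℝ) (Ψ : E d → E d) (Y : Set (E d)) (ρ : E d → ℝ) : Prop where
  sm : Sm L Ψ
  meas : Measurable ρ
  rng : ∀ x, 1 / 2 ≤ ρ x ∧ ρ x ≤ 2
  inv : ∀ y ∈ Y, ∀ y' ∈ Y, ‖y - y'‖ ≤ L * ‖Ψ y - Ψ y'‖ + σ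
  wt : ∀ (μ : ℝ) (y : E d), 0 < μ → μ₀ ≤ μ → ball y (2 * μ) ⊆ Y → ∃ ϑ, Wt L σ μ Ψ ρ y ϑ

/-- a finite system of slab families with the density changes inside them -/
structure Sys (d : ℕ) (ε δ : ℝ) where
  T : ℕ
  e : Fin T → E d
  dev : Fin T → E d → ℝ
  pl : Fin T → Set (E d)
  card : (T : ℝ) * ε ^ 7 ≤ 1
  unit : ∀ τ, ‖e τ‖ = 1
  sep : ∀ τ τ', τ ≠ τ' → ε ^ 14 ≤ 1 - inner ℝ (e τ) (e τ') ^ 2
  meas : ∀ τ, Measurable (dev τ)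
  bd : ∀ τ x, |dev τ x| ≤ 32 * δ
  zero : ∀ τ x, x ∉ pl τ → dev τ x = 0
  slab : ∀ τ x, x ∈ pl τ → xi ε (inner ℝ (e τ) x) ∈ Icc (0 : ℝ) 1

variable {ε δ : ℝ}

/-- the density with `N` levels -/
def dens (S : Sys d ε δ) (N : ℕ) (x : E d) : ℝ :=
  1 + max (-(32 * δ)) (min (32 * δ)
    (∑ k ∈ Finset.range N, ∑ τ, S.dev τ (((ε ^ 160) ^ k)⁻¹ • x)))

def Far (S : Sys d ε δ) (x : E d) : Prop := ∀ τ, ∀ x' ∈ S.pl τ, ε ^ 150 ≤ ‖x - x'‖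

def Bad (S : Sys d ε δ) (x : E d) : ℝ := ∑ τ, Wh ε (inner ℝ (S.e τ) x)

def BadO (S : Sys d ε δ) (τ : Fin S.T) (x : E d) : ℝ :=
  ∑ τ' ∈ Finset.univ.erase τ, Wh ε (inner ℝ (S.e τ') x)

/-- majorant of the slabs of the finer levels -/
def fin (S : Sys d ε δ) (N : ℕ) (x : E d) : ℝ :=
  ∑ k ∈ Finset.Ico 1 N, ∑ τ, W0 ε (inner ℝ (S.e τ) (((ε ^ 160) ^ k)⁻¹ • x))

/-- the local picture at a good point, in units of the level -/
def Loc (S : Sys d ε δ) (L : ℝ) (Ψ : E d → E d) (y₀ : E d) : Prop :=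
  ∃ (Y : Set (E d)) (ρ : E d → ℝ) (N : ℕ), Ctx L (ε ^ (200 * d)) (ε ^ 160) Ψ Y ρ ∧
    ball y₀ 8 ⊆ Y ∧ (N : ℝ) * ε ≤ 1 ∧ ∀ x ∈ ball (Ψ y₀) (10 * L),
      |ρ x - 1| ≤ ∑ τ, W0 ε (inner ℝ (S.e τ) x) + fin S N x ∧
      ∀ τ, |ρ x - 1 - S.dev τ x| ≤
        ∑ τ' ∈ Finset.univ.erase τ, W0 ε (inner ℝ (S.e τ') x) + fin S N x

structure Tower (S : Sys d ε δ) (L : ℝ) (N : ℕ) (Ψ : ℕ → E d → E d) (G : ℕ → Set (E d)) :
    Prop where
  sm : ∀ n, Sm L (Ψ n)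
  ne : (G 0).Nonempty
  loc : ∀ n < N, ∀ y ∈ G n, Loc S L (Ψ n) y
  nxt : ∀ n < N, ∀ y₀ ∈ G n, ∀ y ∈ ball y₀ 4, Far S (Ψ n y) → (ε ^ 160)⁻¹ • y ∈ G (n + 1)
  sc : ∀ n, Ψ (n + 1) = scl (ε ^ 160) (Ψ n)

open Classical in
/-- the density change of a type -/
def devF (ε δ l : ℝ) (e' e x : E d) : ℝ :=
  if Pl ε (inner ℝ e' x) (inner ℝ e x) then
    16 * δ * gg ε (mm ε δ l) l (inner ℝ e' x) (inner ℝ e x) else 0

def plF (ε : ℝ) (e' e : E d) : Set (E d) :=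
  {x | Pl ε (inner ℝ e' x) (inner ℝ e x) ∧ xi ε (inner ℝ e x) ∈ Icc (0 : ℝ) 1}

def Typ (S : Sys d ε δ) (τ : Fin S.T) (e' : E d) (l : ℝ) : Prop :=
  ON e' (S.e τ) ∧ S.dev τ = devF ε δ l e' (S.e τ) ∧ S.pl τ = plF ε e' (S.e τ)

/-- every direction in a coordinate plane and every step length are met by a type -/
def Net (S : Sys d ε δ) : Prop :=
  ∀ i j : Fin d, i < j → ∀ c₁ c₂ : ℝ, c₁ ^ 2 + c₂ ^ 2 = 1 → ∀ k : ℕ, 4 ^ k * ε ≤ 1 →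
    ∃ (τ : Fin S.T) (a b σ : ℝ), a ^ 2 + b ^ 2 = 1 ∧ (σ = 1 ∨ σ = -1) ∧ |σ * a - c₁| ≤ ε ^ 5 ∧
      |σ * b - c₂| ≤ ε ^ 5 ∧ S.e τ = a • ax i + b • ax j ∧ Typ S τ (b • ax i - a • ax j) (2 ^ k)

/-! ### objects of the test -/

/-- the mesoscopic density along the smoothed map -/
def r0 (ε δ l : ℝ) (q p : E d → ℝ) (y : E d) : ℝ :=
  1 + δ * gg ε (mm ε δ l) l (cv (ε ^ 120) q y) (cv (ε ^ 120) p y)

/-- the mean tightness estimates in the slabs -/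
structure Tt (ε C₀ β Λ X : ℝ) (y₀ : E d) (wt r pt pz qt J eb : E d → ℝ) : Prop where
  cont : Continuous eb
  nn : ∀ y, 0 ≤ eb y
  le : ∀ y, eb y ≤ ε⁻¹ ^ 2
  neg : ∀ y, -pt y ≤ eb y
  sq : ∀ y, pz y ^ 2 ≤ eb y * (2 * pt y + eb y)
  m0 : cv 1 wt y₀ ≤ 8 * ε ^ 20
  m1 : cv 1 (fun y => wt y * eb y) y₀ ≤ C₀ * β ^ 2 * Λ * ε ^ 20
  m2 : cv 1 (fun y => wt y * |qt y|) y₀ ≤ C₀ * β * Λ * ε ^ 20
  m3 : cv 1 (fun y => wt y * |r y * pt y - Λ|) y₀ ≤ C₀ * √(lg ε) * β * Λ * ε ^ 20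
  m4 : cv 1 (fun y => wt y * |r y * J y - X|) y₀ ≤ C₀ * √(lg ε) * β * X * ε ^ 20

def phk (ε : ℝ) (m : ℕ) (l : ℝ) (k : ℕ) (q p : ℝ) : ℂ :=
  Complex.exp (Complex.I * (om ε m l k * q : ℝ)) * (bk ε m k p * (m / ε ^ 70) : ℝ)

/-- the leaf sum of the smoothed form -/
def Uk (ε : ℝ) (m : ℕ) (l : ℝ) (k : ℕ) (q p : E d → ℝ) (u : E d) : E d → ℂ :=
  ln (ε ^ 52) u (th (ε ^ 52)) (cv (ε ^ 120) fun z => dd p u z • phk ε m l k (q z) (p z))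

/-- the leaf sum along the smoothed map -/
def Ub (ε : ℝ) (m : ℕ) (l : ℝ) (k : ℕ) (q p : E d → ℝ) (u : E d) : E d → ℂ :=
  ln (ε ^ 52) u (th (ε ^ 52)) fun z =>
    dd (cv (ε ^ 120) p) u z • phk ε m l k (cv (ε ^ 120) q z) (cv (ε ^ 120) p z)

/-- the accumulated delay along a leaf -/
def Sg (ε δ Λ : ℝ) (m : ℕ) (p : E d → ℝ) (u : E d) (y : E d) : ℝ :=
  ln (ε ^ 52) u (th (ε ^ 52))
    (fun z => W0 ε (cv (ε ^ 120) p z) * (Λ - dd (cv (ε ^ 120) p) u z)) y * (m / ε ^ 70) / δ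

end Pool.Agent.MP_20bec2_an.h7
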