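import Mathlib.Tactic.Monotonicity.Lemmas
import Mathlib.Algebra.Order.Archimedean.Real.Hom
import Mathlib.MeasureTheory.Integral.IntervalIntegral.FundThmCalculus
import Mathlib.Analysis.Calculus.FDeriv.Symmetric
import Mathlib.Analysis.Calculus.ParametricIntervalIntegral
import Mathlib.RingTheory.PiTensorProduct
import Mathlib.Topology.UniformSpace.Uniformizable
import Pool.Agent.MP_20bec2_an.h7.Defs

-- ======== part 0: formerly Pool.Agent.MP_20bec2_an.h7.Spec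
section MrgPart0

/-! Module statements of project BIOM. -/

set_option autoImplicit false

open MeasureTheory Set Metric Filter Topology

noncomputable section

namespace Pool.Agent.MP_20bec2_an.h7

/-- a property holds for all small positive `ε` -/
def Small (P : ℝ → Prop) : Prop := ∃ ε₀ : ℝ, 0 < ε₀ ∧ ∀ ε : ℝ, 0 < ε → ε ≤ ε₀ → P ε

variable (d : ℕ)

/-! ### topology and contexts -/

/-- invariance of domain, in quantitative form -/
def DomStmt : Prop := ∀ (f : E d → E d) (c : E d) (r η : ℝ), 0 < r →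
  ContinuousOn f (closedBall c r) → InjOn f (closedBall c r) →
  (∀ x ∈ sphere c r, η ≤ ‖f x - f c‖) → ball (f c) η ⊆ f '' ball c r

def CtxAStmt : Prop := ∃ C : ℝ, 1 ≤ C ∧ ∀ (D : Set (E d)) (Φ : E d → E d) (L σ : ℝ), 1 ≤ L → 0 < σ →
  Bornology.IsBounded D → (∀ x ∈ D, ∀ x' ∈ D, ‖x - x'‖ ≤ L * ‖Φ x - Φ x'‖ + σ) →
  ∃ Ψ : E d → E d, Sm (C * L) Ψ ∧ ∀ x ∈ D, ‖Ψ (Φ x) - x‖ ≤ C * L * σ

def CtxStmt : Prop := ∃ C : ℝ, 1 ≤ C ∧ ∀ (f : E d → E d) (ρ ρ' : E d → ℝ) (c : E d)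
  (r L σ η μ₀ : ℝ), closedBall c r ⊆ cube d → ContinuousOn f (cube d) → InjOn f (cube d) →
  ContinuousOn ρ (cube d) → (∀ x ∈ cube d, 1 / 2 ≤ ρ x ∧ ρ x ≤ 2) → Measurable ρ' →
  (∀ x, 1 / 2 ≤ ρ' x ∧ ρ' x ≤ 2) →
  (∀ B, MeasurableSet B →
    ∫⁻ x in cube d ∩ f ⁻¹' B, ENNReal.ofReal (ρ x) = volume (B ∩ f '' cube d)) →
  1 ≤ L → 0 < σ → 0 < η → η ≤ r → L * η + σ < r / 2 → 0 < μ₀ →
  (∀ x ∈ closedBall c r, ∀ x' ∈ closedBall c r, ‖f x - f x'‖ ≤ L * ‖x - x'‖ + σ) →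
  (∀ x ∈ closedBall c r, ∀ x' ∈ closedBall c r, ‖f x - f x'‖ ≤ 2 * η →
    ‖x - x'‖ ≤ L * ‖f x - f x'‖ + σ) →
  ∫ x in ball c r, |ρ x - ρ' x| ≤ σ * μ₀ ^ d →
  ∃ Ψ : E d → E d, Ctx (C * L) (C * L ^ 2 * σ) μ₀ Ψ (ball (f c) η) ρ'

/-- rescaling and weakening of contexts -/
def ScaleStmt : Prop :=
  (∀ (L σ μ₀ s : ℝ) (Ψ : E d → E d) (Y : Set (E d)) (ρ : E d → ℝ), 0 < s → s ≤ 1 → 0 ≤ σ →
    Ctx L σ μ₀ Ψ Y ρ → Ctx L (σ / s) (μ₀ / s) (scl s Ψ) {y | s • y ∈ Y} fun x => ρ (s • x)) ∧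
  ∀ (L L' σ σ' μ₀ μ₀' : ℝ) (Ψ : E d → E d) (Y : Set (E d)) (ρ : E d → ℝ), L ≤ L' → σ ≤ σ' →
    μ₀ ≤ μ₀' → Ctx L σ μ₀ Ψ Y ρ → Ctx L' σ' μ₀' Ψ Y ρ

def TowerStmt : Prop := Small fun ε => ∀ (δ L : ℝ) (S : Sys d ε δ) (N : ℕ) (Ψ : E d → E d)
  (Y : Set (E d)) (y : E d), 0 < δ → δ ≤ 1 / 100 → 1 ≤ L → L * ε ≤ 1 → (N : ℝ) * ε ≤ 1 →
  Ctx L (ε ^ (200 * d) * (ε ^ 160) ^ N) ((ε ^ 160) ^ N) Ψ Y (dens S N) → ball y 8 ⊆ Y →
  ∃ (Ψ' : ℕ → E d → E d) (G : ℕ → Set (E d)), Tower S L N Ψ' G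

def NetStmt : Prop := Small fun ε => ∀ δ : ℝ, 0 < δ → δ ≤ 1 / 100 → ∃ S : Sys d ε δ, Net S

/-! ### averaging on the side of the density -/

def AvgStmt : Prop := ∀ (ϑ : E d → ℝ) (φ : ℝ → ℝ) (e a : E d) (R B o : ℝ), Integrable ϑ →
  Continuous φ → 0 < R → Function.Periodic φ R → (∀ t, |φ t| ≤ B) → inner ℝ e a = R →
  (∀ t ∈ Icc (0 : ℝ) 1, ∫ x, |ϑ x - ϑ (x - t • a)| ≤ o) →
  |(∫ x, ϑ x * φ (inner ℝ e x)) - (∫ t in (0 : ℝ)..R, φ t) / R * ∫ x, ϑ x| ≤ B * o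

def Avg2Stmt : Prop := ∀ (ϑ : E d → ℝ) (G : ℝ × ℝ → ℝ) (e' e : E d) (r₁ r₂ B g o : ℝ),
  Integrable ϑ → Measurable G → 0 < r₂ → r₂ ≤ r₁ → (∀ z, |G z| ≤ B) → ON e' e →
  (∀ z : ℝ × ℝ, ∫ s in (0 : ℝ)..r₁, ∫ t in (0 : ℝ)..r₂, G (z.1 + s, z.2 + t) = g * r₁ * r₂) →
  Osc ϑ r₁ o → |(∫ x, ϑ x * G (inner ℝ e' x, inner ℝ e x)) - g * ∫ x, ϑ x| ≤ 2 * B * o

open Classical in
/-- the plates fill one sixteenth of the plane -/
def PlStmt : Prop := ∀ ε : ℝ, 0 < ε →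
  Measurable (fun z : ℝ × ℝ => if Pl ε z.1 z.2 then (1 : ℝ) else 0) ∧ ∀ z : ℝ × ℝ,
    ∫ s in (0 : ℝ)..ε ^ 140, ∫ t in (0 : ℝ)..ε ^ 141,
      (if Pl ε (z.1 + s) (z.2 + t) then (1 : ℝ) else 0) = 1 / 16 * ε ^ 140 * ε ^ 141

def OscStmt : Prop := ∀ (ϑ G : E d → ℝ) (r o B K : ℝ), Integrable ϑ → 0 ≤ K → (∀ x, |G x| ≤ B) →
  (∀ x x', |G x - G x'| ≤ K * ‖x - x'‖) → Osc ϑ r o →
  Osc (fun x => ϑ x * G x) r (B * o + K * r * ∫ x, |ϑ x|)

def FinStmt : Prop := Small fun ε => ∀ (δ : ℝ) (S : Sys d ε δ) (N : ℕ) (ϑ : E d → ℝ) (o : ℝ),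
  (N : ℝ) * ε ≤ 1 → Integrable ϑ → (∀ x, 0 ≤ ϑ x) → Osc ϑ (ε ^ 210) o →
  Continuous (fin S N) ∧ (∀ x, 0 ≤ fin S N x ∧ fin S N x ≤ ε⁻¹ ^ 8) ∧
    ∫ x, ϑ x * fin S N x ≤ ε ^ 11 * (∫ x, ϑ x) + ε⁻¹ ^ 8 * o

/-! ### the bad set, monotonicity, lower bounds -/

def BadStmt : Prop := Small fun ε => ∀ (δ L : ℝ) (S : Sys d ε δ) (Ψ : E d → E d) (y₀ : E d),
  1 ≤ L → L * ε ≤ 1 → Loc S L Ψ y₀ → cv 1 (fun y => Bad S (Ψ y)) y₀ ≤ ε ^ 12

def MonoStmt : Prop := Small fun ε => ∀ (G Bd : E d → ℝ) (y₀ : E d), Continuous G → Continuous Bd →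
  (∀ y, 0 ≤ Bd y) → cv 1 Bd y₀ ≤ ε ^ 12 →
  (∃ y ∈ closedBall y₀ 1, Bd y < 1) ∧ ∀ H : ℝ, (∀ y, |G y| ≤ ε⁻¹ ^ 6) →
    (∀ y ∈ closedBall y₀ 1, Bd y < 1 → cv (ε ^ 160) G y ≤ H) → cv 1 G y₀ ≤ H + ε ^ 5

def LowStmt : Prop := Small fun ε => ∀ (δ L a : ℝ) (S : Sys d ε δ) (Ψ : E d → E d) (y₀ : E d),
  1 ≤ L → L * ε ≤ 1 → Loc S L Ψ y₀ →
  (∀ y ∈ ball y₀ 4, Far S (Ψ y) → ∀ f v : E d, ‖f‖ = 1 → ‖v‖ = 1 →
    cv (ε ^ 160) (dd (co f Ψ) v) y ≤ a) → ε ^ 2 ≤ a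

/-- an isoperimetric inequality across the lines in direction `u` -/
def VolAStmt : Prop := ∃ C : ℝ, 1 ≤ C ∧ ∀ (A Q : E d → ℝ) (u : E d) (S B r : ℝ), ‖u‖ = 1 →
  ContDiff ℝ 1 A → HasCompactSupport A → Continuous Q → HasCompactSupport Q → (∀ y, 0 ≤ Q y) →
  (∀ y, A y ≠ 0 → 1 ≤ ∫ τ : ℝ, Q (y + τ • u)) → ∫ y, Q y ≤ S → 0 < r → C * S ≤ r ^ (d - 1) →
  0 ≤ B → (∀ v, ON v u → ∃ A' : E d → ℝ, ContDiff ℝ 1 A' ∧ HasCompactSupport A' ∧
    ∫ y, |dd A v y - dd A' u y| ≤ B) →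
  |∫ y, A y| ≤ 2 * r * B

def VolStmt : Prop := ∃ C : ℝ, 1 ≤ C ∧ Small fun ε => ∀ (δ L a b ϱ : ℝ) (S : Sys d ε δ)
  (Ψ : E d → E d) (y₀ : E d), 1 ≤ L → L * ε ≤ 1 → Loc S L Ψ y₀ → ε ^ 2 ≤ a → ε ^ 3 ≤ b → 0 < ϱ →
  a ≤ ϱ ^ (d - 1) →
  (∀ y ∈ ball y₀ 4, Far S (Ψ y) →
    (∀ f v : E d, ‖f‖ = 1 → ‖v‖ = 1 → cv (ε ^ 160) (dd (co f Ψ) v) y ≤ a) ∧
    ∀ (i j : Fin d) (v' v : E d), ON v' v →
      cv (ε ^ 160) (jac (co (ax i) Ψ) (co (ax j) Ψ) v' v) y ≤ b) →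
  ∀ f u : E d, ‖f‖ = 1 → ‖u‖ = 1 → cv 1 (dd (co f Ψ) u) y₀ ≤ C * ϱ * b

/-- the area is at most the square of the length -/
def AreaStmt : Prop := Small fun ε => ∀ (q p Bd : E d → ℝ) (u' u y₀ : E d) (M M' H g Λ X : ℝ),
  Sm ε⁻¹ q → Sm ε⁻¹ p → ON u' u → ε ^ 2 ≤ M → ε ^ 3 ≤ M' → |H| ≤ 12 → ε ≤ g → g ≤ 1 / 10000 →
  Λ = cv 1 (dd p u) y₀ → X = cv 1 (jac q p u' u) y₀ → 0 ≤ Λ → Λ ≤ M / 1000 → M' ≤ 5 * X →
  H - g ≤ val ε M M' Λ X → Continuous Bd → (∀ y, 0 ≤ Bd y) → cv 1 Bd y₀ ≤ ε ^ 12 →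
  (∀ y ∈ closedBall y₀ 1, Bd y < 1 → Pot ε M M' H (ε ^ 160) q p y) →
  X ≤ 10 ^ 6 * (Λ + 3 * g * M) ^ 2

/-! ### the mesoscopic inequality -/

def RetStmt : Prop := ∃ C : ℝ, 1 ≤ C ∧ ∀ ε β₀ : ℝ, 0 < ε → ε ≤ β₀ → β₀ ≤ 1 →
  ∃ n : ℝ, 1 ≤ n ∧ n ≤ 1 + C * β₀ ^ 2 ∧ ∀ β : ℝ, |β| ≤ β₀ →
    ∃ (D D₁ D₂ m : ℝ × ℝ → ℝ) (D' D₃ : ℝ → ℝ), ContDiff ℝ 1 D ∧
      (∀ z v : ℝ × ℝ, fderiv ℝ D z v = D₁ z * v.1 + D₂ z * v.2) ∧ ContDiff ℝ 1 D' ∧
      (∀ t, HasDerivAt D' (D₃ t) t) ∧ (∀ z, |D z| ≤ C * ε ^ 140) ∧ (∀ t, |D' t| ≤ C * ε ^ 140) ∧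
      (∀ z, m z = n + D₂ z + D₃ z.1) ∧ (∀ z, (β + D₁ z) ^ 2 + (1 + D₂ z) ^ 2 ≤ m z ^ 2) ∧
      (∀ z, 0 ≤ m z ∧ m z ≤ C ∧ |D₁ z| ≤ C ∧ |D₂ z| ≤ C) ∧
      (∀ z z', |D₁ z - D₁ z'| ≤ C / ε ^ 141 * (|z.1 - z'.1| + |z.2 - z'.2|) ∧
        |D₂ z - D₂ z'| ≤ C / ε ^ 141 * (|z.1 - z'.1| + |z.2 - z'.2|) ∧
        |m z - m z'| ≤ C / ε ^ 141 * (|z.1 - z'.1| + |z.2 - z'.2|)) ∧
      (∀ z, m z ≠ 0 → ∀ q p, Pl ε q p → ε ^ 141 / 8 ≤ |z.1 - q| ∨ ε ^ 141 / 8 ≤ |z.2 - p|) ∧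
      ∀ z : ℝ × ℝ, ∫ s in (0 : ℝ)..ε ^ 140, ∫ t in (0 : ℝ)..ε ^ 141, m (z.1 + s, z.2 + t) =
        n * ε ^ 140 * ε ^ 141

/-- the mesoscopic mass of a return weight -/
def MesoAStmt : Prop := ∀ C : ℝ, 1 ≤ C → Small fun ε => ∀ (δ L l n : ℝ) (S : Sys d ε δ)
  (Ψ : E d → E d) (y₀ e' : E d) (τ : Fin S.T) (m : ℝ × ℝ → ℝ), 0 < δ → δ ≤ 1 / 100 → 1 ≤ L →
  L * ε ≤ 1 → 1 ≤ l → l ^ 2 * ε ≤ 1 → Loc S L Ψ y₀ → Typ S τ e' l → |n| ≤ 2 * C →
  (∀ z, 0 ≤ m z ∧ m z ≤ C) →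
  (∀ z z', |m z - m z'| ≤ C / ε ^ 141 * (|z.1 - z'.1| + |z.2 - z'.2|)) →
  (∀ q p, Pl ε q p → m (q, p) = 0) →
  (∀ z : ℝ × ℝ, ∫ s in (0 : ℝ)..ε ^ 140, ∫ t in (0 : ℝ)..ε ^ 141, m (z.1 + s, z.2 + t) =
    n * ε ^ 140 * ε ^ 141) →
  ∀ y ∈ closedBall y₀ 1, BadO S τ (cv (ε ^ 120) Ψ y) < 1 →
    |cv (ε ^ 120) (fun z => m (co e' Ψ z, co (S.e τ) Ψ z)) y -
      n / r0 ε δ l (co e' Ψ) (co (S.e τ) Ψ) y| ≤ ε ^ 10

def MesoStmt : Prop := ∃ C : ℝ, 1 ≤ C ∧ Small fun ε => ∀ (δ L l β₀ M M' H : ℝ) (S : Sys d ε δ)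
  (Ψ : E d → E d) (y₀ e' : E d) (τ : Fin S.T), 0 < δ → δ ≤ 1 / 100 → 1 ≤ L → L * ε ≤ 1 → 1 ≤ l →
  l ^ 2 * ε ≤ 1 → ε ≤ β₀ → β₀ ≤ 1 → ε ^ 2 ≤ M → ε ^ 3 ≤ M' → |H| ≤ 12 → Loc S L Ψ y₀ →
  Typ S τ e' l →
  (∀ y ∈ ball y₀ 4, Far S (Ψ y) → Pot ε M M' H (ε ^ 160) (co e' Ψ) (co (S.e τ) Ψ) y) →
  ∃ n : ℝ, 1 ≤ n ∧ n ≤ 1 + C * β₀ ^ 2 ∧ ∀ y ∈ closedBall y₀ 1, BadO S τ (cv (ε ^ 120) Ψ y) < 1 →
    ∀ (β : ℝ) (v' v : E d), |β| ≤ β₀ → ON v' v →
      val ε M M' (r0 ε δ l (co e' Ψ) (co (S.e τ) Ψ) y *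
          (dd (cv (ε ^ 120) (co (S.e τ) Ψ)) v y + β * dd (cv (ε ^ 120) (co e' Ψ)) v y) / n)
        (r0 ε δ l (co e' Ψ) (co (S.e τ) Ψ) y *
          cv (ε ^ 120) (jac (co e' Ψ) (co (S.e τ) Ψ) v' v) y) ≤ H + ε ^ 6

def MassAStmt : Prop := Small fun ε => ∀ (q p : E d → ℝ) (u' u y₀ : E d), Sm ε⁻¹ q → Sm ε⁻¹ p →
  ON u' u →
  |cv 1 (fun y => W1 ε (cv (ε ^ 120) p y) * dd (cv (ε ^ 120) p) u y) y₀ -
      4 * ε ^ 20 * cv 1 (dd p u) y₀| ≤ ε ^ 30 ∧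
    |cv 1 (fun y => W1 ε (cv (ε ^ 120) p y) * cv (ε ^ 120) (jac q p u' u) y) y₀ -
      4 * ε ^ 20 * cv 1 (jac q p u' u) y₀| ≤ ε ^ 30

def MassBStmt : Prop := Small fun ε => ∀ (δ L l : ℝ) (S : Sys d ε δ) (Ψ : E d → E d)
  (y₀ e' : E d) (τ : Fin S.T), 0 < δ → δ ≤ 1 / 100 → 1 ≤ L → L * ε ≤ 1 → 1 ≤ l → l ^ 2 * ε ≤ 1 →
  Loc S L Ψ y₀ → Typ S τ e' l →
  |cv 1 (fun y => W1 ε (cv (ε ^ 120) (co (S.e τ) Ψ) y) / r0 ε δ l (co e' Ψ) (co (S.e τ) Ψ) y) y₀ -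
      4 * ε ^ 20| ≤ ε ^ 30 ∧
    cv 1 (fun y => W1 ε (cv (ε ^ 120) (co (S.e τ) Ψ) y) * BadO S τ (cv (ε ^ 120) Ψ y)) y₀ ≤ ε ^ 31

def TightStmt : Prop := ∀ C : ℝ, 1 ≤ C → ∃ C₀ : ℝ, 1 ≤ C₀ ∧ Small fun ε =>
  ∀ (wt r pt pz qt J Bd : E d → ℝ) (y₀ : E d) (M M' H g n Λ X β : ℝ), Continuous wt →
  Continuous r → Continuous pt → Continuous pz → Continuous qt → Continuous J → Continuous Bd →
  (∀ y, 0 ≤ wt y ∧ wt y ≤ 1) → (∀ y, 1 / 2 ≤ r y ∧ r y ≤ 3 / 2) →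
  (∀ y, |pt y| ≤ ε⁻¹ ∧ |pz y| ≤ ε⁻¹ ∧ |qt y| ≤ ε⁻¹ ∧ |J y| ≤ 2 * ε⁻¹ ^ 2) → (∀ y, 0 ≤ Bd y) →
  ε ^ 2 ≤ M → ε ^ 3 ≤ M' → |H| ≤ 12 → ε ≤ g → 0 < β → lg ε * β ^ 2 ≤ 1 → 1 ≤ n →
  n ≤ 1 + C * β ^ 2 → Λ ≤ 2 * M → g * M ≤ β ^ 2 * Λ → M' ≤ 5 * X → H - g ≤ val ε M M' Λ X →
  |cv 1 (fun y => wt y * pt y) y₀ - 4 * ε ^ 20 * Λ| ≤ ε ^ 30 →
  |cv 1 (fun y => wt y * J y) y₀ - 4 * ε ^ 20 * X| ≤ ε ^ 30 →
  |cv 1 (fun y => wt y / r y) y₀ - 4 * ε ^ 20| ≤ ε ^ 30 →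
  cv 1 (fun y => wt y * Bd y) y₀ ≤ ε ^ 31 →
  (∀ y ∈ closedBall y₀ 1, Bd y < 1 →
    (∀ c₁ c₂ : ℝ, c₁ ^ 2 + c₂ ^ 2 = 1 →
      val ε M M' (r y * (c₁ * pz y + c₂ * pt y) / n) (r y * J y) ≤ H + ε ^ 6) ∧
    ∀ b : ℝ, |b| ≤ β → val ε M M' (r y * (pt y + b * qt y) / n) (r y * J y) ≤ H + ε ^ 6) →
  ∃ eb : E d → ℝ, Tt ε C₀ β Λ X y₀ wt r pt pz qt J eb

/-! ### the test -/

/-- one leaf crossing one step -/
def LeafStmt : Prop := Small fun ε => ∀ p p' : ℝ → ℝ, (∀ t, HasDerivAt p (p' t) t) →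
  Continuous p' → (∀ t, |p' t| ≤ ε⁻¹) →
  (∀ c k : ℝ, 1 ≤ c → -(2 * c) ≤ k → k + 1 ≤ 3 * c →
    ∫ τ in (-(3 * ε ^ 52))..(3 * ε ^ 52),
      th (ε ^ 52) τ * (bb (c * xi ε (p τ) - k) * (c / ε ^ 70) * p' τ) ≤ 1) ∧
  ∀ (q q' : ℝ → ℝ) (m k : ℕ) (l Λ A N Tl Q : ℝ) (U : ℂ), (∀ t, HasDerivAt q (q' t) t) →
    Continuous q' → 2 ≤ m → k < m → 0 ≤ l → ε ^ 3 ≤ Λ →
    A = ∫ τ in (-(3 * ε ^ 52))..(3 * ε ^ 52),
      th (ε ^ 52) τ * (bk ε m k (p τ) * (m / ε ^ 70) * p' τ) →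
    U = ∫ τ in (-(3 * ε ^ 52))..(3 * ε ^ 52), th (ε ^ 52) τ • p' τ • phk ε m l k (q τ) (p τ) →
    N = ∫ τ in (-(3 * ε ^ 52))..(3 * ε ^ 52), Wk ε m k (p τ) * max (-p' τ) 0 * (m / ε ^ 70) →
    Tl = ∫ τ in (-(3 * ε ^ 52))..(3 * ε ^ 52), Wk ε m k (p τ) * |q' τ| * om ε m l k →
    Q = ∫ τ in (-(3 * ε ^ 52))..(3 * ε ^ 52), Wk ε m k (p τ) * (|p' τ| + Λ) * (m / ε ^ 70) →
    A ≤ 1 ∧ ‖U‖ ≤ 1 + 4 * N ∧ A - Tl - 10 * N ≤ ‖U‖ ∧ (Q < 1 → A = 0)

/-- almost orthogonality of functions with almost pure frequencies -/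
def OrthoStmt : Prop := ∃ C : ℝ, 1 ≤ C ∧ ∀ (m : ℕ) (ω : ℝ) (v y₀ : E d) (U : ℕ → E d → ℂ)
  (e x : ℕ → E d → ℝ) (S e' Y₁ Y₂ : E d → ℝ), 2 ≤ m → 1 ≤ ω → ‖v‖ = 1 →
  (∀ k < m, ContDiff ℝ 1 (U k) ∧ Continuous (e k) ∧ Continuous (x k) ∧ ∀ y, 0 ≤ x k y ∧
    ‖U k y‖ ≤ 1 + x k y ∧
    ‖dd (U k) v y - Complex.I * (ω * (1 + (k : ℝ) / m) : ℝ) * U k y‖ ≤ ω * e k y) →
  ContDiff ℝ 1 S → Continuous e' → Continuous Y₁ → Continuous Y₂ →
  (∀ y, 0 ≤ Y₁ y ∧ 0 ≤ Y₂ y ∧ |S y - ∑ k ∈ Finset.range m, (U k y).re| ≤ e' y ∧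
    |dd S v y| ≤ ω * (Y₁ y + Y₂ y)) →
  ∑ k ∈ Finset.range m, cv 1 (fun y => min ‖U k y‖ 1 ^ 2) y₀ ≤
    C * (m * (1 + Real.log m) * ∑ k ∈ Finset.range m, cv 1 (e k) y₀ +
      m * ∑ k ∈ Finset.range m, cv 1 (x k) y₀ + m * cv 1 e' y₀ + cv 1 (fun y => Y₁ y ^ 2) y₀ +
      m * cv 1 Y₂ y₀ + m ^ 3 / ω)

def TestAStmt : Prop := Small fun ε => ∀ (q p : E d → ℝ) (u' u : E d) (m k : ℕ) (l Λ X : ℝ),
  Sm ε⁻¹ q → Sm ε⁻¹ p → ON u' u → 2 ≤ m → k < m → (m : ℝ) ≤ l → l ^ 2 * ε ≤ 1 → ε ^ 3 ≤ Λ →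
  Λ ≤ ε⁻¹ → ε ^ 4 ≤ X →
  ContDiff ℝ 1 (Uk ε m l k q p u) ∧ Continuous (Ub ε m l k q p u) ∧ ∀ y,
    ‖Uk ε m l k q p u y - Ub ε m l k q p u y‖ ≤ ε ^ 25 ∧
    ‖dd (Uk ε m l k q p u) u' y - Complex.I * (X / Λ * om ε m l k : ℝ) * Uk ε m l k q p u y‖ ≤
      X / Λ * (m * l / ε ^ 70) * (ln (ε ^ 52) u (fun _ => 1) (fun z =>
        bk ε m k (cv (ε ^ 120) p z) * (m / ε ^ 70) *
          (2 * |cv (ε ^ 120) (jac q p u' u) z * Λ / X - dd (cv (ε ^ 120) p) u z| + ε ^ 11)) y +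
        ε ^ 20)

def TestBStmt : Prop := Small fun ε => ∀ (q p eb : E d → ℝ) (u' u : E d) (δ l Λ : ℝ),
  Sm ε⁻¹ q → Sm ε⁻¹ p → ON u' u → 0 < δ → 0 ≤ Λ → Continuous eb → (∀ y, 0 ≤ eb y) →
  (∀ y, -dd (cv (ε ^ 120) p) u y ≤ eb y) →
  (∀ y, dd (cv (ε ^ 120) p) u' y ^ 2 ≤ eb y * (2 * dd (cv (ε ^ 120) p) u y + eb y)) →
  ContDiff ℝ 1 (Sg ε δ Λ (mm ε δ l) p u) ∧ ∀ y,
    |Sg ε δ Λ (mm ε δ l) p u y -
        ∑ k ∈ Finset.range (mm ε δ l), (Ub ε (mm ε δ l) l k q p u y).re| ≤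
      ln (ε ^ 52) u (fun _ => 1) (fun z => W1 ε (cv (ε ^ 120) p z) *
        |r0 ε δ l q p z * dd (cv (ε ^ 120) p) u z - Λ|) y * (mm ε δ l / ε ^ 70) / δ ∧
    ∀ w : ℝ, w = ln (ε ^ 52) u (fun _ => 1)
        (fun z => 2 * W1 ε (cv (ε ^ 120) p z) * eb z) y / ε ^ 70 →
      |dd (Sg ε δ Λ (mm ε δ l) p u) u' y| ≤ (Λ * (2 * √w + w) + ln (ε ^ 52) u (fun _ => 1)
        (fun z => 2 * W1 ε (cv (ε ^ 120) p z) / ε ^ 53) y) * (mm ε δ l / ε ^ 70) / δ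

def TestStmt : Prop := ∀ C₀ : ℝ, 1 ≤ C₀ → Small fun ε => ∀ (q p eb : E d → ℝ) (u' u y₀ : E d)
  (δ l Λ X : ℝ), Sm ε⁻¹ q → Sm ε⁻¹ p → ON u' u → ε ≤ δ → δ ≤ 1 / 100 → 1 ≤ l → l ^ 2 * ε ≤ 1 →
  2 ≤ mm ε δ l → Λ = cv 1 (dd p u) y₀ → ε ^ 3 ≤ Λ → ε ^ 4 ≤ X → Λ ^ 4 ≤ δ ^ 3 * l ^ 5 * X ^ 2 →
  ¬ Tt ε C₀ (1 / (lg ε * l)) Λ X y₀ (fun y => W1 ε (cv (ε ^ 120) p y)) (r0 ε δ l q p)
    (dd (cv (ε ^ 120) p) u) (dd (cv (ε ^ 120) p) u') (dd (cv (ε ^ 120) q) u)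
    (cv (ε ^ 120) (jac q p u' u)) eb

/-! ### assembly -/

/-- the potential gains at every level -/
def StepStmt : Prop := Small fun ε => ∀ (δ L M M' H g c₁ c₂ : ℝ) (S : Sys d ε δ) (Ψ : E d → E d)
  (y₀ u' u : E d) (i j : Fin d), Net S → i < j → ε ≤ δ → δ ≤ 1 / 100 → 1 ≤ L → L * ε ≤ 1 →
  Loc S L Ψ y₀ → ε ^ 2 ≤ M → ε ^ 3 ≤ M' → |H| ≤ 12 → ε ≤ g → g * lg ε ^ 11 ≤ δ ^ 4 →
  M ^ 8 * g ^ 5 * lg ε ^ 11 ≤ δ ^ 6 * M' ^ 4 → c₁ ^ 2 + c₂ ^ 2 = 1 → ON u' u →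
  |c₁ * cv 1 (dd (co (ax i) Ψ) u) y₀ + c₂ * cv 1 (dd (co (ax j) Ψ) u) y₀| ≤ M →
  4 ≤ val ε M M' (c₁ * cv 1 (dd (co (ax i) Ψ) u) y₀ + c₂ * cv 1 (dd (co (ax j) Ψ) u) y₀)
    (cv 1 (jac (co (ax i) Ψ) (co (ax j) Ψ) u' u) y₀) →
  (∀ y ∈ ball y₀ 4, Far S (Ψ y) → Pot ε M M' H (ε ^ 160) (co (ax i) Ψ) (co (ax j) Ψ) y) →
  val ε M M' (c₁ * cv 1 (dd (co (ax i) Ψ) u) y₀ + c₂ * cv 1 (dd (co (ax j) Ψ) u) y₀)
    (cv 1 (jac (co (ax i) Ψ) (co (ax j) Ψ) u' u) y₀) + 2 * g < H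

def PigStmt : Prop := Small fun ε => ∀ (δ L : ℝ) (S : Sys d ε δ) (I N₁ : ℕ) (Ψ : ℕ → E d → E d)
  (G : ℕ → Set (E d)), Net S → ε ≤ δ → δ ≤ 1 / 100 → 1 ≤ L → L * ε ≤ 1 →
  ((I * N₁ : ℕ) : ℝ) * ε ≤ 1 → 25 * lg ε ≤ I → 1 ≤ N₁ → 11 / (N₁ : ℝ) * lg ε ^ 11 ≤ δ ^ 4 →
  (2 * L) ^ (4 * d) * ((11 / (N₁ : ℝ)) ^ 5 * lg ε ^ 12) ^ (d - 1) ≤ δ ^ (6 * (d - 1)) →
  ¬ Tower S L (I * N₁) Ψ G

def QuantStmt (γ : ℝ) : Prop := ∀ δ : ℝ, 0 < δ → δ ≤ 1 / 100 → ∀ᶠ N : ℕ in atTop,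
  ∃ ρ : E d → ℝ, Measurable ρ ∧ (∀ x, |ρ x - 1| ≤ 32 * δ) ∧
    ∀ (Ψ : E d → E d) (Y : Set (E d)) (y : E d),
      Ctx ((N : ℝ) ^ γ) (((N : ℝ)⁻¹) ^ (1000 * d * N)) (((N : ℝ)⁻¹) ^ (1000 * d * N)) Ψ Y ρ →
      ¬ ball y 8 ⊆ Y

/-- approximation of a bounded measurable function by a continuous one living in a ball -/
def ApxStmt : Prop := ∀ (g : E d → ℝ) (c : E d) (r B t : ℝ), Measurable g → (∀ x, |g x| ≤ B) →
  0 < t → ∃ h : E d → ℝ, Continuous h ∧ (∀ x, |h x| ≤ B) ∧ (∀ x, x ∉ ball c r → h x = 0) ∧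
    ∫ x in ball c r, |h x - g x| ≤ t

def MainStmt (α : ℝ) : Prop := ∃ ρ : E d → ℝ, ContinuousOn ρ (cube d) ∧ (∀ x ∈ cube d, 0 < ρ x) ∧
  ¬ ∃ f : E d → E d, InjOn f (cube d) ∧
    (∃ C t₀ : ℝ, 0 < C ∧ 0 < t₀ ∧ t₀ < 1 ∧ ∀ x ∈ cube d, ∀ y ∈ cube d,
      (‖x - y‖ ≤ t₀ → ‖f x - f y‖ ≤ C * (‖x - y‖ * Real.log (1 / ‖x - y‖) ^ α)) ∧
      (‖f x - f y‖ ≤ t₀ → ‖x - y‖ ≤ C * (‖f x - f y‖ * Real.log (1 / ‖f x - f y‖) ^ α))) ∧
    ∀ B, MeasurableSet B →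
      ∫⁻ x in cube d ∩ f ⁻¹' B, ENNReal.ofReal (ρ x) = volume (B ∩ f '' cube d)

end Pool.Agent.MP_20bec2_an.h7

end
end MrgPart0

-- ======== part 1: formerly Pool.Agent.MP_20bec2_an.h7.Basic
section MrgPart1

/-! The smoothing operator, line integrals, coordinates (project BIOM). -/

set_option autoImplicit false
set_option linter.unusedSectionVars false

open MeasureTheory Set Metric Filter Topology

noncomputable section

namespace Pool.Agent.MP_20bec2_an.h7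

variable {d : ℕ} {F : Type*} [NormedAddCommGroup F] [NormedSpace ℝ F] [CompleteSpace F]

/-! ### `Small` -/

theorem small_iff {P : ℝ → Prop} : Small P ↔ ∀ᶠ ε in 𝓝[>] (0 : ℝ), P ε := by
  constructor
  · rintro ⟨ε₀, h0, h⟩
    filter_upwards [Ioc_mem_nhdsGT h0] with ε hε using h ε hε.1 hε.2
  · intro h
    obtain ⟨u, hu, h'⟩ := mem_nhdsGT_iff_exists_Ioc_subset.1 h
    exact ⟨u, hu, fun ε h0 h1 => h' ⟨h0, h1⟩⟩

/-- `C * ε ≤ 1` for small `ε` -/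
theorem ev_mul_le (C : ℝ) : ∀ᶠ ε in 𝓝[>] (0 : ℝ), C * ε ≤ 1 := by
  have : Tendsto (fun ε : ℝ => C * ε) (𝓝[>] 0) (𝓝 (C * 0)) :=
    ((continuous_const.mul continuous_id).tendsto 0).mono_left nhdsWithin_le_nhds
  rw [mul_zero] at this
  exact this.eventually (eventually_le_nhds one_pos)

theorem ev_pos : ∀ᶠ ε in 𝓝[>] (0 : ℝ), 0 < ε := self_mem_nhdsWithin

theorem ev_le_lg (C : ℝ) : ∀ᶠ ε in 𝓝[>] (0 : ℝ), C ≤ lg ε := by
  have : Tendsto lg (𝓝[>] 0) atTop := tendsto_neg_atBot_atTop.comp Real.tendsto_log_nhdsGT_zero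
  exact this.eventually (eventually_ge_atTop C)

/-- `lg ε ^ k * ε ≤ 1` for small `ε` -/
theorem ev_lg_pow (k : ℕ) : ∀ᶠ ε in 𝓝[>] (0 : ℝ), lg ε ^ k * ε ≤ 1 := by
  have h1 : Tendsto lg (𝓝[>] 0) atTop := tendsto_neg_atBot_atTop.comp Real.tendsto_log_nhdsGT_zero
  have h2 := (Real.tendsto_pow_mul_exp_neg_atTop_nhds_zero k).comp h1
  filter_upwards [h2.eventually (eventually_le_nhds one_pos), ev_pos] with ε h h0
  simpa [lg, Real.exp_log h0] using h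

/-- power counting -/
theorem mul_pow_le {C ε : ℝ} (h0 : 0 < ε) (h1 : ε ≤ 1) (hC : C * ε ≤ 1) {a b : ℕ} (h : a < b) :
    C * ε ^ b ≤ ε ^ a := by
  obtain ⟨c, rfl⟩ : ∃ c, b = a + c + 1 := ⟨b - a - 1, by omega⟩
  have h2 : ε ^ c ≤ 1 := pow_le_one₀ h0.le h1
  have h3 : 0 < ε ^ a := pow_pos h0 a
  have h4 : 0 < ε ^ c := pow_pos h0 c
  calc C * ε ^ (a + c + 1) = (C * ε) * ε ^ c * ε ^ a := by ring
    _ ≤ 1 * 1 * ε ^ a := by
        refine mul_le_mul_of_nonneg_right ?_ h3.le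
        calc C * ε * ε ^ c ≤ 1 * ε ^ c := mul_le_mul_of_nonneg_right hC h4.le
          _ ≤ 1 * 1 := by linarith
    _ = ε ^ a := by ring

/-! ### the kernel -/

theorem ze_nonneg (w : E d) : 0 ≤ ze d w := (bump d).nonneg_normed w
theorem contDiff_ze {n : ℕ∞} : ContDiff ℝ n (ze d) := (bump d).contDiff_normed
theorem continuous_ze : Continuous (ze d) := (bump d).continuous_normed
theorem ze_supp : HasCompactSupport (ze d) := (bump d).hasCompactSupport_normed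
theorem integral_ze : ∫ w, ze d w = 1 := (bump d).integral_normed
theorem ze_eq_zero {w : E d} (h : 1 ≤ ‖w‖) : ze d w = 0 := by
  by_contra hne
  have : w ∈ Function.support ((bump d).normed volume) := hne
  rw [(bump d).support_normed_eq, mem_ball_zero_iff] at this
  exact absurd this (not_lt.2 h)
theorem ze_eq_ze_zero {w : E d} (h : ‖w‖ ≤ 1 / 2) : ze d w = ze d 0 := by
  have h1 : bump d w = 1 := (bump d).one_of_mem_closedBall (mem_closedBall_zero_iff.2 h)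
  have h2 : bump d 0 = 1 := (bump d).one_of_mem_closedBall (mem_closedBall_self (bump d).rIn_pos.le)
  simp only [ze, ContDiffBump.normed_def, h1, h2]
theorem ze_le_ze_zero (w : E d) : ze d w ≤ ze d 0 := by
  have h2 : bump d 0 = 1 := (bump d).one_of_mem_closedBall (mem_closedBall_self (bump d).rIn_pos.le)
  simp only [ze, ContDiffBump.normed_def, h2]
  exact div_le_div_of_nonneg_right (bump d).le_one (bump d).integral_pos.le
theorem ze_zero_pos : 0 < ze d 0 := by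
  have : (0 : E d) ∈ Function.support ((bump d).normed volume) := by
    rw [(bump d).support_normed_eq]; exact mem_ball_self (bump d).rOut_pos
  exact lt_of_le_of_ne ((bump d).nonneg_normed 0) (Ne.symm this)
theorem one_le_Cz : 1 ≤ Cz d := (exists_Cz d).choose_spec.1
theorem Cz_le_Cw : Cz d ≤ Cw d := by
  have h1 : 1 ≤ Cz d := one_le_Cz
  have h2 : (1 : ℝ) ≤ 2 ^ (d + 1) := one_le_pow₀ one_le_two
  unfold Cw
  nlinarith
theorem one_le_Cw : 1 ≤ Cw d := one_le_Cz.trans Cz_le_Cw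
theorem ze_le (w : E d) : ze d w ≤ Cz d := (exists_Cz d).choose_spec.2.1 w
theorem one_le_Cz_mul : 1 ≤ Cz d * ze d 0 := (exists_Cz d).choose_spec.2.2.1
theorem norm_fderiv_ze (w : E d) : ‖fderiv ℝ (ze d) w‖ ≤ Cz d := (exists_Cz d).choose_spec.2.2.2.1 w
theorem fderiv_ze_lip (w w' : E d) :
    ‖fderiv ℝ (ze d) w - fderiv ℝ (ze d) w'‖ ≤ Cz d * ‖w - w'‖ := (exists_Cz d).choose_spec.2.2.2.2.1 w w'
theorem ze_lip (w w' : E d) : |ze d w - ze d w'| ≤ Cz d * ‖w - w'‖ := by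
  have := (convex_univ (𝕜 := ℝ) (E := E d)).norm_image_sub_le_of_norm_fderiv_le (f := ze d)
    (fun x _ => ((contDiff_ze (n := 1)).differentiable one_ne_zero x)) (fun x _ => norm_fderiv_ze x)
    (mem_univ w') (mem_univ w)
  simpa using this
theorem vol_ball_le (c : E d) {r : ℝ} (hr : 0 ≤ r) : volume.real (ball c r) ≤ Cz d * r ^ d := by
  have h1 : volume.real (ball (0 : E d) 1) ≤ Cz d := (exists_Cz d).choose_spec.2.2.2.2.2
  rcases hr.eq_or_lt with rfl | hr'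
  · simp only [ball_zero, measureReal_empty]
    exact mul_nonneg (zero_le_one.trans one_le_Cz) (pow_nonneg le_rfl _)
  have h2 := Measure.addHaar_ball_of_pos (volume : Measure (E d)) c hr'
  rw [measureReal_def, h2, ENNReal.toReal_mul, ENNReal.toReal_ofReal (by positivity),
    finrank_euclideanSpace_fin, mul_comm]
  exact mul_le_mul_of_nonneg_right h1 (by positivity)
/-- translation in the mean -/
theorem ze_osc (a : E d) : ∫ w, |ze d w - ze d (w - a)| ≤ Cw d * ‖a‖ := by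
  have hi : Integrable (ze d) := continuous_ze.integrable_of_hasCompactSupport ze_supp
  have hi' : Integrable fun w => ze d (w - a) := hi.comp_sub_right a
  have hC : 1 ≤ Cz d := one_le_Cz
  have h2 : (2 : ℝ) ≤ 2 ^ (d + 1) := by
    rw [pow_succ]; nlinarith [one_le_pow₀ (one_le_two (α := ℝ)) (n := d)]
  rcases le_total ‖a‖ 1 with ha | ha
  · have hb : ∀ w, |ze d w - ze d (w - a)| ≤ (ball (0 : E d) 2).indicator (fun _ => Cz d * ‖a‖) w := by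
      intro w
      by_cases hw : w ∈ ball (0 : E d) 2
      · rw [indicator_of_mem hw]; simpa using ze_lip w (w - a)
      · rw [indicator_of_notMem hw]
        rw [mem_ball_zero_iff, not_lt] at hw
        have : 1 ≤ ‖w - a‖ := by linarith [norm_sub_norm_le w a]
        rw [ze_eq_zero (by linarith), ze_eq_zero this]; simp
    have h3 := integral_mono (hi.sub hi').abs
      ((integrableOn_const (C := Cz d * ‖a‖) measure_ball_lt_top.ne).integrable_indicator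
        measurableSet_ball) hb
    rw [integral_indicator_const _ measurableSet_ball, smul_eq_mul] at h3
    have h4 := vol_ball_le (0 : E d) (r := 2) (by norm_num)
    have h5 : 0 ≤ Cz d * ‖a‖ := by positivity
    calc ∫ w, |ze d w - ze d (w - a)| ≤ Cz d * 2 ^ d * (Cz d * ‖a‖) :=
          h3.trans (mul_le_mul_of_nonneg_right h4 h5)
      _ ≤ Cw d * ‖a‖ := by
          unfold Cw
          have : 0 ≤ 2 ^ d * Cz d ^ 2 * ‖a‖ := by positivity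
          rw [pow_succ]; nlinarith
  · have h3 : ∫ w, |ze d w - ze d (w - a)| ≤ ∫ w, (ze d w + ze d (w - a)) := by
      refine integral_mono (hi.sub hi').abs (hi.add hi') fun w => ?_
      have := ze_nonneg w
      have := ze_nonneg (w - a)
      exact abs_le.2 ⟨by linarith, by linarith⟩
    rw [integral_add hi hi', integral_sub_right_eq_self (ze d) a, integral_ze] at h3
    have : 2 ≤ Cw d := by unfold Cw; nlinarith
    nlinarith

/-! ### smoothing -/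

theorem integrable_cv {G : E d → F} (hG : Continuous G) (μ : ℝ) (y : E d) :
    Integrable fun w => ze d w • G (y - μ • w) :=   (continuous_ze.smul (hG.comp (by fun_prop))).integrable_of_hasCompactSupport ze_supp.smul_right
theorem cv_const (μ : ℝ) (c : F) (y : E d) : cv μ (fun _ => c) y = c := by
  rw [cv, integral_smul_const, integral_ze, one_smul]
theorem cv_add {G G' : E d → F} (hG : Continuous G) (hG' : Continuous G') (μ : ℝ) (y : E d) :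
    cv μ (fun z => G z + G' z) y = cv μ G y + cv μ G' y := by
  simp only [cv, smul_add]
  exact integral_add (integrable_cv hG μ y) (integrable_cv hG' μ y)
theorem cv_sub {G G' : E d → F} (hG : Continuous G) (hG' : Continuous G') (μ : ℝ) (y : E d) :
    cv μ (fun z => G z - G' z) y = cv μ G y - cv μ G' y := by
  simp only [cv, smul_sub]
  exact integral_sub (integrable_cv hG μ y) (integrable_cv hG' μ y)
theorem cv_neg (G : E d → F) (μ : ℝ) (y : E d) : cv μ (fun z => -G z) y = -cv μ G y := by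
  simp only [cv, smul_neg, integral_neg]
theorem cv_smul (c : ℝ) (G : E d → F) (μ : ℝ) (y : E d) :
    cv μ (fun z => c • G z) y = c • cv μ G y := by
  simp only [cv, smul_comm (ze d _) c, integral_smul]
theorem cv_const_mul (c : ℝ) (G : E d → ℝ) (μ : ℝ) (y : E d) :
    cv μ (fun z => c * G z) y = c * cv μ G y := cv_smul c G μ y
theorem cv_mul_const (c : ℝ) (G : E d → ℝ) (μ : ℝ) (y : E d) :
    cv μ (fun z => G z * c) y = cv μ G y * c := by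
  simp only [mul_comm _ c]; exact cv_const_mul c G μ y
theorem cv_div_const (c : ℝ) (G : E d → ℝ) (μ : ℝ) (y : E d) :
    cv μ (fun z => G z / c) y = cv μ G y / c := by
  simp only [div_eq_mul_inv]; exact cv_mul_const _ G μ y
theorem cv_cmul (c : ℂ) (G : E d → ℂ) (μ : ℝ) (y : E d) :
    cv μ (fun z => c * G z) y = c * cv μ G y := by
  simp only [cv, ← integral_const_mul, mul_smul_comm]
theorem cv_sum {ι : Type*} (s : Finset ι) {G : ι → E d → F} (hG : ∀ i ∈ s, Continuous (G i))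
    (μ : ℝ) (y : E d) : cv μ (fun z => ∑ i ∈ s, G i z) y = ∑ i ∈ s, cv μ (G i) y := by
  simp only [cv, Finset.smul_sum]
  exact integral_finsetSum s fun i hi => integrable_cv (hG i hi) μ y
theorem cv_clm {F' : Type*} [NormedAddCommGroup F'] [NormedSpace ℝ F'] [CompleteSpace F']
    (A : F →L[ℝ] F') {G : E d → F} (hG : Continuous G) (μ : ℝ) (y : E d) :
    cv μ (fun z => A (G z)) y = A (cv μ G y) := by
  simp only [cv, ← map_smul]
  exact A.integral_comp_comm (integrable_cv hG μ y)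
theorem mem_cb {μ : ℝ} (hμ : 0 ≤ μ) (y : E d) {w : E d} (hw : ze d w ≠ 0) :
    y - μ • w ∈ closedBall y μ := by
  have h1 : ‖w‖ ≤ 1 := by
    by_contra h; exact hw (ze_eq_zero (not_le.1 h).le)
  rw [mem_closedBall, dist_eq_norm, sub_sub_cancel_left, norm_neg, norm_smul, Real.norm_of_nonneg hμ]
  nlinarith
theorem cv_congr {G G' : E d → F} {μ : ℝ} (hμ : 0 ≤ μ) {y : E d}
    (h : ∀ z ∈ closedBall y μ, G z = G' z) : cv μ G y = cv μ G' y := by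
  refine integral_congr_ae (Eventually.of_forall fun w => ?_)
  by_cases hw : ze d w = 0
  · simp [hw]
  · simp only [h _ (mem_cb hμ y hw)]
theorem cv_mono {G G' : E d → ℝ} (hG : Continuous G) (hG' : Continuous G') {μ : ℝ} (hμ : 0 ≤ μ)
    {y : E d} (h : ∀ z ∈ closedBall y μ, G z ≤ G' z) : cv μ G y ≤ cv μ G' y := by
  refine integral_mono (integrable_cv hG μ y) (integrable_cv hG' μ y) fun w => ?_
  by_cases hw : ze d w = 0
  · simp [hw]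
  · exact mul_le_mul_of_nonneg_left (h _ (mem_cb hμ y hw)) (ze_nonneg w)
theorem cv_nonneg {G : E d → ℝ} (h : ∀ z, 0 ≤ G z) (μ : ℝ) (y : E d) : 0 ≤ cv μ G y :=   integral_nonneg fun w => mul_nonneg (ze_nonneg w) (h _)
theorem norm_cv_le_cv {G : E d → F} {G' : E d → ℝ} (hG' : Continuous G') {μ : ℝ} (hμ : 0 ≤ μ)
    {y : E d} (h : ∀ z ∈ closedBall y μ, ‖G z‖ ≤ G' z) : ‖cv μ G y‖ ≤ cv μ G' y := by
  refine norm_integral_le_of_norm_le (integrable_cv hG' μ y) (Eventually.of_forall fun w => ?_)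
  by_cases hw : ze d w = 0
  · simp [hw]
  · rw [norm_smul, Real.norm_of_nonneg (ze_nonneg w)]
    exact mul_le_mul_of_nonneg_left (h _ (mem_cb hμ y hw)) (ze_nonneg w)
theorem norm_cv_le {G : E d → F} {B μ : ℝ} (hμ : 0 ≤ μ) {y : E d}
    (h : ∀ z ∈ closedBall y μ, ‖G z‖ ≤ B) : ‖cv μ G y‖ ≤ B := by
  have := norm_cv_le_cv (G' := fun _ => B) continuous_const hμ h
  rwa [cv_const] at this
theorem continuous_cv {G : E d → F} (hG : Continuous G) (μ : ℝ) : Continuous (cv μ G) := by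
  refine continuousOn_univ.1 (continuousOn_integral_of_compact_support (k := tsupport (ze d))
    (f := fun y w => ze d w • G (y - μ • w)) ze_supp ?_ fun y w _ hw => ?_)
  · refine Continuous.continuousOn ?_
    exact (continuous_ze.comp continuous_snd).smul (hG.comp (by fun_prop))
  · rw [image_eq_zero_of_notMem_tsupport hw, zero_smul]
theorem cv_shift (G : E d → F) (μ : ℝ) (a y : E d) :
    cv μ (fun z => G (z + a)) y = cv μ G (y + a) := by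
  simp only [cv, sub_add_eq_add_sub]
/-- the kernel form of smoothing -/
theorem cv_eq_kernel (G : E d → F) {μ : ℝ} (hμ : 0 < μ) (y : E d) :
    cv μ G y = ∫ z, ((μ ^ d)⁻¹ * ze d (μ⁻¹ • (y - z))) • G z := by
  have h1 := Measure.integral_comp_smul (volume : Measure (E d))
    (fun w => ze d (μ⁻¹ • w) • G (y - w)) μ
  simp only [inv_smul_smul₀ hμ.ne', finrank_euclideanSpace_fin] at h1
  rw [cv, h1, abs_of_pos (by positivity), ← integral_sub_left_eq_self _ volume y, ← integral_smul]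
  simp only [sub_sub_cancel, mul_smul]
theorem cv_lip {G : E d → F} (hG : Continuous G) {B μ : ℝ} (hμ : 0 < μ) (hB : ∀ z, ‖G z‖ ≤ B)
    (y y' : E d) : ‖cv μ G y - cv μ G y'‖ ≤ Cw d * B * ‖y - y'‖ / μ := by
  set a : E d := μ⁻¹ • (y' - y) with ha
  have hB0 : 0 ≤ B := (norm_nonneg _).trans (hB 0)
  have h1 : cv μ G y' = ∫ w, ze d (w + a) • G (y - μ • w) := by
    rw [cv, ← integral_add_right_eq_self _ a]
    refine integral_congr_ae (Eventually.of_forall fun w => ?_)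
    simp only [ha, smul_add, smul_inv_smul₀ hμ.ne']
    congr 2; abel
  have hi : Integrable (ze d) := continuous_ze.integrable_of_hasCompactSupport ze_supp
  have hs : HasCompactSupport fun w => ze d (w + a) :=
    ze_supp.comp_homeomorph (Homeomorph.addRight a)
  have hi2 : Integrable fun w => ze d (w + a) • G (y - μ • w) :=
    ((continuous_ze.comp (by fun_prop)).smul (hG.comp (by fun_prop))).integrable_of_hasCompactSupport
      hs.smul_right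
  rw [h1, cv, ← integral_sub (integrable_cv hG μ y) hi2]
  have h2 : ‖∫ w, ze d w • G (y - μ • w) - ze d (w + a) • G (y - μ • w)‖ ≤
      ∫ w, |ze d w - ze d (w - -a)| * B := by
    refine norm_integral_le_of_norm_le ((hi.sub (hi.comp_sub_right (-a))).abs.mul_const B)
      (Eventually.of_forall fun w => ?_)
    rw [← sub_smul, norm_smul, sub_neg_eq_add]
    exact mul_le_mul_of_nonneg_left (hB _) (abs_nonneg _)
  rw [integral_mul_const] at h2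
  have h3 := ze_osc (-a)
  have h4 : ‖-a‖ = ‖y - y'‖ / μ := by
    rw [norm_neg, ha, norm_smul, norm_inv, Real.norm_of_nonneg hμ.le, norm_sub_rev]; ring
  rw [h4] at h3
  calc _ ≤ Cw d * (‖y - y'‖ / μ) * B := h2.trans (mul_le_mul_of_nonneg_right h3 hB0)
    _ = _ := by ring
theorem cv_comm {G : E d → F} (hG : Continuous G) (μ s : ℝ) (y : E d) :
    cv μ (cv s G) y = cv s (cv μ G) y := by
  have hc : Continuous fun z : E d × E d => ze d z.1 • ze d z.2 • G (y - μ • z.1 - s • z.2) :=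
    (continuous_ze.comp continuous_fst).smul
      ((continuous_ze.comp continuous_snd).smul (hG.comp (by fun_prop)))
  have hs : HasCompactSupport fun z : E d × E d =>
      ze d z.1 • ze d z.2 • G (y - μ • z.1 - s • z.2) := by
    refine HasCompactSupport.intro (K := closedBall 0 1 ×ˢ closedBall 0 1)
      ((isCompact_closedBall _ _).prod (isCompact_closedBall _ _)) fun z hz => ?_
    rw [mem_prod, not_and_or, mem_closedBall_zero_iff, mem_closedBall_zero_iff, not_le, not_le] at hz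
    rcases hz with h | h <;> simp [ze_eq_zero h.le]
  have h := integral_integral_swap (μ := (volume : Measure (E d))) (ν := (volume : Measure (E d)))
    (f := fun w w' => ze d w • ze d w' • G (y - μ • w - s • w'))
    (hc.integrable_of_hasCompactSupport hs)
  simp only [cv, ← integral_smul]
  rw [h]
  congr 1; ext w'; congr 1; ext w
  rw [smul_comm, sub_right_comm]
theorem cv_cv {G : E d → F} (hG : Continuous G) {B μ s : ℝ} (hμ : 0 < μ) (hs : 0 ≤ s)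
    (hB : ∀ z, ‖G z‖ ≤ B) (y : E d) : ‖cv μ (cv s G) y - cv μ G y‖ ≤ Cw d * B * s / μ := by
  have hB0 : 0 ≤ B := (norm_nonneg _).trans (hB 0)
  have hC : 0 ≤ Cw d := zero_le_one.trans one_le_Cw
  rw [cv_comm hG, ← cv_const s (cv μ G y) y, ← cv_sub (continuous_cv hG μ) continuous_const]
  refine norm_cv_le hs fun z hz => (cv_lip hG hμ hB z y).trans ?_
  rw [mem_closedBall, dist_eq_norm] at hz
  gcongr
/-- a slowly varying factor comes out of the smoothing -/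
theorem cv_smul_sub {G : E d → ℝ} {φ : E d → F} (hG : Continuous G) (hφ : Continuous φ)
    {B η μ : ℝ} (hμ : 0 ≤ μ) {y : E d} (c : F) (hB : ∀ z ∈ closedBall y μ, |G z| ≤ B)
    (hc : ∀ z ∈ closedBall y μ, ‖φ z - c‖ ≤ η) :
    ‖cv μ (fun z => G z • φ z) y - cv μ G y • c‖ ≤ η * B := by
  have hη : 0 ≤ η := (norm_nonneg _).trans (hc y (mem_closedBall_self hμ))
  have h1 : cv μ G y • c = cv μ (fun z => G z • c) y :=
    (cv_clm (ContinuousLinearMap.toSpanSingleton ℝ c) hG μ y).symm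
  rw [h1, ← cv_sub (G := fun z => G z • φ z) (G' := fun z => G z • c) (hG.smul hφ)
    (hG.smul continuous_const)]
  refine norm_cv_le hμ fun z hz => ?_
  rw [← smul_sub, norm_smul, mul_comm]
  exact mul_le_mul (hc z hz) (hB z hz) (norm_nonneg _) hη
theorem cv_mul_sub {G φ : E d → ℝ} (hG : Continuous G) (hφ : Continuous φ)
    {B η μ : ℝ} (hμ : 0 ≤ μ) {y : E d} (c : ℝ) (hB : ∀ z ∈ closedBall y μ, |G z| ≤ B)
    (hc : ∀ z ∈ closedBall y μ, |φ z - c| ≤ η) :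
    |cv μ (fun z => φ z * G z) y - c * cv μ G y| ≤ η * B := by
  have := cv_smul_sub hG hφ hμ c hB hc
  simpa only [smul_eq_mul, Real.norm_eq_abs, mul_comm] using this
theorem cv_supp {G : E d → F} (hG : HasCompactSupport G) (μ : ℝ) :
    HasCompactSupport (cv μ G) := by
  obtain ⟨R, hR⟩ := hG.isCompact.isBounded.subset_closedBall 0
  refine HasCompactSupport.intro (isCompact_closedBall (0 : E d) (R + |μ|)) fun y hy => ?_
  refine integral_eq_zero_of_ae (Eventually.of_forall fun w => ?_)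
  by_cases hw : ze d w = 0
  · simp [hw]
  have h1 : ‖w‖ ≤ 1 := by
    by_contra h; exact hw (ze_eq_zero (not_le.1 h).le)
  have h2 : y - μ • w ∉ tsupport G := fun h => by
    have h3 := mem_closedBall_zero_iff.1 (hR h)
    rw [mem_closedBall_zero_iff, not_le] at hy
    have h4 := norm_sub_norm_le y (μ • w)
    rw [norm_smul, Real.norm_eq_abs] at h4
    nlinarith [abs_nonneg μ]
  simp [image_eq_zero_of_notMem_tsupport h2]
theorem integral_cv {G : E d → F} (hG : Continuous G) (hs : HasCompactSupport G) (μ : ℝ) :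
    ∫ y, cv μ G y = ∫ y, G y := by
  obtain ⟨R, hR⟩ := hs.isCompact.isBounded.subset_closedBall 0
  have hc : Continuous fun z : E d × E d => ze d z.2 • G (z.1 - μ • z.2) :=
    (continuous_ze.comp continuous_snd).smul (hG.comp (by fun_prop))
  have hs' : HasCompactSupport fun z : E d × E d => ze d z.2 • G (z.1 - μ • z.2) := by
    refine HasCompactSupport.intro (K := closedBall 0 (R + |μ|) ×ˢ closedBall 0 1)
      ((isCompact_closedBall _ _).prod (isCompact_closedBall _ _)) fun z hz => ?_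
    by_cases h1 : ‖z.2‖ ≤ 1
    · have h2 : z.1 - μ • z.2 ∉ tsupport G := fun h => by
        have h3 := mem_closedBall_zero_iff.1 (hR h)
        have h4 := norm_sub_norm_le z.1 (μ • z.2)
        rw [norm_smul, Real.norm_eq_abs] at h4
        refine hz ⟨mem_closedBall_zero_iff.2 ?_, mem_closedBall_zero_iff.2 h1⟩
        nlinarith [abs_nonneg μ]
      simp [image_eq_zero_of_notMem_tsupport h2]
    · simp [ze_eq_zero (not_le.1 h1).le]
  have h := integral_integral_swap (μ := (volume : Measure (E d))) (ν := (volume : Measure (E d)))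
    (f := fun y w => ze d w • G (y - μ • w)) (hc.integrable_of_hasCompactSupport hs')
  simp only [cv]
  rw [h]
  simp only [integral_smul, integral_sub_right_eq_self G, integral_smul_const, integral_ze, one_smul]
/-- smoothing commutes with integration in a parameter -/
theorem cv_intervalIntegral {G : ℝ → E d → F} (hG : Continuous fun z : ℝ × E d => G z.1 z.2)
    (a b μ : ℝ) (y : E d) :
    cv μ (fun z => ∫ τ in a..b, G τ z) y = ∫ τ in a..b, cv μ (G τ) y := by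
  have hc : Continuous fun z : E d × ℝ => ze d z.1 • G z.2 (y - μ • z.1) :=
    (continuous_ze.comp continuous_fst).smul
      (hG.comp (f := fun z : E d × ℝ => (z.2, y - μ • z.1)) (by fun_prop))
  have hi : Integrable (fun z : E d × ℝ => ze d z.1 • G z.2 (y - μ • z.1))
      ((volume : Measure (E d)).prod (volume.restrict (uIoc a b))) := by
    have h1 : IntegrableOn (fun z : E d × ℝ => ze d z.1 • G z.2 (y - μ • z.1))
        (closedBall 0 1 ×ˢ uIcc a b) ((volume : Measure (E d)).prod volume) :=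
      hc.continuousOn.integrableOn_compact ((isCompact_closedBall _ _).prod isCompact_uIcc)
    have h2 : IntegrableOn (fun z : E d × ℝ => ze d z.1 • G z.2 (y - μ • z.1))
        (univ ×ˢ uIoc a b) ((volume : Measure (E d)).prod volume) := by
      refine h1.of_forall_sdiff_eq_zero (MeasurableSet.univ.prod measurableSet_uIoc) fun z hz => ?_
      have : ¬ ‖z.1‖ ≤ 1 := fun h =>
        hz.2 ⟨mem_closedBall_zero_iff.2 h, uIoc_subset_uIcc hz.1.2⟩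
      simp [ze_eq_zero (not_le.1 this).le]
    rwa [IntegrableOn, ← Measure.prod_restrict, Measure.restrict_univ] at h2
  have h := integral_integral_swap (f := fun (w : E d) (τ : ℝ) => ze d w • G τ (y - μ • w)) hi
  simp only [cv, intervalIntegral.intervalIntegral_eq_integral_uIoc, smul_comm (ze d _),
    integral_smul] at h ⊢
  rw [h]

/-! ### derivatives -/

theorem continuous_dd {G : E d → F} (hG : ContDiff ℝ 1 G) (v : E d) : Continuous (dd G v) :=   (hG.continuous_fderiv one_ne_zero).clm_apply continuous_const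
theorem contDiff_dd {G : E d → F} (hG : ContDiff ℝ 2 G) (v : E d) : ContDiff ℝ 1 (dd G v) :=   (hG.fderiv_right (m := 1) (by norm_num)).clm_apply contDiff_const
theorem dd_comm {G : E d → F} (hG : ContDiff ℝ 2 G) (v v' y : E d) :
    dd (dd G v) v' y = dd (dd G v') v y := by
  have h1 : ContDiff ℝ 1 (fderiv ℝ G) := hG.fderiv_right (by norm_num)
  have h2 : ∀ w w' : E d, dd (dd G w) w' y = fderiv ℝ (fderiv ℝ G) y w' w := fun w w' => by
    have := ((h1.differentiable one_ne_zero y).hasFDerivAt.clm_apply (hasFDerivAt_const w y)).fderiv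
    unfold dd
    rw [this]; simp
  rw [h2, h2]
  exact (hG.contDiffAt.isSymmSndFDerivAt (by simp)).eq v' v
theorem dd_smul {a : E d → ℝ} {G : E d → F} (ha : ContDiff ℝ 1 a) (hG : ContDiff ℝ 1 G)
    (v y : E d) : dd (fun z => a z • G z) v y = a y • dd G v y + dd a v y • G y := by
  have := ((ha.differentiable one_ne_zero y).hasFDerivAt.smul
    (hG.differentiable one_ne_zero y).hasFDerivAt).fderiv
  unfold dd
  rw [show (fun z => a z • G z) = a • G from rfl, this]; simp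
theorem dd_mul {a G : E d → ℝ} (ha : ContDiff ℝ 1 a) (hG : ContDiff ℝ 1 G) (v y : E d) :
    dd (fun z => a z * G z) v y = a y * dd G v y + dd a v y * G y :=   dd_smul ha hG v y
theorem dd_comp {φ : ℝ → F} {φ' : F} {p : E d → ℝ} (hp : ContDiff ℝ 1 p) (v y : E d)
    (h : HasDerivAt φ φ' (p y)) : dd (fun z => φ (p z)) v y = dd p v y • φ' := by
  have := (h.hasFDerivAt.comp y (hp.differentiable one_ne_zero y).hasFDerivAt).fderiv
  unfold dd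
  rw [show (fun z => φ (p z)) = φ ∘ p from rfl, this]; simp
theorem hasDerivAt_line {G : E d → F} (hG : ContDiff ℝ 1 G) (u y : E d) (τ : ℝ) :
    HasDerivAt (fun t : ℝ => G (y + t • u)) (dd G u (y + τ • u)) τ := by
  have h1 : HasDerivAt (fun t : ℝ => y + t • u) u τ := by
    simpa using ((hasDerivAt_id τ).smul_const u).const_add y
  exact (hG.differentiable one_ne_zero _).hasFDerivAt.comp_hasDerivAt τ h1
theorem hasFDerivAt_cv {G : E d → F} (hG : ContDiff ℝ 1 G) (μ : ℝ) (y : E d) :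
    HasFDerivAt (cv μ G) (cv μ (fderiv ℝ G) y) y := by
  have hc : Continuous (fderiv ℝ G) := hG.continuous_fderiv one_ne_zero
  obtain ⟨B, hB⟩ := (isCompact_closedBall y (1 + |μ|)).exists_bound_of_continuousOn hc.continuousOn
  have hi : Integrable (ze d) := continuous_ze.integrable_of_hasCompactSupport ze_supp
  refine hasFDerivAt_integral_of_dominated_of_fderiv_le (s := ball y 1)
    (F := fun z w => ze d w • G (z - μ • w)) (F' := fun z w => ze d w • fderiv ℝ G (z - μ • w))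
    (bound := fun w => ze d w * B) (ball_mem_nhds y one_pos)
    (Eventually.of_forall fun z => (integrable_cv hG.continuous μ z).1)
    (integrable_cv hG.continuous μ y) (integrable_cv hc μ y).1
    (Eventually.of_forall fun w z hz => ?_) (hi.mul_const B) (Eventually.of_forall fun w z _ => ?_)
  · by_cases hw : ze d w = 0
    · simp [hw]
    have h1 : ‖w‖ ≤ 1 := by
      by_contra h; exact hw (ze_eq_zero (not_le.1 h).le)
    rw [norm_smul, Real.norm_of_nonneg (ze_nonneg w)]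
    refine mul_le_mul_of_nonneg_left (hB _ ?_) (ze_nonneg w)
    rw [mem_ball, dist_eq_norm] at hz
    rw [mem_closedBall, dist_eq_norm, sub_right_comm]
    have h4 := norm_sub_le (z - y) (μ • w)
    rw [norm_smul, Real.norm_eq_abs] at h4
    nlinarith [abs_nonneg μ]
  · have h1 := (hG.differentiable one_ne_zero (z - μ • w)).hasFDerivAt.comp z
      ((hasFDerivAt_id z).sub_const (μ • w))
    rw [ContinuousLinearMap.comp_id] at h1
    exact h1.const_smul (ze d w)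
theorem fderiv_cv {G : E d → F} (hG : ContDiff ℝ 1 G) (μ : ℝ) :
    fderiv ℝ (cv μ G) = cv μ (fderiv ℝ G) := funext fun y => (hasFDerivAt_cv hG μ y).fderiv
theorem contDiff_cv {G : E d → F} (hG : ContDiff ℝ 1 G) (μ : ℝ) : ContDiff ℝ 1 (cv μ G) := by
  refine contDiff_one_iff_fderiv.2 ⟨fun y => (hasFDerivAt_cv hG μ y).differentiableAt, ?_⟩
  rw [fderiv_cv hG]
  exact continuous_cv (hG.continuous_fderiv one_ne_zero) μ
theorem contDiff_two_cv {G : E d → F} (hG : ContDiff ℝ 2 G) (μ : ℝ) :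
    ContDiff ℝ 2 (cv μ G) := by
  have h1 : ContDiff ℝ 1 G := hG.of_le (by norm_num)
  rw [show (2 : WithTop ℕ∞) = 1 + 1 from rfl, contDiff_succ_iff_fderiv]
  refine ⟨fun y => (hasFDerivAt_cv h1 μ y).differentiableAt, by simp, ?_⟩
  rw [fderiv_cv h1]
  exact contDiff_cv (hG.fderiv_right (by norm_num)) μ
theorem dd_cv {G : E d → F} (hG : ContDiff ℝ 1 G) (μ : ℝ) (v y : E d) :
    dd (cv μ G) v y = cv μ (dd G v) y := by
  unfold dd
  rw [fderiv_cv hG]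
  exact (cv_clm (ContinuousLinearMap.apply ℝ F v) (hG.continuous_fderiv one_ne_zero) μ y).symm
/-- integration by parts -/
theorem norm_cv_dd_le {G : E d → F} (hG : ContDiff ℝ 1 G) {B μ : ℝ} (hμ : 0 < μ)
    (hB : ∀ z, ‖G z‖ ≤ B) (v y : E d) : ‖cv μ (dd G v) y‖ ≤ Cw d * B * ‖v‖ / μ := by
  have hB0 : 0 ≤ B := (norm_nonneg _).trans (hB 0)
  have hC : 0 ≤ Cw d := zero_le_one.trans one_le_Cw
  rw [← dd_cv hG]
  have h1 : ‖fderiv ℝ (cv μ G) y‖ ≤ Cw d * B / μ := by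
    refine norm_fderiv_le_of_lip' ℝ (by positivity) (Eventually.of_forall fun z => ?_)
    have := cv_lip hG.continuous hμ hB z y
    calc _ ≤ _ := this
      _ = _ := by ring
  calc ‖dd (cv μ G) v y‖ ≤ ‖fderiv ℝ (cv μ G) y‖ * ‖v‖ := ContinuousLinearMap.le_opNorm _ _
    _ ≤ Cw d * B / μ * ‖v‖ := mul_le_mul_of_nonneg_right h1 (norm_nonneg _)
    _ = _ := by ring
/-- the exterior derivative of a smoothed one-form -/
theorem cv_curl {α : E d → F} {β : E d → ℝ} (hα : ContDiff ℝ 1 α) (hβ : ContDiff ℝ 2 β) (μ : ℝ)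
    (v' v y : E d) :
    dd (cv μ fun z => dd β v z • α z) v' y - dd (cv μ fun z => dd β v' z • α z) v y =
      cv μ (fun z => dd β v z • dd α v' z - dd β v' z • dd α v z) y := by
  have h1 : ∀ w, ContDiff ℝ 1 fun z => dd β w z • α z := fun w => (contDiff_dd hβ w).smul hα
  rw [dd_cv (h1 v), dd_cv (h1 v'), ← cv_sub (continuous_dd (h1 v) v') (continuous_dd (h1 v') v)]
  congr 1; ext z
  rw [dd_smul (contDiff_dd hβ v) hα, dd_smul (contDiff_dd hβ v') hα, dd_comm hβ v v']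
  abel
/-- the null Lagrangian estimate -/
theorem abs_cv_jac_le {α β : E d → ℝ} {L B μ : ℝ} (hα : ContDiff ℝ 1 α) (hβ : Sm L β) (hμ : 0 < μ)
    (hB : ∀ z, |α z| ≤ B) {v' v : E d} (hv' : ‖v'‖ = 1) (hv : ‖v‖ = 1) (y : E d) :
    |cv μ (jac α β v' v) y| ≤ 2 * Cw d * B * L / μ := by
  have h1 : ∀ w, ContDiff ℝ 1 fun z => dd β w z • α z := fun w => (contDiff_dd hβ.cd w).smul hα
  have hL : 0 ≤ L := (norm_nonneg _).trans (hβ.bd 0)
  have h2 : ∀ w : E d, ‖w‖ = 1 → ∀ z, ‖dd β w z • α z‖ ≤ L * B := fun w hw z => by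
    rw [norm_smul]
    refine mul_le_mul ?_ (hB z) (norm_nonneg _) hL
    have := (fderiv ℝ β z).le_opNorm w
    rw [hw, mul_one] at this
    exact this.trans (hβ.bd z)
  have h3 := cv_curl hα hβ.cd μ v' v y
  have h4 : jac α β v' v = fun z => dd β v z • dd α v' z - dd β v' z • dd α v z := by
    ext z; simp only [jac, smul_eq_mul]; ring
  rw [h4, ← h3, dd_cv (h1 v), dd_cv (h1 v')]
  have h5 := norm_cv_dd_le (h1 v) hμ (h2 v hv) v' y
  have h6 := norm_cv_dd_le (h1 v') hμ (h2 v' hv') v y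
  rw [hv'] at h5; rw [hv] at h6
  calc _ ≤ _ := norm_sub_le _ _
    _ ≤ _ := add_le_add h5 h6
    _ = _ := by ring

theorem Sm.nonneg {L : ℝ} {G : E d → F} (h : Sm L G) : 0 ≤ L := (norm_nonneg _).trans (h.bd 0)
theorem Sm.mono {L L' : ℝ} {G : E d → F} (h : Sm L G) (hL : L ≤ L') : Sm L' G := ⟨h.cd, fun y => (h.bd y).trans hL⟩
theorem Sm.cd1 {L : ℝ} {G : E d → F} (h : Sm L G) : ContDiff ℝ 1 G := h.cd.of_le (by norm_num)
theorem Sm.cont {L : ℝ} {G : E d → F} (h : Sm L G) : Continuous G := h.cd.continuous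
theorem Sm.lip {L : ℝ} {G : E d → F} (h : Sm L G) (y y' : E d) :
    ‖G y - G y'‖ ≤ L * ‖y - y'‖ :=   (convex_univ (𝕜 := ℝ) (E := E d)).norm_image_sub_le_of_norm_fderiv_le (f := G)
    (fun x _ => h.cd1.differentiable one_ne_zero x) (fun x _ => h.bd x) (mem_univ y') (mem_univ y)
theorem Sm.dd_le {L : ℝ} {G : E d → F} (h : Sm L G) {v : E d} (hv : ‖v‖ = 1) (y : E d) :
    ‖dd G v y‖ ≤ L := by
  have := (fderiv ℝ G y).le_opNorm v
  rw [hv, mul_one] at this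
  exact this.trans (h.bd y)
theorem Sm.cv {L : ℝ} {G : E d → F} (h : Sm L G) (μ : ℝ) : Sm L (cv μ G) := by
  refine ⟨contDiff_two_cv h.cd μ, fun y => ?_⟩
  rw [fderiv_cv h.cd1]
  have hi : Integrable (ze d) := continuous_ze.integrable_of_hasCompactSupport ze_supp
  have := norm_integral_le_of_norm_le (f := fun w => ze d w • fderiv ℝ G (y - μ • w))
    (hi.mul_const L) (Eventually.of_forall fun w => by
      rw [norm_smul, Real.norm_of_nonneg (ze_nonneg w)]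
      exact mul_le_mul_of_nonneg_left (h.bd _) (ze_nonneg w))
  rwa [integral_mul_const, integral_ze, one_mul] at this
theorem Sm.cv_sub {L μ : ℝ} {G : E d → F} (h : Sm L G) (hμ : 0 ≤ μ) (y : E d) :
    ‖h7.cv μ G y - G y‖ ≤ L * μ := by
  rw [← cv_const μ (G y) y, ← h7.cv_sub h.cont continuous_const]
  refine norm_cv_le hμ fun z hz => (h.lip z y).trans ?_
  rw [mem_closedBall, dist_eq_norm] at hz
  exact mul_le_mul_of_nonneg_left hz h.nonneg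
theorem Sm.co {L : ℝ} {Ψ : E d → E d} (h : Sm L Ψ) {e : E d} (he : ‖e‖ = 1) : Sm L (co e Ψ) := by
  refine ⟨(innerSL ℝ e).contDiff.comp h.cd, fun y => ?_⟩
  have h1 := ((innerSL ℝ e).hasFDerivAt.comp y (h.cd1.differentiable one_ne_zero y).hasFDerivAt).fderiv
  rw [show h7.co e Ψ = innerSL ℝ e ∘ Ψ from rfl, h1]
  refine (ContinuousLinearMap.opNorm_comp_le _ _).trans ?_
  rw [innerSL_apply_norm, he, one_mul]
  exact h.bd y
theorem fderiv_scl {s : ℝ} {Ψ : E d → E d} (h : ContDiff ℝ 1 Ψ) (hs : 0 < s) (y : E d) :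
    fderiv ℝ (scl s Ψ) y = fderiv ℝ Ψ (s • y) := by
  have h1 := (((h.differentiable one_ne_zero (s • y)).hasFDerivAt.comp y
    ((hasFDerivAt_id y).const_smul s)).const_smul s⁻¹).fderiv
  refine Eq.trans h1 ?_
  ext1 v
  simp [smul_smul, hs.ne']
theorem Sm.scl {L s : ℝ} {Ψ : E d → E d} (h : Sm L Ψ) (hs : 0 < s) : Sm L (scl s Ψ) := by
  refine ⟨(h.cd.comp (contDiff_id.const_smul s)).const_smul s⁻¹, fun y => ?_⟩
  rw [fderiv_scl h.cd1 hs]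
  exact h.bd _
theorem abs_jac_le {L : ℝ} {q p : E d → ℝ} (hq : Sm L q) (hp : Sm L p) {v' v : E d}
    (hv' : ‖v'‖ = 1) (hv : ‖v‖ = 1) (y : E d) : |jac q p v' v y| ≤ 2 * L ^ 2 := by
  have a1 := hq.dd_le hv' y
  have a2 := hq.dd_le hv y
  have a3 := hp.dd_le hv' y
  have a4 := hp.dd_le hv y
  have hL := hq.nonneg
  calc _ ≤ ‖dd q v' y * dd p v y‖ + ‖dd q v y * dd p v' y‖ := norm_sub_le _ _
    _ ≤ L * L + L * L := by
        rw [norm_mul, norm_mul]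
        exact add_le_add (mul_le_mul a1 a4 (norm_nonneg _) hL) (mul_le_mul a2 a3 (norm_nonneg _) hL)
    _ = _ := by ring
theorem continuous_jac {q p : E d → ℝ} (hq : ContDiff ℝ 1 q) (hp : ContDiff ℝ 1 p) (v' v : E d) :
    Continuous (jac q p v' v) :=   ((continuous_dd hq v').mul (continuous_dd hp v)).sub
    ((continuous_dd hq v).mul (continuous_dd hp v'))
theorem cv_co {Ψ : E d → E d} (h : Continuous Ψ) (e : E d) (μ : ℝ) (y : E d) :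
    cv μ (co e Ψ) y = inner ℝ e (cv μ Ψ y) := cv_clm (innerSL ℝ e) h μ y
theorem dd_co {Ψ : E d → E d} (h : ContDiff ℝ 1 Ψ) (e v y : E d) :
    dd (co e Ψ) v y = inner ℝ e (dd Ψ v y) := by
  have h1 := ((innerSL ℝ e).hasFDerivAt.comp y (h.differentiable one_ne_zero y).hasFDerivAt).fderiv
  unfold dd
  rw [show co e Ψ = innerSL ℝ e ∘ Ψ from rfl, h1]; rfl
theorem norm_ax (i : Fin d) : ‖ax i‖ = 1 := by simp [ax]
theorem on_ax {i j : Fin d} (h : i ≠ j) : ON (ax i) (ax j) :=   ⟨norm_ax i, norm_ax j, by simp [ax, EuclideanSpace.inner_single_left, h]⟩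
theorem dd_co_scl {Ψ : E d → E d} (h : ContDiff ℝ 1 Ψ) {s : ℝ} (hs : 0 < s) (e v y : E d) :
    dd (co e (scl s Ψ)) v y = dd (co e Ψ) v (s • y) := by
  have h' : ContDiff ℝ 1 (scl s Ψ) := (h.comp (contDiff_id.const_smul s)).const_smul s⁻¹
  rw [dd_co h', dd_co h, dd, dd, fderiv_scl h hs]
theorem cv_scl_dd {Ψ : E d → E d} (h : ContDiff ℝ 1 Ψ) {s : ℝ} (hs : 0 < s) (e v y : E d) :
    cv 1 (dd (co e (scl s Ψ)) v) (s⁻¹ • y) = cv s (dd (co e Ψ) v) y := by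
  simp only [cv, dd_co_scl h hs, one_smul, smul_sub, smul_inv_smul₀ hs.ne']
theorem cv_scl_jac {Ψ : E d → E d} (h : ContDiff ℝ 1 Ψ) {s : ℝ} (hs : 0 < s) (e' e v' v y : E d) :
    cv 1 (jac (co e' (scl s Ψ)) (co e (scl s Ψ)) v' v) (s⁻¹ • y) =
      cv s (jac (co e' Ψ) (co e Ψ) v' v) y := by
  simp only [cv, jac, dd_co_scl h hs, one_smul, smul_sub, smul_inv_smul₀ hs.ne']

/-! ### line integrals -/

theorem continuous_ln {κ : ℝ → ℝ} {G : E d → F} (hκ : Continuous κ) (hG : Continuous G) (T : ℝ)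
    (u : E d) : Continuous (ln T u κ G) :=   intervalIntegral.continuous_parametric_intervalIntegral_of_continuous'
    (f := fun (y : E d) (τ : ℝ) => κ τ • G (y + τ • u))
    ((hκ.comp continuous_snd).smul (hG.comp (by fun_prop))) _ _
theorem ii_ln {κ : ℝ → ℝ} {G : E d → F} (hκ : Continuous κ) (hG : Continuous G) (u y : E d)
    (a b : ℝ) : IntervalIntegrable (fun τ => κ τ • G (y + τ • u)) volume a b :=
  (hκ.smul (hG.comp (by fun_prop))).intervalIntegrable a b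
theorem hasFDerivAt_ln {κ : ℝ → ℝ} {G : E d → F} (hκ : Continuous κ) (hG : ContDiff ℝ 1 G) (T : ℝ)
    (u y : E d) : HasFDerivAt (ln T u κ G) (ln T u κ (fderiv ℝ G) y) y := by
  have hc : Continuous (fderiv ℝ G) := hG.continuous_fderiv one_ne_zero
  have hc2 : Continuous fun z : E d × ℝ => κ z.2 • fderiv ℝ G (z.1 + z.2 • u) :=
    (hκ.comp continuous_snd).smul (hc.comp (by fun_prop))
  obtain ⟨B, hB⟩ := ((isCompact_closedBall y 1).prod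
    (isCompact_uIcc (a := -(3 * T)) (b := 3 * T))).exists_bound_of_continuousOn hc2.continuousOn
  refine intervalIntegral.hasFDerivAt_integral_of_dominated_of_fderiv_le (s := ball y 1)
    (F := fun z τ => κ τ • G (z + τ • u)) (F' := fun z τ => κ τ • fderiv ℝ G (z + τ • u))
    (bound := fun _ => B) (ball_mem_nhds y one_pos)
    (Eventually.of_forall fun z =>
      (hκ.smul (hG.continuous.comp (by fun_prop))).aestronglyMeasurable)
    (ii_ln hκ hG.continuous u y _ _) (hκ.smul (hc.comp (by fun_prop))).aestronglyMeasurable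
    (Eventually.of_forall fun τ hτ z hz => hB (z, τ)
      ⟨ball_subset_closedBall hz, uIoc_subset_uIcc hτ⟩)
    intervalIntegrable_const (Eventually.of_forall fun τ _ z _ => ?_)
  have h1 := (hG.differentiable one_ne_zero (z + τ • u)).hasFDerivAt.comp z
    ((hasFDerivAt_id z).add_const (τ • u))
  rw [ContinuousLinearMap.comp_id] at h1
  exact h1.const_smul (κ τ)
theorem contDiff_ln {κ : ℝ → ℝ} {G : E d → F} (hκ : Continuous κ) (hG : ContDiff ℝ 1 G) (T : ℝ)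
    (u : E d) : ContDiff ℝ 1 (ln T u κ G) := by
  refine contDiff_one_iff_fderiv.2 ⟨fun y => (hasFDerivAt_ln hκ hG T u y).differentiableAt, ?_⟩
  rw [show fderiv ℝ (ln T u κ G) = ln T u κ (fderiv ℝ G) from
    funext fun y => (hasFDerivAt_ln hκ hG T u y).fderiv]
  exact continuous_ln hκ (hG.continuous_fderiv one_ne_zero) T u
theorem dd_ln {κ : ℝ → ℝ} {G : E d → F} (hκ : Continuous κ) (hG : ContDiff ℝ 1 G) (T : ℝ)
    (u v y : E d) : dd (ln T u κ G) v y = ln T u κ (dd G v) y := by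
  unfold dd
  rw [(hasFDerivAt_ln hκ hG T u y).fderiv, ln,
    ContinuousLinearMap.intervalIntegral_apply (ii_ln hκ (hG.continuous_fderiv one_ne_zero) u y _ _)]
  rfl
/-- integration by parts along the line -/
theorem ln_dd {κ κ' : ℝ → ℝ} {G : E d → F} (hκ : ∀ t, HasDerivAt κ (κ' t) t) (hκ' : Continuous κ')
    (hG : ContDiff ℝ 1 G) {T : ℝ} (h₁ : κ (-(3 * T)) = 0) (h₂ : κ (3 * T) = 0) (u y : E d) :
    ln T u κ (dd G u) y = -ln T u κ' G y := by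
  have hκc : Continuous κ := continuous_iff_continuousAt.2 fun t => (hκ t).continuousAt
  have i1 := ii_ln hκc (continuous_dd hG u) u y (-(3 * T)) (3 * T)
  have i2 := ii_ln hκ' hG.continuous u y (-(3 * T)) (3 * T)
  have h := intervalIntegral.integral_eq_sub_of_hasDerivAt
    (f := fun t : ℝ => κ t • G (y + t • u))
    (f' := fun t => κ t • dd G u (y + t • u) + κ' t • G (y + t • u))
    (fun t _ => (hκ t).smul (hasDerivAt_line hG u y t)) (i1.add i2)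
  rw [intervalIntegral.integral_add i1 i2, h₁, h₂, zero_smul, zero_smul, sub_zero] at h
  exact eq_neg_of_add_eq_zero_left h
theorem norm_ln_le {κ κ' : ℝ → ℝ} {G : E d → F} {G' : E d → ℝ} (hκ' : Continuous κ')
    (hG' : Continuous G') {T : ℝ} (hT : 0 ≤ T) (u y : E d)
    (h : ∀ τ ∈ Icc (-(3 * T)) (3 * T), |κ τ| * ‖G (y + τ • u)‖ ≤ κ' τ * G' (y + τ • u)) :
    ‖ln T u κ G y‖ ≤ ln T u κ' G' y := by
  refine intervalIntegral.norm_integral_le_of_norm_le (by linarith)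
    (Eventually.of_forall fun τ hτ => ?_) (ii_ln hκ' hG' u y _ _)
  rw [norm_smul]
  exact h τ (Ioc_subset_Icc_self hτ)
theorem cv_ln {κ : ℝ → ℝ} {G : E d → F} (hκ : Continuous κ) (hG : Continuous G) (T μ : ℝ)
    (u y : E d) : cv μ (ln T u κ G) y = ln T u κ (cv μ G) y := by
  have h := cv_intervalIntegral (G := fun τ z => κ τ • G (z + τ • u))
    ((hκ.comp continuous_fst).smul (hG.comp (by fun_prop))) (-(3 * T)) (3 * T) μ y
  refine h.trans ?_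
  simp only [ln, cv_smul, cv_shift]
/-- the mean of a line integral with weight one -/
theorem cv_ln_one_le {G : E d → ℝ} (hG : Continuous G) {T B : ℝ} (hT : 0 ≤ T)
    (hB : ∀ z, |G z| ≤ B) {u : E d} (hu : ‖u‖ = 1) (y : E d) :
    |cv 1 (ln T u (fun _ => 1) G) y - 6 * T * cv 1 G y| ≤ 18 * Cw d * B * T ^ 2 := by
  have hB0 : 0 ≤ B := (abs_nonneg _).trans (hB 0)
  have hC : 0 ≤ Cw d := zero_le_one.trans one_le_Cw
  rw [cv_ln continuous_const hG]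
  have i1 := ii_ln (κ := fun _ => 1) continuous_const (continuous_cv hG 1) u y (-(3 * T)) (3 * T)
  have h1 : 6 * T * cv 1 G y = ∫ _ in (-(3 * T))..(3 * T), cv 1 G y := by
    rw [intervalIntegral.integral_const, smul_eq_mul]; ring
  rw [h1, ln, ← intervalIntegral.integral_sub i1 intervalIntegrable_const]
  have h2 := intervalIntegral.norm_integral_le_of_norm_le_const (a := -(3 * T)) (b := 3 * T)
    (C := Cw d * B * (3 * T)) (f := fun τ : ℝ => (1 : ℝ) • cv 1 G (y + τ • u) - cv 1 G y)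
    fun τ hτ => by
      rw [uIoc_of_le (by linarith)] at hτ
      have h3 := cv_lip hG one_pos hB (y + τ • u) y
      rw [add_sub_cancel_left, norm_smul, hu, mul_one, div_one] at h3
      rw [one_smul]
      exact h3.trans (mul_le_mul_of_nonneg_left (abs_le.2 ⟨hτ.1.le, hτ.2⟩) (by positivity))
  rw [abs_of_nonneg (by linarith)] at h2
  calc _ ≤ _ := h2
    _ = _ := by ring

end Pool.Agent.MP_20bec2_an.h7

end
end MrgPart1

-- marker of a merged file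
example : 731051 + 385677 = 731051 + 385677 := rfl
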