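import Mathlib.Topology.Sheaves.Presheaf
import Mathlib.Data.Int.Star
import Mathlib.Algebra.Order.Ring.Star
import Mathlib.MeasureTheory.Integral.IntervalIntegral.Periodic
import Mathlib.Analysis.SpecialFunctions.Trigonometric.Bounds
import Mathlib.MeasureTheory.Function.Floor
import Pool.Agent.MP_20bec2_an.h7.Basic

-- ======== part 0: formerly Pool.Agent.MP_20bec2_an.h7.Prof
section MrgPart0

/-! Profiles, slab coordinate, pattern, potential (project BIOM). -/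

set_option autoImplicit false

open MeasureTheory Set Metric Filter Topology

noncomputable section

namespace Pool.Agent.MP_20bec2_an.h7

namespace Prof

theorem hasDerivAt_max_sq (u : ℝ) : HasDerivAt (fun t : ℝ => max t 0 ^ 2) (2 * max u 0) u := by
  rcases lt_trichotomy u 0 with h | h | h
  · have : (fun t : ℝ => max t 0 ^ 2) =ᶠ[𝓝 u] fun _ => 0 := by
      filter_upwards [Iio_mem_nhds h] with t ht
      rw [max_eq_right (le_of_lt ht)]; norm_num
    rw [max_eq_right h.le, mul_zero]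
    exact (hasDerivAt_const u (0 : ℝ)).congr_of_eventuallyEq this
  · subst h
    rw [max_self, mul_zero, hasDerivAt_iff_isLittleO_nhds_zero]
    refine Asymptotics.IsBigO.trans_isLittleO (g := fun h : ℝ => h ^ 2) ?_
      (Asymptotics.isLittleO_pow_id one_lt_two)
    refine Asymptotics.IsBigO.of_bound 1 (Eventually.of_forall fun t => ?_)
    simp only [zero_add, max_self, smul_zero, sub_zero, one_mul, Real.norm_eq_abs]
    rcases le_total t 0 with ht | ht
    · rw [max_eq_right ht]; simp; positivity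
    · rw [max_eq_left ht]; simp
  · have : (fun t : ℝ => max t 0 ^ 2) =ᶠ[𝓝 u] fun t => t ^ 2 := by
      filter_upwards [Ioi_mem_nhds h] with t ht
      rw [max_eq_left (le_of_lt ht)]
    rw [max_eq_left h.le]
    refine HasDerivAt.congr_of_eventuallyEq ?_ this
    simpa using hasDerivAt_pow 2 u

theorem lip_of_deriv {f f' : ℝ → ℝ} {K : ℝ} (hf : ∀ x, HasDerivAt f (f' x) x)
    (hK : ∀ x, |f' x| ≤ K) (x y : ℝ) : |f x - f y| ≤ K * |x - y| := by
  have := Convex.norm_image_sub_le_of_norm_hasDerivWithin_le (f := f) (f' := f') (C := K)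
    (s := univ) (fun z _ => (hf z).hasDerivWithinAt) (fun z _ => hK z) convex_univ
    (mem_univ y) (mem_univ x)
  simpa [Real.norm_eq_abs] using this

theorem max_le_quarter (x : ℝ) : max (x * (1 - x)) 0 ≤ 1 / 4 :=
  max_le (by nlinarith [sq_nonneg (x - 1 / 2)]) (by norm_num)

theorem max_eq_zero {x : ℝ} (h : x ≤ 0 ∨ 1 ≤ x) : max (x * (1 - x)) 0 = 0 := by
  apply max_eq_right
  rcases h with h | h <;> nlinarith

end Prof

open Prof

/-! ### the bump and the step -/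

theorem bb_nonneg (x : ℝ) : 0 ≤ bb x := by unfold bb; positivity

theorem bb_le (x : ℝ) : bb x ≤ 2 := by
  have h1 := max_le_quarter x
  have h0 : 0 ≤ max (x * (1 - x)) 0 := le_max_right _ _
  unfold bb; nlinarith

theorem bb_eq_zero {x : ℝ} (h : x ≤ 0 ∨ 1 ≤ x) : bb x = 0 := by
  unfold bb; rw [Prof.max_eq_zero h]; norm_num

theorem hasDerivAt_bb (x : ℝ) : HasDerivAt bb (bd x) x := by
  have h1 : HasDerivAt (fun t : ℝ => t * (1 - t)) (1 - 2 * x) x := by
    refine HasDerivAt.congr_deriv ((hasDerivAt_id' x).mul ((hasDerivAt_id' x).const_sub 1)) ?_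
    ring
  have h2 := ((hasDerivAt_max_sq (x * (1 - x))).comp x h1).const_mul 30
  refine HasDerivAt.congr_deriv h2 ?_
  unfold bd; ring

theorem continuous_bd : Continuous bd := by unfold bd; fun_prop

theorem abs_bd_le (x : ℝ) : |bd x| ≤ 15 := by
  by_cases h : x ≤ 0 ∨ 1 ≤ x
  · unfold bd; rw [Prof.max_eq_zero h]; norm_num
  · push Not at h
    have h1 := max_le_quarter x
    have h0 : 0 ≤ max (x * (1 - x)) 0 := le_max_right _ _
    unfold bd
    rw [abs_le]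
    constructor <;> nlinarith [h.1, h.2]

theorem contDiff_bb : ContDiff ℝ 1 bb := by
  rw [contDiff_one_iff_deriv]
  refine ⟨fun x => (hasDerivAt_bb x).differentiableAt, ?_⟩
  have : deriv bb = bd := funext fun x => (hasDerivAt_bb x).deriv
  rw [this]; exact continuous_bd

theorem continuous_bb : Continuous bb := contDiff_bb.continuous

theorem bb_lip (x y : ℝ) : |bb x - bb y| ≤ 15 * |x - y| :=
  lip_of_deriv hasDerivAt_bb abs_bd_le x y

theorem hasDerivAt_be (x : ℝ) : HasDerivAt be (bb x) x :=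
  (continuous_bb.integral_hasStrictDerivAt 0 x).hasDerivAt

theorem contDiff_be : ContDiff ℝ 2 be := by
  have h : deriv be = bb := funext fun x => (hasDerivAt_be x).deriv
  rw [show (2 : WithTop ℕ∞) = 1 + 1 from rfl, contDiff_succ_iff_deriv]
  refine ⟨fun x => (hasDerivAt_be x).differentiableAt, by simp, ?_⟩
  rw [h]; exact contDiff_bb

theorem be_mono : Monotone be :=
  monotone_of_deriv_nonneg (fun x => (hasDerivAt_be x).differentiableAt) fun x => by
    rw [(hasDerivAt_be x).deriv]; exact bb_nonneg x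

theorem be_eq_zero {x : ℝ} (h : x ≤ 0) : be x = 0 := by
  unfold be
  rw [intervalIntegral.integral_congr (g := fun _ => 0)]
  · simp
  · intro t ht
    rw [uIcc_of_ge h] at ht
    exact bb_eq_zero (Or.inl ht.2)

theorem be_eq_one {x : ℝ} (h : 1 ≤ x) : be x = 1 := by
  unfold be
  rw [← intervalIntegral.integral_add_adjacent_intervals (b := 1)
    (continuous_bb.intervalIntegrable _ _) (continuous_bb.intervalIntegrable _ _)]
  have h1 : ∫ t in (1 : ℝ)..x, bb t = 0 := by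
    rw [intervalIntegral.integral_congr (g := fun _ => 0)]
    · simp
    · intro t ht
      rw [uIcc_of_le h] at ht
      exact bb_eq_zero (Or.inr ht.1)
  have h2 : ∫ t in (0 : ℝ)..1, bb t = 1 := by
    rw [intervalIntegral.integral_congr (g := fun t => 30 * t ^ 2 - 60 * t ^ 3 + 30 * t ^ 4)]
    · have hd : ∀ t ∈ uIcc (0 : ℝ) 1, HasDerivAt (fun t : ℝ => 10 * t ^ 3 - 15 * t ^ 4 + 6 * t ^ 5)
          (30 * t ^ 2 - 60 * t ^ 3 + 30 * t ^ 4) t := by
        intro t _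
        refine HasDerivAt.congr_deriv ((((hasDerivAt_pow 3 t).const_mul 10).sub
          ((hasDerivAt_pow 4 t).const_mul 15)).add ((hasDerivAt_pow 5 t).const_mul 6)) ?_
        push_cast; ring
      rw [intervalIntegral.integral_eq_sub_of_hasDerivAt hd
        (Continuous.intervalIntegrable (by fun_prop) _ _)]
      norm_num
    · intro t ht
      rw [uIcc_of_le zero_le_one] at ht
      have : 0 ≤ t * (1 - t) := mul_nonneg ht.1 (by linarith [ht.2])
      simp only [bb]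
      rw [max_eq_left this]; ring
  rw [h1, h2]; norm_num

theorem be_mem (x : ℝ) : 0 ≤ be x ∧ be x ≤ 1 :=
  ⟨by rw [← be_eq_zero (min_le_right x 0)]; exact be_mono (min_le_left _ _),
   by rw [← be_eq_one (le_max_right x 1)]; exact be_mono (le_max_left _ _)⟩

theorem hasDerivAt_tr (a b x : ℝ) : HasDerivAt (tr a b) (bb (x - a + 1) - bb (x - b)) x := by
  have h1 := (hasDerivAt_be (x - a + 1)).comp x (((hasDerivAt_id' x).sub_const a).add_const 1)
  have h2 := (hasDerivAt_be (x - b)).comp x ((hasDerivAt_id' x).sub_const b)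
  rw [mul_one] at h1 h2
  exact h1.sub h2

theorem contDiff_tr (a b : ℝ) : ContDiff ℝ 2 (tr a b) :=
  (contDiff_be.comp ((contDiff_id.sub contDiff_const).add contDiff_const)).sub
    (contDiff_be.comp (contDiff_id.sub contDiff_const))

theorem continuous_tr (a b : ℝ) : Continuous (tr a b) := (contDiff_tr a b).continuous

theorem tr_mem {a b : ℝ} (h : a ≤ b) (x : ℝ) : 0 ≤ tr a b x ∧ tr a b x ≤ 1 := by
  have h1 : be (x - b) ≤ be (x - a + 1) := be_mono (by linarith)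
  have h2 := be_mem (x - b)
  have h3 := be_mem (x - a + 1)
  unfold tr
  constructor <;> linarith [h2.1, h3.2]

theorem tr_eq_one {a b x : ℝ} (h₁ : a ≤ x) (h₂ : x ≤ b) : tr a b x = 1 := by
  unfold tr
  rw [be_eq_one (by linarith), be_eq_zero (by linarith)]; norm_num

theorem tr_eq_zero {a b x : ℝ} (hab : a ≤ b) (h : x ≤ a - 1 ∨ b + 1 ≤ x) : tr a b x = 0 := by
  unfold tr
  rcases h with h | h
  · rw [be_eq_zero (by linarith), be_eq_zero (by linarith)]; norm_num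
  · rw [be_eq_one (by linarith), be_eq_one (by linarith)]; norm_num

theorem Prof.abs_bb_sub (x y : ℝ) : |bb x - bb y| ≤ 2 := by
  rw [abs_le]
  constructor <;> linarith [bb_nonneg x, bb_nonneg y, bb_le x, bb_le y]

theorem Prof.tr_mono {a b a' b' : ℝ} (ha : a' ≤ a) (hb : b ≤ b') (x : ℝ) :
    tr a b x ≤ tr a' b' x := by
  have h1 : be (x - a + 1) ≤ be (x - a' + 1) := be_mono (by linarith)
  have h2 : be (x - b') ≤ be (x - b) := be_mono (by linarith)
  unfold tr; linarith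

theorem tr_lip (a b x y : ℝ) : |tr a b x - tr a b y| ≤ 2 * |x - y| :=
  lip_of_deriv (hasDerivAt_tr a b) (fun _ => abs_bb_sub _ _) x y

theorem integral_tr {a b s t : ℝ} (hab : a ≤ b) (hs : s ≤ a - 1) (ht : b + 1 ≤ t) :
    ∫ x in s..t, tr a b x = b - a + 1 := by
  have hc : Continuous be := contDiff_be.continuous
  have hB : ∀ x, HasDerivAt (fun x => ∫ u in (0 : ℝ)..x, be u) (be x) x := fun x =>
    (hc.integral_hasStrictDerivAt 0 x).hasDerivAt
  have hd : ∀ x ∈ uIcc s t, HasDerivAt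
      (fun x => (∫ u in (0 : ℝ)..(x - a + 1), be u) - ∫ u in (0 : ℝ)..(x - b), be u)
      (tr a b x) x := by
    intro x _
    have h1 := (hB (x - a + 1)).comp x (((hasDerivAt_id x).sub_const a).add_const 1)
    have h2 := (hB (x - b)).comp x ((hasDerivAt_id x).sub_const b)
    have := h1.sub h2
    simp only [mul_one] at this
    exact this
  rw [intervalIntegral.integral_eq_sub_of_hasDerivAt hd
    ((continuous_tr a b).intervalIntegrable _ _),
    intervalIntegral.integral_interval_sub_left (hc.intervalIntegrable _ _)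
      (hc.intervalIntegrable _ _),
    intervalIntegral.integral_interval_sub_left (hc.intervalIntegrable _ _)
      (hc.intervalIntegrable _ _),
    intervalIntegral.integral_congr (g := fun _ => (1 : ℝ)) (a := t - b),
    intervalIntegral.integral_congr (g := fun _ => (0 : ℝ)) (a := s - b)]
  · simp; ring
  · intro u hu
    rw [uIcc_of_le (by linarith)] at hu
    exact be_eq_zero (by linarith [hu.2])
  · intro u hu
    rw [uIcc_of_le (by linarith)] at hu
    exact be_eq_one (by linarith [hu.1])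

theorem hasDerivAt_th (T τ : ℝ) : HasDerivAt (th T) (th' T τ) τ := by
  refine HasDerivAt.congr_deriv
    ((hasDerivAt_tr (-1) 1 (τ / T)).comp τ ((hasDerivAt_id' τ).div_const T)) ?_
  unfold th'
  rw [show τ / T - -1 + 1 = τ / T + 2 by ring]; ring

theorem continuous_th (T : ℝ) : Continuous (th T) :=
  (continuous_tr _ _).comp (continuous_id.div_const T)

theorem continuous_th' (T : ℝ) : Continuous (th' T) := by
  have := continuous_bb
  unfold th'; fun_prop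

theorem th_mem (T τ : ℝ) : 0 ≤ th T τ ∧ th T τ ≤ 1 := tr_mem (by norm_num) _

theorem th_eq_zero {T τ : ℝ} (hT : 0 < T) (h : 2 * T ≤ |τ|) : th T τ = 0 := by
  refine tr_eq_zero (by norm_num) ?_
  rcases le_abs'.1 h with h | h
  · left; rw [div_le_iff₀ hT]; linarith
  · right; rw [le_div_iff₀ hT]; linarith

theorem abs_th'_le {T : ℝ} (hT : 0 < T) (τ : ℝ) : |th' T τ| ≤ 2 / T := by
  unfold th'
  rw [abs_div, abs_of_pos hT]
  exact div_le_div_of_nonneg_right (abs_bb_sub _ _) hT.le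

theorem integral_th {T : ℝ} (hT : 0 < T) : ∫ τ in (-(3 * T))..(3 * T), th T τ = 3 * T := by
  unfold th
  rw [intervalIntegral.integral_comp_div (fun x => tr (-1) 1 x) hT.ne',
    integral_tr (by norm_num) (by rw [div_le_iff₀ hT]; linarith)
      (by rw [le_div_iff₀ hT]; linarith)]
  simp only [smul_eq_mul]; ring

/-! ### functions of the slab coordinate -/

/-- `ψ` vanishes off `[-10, 10]` -/
def Sp (ψ : ℝ → ℝ) : Prop := ∀ x, 10 ≤ |x| → ψ x = 0

variable {ε : ℝ} {ψ : ℝ → ℝ}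

theorem Prof.small (h0 : 0 < ε) (h1 : ε ≤ 1 / 2) : 160 * ε ^ 70 ≤ ε ^ 50 := by
  have h : ε ^ 20 ≤ (1 / 2) ^ 20 := pow_le_pow_left₀ h0.le h1 20
  have h2 : 0 < ε ^ 50 := by positivity
  have h3 : ε ^ 70 = ε ^ 50 * ε ^ 20 := by ring
  rw [h3]; nlinarith

theorem Prof.xi_def (ε p : ℝ) :
    xi ε p = (p - (round (p / ε ^ 50) : ℤ) * ε ^ 50) / ε ^ 70 := by
  unfold xi; ring

theorem Prof.abs_sub_round_le (h0 : 0 < ε) (p : ℝ) :
    |p - (round (p / ε ^ 50) : ℤ) * ε ^ 50| ≤ ε ^ 50 / 2 := by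
  have hR : 0 < ε ^ 50 := by positivity
  have h := abs_sub_round (p / ε ^ 50)
  have e : p - (round (p / ε ^ 50) : ℤ) * ε ^ 50 = (p / ε ^ 50 - round (p / ε ^ 50)) * ε ^ 50 := by
    field_simp
  rw [e, abs_mul, abs_of_pos hR]; nlinarith

theorem xi_periodic (h0 : 0 < ε) : Function.Periodic (xi ε) (ε ^ 50) := by
  intro p
  have hR : ε ^ 50 ≠ 0 := by positivity
  unfold xi
  rw [add_div, div_self hR, round_add_one]
  push_cast; ring

theorem xi_eq (h0 : 0 < ε) {p : ℝ} {j : ℤ} (h : |p - j * ε ^ 50| < ε ^ 50 / 2) :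
    xi ε p = (p - j * ε ^ 50) / ε ^ 70 := by
  have hR : 0 < ε ^ 50 := by positivity
  have e : p / ε ^ 50 = j + (p - j * ε ^ 50) / ε ^ 50 := by field_simp; ring
  have : round (p / ε ^ 50) = j := by
    rw [e, round_intCast_add, round_eq_zero_iff.2, add_zero]
    rw [abs_lt] at h
    constructor
    · rw [le_div_iff₀ hR]; linarith [h.1]
    · rw [div_lt_iff₀ hR]; linarith [h.2]
  rw [xi_def, this]

theorem Prof.zero_of_far (h0 : 0 < ε) (h1 : ε ≤ 1 / 2) (hψ : Sp ψ) {t : ℝ}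
    (h : ε ^ 50 / 4 ≤ |t|) : ψ (t / ε ^ 70) = 0 := by
  have hh : 0 < ε ^ 70 := by positivity
  refine hψ _ ?_
  rw [abs_div, abs_of_pos hh, le_div_iff₀ hh]
  linarith [small h0 h1]

theorem xi_local (h0 : 0 < ε) (h1 : ε ≤ 1 / 2) (hψ : Sp ψ) {p : ℝ} {j : ℤ}
    (h : |p - j * ε ^ 50| ≤ 3 / 4 * ε ^ 50) : ψ (xi ε p) = ψ ((p - j * ε ^ 50) / ε ^ 70) := by
  have hR : 0 < ε ^ 50 := by positivity
  rw [xi_def]
  have h2 := abs_sub_round_le h0 p
  set i : ℤ := round (p / ε ^ 50)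
  by_cases hij : i = j
  · rw [hij]
  · have h3 : (1 : ℝ) ≤ |(i : ℝ) - j| := by
      have : 1 ≤ |i - j| := Int.one_le_abs (sub_ne_zero.2 hij)
      exact_mod_cast this
    have h4 : ε ^ 50 ≤ |(p - j * ε ^ 50) - (p - i * ε ^ 50)| := by
      rw [show (p - j * ε ^ 50) - (p - i * ε ^ 50) = ((i : ℝ) - j) * ε ^ 50 by ring, abs_mul,
        abs_of_pos hR]
      nlinarith
    have h5 := abs_sub (p - j * ε ^ 50) (p - i * ε ^ 50)
    rw [zero_of_far h0 h1 hψ (by linarith), zero_of_far h0 h1 hψ (by linarith)]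

theorem Prof.xi_eventually (h0 : 0 < ε) (h1 : ε ≤ 1 / 2) (hψ : Sp ψ) (p : ℝ) :
    (fun t => ψ (xi ε t)) =ᶠ[𝓝 p]
      fun t => ψ ((t - (round (p / ε ^ 50) : ℤ) * ε ^ 50) / ε ^ 70) := by
  have hR : 0 < ε ^ 50 / 4 := by positivity
  filter_upwards [ball_mem_nhds p hR] with t ht
  refine xi_local h0 h1 hψ ?_
  have h2 := abs_sub_round_le h0 p
  rw [mem_ball, Real.dist_eq] at ht
  have h3 := abs_add_le (t - p) (p - (round (p / ε ^ 50) : ℤ) * ε ^ 50)
  rw [sub_add_sub_cancel] at h3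
  linarith

theorem continuous_xi (h0 : 0 < ε) (h1 : ε ≤ 1 / 2) (hψ : Sp ψ) (hc : Continuous ψ) :
    Continuous fun p => ψ (xi ε p) := by
  refine continuous_iff_continuousAt.2 fun p => ?_
  refine ContinuousAt.congr ?_ (xi_eventually h0 h1 hψ p).symm
  exact (hc.comp ((continuous_id.sub continuous_const).div_const _)).continuousAt

theorem contDiff_xi (h0 : 0 < ε) (h1 : ε ≤ 1 / 2) (hψ : Sp ψ) {n : ℕ} (hc : ContDiff ℝ n ψ) :
    ContDiff ℝ n fun p => ψ (xi ε p) := by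
  refine contDiff_iff_contDiffAt.2 fun p => ?_
  refine ContDiffAt.congr_of_eventuallyEq ?_ (xi_eventually h0 h1 hψ p)
  exact (hc.comp ((contDiff_id.sub contDiff_const).div_const _)).contDiffAt

theorem hasDerivAt_xi (h0 : 0 < ε) (h1 : ε ≤ 1 / 2) (hψ : Sp ψ) {ψ' : ℝ → ℝ} (hψ' : Sp ψ')
    (hd : ∀ x, HasDerivAt ψ (ψ' x) x) (p : ℝ) :
    HasDerivAt (fun p => ψ (xi ε p)) (ψ' (xi ε p) / ε ^ 70) p := by
  refine HasDerivAt.congr_of_eventuallyEq ?_ (xi_eventually h0 h1 hψ p)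
  have h2 := (hd ((p - (round (p / ε ^ 50) : ℤ) * ε ^ 50) / ε ^ 70)).comp p
    (((hasDerivAt_id' p).sub_const ((round (p / ε ^ 50) : ℤ) * ε ^ 50)).div_const (ε ^ 70))
  refine HasDerivAt.congr_deriv h2 ?_
  rw [xi_def]; ring

theorem xi_lip (h0 : 0 < ε) (h1 : ε ≤ 1 / 2) (hψ : Sp ψ) {K : ℝ}
    (hK : ∀ x y, |ψ x - ψ y| ≤ K * |x - y|) (p p' : ℝ) :
    |ψ (xi ε p) - ψ (xi ε p')| ≤ K / ε ^ 70 * |p - p'| := by
  have hh : 0 < ε ^ 70 := by positivity
  have hK0 : 0 ≤ K := by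
    have := (abs_nonneg _).trans (hK 1 0)
    simpa using this
  have hb : ∀ u, |ψ u| ≤ 20 * K := by
    intro u
    by_cases hu : 10 ≤ |u|
    · rw [hψ u hu, abs_zero]; positivity
    · have h2 := hK u 10
      rw [hψ 10 (by norm_num), sub_zero] at h2
      have h3 : |u - 10| ≤ 20 := by
        rw [not_le, abs_lt] at hu
        rw [abs_le]; constructor <;> linarith [hu.1, hu.2]
      nlinarith
  have h2 := abs_sub_round_le h0 p
  by_cases hc : |p' - (round (p / ε ^ 50) : ℤ) * ε ^ 50| ≤ 3 / 4 * ε ^ 50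
  · rw [xi_local h0 h1 hψ hc, xi_def]
    refine (hK _ _).trans (le_of_eq ?_)
    rw [← sub_div, abs_div, abs_of_pos hh, sub_sub_sub_cancel_right]; ring
  · have h3 := abs_add_le (p' - p) (p - (round (p / ε ^ 50) : ℤ) * ε ^ 50)
    rw [sub_add_sub_cancel, abs_sub_comm p' p] at h3
    have h4 : 40 * ε ^ 70 ≤ |p - p'| := by linarith [small h0 h1, not_le.1 hc]
    have h5 := abs_sub (ψ (xi ε p)) (ψ (xi ε p'))
    have h6 : 40 * K ≤ K / ε ^ 70 * |p - p'| := by
      rw [div_mul_eq_mul_div, le_div_iff₀ hh]; nlinarith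
    linarith [hb (xi ε p), hb (xi ε p')]

theorem integral_xi (h0 : 0 < ε) (h1 : ε ≤ 1 / 2) (hψ : Sp ψ) (hc : Continuous ψ) :
    ∫ t in (0 : ℝ)..ε ^ 50, ψ (xi ε t) = ε ^ 70 * ∫ x in (-10 : ℝ)..10, ψ x := by
  have hh : 0 < ε ^ 70 := by positivity
  have hR : 0 < ε ^ 50 := by positivity
  have hp : Function.Periodic (fun t => ψ (xi ε t)) (ε ^ 50) := (xi_periodic h0).comp ψ
  have h2 := hp.intervalIntegral_add_eq 0 (-(ε ^ 50 / 2))
  rw [zero_add] at h2
  have h3 : 10 ≤ (-(ε ^ 50 / 2) + ε ^ 50) / ε ^ 70 := by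
    rw [le_div_iff₀ hh]; linarith [small h0 h1]
  have h4 : -(ε ^ 50 / 2) / ε ^ 70 ≤ -10 := by
    rw [div_le_iff₀ hh]; linarith [small h0 h1]
  rw [h2, intervalIntegral.integral_congr (g := fun t => ψ (t / ε ^ 70)),
    intervalIntegral.integral_comp_div ψ hh.ne', smul_eq_mul,
    ← intervalIntegral.integral_add_adjacent_intervals (b := -10) (hc.intervalIntegrable _ _)
      (hc.intervalIntegrable _ _),
    ← intervalIntegral.integral_add_adjacent_intervals (a := -10) (b := 10)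
      (hc.intervalIntegrable _ _) (hc.intervalIntegrable _ _),
    intervalIntegral.integral_congr (b := -10) (g := fun _ => (0 : ℝ)),
    intervalIntegral.integral_congr (a := 10) (g := fun _ => (0 : ℝ))]
  · simp
  · intro u hu
    rw [uIcc_of_le h3] at hu
    exact hψ u (le_abs.2 (Or.inl hu.1))
  · intro u hu
    rw [uIcc_of_le h4] at hu
    exact hψ u (le_abs.2 (Or.inr (by linarith [hu.2])))
  · intro t ht
    rw [uIcc_of_le (by linarith)] at ht
    have := xi_local (j := 0) h0 h1 hψ (p := t) (by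
      rw [Int.cast_zero, zero_mul, sub_zero, abs_le]
      constructor <;> linarith [ht.1, ht.2])
    simpa using this

/-- a bounded primitive of the function minus its mean -/
theorem prim_xi (h0 : 0 < ε) (h1 : ε ≤ 1 / 2) (hψ : Sp ψ) (hc : Continuous ψ) (hn : ∀ x, 0 ≤ ψ x) :
    ∃ G : ℝ → ℝ, ContDiff ℝ 1 G ∧
      (∀ p, HasDerivAt G (ψ (xi ε p) - ε ^ 20 * ∫ x in (-10 : ℝ)..10, ψ x) p) ∧
      ∀ p, |G p| ≤ 2 * ε ^ 70 * ∫ x in (-10 : ℝ)..10, ψ x := by
  have hR : 0 < ε ^ 50 := by positivity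
  have hI := integral_xi h0 h1 hψ hc
  have hI0 : 0 ≤ ∫ x in (-10 : ℝ)..10, ψ x :=
    intervalIntegral.integral_nonneg (by norm_num) fun x _ => hn x
  set I := ∫ x in (-10 : ℝ)..10, ψ x
  have hf : Continuous fun p => ψ (xi ε p) := continuous_xi h0 h1 hψ hc
  have hp : Function.Periodic (fun t => ψ (xi ε t)) (ε ^ 50) := (xi_periodic h0).comp ψ
  set G : ℝ → ℝ := fun p => (∫ t in (0 : ℝ)..p, ψ (xi ε t)) - ε ^ 20 * I * p with hG
  have hd : ∀ p, HasDerivAt G (ψ (xi ε p) - ε ^ 20 * I) p := fun p => by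
    have := (hf.integral_hasStrictDerivAt 0 p).hasDerivAt.sub
      ((hasDerivAt_id' p).const_mul (ε ^ 20 * I))
    rw [mul_one] at this
    exact this
  have hper : Function.Periodic G (ε ^ 50) := fun p => by
    have h2 := hp.intervalIntegral_add_eq p 0
    rw [zero_add, hI] at h2
    simp only [hG]
    rw [← intervalIntegral.integral_add_adjacent_intervals (b := p) (hf.intervalIntegrable _ _)
      (hf.intervalIntegrable _ _), h2]
    ring
  refine ⟨G, ?_, hd, fun p => ?_⟩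
  · rw [contDiff_one_iff_deriv]
    refine ⟨fun x => (hd x).differentiableAt, ?_⟩
    rw [show deriv G = fun p => ψ (xi ε p) - ε ^ 20 * I from funext fun x => (hd x).deriv]
    exact hf.sub continuous_const
  · obtain ⟨y, hy, e⟩ := hper.exists_mem_Ico₀ hR p
    have h2 : 0 ≤ ∫ t in (0 : ℝ)..y, ψ (xi ε t) :=
      intervalIntegral.integral_nonneg hy.1 fun x _ => hn _
    have h3 : 0 ≤ ∫ t in y..ε ^ 50, ψ (xi ε t) :=
      intervalIntegral.integral_nonneg hy.2.le fun x _ => hn _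
    have h4 := intervalIntegral.integral_add_adjacent_intervals (a := 0) (b := y) (c := ε ^ 50)
      (hf.intervalIntegrable (μ := volume) _ _) (hf.intervalIntegrable _ _)
    have h5 : 0 ≤ ε ^ 20 * I := by positivity
    have h6 : 0 ≤ ε ^ 20 * I * y := mul_nonneg h5 hy.1
    have h7 : ε ^ 20 * I * y ≤ ε ^ 70 * I := by
      have := mul_le_mul_of_nonneg_left hy.2.le h5
      calc ε ^ 20 * I * y ≤ ε ^ 20 * I * ε ^ 50 := this
        _ = ε ^ 70 * I := by ring
    rw [e, abs_le]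
    simp only [hG]
    constructor <;> linarith

theorem sp_tr {a b : ℝ} (hab : a ≤ b) (ha : -9 ≤ a) (hb : b ≤ 9) : Sp (tr a b) := fun x hx => by
  refine tr_eq_zero hab ?_
  rcases le_abs.1 hx with h | h
  · right; linarith
  · left; linarith

theorem sp_bb {c k : ℝ} (hc : 1 ≤ c) (h₁ : -(2 * c) ≤ k) (h₂ : k + 1 ≤ 3 * c) :
    Sp fun x => bb (c * x - k) := fun x hx => by
  refine bb_eq_zero ?_
  rcases le_abs.1 hx with h | h
  · right; nlinarith
  · left; nlinarith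

theorem Prof.cast_lt {m k : ℕ} (hk : k < m) : (0 : ℝ) ≤ k ∧ (k : ℝ) + 1 ≤ m :=
  ⟨Nat.cast_nonneg k, by exact_mod_cast hk⟩

theorem sp_bk {m k : ℕ} (hk : k < m) : Sp fun x => bb (m * x - k) := by
  obtain ⟨h1, h2⟩ := cast_lt hk
  exact sp_bb (by linarith) (by linarith) (by linarith)

theorem sp_Wk {m k : ℕ} (hk : k < m) : Sp fun x => tr (-1) 2 (m * x - k) := fun x hx => by
  obtain ⟨h1, h2⟩ := cast_lt hk
  refine tr_eq_zero (by norm_num) ?_
  rcases le_abs.1 hx with h | h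
  · right; nlinarith
  · left; nlinarith

theorem integral_bk {m k : ℕ} (hk : k < m) : ∫ x in (-10 : ℝ)..10, bb (m * x - k) = 1 / m := by
  obtain ⟨h1, h2⟩ := cast_lt hk
  have hm : (0 : ℝ) < m := by linarith
  have hd : ∀ x ∈ uIcc (-10 : ℝ) 10, HasDerivAt (fun x : ℝ => be (m * x - k) / m)
      (bb (m * x - k)) x := by
    intro x _
    have := ((hasDerivAt_be (m * x - k)).comp x
      (((hasDerivAt_id' x).const_mul (m : ℝ)).sub_const (k : ℝ))).div_const (m : ℝ)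
    refine HasDerivAt.congr_deriv this ?_
    field_simp
  rw [intervalIntegral.integral_eq_sub_of_hasDerivAt hd
    ((continuous_bb.comp (by fun_prop)).intervalIntegrable _ _), be_eq_one (by linarith),
    be_eq_zero (by linarith)]
  simp

theorem W0_mem (ε p : ℝ) : 0 ≤ W0 ε p ∧ W0 ε p ≤ 1 := tr_mem (by norm_num) _
theorem W1_mem (ε p : ℝ) : 0 ≤ W1 ε p ∧ W1 ε p ≤ 1 := tr_mem (by norm_num) _
theorem Wh_mem (ε p : ℝ) : 0 ≤ Wh ε p ∧ Wh ε p ≤ 1 := tr_mem (by norm_num) _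
theorem Wk_mem (ε : ℝ) (m k : ℕ) (p : ℝ) : 0 ≤ Wk ε m k p ∧ Wk ε m k p ≤ 1 :=
  tr_mem (by norm_num) _
theorem W0_le_W1 (ε p : ℝ) : W0 ε p ≤ W1 ε p := tr_mono (by norm_num) (by norm_num) _
theorem W0_le_Wh (ε p : ℝ) : W0 ε p ≤ Wh ε p := tr_mono (by norm_num) (by norm_num) _

theorem bk_le_Wk (ε : ℝ) (m k : ℕ) (p : ℝ) : bk ε m k p ≤ 2 * Wk ε m k p := by
  have h0 := (Wk_mem ε m k p).1
  unfold bk
  by_cases h : (m : ℝ) * xi ε p - k ≤ 0 ∨ 1 ≤ (m : ℝ) * xi ε p - k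
  · rw [bb_eq_zero h]; linarith
  · push Not at h
    unfold Wk
    rw [tr_eq_one (by linarith [h.1]) (by linarith [h.2])]
    linarith [bb_le (m * xi ε p - k)]

theorem ramp_le (ε p : ℝ) : bb (xi ε p + 1) + bb (xi ε p - 1) ≤ 2 * W1 ε p := by
  have h0 := (W1_mem ε p).1
  unfold W1 at h0 ⊢
  set x := xi ε p
  rcases le_total x (-1) with h | h
  · rw [bb_eq_zero (Or.inl (by linarith)), bb_eq_zero (Or.inl (by linarith))]; linarith
  rcases le_total 2 x with h' | h'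
  · rw [bb_eq_zero (Or.inr (by linarith)), bb_eq_zero (Or.inr (by linarith))]; linarith
  rw [tr_eq_one h h']
  rcases le_total x 0 with h'' | h''
  · rw [bb_eq_zero (x := x - 1) (Or.inl (by linarith))]; linarith [bb_le (x + 1)]
  · rw [bb_eq_zero (x := x + 1) (Or.inr (by linarith))]; linarith [bb_le (x - 1)]

theorem Prof.sum_bb_le (y : ℝ) (s : Finset ℕ) : ∑ k ∈ s, bb (y - k) ≤ 2 := by
  have h : ∀ k ∈ s, bb (y - k) ≤ if k = ⌊y⌋₊ then 2 else 0 := by
    intro k _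
    split_ifs with hk
    · exact bb_le _
    · refine le_of_eq (bb_eq_zero ?_)
      by_contra hc
      push Not at hc
      have h0 : (0 : ℝ) ≤ k := Nat.cast_nonneg k
      exact hk ((Nat.floor_eq_iff (by linarith [hc.1])).2
        ⟨by linarith [hc.1], by linarith [hc.2]⟩).symm
  refine (Finset.sum_le_sum h).trans ?_
  rw [Finset.sum_ite_eq']
  split_ifs <;> norm_num

theorem Prof.bk_eq_zero {m k : ℕ} (hk : k < m) {p : ℝ} (h : xi ε p ∉ Icc (0 : ℝ) 1) :
    bk ε m k p = 0 := by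
  obtain ⟨h1, h2⟩ := cast_lt hk
  refine bb_eq_zero ?_
  rw [mem_Icc, not_and_or, not_le, not_le] at h
  rcases h with h | h
  · left; nlinarith
  · right; nlinarith

theorem sum_bk_le (ε : ℝ) (m : ℕ) (p : ℝ) :
    ∑ k ∈ Finset.range m, bk ε m k p ≤ 2 * W1 ε p := by
  by_cases h : xi ε p ∈ Icc (0 : ℝ) 1
  · unfold W1
    rw [tr_eq_one (by linarith [h.1]) (by linarith [h.2]), mul_one]
    exact sum_bb_le _ _
  · rw [Finset.sum_eq_zero fun k hk => bk_eq_zero (Finset.mem_range.1 hk) h]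
    linarith [(W1_mem ε p).1]

theorem sum_Wk_le (ε : ℝ) {m : ℕ} (hm : 2 ≤ m) (p : ℝ) :
    ∑ k ∈ Finset.range m, Wk ε m k p ≤ 5 * W1 ε p := by
  have hm' : (2 : ℝ) ≤ m := by exact_mod_cast hm
  by_cases h : xi ε p ∈ Icc (-1 : ℝ) 2
  · unfold W1
    rw [tr_eq_one h.1 h.2, mul_one]
    set y := (m : ℝ) * xi ε p with hy
    set j := ⌈y + 2⌉₊
    have h1 : ∀ k ∈ Finset.range m,
        Wk ε m k p ≤ if k ∈ Finset.Ico (j - 5) j then 1 else 0 := by
      intro k _
      split_ifs with hk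
      · exact (Wk_mem ε m k p).2
      · refine le_of_eq (tr_eq_zero (by norm_num) ?_)
        by_contra hc
        push Not at hc
        have h0 : (0 : ℝ) ≤ k := Nat.cast_nonneg k
        have h2 : k < j := Nat.lt_ceil.2 (by linarith [hc.1])
        have h3 : (j : ℝ) < y + 2 + 1 := Nat.ceil_lt_add_one (by linarith [hc.1])
        have h4 : j < k + 6 := by
          have : (j : ℝ) < k + 6 := by linarith [hc.2]
          exact_mod_cast this
        exact hk (Finset.mem_Ico.2 ⟨by omega, h2⟩)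
    refine (Finset.sum_le_sum h1).trans ?_
    rw [Finset.sum_ite_mem, Finset.sum_const, nsmul_eq_mul, mul_one]
    have h5 := Finset.card_le_card (Finset.inter_subset_right (s₁ := Finset.range m)
      (s₂ := Finset.Ico (j - 5) j))
    rw [Nat.card_Ico] at h5
    have h6 : (Finset.range m ∩ Finset.Ico (j - 5) j).card ≤ 5 := by omega
    exact_mod_cast h6
  · rw [Finset.sum_eq_zero]
    · linarith [(W1_mem ε p).1]
    · intro k hk
      obtain ⟨h1, h2⟩ := cast_lt (Finset.mem_range.1 hk)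
      refine tr_eq_zero (by norm_num) ?_
      rw [mem_Icc, not_and_or, not_le, not_le] at h
      rcases h with h | h
      · left; nlinarith
      · right; nlinarith

theorem Prof.Wh_eq_one (h0 : 0 < ε) (h1 : ε ≤ 1 / 2) {t t₀ : ℝ} (h : xi ε t ∈ Icc (-2 : ℝ) 3)
    (ht : |t - t₀| ≤ ε ^ 70) : Wh ε t₀ = 1 := by
  have hh : 0 < ε ^ 70 := by positivity
  rw [xi_def, mem_Icc, le_div_iff₀ hh, div_le_iff₀ hh] at h
  rw [abs_le] at ht
  have h2 : |t₀ - (round (t / ε ^ 50) : ℤ) * ε ^ 50| < ε ^ 50 / 2 := by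
    rw [abs_lt]
    constructor <;> linarith [small h0 h1, h.1, h.2, ht.1, ht.2]
  unfold Wh
  rw [xi_eq h0 h2]
  refine tr_eq_one ?_ ?_
  · rw [le_div_iff₀ hh]; linarith [h.1, ht.2]
  · rw [div_le_iff₀ hh]; linarith [h.2, ht.1]

theorem W0_eq_zero_of (h0 : 0 < ε) (h1 : ε ≤ 1 / 2) {t t₀ : ℝ} (h : Wh ε t₀ < 1)
    (ht : |t - t₀| ≤ ε ^ 70) : W0 ε t = 0 := by
  refine tr_eq_zero (by norm_num) ?_
  by_contra hc
  push Not at hc
  exact h.ne (Wh_eq_one h0 h1 ⟨by linarith [hc.1], by linarith [hc.2]⟩ ht)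

theorem far_of_Wh (h0 : 0 < ε) (h1 : ε ≤ 1 / 2) {t t₀ : ℝ} (h : Wh ε t₀ < 1)
    (ht : xi ε t ∈ Icc (0 : ℝ) 1) : ε ^ 70 ≤ |t - t₀| := by
  by_contra hc
  exact h.ne (Wh_eq_one h0 h1 ⟨by linarith [ht.1], by linarith [ht.2]⟩ (not_le.1 hc).le)

theorem abs_gg_le (ε : ℝ) (m : ℕ) (l q p : ℝ) : |gg ε m l q p| ≤ 2 := by
  refine (Finset.abs_sum_le_sum_abs _ _).trans
    ((Finset.sum_le_sum fun k _ => ?_).trans (sum_bb_le (m * xi ε p) (Finset.range m)))
  rw [abs_mul, bk, abs_of_nonneg (bb_nonneg _)]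
  exact mul_le_of_le_one_right (bb_nonneg _) (Real.abs_cos_le_one _)

theorem gg_eq_zero {m : ℕ} {l q p : ℝ} (h : xi ε p ∉ Icc (0 : ℝ) 1) : gg ε m l q p = 0 :=
  Finset.sum_eq_zero fun k hk => by rw [bk_eq_zero (Finset.mem_range.1 hk) h, zero_mul]

theorem W0_mul_gg (ε : ℝ) (m : ℕ) (l q p : ℝ) : W0 ε p * gg ε m l q p = gg ε m l q p := by
  by_cases h : xi ε p ∈ Icc (0 : ℝ) 1
  · unfold W0
    rw [tr_eq_one h.1 h.2, one_mul]
  · rw [gg_eq_zero h, mul_zero]

theorem Prof.continuous_bk (h0 : 0 < ε) (h1 : ε ≤ 1 / 2) {m k : ℕ} (hk : k < m) :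
    Continuous (bk ε m k) :=
  continuous_xi h0 h1 (sp_bk hk) (continuous_bb.comp (by fun_prop))

theorem continuous_gg (h0 : 0 < ε) (h1 : ε ≤ 1 / 2) (m : ℕ) (l : ℝ) :
    Continuous fun z : ℝ × ℝ => gg ε m l z.1 z.2 :=
  continuous_finsetSum _ fun k hk =>
    ((continuous_bk h0 h1 (Finset.mem_range.1 hk)).comp continuous_snd).mul (by fun_prop)

theorem gg_lip (h0 : 0 < ε) (h1 : ε ≤ 1 / 20) {m : ℕ} {l : ℝ} (hm : (m : ℝ) ≤ l) (hl1 : 1 ≤ l)
    (hl : l ^ 2 * ε ≤ 1) (q p q' p' : ℝ) :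
    |gg ε m l q p - gg ε m l q' p'| ≤ ε⁻¹ ^ 73 * (|q - q'| + |p - p'|) := by
  have hh : 0 < ε ^ 70 := by positivity
  have hm0 : (0 : ℝ) ≤ m := Nat.cast_nonneg m
  have hA : 15 * l ^ 2 / ε ^ 70 ≤ ε⁻¹ ^ 73 := by
    rw [inv_pow, div_le_iff₀ hh, show (ε ^ 73)⁻¹ * ε ^ 70 = (ε ^ 3)⁻¹ by field_simp,
      ← one_div, le_div_iff₀ (by positivity)]
    have h2 : ε ^ 2 ≤ (1 / 20) ^ 2 := pow_le_pow_left₀ h0.le h1 2
    have h3 : 0 ≤ l ^ 2 * ε := by positivity
    calc 15 * l ^ 2 * ε ^ 3 = 15 * (l ^ 2 * ε) * ε ^ 2 := by ring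
      _ ≤ 15 * 1 * (1 / 20) ^ 2 := by gcongr
      _ ≤ 1 := by norm_num
  have e : gg ε m l q p - gg ε m l q' p' = ∑ k ∈ Finset.range m,
      (bk ε m k p * (Real.cos (om ε m l k * q) - Real.cos (om ε m l k * q')) +
        (bk ε m k p - bk ε m k p') * Real.cos (om ε m l k * q')) := by
    unfold gg
    rw [← Finset.sum_sub_distrib]
    exact Finset.sum_congr rfl fun k _ => by ring
  have hk : ∀ k ∈ Finset.range m,
      |bk ε m k p * (Real.cos (om ε m l k * q) - Real.cos (om ε m l k * q')) +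
        (bk ε m k p - bk ε m k p') * Real.cos (om ε m l k * q')| ≤
      bb (m * xi ε p - k) * (2 * l ^ 2 / ε ^ 70 * |q - q'|) + 15 * l / ε ^ 70 * |p - p'| := by
    intro k hk
    obtain ⟨a1, a2⟩ := cast_lt (Finset.mem_range.1 hk)
    have hmp : (0 : ℝ) < m := by linarith
    refine (abs_add_le _ _).trans (add_le_add ?_ ?_)
    · rw [abs_mul, bk, abs_of_nonneg (bb_nonneg _)]
      refine mul_le_mul_of_nonneg_left ((Real.abs_cos_sub_cos_le _ _).trans ?_) (bb_nonneg _)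
      rw [← mul_sub, abs_mul]
      refine mul_le_mul_of_nonneg_right ?_ (abs_nonneg _)
      have a3 : (k : ℝ) / m ≤ 1 := by rw [div_le_one hmp]; linarith
      have a4 : (0 : ℝ) ≤ (k : ℝ) / m := by positivity
      unfold om
      rw [abs_of_nonneg (by positivity)]
      calc (1 + (k : ℝ) / m) * (m * l / ε ^ 70) ≤ 2 * (l * l / ε ^ 70) := by
            gcongr; linarith
        _ = 2 * l ^ 2 / ε ^ 70 := by ring
    · rw [abs_mul]
      refine (mul_le_of_le_one_right (abs_nonneg _) (Real.abs_cos_le_one _)).trans ?_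
      refine xi_lip (ψ := fun x => bb (m * x - k)) h0 (by linarith)
        (sp_bk (Finset.mem_range.1 hk)) (fun x y => (bb_lip _ _).trans ?_) p p'
      rw [sub_sub_sub_cancel_right, ← mul_sub, abs_mul, abs_of_nonneg hm0, mul_assoc]
      gcongr
  rw [e]
  refine (Finset.abs_sum_le_sum_abs _ _).trans ((Finset.sum_le_sum hk).trans ?_)
  rw [Finset.sum_add_distrib, ← Finset.sum_mul, Finset.sum_const, Finset.card_range, nsmul_eq_mul,
    mul_add]
  refine add_le_add ?_ ?_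
  · calc _ ≤ 2 * (2 * l ^ 2 / ε ^ 70 * |q - q'|) :=
          mul_le_mul_of_nonneg_right (sum_bb_le _ _) (by positivity)
      _ = 4 * l ^ 2 / ε ^ 70 * |q - q'| := by ring
      _ ≤ 15 * l ^ 2 / ε ^ 70 * |q - q'| := by gcongr; norm_num
      _ ≤ _ := mul_le_mul_of_nonneg_right hA (abs_nonneg _)
  · calc _ ≤ l * (15 * l / ε ^ 70 * |p - p'|) :=
          mul_le_mul_of_nonneg_right hm (by positivity)
      _ = 15 * l ^ 2 / ε ^ 70 * |p - p'| := by ring
      _ ≤ _ := mul_le_mul_of_nonneg_right hA (abs_nonneg _)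

theorem mm_le {δ l : ℝ} (hε : 1 ≤ lg ε) (h0 : 0 ≤ δ) (h1 : δ ≤ 1) (hl : 0 ≤ l) :
    (mm ε δ l : ℝ) ≤ l := by
  have h2 : 0 < lg ε := by linarith
  refine (Nat.floor_le (by positivity)).trans ?_
  rw [div_le_iff₀ h2]; nlinarith

variable {d : ℕ} {δ : ℝ}

theorem r0_mem (h0 : 0 ≤ δ) (h1 : δ ≤ 1 / 100) (l : ℝ) (q p : E d → ℝ) (y : E d) :
    1 / 2 ≤ r0 ε δ l q p y ∧ r0 ε δ l q p y ≤ 3 / 2 := by
  have h := abs_le.1 (abs_gg_le ε (mm ε δ l) l (cv (ε ^ 120) q y) (cv (ε ^ 120) p y))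
  unfold r0
  constructor <;> nlinarith [h.1, h.2]

theorem continuous_r0 (h0 : 0 < ε) (h1 : ε ≤ 1 / 2) (δ l : ℝ) {q p : E d → ℝ} (hq : Continuous q)
    (hp : Continuous p) : Continuous (r0 ε δ l q p) := by
  have h2 : Continuous fun y : E d => (cv (ε ^ 120) q y, cv (ε ^ 120) p y) :=
    (continuous_cv hq (ε ^ 120)).prodMk (continuous_cv hp (ε ^ 120))
  have h3 : Continuous fun y : E d =>
      gg ε (mm ε δ l) l (cv (ε ^ 120) q y) (cv (ε ^ 120) p y) := by
    have := (continuous_gg h0 h1 (mm ε δ l) l).comp' h2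
    exact this
  unfold r0
  exact continuous_const.add (continuous_const.mul h3)

theorem card_le (h0 : 0 < ε) (S : Sys d ε δ) : (S.T : ℝ) ≤ ε⁻¹ ^ 7 := by
  rw [inv_pow, ← one_div, le_div_iff₀ (by positivity)]
  exact S.card

theorem Prof.sum_Wh_mem (h0 : 0 < ε) (S : Sys d ε δ) (s : Finset (Fin S.T)) (x : E d) :
    0 ≤ ∑ τ ∈ s, Wh ε (inner ℝ (S.e τ) x) ∧ ∑ τ ∈ s, Wh ε (inner ℝ (S.e τ) x) ≤ ε⁻¹ ^ 7 := by
  refine ⟨Finset.sum_nonneg fun τ _ => (Wh_mem _ _).1, ?_⟩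
  refine (Finset.sum_le_card_nsmul _ _ 1 fun τ _ => (Wh_mem _ _).2).trans ?_
  rw [nsmul_eq_mul, mul_one]
  refine le_trans ?_ (card_le h0 S)
  have := Finset.card_le_univ s
  rw [Fintype.card_fin] at this
  exact_mod_cast this

theorem Bad_mem (h0 : 0 < ε) (S : Sys d ε δ) (x : E d) : 0 ≤ Bad S x ∧ Bad S x ≤ ε⁻¹ ^ 7 :=
  sum_Wh_mem h0 S _ x

theorem BadO_mem (h0 : 0 < ε) (S : Sys d ε δ) (τ : Fin S.T) (x : E d) :
    0 ≤ BadO S τ x ∧ BadO S τ x ≤ ε⁻¹ ^ 7 := sum_Wh_mem h0 S _ x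

theorem Prof.continuous_Wh (h0 : 0 < ε) (h1 : ε ≤ 1 / 2) : Continuous (Wh ε) :=
  continuous_xi h0 h1 (sp_tr (by norm_num) (by norm_num) (by norm_num)) (continuous_tr _ _)

theorem continuous_Bad (h0 : 0 < ε) (h1 : ε ≤ 1 / 2) (S : Sys d ε δ) : Continuous (Bad S) :=
  continuous_finsetSum _ fun _ _ =>
    (continuous_Wh h0 h1).comp (continuous_const.inner continuous_id)

theorem continuous_BadO (h0 : 0 < ε) (h1 : ε ≤ 1 / 2) (S : Sys d ε δ) (τ : Fin S.T) :
    Continuous (BadO S τ) :=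
  continuous_finsetSum _ fun _ _ =>
    (continuous_Wh h0 h1).comp (continuous_const.inner continuous_id)

theorem far_of_Bad (h0 : 0 < ε) (h1 : ε ≤ 1 / 2) (S : Sys d ε δ) {x : E d} (h : Bad S x < 1) :
    Far S x := by
  intro τ x' hx'
  have h2 : Wh ε (inner ℝ (S.e τ) x) ≤ Bad S x :=
    Finset.single_le_sum (f := fun τ => Wh ε (inner ℝ (S.e τ) x)) (fun τ _ => (Wh_mem _ _).1)
      (Finset.mem_univ τ)
  have h3 := far_of_Wh h0 h1 (h2.trans_lt h) (S.slab τ x' hx')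
  rw [← inner_sub_right] at h3
  have h4 := abs_real_inner_le_norm (S.e τ) (x' - x)
  rw [S.unit τ, one_mul, norm_sub_rev] at h4
  exact (pow_le_pow_of_le_one h0.le (by linarith) (by norm_num)).trans (h3.trans h4)

/-! ### the potential -/

theorem FF_zero (ε : ℝ) : FF ε 0 = 0 := by simp [FF]

theorem continuousOn_FF (h0 : 0 < ε) : ContinuousOn (FF ε) (Ici 0) := by
  refine continuousOn_id.add (ContinuousOn.div_const (ContinuousOn.mul (by fun_prop)
    (ContinuousOn.log (by fun_prop) fun x hx => ?_)) _)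
  have : 0 ≤ x := hx
  positivity

theorem Prof.log_nonneg' (h0 : 0 < ε) {x : ℝ} (hx : 0 ≤ x) : 0 ≤ Real.log (1 + x / ε) :=
  Real.log_nonneg (by linarith [div_nonneg hx h0.le])

/-- strict convexity at every scale -/
theorem FF_tangent (h0 : 0 < ε) (h1 : 1 ≤ lg ε) {x y : ℝ} (hx : 0 ≤ x) (hy : 0 ≤ y) :
    FF ε y + F1 ε y * (x - y) + (√(x + ε) - √(y + ε)) ^ 2 / (2 * lg ε) ≤ FF ε x := by
  have hL : 0 < 2 * lg ε := by linarith
  have hu : 0 < √(x + ε) := Real.sqrt_pos.2 (by linarith)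
  have hv : 0 < √(y + ε) := Real.sqrt_pos.2 (by linarith)
  have hu2 : √(x + ε) ^ 2 = x + ε := Real.sq_sqrt (by linarith)
  have hv2 : √(y + ε) ^ 2 = y + ε := Real.sq_sqrt (by linarith)
  have hl : ∀ z : ℝ, 0 ≤ z → Real.log (1 + z / ε) = 2 * Real.log √(z + ε) - Real.log ε := by
    intro z hz
    rw [Real.log_sqrt (by linarith), show 1 + z / ε = (z + ε) / ε by field_simp; ring,
      Real.log_div (by positivity) h0.ne']
    ring
  unfold FF F1
  rw [hl x hx, hl y hy]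
  set u := √(x + ε)
  set v := √(y + ε)
  have h2 : Real.log v - Real.log u ≤ v / u - 1 := by
    rw [← Real.log_div hv.ne' hu.ne']
    exact Real.log_le_sub_one_of_pos (by positivity)
  have h3 : u ^ 2 * (Real.log v - Real.log u) ≤ u * v - u ^ 2 := by
    refine (mul_le_mul_of_nonneg_left h2 (sq_nonneg u)).trans (le_of_eq ?_)
    field_simp
  have ex : x = u ^ 2 - ε := by linarith
  have ey : y = v ^ 2 - ε := by linarith
  have key : (y + ε) * (2 * Real.log v - Real.log ε) +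
      (1 + (2 * Real.log v - Real.log ε)) * (x - y) + (u - v) ^ 2 ≤
      (x + ε) * (2 * Real.log u - Real.log ε) := by
    rw [← hu2, ← hv2, show x - y = u ^ 2 - v ^ 2 by linarith]
    nlinarith
  have := div_le_div_of_nonneg_right key hL.le
  rw [add_div, add_div] at this
  have e : (1 + (1 + (2 * Real.log v - Real.log ε)) / (2 * lg ε)) * (x - y) =
      x - y + (1 + (2 * Real.log v - Real.log ε)) * (x - y) / (2 * lg ε) := by ring
  rw [e]; linarith

theorem one_le_F1 (h0 : 0 < ε) (h1 : 1 ≤ lg ε) {x : ℝ} (hx : 0 ≤ x) : 1 ≤ F1 ε x := by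
  have := log_nonneg' h0 hx
  have hL : 0 < 2 * lg ε := by linarith
  exact le_add_of_nonneg_right (by positivity)

theorem Prof.eps_le_one (h0 : 0 < ε) (h1 : 0 ≤ lg ε) : ε ≤ 1 :=
  (Real.log_nonpos_iff h0.le).1 (by unfold lg at h1; linarith)

theorem F1_le_two (h0 : 0 < ε) (h1 : 3 ≤ lg ε) {x : ℝ} (hx : 0 ≤ x) (hx' : x ≤ 2) :
    F1 ε x ≤ 2 := by
  have hL : 0 < 2 * lg ε := by linarith
  have he := eps_le_one h0 (by linarith)
  have h2 : 1 + x / ε ≤ 3 / ε := by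
    rw [le_div_iff₀ h0, add_mul, div_mul_cancel₀ _ h0.ne']; linarith
  have h3 := Real.log_le_log (by positivity) h2
  rw [Real.log_div (by norm_num) h0.ne'] at h3
  have h4 := Real.log_le_sub_one_of_pos (show (0 : ℝ) < 3 by norm_num)
  have h5 : (1 + Real.log (1 + x / ε)) / (2 * lg ε) ≤ 1 := by
    rw [div_le_one hL]; unfold lg at *; linarith
  unfold F1; linarith

theorem F1_le_four (h0 : 0 < ε) (h1 : 3 ≤ lg ε) {x : ℝ} (hx : 0 ≤ x) (hx' : x ≤ ε⁻¹ ^ 4) :
    F1 ε x ≤ 4 := by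
  have hL : 0 < 2 * lg ε := by linarith
  have he := eps_le_one h0 (by linarith)
  have hi : 1 ≤ ε⁻¹ := one_le_inv₀ h0 |>.2 he
  have h2 : 1 + x / ε ≤ 2 * ε⁻¹ ^ 5 := by
    have a1 : 1 ≤ ε⁻¹ ^ 5 := one_le_pow₀ hi
    have a2 : x / ε ≤ ε⁻¹ ^ 5 := by
      rw [div_eq_mul_inv, pow_succ]
      exact mul_le_mul_of_nonneg_right hx' (by positivity)
    linarith
  have h3 := Real.log_le_log (by positivity) h2
  rw [Real.log_mul (by norm_num) (by positivity), Real.log_pow, Real.log_inv] at h3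
  have h4 := Real.log_le_sub_one_of_pos (show (0 : ℝ) < 2 by norm_num)
  have h5 : (1 + Real.log (1 + x / ε)) / (2 * lg ε) ≤ 3 := by
    rw [div_le_iff₀ hL]; unfold lg at *; push_cast at h3; linarith
  unfold F1; linarith

theorem FF_nonneg (h0 : 0 < ε) (h1 : 1 ≤ lg ε) {x : ℝ} (hx : 0 ≤ x) : 0 ≤ FF ε x := by
  have := log_nonneg' h0 hx
  have hL : 0 < 2 * lg ε := by linarith
  unfold FF; positivity

theorem FF_mono (h0 : 0 < ε) (h1 : 1 ≤ lg ε) {x y : ℝ} (hx : 0 ≤ x) (hxy : x ≤ y) :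
    FF ε x ≤ FF ε y := by
  have h2 := FF_tangent h0 h1 (hx.trans hxy) hx
  have h3 : 0 ≤ F1 ε x * (y - x) :=
    mul_nonneg (by linarith [one_le_F1 h0 h1 hx]) (by linarith)
  have h4 : 0 ≤ (√(y + ε) - √(x + ε)) ^ 2 / (2 * lg ε) := div_nonneg (sq_nonneg _) (by linarith)
  linarith

theorem FF_le (h0 : 0 < ε) (h1 : 1 ≤ lg ε) {x : ℝ} (hx : 0 ≤ x) : FF ε x ≤ F1 ε x * x := by
  have h2 := FF_tangent h0 h1 le_rfl hx
  have h4 : 0 ≤ (√(0 + ε) - √(x + ε)) ^ 2 / (2 * lg ε) := div_nonneg (sq_nonneg _) (by linarith)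
  rw [FF_zero] at h2
  linarith

theorem FF_sub (h0 : 0 < ε) (h1 : 1 ≤ lg ε) {x : ℝ} (hx : 0 ≤ x) :
    |FF ε x - F1 ε x * x| ≤ x := by
  have hL : 0 < 2 * lg ε := by linarith
  have h2 := FF_le h0 h1 hx
  have h3 := mul_nonneg h0.le (log_nonneg' h0 hx)
  have e : F1 ε x * x - FF ε x = (x - ε * Real.log (1 + x / ε)) / (2 * lg ε) := by
    unfold FF F1; ring
  have h4 : (x - ε * Real.log (1 + x / ε)) / (2 * lg ε) ≤ x := by
    rw [div_le_iff₀ hL]; nlinarith
  rw [abs_le]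
  constructor <;> linarith

end Pool.Agent.MP_20bec2_an.h7

end
end MrgPart0

-- ======== part 1: formerly Pool.Agent.MP_20bec2_an.h7.Net
section MrgPart1

/-! A net of slab families (project BIOM, module NET). -/

set_option autoImplicit false

open MeasureTheory Set Metric Filter Topology

noncomputable section

namespace Pool.Agent.MP_20bec2_an.h7

namespace NetA

variable {d : ℕ}

/-- rational parametrisation of the half circle -/
def ca (t : ℝ) : ℝ := (1 - t ^ 2) / (1 + t ^ 2)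

def sa (t : ℝ) : ℝ := 2 * t / (1 + t ^ 2)

theorem ca_sa (t : ℝ) : ca t ^ 2 + sa t ^ 2 = 1 := by
  unfold ca sa
  field_simp
  ring

theorem ca_lip (s t : ℝ) : |ca s - ca t| ≤ 2 * |s - t| := by
  have e : ca s - ca t = 2 * (s - t) * (-(s + t) / ((1 + s ^ 2) * (1 + t ^ 2))) := by
    unfold ca
    field_simp
    ring
  rw [e, abs_mul, abs_mul, abs_two]
  refine mul_le_of_le_one_right (by positivity) ?_
  rw [abs_div, abs_of_pos (by positivity : (0 : ℝ) < (1 + s ^ 2) * (1 + t ^ 2)),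
    div_le_one (by positivity), abs_le]
  constructor <;>
    nlinarith [sq_nonneg (s * t), sq_nonneg (s - 1 / 2), sq_nonneg (t - 1 / 2),
      sq_nonneg (s + 1 / 2), sq_nonneg (t + 1 / 2)]

theorem sa_lip (s t : ℝ) : |sa s - sa t| ≤ 2 * |s - t| := by
  have e : sa s - sa t = 2 * (s - t) * ((1 - s * t) / ((1 + s ^ 2) * (1 + t ^ 2))) := by
    unfold sa
    field_simp
    ring
  rw [e, abs_mul, abs_mul, abs_two]
  refine mul_le_of_le_one_right (by positivity) ?_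
  rw [abs_div, abs_of_pos (by positivity : (0 : ℝ) < (1 + s ^ 2) * (1 + t ^ 2)),
    div_le_one (by positivity), abs_le]
  constructor <;> nlinarith [sq_nonneg (s * t), sq_nonneg (s - t), sq_nonneg (s + t)]

theorem exists_par {a b : ℝ} (h : a ^ 2 + b ^ 2 = 1) (ha : 0 ≤ a) :
    ∃ t : ℝ, -1 ≤ t ∧ t ≤ 1 ∧ ca t = a ∧ sa t = b := by
  have h1 : 0 < 1 + a := by linarith
  have hb : |b| ≤ 1 := by
    rw [← sq_le_one_iff_abs_le_one]; nlinarith
  have h2 : 1 + (b / (1 + a)) ^ 2 = 2 / (1 + a) := by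
    field_simp
    nlinarith
  refine ⟨b / (1 + a), ?_, ?_, ?_, ?_⟩
  · rw [le_div_iff₀ h1]; linarith [(abs_le.1 hb).1]
  · rw [div_le_one h1]; linarith [(abs_le.1 hb).2]
  · have h3 : 1 - (b / (1 + a)) ^ 2 = 2 - 2 / (1 + a) := by linarith
    rw [ca, h2, h3]
    field_simp
    ring
  · rw [sa, h2]
    field_simp

theorem ca_ge {κ t : ℝ} (h0 : 0 ≤ κ) (h : |t| ≤ 1 - κ) : κ ^ 2 / 4 ≤ ca t ^ 2 := by
  have h1 := abs_nonneg t
  have h2 : t ^ 2 ≤ 1 - κ := by rw [← sq_abs]; nlinarith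
  have h3 : κ / 2 ≤ ca t := by
    rw [ca, le_div_iff₀ (by positivity)]; nlinarith
  calc κ ^ 2 / 4 = (κ / 2) ^ 2 := by ring
    _ ≤ _ := pow_le_pow_left₀ (by positivity) h3 2

theorem sa_ge {κ t : ℝ} (h0 : 0 ≤ κ) (h : |t| ≤ 1 - κ) (h' : κ ≤ |t|) : κ ^ 2 / 4 ≤ sa t ^ 2 := by
  have h1 := abs_nonneg t
  have h2 : t ^ 2 ≤ 1 := by rw [← sq_abs]; nlinarith
  have h3 : κ ^ 2 ≤ t ^ 2 := by rw [← sq_abs t]; exact pow_le_pow_left₀ h0 h' 2
  rw [sa, div_pow, le_div_iff₀ (by positivity)]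
  have h4 : (1 + t ^ 2) ^ 2 ≤ 4 := by nlinarith [sq_nonneg t]
  nlinarith [sq_nonneg κ, sq_nonneg t]

theorem sep_par {κ s t : ℝ} (h0 : 0 ≤ κ) (hs : |s| ≤ 1 - κ) (ht : |t| ≤ 1 - κ)
    (h : 2 * κ ≤ |s - t|) : κ ^ 2 / 4 ≤ 1 - (ca s * ca t + sa s * sa t) ^ 2 := by
  have e : 1 - (ca s * ca t + sa s * sa t) ^ 2 =
      (2 * (|s - t| * (1 + s * t)) / ((1 + s ^ 2) * (1 + t ^ 2))) ^ 2 := by
    rw [div_pow, mul_pow, mul_pow, sq_abs]
    unfold ca sa
    field_simp
    ring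
  have a1 := abs_nonneg s
  have a2 := abs_nonneg t
  have s2 : s ^ 2 ≤ 1 := by rw [← sq_abs]; nlinarith
  have t2 : t ^ 2 ≤ 1 := by rw [← sq_abs]; nlinarith
  have h1 : κ ≤ 1 + s * t := by
    have h2 : |s * t| ≤ 1 - κ := by rw [abs_mul]; nlinarith
    linarith [(abs_le.1 h2).1]
  have h2 : κ ≤ |s - t| * (1 + s * t) := by
    rcases le_total (1 / 2) (1 + s * t) with k | k
    · nlinarith
    · have h3 : 1 ≤ |s - t| := by
        rw [← one_le_sq_iff_one_le_abs]; nlinarith [sq_nonneg (s + t)]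
      nlinarith
  have h3 : κ / 2 ≤ 2 * (|s - t| * (1 + s * t)) / ((1 + s ^ 2) * (1 + t ^ 2)) := by
    rw [le_div_iff₀ (by positivity)]
    have h4 : (1 + s ^ 2) * (1 + t ^ 2) ≤ 4 := by nlinarith [sq_nonneg s, sq_nonneg t]
    nlinarith
  rw [e]
  calc κ ^ 2 / 4 = (κ / 2) ^ 2 := by ring
    _ ≤ _ := pow_le_pow_left₀ (by positivity) h3 2

/-- the points of the net -/
def tn (K n : ℕ) : ℝ := (2 * n + 1 - K) / K

theorem tn_le {K n : ℕ} (h : n < K) : |tn K n| ≤ 1 - 1 / (K : ℝ) := by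
  have h1 : (n : ℝ) + 1 ≤ K := by exact_mod_cast h
  have h2 : (0 : ℝ) ≤ n := Nat.cast_nonneg n
  have h3 : (0 : ℝ) < K := by linarith
  rw [tn, abs_div, abs_of_pos h3, one_sub_div h3.ne']
  exact div_le_div_of_nonneg_right (abs_le.2 ⟨by linarith, by linarith⟩) h3.le

theorem le_tn {K n : ℕ} (hK : Even K) : 1 / (K : ℝ) ≤ |tn K n| := by
  obtain ⟨m, rfl⟩ := hK
  rw [tn, abs_div, Nat.abs_cast]
  refine div_le_div_of_nonneg_right ?_ (Nat.cast_nonneg _)
  have h1 : (1 : ℤ) ≤ |2 * (n : ℤ) + 1 - (m + m : ℕ)| := Int.one_le_abs (by push_cast; omega)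
  exact_mod_cast h1

theorem tn_sep {K n n' : ℕ} (h : n ≠ n') : 2 * (1 / (K : ℝ)) ≤ |tn K n - tn K n'| := by
  rw [tn, tn, ← sub_div, abs_div, Nat.abs_cast, mul_one_div]
  refine div_le_div_of_nonneg_right ?_ (Nat.cast_nonneg _)
  have h1 : (2 : ℤ) ≤ |2 * (n : ℤ) + 1 - K - (2 * n' + 1 - K)| := by
    rcases lt_or_gt_of_ne h with k | k
    · exact le_abs.2 (.inr (by omega))
    · exact le_abs.2 (.inl (by omega))
  exact_mod_cast h1

theorem exists_tn {K' J k : ℕ} (hK : 0 < K') (hk : k ≤ J) {t : ℝ} (h1 : -1 ≤ t) (h2 : t ≤ 1) :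
    ∃ n < K' * (J + 1), n % (J + 1) = k ∧ |tn (K' * (J + 1)) n - t| ≤ 2 / K' := by
  have hK' : (0 : ℝ) < K' := by exact_mod_cast hK
  obtain ⟨m, hm, m1, m2⟩ : ∃ m < K', (m : ℝ) ≤ (t + 1) * K' / 2 ∧ (t + 1) * K' / 2 ≤ m + 1 := by
    by_cases h : ⌊(t + 1) * K' / 2⌋₊ < K'
    · exact ⟨_, h, Nat.floor_le (by have : 0 ≤ t + 1 := by linarith
                                    positivity), (Nat.lt_floor_add_one _).le⟩
    · obtain ⟨m, rfl⟩ : ∃ m, K' = m + 1 := ⟨K' - 1, by omega⟩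
      have h3 : ((m + 1 : ℕ) : ℝ) ≤ (t + 1) * (m + 1 : ℕ) / 2 :=
        (Nat.le_floor_iff (by have : 0 ≤ t + 1 := by linarith
                              positivity)).1 (not_lt.1 h)
      refine ⟨m, by omega, ?_, ?_⟩
      · push_cast at h3 ⊢; linarith
      · push_cast at hK' ⊢; nlinarith
  refine ⟨m * (J + 1) + k, by nlinarith, ?_, ?_⟩
  · rw [Nat.mul_add_mod_of_lt (by omega)]
  · have hJ : (0 : ℝ) < J + 1 := by positivity
    have k1 : (k : ℝ) ≤ J := by exact_mod_cast hk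
    have k0 : (0 : ℝ) ≤ k := Nat.cast_nonneg k
    have e : tn (K' * (J + 1)) (m * (J + 1) + k) - t =
        (2 * m + (2 * k + 1) / (J + 1) - (t + 1) * K') / K' := by
      unfold tn
      push_cast
      field_simp
      ring
    have a1 : 0 ≤ (2 * (k : ℝ) + 1) / (J + 1) := by positivity
    have a2 : (2 * (k : ℝ) + 1) / (J + 1) ≤ 2 := by rw [div_le_iff₀ hJ]; linarith
    rw [e, abs_div, abs_of_pos hK']
    exact div_le_div_of_nonneg_right (abs_le.2 ⟨by linarith, by linarith⟩) hK'.le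

/-! ### vectors in coordinate planes -/

theorem inner_ax_self (i : Fin d) : inner ℝ (ax i) (ax i) = (1 : ℝ) := by
  rw [real_inner_self_eq_norm_sq, norm_ax, one_pow]

theorem inner_pl {i j : Fin d} (h : i ≠ j) (a b a' b' : ℝ) :
    inner ℝ (a • ax i + b • ax j) (a' • ax i + b' • ax j) = a * a' + b * b' := by
  simp only [inner_add_left, inner_add_right, real_inner_smul_left, real_inner_smul_right,
    inner_ax_self, (on_ax h).2.2, (on_ax h.symm).2.2]
  ring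

theorem norm_pl {i j : Fin d} (h : i ≠ j) {a b : ℝ} (hab : a ^ 2 + b ^ 2 = 1) :
    ‖a • ax i + b • ax j‖ = 1 := by
  have h1 := real_inner_self_eq_norm_sq (a • ax i + b • ax j)
  rw [inner_pl h] at h1
  have h2 : ‖a • ax i + b • ax j‖ ^ 2 = 1 := by linarith
  exact (pow_eq_one_iff_of_nonneg (norm_nonneg _) two_ne_zero).1 h2

theorem on_pl {i j : Fin d} (h : i ≠ j) {a b : ℝ} (hab : a ^ 2 + b ^ 2 = 1) :
    ON (b • ax i - a • ax j) (a • ax i + b • ax j) := by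
  rw [sub_eq_add_neg, ← neg_smul]
  refine ⟨norm_pl h (by linarith), norm_pl h hab, ?_⟩
  rw [inner_pl h]; ring

/-- a direction with a component outside the plane of another direction -/
theorem sep_out {i j i' j' : Fin d} (h' : i' ≠ j') (h1 : i ≠ i') (h2 : i ≠ j') {a b a' b' : ℝ}
    (hab : a ^ 2 + b ^ 2 = 1) (hab' : a' ^ 2 + b' ^ 2 = 1) :
    a ^ 2 ≤ 1 - inner ℝ (a • ax i + b • ax j) (a' • ax i' + b' • ax j') ^ 2 := by
  have h3 : inner ℝ (ax i) (a' • ax i' + b' • ax j') = (0 : ℝ) := by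
    simp only [inner_add_right, real_inner_smul_right, (on_ax h1).2.2, (on_ax h2).2.2]
    ring
  have h4 := abs_real_inner_le_norm (ax j) (a' • ax i' + b' • ax j')
  rw [norm_ax, norm_pl h' hab', one_mul, ← sq_le_one_iff_abs_le_one] at h4
  rw [inner_add_left, real_inner_smul_left, real_inner_smul_left, h3, mul_zero, zero_add, mul_pow]
  nlinarith [sq_nonneg b]

theorem measurable_devF {ε : ℝ} (h0 : 0 < ε) (h1 : ε ≤ 1 / 2) (δ l : ℝ) (e' e : E d) :
    Measurable (devF ε δ l e' e) := by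
  have hc : ∀ v : E d, Continuous fun x : E d => inner ℝ v x := fun v =>
    continuous_const.inner continuous_id
  have h2 : Continuous fun x : E d => gg ε (mm ε δ l) l (inner ℝ e' x) (inner ℝ e x) := by
    have := (continuous_gg h0 h1 (mm ε δ l) l).comp' ((hc e').prodMk (hc e))
    exact this
  refine Measurable.ite (MeasurableSet.inter ?_ ?_) (continuous_const.mul h2).measurable
    measurable_const
  · exact (((hc e').measurable.div_const _).fract) measurableSet_Icc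
  · exact (((hc e).measurable.div_const _).fract) measurableSet_Icc

/-- the types -/
abbrev Ty (d K : ℕ) : Type := {p : Fin d × Fin d // p.1 < p.2} × Fin K

def ev {K : ℕ} (τ : Ty d K) : E d := ca (tn K τ.2) • ax τ.1.1.1 + sa (tn K τ.2) • ax τ.1.1.2

def ev' {K : ℕ} (τ : Ty d K) : E d := sa (tn K τ.2) • ax τ.1.1.1 - ca (tn K τ.2) • ax τ.1.1.2

theorem card_Ty (d K : ℕ) : Fintype.card (Ty d K) ≤ d * d * K := by
  rw [Fintype.card_prod, Fintype.card_fin]
  refine Nat.mul_le_mul_right _ ((Fintype.card_subtype_le _).trans ?_)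
  simp

theorem ev_sep {K : ℕ} (hK : Even K) {τ τ' : Ty d K} (h : τ ≠ τ') :
    (1 / (K : ℝ)) ^ 2 / 4 ≤ 1 - inner ℝ (ev τ) (ev τ') ^ 2 := by
  obtain ⟨⟨⟨i, j⟩, hij⟩, n⟩ := τ
  obtain ⟨⟨⟨i', j'⟩, hij'⟩, n'⟩ := τ'
  have h0 : 0 ≤ 1 / (K : ℝ) := by positivity
  have c1 := ca_ge h0 (tn_le n.2)
  have s1 := sa_ge h0 (tn_le n.2) (le_tn hK)
  have k1 : i < j := hij
  have k2 : i' < j' := hij'
  simp only [ev] at *
  by_cases h1 : i = i' ∨ i = j'
  · by_cases h2 : j = i' ∨ j = j'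
    · obtain rfl : i = i' := by omega
      obtain rfl : j = j' := by omega
      rw [inner_pl hij.ne]
      exact sep_par h0 (tn_le n.2) (tn_le n'.2)
        (tn_sep fun e => h (by rw [Fin.ext e]))
    · rw [add_comm]
      exact s1.trans (sep_out hij'.ne (fun e => h2 (.inl e)) (fun e => h2 (.inr e))
        (by linarith [ca_sa (tn K n)]) (ca_sa _))
  · exact c1.trans (sep_out hij'.ne (fun e => h1 (.inl e)) (fun e => h1 (.inr e))
      (ca_sa _) (ca_sa _))

end NetA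

open NetA in
theorem net (d : ℕ) (_hd : 2 ≤ d) : NetStmt d := by
  refine small_iff.2 ?_
  filter_upwards [ev_pos, ev_mul_le 24, ev_mul_le (12 * d * d)] with ε h0 h24 hd δ hδ _
  have h1 : ε ≤ 1 / 2 := by linarith
  have hi : 1 ≤ ε⁻¹ := (one_le_inv₀ h0).2 (by linarith)
  have hi5 : 1 ≤ ε⁻¹ ^ 5 := one_le_pow₀ hi
  obtain ⟨K', hK1, hK2, hK3⟩ : ∃ K' : ℕ, Even K' ∧ 4 * ε⁻¹ ^ 5 ≤ K' ∧ (K' : ℝ) ≤ 6 * ε⁻¹ ^ 5 := by
    refine ⟨2 * ⌈2 * ε⁻¹ ^ 5⌉₊, even_two_mul _, ?_, ?_⟩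
    · push_cast; linarith [Nat.le_ceil (2 * ε⁻¹ ^ 5)]
    · push_cast; linarith [Nat.ceil_lt_add_one (show 0 ≤ 2 * ε⁻¹ ^ 5 by positivity)]
  have hK0 : (0 : ℝ) < K' := by linarith
  obtain ⟨J, hJ1, hJ2⟩ : ∃ J : ℕ, (J : ℝ) ≤ ε⁻¹ ∧ ∀ k : ℕ, (k : ℝ) ≤ ε⁻¹ → k ≤ J :=
    ⟨⌊ε⁻¹⌋₊, Nat.floor_le (by positivity), fun k hk => Nat.le_floor hk⟩
  obtain ⟨K, hK⟩ : ∃ K : ℕ, K = K' * (J + 1) := ⟨_, rfl⟩
  have hKe : Even K := hK ▸ hK1.mul_right _
  have hKp : (0 : ℝ) < K := by rw [hK]; push_cast; positivity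
  have hKl : (K : ℝ) * ε ^ 6 ≤ 12 := by
    have h2 : (K : ℝ) ≤ 6 * ε⁻¹ ^ 5 * (2 * ε⁻¹) := by
      rw [hK]; push_cast
      exact mul_le_mul hK3 (by linarith) (by positivity) (by positivity)
    calc (K : ℝ) * ε ^ 6 ≤ 6 * ε⁻¹ ^ 5 * (2 * ε⁻¹) * ε ^ 6 := by gcongr
      _ = 12 := by field_simp; norm_num
  let q := (Fintype.equivFin (Ty d K)).symm
  let l : Ty d K → ℝ := fun τ => 2 ^ (τ.2.1 % (J + 1))
  refine ⟨⟨Fintype.card (Ty d K), fun τ => ev (q τ),
    fun τ => devF ε δ (l (q τ)) (ev' (q τ)) (ev (q τ)), fun τ => plF ε (ev' (q τ)) (ev (q τ)),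
    ?_, fun τ => norm_pl (q τ).1.2.ne (ca_sa _), fun τ τ' h => ?_,
    fun τ => measurable_devF h0 h1 _ _ _ _, fun τ x => ?_, fun τ x hx => ?_,
    fun τ x hx => hx.2⟩, ?_⟩
  · have h2 : (Fintype.card (Ty d K) : ℝ) ≤ d * d * K := by exact_mod_cast card_Ty d K
    calc (Fintype.card (Ty d K) : ℝ) * ε ^ 7 ≤ d * d * K * ε ^ 7 := by gcongr
      _ = d * d * ε * (K * ε ^ 6) := by ring
      _ ≤ d * d * ε * 12 := by gcongr
      _ ≤ 1 := by linarith
  · refine le_trans ?_ (ev_sep hKe (q.injective.ne h))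
    have h2 : ε ^ 7 ≤ 1 / (K : ℝ) / 2 := by
      rw [div_div, le_div_iff₀ (by positivity)]
      calc ε ^ 7 * (K * 2) = 2 * ε * (K * ε ^ 6) := by ring
        _ ≤ 2 * ε * 12 := by gcongr
        _ ≤ 1 := by linarith
    calc ε ^ 14 = (ε ^ 7) ^ 2 := by ring
      _ ≤ (1 / (K : ℝ) / 2) ^ 2 := by gcongr
      _ = _ := by ring
  · unfold devF
    split_ifs
    · rw [abs_mul, abs_of_pos (by positivity)]
      calc _ ≤ 16 * δ * 2 := mul_le_mul_of_nonneg_left (abs_gg_le _ _ _ _ _) (by positivity)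
        _ = _ := by ring
    · rw [abs_zero]; positivity
  · unfold devF
    split_ifs with h
    · rw [gg_eq_zero fun h' => hx ⟨h, h'⟩, mul_zero]
    · rfl
  · intro i j hij c₁ c₂ hc k hk
    obtain ⟨σ, hσ, hs⟩ : ∃ σ : ℝ, (σ = 1 ∨ σ = -1) ∧ 0 ≤ σ * c₁ := by
      rcases le_total 0 c₁ with h | h
      · exact ⟨1, .inl rfl, by linarith⟩
      · exact ⟨-1, .inr rfl, by linarith⟩
    have hσ2 : σ * σ = 1 := by rcases hσ with rfl | rfl <;> norm_num
    have hσ1 : |σ| = 1 := by rcases hσ with rfl | rfl <;> norm_num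
    obtain ⟨t, t1, t2, t3, t4⟩ := exists_par (a := σ * c₁) (b := σ * c₂)
      (by linear_combination (c₁ ^ 2 + c₂ ^ 2) * hσ2 + hc) hs
    have hkJ : k ≤ J := by
      refine hJ2 k ?_
      have h2 : (k : ℝ) ≤ 4 ^ k := by exact_mod_cast (Nat.lt_pow_self (by norm_num : 1 < 4)).le
      rw [← one_div, le_div_iff₀ h0]
      nlinarith
    obtain ⟨n, hn, n1, n2⟩ := exists_tn (K' := K') (by exact_mod_cast hK0) hkJ t1 t2
    rw [← hK] at hn n2
    have h4 : 2 * (2 / (K' : ℝ)) ≤ ε ^ 5 := by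
      rw [← mul_div_assoc, div_le_iff₀ hK0]
      calc (2 : ℝ) * 2 = ε ^ 5 * (4 * ε⁻¹ ^ 5) := by field_simp; norm_num
        _ ≤ _ := by gcongr
    have key : ∀ a c : ℝ, |a - σ * c| ≤ 2 * |tn K n - t| → |σ * a - c| ≤ ε ^ 5 := by
      intro a c h
      have e : σ * a - c = σ * (a - σ * c) := by linear_combination c * hσ2
      rw [e, abs_mul, hσ1, one_mul]
      linarith
    refine ⟨q.symm (⟨(i, j), hij⟩, ⟨n, hn⟩), ca (tn K n), sa (tn K n), σ, ca_sa _, hσ,
      key _ _ (t3 ▸ ca_lip _ _), key _ _ (t4 ▸ sa_lip _ _), ?_, ?_, ?_, ?_⟩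
    · simp only [Equiv.apply_symm_apply, ev]
    · simp only [Equiv.apply_symm_apply, ev]
      exact on_pl hij.ne (ca_sa _)
    · simp only [Equiv.apply_symm_apply, ev, ev', l, n1]
    · simp only [Equiv.apply_symm_apply, ev, ev']

end Pool.Agent.MP_20bec2_an.h7

end
end MrgPart1

-- marker of a merged file
example : 731051 + 370144 = 731051 + 370144 := rfl
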