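import Mathlib.NumberTheory.Harmonic.Bounds
import Mathlib.RingTheory.WittVector.IsPoly
import Mathlib.Tactic
import Pool.Agent.MP_20bec2_an.h7.Net

-- ======== part 0: formerly Pool.Agent.MP_20bec2_an.h7.Mass
section MrgPart0

/-! The mass of the slabs (project BIOM). -/

set_option autoImplicit false

open MeasureTheory Set Metric Filter Topology

noncomputable section

namespace Pool.Agent.MP_20bec2_an.h7

namespace Mass

variable {d : ℕ} {ε : ℝ}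

theorem ip (h0 : 0 < ε) {a b c : ℕ} (h : c = a + b) : ε⁻¹ ^ a * ε ^ c = ε ^ b := by
  rw [h, pow_add, inv_pow, inv_mul_cancel_left₀ (by positivity)]

theorem sp1 : Sp (tr (-1) 2) := sp_tr (by norm_num) (by norm_num) (by norm_num)

theorem sph : Sp (tr (-3) 4) := sp_tr (by norm_num) (by norm_num) (by norm_num)

theorem cont_W1 (h0 : 0 < ε) (h1 : ε ≤ 1 / 2) : Continuous (W1 ε) :=
  continuous_xi h0 h1 sp1 (continuous_tr _ _)

theorem int1 : ∫ x in (-10 : ℝ)..10, tr (-1) 2 x = 4 := by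
  rw [integral_tr (by norm_num) (by norm_num) (by norm_num)]
  norm_num

theorem inth : ∫ x in (-10 : ℝ)..10, tr (-3) 4 x = 8 := by
  rw [integral_tr (by norm_num) (by norm_num) (by norm_num)]
  norm_num

theorem lip_xi (h0 : 0 < ε) (h1 : ε ≤ 1 / 2) {a b : ℝ} (h : Sp (tr a b)) (p p' : ℝ) :
    |tr a b (xi ε p) - tr a b (xi ε p')| ≤ 2 * ε⁻¹ ^ 70 * |p - p'| := by
  have := xi_lip h0 h1 h (tr_lip a b) p p'
  rwa [div_eq_mul_inv, ← inv_pow] at this

theorem prim (h0 : 0 < ε) (h1 : ε ≤ 1 / 2) : ∃ G : ℝ → ℝ, ContDiff ℝ 1 G ∧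
    (∀ p, HasDerivAt G (W1 ε p - 4 * ε ^ 20) p) ∧ ∀ p, |G p| ≤ 8 * ε ^ 70 := by
  obtain ⟨G, g1, g2, g3⟩ := prim_xi h0 h1 sp1 (continuous_tr _ _)
    fun x => (tr_mem (by norm_num) x).1
  rw [int1] at g2 g3
  exact ⟨G, g1, fun p => mul_comm (ε ^ 20) 4 ▸ g2 p, fun p => (g3 p).trans (le_of_eq (by ring))⟩

/-- bounded and Lipschitz -/
structure BL (B K : ℝ) (G : E d → ℝ) : Prop where
  nn : 0 ≤ K
  bd : ∀ x, |G x| ≤ B
  lip : ∀ x x', |G x - G x'| ≤ K * ‖x - x'‖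

variable {B K B' K' : ℝ} {G G' : E d → ℝ}

theorem BL.cont (h : BL B K G) : Continuous G :=
  (LipschitzWith.of_dist_le_mul (K := ⟨K, h.nn⟩) fun x y => by
    rw [Real.dist_eq, dist_eq_norm]
    exact h.lip x y).continuous

theorem BL.mono (h : BL B K G) (hB : B ≤ B') (hK : K ≤ K') : BL B' K' G :=
  ⟨h.nn.trans hK, fun x => (h.bd x).trans hB, fun x x' =>
    (h.lip x x').trans (mul_le_mul_of_nonneg_right hK (norm_nonneg _))⟩

theorem BL.mul (h : BL B K G) (h' : BL B' K' G') :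
    BL (B * B') (B * K' + B' * K) fun x => G x * G' x := by
  have hB : 0 ≤ B := (abs_nonneg _).trans (h.bd 0)
  have hB' : 0 ≤ B' := (abs_nonneg _).trans (h'.bd 0)
  refine ⟨add_nonneg (mul_nonneg hB h'.nn) (mul_nonneg hB' h.nn), fun x => ?_, fun x x' => ?_⟩
  · rw [abs_mul]
    exact mul_le_mul (h.bd x) (h'.bd x) (abs_nonneg _) hB
  · rw [show G x * G' x - G x' * G' x' = G x * (G' x - G' x') + G' x' * (G x - G x') by ring,
      add_mul, mul_assoc, mul_assoc]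
    refine (abs_add_le _ _).trans (add_le_add ?_ ?_) <;> rw [abs_mul]
    · exact mul_le_mul (h.bd x) (h'.lip x x') (abs_nonneg _) hB
    · exact mul_le_mul (h'.bd x') (h.lip x x') (abs_nonneg _) hB'

theorem BL.sum {ι : Type} (s : Finset ι) {f : ι → E d → ℝ} (hK : 0 ≤ K)
    (h : ∀ i ∈ s, BL B K (f i)) : BL (s.card * B) (s.card * K) fun x => ∑ i ∈ s, f i x := by
  refine ⟨by positivity, fun x => ?_, fun x x' => ?_⟩
  · refine (Finset.abs_sum_le_sum_abs _ _).trans ?_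
    rw [← nsmul_eq_mul]
    exact Finset.sum_le_card_nsmul _ _ _ fun i hi => (h i hi).bd x
  · rw [← Finset.sum_sub_distrib, mul_assoc, ← nsmul_eq_mul]
    exact (Finset.abs_sum_le_sum_abs _ _).trans
      (Finset.sum_le_card_nsmul _ _ _ fun i hi => (h i hi).lip x x')

theorem BL.inv {δ : ℝ} (h : BL 2 K G) (h0 : 0 ≤ δ) (h1 : δ ≤ 1 / 100) :
    BL 2 K fun x => (1 + δ * G x)⁻¹ := by
  have hp : ∀ x, 1 / 2 ≤ 1 + δ * G x := fun x => by nlinarith [(abs_le.1 (h.bd x)).1]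
  have hb : ∀ x, |(1 + δ * G x)⁻¹| ≤ 2 := fun x => by
    have h2 : 0 < 1 + δ * G x := by linarith [hp x]
    rw [abs_of_pos (inv_pos.2 h2), inv_le_comm₀ h2 two_pos]
    linarith [hp x]
  refine ⟨h.nn, hb, fun x x' => ?_⟩
  have h2 : 1 + δ * G x ≠ 0 := by linarith [hp x] |> ne_of_gt
  have h3 : 1 + δ * G x' ≠ 0 := by linarith [hp x'] |> ne_of_gt
  have e : (1 + δ * G x)⁻¹ - (1 + δ * G x')⁻¹ =
      -(δ * ((1 + δ * G x)⁻¹ * (1 + δ * G x')⁻¹) * (G x - G x')) := by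
    field_simp
    ring
  rw [e, abs_neg, abs_mul, abs_mul, abs_mul, abs_of_nonneg h0]
  have h4 : |(1 + δ * G x)⁻¹| * |(1 + δ * G x')⁻¹| ≤ 2 * 2 :=
    mul_le_mul (hb x) (hb x') (abs_nonneg _) zero_le_two
  have h5 : δ * (|(1 + δ * G x)⁻¹| * |(1 + δ * G x')⁻¹|) ≤ 1 := by nlinarith
  exact (mul_le_of_le_one_left (abs_nonneg _) h5).trans (h.lip x x')

theorem inner_sub_le {e : E d} (he : ‖e‖ = 1) (x x' : E d) :
    |inner ℝ e x - inner ℝ e x'| ≤ ‖x - x'‖ := by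
  rw [← inner_sub_right]
  simpa [he] using abs_real_inner_le_norm e (x - x')

theorem bl_tr (h0 : 0 < ε) (h1 : ε ≤ 1 / 2) {a b : ℝ} (hab : a ≤ b) (h : Sp (tr a b)) {e : E d}
    (he : ‖e‖ = 1) : BL 1 (2 * ε⁻¹ ^ 70) fun x => tr a b (xi ε (inner ℝ e x)) :=
  ⟨by positivity, fun x => abs_le.2 ⟨by linarith [(tr_mem hab (xi ε (inner ℝ e x))).1],
    (tr_mem hab _).2⟩, fun x x' => (lip_xi h0 h1 h _ _).trans
      (mul_le_mul_of_nonneg_left (inner_sub_le he x x') (by positivity))⟩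

theorem ib {ϑ : E d → ℝ} (h : Integrable ϑ) (hG : Measurable G) (hB : ∀ x, |G x| ≤ B) :
    Integrable fun x => ϑ x * G x :=
  h.mul_bdd hG.aestronglyMeasurable (Eventually.of_forall hB)

theorem BL.int {ϑ : E d → ℝ} (h : BL B K G) (hϑ : Integrable ϑ) : Integrable fun x => ϑ x * G x :=
  ib hϑ h.cont.measurable h.bd

variable {L σ : ℝ} {Ψ : E d → E d} {ρ ϑ : E d → ℝ} {y₀ : E d}

/-- passage to the side of the density -/
theorem near (h0 : 0 < ε) (h1 : ε ≤ 1) (hL : L * ε ≤ 1) (hσ : σ ≤ ε ^ 400)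
    (hΨ : Sm L Ψ) (hW : Wt L σ 1 Ψ ρ y₀ ϑ) (h : BL (ε⁻¹ ^ 78) (ε⁻¹ ^ 78) G) :
    |cv 1 (fun y => G (cv (ε ^ 120) Ψ y)) y₀ - ∫ x, ϑ x * G x * ρ x| ≤ 3 * ε ^ 41 := by
  have a1 := hW.tr G _ _ h.nn h.bd h.lip
  have a2 : |cv 1 (fun y => G (cv (ε ^ 120) Ψ y)) y₀ - cv 1 (fun y => G (Ψ y)) y₀| ≤ ε ^ 41 := by
    have k1 : Continuous fun y => G (cv (ε ^ 120) Ψ y) := h.cont.comp (continuous_cv hΨ.cont _)
    have k2 : Continuous fun y => G (Ψ y) := h.cont.comp hΨ.cont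
    rw [← cv_sub k1 k2, ← Real.norm_eq_abs]
    refine norm_cv_le zero_le_one fun z _ => (h.lip _ _).trans ?_
    rw [← ip h0 (show 119 = 78 + 41 by norm_num)]
    refine mul_le_mul_of_nonneg_left ((hΨ.cv_sub (by positivity) z).trans ?_) h.nn
    rw [show L * ε ^ 120 = L * ε * ε ^ 119 by ring]
    exact mul_le_of_le_one_left (by positivity) hL
  have a3 : ε⁻¹ ^ 78 * σ ≤ ε ^ 41 := by
    rw [← ip h0 (show 119 = 78 + 41 by norm_num)]
    exact mul_le_mul_of_nonneg_left (hσ.trans (pow_le_pow_of_le_one h0.le h1 (by norm_num))) h.nn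
  have a4 := abs_sub_le (cv 1 (fun y => G (cv (ε ^ 120) Ψ y)) y₀) (cv 1 (fun y => G (Ψ y)) y₀)
    (∫ x, ϑ x * G x * ρ x)
  linarith

theorem osc (h0 : 0 < ε) (h1 : ε ≤ 1 / 2) (hC : Cw d * ε ≤ 1) (hL : L * ε ≤ 1)
    (hσ : σ ≤ ε ^ 400) (hW : Wt L σ 1 Ψ ρ y₀ ϑ) {k k' : ℕ} (hk : k' = k + 2) (hk' : k' ≤ 400) :
    Osc ϑ (ε ^ k') (2 * ε ^ k) := by
  subst hk
  have h2 : L * ε ^ (k + 2) ≤ ε ^ (k + 1) := by
    rw [show L * ε ^ (k + 2) = L * ε * ε ^ (k + 1) by ring]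
    exact mul_le_of_le_one_left (by positivity) hL
  have h3 : σ ≤ ε ^ (k + 1) := hσ.trans (pow_le_pow_of_le_one h0.le (by linarith) (by omega))
  have h4 : ε ^ (k + 1) ≤ ε ^ 1 := pow_le_pow_of_le_one h0.le (by linarith) (by omega)
  intro a ha
  refine (hW.osc _ (by positivity) (by linarith) a ha).trans ?_
  rw [div_one]
  have h5 : 0 ≤ Cw d := zero_le_one.trans one_le_Cw
  calc Cw d * (L * ε ^ (k + 2) + σ) ≤ Cw d * (2 * ε ^ (k + 1)) :=
        mul_le_mul_of_nonneg_left (by linarith) h5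
    _ = Cw d * ε * (2 * ε ^ k) := by ring
    _ ≤ 2 * ε ^ k := mul_le_of_le_one_left (by positivity) hC

/-- the mean of the slab weight -/
theorem mean1 (hA : AvgStmt d) (h0 : 0 < ε) (h1 : ε ≤ 1 / 2) (hi : Integrable ϑ) {o : ℝ}
    (ho : Osc ϑ (ε ^ 50) o) {e : E d} (he : ‖e‖ = 1) :
    |(∫ x, ϑ x * W1 ε (inner ℝ e x)) - 4 * ε ^ 20 * ∫ x, ϑ x| ≤ o := by
  have hR : 0 < ε ^ 50 := by positivity
  have h := hA ϑ (W1 ε) e (ε ^ 50 • e) (ε ^ 50) 1 o hi (cont_W1 h0 h1) hR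
    ((xi_periodic h0).comp (tr (-1) 2))
    (fun t => abs_le.2 ⟨by linarith [(W1_mem ε t).1], (W1_mem ε t).2⟩)
    (by rw [inner_smul_right, real_inner_self_eq_norm_sq, he]; ring) fun t ht => ho _ (by
      rw [norm_smul, norm_smul, he, Real.norm_of_nonneg ht.1, Real.norm_of_nonneg hR.le, mul_one]
      exact mul_le_of_le_one_left hR.le ht.2)
  have e1 : (∫ t in (0 : ℝ)..ε ^ 50, W1 ε t) / ε ^ 50 = 4 * ε ^ 20 := by
    unfold W1
    rw [integral_xi h0 h1 sp1 (continuous_tr _ _), int1]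
    field_simp
  rwa [e1, one_mul] at h

/-- the overlap of two slab families -/
theorem overlap (hA : AvgStmt d) (h0 : 0 < ε) (h1 : ε ≤ 1 / 2) (hi : Integrable ϑ) {o : ℝ}
    (ho : Osc ϑ (ε ^ 43) o) {e f : E d} (he : ‖e‖ = 1) (hf : ‖f‖ = 1)
    (hs : ε ^ 14 ≤ 1 - inner ℝ f e ^ 2) :
    ∫ x, ϑ x * W1 ε (inner ℝ e x) * Wh ε (inner ℝ f x) ≤
      8 * ε ^ 20 * (∫ x, ϑ x * W1 ε (inner ℝ e x)) + o := by
  have hR : 0 < ε ^ 50 := by positivity
  have hp : 0 < ε ^ 14 := by positivity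
  obtain ⟨c, hc⟩ : ∃ c : ℝ, c = inner ℝ f e := ⟨_, rfl⟩
  rw [← hc] at hs
  have hq : 0 < 1 - c ^ 2 := hp.trans_le hs
  have hee : inner ℝ e e = (1 : ℝ) := by rw [real_inner_self_eq_norm_sq, he]; ring
  have hff : inner ℝ f f = (1 : ℝ) := by rw [real_inner_self_eq_norm_sq, hf]; ring
  have hef : inner ℝ e f = c := by rw [hc, real_inner_comm]
  obtain ⟨a, ha⟩ : ∃ a : E d, a = (ε ^ 50 / (1 - c ^ 2)) • (f - c • e) := ⟨_, rfl⟩
  have a1 : inner ℝ e a = (0 : ℝ) := by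
    rw [ha, inner_smul_right, inner_sub_right, inner_smul_right, hee, hef]
    ring
  have a2 : inner ℝ f a = ε ^ 50 := by
    rw [ha, inner_smul_right, inner_sub_right, inner_smul_right, hff, ← hc]
    field_simp
  have a3 : ‖a‖ ≤ ε ^ 43 := by
    have b1 : ‖a‖ ^ 2 = ε ^ 50 / (1 - c ^ 2) * ε ^ 50 := by
      rw [← real_inner_self_eq_norm_sq]
      conv_lhs => rw [ha, inner_smul_left, ← ha, inner_sub_left, inner_smul_left, a1, a2]
      simp
    refine (pow_le_pow_iff_left₀ (norm_nonneg _) (by positivity) two_ne_zero).1 ?_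
    rw [b1, div_mul_eq_mul_div, div_le_iff₀ hq]
    calc ε ^ 50 * ε ^ 50 = (ε ^ 43) ^ 2 * ε ^ 14 := by ring
      _ ≤ _ := mul_le_mul_of_nonneg_left hs (by positivity)
  have hw := bl_tr h0 h1 (by norm_num) sp1 he
  have h := hA (fun x => ϑ x * W1 ε (inner ℝ e x)) (Wh ε) f a (ε ^ 50) 1 o (hw.int hi)
    (Prof.continuous_Wh h0 h1) hR ((xi_periodic h0).comp (tr (-3) 4))
    (fun t => abs_le.2 ⟨by linarith [(Wh_mem ε t).1], (Wh_mem ε t).2⟩) a2 fun t ht => by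
      refine le_trans (integral_mono_of_nonneg (Eventually.of_forall fun x => abs_nonneg _)
        (hi.sub (hi.comp_sub_right (t • a))).abs (Eventually.of_forall fun x => ?_)) (ho (t • a) ?_)
      · simp only [inner_sub_right, inner_smul_right, a1, mul_zero, sub_zero]
        rw [← sub_mul, abs_mul, abs_of_nonneg (W1_mem ε _).1]
        exact mul_le_of_le_one_right (abs_nonneg _) (W1_mem ε _).2
      · rw [norm_smul, Real.norm_of_nonneg ht.1]
        exact (mul_le_of_le_one_left (norm_nonneg _) ht.2).trans a3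
  have e1 : (∫ t in (0 : ℝ)..ε ^ 50, Wh ε t) / ε ^ 50 = 8 * ε ^ 20 := by
    unfold Wh
    rw [integral_xi h0 h1 sph (continuous_tr _ _), inth]
    field_simp
  rw [e1, one_mul] at h
  exact sub_le_iff_le_add'.1 (abs_le.1 h).2

end Mass

open Mass in
theorem massA (d : ℕ) (_hd : 2 ≤ d) : MassAStmt d := by
  refine small_iff.2 ?_
  filter_upwards [ev_pos, ev_mul_le 100, ev_mul_le (Cw d)] with ε h0 h100 hC q p u' u y₀ hq hp hon
  have h1 : ε ≤ 1 / 2 := by linarith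
  have h1' : ε ≤ 1 := by linarith
  have hC0 : 0 ≤ Cw d := zero_le_one.trans one_le_Cw
  obtain ⟨G, g1, g2, g3⟩ := prim h0 h1
  have hμ : 0 < ε ^ 120 := by positivity
  have hpb := hp.cv (ε ^ 120)
  have cW := cont_W1 h0 h1
  have p31 : ∀ k, 31 ≤ k → ε ^ k ≤ ε ^ 31 := fun k hk => pow_le_pow_of_le_one h0.le h1' hk
  have pC : ∀ k, 31 ≤ k → Cw d * ε ^ (k + 1) ≤ ε ^ 31 := fun k hk => by
    rw [show Cw d * ε ^ (k + 1) = Cw d * ε * ε ^ k by ring]
    exact (mul_le_of_le_one_left (by positivity) hC).trans (p31 k hk)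
  have pf : 100 * ε ^ 31 ≤ ε ^ 30 := mul_pow_le h0 h1' h100 (by norm_num)
  have p20 : ε ^ 20 ≤ 1 := pow_le_one₀ h0.le h1'
  have p20' : 0 < ε ^ 20 := by positivity
  have z31 : 0 < ε ^ 31 := by positivity
  constructor
  · have cd := continuous_dd hpb.cd1 u
    have a1 := norm_cv_dd_le (g1.comp hpb.cd1) one_pos (fun z => g3 _) u y₀
    have e1 : dd (G ∘ cv (ε ^ 120) p) u = fun y => W1 ε (cv (ε ^ 120) p y) *
        dd (cv (ε ^ 120) p) u y - 4 * ε ^ 20 * dd (cv (ε ^ 120) p) u y := by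
      funext y
      have := dd_comp hpb.cd1 u y (g2 _)
      rw [smul_eq_mul] at this
      exact this.trans (by ring)
    have k1 : Continuous fun y => W1 ε (cv (ε ^ 120) p y) * dd (cv (ε ^ 120) p) u y :=
      (cW.comp hpb.cont).mul cd
    have k2 : Continuous fun y => 4 * ε ^ 20 * dd (cv (ε ^ 120) p) u y := continuous_const.mul cd
    rw [e1, cv_sub k1 k2, cv_const_mul, hon.2.1, Real.norm_eq_abs] at a1
    have a2 := cv_cv (continuous_dd hp.cd1 u) one_pos hμ.le (hp.dd_le hon.2.1) y₀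
    have e2 : cv (ε ^ 120) (dd p u) = dd (cv (ε ^ 120) p) u :=
      funext fun y => (dd_cv hp.cd1 _ u y).symm
    rw [e2, Real.norm_eq_abs, div_one, mul_assoc, ← pow_one ε⁻¹,
      ip h0 (show 120 = 1 + (118 + 1) by norm_num)] at a2
    have b1 : Cw d * ε ^ 70 ≤ ε ^ 31 := pC 69 (by norm_num)
    have b2 := pC 118 (by norm_num)
    have b3 := mul_le_mul p20 (a2.trans b2) (abs_nonneg _) zero_le_one
    rw [← abs_of_pos p20', ← abs_mul] at b3
    obtain ⟨c1, c2⟩ := abs_le.1 a1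
    obtain ⟨c3, c4⟩ := abs_le.1 b3
    exact abs_le.2 ⟨by linarith, by linarith⟩
  · have cJ := continuous_jac hq.cd1 hp.cd1 u' u
    have hJ := abs_jac_le hq hp hon.1 hon.2.1
    have cWJ : Continuous fun z => W1 ε (p z) * jac q p u' u z := (cW.comp hp.cont).mul cJ
    have a1 : |cv 1 (cv (ε ^ 120) fun z => W1 ε (p z) * jac q p u' u z) y₀ -
        cv 1 (fun y => W1 ε (cv (ε ^ 120) p y) * cv (ε ^ 120) (jac q p u' u) y) y₀| ≤
        8 * ε ^ 47 := by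
      have k1 : Continuous fun y => W1 ε (cv (ε ^ 120) p y) * cv (ε ^ 120) (jac q p u' u) y :=
        (cW.comp hpb.cont).mul (continuous_cv cJ _)
      rw [← cv_sub (continuous_cv cWJ _) k1, ← Real.norm_eq_abs]
      refine norm_cv_le zero_le_one fun y _ => ?_
      refine (cv_mul_sub cJ (cW.comp hp.cont) hμ.le _ (fun z _ => hJ z) (η := 4 * ε ^ 49)
        fun z hz => ?_).trans (le_of_eq ?_)
      · refine (lip_xi h0 h1 sp1 _ _).trans ?_
        have b1 := hp.lip z y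
        have b2 := hp.cv_sub hμ.le y
        have b3 : ε⁻¹ * ‖z - y‖ ≤ ε⁻¹ * ε ^ 120 :=
          mul_le_mul_of_nonneg_left (mem_closedBall_iff_norm.1 hz) (by positivity)
        have b4 := ip h0 (show 120 = 1 + 119 by norm_num)
        rw [pow_one] at b4
        have b5 : |p z - cv (ε ^ 120) p y| ≤ 2 * ε ^ 119 := by
          rw [Real.norm_eq_abs, abs_le] at b1 b2
          exact abs_le.2 ⟨by linarith, by linarith⟩
        refine (mul_le_mul_of_nonneg_left b5 (by positivity)).trans (le_of_eq ?_)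
        rw [← ip h0 (show 119 = 70 + 49 by norm_num)]
        ring
      · rw [← ip h0 (show 49 = 2 + 47 by norm_num)]
        ring
    have a2 := cv_cv cWJ one_pos hμ.le (B := 2 * ε⁻¹ ^ 2) (fun z => by
      rw [norm_mul, Real.norm_of_nonneg (W1_mem ε _).1]
      exact (mul_le_of_le_one_left (norm_nonneg _) (W1_mem ε _).2).trans (hJ z)) y₀
    rw [Real.norm_eq_abs, div_one, mul_assoc, mul_assoc,
      ip h0 (show 120 = 2 + (117 + 1) by norm_num)] at a2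
    have a3 := abs_cv_jac_le (g1.comp hp.cd1) hq one_pos (fun z => g3 _) hon.1 hon.2.1 y₀
    have e1 : jac (G ∘ p) q u' u = fun z => 4 * ε ^ 20 * jac q p u' u z -
        W1 ε (p z) * jac q p u' u z := by
      funext z
      have b1 : dd (G ∘ p) u z = _ := dd_comp hp.cd1 u z (g2 _)
      have b2 : dd (G ∘ p) u' z = _ := dd_comp hp.cd1 u' z (g2 _)
      unfold jac
      rw [b1, b2, smul_eq_mul, smul_eq_mul]
      ring
    have e2 : 2 * Cw d * (8 * ε ^ 70) * ε⁻¹ / 1 = 16 * (Cw d * ε ^ (68 + 1)) := by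
      field_simp
      ring
    have k2 : Continuous fun z => 4 * ε ^ 20 * jac q p u' u z := continuous_const.mul cJ
    rw [e1, cv_sub k2 cWJ, cv_const_mul, e2] at a3
    have b1 := pC 68 (by norm_num)
    have b2 := pC 117 (by norm_num)
    have b3 := p31 47 (by norm_num)
    obtain ⟨c1, c2⟩ := abs_le.1 a1
    obtain ⟨c3, c4⟩ := abs_le.1 a2
    obtain ⟨c5, c6⟩ := abs_le.1 a3
    exact abs_le.2 ⟨by linarith, by linarith⟩

namespace Mass

variable {d : ℕ} {ε δ : ℝ} {ϑ : E d → ℝ}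

theorem bl_BadO (h0 : 0 < ε) (h1 : ε ≤ 1 / 2) (S : Sys d ε δ) (τ : Fin S.T) :
    BL (ε⁻¹ ^ 7) (2 * ε⁻¹ ^ 77) (BadO S τ) := by
  have h := BL.sum (Finset.univ.erase τ) (by positivity)
    fun τ' _ => bl_tr h0 h1 (by norm_num) sph (S.unit τ')
  have hc : ((Finset.univ.erase τ).card : ℝ) ≤ ε⁻¹ ^ 7 := by
    refine le_trans ?_ (card_le h0 S)
    exact_mod_cast (Finset.card_le_univ _).trans (Fintype.card_fin _).le
  refine h.mono (by rw [mul_one]; exact hc)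
    ((mul_le_mul_of_nonneg_right hc (by positivity)).trans (le_of_eq (by ring)))

/-- the overlaps with all other families -/
theorem overlaps (hA : AvgStmt d) (h0 : 0 < ε) (h1 : ε ≤ 1 / 2) (hi : Integrable ϑ)
    (ho : Osc ϑ (ε ^ 43) (2 * ε ^ 41)) (S : Sys d ε δ) (τ : Fin S.T)
    (hw : ∫ x, ϑ x * W1 ε (inner ℝ (S.e τ) x) ≤ 9 * ε ^ 20) :
    ∫ x, ϑ x * W1 ε (inner ℝ (S.e τ) x) * BadO S τ x ≤ 73 * ε ^ 33 := by
  have iw := (bl_tr h0 h1 (by norm_num) sp1 (S.unit τ)).int hi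
  unfold BadO
  simp only [Finset.mul_sum]
  have iS : ∀ τ' ∈ Finset.univ.erase τ, Integrable fun x =>
      ϑ x * W1 ε (inner ℝ (S.e τ) x) * Wh ε (inner ℝ (S.e τ') x) :=
    fun τ' _ => (bl_tr h0 h1 (by norm_num) sph (S.unit τ')).int iw
  rw [integral_finsetSum _ iS]
  refine (Finset.sum_le_card_nsmul _ _ (73 * ε ^ 40) fun τ' h' => ?_).trans ?_
  · refine (overlap hA h0 h1 hi ho (S.unit τ) (S.unit τ')
      (S.sep τ' τ (Finset.ne_of_mem_erase h'))).trans ?_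
    have a1 := mul_le_mul_of_nonneg_left hw (show 0 ≤ 8 * ε ^ 20 by positivity)
    have a2 : 2 * ε ^ 41 ≤ ε ^ 40 := mul_pow_le h0 (by linarith) (by linarith) (by norm_num)
    linarith
  · have hc : ((Finset.univ.erase τ).card : ℝ) ≤ ε⁻¹ ^ 7 := by
      refine le_trans ?_ (card_le h0 S)
      exact_mod_cast (Finset.card_le_univ _).trans (Fintype.card_fin _).le
    rw [nsmul_eq_mul, ← ip h0 (show 40 = 7 + 33 by norm_num)]
    refine (mul_le_mul_of_nonneg_right hc (by positivity)).trans (le_of_eq ?_)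
    rw [ip h0 (show 40 = 7 + 33 by norm_num), ← ip h0 (show 40 = 7 + 33 by norm_num)]
    ring

theorem mean_le (hA : AvgStmt d) (h0 : 0 < ε) (h1 : ε ≤ 1 / 2) (hi : Integrable ϑ)
    (ho : Osc ϑ (ε ^ 50) (2 * ε ^ 48)) (hhi : ∫ x, ϑ x ≤ 2) {e : E d} (he : ‖e‖ = 1) :
    ∫ x, ϑ x * W1 ε (inner ℝ e x) ≤ 9 * ε ^ 20 := by
  have a1 := (abs_le.1 (mean1 hA h0 h1 hi ho he)).2
  have a2 : 2 * ε ^ 48 ≤ ε ^ 20 := mul_pow_le h0 (by linarith) (by linarith) (by norm_num)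
  have a3 := mul_le_mul_of_nonneg_left hhi (show 0 ≤ 4 * ε ^ 20 by positivity)
  linarith

end Mass

open Mass in
theorem massB (d : ℕ) (hd : 2 ≤ d) (h1 : AvgStmt d) (h2 : Avg2Stmt d) (h3 : PlStmt)
    (h4 : OscStmt d) (h5 : FinStmt d) : MassBStmt d := by
  refine small_iff.2 ?_
  filter_upwards [ev_pos, ev_mul_le 1000, ev_mul_le (Cw d), ev_le_lg 1, small_iff.1 h5] with
    ε h0 hk hC hlg hF δ L l S Ψ y₀ e' τ hδ0 hδ hL1 hL hl1 hl hloc htyp
  have hh : ε ≤ 1 / 2 := by linarith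
  have hh' : ε ≤ 1 := by linarith
  obtain ⟨Y, ρ, N, hctx, hY, hN, hρ⟩ := hloc
  obtain ⟨hon, hdev, -⟩ := htyp
  obtain ⟨ϑ, hW⟩ := hctx.wt 1 y₀ one_pos (pow_le_one₀ h0.le hh')
    ((ball_subset_ball (by norm_num)).trans hY)
  have hσ : ε ^ (200 * d) ≤ ε ^ 400 := pow_le_pow_of_le_one h0.le hh' (by omega)
  have p1 : ∀ a b : ℕ, a ≤ b → ε ^ b ≤ ε ^ a := fun a b h => pow_le_pow_of_le_one h0.le hh' h
  have hj : 1000 ≤ ε⁻¹ := by
    rw [le_inv_comm₀ (by norm_num) h0]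
    linarith
  have pj : ∀ a b : ℕ, a ≤ b → ε⁻¹ ^ a ≤ ε⁻¹ ^ b := fun a b h =>
    pow_le_pow_right₀ (by linarith) h
  have pj' : ∀ a : ℕ, a ≤ 77 → 1000 * ε⁻¹ ^ a ≤ ε⁻¹ ^ 78 := fun a h => by
    rw [pow_succ' ε⁻¹ 77]
    exact mul_le_mul hj (pj a 77 h) (by positivity) (by positivity)
  have pp : ∀ a : ℕ, 0 < ε⁻¹ ^ a := fun a => by positivity
  have hi := hW.int
  have habs : ∫ x, |ϑ x| ≤ 2 := by
    simp only [abs_of_nonneg (hW.nn _)]
    exact hW.hi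
  have hball : ∀ x, ϑ x ≠ 0 → x ∈ ball (Ψ y₀) (10 * L) := fun x hx => by
    have a1 := hW.supp x hx
    have a2 := hσ.trans (p1 0 400 (by norm_num))
    rw [mem_ball, dist_eq_norm]
    linarith
  have hm := fun {e : E d} (he : ‖e‖ = 1) =>
    mean_le h1 h0 hh hi (osc h0 hh hC hL hσ hW (by norm_num) (by norm_num)) hW.hi he
  have bw : BL 1 (2 * ε⁻¹ ^ 70) fun x => W1 ε (inner ℝ (S.e τ) x) :=
    bl_tr h0 hh (by norm_num) sp1 (S.unit τ)
  have iw := bw.int hi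
  have bO := bl_BadO h0 hh S τ
  have iO := bO.int iw
  have hO := overlaps h1 h0 hh hi (osc h0 hh hC hL hσ hW (by norm_num) (by norm_num)) S τ
    (hm (S.unit τ))
  have bρ : ∀ x, |ρ x| ≤ 2 := fun x => abs_le.2 ⟨by linarith [(hctx.rng x).1], (hctx.rng x).2⟩
  have q41 : 1000 * ε ^ 41 ≤ ε ^ 31 := mul_pow_le h0 hh' hk (by norm_num)
  have q33 : 1000 * ε ^ 33 ≤ ε ^ 31 := mul_pow_le h0 hh' hk (by norm_num)
  have q31 : 1000 * ε ^ 31 ≤ ε ^ 30 := mul_pow_le h0 hh' hk (by norm_num)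
  have z31 : 0 < ε ^ 31 := by positivity
  refine ⟨?_, ?_⟩
  swap
  · have a1 := near h0 hh' hL hσ hctx.sm hW ((bw.mul bO).mono
      (by rw [one_mul]; exact pj 7 78 (by norm_num)) (by
        have := pj' 77 le_rfl
        have e : ε⁻¹ ^ 7 * (2 * ε⁻¹ ^ 70) = 2 * ε⁻¹ ^ 77 := by ring
        linarith [pp 77]))
    have a2 : ∫ x, ϑ x * (W1 ε (inner ℝ (S.e τ) x) * BadO S τ x) * ρ x ≤
        ∫ x, 2 * (ϑ x * W1 ε (inner ℝ (S.e τ) x) * BadO S τ x) := by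
      refine integral_mono (ib ((bw.mul bO).int hi) hctx.meas bρ) (iO.const_mul 2) fun x => ?_
      have := mul_le_mul_of_nonneg_left (hctx.rng x).2
        (mul_nonneg (hW.nn x) (mul_nonneg (W1_mem ε (inner ℝ (S.e τ) x)).1 (BadO_mem h0 S τ x).1))
      exact this.trans (le_of_eq (by ring))
    rw [integral_const_mul] at a2
    simp only [cv_co hctx.sm.cont]
    linarith [(abs_le.1 a1).2]
  -- the pattern and the weight
  obtain ⟨g, hg⟩ : ∃ g : E d → ℝ, g = fun x =>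
      gg ε (mm ε δ l) l (inner ℝ e' x) (inner ℝ (S.e τ) x) := ⟨_, rfl⟩
  have bg : BL 2 (2 * ε⁻¹ ^ 73) g := by
    rw [hg]
    refine ⟨by positivity, fun x => abs_gg_le _ _ _ _ _, fun x x' => ?_⟩
    refine (gg_lip h0 (by linarith) (mm_le hlg hδ0.le (by linarith) (by linarith)) hl1 hl
      _ _ _ _).trans ?_
    have := mul_le_mul_of_nonneg_left
      (add_le_add (inner_sub_le hon.1 x x') (inner_sub_le hon.2.1 x x')) (pp 73).le
    linarith
  obtain ⟨G, hG⟩ : ∃ G : E d → ℝ, G = fun x => W1 ε (inner ℝ (S.e τ) x) * (1 + δ * g x)⁻¹ :=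
    ⟨_, rfl⟩
  have bi := bg.inv hδ0.le hδ
  have bG : BL 2 (6 * ε⁻¹ ^ 73) G := hG ▸ (bw.mul bi).mono (by norm_num)
    (by linarith [pj 70 73 (by norm_num)])
  have bGg : BL 4 (16 * ε⁻¹ ^ 73) fun x => G x * g x :=
    (bG.mul bg).mono (by norm_num) (by linarith)
  have hGw : ∀ x, |G x| ≤ 2 * W1 ε (inner ℝ (S.e τ) x) := fun x => by
    rw [hG, abs_mul, abs_of_nonneg (W1_mem ε _).1, mul_comm]
    exact mul_le_mul_of_nonneg_right (bi.bd x) (W1_mem ε _).1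
  have hGe : ∀ x, G x + δ * (G x * g x) = W1 ε (inner ℝ (S.e τ) x) := fun x => by
    have : 1 + δ * g x ≠ 0 := by nlinarith [(abs_le.1 (bg.bd x)).1] |> ne_of_gt
    rw [hG]
    field_simp
  have a1 := near h0 hh' hL hσ hctx.sm hW (bG.mono
    (by linarith [pj' 0 (by norm_num), pow_zero ε⁻¹]) (by linarith [pj' 73 (by norm_num), pp 73]))
  have e1 : (fun y => W1 ε (cv (ε ^ 120) (co (S.e τ) Ψ) y) /
      r0 ε δ l (co e' Ψ) (co (S.e τ) Ψ) y) = fun y => G (cv (ε ^ 120) Ψ y) := by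
    funext y
    simp only [hG, hg, r0, cv_co hctx.sm.cont, div_eq_mul_inv]
  rw [e1]
  -- the finer levels
  have o210 := osc h0 hh hC hL hσ hW (show 210 = 208 + 2 by norm_num) (by norm_num)
  obtain ⟨f1, f2, f3⟩ := hF δ S N ϑ _ hN hi hW.nn o210
  have bf : ∀ x, |fin S N x| ≤ ε⁻¹ ^ 8 := fun x => by
    rw [abs_of_nonneg (f2 x).1]
    exact (f2 x).2
  have f4 := (hF δ S N _ _ hN iw (fun x => mul_nonneg (hW.nn x) (W1_mem ε _).1)
    (h4 ϑ _ _ _ _ _ hi bw.nn bw.bd bw.lip o210)).2.2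
  have f5 : ∫ x, ϑ x * fin S N x ≤ 4 * ε ^ 11 := by
    have b1 := mul_le_mul_of_nonneg_left hW.hi (show 0 ≤ ε ^ 11 by positivity)
    have b2 := ip h0 (show 208 = 8 + 200 by norm_num)
    have b3 := p1 11 200 (by norm_num)
    linarith
  have f6 : ∫ x, ϑ x * W1 ε (inner ℝ (S.e τ) x) * fin S N x ≤ 15 * ε ^ 31 := by
    have b1 := mul_le_mul_of_nonneg_left (hm (S.unit τ)) (show 0 ≤ ε ^ 11 by positivity)
    have b2 := ip h0 (show 208 = 8 + 200 by norm_num)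
    have b3 := p1 31 200 (by norm_num)
    have b4 := mul_le_mul_of_nonneg_left habs
      (show 0 ≤ ε⁻¹ ^ 8 * (2 * ε⁻¹ ^ 70 * ε ^ 210) by positivity)
    have b5 := ip h0 (show 210 = 78 + 132 by norm_num)
    have b6 := p1 31 132 (by norm_num)
    have b7 : ε⁻¹ ^ 8 * (2 * ε⁻¹ ^ 70 * ε ^ 210) * 2 = 4 * (ε⁻¹ ^ 78 * ε ^ 210) := by ring
    have b8 : ε ^ 11 * (9 * ε ^ 20) = 9 * ε ^ 31 := by ring
    linarith
  -- the total mass of the weight
  have a2 : |(∫ x, ϑ x) - 1| ≤ 14 * ε ^ 11 := by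
    have b1 := hW.tr (fun _ => 1) 1 0 le_rfl (fun _ => by simp) fun _ _ => by simp
    rw [cv_const] at b1
    simp only [mul_one] at b1
    have iS : ∀ τ' ∈ Finset.univ, Integrable fun x => ϑ x * W1 ε (inner ℝ (S.e τ') x) :=
      fun τ' _ => (bl_tr h0 hh (by norm_num) sp1 (S.unit τ')).int hi
    have b2 : ‖∫ x, (ϑ x * ρ x - ϑ x)‖ ≤
        ∫ x, (∑ τ', ϑ x * W1 ε (inner ℝ (S.e τ') x) + ϑ x * fin S N x) := by
      refine norm_integral_le_of_norm_le ((integrable_finsetSum _ iS).add (ib hi f1.measurable bf))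
        (Eventually.of_forall fun x => ?_)
      by_cases hx : ϑ x = 0
      · simp [hx]
      rw [← Finset.mul_sum, ← mul_add, ← mul_sub_one, norm_mul, Real.norm_of_nonneg (hW.nn x)]
      exact mul_le_mul_of_nonneg_left ((hρ x (hball x hx)).1.trans
        (add_le_add (Finset.sum_le_sum fun τ' _ => W0_le_W1 _ _) le_rfl)) (hW.nn x)
    rw [integral_sub (ib hi hctx.meas bρ) hi, integral_add (integrable_finsetSum _ iS)
      (ib hi f1.measurable bf), integral_finsetSum _ iS, Real.norm_eq_abs] at b2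
    have b3 := Finset.sum_le_card_nsmul Finset.univ _ _ fun τ' _ => hm (S.unit τ')
    rw [Finset.card_univ, Fintype.card_fin, nsmul_eq_mul] at b3
    have b4 := mul_le_mul_of_nonneg_right S.card (show 0 ≤ 9 * ε ^ 13 by positivity)
    have b5 : (S.T : ℝ) * ε ^ 7 * (9 * ε ^ 13) = S.T * (9 * ε ^ 20) := by ring
    have b6 := p1 11 13 (by norm_num)
    have b7 := hσ.trans (p1 11 400 (by norm_num))
    obtain ⟨c1, c2⟩ := abs_le.1 b1
    obtain ⟨c3, c4⟩ := abs_le.1 b2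
    exact abs_le.2 ⟨by linarith, by linarith⟩
  -- the density in the slab
  have iG := bG.int hi
  have iD := ib iG (S.meas τ) (S.bd τ)
  have a3 : |(∫ x, ϑ x * G x * ρ x) - ((∫ x, ϑ x * G x) + ∫ x, ϑ x * G x * S.dev τ x)| ≤
      2 * (73 * ε ^ 33) + 2 * (15 * ε ^ 31) := by
    have iF := ib iw f1.measurable bf
    have b2 : ‖∫ x, (ϑ x * G x * ρ x - (ϑ x * G x + ϑ x * G x * S.dev τ x))‖ ≤
        ∫ x, (2 * (ϑ x * W1 ε (inner ℝ (S.e τ) x) * BadO S τ x) +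
          2 * (ϑ x * W1 ε (inner ℝ (S.e τ) x) * fin S N x)) := by
      refine norm_integral_le_of_norm_le ((iO.const_mul 2).add (iF.const_mul 2))
        (Eventually.of_forall fun x => ?_)
      by_cases hx : ϑ x = 0
      · simp [hx]
      rw [show ϑ x * G x * ρ x - (ϑ x * G x + ϑ x * G x * S.dev τ x) =
        ϑ x * (G x * (ρ x - 1 - S.dev τ x)) by ring, norm_mul, norm_mul,
        Real.norm_of_nonneg (hW.nn x)]
      have b3 := mul_le_mul_of_nonneg_left (mul_le_mul (hGw x) (((hρ x (hball x hx)).2 τ).trans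
        (add_le_add (Finset.sum_le_sum fun τ' _ => W0_le_Wh _ _) le_rfl)) (abs_nonneg _)
        (mul_nonneg zero_le_two (W1_mem ε _).1)) (hW.nn x)
      refine b3.trans (le_of_eq ?_)
      unfold BadO
      ring
    have iA : Integrable fun x => ϑ x * G x + ϑ x * G x * S.dev τ x := iG.add iD
    rw [integral_sub (ib iG hctx.meas bρ) iA, integral_add iG iD,
      integral_add (iO.const_mul 2) (iF.const_mul 2), integral_const_mul, integral_const_mul,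
      Real.norm_eq_abs] at b2
    linarith
  -- the plates
  have a4 : |(∫ x, ϑ x * G x * S.dev τ x) - δ * ∫ x, ϑ x * (G x * g x)| ≤ 40 * ε ^ 31 := by
    classical
    obtain ⟨m1, m2⟩ := h3 ε h0
    have b1 := h2 (fun x => ϑ x * (G x * g x)) _ e' (S.e τ) (ε ^ 140) (ε ^ 141) 1 (1 / 16) _
      (bGg.int hi) m1 (by positivity) (p1 140 141 (by norm_num))
      (fun z => by split_ifs <;> simp) hon m2 (h4 ϑ _ _ _ _ _ hi bGg.nn bGg.bd bGg.lip
        (osc h0 hh hC hL hσ hW (show 140 = 138 + 2 by norm_num) (by norm_num)))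
    have b2 : ∫ x, ϑ x * G x * S.dev τ x = 16 * δ * ∫ x, ϑ x * (G x * g x) *
        if Pl ε (inner ℝ e' x) (inner ℝ (S.e τ) x) then 1 else 0 := by
      rw [← integral_const_mul, hdev]
      refine integral_congr_ae (Eventually.of_forall fun x => ?_)
      simp only [devF, hg]
      split_ifs <;> ring
    have b3 := mul_le_mul_of_nonneg_left habs (show 0 ≤ 16 * ε⁻¹ ^ 73 * ε ^ 140 by positivity)
    have b4 := ip h0 (show 140 = 73 + 67 by norm_num)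
    have b5 := p1 31 67 (by norm_num)
    have b6 := p1 31 138 (by norm_num)
    have b7 := mul_le_mul (show 16 * δ ≤ 1 / 2 by linarith)
      (b1.trans (show _ ≤ 80 * ε ^ 31 by linarith)) (abs_nonneg _) (by norm_num)
    rw [← abs_of_pos (show 0 < 16 * δ by linarith), ← abs_mul] at b7
    rw [b2]
    refine le_trans (le_of_eq ?_) (b7.trans (le_of_eq (by ring)))
    congr 1
    ring
  have a5 : (∫ x, ϑ x * G x) + δ * ∫ x, ϑ x * (G x * g x) =
      ∫ x, ϑ x * W1 ε (inner ℝ (S.e τ) x) := by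
    rw [← integral_const_mul, ← integral_add iG ((bGg.int hi).const_mul δ)]
    refine integral_congr_ae (Eventually.of_forall fun x => ?_)
    simp only [← hGe x]
    ring
  have a6 := mean1 h1 h0 hh hi
    (osc h0 hh hC hL hσ hW (show 50 = 48 + 2 by norm_num) (by norm_num)) (S.unit τ)
  have a7 := mul_le_mul_of_nonneg_left a2 (show 0 ≤ 4 * ε ^ 20 by positivity)
  rw [← abs_of_pos (show 0 < 4 * ε ^ 20 by positivity), ← abs_mul,
    abs_of_pos (show 0 < 4 * ε ^ 20 by positivity), mul_sub, mul_one,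
    show 4 * ε ^ 20 * (14 * ε ^ 11) = 56 * ε ^ 31 by ring] at a7
  have a8 := p1 31 48 (by norm_num)
  obtain ⟨c1, c2⟩ := abs_le.1 a1
  obtain ⟨c3, c4⟩ := abs_le.1 a3
  obtain ⟨c5, c6⟩ := abs_le.1 a4
  obtain ⟨c7, c8⟩ := abs_le.1 a6
  obtain ⟨c9, c10⟩ := abs_le.1 a7
  exact abs_le.2 ⟨by linarith, by linarith⟩

end Pool.Agent.MP_20bec2_an.h7

end
end MrgPart0

-- ======== part 1: formerly Pool.Agent.MP_20bec2_an.h7.Ortho
section MrgPart1

/-! Almost orthogonality of functions with almost pure frequencies (project BIOM). -/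

set_option autoImplicit false

open MeasureTheory Set Metric Filter Topology Complex

noncomputable section

namespace Pool.Agent.MP_20bec2_an.h7

namespace Ortho

/-- A radial truncation of the complex plane. -/
structure Trunc (P : ℂ → ℂ) (K : ℝ) : Prop where
  one : 1 ≤ K
  cd : ContDiff ℝ 1 P
  fix : ∀ z, ‖z‖ ≤ 1 → P z = z
  bd : ∀ z, ‖P z‖ ≤ 2
  lip : ∀ z w, ‖P z - P w‖ ≤ K * ‖z - w‖
  rot : ∀ z, fderiv ℝ P z (I * z) = I * P z

theorem exists_trunc : ∃ P K, Trunc P K := by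
  let P : ℂ → ℂ := fun z => Real.smoothTransition (2 - ‖z‖ ^ 2) • z
  have hc : ContDiff ℝ 1 P :=
    (Real.smoothTransition.contDiff.comp (contDiff_const.sub (contDiff_norm_sq ℝ))).smul
      contDiff_id
  have h0 : ∀ z, 2 < ‖z‖ → P z = 0 := fun z hz => by
    simp only [P]
    rw [Real.smoothTransition.zero_of_nonpos (by nlinarith), zero_smul]
  have hs : HasCompactSupport P := HasCompactSupport.intro (isCompact_closedBall 0 2)
    fun z hz => h0 z (by simpa using hz)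
  obtain ⟨K, hK⟩ := hc.lipschitzWith_of_hasCompactSupport hs one_ne_zero
  refine ⟨P, K + 1, by linarith [K.2], hc, fun z hz => ?_, fun z => ?_, fun z w => ?_, fun z => ?_⟩
  · simp only [P]
    rw [Real.smoothTransition.one_of_one_le (by nlinarith [norm_nonneg z]), one_smul]
  · rcases lt_or_ge 2 ‖z‖ with h | h
    · rw [h0 z h]; simp
    · simp only [P]
      rw [norm_smul, Real.norm_of_nonneg (Real.smoothTransition.nonneg _)]
      nlinarith [Real.smoothTransition.le_one (2 - ‖z‖ ^ 2), norm_nonneg z,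
        Real.smoothTransition.nonneg (2 - ‖z‖ ^ 2)]
  · have := hK.norm_sub_le z w
    nlinarith [norm_nonneg (z - w)]
  · have h1 : HasDerivAt (fun t : ℝ => exp (t * I)) I 0 := by
      simpa using ((hasDerivAt_id (0 : ℝ)).ofReal_comp.mul_const I).cexp
    have h2 : HasDerivAt (fun t : ℝ => P (exp (t * I) * z)) (fderiv ℝ P z (I * z)) 0 := by
      have h3 : HasFDerivAt P (fderiv ℝ P z) (exp ((0 : ℝ) * I) * z) := by
        simpa using (hc.differentiable one_ne_zero z).hasFDerivAt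
      exact h3.comp_hasDerivAt 0 (h1.mul_const z)
    refine h2.unique ((h1.mul_const (P z)).congr_of_eventuallyEq (.of_forall fun t => ?_))
    simp only [P, norm_mul, norm_exp_ofReal_mul_I, one_mul, mul_smul_comm]

variable {P : ℂ → ℂ} {K : ℝ}

theorem Trunc.near (h : Trunc P K) {z : ℂ} {x : ℝ} (hx : 0 ≤ x) (hz : ‖z‖ ≤ 1 + x) :
    ‖P z - z‖ ≤ 2 * K * x ∧ min ‖z‖ 1 ^ 2 ≤ ‖P z‖ ^ 2 + 2 * K * x := by
  have hK := h.one
  rcases le_or_gt ‖z‖ 1 with h1 | h1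
  · rw [h.fix z h1, sub_self, norm_zero, min_eq_left h1]
    exact ⟨by positivity, le_add_of_nonneg_right (by positivity)⟩
  have h0 : ‖z‖ ≠ 0 := by positivity
  have h2 : ‖‖z‖⁻¹ • z‖ = 1 := by rw [norm_smul, norm_inv, norm_norm, inv_mul_cancel₀ h0]
  have h3 : ‖z - ‖z‖⁻¹ • z‖ = ‖z‖ - 1 := by
    have : z - ‖z‖⁻¹ • z = (1 - ‖z‖⁻¹) • z := by rw [sub_smul, one_smul]
    rw [this, norm_smul, Real.norm_of_nonneg (sub_nonneg.2 (inv_le_one_of_one_le₀ h1.le)), sub_mul,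
      one_mul, inv_mul_cancel₀ h0]
  have h4 := h.lip z (‖z‖⁻¹ • z)
  rw [h.fix _ h2.le, h3] at h4
  have h5 : K * (‖z‖ - 1) ≤ K * x := by gcongr; linarith
  constructor
  · have := norm_sub_le_norm_sub_add_norm_sub (P z) (‖z‖⁻¹ • z) z
    rw [norm_sub_rev (‖z‖⁻¹ • z) z, h3] at this
    nlinarith
  · have := norm_sub_norm_le (‖z‖⁻¹ • z) (P z)
    rw [norm_sub_rev, h2] at this
    rw [min_eq_right h1.le]
    nlinarith [norm_nonneg (P z), sq_nonneg (‖P z‖ - 1)]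

/-- The truncation of the real line at scale `M`. -/
theorem Trunc.real (h : Trunc P K) {M : ℝ} (hM : 0 < M) : ∃ T : ℝ → ℝ, ContDiff ℝ 1 T ∧
    (∀ x, |x| ≤ M → T x = x) ∧ (∀ x, |T x| ≤ 2 * M) ∧ ∀ x y, |T x - T y| ≤ K * |x - y| := by
  refine ⟨fun x => M * (P ((x / M : ℝ) : ℂ)).re, contDiff_const.mul (reCLM.contDiff.comp
    (h.cd.comp (ofRealCLM.contDiff.comp (contDiff_id.div_const M)))), fun x hx => ?_,
    fun x => ?_, fun x y => ?_⟩
  · simp only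
    rw [h.fix _ (by rwa [norm_real, Real.norm_eq_abs, abs_div, abs_of_pos hM, div_le_one hM]),
      ofReal_re, mul_div_cancel₀ _ hM.ne']
  · rw [abs_mul, abs_of_pos hM, mul_comm]
    exact mul_le_mul_of_nonneg_right ((abs_re_le_norm _).trans (h.bd _)) hM.le
  · rw [← mul_sub, ← sub_re, abs_mul, abs_of_pos hM]
    have := (abs_re_le_norm _).trans (h.lip ((x / M : ℝ) : ℂ) ((y / M : ℝ) : ℂ))
    rw [← ofReal_sub, norm_real, Real.norm_eq_abs, ← sub_div, abs_div, abs_of_pos hM] at this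
    calc _ ≤ M * (K * (|x - y| / M)) := by gcongr
      _ = _ := by field_simp

variable {d : ℕ} {v y₀ : E d}

theorem hd0 {F : Type*} [NormedAddCommGroup F] [NormedSpace ℝ F] [CompleteSpace F] {G : E d → F}
    (hG : ContDiff ℝ 1 G) (v y : E d) :
    HasDerivAt (fun t : ℝ => G (y + t • v)) (dd G v y) 0 := by
  simpa using hasDerivAt_line hG v y 0

theorem dd_chain {F F' : Type*} [NormedAddCommGroup F] [NormedSpace ℝ F] [NormedAddCommGroup F']
    [NormedSpace ℝ F'] {G : E d → F} {φ : F → F'} (hG : ContDiff ℝ 1 G) (hφ : ContDiff ℝ 1 φ)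
    (v y : E d) : dd (fun z => φ (G z)) v y = fderiv ℝ φ (G y) (dd G v y) := by
  have := ((hφ.differentiable one_ne_zero (G y)).hasFDerivAt.comp y
    (hG.differentiable one_ne_zero y).hasFDerivAt).fderiv
  exact congrArg (fun A => A v) this

theorem fderiv_le {F F' : Type*} [NormedAddCommGroup F] [NormedSpace ℝ F] [NormedAddCommGroup F']
    [NormedSpace ℝ F'] {φ : F → F'} (hK : 0 ≤ K) (h : ∀ z w, ‖φ z - φ w‖ ≤ K * ‖z - w‖) (z w : F) :
    ‖fderiv ℝ φ z w‖ ≤ K * ‖w‖ :=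
  ((fderiv ℝ φ z).le_opNorm w).trans (mul_le_mul_of_nonneg_right
    (norm_fderiv_le_of_lip' ℝ hK (.of_forall fun x => h x z)) (norm_nonneg _))

/-- Bounded functions with almost pure frequency. -/
structure PF (v : E d) (V : E d → ℂ) (l : ℝ) (η : E d → ℝ) : Prop where
  cd : ContDiff ℝ 1 V
  bd : ∀ y, ‖V y‖ ≤ 2
  ce : Continuous η
  fr : ∀ y, ‖dd V v y - I * l * V y‖ ≤ η y

variable {V W : E d → ℂ} {l l' : ℝ} {η η' : E d → ℝ}

theorem Trunc.pf (h : Trunc P K) (hV : ContDiff ℝ 1 V) (hη : Continuous η)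
    (hf : ∀ y, ‖dd V v y - I * l * V y‖ ≤ η y) :
    PF v (fun y => P (V y)) l fun y => K * η y := by
  refine ⟨h.cd.comp hV, fun y => h.bd _, continuous_const.mul hη, fun y => ?_⟩
  have h1 : fderiv ℝ P (V y) (I * l * V y) = I * l * P (V y) := by
    rw [show I * l * V y = l • (I * V y) by rw [real_smul]; ring, map_smul, h.rot, real_smul]; ring
  rw [dd_chain hV h.cd, ← h1, ← map_sub]
  exact (fderiv_le (by linarith [h.one]) h.lip _ _).trans
    (mul_le_mul_of_nonneg_left (hf y) (by linarith [h.one]))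

theorem PF.conj (h : PF v V l η) : PF v (fun y => conjCLE (V y)) (-l) η := by
  refine ⟨conjCLE.contDiff.comp h.cd, fun y => by simpa using h.bd y, h.ce, fun y => ?_⟩
  rw [dd_chain h.cd conjCLE.contDiff, ContinuousLinearEquiv.fderiv]
  refine le_trans (le_of_eq ?_) (h.fr y)
  rw [← norm_conj]
  simp [← sub_eq_add_neg]

theorem PF.pair (h : PF v V l η) (h' : PF v W l' η') (hv : ‖v‖ = 1) :
    |l + l'| * ‖cv 1 (fun y => V y * W y) y₀‖ ≤ 4 * Cw d + 2 * cv 1 η y₀ + 2 * cv 1 η' y₀ := by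
  have hG : ContDiff ℝ 1 fun y => V y * W y := h.cd.mul h'.cd
  have c1 := h.ce
  have c2 := h'.ce
  have c3 : Continuous fun y => I * (l + l' : ℝ) * (V y * W y) := continuous_const.mul hG.continuous
  have c4 : Continuous fun y => 2 * η y := by fun_prop
  have c5 : Continuous fun y => 2 * η' y := by fun_prop
  have h1 := norm_cv_dd_le hG one_pos (B := 4) (fun y => by
    rw [norm_mul]; nlinarith [h.bd y, h'.bd y, norm_nonneg (V y), norm_nonneg (W y)]) v y₀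
  have h2 : ‖cv 1 (fun y => dd (fun y => V y * W y) v y - I * (l + l' : ℝ) * (V y * W y)) y₀‖ ≤
      cv 1 (fun y => 2 * η y + 2 * η' y) y₀ := by
    refine norm_cv_le_cv (by fun_prop) zero_le_one fun y _ => ?_
    have e := (hd0 hG v y).unique ((hd0 h.cd v y).mul (hd0 h'.cd v y))
    simp only [zero_smul, add_zero] at e
    rw [e, show dd V v y * W y + V y * dd W v y - I * (l + l' : ℝ) * (V y * W y) =
      (dd V v y - I * l * V y) * W y + V y * (dd W v y - I * l' * W y) by push_cast; ring]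
    refine (norm_add_le _ _).trans ?_
    rw [norm_mul, norm_mul]
    nlinarith [h.bd y, h'.bd y, h.fr y, h'.fr y, norm_nonneg (V y), norm_nonneg (W y),
      norm_nonneg (dd V v y - I * l * V y), norm_nonneg (dd W v y - I * l' * W y)]
  rw [cv_sub (continuous_dd hG v) c3, cv_cmul, cv_add c4 c5, cv_const_mul, cv_const_mul] at h2
  have h3 := norm_sub_norm_le (I * (l + l' : ℝ) * cv 1 (fun y => V y * W y) y₀)
    (cv 1 (dd (fun y => V y * W y) v) y₀)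
  rw [norm_sub_rev, norm_mul, norm_mul, norm_I, norm_real, Real.norm_eq_abs, one_mul] at h3
  rw [hv] at h1
  linarith

theorem cv_re_re (hV : Continuous V) (hW : Continuous W) :
    cv 1 (fun y => (V y).re * (W y).re) y₀ = ((cv 1 (fun y => V y * conjCLE (W y)) y₀).re +
      (cv 1 (fun y => V y * W y) y₀).re) / 2 ∧
    cv 1 (fun y => (V y).im * (W y).im) y₀ = ((cv 1 (fun y => V y * conjCLE (W y)) y₀).re -
      (cv 1 (fun y => V y * W y) y₀).re) / 2 := by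
  have h1 : Continuous fun y => V y * conjCLE (W y) := hV.mul (conjCLE.continuous.comp hW)
  have h2 : Continuous fun y => V y * W y := hV.mul hW
  have e1 := cv_clm reCLM h1 1 y₀
  have e2 := cv_clm reCLM h2 1 y₀
  simp only [reCLM_apply] at e1 e2
  have c1 : Continuous fun y => (V y * conjCLE (W y)).re := continuous_re.comp h1
  have c2 : Continuous fun y => (V y * W y).re := continuous_re.comp h2
  rw [← e1, ← e2, ← cv_add c1 c2, ← cv_sub c1 c2, ← cv_div_const, ← cv_div_const]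
  constructor <;> congr 1 <;> ext y <;> simp

theorem cv_conj_self (hV : Continuous V) :
    (cv 1 (fun y => V y * conjCLE (V y)) y₀).re = cv 1 (fun y => ‖V y‖ ^ 2) y₀ := by
  have e1 := cv_clm reCLM (hV.mul (conjCLE.continuous.comp hV)) 1 y₀
  simp only [reCLM_apply] at e1
  refine e1.symm.trans ?_
  congr 1; ext y
  simp [← normSq_eq_norm_sq, normSq_apply]

theorem harm {m k : ℕ} (hk : k < m) :
    ∑ j ∈ Finset.range m, 1 / |(k : ℝ) - j| ≤ 2 * (1 + Real.log m) := by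
  have h1 : ∀ n ≤ m, ∑ j ∈ Finset.range n, 1 / ((j : ℝ) + 1) ≤ 1 + Real.log m := fun n hn => by
    refine le_trans ?_ (harmonic_le_one_add_log m)
    simp only [harmonic, Rat.cast_sum, Rat.cast_inv, Nat.cast_add, Nat.cast_one, Rat.cast_add,
      Rat.cast_natCast, Rat.cast_one, one_div]
    exact Finset.sum_le_sum_of_subset_of_nonneg (Finset.range_mono hn) fun _ _ _ => by positivity
  obtain ⟨n, rfl⟩ := Nat.exists_eq_add_of_lt hk
  rw [add_right_comm k n 1] at *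
  rw [Finset.sum_range_add, Finset.sum_range_succ, sub_self, abs_zero, div_zero,
    add_zero, ← Finset.sum_range_reflect]
  have e1 : ∑ j ∈ Finset.range k, 1 / |(k : ℝ) - (k - 1 - j : ℕ)| =
      ∑ j ∈ Finset.range k, 1 / ((j : ℝ) + 1) := Finset.sum_congr rfl fun j hj => by
    have := Finset.mem_range.1 hj
    rw [Nat.sub_sub, Nat.cast_sub (by omega), sub_sub_cancel, Nat.abs_cast]
    push_cast; ring
  have e2 : ∑ j ∈ Finset.range n, 1 / |(k : ℝ) - (k + 1 + j : ℕ)| =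
      ∑ j ∈ Finset.range n, 1 / ((j : ℝ) + 1) := Finset.sum_congr rfl fun j _ => by
    rw [abs_sub_comm, abs_of_nonneg (by push_cast; linarith [(j.cast_nonneg : (0 : ℝ) ≤ j)])]
    push_cast; ring
  have := h1 k (by omega)
  have := h1 n (by omega)
  linarith

section main

variable {m : ℕ} {ω : ℝ} {V : ℕ → E d → ℂ} {η : ℕ → E d → ℝ}

/-- The means of the products of real and imaginary parts. -/
theorem cross (hm : 2 ≤ m) (hω : 1 ≤ ω) (hv : ‖v‖ = 1)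
    (h : ∀ k < m, PF v (V k) (ω * (1 + (k : ℝ) / m)) (η k)) {k j : ℕ} (hk : k < m) (hj : j < m)
    {α : ℝ} (hα : ω * α = 4 * Cw d + 2 * cv 1 (η k) y₀ + 2 * cv 1 (η j) y₀) :
    (if k = j then cv 1 (fun y => ‖V k y‖ ^ 2) y₀ / 2 else 0) - (m * (1 / |(k : ℝ) - j|) + 1) * α ≤
      cv 1 (fun y => (V k y).re * (V j y).re) y₀ ∧
    cv 1 (fun y => (V k y).im / (1 + (k : ℝ) / m) * ((V j y).im / (1 + (j : ℝ) / m))) y₀ ≤
      (if k = j then cv 1 (fun y => ‖V k y‖ ^ 2) y₀ / 2 else 0) +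
        (m * (1 / |(k : ℝ) - j|) + 1) * α := by
  have hm0 : (0 : ℝ) < m := by positivity
  have hω0 : 0 < ω := by positivity
  have k1 : 1 ≤ 1 + (k : ℝ) / m := le_add_of_nonneg_right (by positivity)
  have j1 : 1 ≤ 1 + (j : ℝ) / m := le_add_of_nonneg_right (by positivity)
  obtain ⟨e1, e2⟩ := cv_re_re (y₀ := y₀) (h k hk).cd.continuous (h j hj).cd.continuous
  have hP := (h k hk).pair (y₀ := y₀) (h j hj).conj hv
  have hQ := (h k hk).pair (y₀ := y₀) (h j hj) hv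
  rw [← hα] at hP hQ
  have e3 : cv 1 (fun y => (V k y).im / (1 + (k : ℝ) / m) * ((V j y).im / (1 + (j : ℝ) / m))) y₀ =
      cv 1 (fun y => (V k y).im * (V j y).im) y₀ / ((1 + (k : ℝ) / m) * (1 + (j : ℝ) / m)) := by
    rw [← cv_div_const]; congr 1; ext y; rw [div_mul_div_comm]
  have hd : 1 ≤ (1 + (k : ℝ) / m) * (1 + (j : ℝ) / m) := one_le_mul_of_one_le_of_one_le k1 j1
  have hQ' : ‖cv 1 (fun y => V k y * V j y) y₀‖ ≤ α := by
    rw [← mul_add, abs_of_pos (by positivity), mul_assoc] at hQ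
    nlinarith [le_of_mul_le_mul_left hQ hω0, norm_nonneg (cv 1 (fun y => V k y * V j y) y₀)]
  have hα0 : 0 ≤ α := (norm_nonneg _).trans hQ'
  obtain ⟨q1, q2⟩ := abs_le.1 ((abs_re_le_norm _).trans hQ')
  rw [e3, e1, e2]
  split_ifs with e
  · subst e
    rw [cv_conj_self (h k hk).cd.continuous, sub_self, abs_zero, div_zero, mul_zero, zero_add,
      one_mul]
    have h0 : 0 ≤ cv 1 (fun y => ‖V k y‖ ^ 2) y₀ := cv_nonneg (fun _ => by positivity) _ _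
    refine ⟨by linarith, ?_⟩
    rw [div_le_iff₀ (by positivity)]
    nlinarith
  · have h0 : 0 < |(k : ℝ) - j| := abs_pos.2 (sub_ne_zero.2 (by exact_mod_cast e))
    have hP' : ‖cv 1 (fun y => V k y * conjCLE (V j y)) y₀‖ ≤ m * (1 / |(k : ℝ) - j|) * α := by
      rw [show ω * (1 + (k : ℝ) / m) + -(ω * (1 + (j : ℝ) / m)) = ω * ((k - j) / m) by ring,
        abs_mul, abs_of_pos hω0, abs_div, abs_of_pos hm0, mul_assoc] at hP
      have := le_of_mul_le_mul_left hP hω0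
      rw [div_mul_eq_mul_div, div_le_iff₀ hm0] at this
      rw [mul_one_div, div_mul_eq_mul_div, le_div_iff₀ h0]
      linarith
    obtain ⟨p1, p2⟩ := abs_le.1 ((abs_re_le_norm _).trans hP')
    have h1 : 0 ≤ m * (1 / |(k : ℝ) - j|) * α := by positivity
    refine ⟨by linarith, ?_⟩
    rw [div_le_iff₀ (by positivity)]
    nlinarith

theorem cv_sq_sum {a : ℕ → E d → ℝ} (ha : ∀ k < m, Continuous (a k)) :
    cv 1 (fun y => (∑ k ∈ Finset.range m, a k y) ^ 2) y₀ =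
      ∑ k ∈ Finset.range m, ∑ j ∈ Finset.range m, cv 1 (fun y => a k y * a j y) y₀ := by
  have h1 : ∀ k ∈ Finset.range m, ∀ j ∈ Finset.range m, Continuous fun y => a k y * a j y :=
    fun k hk j hj => (ha k (Finset.mem_range.1 hk)).mul (ha j (Finset.mem_range.1 hj))
  simp only [sq, Finset.sum_mul_sum]
  rw [cv_sum _ fun k hk => continuous_finsetSum _ (h1 k hk)]
  exact Finset.sum_congr rfl fun k hk => cv_sum _ (h1 k hk) _ _

/-- The means of the squares of the two sums. -/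
theorem squares (hm : 2 ≤ m) (hω : 1 ≤ ω) (hv : ‖v‖ = 1)
    (h : ∀ k < m, PF v (V k) (ω * (1 + (k : ℝ) / m)) (η k)) {A Γ : ℝ}
    (hA : A = ∑ k ∈ Finset.range m, cv 1 (fun y => ‖V k y‖ ^ 2) y₀)
    (hΓ : Γ = 12 * Cw d * (m ^ 3 / ω) +
      12 * (m * (1 + Real.log m) * ∑ k ∈ Finset.range m, cv 1 (η k) y₀ / ω)) :
    A / 2 - Γ ≤ cv 1 (fun y => (∑ k ∈ Finset.range m, (V k y).re) ^ 2) y₀ ∧
    cv 1 (fun y => (∑ k ∈ Finset.range m, (V k y).im / (1 + (k : ℝ) / m)) ^ 2) y₀ ≤ A / 2 + Γ := by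
  have hm0 : (0 : ℝ) < m := by positivity
  have hω0 : 0 < ω := by positivity
  have hC : 0 ≤ 4 * Cw d / ω := by have := one_le_Cw (d := d); positivity
  have hl0 : 0 ≤ Real.log m := Real.log_natCast_nonneg m
  have hl1 : 1 + Real.log m ≤ m := by linarith [Real.log_le_sub_one_of_pos hm0]
  let w : ℕ → ℕ → ℝ := fun k j => m * (1 / |(k : ℝ) - j|) + 1
  let ε : ℕ → ℝ := fun k => cv 1 (η k) y₀ / ω
  have hε : ∀ k ∈ Finset.range m, 0 ≤ ε k := fun k hk => div_nonneg (cv_nonneg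
    (fun y => (norm_nonneg _).trans ((h k (Finset.mem_range.1 hk)).fr y)) _ _) hω0.le
  have hw : ∀ k ∈ Finset.range m, ∑ j ∈ Finset.range m, w k j ≤ 3 * (m * (1 + Real.log m)) :=
    fun k hk => by
      have := harm (Finset.mem_range.1 hk)
      simp only [w, Finset.sum_add_distrib, ← Finset.mul_sum, Finset.sum_const, Finset.card_range,
        nsmul_eq_mul, mul_one]
      nlinarith
  have hs : ∑ k ∈ Finset.range m, ∑ j ∈ Finset.range m,
      w k j * (4 * Cw d / ω + 2 * ε k + 2 * ε j) ≤ Γ := by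
    have e : ∑ k ∈ Finset.range m, ∑ j ∈ Finset.range m, w k j * (2 * ε j) =
        ∑ k ∈ Finset.range m, ∑ j ∈ Finset.range m, w k j * (2 * ε k) := by
      rw [Finset.sum_comm]; simp only [w, abs_sub_comm]
    simp only [mul_add, Finset.sum_add_distrib]
    rw [e]
    simp only [← Finset.sum_mul]
    have h1 : ∑ k ∈ Finset.range m, (∑ j ∈ Finset.range m, w k j) * (2 * ε k) ≤
        ∑ k ∈ Finset.range m, 3 * (m * (1 + Real.log m)) * (2 * ε k) :=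
      Finset.sum_le_sum fun k hk => mul_le_mul_of_nonneg_right (hw k hk) (by linarith [hε k hk])
    have h2 : ∑ k ∈ Finset.range m, ∑ j ∈ Finset.range m, w k j ≤ 3 * m ^ 3 := by
      have := Finset.sum_le_card_nsmul _ _ _ hw
      rw [Finset.card_range, nsmul_eq_mul] at this
      nlinarith [mul_le_mul_of_nonneg_left hl1 (mul_pos hm0 hm0).le]
    have h3 := mul_le_mul_of_nonneg_right h2 hC
    rw [← Finset.mul_sum, ← Finset.mul_sum] at h1
    have h4 : 3 * (m : ℝ) ^ 3 * (4 * Cw d / ω) = 12 * Cw d * (m ^ 3 / ω) := by ring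
    rw [hΓ]
    simp only [ε] at h1 ⊢
    linarith
  have hc := fun k (hk : k ∈ Finset.range m) j (hj : j ∈ Finset.range m) =>
    cross (y₀ := y₀) hm hω hv h (Finset.mem_range.1 hk) (Finset.mem_range.1 hj)
      (α := 4 * Cw d / ω + 2 * ε k + 2 * ε j) (by simp only [ε]; field_simp)
  have hd : ∑ k ∈ Finset.range m, ∑ j ∈ Finset.range m,
      (if k = j then cv 1 (fun y => ‖V k y‖ ^ 2) y₀ / 2 else 0) = A / 2 := by
    rw [hA, Finset.sum_div]
    exact Finset.sum_congr rfl fun k hk => by rw [Finset.sum_ite_eq, if_pos hk]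
  rw [cv_sq_sum (a := fun k y => (V k y).re) fun k hk => continuous_re.comp (h k hk).cd.continuous,
    cv_sq_sum (a := fun k y => (V k y).im / (1 + (k : ℝ) / m))
      fun k hk => (continuous_im.comp (h k hk).cd.continuous).div_const _]
  have h1 := Finset.sum_le_sum fun k hk => Finset.sum_le_sum fun j hj => (hc k hk j hj).1
  have h2 := Finset.sum_le_sum fun k hk => Finset.sum_le_sum fun j hj => (hc k hk j hj).2
  simp only [Finset.sum_sub_distrib, Finset.sum_add_distrib, hd] at h1 h2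
  exact ⟨by linarith, by linarith⟩

/-- The primitive of the sum of the real parts. -/
theorem prim (h : ∀ k < m, PF v (V k) (ω * (1 + (k : ℝ) / m)) (η k)) :
    ContDiff ℝ 1 (fun y => ∑ k ∈ Finset.range m, (V k y).im / (1 + (k : ℝ) / m)) ∧ ∀ y,
    |∑ k ∈ Finset.range m, (V k y).re| ≤ 2 * m ∧
    |∑ k ∈ Finset.range m, (V k y).im / (1 + (k : ℝ) / m)| ≤ 2 * m ∧
    |dd (fun y => ∑ k ∈ Finset.range m, (V k y).im / (1 + (k : ℝ) / m)) v y -
      ω * ∑ k ∈ Finset.range m, (V k y).re| ≤ ∑ k ∈ Finset.range m, η k y := by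
  have k1 : ∀ k : ℕ, 1 ≤ 1 + (k : ℝ) / m := fun k => le_add_of_nonneg_right (by positivity)
  have hc : ContDiff ℝ 1 fun y => ∑ k ∈ Finset.range m, (V k y).im / (1 + (k : ℝ) / m) :=
    ContDiff.sum fun k hk => (imCLM.contDiff.comp (h k (Finset.mem_range.1 hk)).cd).div_const _
  have hb : ∀ a : ℕ → ℝ, (∀ k < m, |a k| ≤ 2) → |∑ k ∈ Finset.range m, a k| ≤ 2 * m :=
    fun a ha => by
      have := Finset.sum_le_card_nsmul _ _ _ fun k hk => ha k (Finset.mem_range.1 hk)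
      rw [Finset.card_range, nsmul_eq_mul] at this
      linarith [Finset.abs_sum_le_sum_abs a (Finset.range m)]
  refine ⟨hc, fun y => ⟨hb _ fun k hk => (abs_re_le_norm _).trans ((h k hk).bd y),
    hb _ fun k hk => ?_, ?_⟩⟩
  · rw [abs_div, abs_of_pos (a := 1 + (k : ℝ) / m) (by positivity)]
    exact (div_le_self (abs_nonneg _) (k1 k)).trans ((abs_im_le_norm _).trans ((h k hk).bd y))
  · have e := (hd0 hc v y).unique (HasDerivAt.fun_sum fun k hk => ((imCLM.hasFDerivAt.comp_hasDerivAt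
      0 (hd0 (h k (Finset.mem_range.1 hk)).cd v y)).div_const (1 + (k : ℝ) / m)))
    rw [e, Finset.mul_sum, ← Finset.sum_sub_distrib]
    refine (Finset.abs_sum_le_sum_abs _ _).trans (Finset.sum_le_sum fun k hk => ?_)
    have h1 := (abs_im_le_norm _).trans ((h k (Finset.mem_range.1 hk)).fr y)
    have h2 : imCLM (dd (V k) v y) / (1 + (k : ℝ) / m) - ω * (V k y).re =
        (dd (V k) v y - I * (ω * (1 + (k : ℝ) / m) : ℝ) * V k y).im / (1 + (k : ℝ) / m) := by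
      have := k1 k
      generalize (1 + (k : ℝ) / m) = ξ at this ⊢
      simp only [imCLM_apply, sub_im, mul_im, mul_re, I_re, I_im, ofReal_re, ofReal_im]
      field_simp
      ring
    rw [h2, abs_div, abs_of_pos (a := 1 + (k : ℝ) / m) (by positivity)]
    exact (div_le_self (abs_nonneg _) (k1 k)).trans h1

/-- The pointwise inequality. -/
theorem point {s t z dt dz y₁ y₂ r η ω K M : ℝ} (hω : 0 < ω) (hK : 0 ≤ K) (hy₂ : 0 ≤ y₂)
    (hs : |s| ≤ M) (ht : |t| ≤ 2 * M) (hz : |z| ≤ M) (hr : |t - s| ≤ r)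
    (hdt : |dt| ≤ K * (ω * (y₁ + y₂))) (hdz : |dz - ω * s| ≤ ω * η) :
    s ^ 2 ≤ (t * dz + dt * z) / ω + z ^ 2 / 2 + (M * r + 2 * M * η + K ^ 2 * y₁ ^ 2 + K * M * y₂) := by
  have h1 : |(t - s) * s| ≤ r * M := by
    rw [abs_mul]; exact mul_le_mul hr hs (abs_nonneg _) ((abs_nonneg _).trans hr)
  have h2 : |t * (dz - ω * s)| ≤ 2 * M * (ω * η) := by
    rw [abs_mul]; exact mul_le_mul ht hdz (abs_nonneg _) ((abs_nonneg _).trans ht)
  have h3 : |dt * z| ≤ K * (ω * (y₁ + y₂)) * |z| := by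
    rw [abs_mul]; exact mul_le_mul_of_nonneg_right hdt (abs_nonneg _)
  have h4 : K * y₁ * |z| ≤ z ^ 2 / 2 + K ^ 2 * y₁ ^ 2 := by
    rw [← sq_abs z]; nlinarith [sq_nonneg (|z| - K * y₁), sq_nonneg (K * y₁)]
  have h5 : K * y₂ * |z| ≤ K * y₂ * M := mul_le_mul_of_nonneg_left hz (by positivity)
  have h6 := mul_le_mul_of_nonneg_left (add_le_add h4 h5) hω.le
  have h7 := mul_le_mul_of_nonneg_left (neg_le_of_abs_le h1) hω.le
  rw [add_assoc, ← sub_le_iff_le_add, le_div_iff₀ hω]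
  nlinarith [neg_le_of_abs_le h2, neg_le_of_abs_le h3]

end main

end Ortho

open Ortho in
theorem ortho (d : ℕ) (_hd : 2 ≤ d) : OrthoStmt d := by
  obtain ⟨P, K, hP⟩ := exists_trunc
  have hK := hP.one
  have hC := one_le_Cw (d := d)
  refine ⟨110 * Cw d * K ^ 2, by nlinarith, ?_⟩
  intro m ω v y₀ U e x S e' Y₁ Y₂ hm hω hv hU hS he' hY₁ hY₂ hy
  have hm1 : (1 : ℝ) ≤ m := by exact_mod_cast hm.trans' one_le_two
  have hω0 : 0 < ω := by positivity
  have hl0 : 0 ≤ Real.log m := Real.log_natCast_nonneg m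
  have hV : ∀ k < m, PF v (fun y => P (U k y)) (ω * (1 + (k : ℝ) / m)) fun y => K * (ω * e k y) :=
    fun k hk => hP.pf (hU k hk).1 (continuous_const.mul (hU k hk).2.1) fun y =>
      ((hU k hk).2.2.2 y).2.2
  have hn := fun k (hk : k ∈ Finset.range m) y => hP.near
    ((hU k (Finset.mem_range.1 hk)).2.2.2 y).1 ((hU k (Finset.mem_range.1 hk)).2.2.2 y).2.1
  obtain ⟨q1, q2⟩ := squares (y₀ := y₀) hm hω hv hV rfl rfl
  obtain ⟨hZ, hp⟩ := prim hV
  obtain ⟨T, hT, t1, t2, t3⟩ := hP.real (M := 2 * m) (by positivity)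
  have ce : Continuous fun y => ∑ k ∈ Finset.range m, e k y :=
    continuous_finsetSum _ fun k hk => (hU k (Finset.mem_range.1 hk)).2.1
  have cx : Continuous fun y => ∑ k ∈ Finset.range m, x k y :=
    continuous_finsetSum _ fun k hk => (hU k (Finset.mem_range.1 hk)).2.2.1
  have cs : Continuous fun y => ∑ k ∈ Finset.range m, (P (U k y)).re := continuous_finsetSum _
    fun k hk => continuous_re.comp (hV k (Finset.mem_range.1 hk)).cd.continuous
  have se := cv_sum (Finset.range m) (fun k hk => (hU k (Finset.mem_range.1 hk)).2.1) 1 y₀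
  have sx := cv_sum (Finset.range m) (fun k hk => (hU k (Finset.mem_range.1 hk)).2.2.1) 1 y₀
  have hA : ∑ k ∈ Finset.range m, cv 1 (fun y => min ‖U k y‖ 1 ^ 2) y₀ ≤
      ∑ k ∈ Finset.range m, cv 1 (fun y => ‖P (U k y)‖ ^ 2) y₀ +
        2 * K * ∑ k ∈ Finset.range m, cv 1 (x k) y₀ := by
    rw [Finset.mul_sum, ← Finset.sum_add_distrib]
    refine Finset.sum_le_sum fun k hk => ?_
    have c1 := (hU k (Finset.mem_range.1 hk)).1.continuous
    have c2 := (hU k (Finset.mem_range.1 hk)).2.2.1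
    have c3 := (hV k (Finset.mem_range.1 hk)).cd.continuous
    have c4 : Continuous fun y => ‖P (U k y)‖ ^ 2 := c3.norm.pow 2
    have c5 : Continuous fun y => 2 * K * x k y := by fun_prop
    rw [← cv_const_mul, ← cv_add c4 c5]
    exact cv_mono (by fun_prop) (c4.add c5) zero_le_one fun y _ => (hn k hk y).2
  have hη : ∑ k ∈ Finset.range m, cv 1 (fun y => K * (ω * e k y)) y₀ / ω =
      K * ∑ k ∈ Finset.range m, cv 1 (e k) y₀ := by
    rw [Finset.mul_sum]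
    exact Finset.sum_congr rfl fun k _ => by rw [cv_const_mul, cv_const_mul]; field_simp
  rw [hη] at q1 q2
  have e0 : 0 ≤ ∑ k ∈ Finset.range m, cv 1 (e k) y₀ := Finset.sum_nonneg fun k hk =>
    cv_nonneg (fun y => nonneg_of_mul_nonneg_right ((norm_nonneg _).trans
      ((hU k (Finset.mem_range.1 hk)).2.2.2 y).2.2) hω0) _ _
  have x0 : 0 ≤ ∑ k ∈ Finset.range m, cv 1 (x k) y₀ := Finset.sum_nonneg fun k hk =>
    cv_nonneg (fun y => ((hU k (Finset.mem_range.1 hk)).2.2.2 y).1) _ _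
  have e'0 : 0 ≤ cv 1 e' y₀ := cv_nonneg (fun y => (abs_nonneg _).trans (hy y).2.2.1) _ _
  have y10 : 0 ≤ cv 1 (fun y => Y₁ y ^ 2) y₀ := cv_nonneg (fun y => sq_nonneg _) _ _
  have y20 : 0 ≤ cv 1 Y₂ y₀ := cv_nonneg (fun y => (hy y).2.1) _ _
  set Z : E d → ℝ := fun y => ∑ k ∈ Finset.range m, (P (U k y)).im / (1 + (k : ℝ) / m)
  have hTS : ContDiff ℝ 1 fun y => T (S y) := hT.comp hS
  have hH : ContDiff ℝ 1 fun y => T (S y) * Z y := hTS.mul hZ
  have h1 := norm_cv_dd_le hH one_pos (B := 8 * m ^ 2) (fun y => by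
    rw [Real.norm_eq_abs, abs_mul]
    exact (mul_le_mul (t2 _) (hp y).2.1 (abs_nonneg _) (by positivity)).trans_eq (by ring)) v y₀
  have c1 : Continuous fun y => dd (fun y => T (S y) * Z y) v y / ω :=
    (continuous_dd hH v).div_const _
  have c2 : Continuous fun y => Z y ^ 2 / 2 := (hZ.continuous.pow 2).div_const _
  have c3 : Continuous fun y => 2 * m * K * e' y := by fun_prop
  have c4 : Continuous fun y => 4 * m * K ^ 2 * ∑ k ∈ Finset.range m, x k y := by fun_prop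
  have c5 : Continuous fun y => 4 * m * K * ∑ k ∈ Finset.range m, e k y := by fun_prop
  have c6 : Continuous fun y => K ^ 2 * Y₁ y ^ 2 := by fun_prop
  have c7 : Continuous fun y => 2 * m * K * Y₂ y := by fun_prop
  have h2 : cv 1 (fun y => (∑ k ∈ Finset.range m, (P (U k y)).re) ^ 2) y₀ ≤
      cv 1 (fun y => dd (fun y => T (S y) * Z y) v y / ω + Z y ^ 2 / 2 + 2 * m * K * e' y +
        4 * m * K ^ 2 * ∑ k ∈ Finset.range m, x k y + 4 * m * K * ∑ k ∈ Finset.range m, e k y +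
        K ^ 2 * Y₁ y ^ 2 + 2 * m * K * Y₂ y) y₀ := by
    refine cv_mono (cs.fun_pow 2) ((((((c1.fun_add c2).fun_add c3).fun_add c4).fun_add c5).fun_add
      c6).fun_add c7) zero_le_one fun y _ => ?_
    obtain ⟨a1, a2, a3, a4⟩ := hy y
    obtain ⟨b1, b2, b3⟩ := hp y
    have h3 : |∑ k ∈ Finset.range m, (U k y).re - ∑ k ∈ Finset.range m, (P (U k y)).re| ≤
        2 * K * ∑ k ∈ Finset.range m, x k y := by
      rw [← Finset.sum_sub_distrib, Finset.mul_sum]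
      refine (Finset.abs_sum_le_sum_abs _ _).trans (Finset.sum_le_sum fun k hk => ?_)
      rw [abs_sub_comm, ← sub_re]
      exact (abs_re_le_norm _).trans (hn k hk y).1
    have h4 : |T (S y) - ∑ k ∈ Finset.range m, (P (U k y)).re| ≤
        K * (e' y + 2 * K * ∑ k ∈ Finset.range m, x k y) := by
      have := t3 (S y) (∑ k ∈ Finset.range m, (P (U k y)).re)
      rw [t1 _ b1] at this
      exact this.trans (mul_le_mul_of_nonneg_left ((abs_sub_le _ _ _).trans (add_le_add a3 h3))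
        (by positivity))
    have h5 : |dd (fun y => T (S y)) v y| ≤ K * (ω * (Y₁ y + Y₂ y)) := by
      rw [dd_chain hS hT]
      exact (fderiv_le (φ := T) (by positivity) t3 (S y) (dd S v y)).trans
        (mul_le_mul_of_nonneg_left a4 (by positivity))
    rw [← Finset.mul_sum, ← Finset.mul_sum, mul_left_comm] at b3
    have := point hω0 (by positivity) a2 b1 (t2 (S y)) b2 h4 h5 b3
    rw [dd_mul hTS hZ]
    simp only [Z] at this ⊢
    linarith
  rw [cv_add (((((c1.fun_add c2).fun_add c3).fun_add c4).fun_add c5).fun_add c6) c7,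
    cv_add ((((c1.fun_add c2).fun_add c3).fun_add c4).fun_add c5) c6,
    cv_add (((c1.fun_add c2).fun_add c3).fun_add c4) c5, cv_add ((c1.fun_add c2).fun_add c3) c4,
    cv_add (c1.fun_add c2) c3, cv_add c1 c2, cv_div_const, cv_div_const, cv_const_mul, cv_const_mul,
    cv_const_mul, cv_const_mul, cv_const_mul, se, sx] at h2
  have h3 : cv 1 (dd (fun y => T (S y) * Z y) v) y₀ / ω ≤ 8 * Cw d * (m ^ 3 / ω) := by
    rw [← mul_div_assoc]
    refine div_le_div_of_nonneg_right (((le_abs_self _).trans h1).trans ?_) hω0.le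
    rw [hv, mul_one, div_one]
    nlinarith [mul_le_mul_of_nonneg_left hm1 (by positivity : 0 ≤ 8 * Cw d * (m : ℝ) ^ 2)]
  have n0 : 0 ≤ (m : ℝ) ^ 3 / ω := by positivity
  generalize ∑ k ∈ Finset.range m, cv 1 (e k) y₀ = a at *
  generalize ∑ k ∈ Finset.range m, cv 1 (x k) y₀ = b at *
  generalize (m : ℝ) ^ 3 / ω = n at *
  have K1 : K ≤ Cw d * K ^ 2 := by nlinarith
  have K2 : K ^ 2 ≤ Cw d * K ^ 2 := by nlinarith
  have K3 : Cw d ≤ Cw d * K ^ 2 := le_mul_of_one_le_right (by positivity) (one_le_pow₀ hK)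
  have r1 := mul_le_mul_of_nonneg_right K1 (by positivity : 0 ≤ m * (1 + Real.log m) * a)
  have r2 := mul_le_mul_of_nonneg_right K2 (by positivity : 0 ≤ m * b)
  have r3 := mul_le_mul_of_nonneg_right K1 (mul_nonneg (by positivity : (0 : ℝ) ≤ m) e'0)
  have r4 := mul_le_mul_of_nonneg_right K2 y10
  have r5 := mul_le_mul_of_nonneg_right K1 (mul_nonneg (by positivity : (0 : ℝ) ≤ m) y20)
  have r6 := mul_le_mul_of_nonneg_right K3 n0
  have r7 : 0 ≤ K * (m * Real.log m * a) := by positivity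
  have r8 : K * b ≤ K ^ 2 * (m * b) := by
    nlinarith [mul_le_mul_of_nonneg_right (one_le_mul_of_one_le_of_one_le hK hm1)
      (by positivity : 0 ≤ K * b)]
  have r9 : 0 ≤ K * (m * (1 + Real.log m) * a) := by positivity
  have r10 : 0 ≤ K ^ 2 * (m * b) := by positivity
  have r11 : 0 ≤ K * (m * cv 1 e' y₀) := by positivity
  have r12 : 0 ≤ K ^ 2 * cv 1 (fun y => Y₁ y ^ 2) y₀ := by positivity
  have r13 : 0 ≤ K * (m * cv 1 Y₂ y₀) := by positivity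
  have r14 : 0 ≤ Cw d * n := by positivity
  linarith

end Pool.Agent.MP_20bec2_an.h7

end
end MrgPart1

-- ======== part 2: formerly Pool.Agent.MP_20bec2_an.h7.Pig
section MrgPart2

/-! The pigeonhole over the levels of a tower (project BIOM, module PIG). -/

set_option autoImplicit false

open MeasureTheory Set Metric Filter Topology

noncomputable section

namespace Pool.Agent.MP_20bec2_an.h7

namespace Pig

variable {d : ℕ}

/-! ### real numbers -/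

/-- two monotone sequences with a bounded product have a block on which both grow little -/
theorem block {I : ℕ} {p q : ℕ → ℝ} {ε : ℝ} (h0 : 0 < ε) (hl : 17 ≤ lg ε) (hI : 25 * lg ε ≤ I)
    (hp : ∀ i, 1 ≤ i → i < I → p i ≤ p (i + 1)) (hq : ∀ i, 1 ≤ i → i < I → q i ≤ q (i + 1))
    (hp0 : ∀ i, 1 ≤ i → i ≤ I → ε ^ 2 ≤ p i) (hq0 : ∀ i, 1 ≤ i → i ≤ I → ε ^ 3 ≤ q i)
    (hp1 : p I ≤ 2 * ε⁻¹) (hq1 : q I ≤ 3 * ε⁻¹ ^ 2) :
    ∃ i, 1 ≤ i ∧ i < I ∧ p (i + 1) ≤ 3 / 2 * p i ∧ q (i + 1) ≤ 3 / 2 * q i := by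
  by_contra hc
  push Not at hc
  have e2 : 0 < ε ^ 2 := by positivity
  have e3 : 0 < ε ^ 3 := by positivity
  have hI1 : 1 ≤ I := by
    have : (1 : ℝ) ≤ I := by linarith
    exact_mod_cast this
  have key : ∀ k, k + 1 ≤ I → (3 / 2 : ℝ) ^ k * ε ^ 5 ≤ p (k + 1) * q (k + 1) := by
    intro k
    induction k with
    | zero =>
      intro h
      have a1 := hp0 1 le_rfl h
      have a2 := hq0 1 le_rfl h
      calc (3 / 2 : ℝ) ^ 0 * ε ^ 5 = ε ^ 2 * ε ^ 3 := by ring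
        _ ≤ p (0 + 1) * q (0 + 1) := mul_le_mul a1 a2 e3.le (e2.le.trans a1)
    | succ k ih =>
      intro h
      have a0 := ih (by omega)
      have a1 := hp0 (k + 1) (by omega) (by omega)
      have a2 := hq0 (k + 1) (by omega) (by omega)
      have a3 := hp (k + 1) (by omega) (by omega)
      have a4 := hq (k + 1) (by omega) (by omega)
      have a5 : 3 / 2 * (p (k + 1) * q (k + 1)) ≤ p (k + 1 + 1) * q (k + 1 + 1) := by
        rcases le_or_gt (p (k + 1 + 1)) (3 / 2 * p (k + 1)) with h1 | h1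
        · have h2 := hc (k + 1) (by omega) (by omega) h1
          calc 3 / 2 * (p (k + 1) * q (k + 1)) = p (k + 1) * (3 / 2 * q (k + 1)) := by ring
            _ ≤ _ := mul_le_mul a3 h2.le (by linarith) (by linarith)
        · calc 3 / 2 * (p (k + 1) * q (k + 1)) = (3 / 2 * p (k + 1)) * q (k + 1) := by ring
            _ ≤ _ := mul_le_mul h1.le a4 (by linarith) (by linarith)
      calc (3 / 2 : ℝ) ^ (k + 1) * ε ^ 5 = 3 / 2 * ((3 / 2 : ℝ) ^ k * ε ^ 5) := by ring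
        _ ≤ _ := by linarith
  obtain ⟨k, rfl⟩ : ∃ k, I = k + 1 := ⟨I - 1, by omega⟩
  have a1 := key k le_rfl
  have a2 : p (k + 1) * q (k + 1) ≤ 2 * ε⁻¹ * (3 * ε⁻¹ ^ 2) :=
    mul_le_mul hp1 hq1 (e3.le.trans (hq0 _ hI1 le_rfl)) (by positivity)
  have a3 : (3 / 2 : ℝ) ^ k ≤ 6 * ε⁻¹ ^ 8 := by
    have h5 : 0 < ε ^ 5 := by positivity
    refine le_of_mul_le_mul_right ((a1.trans a2).trans (le_of_eq ?_)) h5
    field_simp
    ring
  have a4 := Real.log_le_log (by positivity) a3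
  rw [Real.log_pow, Real.log_mul (by norm_num) (by positivity), Real.log_pow, Real.log_inv] at a4
  have a5 := Real.log_le_sub_one_of_pos (show (0 : ℝ) < 6 by norm_num)
  have a6 := Real.one_sub_inv_le_log_of_pos (show (0 : ℝ) < 3 / 2 by norm_num)
  have a7 : (k : ℝ) * (1 / 3) ≤ k * Real.log (3 / 2) :=
    mul_le_mul_of_nonneg_left (by linarith) (Nat.cast_nonneg k)
  unfold lg at hl hI
  push_cast at hI a4
  linarith

/-- the lower bound of the area in terms of the length -/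
theorem area_lb {n : ℕ} {ε M M' C ϱ : ℝ} (h0 : 0 < ε) (h1 : ε ≤ 1) (hϱ : 0 < ϱ)
    (hM : ϱ ^ (n + 1) = M) (hM0 : ε ^ 2 ≤ M) (h : M ≤ 2 * C * ϱ * M') : ε ^ 2 ≤ 2 * C * M' := by
  have a1 : ε ^ 2 ≤ ϱ ^ n := by
    rcases le_total 1 ϱ with h2 | h2
    · exact (pow_le_one₀ h0.le h1).trans (one_le_pow₀ h2)
    · refine hM0.trans ?_
      rw [← hM, pow_succ]
      exact mul_le_of_le_one_right (by positivity) h2
  refine a1.trans (le_of_mul_le_mul_right ?_ hϱ)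
  rw [← pow_succ, hM]
  linarith

/-- the numerical hypothesis of the step -/
theorem numeric {n : ℕ} {δ L M M' C ϱ g l : ℝ} (hδ : 0 ≤ δ) (hϱ : 0 < ϱ) (hg : 0 ≤ g)
    (hM : ϱ ^ (n + 1) = M) (hML : M ≤ 2 * L) (h : M ≤ 2 * C * ϱ * M') (hl0 : 0 ≤ l)
    (hl : 16 * C ^ 4 ≤ l)
    (hn : (2 * L) ^ (4 * (n + 2)) * (g ^ 5 * l ^ 12) ^ (n + 1) ≤ δ ^ (6 * (n + 1))) :
    M ^ 8 * g ^ 5 * l ^ 11 ≤ δ ^ 6 * M' ^ 4 := by
  have hM0 : 0 < M := by rw [← hM]; positivity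
  have a1 : M ^ 4 * ϱ ^ 4 * (g ^ 5 * l ^ 12) ≤ δ ^ 6 := by
    refine le_of_pow_le_pow_left₀ (n := n + 1) (by omega) (by positivity) ?_
    have e : (M ^ 4 * ϱ ^ 4 * (g ^ 5 * l ^ 12)) ^ (n + 1) =
        M ^ (4 * (n + 2)) * (g ^ 5 * l ^ 12) ^ (n + 1) := by
      rw [mul_pow, mul_pow, ← pow_mul ϱ, mul_comm 4 (n + 1), pow_mul ϱ, hM]
      congr 1
      ring
    rw [e, ← pow_mul]
    exact (mul_le_mul_of_nonneg_right (pow_le_pow_left₀ hM0.le hML _) (by positivity)).trans hn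
  have a2 : M ^ 4 ≤ l * (ϱ ^ 4 * M' ^ 4) :=
    calc M ^ 4 ≤ (2 * C * ϱ * M') ^ 4 := pow_le_pow_left₀ hM0.le h 4
      _ = 16 * C ^ 4 * (ϱ ^ 4 * M' ^ 4) := by ring
      _ ≤ _ := mul_le_mul_of_nonneg_right hl (by positivity)
  calc M ^ 8 * g ^ 5 * l ^ 11 = M ^ 4 * (M ^ 4 * g ^ 5 * l ^ 11) := by ring
    _ ≤ l * (ϱ ^ 4 * M' ^ 4) * (M ^ 4 * g ^ 5 * l ^ 11) :=
        mul_le_mul_of_nonneg_right a2 (by positivity)
    _ = M ^ 4 * ϱ ^ 4 * (g ^ 5 * l ^ 12) * M' ^ 4 := by ring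
    _ ≤ _ := mul_le_mul_of_nonneg_right a1 (by positivity)

/-- the range of the potential -/
theorem val_le {ε M M' A B : ℝ} (h0 : 0 < ε) (hl : 3 ≤ lg ε) (hM : 0 < M) (hM' : 0 < M')
    (hA : A ≤ M) (hB : B ≤ M') : val ε M M' A B ≤ 10 := by
  have a0 : 0 ≤ max A 0 / M := div_nonneg (le_max_right _ _) hM.le
  have a1 : max A 0 / M ≤ 1 := (div_le_one hM).2 (max_le hA hM.le)
  have a2 := FF_le h0 (by linarith) a0
  have a3 := F1_le_two h0 hl a0 (by linarith)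
  have a4 : 8 * B / M' ≤ 8 := by rw [div_le_iff₀ hM']; linarith
  unfold val
  nlinarith

theorem le_val {ε M M' A B : ℝ} (h0 : 0 < ε) (hl : 1 ≤ lg ε) (hM : 0 < M) :
    8 * B / M' ≤ val ε M M' A B :=
  le_add_of_nonneg_left (FF_nonneg h0 hl (div_nonneg (le_max_right _ _) hM.le))

/-! ### the three suprema -/

/-- means of directional derivatives of coordinates -/
def Aset (Ψ : E d → E d) (G : Set (E d)) : Set ℝ :=
  {x | ∃ y ∈ G, ∃ f v : E d, ‖f‖ = 1 ∧ ‖v‖ = 1 ∧ x = cv 1 (dd (co f Ψ) v) y}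

/-- means of minors -/
def Bset (Ψ : E d → E d) (G : Set (E d)) : Set ℝ :=
  {x | ∃ y ∈ G, ∃ (i j : Fin d) (v' v : E d), ON v' v ∧
    x = cv 1 (jac (co (ax i) Ψ) (co (ax j) Ψ) v' v) y}

/-- values of the potential -/
def Hset (ε M M' : ℝ) (i j : Fin d) (Ψ : E d → E d) (G : Set (E d)) : Set ℝ :=
  {x | ∃ y ∈ G, ∃ (c₁ c₂ : ℝ) (u' u : E d), c₁ ^ 2 + c₂ ^ 2 = 1 ∧ ON u' u ∧
    x = val ε M M' (c₁ * cv 1 (dd (co (ax i) Ψ) u) y + c₂ * cv 1 (dd (co (ax j) Ψ) u) y)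
      (cv 1 (jac (co (ax i) Ψ) (co (ax j) Ψ) u' u) y)}

theorem exists_on (hd : 2 ≤ d) : ∃ v' v : E d, ON v' v :=
  ⟨ax ⟨0, by omega⟩, ax ⟨1, by omega⟩, on_ax (by simp)⟩

theorem on_symm {a b : E d} (h : ON a b) : ON b a :=
  ⟨h.2.1, h.1, by rw [real_inner_comm]; exact h.2.2⟩

theorem Aset_le {L : ℝ} {Ψ : E d → E d} (h : Sm L Ψ) (G : Set (E d)) :
    ∀ x ∈ Aset Ψ G, x ≤ L := by
  rintro x ⟨y, -, f, v, hf, hv, rfl⟩
  exact (le_abs_self _).trans (norm_cv_le zero_le_one fun z _ => (h.co hf).dd_le hv z)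

theorem Bset_le {L : ℝ} {Ψ : E d → E d} (h : Sm L Ψ) (G : Set (E d)) :
    ∀ x ∈ Bset Ψ G, x ≤ 2 * L ^ 2 := by
  rintro x ⟨y, -, i, j, v', v, hv, rfl⟩
  have := norm_cv_le (G := jac (co (ax i) Ψ) (co (ax j) Ψ) v' v) (y := y) zero_le_one fun z _ =>
    abs_jac_le (h.co (norm_ax i)) (h.co (norm_ax j)) hv.1 hv.2.1 z
  exact (le_abs_self _).trans this

theorem Aset_ne (hd : 2 ≤ d) (Ψ : E d → E d) {G : Set (E d)} (hG : G.Nonempty) :
    (Aset Ψ G).Nonempty := by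
  obtain ⟨y, hy⟩ := hG
  obtain ⟨v', v, hv⟩ := exists_on hd
  exact ⟨_, y, hy, v', v, hv.1, hv.2.1, rfl⟩

theorem Bset_ne (hd : 2 ≤ d) (Ψ : E d → E d) {G : Set (E d)} (hG : G.Nonempty) :
    (Bset Ψ G).Nonempty := by
  obtain ⟨y, hy⟩ := hG
  obtain ⟨v', v, hv⟩ := exists_on hd
  exact ⟨_, y, hy, ⟨0, by omega⟩, ⟨0, by omega⟩, v', v, hv, rfl⟩

theorem cv_dd_co {L : ℝ} {Ψ : E d → E d} (h : Sm L Ψ) (e v y : E d) :
    cv 1 (dd (co e Ψ) v) y = inner ℝ e (cv 1 (dd Ψ v) y) := by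
  rw [show dd (co e Ψ) v = co e (dd Ψ v) from funext fun z => dd_co h.cd1 e v z]
  exact cv_co (continuous_dd h.cd1 v) e 1 y

theorem norm_comb {a b : E d} (h : ON a b) {c₁ c₂ : ℝ} (hc : c₁ ^ 2 + c₂ ^ 2 = 1) :
    ‖c₁ • a + c₂ • b‖ = 1 := by
  have e : ‖c₁ • a + c₂ • b‖ ^ 2 = 1 := by
    rw [norm_add_sq_real, norm_smul, norm_smul, h.1, h.2.1, real_inner_smul_left,
      real_inner_smul_right, h.2.2, Real.norm_eq_abs, Real.norm_eq_abs, mul_one, mul_one, sq_abs,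
      sq_abs]
    linarith
  nlinarith [norm_nonneg (c₁ • a + c₂ • b)]

theorem comb_mem {L : ℝ} {Ψ : E d → E d} (h : Sm L Ψ) {G : Set (E d)} {y : E d} (hy : y ∈ G)
    {i j : Fin d} (hij : i ≠ j) {c₁ c₂ : ℝ} (hc : c₁ ^ 2 + c₂ ^ 2 = 1) {u : E d} (hu : ‖u‖ = 1) :
    c₁ * cv 1 (dd (co (ax i) Ψ) u) y + c₂ * cv 1 (dd (co (ax j) Ψ) u) y ∈ Aset Ψ G := by
  refine ⟨y, hy, c₁ • ax i + c₂ • ax j, u, norm_comb (on_ax hij) hc, hu, ?_⟩
  rw [cv_dd_co h, cv_dd_co h, cv_dd_co h, inner_add_left, real_inner_smul_left,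
    real_inner_smul_left]

theorem abs_comb_le {L M : ℝ} {Ψ : E d → E d} (h : Sm L Ψ) {G : Set (E d)} {y : E d} (hy : y ∈ G)
    {i j : Fin d} (hij : i ≠ j) {c₁ c₂ : ℝ} (hc : c₁ ^ 2 + c₂ ^ 2 = 1) {u : E d} (hu : ‖u‖ = 1)
    (hM : ∀ x ∈ Aset Ψ G, x ≤ M) :
    |c₁ * cv 1 (dd (co (ax i) Ψ) u) y + c₂ * cv 1 (dd (co (ax j) Ψ) u) y| ≤ M := by
  have a1 := hM _ (comb_mem h hy hij hc hu)
  have a2 := hM _ (comb_mem (c₁ := -c₁) (c₂ := -c₂) h hy hij (by linarith) hu)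
  exact abs_le.2 ⟨by linarith, a1⟩

theorem Hset_le {ε L M M' : ℝ} {Ψ : E d → E d} (h : Sm L Ψ) (G : Set (E d)) {i j : Fin d}
    (hij : i ≠ j) (h0 : 0 < ε) (hl : 3 ≤ lg ε) (hM0 : 0 < M) (hM0' : 0 < M')
    (hM : ∀ x ∈ Aset Ψ G, x ≤ M) (hM' : ∀ x ∈ Bset Ψ G, x ≤ M') :
    ∀ x ∈ Hset ε M M' i j Ψ G, x ≤ 10 := by
  rintro x ⟨y, hy, c₁, c₂, u', u, hc, hu, rfl⟩
  exact val_le h0 hl hM0 hM0' (hM _ (comb_mem h hy hij hc hu.2.1))
    (hM' _ ⟨y, hy, i, j, u', u, hu, rfl⟩)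

/-- a positive minor can be taken with increasing indices -/
theorem exists_lt {Ψ : E d → E d} {G : Set (E d)} {x : ℝ} (hx : x ∈ Bset Ψ G) (h0 : 0 < x) :
    ∃ y ∈ G, ∃ (i j : Fin d) (v' v : E d), i < j ∧ ON v' v ∧
      x = cv 1 (jac (co (ax i) Ψ) (co (ax j) Ψ) v' v) y := by
  obtain ⟨y, hy, i, j, v', v, hv, rfl⟩ := hx
  rcases lt_trichotomy i j with h | rfl | h
  · exact ⟨y, hy, i, j, v', v, h, hv, rfl⟩
  · exfalso
    have e : jac (co (ax i) Ψ) (co (ax i) Ψ) v' v = fun _ => 0 := by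
      ext z; simp only [jac]; ring
    rw [e, cv_const] at h0
    exact lt_irrefl _ h0
  · refine ⟨y, hy, j, i, v, v', h, on_symm hv, ?_⟩
    congr 1
    ext z; simp only [jac]; ring

/-! ### passing to the next level -/

section tower

variable {ε δ L : ℝ} {S : Sys d ε δ} {N : ℕ} {Ψ : ℕ → E d → E d} {G : ℕ → Set (E d)}

theorem nxtA (T : Tower S L N Ψ G) (h0 : 0 < ε) {n : ℕ} (hn : n < N) {y₀ y : E d}
    (hy₀ : y₀ ∈ G n) (hy : y ∈ ball y₀ 4) (hF : Far S (Ψ n y)) {f v : E d} (hf : ‖f‖ = 1)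
    (hv : ‖v‖ = 1) : cv (ε ^ 160) (dd (co f (Ψ n)) v) y ∈ Aset (Ψ (n + 1)) (G (n + 1)) := by
  refine ⟨_, T.nxt n hn y₀ hy₀ y hy hF, f, v, hf, hv, ?_⟩
  rw [T.sc n, cv_scl_dd (T.sm n).cd1 (by positivity)]

theorem nxtB (T : Tower S L N Ψ G) (h0 : 0 < ε) {n : ℕ} (hn : n < N) {y₀ y : E d}
    (hy₀ : y₀ ∈ G n) (hy : y ∈ ball y₀ 4) (hF : Far S (Ψ n y)) (i j : Fin d) {v' v : E d}
    (hv : ON v' v) : cv (ε ^ 160) (jac (co (ax i) (Ψ n)) (co (ax j) (Ψ n)) v' v) y ∈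
      Bset (Ψ (n + 1)) (G (n + 1)) := by
  refine ⟨_, T.nxt n hn y₀ hy₀ y hy hF, i, j, v', v, hv, ?_⟩
  rw [T.sc n, cv_scl_jac (T.sm n).cd1 (by positivity)]

theorem nxtH (T : Tower S L N Ψ G) (h0 : 0 < ε) {n : ℕ} (hn : n < N) {y₀ y : E d}
    (hy₀ : y₀ ∈ G n) (hy : y ∈ ball y₀ 4) (hF : Far S (Ψ n y)) {i j : Fin d} {M M' H : ℝ}
    (hH : ∀ x ∈ Hset ε M M' i j (Ψ (n + 1)) (G (n + 1)), x ≤ H) :
    Pot ε M M' H (ε ^ 160) (co (ax i) (Ψ n)) (co (ax j) (Ψ n)) y := by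
  intro c₁ c₂ v' v hc hv
  refine hH _ ⟨_, T.nxt n hn y₀ hy₀ y hy hF, c₁, c₂, v', v, hc, hv, ?_⟩
  rw [T.sc n, cv_scl_jac (T.sm n).cd1 (by positivity), cv_scl_dd (T.sm n).cd1 (by positivity),
    cv_scl_dd (T.sm n).cd1 (by positivity)]

/-- what the bad set and monotonicity give at a level -/
def Mn (S : Sys d ε δ) (Φ : E d → E d) (y₀ : E d) : Prop :=
  (∃ y ∈ ball y₀ 4, Far S (Φ y)) ∧ ∀ (F : E d → ℝ) (H : ℝ), Continuous F →
    (∀ y, |F y| ≤ ε⁻¹ ^ 6) → (∀ y ∈ ball y₀ 4, Far S (Φ y) → cv (ε ^ 160) F y ≤ H) →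
    cv 1 F y₀ ≤ H + ε ^ 5

theorem level_ne (T : Tower S L N Ψ G) (hm : ∀ n < N, ∀ y₀ ∈ G n, Mn S (Ψ n) y₀) :
    ∀ n ≤ N, (G n).Nonempty := by
  intro n
  induction n with
  | zero => exact fun _ => T.ne
  | succ n ih =>
    intro hn
    obtain ⟨y₀, hy₀⟩ := ih (by omega)
    obtain ⟨y, hy, hF⟩ := (hm n (by omega) y₀ hy₀).1
    exact ⟨_, T.nxt n (by omega) y₀ hy₀ y hy hF⟩

theorem monoA (hd : 2 ≤ d) (T : Tower S L N Ψ G) (h0 : 0 < ε) (hL : L ≤ ε⁻¹ ^ 6)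
    (hm : ∀ n < N, ∀ y₀ ∈ G n, Mn S (Ψ n) y₀) {n : ℕ} (hn : n < N) :
    sSup (Aset (Ψ n) (G n)) ≤ sSup (Aset (Ψ (n + 1)) (G (n + 1))) + ε ^ 5 := by
  refine csSup_le (Aset_ne hd _ (level_ne T hm n hn.le)) ?_
  rintro x ⟨y₀, hy₀, f, v, hf, hv, rfl⟩
  refine (hm n hn y₀ hy₀).2 _ _ (continuous_dd ((T.sm n).co hf).cd1 v)
    (fun y => (((T.sm n).co hf).dd_le hv y).trans hL) fun y hy hF => ?_
  exact le_csSup ⟨L, Aset_le (T.sm _) _⟩ (nxtA T h0 hn hy₀ hy hF hf hv)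

theorem monoB (hd : 2 ≤ d) (T : Tower S L N Ψ G) (h0 : 0 < ε) (hL : 2 * L ^ 2 ≤ ε⁻¹ ^ 6)
    (hm : ∀ n < N, ∀ y₀ ∈ G n, Mn S (Ψ n) y₀) {n : ℕ} (hn : n < N) :
    sSup (Bset (Ψ n) (G n)) ≤ sSup (Bset (Ψ (n + 1)) (G (n + 1))) + ε ^ 5 := by
  refine csSup_le (Bset_ne hd _ (level_ne T hm n hn.le)) ?_
  rintro x ⟨y₀, hy₀, i, j, v', v, hv, rfl⟩
  refine (hm n hn y₀ hy₀).2 _ _
    (continuous_jac ((T.sm n).co (norm_ax i)).cd1 ((T.sm n).co (norm_ax j)).cd1 v' v)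
    (fun y => (abs_jac_le ((T.sm n).co (norm_ax i)) ((T.sm n).co (norm_ax j)) hv.1 hv.2.1 y).trans
      hL) fun y hy hF => ?_
  exact le_csSup ⟨_, Bset_le (T.sm _) _⟩ (nxtB T h0 hn hy₀ hy hF i j hv)

/-- the gains along a block exceed the range of the potential -/
theorem gains (T : Tower S L N Ψ G) (h0 : 0 < ε) (hl : 3 ≤ lg ε) {n₀ N₁ : ℕ} (hN : n₀ + N₁ ≤ N)
    {M M' g : ℝ} (hM0 : 0 < M) (hM0' : 0 < M') (hg0 : 0 < g) (hg1 : g ≤ 1 / 2)
    (hg : 11 ≤ N₁ * g) {i j : Fin d} (hij : i < j)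
    (hM : ∀ k ≤ N₁, ∀ x ∈ Aset (Ψ (n₀ + k)) (G (n₀ + k)), x ≤ M)
    (hM' : ∀ k ≤ N₁, ∀ x ∈ Bset (Ψ (n₀ + k)) (G (n₀ + k)), x ≤ M')
    (hst : ∃ x ∈ Hset ε M M' i j (Ψ n₀) (G n₀), 4 ≤ x)
    (hS : ∀ n < N, ∀ y₀ ∈ G n, ∀ (H c₁ c₂ : ℝ) (u' u : E d), |H| ≤ 12 → c₁ ^ 2 + c₂ ^ 2 = 1 →
      ON u' u →
      |c₁ * cv 1 (dd (co (ax i) (Ψ n)) u) y₀ + c₂ * cv 1 (dd (co (ax j) (Ψ n)) u) y₀| ≤ M →
      4 ≤ val ε M M' (c₁ * cv 1 (dd (co (ax i) (Ψ n)) u) y₀ +
        c₂ * cv 1 (dd (co (ax j) (Ψ n)) u) y₀)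
        (cv 1 (jac (co (ax i) (Ψ n)) (co (ax j) (Ψ n)) u' u) y₀) →
      (∀ y ∈ ball y₀ 4, Far S (Ψ n y) →
        Pot ε M M' H (ε ^ 160) (co (ax i) (Ψ n)) (co (ax j) (Ψ n)) y) →
      val ε M M' (c₁ * cv 1 (dd (co (ax i) (Ψ n)) u) y₀ + c₂ * cv 1 (dd (co (ax j) (Ψ n)) u) y₀)
        (cv 1 (jac (co (ax i) (Ψ n)) (co (ax j) (Ψ n)) u' u) y₀) + 2 * g < H) : False := by
  have hb : ∀ k ≤ N₁, ∀ x ∈ Hset ε M M' i j (Ψ (n₀ + k)) (G (n₀ + k)), x ≤ 10 := fun k hk =>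
    Hset_le (T.sm _) _ hij.ne h0 hl hM0 hM0' (hM k hk) (hM' k hk)
  have key : ∀ k ≤ N₁, ∃ x ∈ Hset ε M M' i j (Ψ (n₀ + k)) (G (n₀ + k)), 4 + k * g ≤ x := by
    intro k
    induction k with
    | zero =>
      intro _
      obtain ⟨x, hx, hx'⟩ := hst
      exact ⟨x, hx, by push_cast; linarith⟩
    | succ k ih =>
      intro hk
      obtain ⟨x, ⟨y₀, hy₀, c₁, c₂, u', u, hc, hu, rfl⟩, hx⟩ := ih (by omega)
      have hk0 : 0 ≤ (k : ℝ) * g := by positivity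
      by_contra hcon
      push Not at hcon
      have a1 := hb k (by omega) _ ⟨y₀, hy₀, c₁, c₂, u', u, hc, hu, rfl⟩
      have a2 := hS (n₀ + k) (by omega) y₀ hy₀ (4 + (k + 1) * g) c₁ c₂ u' u
        (abs_le.2 ⟨by linarith, by linarith⟩) hc hu
        (abs_comb_le (T.sm _) hy₀ hij.ne hc hu.2.1 (hM k (by omega))) (by linarith)
        fun y hy hF => nxtH T h0 (by omega) hy₀ hy hF fun z hz => by
          have := hcon z hz
          push_cast at this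
          exact this.le
      linarith
  obtain ⟨x, hx, hx'⟩ := key N₁ le_rfl
  have := hb N₁ le_rfl x hx
  linarith

/-- the corrected suprema are monotone and bounded -/
theorem seqs (hd : 2 ≤ d) (T : Tower S L N Ψ G) (h0 : 0 < ε) (h1 : ε ≤ 1 / 2) (hL1 : 1 ≤ L)
    (hL : L * ε ≤ 1) (hN : (N : ℝ) * ε ≤ 1) (hm : ∀ n < N, ∀ y₀ ∈ G n, Mn S (Ψ n) y₀)
    (hlow : ∀ n < N, ∀ y₀ ∈ G n, ∀ a : ℝ, (∀ y ∈ ball y₀ 4, Far S (Ψ n y) → ∀ f v : E d,
      ‖f‖ = 1 → ‖v‖ = 1 → cv (ε ^ 160) (dd (co f (Ψ n)) v) y ≤ a) → ε ^ 2 ≤ a) :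
    ∃ a b : ℕ → ℝ, (∀ n n', n ≤ n' → n' ≤ N → a n ≤ a n' ∧ b n ≤ b n') ∧
      (∀ n, 1 ≤ n → n ≤ N → ε ^ 2 ≤ a n) ∧ (∀ n, ε ^ 3 ≤ b n) ∧
      (∀ n ≤ N, a n ≤ 2 * L ∧ b n ≤ 3 * L ^ 2) ∧
      (∀ n, (∀ x ∈ Aset (Ψ n) (G n), x ≤ a n) ∧ ∀ x ∈ Bset (Ψ n) (G n), x ≤ b n) ∧
      ∀ n ≤ N, (∀ t, (∀ x ∈ Aset (Ψ n) (G n), x ≤ t) → a n ≤ t + ε ^ 4) ∧
        ∀ t, (∀ x ∈ Bset (Ψ n) (G n), x ≤ t) → b n ≤ max t (ε ^ 3) + ε ^ 4 := by
  have hi : L ≤ ε⁻¹ := by rw [← one_div, le_div_iff₀ h0]; exact hL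
  have hi2 : 2 ≤ ε⁻¹ := by rw [← one_div, le_div_iff₀ h0]; linarith
  have hA : L ≤ ε⁻¹ ^ 6 := hi.trans (le_self_pow₀ (by linarith) (by norm_num))
  have hB : 2 * L ^ 2 ≤ ε⁻¹ ^ 6 :=
    calc 2 * L ^ 2 ≤ ε⁻¹ * ε⁻¹ ^ 2 :=
          mul_le_mul hi2 (pow_le_pow_left₀ (by linarith) hi 2) (by positivity) (by positivity)
      _ = ε⁻¹ ^ 3 := by ring
      _ ≤ ε⁻¹ ^ 6 := pow_le_pow_right₀ (by linarith) (by norm_num)
  have e5 : 0 < ε ^ 5 := by positivity
  have hn5 : ∀ n : ℕ, 0 ≤ (n : ℝ) * ε ^ 5 := fun n => by positivity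
  have hn4 : ∀ n ≤ N, (n : ℝ) * ε ^ 5 ≤ ε ^ 4 := fun n hn => by
    have : (n : ℝ) * ε ≤ 1 := (mul_le_mul_of_nonneg_right (by exact_mod_cast hn) h0.le).trans hN
    calc (n : ℝ) * ε ^ 5 = n * ε * ε ^ 4 := by ring
      _ ≤ 1 * ε ^ 4 := mul_le_mul_of_nonneg_right this (by positivity)
      _ = _ := one_mul _
  have e4 : ε ^ 4 ≤ 1 := pow_le_one₀ h0.le (by linarith)
  have e3 : ε ^ 3 ≤ 1 := pow_le_one₀ h0.le (by linarith)
  have bA : ∀ n, BddAbove (Aset (Ψ n) (G n)) := fun n => ⟨L, Aset_le (T.sm _) _⟩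
  have bB : ∀ n, BddAbove (Bset (Ψ n) (G n)) := fun n => ⟨_, Bset_le (T.sm _) _⟩
  have lA : ∀ n ≤ N, ∀ t, (∀ x ∈ Aset (Ψ n) (G n), x ≤ t) → sSup (Aset (Ψ n) (G n)) ≤ t :=
    fun n hn t ht => csSup_le (Aset_ne hd _ (level_ne T hm n hn)) ht
  have lB : ∀ n ≤ N, ∀ t, (∀ x ∈ Bset (Ψ n) (G n), x ≤ t) → sSup (Bset (Ψ n) (G n)) ≤ t :=
    fun n hn t ht => csSup_le (Bset_ne hd _ (level_ne T hm n hn)) ht
  refine ⟨fun n => sSup (Aset (Ψ n) (G n)) + n * ε ^ 5,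
    fun n => max (sSup (Bset (Ψ n) (G n))) (ε ^ 3) + n * ε ^ 5, fun n n' hn hn' => ?_,
    fun n hn hn' => ?_, fun n => ?_, fun n hn => ⟨?_, ?_⟩, fun n => ⟨fun x hx => ?_, fun x hx => ?_⟩,
    fun n hn => ⟨fun t ht => ?_, fun t ht => ?_⟩⟩
  · induction n', hn using Nat.le_induction with
    | base => exact ⟨le_rfl, le_rfl⟩
    | succ k hk ih =>
      obtain ⟨i1, i2⟩ := ih (by omega)
      have a1 := monoA hd T h0 hA hm (n := k) (by omega)
      have a2 := monoB hd T h0 hB hm (n := k) (by omega)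
      have a3 : max (sSup (Bset (Ψ k) (G k))) (ε ^ 3) ≤
          max (sSup (Bset (Ψ (k + 1)) (G (k + 1)))) (ε ^ 3) + ε ^ 5 :=
        max_le (by linarith [le_max_left (sSup (Bset (Ψ (k + 1)) (G (k + 1)))) (ε ^ 3)])
          (by linarith [le_max_right (sSup (Bset (Ψ (k + 1)) (G (k + 1)))) (ε ^ 3)])
      dsimp only at i1 i2 ⊢
      push_cast
      constructor <;> linarith
  · obtain ⟨k, rfl⟩ : ∃ k, n = k + 1 := ⟨n - 1, by omega⟩
    obtain ⟨y₀, hy₀⟩ := level_ne T hm k (by omega)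
    have := hlow k (by omega) y₀ hy₀ _ fun y hy hF f v hf hv =>
      le_csSup (bA _) (nxtA T h0 (by omega) hy₀ hy hF hf hv)
    exact this.trans (le_add_of_nonneg_right (hn5 _))
  · exact (le_max_right _ _).trans (le_add_of_nonneg_right (hn5 _))
  · have := lA n hn L (Aset_le (T.sm _) _)
    have := hn4 n hn
    dsimp only
    linarith
  · have a1 := lB n hn _ (Bset_le (T.sm _) _)
    have a2 := hn4 n hn
    have a3 : 1 ≤ L ^ 2 := one_le_pow₀ hL1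
    have a4 : max (sSup (Bset (Ψ n) (G n))) (ε ^ 3) ≤ 2 * L ^ 2 := max_le a1 (by linarith)
    dsimp only
    linarith
  · exact (le_csSup (bA n) hx).trans (le_add_of_nonneg_right (hn5 _))
  · exact ((le_csSup (bB n) hx).trans (le_max_left _ _)).trans (le_add_of_nonneg_right (hn5 _))
  · exact add_le_add (lA n hn t ht) (hn4 n hn)
  · exact add_le_add (max_le_max (lB n hn t ht) le_rfl) (hn4 n hn)

end tower

end Pig

open Pig

theorem pig (d : ℕ) (hd : 2 ≤ d) (h1 : BadStmt d) (h2 : MonoStmt d) (h3 : LowStmt d)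
    (h4 : VolStmt d) (h5 : StepStmt d) : PigStmt d := by
  obtain ⟨C, hC, h4⟩ := h4
  refine small_iff.2 ?_
  filter_upwards [small_iff.1 h1, small_iff.1 h2, small_iff.1 h3, small_iff.1 h4, small_iff.1 h5,
    ev_pos, ev_mul_le 3, ev_mul_le (200 * C), ev_le_lg 17, ev_le_lg (16 * C ^ 4)]
    with ε h1 h2 h3 h4 h5 h0 he3 heC hl hlC
  intro δ L S I N₁ Ψ G hnet hεδ hδ hL1 hL hN hI hN₁ hg hnum T
  have he : ε ≤ 1 / 2 := by linarith
  have hm : ∀ n < I * N₁, ∀ y₀ ∈ G n, Mn S (Ψ n) y₀ := fun n hn y₀ hy₀ => by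
    have a1 := h1 δ L S (Ψ n) y₀ hL1 hL (T.loc n hn y₀ hy₀)
    have a2 : Continuous fun y => Bad S (Ψ n y) := (continuous_Bad h0 he S).comp (T.sm n).cont
    have a3 : closedBall y₀ 1 ⊆ ball y₀ 4 := closedBall_subset_ball (by norm_num)
    refine ⟨?_, fun F H hF hB hH => ?_⟩
    · obtain ⟨y, hy, hb⟩ :=
        (h2 (fun _ => 0) _ y₀ continuous_const a2 (fun y => (Bad_mem h0 S _).1) a1).1
      exact ⟨y, a3 hy, far_of_Bad h0 he S hb⟩
    · exact (h2 F _ y₀ hF a2 (fun y => (Bad_mem h0 S _).1) a1).2 H hB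
        fun y hy hb => hH y (a3 hy) (far_of_Bad h0 he S hb)
  obtain ⟨a, b, hmo, ha0, hb0, hub, hmem, hlub⟩ := seqs hd T h0 he hL1 hL hN hm
    fun n hn y₀ hy₀ a ha => h3 δ L a S (Ψ n) y₀ hL1 hL (T.loc n hn y₀ hy₀) ha
  have hi : L ≤ ε⁻¹ := by rw [← one_div, le_div_iff₀ h0]; exact hL
  have hle : ∀ i ≤ I, i * N₁ ≤ I * N₁ := fun i hi => Nat.mul_le_mul_right _ hi
  have hge : ∀ i, 1 ≤ i → 1 ≤ i * N₁ := fun i hi => Nat.mul_pos hi hN₁
  obtain ⟨i₀, hi₀, hi₁, r1, r2⟩ := block (p := fun i => a (i * N₁)) (q := fun i => b (i * N₁)) h0 hl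
    hI (fun i _ hi => (hmo _ _ (Nat.mul_le_mul_right _ (by omega)) (hle _ hi)).1)
    (fun i _ hi => (hmo _ _ (Nat.mul_le_mul_right _ (by omega)) (hle _ hi)).2)
    (fun i hi hi' => ha0 _ (hge i hi) (hle i hi')) (fun i _ _ => hb0 _)
    ((hub _ le_rfl).1.trans (by linarith))
    ((hub _ le_rfl).2.trans (by
      have := pow_le_pow_left₀ (by linarith) hi 2
      linarith))
  have hn1 : i₀ * N₁ + N₁ ≤ I * N₁ := by
    have := hle (i₀ + 1) hi₁
    rwa [add_one_mul] at this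
  rw [add_one_mul] at r1 r2
  have hn0 := hge i₀ hi₀
  generalize i₀ * N₁ = n₀ at hn1 r1 r2 hn0
  have hM0 := ha0 (n₀ + N₁) (by omega) hn1
  have hM0' := hb0 (n₀ + N₁)
  have hML := (hub _ hn1).1
  have hA : ∀ k ≤ N₁, ∀ x ∈ Aset (Ψ (n₀ + k)) (G (n₀ + k)), x ≤ a (n₀ + N₁) := fun k hk x hx =>
    ((hmem _).1 x hx).trans (hmo _ _ (by omega) hn1).1
  have hB : ∀ k ≤ N₁, ∀ x ∈ Bset (Ψ (n₀ + k)) (G (n₀ + k)), x ≤ b (n₀ + N₁) := fun k hk x hx =>
    ((hmem _).2 x hx).trans (hmo _ _ (by omega) hn1).2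
  generalize a (n₀ + N₁) = M at r1 hM0 hML hA
  generalize b (n₀ + N₁) = M' at r2 hM0' hB
  have e2 : 0 < ε ^ 2 := by positivity
  have e3 : 0 < ε ^ 3 := by positivity
  have hM : 0 < M := by linarith
  have hM' : 0 < M' := by linarith
  obtain ⟨n, rfl⟩ : ∃ n, d = n + 2 := ⟨d - 2, by omega⟩
  have hd1 : n + 2 - 1 = n + 1 := rfl
  rw [hd1] at hnum
  obtain ⟨ϱ, hϱ, hϱM⟩ : ∃ ϱ : ℝ, 0 < ϱ ∧ ϱ ^ (n + 1) = M :=
    ⟨M ^ (((n + 1 : ℕ) : ℝ)⁻¹), Real.rpow_pos_of_pos hM _,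
      Real.rpow_inv_natCast_pow hM.le (by omega)⟩
  have hn₀ : n₀ < I * N₁ := by omega
  -- the volume inequality at the first level of the block
  have hvol : M ≤ 2 * C * ϱ * M' := by
    have a1 := (hlub n₀ hn₀.le).1 (C * ϱ * M') (by
      rintro x ⟨y₀, hy₀, f, v, hf, hv, rfl⟩
      refine h4 δ L M M' ϱ S (Ψ n₀) y₀ hL1 hL (T.loc _ hn₀ y₀ hy₀) hM0 hM0' hϱ
        (by rw [hd1, hϱM]) (fun y hy hF => ⟨fun f v hf hv => ?_, fun i j v' v hv => ?_⟩) f v hf hv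
      · exact hA 1 hN₁ _ (nxtA T h0 hn₀ hy₀ hy hF hf hv)
      · exact hB 1 hN₁ _ (nxtB T h0 hn₀ hy₀ hy hF i j hv))
    have a2 : ε ^ 4 ≤ M / 9 := by
      have : ε ^ 2 ≤ 1 / 9 := by nlinarith
      nlinarith
    linarith
  have har := area_lb h0 (by linarith) hϱ hϱM hM0 hvol
  have he3' : ε ^ 3 ≤ M' / 100 := by
    have : ε * ε ^ 2 ≤ ε * (2 * C * M') := mul_le_mul_of_nonneg_left har h0.le
    nlinarith
  have he4 : ε ^ 4 ≤ ε ^ 3 := pow_le_pow_of_le_one h0.le (by linarith) (by norm_num)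
  obtain ⟨x, hx, hx'⟩ : ∃ x ∈ Bset (Ψ n₀) (G n₀), M' / 2 < x := by
    by_contra hc
    push Not at hc
    have a1 := (hlub n₀ hn₀.le).2 _ hc
    rw [max_eq_left (by linarith)] at a1
    linarith
  obtain ⟨y₁, hy₁, i, j, v', v, hij, hv, rfl⟩ := exists_lt hx (by linarith)
  have hN₁' : (0 : ℝ) < N₁ := by exact_mod_cast hN₁
  have hg0 : 0 < 11 / (N₁ : ℝ) := by positivity
  have hεg : ε ≤ 11 / (N₁ : ℝ) := by
    have a1 : (N₁ : ℝ) ≤ (I * N₁ : ℕ) := by exact_mod_cast (by omega : N₁ ≤ I * N₁)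
    rw [le_div_iff₀ hN₁']
    nlinarith
  have hg1 : 11 / (N₁ : ℝ) ≤ 1 / 2 := by
    have a1 : δ ^ 4 ≤ 1 := pow_le_one₀ (by linarith) (by linarith)
    have a2 : lg ε ≤ lg ε ^ 11 := le_self_pow₀ (by linarith) (by norm_num)
    nlinarith
  refine gains T h0 (by linarith) hn1 hM hM' hg0 hg1 (le_of_eq (by field_simp)) hij hA hB
    ⟨_, ⟨y₁, hy₁, 1, 0, v', v, by norm_num, hv, rfl⟩, ?_⟩
    fun k hk y₀ hy₀ H c₁ c₂ u' u hH hc hu b1 b2 b3 => ?_
  · refine le_trans ?_ (le_val h0 (by linarith) hM)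
    rw [le_div_iff₀ hM']
    linarith
  · exact h5 δ L M M' H _ c₁ c₂ S (Ψ k) y₀ u' u i j hnet hij hεδ hδ hL1 hL (T.loc k hk y₀ hy₀) hM0
      hM0' hH hεg hg (numeric (by linarith) hϱ hg0.le hϱM hML hvol (by linarith) hlC hnum) hc hu
      b1 b2 b3

end Pool.Agent.MP_20bec2_an.h7

end
end MrgPart2

-- marker of a merged file
example : 731051 + 326191 = 731051 + 326191 := rfl
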