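import Pool.Agent.MP_20bec2_an.h7.Net

-- ======== part 0: formerly Pool.Agent.MP_20bec2_an.h7.Area
section MrgPart0

/-! The area is at most the square of the length. -/

set_option autoImplicit false

open MeasureTheory Set Metric Filter Topology

noncomputable section

namespace Pool.Agent.MP_20bec2_an.h7

namespace Area

variable {d : ℕ}

theorem ii {κ : ℝ → ℝ} {G : E d → ℝ} (hκ : Continuous κ) (hG : Continuous G) (u y : E d)
    (a b : ℝ) : IntervalIntegrable (fun τ => κ τ • G (y + τ • u)) volume a b :=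
  (hκ.smul (hG.comp (by fun_prop))).intervalIntegrable _ _

theorem ln_add {κ : ℝ → ℝ} {G G' : E d → ℝ} (hκ : Continuous κ) (hG : Continuous G)
    (hG' : Continuous G') (T : ℝ) (u y : E d) :
    ln T u κ (fun z => G z + G' z) y = ln T u κ G y + ln T u κ G' y := by
  unfold ln
  rw [← intervalIntegral.integral_add (ii hκ hG u y _ _) (ii hκ hG' u y _ _)]
  simp only [smul_add]

theorem ln_sub {κ : ℝ → ℝ} {G G' : E d → ℝ} (hκ : Continuous κ) (hG : Continuous G)
    (hG' : Continuous G') (T : ℝ) (u y : E d) :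
    ln T u κ (fun z => G z - G' z) y = ln T u κ G y - ln T u κ G' y := by
  unfold ln
  rw [← intervalIntegral.integral_sub (ii hκ hG u y _ _) (ii hκ hG' u y _ _)]
  simp only [smul_sub]

theorem ln_one_mul (c : ℝ) (G : E d → ℝ) (T : ℝ) (u y : E d) :
    ln T u (fun _ => 1) (fun z => c * G z) y = c * ln T u (fun _ => 1) G y := by
  unfold ln
  simp only [one_smul]
  exact intervalIntegral.integral_const_mul _ _

theorem ln_th_ge {K A : E d → ℝ} (hK : Continuous K) (hA : Continuous A) (hA0 : ∀ z, 0 ≤ A z)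
    {r : ℝ} (hr : 0 < r) (u y : E d) (c : ℝ)
    (h : ∀ τ ∈ Icc (-(3 * r)) (3 * r), c - A (y + τ • u) ≤ K (y + τ • u)) :
    3 * r * c - ln r u (fun _ => 1) A y ≤ ln r u (th r) K y := by
  have e : 3 * r * c = ∫ τ in (-(3 * r))..(3 * r), th r τ * c := by
    rw [intervalIntegral.integral_mul_const, integral_th hr]
  have i1 : IntervalIntegrable (fun τ => th r τ * c) volume (-(3 * r)) (3 * r) :=
    ((continuous_th r).mul continuous_const).intervalIntegrable _ _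
  unfold ln
  rw [e, ← intervalIntegral.integral_sub i1 (ii continuous_const hA u y _ _)]
  refine intervalIntegral.integral_mono_on (by linarith) (i1.sub (ii continuous_const hA u y _ _))
    (ii (continuous_th r) hK u y _ _) fun τ hτ => ?_
  have h1 := th_mem r τ
  have h2 := h τ hτ
  have h3 := hA0 (y + τ • u)
  simp only [smul_eq_mul]
  nlinarith [mul_le_mul_of_nonneg_left h2 h1.1, mul_le_mul_of_nonneg_right h1.2 h3]

theorem var_le {P N : E d → ℝ} (hP : ContDiff ℝ 1 P) (hN : Continuous N) {v : E d}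
    (h : ∀ z, |dd P v z| ≤ N z) {r : ℝ} (z : E d) {τ : ℝ} (hτ : τ ∈ Icc (-(3 * r)) (3 * r)) :
    |P (z + τ • v) - P z| ≤ ln r v (fun _ => 1) N z := by
  have hr : -(3 * r) ≤ 3 * r := hτ.1.trans hτ.2
  have c1 : Continuous fun t : ℝ => dd P v (z + t • v) := (continuous_dd hP v).comp (by fun_prop)
  have c2 : Continuous fun t : ℝ => N (z + t • v) := hN.comp (by fun_prop)
  have e := intervalIntegral.integral_eq_sub_of_hasDerivAt (a := 0) (b := τ)
    (f := fun t : ℝ => P (z + t • v)) (fun t _ => hasDerivAt_line hP v z t)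
    (c1.intervalIntegrable _ _)
  simp only [zero_smul, add_zero] at e
  rw [← e]
  have h1 : ‖∫ t in (0 : ℝ)..τ, dd P v (z + t • v)‖ ≤ |∫ t in (0 : ℝ)..τ, N (z + t • v)| :=
    intervalIntegral.norm_integral_le_abs_of_norm_le (ae_of_all _ fun t => h _)
      (c2.intervalIntegrable _ _)
  have h0 : ∀ t : ℝ, 0 ≤ N (z + t • v) := fun t => (abs_nonneg _).trans (h _)
  have h2 : |∫ t in (0 : ℝ)..τ, N (z + t • v)| ≤ |∫ t in (-(3 * r))..(3 * r), N (z + t • v)| := by
    refine intervalIntegral.abs_integral_mono_interval ?_ (ae_of_all _ fun t => h0 t)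
      (c2.intervalIntegrable _ _)
    rw [uIoc_of_le hr]
    intro t ht
    rw [mem_uIoc] at ht
    have := hτ.1
    have := hτ.2
    rcases ht with ht | ht
    · exact ⟨by linarith [ht.1], by linarith [ht.2]⟩
    · exact ⟨by linarith [ht.1], by linarith [ht.2]⟩
  rw [abs_of_nonneg (intervalIntegral.integral_nonneg hr fun t _ => h0 t)] at h2
  unfold ln
  simp only [one_smul]
  exact h1.trans h2

/-- nonnegative, bounded by `B`, of mean at most `m`, and `B` is not too large -/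
structure Gd (r : ℝ) (y₀ : E d) (G : E d → ℝ) (B m : ℝ) : Prop where
  c : Continuous G
  nn : ∀ z, 0 ≤ G z
  le : ∀ z, G z ≤ B
  mean : cv 1 G y₀ ≤ m
  sm : Cw d * B * r ≤ m / 200

theorem Gd.ln {r : ℝ} {y₀ : E d} {G : E d → ℝ} {B m : ℝ} (h : Gd r y₀ G B m) (hr : 0 < r)
    {u : E d} (hu : ‖u‖ = 1) :
    Gd r y₀ (ln r u (fun _ => 1) G) (6 * r * B) (61 / 10 * r * m) := by
  have hB : 0 ≤ B := (h.nn y₀).trans (h.le y₀)
  have hm : 0 ≤ m := by
    have : 0 ≤ Cw d * B * r := by have := one_le_Cw (d := d); positivity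
    linarith [h.sm]
  refine ⟨continuous_ln continuous_const h.c r u, fun z => ?_, fun z => ?_, ?_, ?_⟩
  · exact intervalIntegral.integral_nonneg (by linarith) fun t _ => by simpa using h.nn _
  · have : h7.ln r u (fun _ => 1) G z ≤ ∫ _ in (-(3 * r))..(3 * r), B :=
      intervalIntegral.integral_mono_on (by linarith) (ii continuous_const h.c u z _ _)
        (by simp) fun t _ => by simpa using h.le _
    rw [intervalIntegral.integral_const, smul_eq_mul] at this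
    linarith
  · have h1 := cv_ln_one_le h.c hr.le (B := B)
      (fun z => by rw [abs_of_nonneg (h.nn z)]; exact h.le z) hu y₀
    have h2 := (abs_le.1 h1).2
    have h3 := mul_le_mul_of_nonneg_left h.mean hr.le
    have h4 := mul_le_mul_of_nonneg_left h.sm hr.le
    nlinarith [mul_nonneg hr.le hm]
  · have h4 := mul_le_mul_of_nonneg_left h.sm hr.le
    nlinarith [mul_nonneg hr.le hm]

theorem Gd.add {r : ℝ} {y₀ : E d} {G G' : E d → ℝ} {B m B' m' : ℝ} (h : Gd r y₀ G B m)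
    (h' : Gd r y₀ G' B' m') : Gd r y₀ (fun z => G z + G' z) (B + B') (m + m') :=
  ⟨h.c.add h'.c, fun z => add_nonneg (h.nn z) (h'.nn z), fun z => add_le_add (h.le z) (h'.le z),
    by rw [cv_add h.c h'.c]; exact add_le_add h.mean h'.mean, by nlinarith [h.sm, h'.sm]⟩

theorem Gd.mul {r : ℝ} {y₀ : E d} {G : E d → ℝ} {B m c : ℝ} (h : Gd r y₀ G B m) (hc : 0 ≤ c) :
    Gd r y₀ (fun z => c * G z) (c * B) (c * m) :=
  ⟨continuous_const.mul h.c, fun z => mul_nonneg hc (h.nn z),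
    fun z => mul_le_mul_of_nonneg_left (h.le z) hc,
    by rw [cv_const_mul]; exact mul_le_mul_of_nonneg_left h.mean hc,
    by nlinarith [mul_le_mul_of_nonneg_left h.sm hc]⟩

theorem Gd.const {r : ℝ} (y₀ : E d) {c : ℝ} (hc : 0 ≤ c) (hr : Cw d * r ≤ 1 / 200) :
    Gd r y₀ (fun _ => c) c c :=
  ⟨continuous_const, fun _ => hc, fun _ => le_rfl, (cv_const 1 c y₀).le,
    by nlinarith [mul_le_mul_of_nonneg_left hr hc]⟩

/-- upper bound for the window integral of an exact form -/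
theorem upper {G₁ G₂ W : E d → ℝ} (h₁ : ContDiff ℝ 1 G₁) (h₂ : ContDiff ℝ 1 G₂)
    (hW : Continuous W) (b₁ : ∀ z, |G₁ z| ≤ W z) (b₂ : ∀ z, |G₂ z| ≤ W z) {r : ℝ} (hr : 0 < r)
    (u u' y : E d) :
    ln r u (th r) (ln r u' (th r) fun z => dd G₂ u z - dd G₁ u' z) y ≤
      2 * ln r u (fun _ => 1) (ln r u' (fun _ => 1) fun z => 2 / r * W z) y := by
  have t1 : th r (-(3 * r)) = 0 :=
    th_eq_zero hr (by rw [abs_neg, abs_of_pos (by linarith)]; linarith)
  have t2 : th r (3 * r) = 0 := th_eq_zero hr (by rw [abs_of_pos (by linarith)]; linarith)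
  have cW : Continuous fun z => 2 / r * W z := continuous_const.mul hW
  have cV := continuous_ln (κ := fun _ => (1 : ℝ)) continuous_const cW r u'
  have d2 := contDiff_ln (continuous_th r) h₂ r u'
  have e : (ln r u' (th r) fun z => dd G₂ u z - dd G₁ u' z) =
      fun z => dd (ln r u' (th r) G₂) u z + ln r u' (th' r) G₁ z := by
    funext z
    rw [ln_sub (continuous_th r) (continuous_dd h₂ u) (continuous_dd h₁ u'),
      ln_dd (hasDerivAt_th r) (continuous_th' r) h₁ t1 t2, dd_ln (continuous_th r) h₂,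
      sub_neg_eq_add]
  rw [e, ln_add (continuous_th r) (continuous_dd d2 u)
    (continuous_ln (continuous_th' r) h₁.continuous r u'),
    ln_dd (hasDerivAt_th r) (continuous_th' r) d2 t1 t2]
  have k1 : ‖ln r u (th' r) (ln r u' (th r) G₂) y‖ ≤
      ln r u (fun _ => 1) (ln r u' (fun _ => 1) fun z => 2 / r * W z) y := by
    refine norm_ln_le continuous_const cV hr.le u y fun τ _ => ?_
    rw [one_mul, ln_one_mul]
    refine mul_le_mul (abs_th'_le hr τ) ?_ (norm_nonneg _) (by positivity)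
    refine norm_ln_le continuous_const hW hr.le u' _ fun t _ => ?_
    rw [abs_of_nonneg (th_mem r t).1]
    exact mul_le_mul (th_mem r t).2 (b₂ _) (norm_nonneg _) zero_le_one
  have k2 : ‖ln r u (th r) (ln r u' (th' r) G₁) y‖ ≤
      ln r u (fun _ => 1) (ln r u' (fun _ => 1) fun z => 2 / r * W z) y := by
    refine norm_ln_le continuous_const cV hr.le u y fun τ _ => ?_
    rw [abs_of_nonneg (th_mem r τ).1]
    refine mul_le_mul (th_mem r τ).2 ?_ (norm_nonneg _) zero_le_one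
    refine norm_ln_le continuous_const cW hr.le u' _ fun t _ => ?_
    rw [one_mul]
    exact mul_le_mul (abs_th'_le hr t) (b₁ _) (norm_nonneg _) (by positivity)
  rw [Real.norm_eq_abs] at k1 k2
  linarith [(abs_le.1 k1).1, (abs_le.1 k2).2]

/-- the geometric half: a lower bound for the area against the mean length -/
theorem geo {q p N : E d → ℝ} {u' u y₀ : E d} {L s r Λ X B : ℝ} (hq : Sm L q) (hp : Sm L p)
    (hu' : ‖u'‖ = 1) (hu : ‖u‖ = 1) (hs : 0 ≤ s) (hr : 0 < r) (hΛ : 0 < Λ) (hX : 0 ≤ X)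
    (hN : Gd r y₀ N L Λ) (hJ : Gd r y₀ (fun z => |cv s (jac q p u' u) z - X|) B (X / 20))
    (n1 : ∀ z, |cv s (dd p u) z| ≤ N z) (n2 : ∀ z, |cv s (dd p u') z| ≤ N z)
    (n3 : ∀ z, |cv s (dd q u) z| ≤ N z) (n4 : ∀ z, |cv s (dd q u') z| ≤ N z)
    (e1 : Cw d * r ≤ 1 / 200) (e2 : L * s * L ≤ 100 * r * Λ * Λ)
    (e3 : 2 * L * s * (2 * L ^ 2) ≤ r * Λ * X) : X ≤ 10 ^ 6 * Λ ^ 2 := by
  have hL := hq.nonneg
  set ρ := 100 * r * Λ with hρ
  have hρ0 : 0 < ρ := by positivity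
  set J := cv s (jac q p u' u) with hJdef
  have cj := continuous_jac hq.cd1 hp.cd1 u' u
  set W : E d → ℝ := fun z => ρ * N z + L * s * L with hW
  have gW : Gd r y₀ W (ρ * L + L * s * L) (ρ * Λ + L * s * L) :=
    (hN.mul hρ0.le).add (Gd.const y₀ (by positivity) e1)
  have gU := ((gW.mul (c := 2 / r) (by positivity)).ln hr hu').ln hr hu
  have gB := hN.ln hr hu
  have gA := ((hN.ln hr hu').mul (c := 3 * r * (X / ρ)) (by positivity)).add (hJ.ln hr hu')
  have gA' := gA.ln hr hu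
  have hP : ContDiff ℝ 1 (cv s p) := contDiff_cv hp.cd1 s
  have key : ∀ y, 3 * r * (3 * r * (X - X / 100 - X / ρ * ln r u (fun _ => 1) N y)) -
      ln r u (fun _ => 1) (fun z => 3 * r * (X / ρ) * ln r u' (fun _ => 1) N z +
        ln r u' (fun _ => 1) (fun z => |J z - X|) z) y ≤
      2 * ln r u (fun _ => 1) (ln r u' (fun _ => 1) fun z => 2 / r * W z) y := by
    intro y
    set c := cv s p y with hc
    set α : E d → ℝ := fun z => ρ * Real.sin ((p z - c) / ρ) with hα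
    have hφ : ∀ t, HasDerivAt (fun t : ℝ => ρ * Real.sin ((t - c) / ρ))
        (Real.cos ((t - c) / ρ)) t := fun t => by
      have := ((Real.hasDerivAt_sin _).comp t
        (((hasDerivAt_id t).sub_const c).div_const ρ)).const_mul ρ
      refine this.congr_deriv ?_
      simp only [id]
      field_simp
    have dα : ContDiff ℝ 1 α := by
      have := hp.cd1
      simp only [hα]
      fun_prop
    have ddα : ∀ v z, dd α v z = dd p v z * Real.cos ((p z - c) / ρ) := fun v z =>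
      dd_comp (φ := fun t : ℝ => ρ * Real.sin ((t - c) / ρ)) hp.cd1 v z (hφ _)
    have bα : ∀ z, |α z| ≤ ρ := fun z => by
      simp only [hα]
      rw [abs_mul, abs_of_pos hρ0]
      exact mul_le_of_le_one_right hρ0.le (Real.abs_sin_le_one _)
    have lα : ∀ z z', |α z - α z'| ≤ L * ‖z - z'‖ := fun z z' => by
      simp only [hα]
      rw [← mul_sub, abs_mul, abs_of_pos hρ0]
      have h1 := Real.abs_sin_sub_sin_le ((p z - c) / ρ) ((p z' - c) / ρ)
      have h2 : (p z - c) / ρ - (p z' - c) / ρ = (p z - p z') / ρ := by ring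
      rw [h2, abs_div, abs_of_pos hρ0] at h1
      have h3 := hp.lip z z'
      rw [Real.norm_eq_abs] at h3
      calc _ ≤ ρ * (|p z - p z'| / ρ) := mul_le_mul_of_nonneg_left h1 hρ0.le
        _ = |p z - p z'| := by field_simp
        _ ≤ _ := h3
    have bG : ∀ v, ‖v‖ = 1 → (∀ z, |cv s (dd q v) z| ≤ N z) →
        ∀ z, |cv s (fun z => dd q v z • α z) z| ≤ W z := fun v hv hn z => by
      have h1 := cv_smul_sub (continuous_dd hq.cd1 v) dα.continuous (B := L) (η := L * s) hs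
        (y := z) (α z) (fun w _ => hq.dd_le hv w) fun w hw => by
          rw [mem_closedBall, dist_eq_norm] at hw
          exact (lα w z).trans (mul_le_mul_of_nonneg_left hw hL)
      rw [Real.norm_eq_abs, smul_eq_mul] at h1
      have h2 : |cv s (dd q v) z * α z| ≤ N z * ρ := by
        rw [abs_mul]
        exact mul_le_mul (hn z) (bα z) (abs_nonneg _) (hN.nn z)
      have h3 := abs_sub_abs_le_abs_sub (cv s (fun z => dd q v z • α z) z) (cv s (dd q v) z * α z)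
      simp only [hW]
      linarith
    have dG : ∀ v, ContDiff ℝ 1 (cv s fun z => dd q v z • α z) := fun v =>
      contDiff_cv ((contDiff_dd hq.cd v).smul dα) s
    refine le_trans ?_ (upper (dG u) (dG u') gW.c (bG u hu n3) (bG u' hu' n4) hr u u' y)
    have cK : Continuous fun z => dd (cv s fun z => dd q u' z • α z) u z -
        dd (cv s fun z => dd q u z • α z) u' z :=
      (continuous_dd (dG u') u).sub (continuous_dd (dG u) u')
    refine ln_th_ge (continuous_ln (continuous_th r) cK r u') gA.c gA.nn hr u y _ fun τ hτ => ?_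
    have := ln_th_ge cK hJ.c hJ.nn hr u' (y + τ • u) (X - X / 100 - X / ρ *
      (ln r u (fun _ => 1) N y + ln r u' (fun _ => 1) N (y + τ • u))) fun t ht => ?_
    · linarith
    set z := y + τ • u + t • u' with hz
    rw [cv_curl dα hq.cd s u u' z]
    have e : (fun z => dd q u' z • dd α u z - dd q u z • dd α u' z) =
        fun z => Real.cos ((p z - c) / ρ) * jac q p u' u z := by
      funext w
      simp only [ddα, jac, smul_eq_mul]
      ring
    rw [e]
    have cφ : Continuous fun z => Real.cos ((p z - c) / ρ) := by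
      have := hp.cont
      fun_prop
    have h1 := cv_mul_sub cj cφ (B := 2 * L ^ 2) (η := 2 * L * s / ρ) hs (y := z)
      (Real.cos ((cv s p z - c) / ρ)) (fun w _ => abs_jac_le hq hp hu' hu w) fun w hw => by
        rw [mem_closedBall, dist_eq_norm] at hw
        refine (Real.abs_cos_sub_cos_le _ _).trans ?_
        have h2 : (p w - c) / ρ - (cv s p z - c) / ρ = (p w - cv s p z) / ρ := by ring
        rw [h2, abs_div, abs_of_pos hρ0]
        refine div_le_div_of_nonneg_right ?_ hρ0.le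
        have h3 := hp.lip w z
        have h4 := hp.cv_sub hs z
        rw [Real.norm_eq_abs] at h3 h4
        have h5 := mul_le_mul_of_nonneg_left hw hL
        have h6 := abs_sub_le (p w) (p z) (cv s p z)
        rw [abs_sub_comm (p z)] at h6
        linarith
    have h2 : 2 * L * s / ρ * (2 * L ^ 2) ≤ X / 100 := by
      rw [div_mul_eq_mul_div, div_le_iff₀ hρ0]
      linarith
    have v1 := var_le hP hN.c (v := u) (fun w => by rw [dd_cv hp.cd1]; exact n1 w) y hτ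
    have v2 := var_le hP hN.c (v := u') (fun w => by rw [dd_cv hp.cd1]; exact n2 w)
      (y + τ • u) ht
    have v3 : |(cv s p z - c) / ρ| ≤
        (ln r u (fun _ => 1) N y + ln r u' (fun _ => 1) N (y + τ • u)) / ρ := by
      rw [abs_div, abs_of_pos hρ0]
      refine div_le_div_of_nonneg_right ?_ hρ0.le
      linarith [abs_sub_le (cv s p z) (cv s p (y + τ • u)) c]
    set a := (cv s p z - c) / ρ
    have c1 : 1 - |a| ≤ Real.cos a := by
      have := Real.abs_cos_sub_cos_le 0 a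
      rw [Real.cos_zero, zero_sub, abs_neg] at this
      linarith [le_abs_self (1 - Real.cos a)]
    have c2 : |Real.cos a * (J z - X)| ≤ |J z - X| := by
      rw [abs_mul]
      exact mul_le_of_le_one_left (abs_nonneg _) (Real.abs_cos_le_one a)
    have c3 := mul_le_mul_of_nonneg_left (c1.trans' (sub_le_sub_left v3 1)) hX
    have c4 : X / ρ * (ln r u (fun _ => 1) N y + ln r u' (fun _ => 1) N (y + τ • u)) =
        X * ((ln r u (fun _ => 1) N y + ln r u' (fun _ => 1) N (y + τ • u)) / ρ) := by ring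
    rw [c4]
    nlinarith [(abs_le.1 h1).1, (abs_le.1 c2).1]
  have cB := gB.c
  have m := cv_mono (by have := gA'.c; fun_prop) (by have := gU.c; fun_prop) zero_le_one
    (y := y₀) fun y _ => key y
  rw [cv_sub (by fun_prop) gA'.c, cv_const_mul, cv_const_mul, cv_const_mul,
    cv_sub continuous_const (by fun_prop), cv_const, cv_const_mul] at m
  have m1 := gU.mean
  have m2 := gA'.mean
  have m3 : X / ρ * cv 1 (ln r u (fun _ => 1) N) y₀ ≤ 61 / 1000 * X := by
    refine (mul_le_mul_of_nonneg_left gB.mean (by positivity)).trans (le_of_eq ?_)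
    rw [hρ]; field_simp; ring
  have m4 : 61 / 10 * r * (3 * r * (X / ρ) * (61 / 10 * r * Λ) + 61 / 10 * r * (X / 20)) =
      r ^ 2 * X * (3721 / 100 * (3 / 100 + 1 / 20)) := by
    rw [hρ]; field_simp; ring
  have m5 : 61 / 10 * r * (61 / 10 * r * (2 / r * (ρ * Λ + L * s * L))) ≤
      r ^ 2 * (15000 * Λ ^ 2) := by
    have : 61 / 10 * r * (61 / 10 * r * (2 / r * (ρ * Λ + L * s * L))) =
        3721 / 50 * r * (ρ * Λ + L * s * L) := by field_simp; ring
    rw [this]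
    have h2 := mul_le_mul_of_nonneg_left e2 hr.le
    have h3 : 0 ≤ r ^ 2 * Λ ^ 2 := by positivity
    rw [hρ] at h2 ⊢
    nlinarith
  have hr2 : 0 < r ^ 2 := by positivity
  have m6 : r ^ 2 * (5 * X) ≤ r ^ 2 * (30000 * Λ ^ 2) := by
    have := mul_le_mul_of_nonneg_left m3 hr2.le
    have := mul_nonneg hr2.le hX
    nlinarith
  have m7 := le_of_mul_le_mul_left m6 hr2
  nlinarith [sq_nonneg Λ]

/-- the tightness half -/
theorem tight {N P J Bd : E d → ℝ} {y₀ : E d} {ε M M' H g Λ X : ℝ} (h0 : 0 < ε)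
    (h1 : 100 * ε ≤ 1) (hl : 3 ≤ lg ε) (cN : Continuous N) (cP : Continuous P) (cJ : Continuous J)
    (cB : Continuous Bd) (hP : ∀ z, P z ≤ N z) (hN : ∀ z, 0 ≤ N z ∧ N z ≤ ε⁻¹)
    (hJ : ∀ z, |J z| ≤ 2 * ε⁻¹ ^ 2) (hB : ∀ z, 0 ≤ Bd z) (hM : ε ^ 2 ≤ M) (hM' : ε ^ 3 ≤ M')
    (hH : |H| ≤ 12) (hg : ε ≤ g) (hg' : g ≤ 1 / 10000) (mP : |cv 1 P y₀ - Λ| ≤ ε ^ 10)
    (mJ : |cv 1 J y₀ - X| ≤ ε ^ 10) (hΛ : 0 ≤ Λ) (hΛ' : Λ ≤ M / 1000) (hX : M' ≤ 5 * X)
    (hv : H - g ≤ val ε M M' Λ X) (mB : cv 1 Bd y₀ ≤ ε ^ 12)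
    (hgood : ∀ y ∈ closedBall y₀ 1, Bd y < 1 → FF ε (N y / M) + 8 * J y / M' ≤ H) :
    cv 1 N y₀ ≤ Λ + 3 * g * M ∧ cv 1 (fun z => |J z - X|) y₀ ≤ X / 20 := by
  have hM0 : 0 < M := lt_of_lt_of_le (by positivity) hM
  have hM0' : 0 < M' := lt_of_lt_of_le (by positivity) hM'
  have e1 : ε ≤ 1 := by linarith
  set t := ε⁻¹ with ht
  have ht0 : 100 ≤ t := by rw [ht, le_inv_comm₀ (by norm_num) h0]; linarith
  have iM : 1 / M ≤ t ^ 2 := by
    rw [ht, inv_pow, one_div]; exact inv_anti₀ (by positivity) hM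
  have iM' : 1 / M' ≤ t ^ 3 := by
    rw [ht, inv_pow, one_div]; exact inv_anti₀ (by positivity) hM'
  have x0 : 0 ≤ Λ / M := by positivity
  have x1 : Λ / M ≤ 1 / 1000 := by rw [div_le_iff₀ hM0]; linarith
  set f := F1 ε (Λ / M) with hf
  have f1 : 1 ≤ f := one_le_F1 h0 (by linarith) x0
  have f2 : f ≤ 2 := F1_le_two h0 hl x0 (by linarith)
  set F0 := FF ε (Λ / M) with hF0
  have F00 : F0 ≤ 1 := by
    have := FF_le h0 (by linarith : 1 ≤ lg ε) x0
    nlinarith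
  have hval : val ε M M' Λ X = F0 + 8 * X / M' := by unfold val; rw [max_eq_left hΛ]
  set Z : E d → ℝ := fun z => H - F0 + f * (Λ / M) - 8 / M' * J z - f / M * N z + t ^ 6 * Bd z
    with hZ
  have cZ : Continuous Z := by simp only [hZ]; fun_prop
  have Z0 : ∀ y ∈ closedBall y₀ 1, 0 ≤ Z y := fun y hy => by
    have b0 : 0 ≤ t ^ 6 * Bd y := mul_nonneg (by positivity) (hB y)
    simp only [hZ]
    by_cases hb : Bd y < 1
    · have a1 := hgood y hy hb
      have a2 := FF_tangent h0 (by linarith : 1 ≤ lg ε) (div_nonneg (hN y).1 hM0.le) x0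
      have a3 : 0 ≤ (√(N y / M + ε) - √(Λ / M + ε)) ^ 2 / (2 * lg ε) := by
        have : 0 < lg ε := by linarith
        positivity
      have a4 : f / M * N y = f * (N y / M) := by ring
      have a5 : 8 / M' * J y = 8 * J y / M' := by ring
      rw [a4, a5]
      nlinarith
    · have a1 : t ^ 6 ≤ t ^ 6 * Bd y := le_mul_of_one_le_right (by positivity) (not_lt.1 hb)
      have a2 : 8 / M' * J y ≤ 16 * t ^ 5 := by
        calc 8 / M' * J y ≤ 8 / M' * (2 * t ^ 2) :=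
              mul_le_mul_of_nonneg_left ((le_abs_self _).trans (hJ y)) (by positivity)
          _ = 16 * t ^ 2 * (1 / M') := by ring
          _ ≤ 16 * t ^ 2 * t ^ 3 := mul_le_mul_of_nonneg_left iM' (by positivity)
          _ = _ := by ring
      have a3 : f / M * N y ≤ 2 * t ^ 3 := by
        calc f / M * N y = f * (1 / M) * N y := by ring
          _ ≤ 2 * t ^ 2 * t := by
              refine mul_le_mul (mul_le_mul f2 iM (by positivity) (by norm_num)) (hN y).2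
                (hN y).1 (by positivity)
          _ = _ := by ring
      have a4 : 0 ≤ f * (Λ / M) := by positivity
      have a5 : t ^ 3 ≤ t ^ 5 := pow_le_pow_right₀ (by linarith) (by norm_num)
      have a6 : (1 : ℝ) ≤ t ^ 5 := one_le_pow₀ (by linarith)
      have a7 : 100 * t ^ 5 ≤ t ^ 6 := by
        rw [pow_succ t 5, mul_comm]; exact mul_le_mul_of_nonneg_left ht0 (by positivity)
      linarith [(abs_le.1 hH).1]
  have eZ : cv 1 Z y₀ = H - F0 + f * (Λ / M) - 8 / M' * cv 1 J y₀ - f / M * cv 1 N y₀ +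
      t ^ 6 * cv 1 Bd y₀ := by
    simp only [hZ]
    rw [cv_add (by fun_prop) (by fun_prop), cv_sub (by fun_prop) (by fun_prop),
      cv_sub (by fun_prop) (by fun_prop), cv_const, cv_const_mul, cv_const_mul, cv_const_mul]
  have pZ : 0 ≤ cv 1 Z y₀ := by
    have := cv_mono (continuous_const (y := (0 : ℝ))) cZ zero_le_one (y := y₀) Z0
    rwa [cv_const] at this
  have te : t * ε = 1 := inv_mul_cancel₀ h0.ne'
  have s1 : t ^ 6 * cv 1 Bd y₀ ≤ g / 100 := by
    calc _ ≤ t ^ 6 * ε ^ 12 := mul_le_mul_of_nonneg_left mB (by positivity)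
      _ = (t * ε) ^ 6 * ε ^ 6 := by ring
      _ = ε ^ 6 := by rw [te]; ring
      _ ≤ g / 100 := by
          have := mul_pow_le h0 e1 h1 (show 1 < 6 by norm_num)
          rw [pow_one] at this
          linarith
  have s1' : 0 ≤ t ^ 6 * cv 1 Bd y₀ := mul_nonneg (by positivity) (cv_nonneg hB 1 y₀)
  have s0 : t ^ 3 * ε ^ 10 ≤ g / 100 := by
    calc _ = (t * ε) ^ 3 * ε ^ 7 := by ring
      _ = ε ^ 7 := by rw [te]; ring
      _ ≤ g / 100 := by
          have := mul_pow_le h0 e1 h1 (show 1 < 7 by norm_num)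
          rw [pow_one] at this
          linarith
  have s2 : |8 / M' * cv 1 J y₀ - 8 * X / M'| ≤ 8 * (g / 100) := by
    have : 8 / M' * cv 1 J y₀ - 8 * X / M' = 8 * ((1 / M') * (cv 1 J y₀ - X)) := by ring
    rw [this, abs_mul, abs_mul, abs_of_pos (by positivity : 0 < 1 / M')]
    have := mul_le_mul iM' mJ (abs_nonneg _) (by positivity)
    norm_num at this ⊢
    linarith
  have n0 : cv 1 P y₀ ≤ cv 1 N y₀ := cv_mono cP cN zero_le_one fun z _ => hP z
  set n := cv 1 N y₀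
  have s3 : -(2 * (g / 100)) ≤ f * ((n - Λ) / M) := by
    have a1 : -(ε ^ 10) ≤ n - Λ := by linarith [(abs_le.1 mP).1]
    have a2 : t ^ 2 ≤ t ^ 3 := pow_le_pow_right₀ (by linarith) (by norm_num)
    have a3 : ε ^ 10 / M ≤ g / 100 := by
      have := mul_le_mul_of_nonneg_right (iM.trans a2) (by positivity : 0 ≤ ε ^ 10)
      have e : 1 / M * ε ^ 10 = ε ^ 10 / M := by ring
      linarith
    have a4 : -(ε ^ 10 / M) ≤ (n - Λ) / M := by
      rw [← neg_div]; exact div_le_div_of_nonneg_right a1 hM0.le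
    nlinarith
  have e4 : f * (Λ / M) - f / M * n = -(f * ((n - Λ) / M)) := by ring
  have s4 : f * ((n - Λ) / M) ≤ 2 * g := by linarith [(abs_le.1 s2).1]
  have r1 : n ≤ Λ + 2 * g * M := by
    have : (n - Λ) / M ≤ 2 * g := by
      by_cases h : (n - Λ) / M ≤ 0
      · linarith
      · nlinarith
    rw [div_le_iff₀ hM0] at this
    linarith
  have g0 : 0 < g := by linarith
  refine ⟨by nlinarith, ?_⟩
  have s5 : cv 1 Z y₀ ≤ 2 * g := by linarith [(abs_le.1 s2).1]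
  have s6 : |H - F0 - 8 * X / M'| ≤ g := by
    rw [abs_le]; constructor <;> linarith [(abs_le.1 s2).2, (abs_le.1 s2).1]
  have m := cv_mono (G := fun z => 8 / M' * |J z - X|)
    (G' := fun z => g + 2 * (Λ / M) + Z z + 2 / M * N z + t ^ 6 * Bd z) (by fun_prop)
    (by fun_prop) zero_le_one (y := y₀) fun y hy => by
      have a0 := Z0 y hy
      have b0 : 0 ≤ t ^ 6 * Bd y := mul_nonneg (by positivity) (hB y)
      have a1 : 8 / M' * (J y - X) =
          H - F0 - 8 * X / M' + f * (Λ / M) - f / M * N y + t ^ 6 * Bd y - Z y := by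
        simp only [hZ]; ring
      have a2 : 0 ≤ f / M * N y := mul_nonneg (by positivity) (hN y).1
      have a3 : f / M * N y ≤ 2 / M * N y :=
        mul_le_mul_of_nonneg_right (div_le_div_of_nonneg_right f2 hM0.le) (hN y).1
      have a4 : f * (Λ / M) ≤ 2 * (Λ / M) := mul_le_mul_of_nonneg_right f2 x0
      have a5 : 0 ≤ f * (Λ / M) := by positivity
      show 8 / M' * |J y - X| ≤ _
      rw [← abs_of_pos (by positivity : 0 < 8 / M'), ← abs_mul, a1, abs_le]
      constructor <;> linarith [(abs_le.1 s6).1, (abs_le.1 s6).2]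
  rw [cv_const_mul, cv_add (by fun_prop) (by fun_prop), cv_add (by fun_prop) (by fun_prop),
    cv_add (by fun_prop) cZ, cv_const, cv_const_mul, cv_const_mul] at m
  have s7 : 2 / M * n ≤ 2 / 1000 + 4 * g := by
    have : 2 / M * n ≤ 2 / M * (Λ + 2 * g * M) := mul_le_mul_of_nonneg_left r1 (by positivity)
    have e : 2 / M * (Λ + 2 * g * M) = 2 * (Λ / M) + 4 * g := by field_simp; ring
    linarith
  have s8 : 8 / M' * cv 1 (fun z => |J z - X|) y₀ ≤ 1 / 100 := by linarith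
  rw [div_mul_eq_mul_div, div_le_iff₀ hM0'] at s8
  linarith

end Area

open Area in
theorem area (d : ℕ) (_hd : 2 ≤ d) : AreaStmt d := by
  refine small_iff.2 ?_
  filter_upwards [ev_pos, ev_mul_le 100, ev_le_lg 3, ev_mul_le (100000 * Cw d)] with ε h0 h1 hl hC
  intro q p Bd u' u y₀ M M' H g Λ X hq hp hon hM hM' hH hg hg' eΛ eX hΛ hΛ' hX hv cB hB mB hpot
  have e1 : ε ≤ 1 := by linarith
  have hw := one_le_Cw (d := d)
  have hs : (0 : ℝ) ≤ ε ^ 160 := by positivity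
  have te : ε⁻¹ * ε = 1 := inv_mul_cancel₀ h0.ne'
  have cj := continuous_jac hq.cd1 hp.cd1 u' u
  have cd : ∀ {a : E d → ℝ}, Sm ε⁻¹ a → ∀ v, Continuous (cv (ε ^ 160) (dd a v)) := fun ha v =>
    continuous_cv (continuous_dd ha.cd1 v) _
  have bd : ∀ {a : E d → ℝ}, Sm ε⁻¹ a → ∀ v, ‖v‖ = 1 → ∀ z, |cv (ε ^ 160) (dd a v) z| ≤ ε⁻¹ :=
    fun ha v hv z => norm_cv_le hs fun w _ => ha.dd_le hv w
  set N : E d → ℝ := fun z => max (max |cv (ε ^ 160) (dd p u) z| |cv (ε ^ 160) (dd p u') z|)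
    (max |cv (ε ^ 160) (dd q u) z| |cv (ε ^ 160) (dd q u') z|) with hN
  have cN : Continuous N :=
    ((cd hp u).abs.max (cd hp u').abs).max ((cd hq u).abs.max (cd hq u').abs)
  have n1 : ∀ z, |cv (ε ^ 160) (dd p u) z| ≤ N z := fun z =>
    (le_max_left _ _).trans (le_max_left _ _)
  have n2 : ∀ z, |cv (ε ^ 160) (dd p u') z| ≤ N z := fun z =>
    (le_max_right _ _).trans (le_max_left _ _)
  have n3 : ∀ z, |cv (ε ^ 160) (dd q u) z| ≤ N z := fun z =>
    (le_max_left _ _).trans (le_max_right _ _)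
  have n4 : ∀ z, |cv (ε ^ 160) (dd q u') z| ≤ N z := fun z =>
    (le_max_right _ _).trans (le_max_right _ _)
  have hN0 : ∀ z, 0 ≤ N z ∧ N z ≤ ε⁻¹ := fun z => ⟨(abs_nonneg _).trans (n1 z),
    max_le (max_le (bd hp u hon.2.1 z) (bd hp u' hon.1 z))
      (max_le (bd hq u hon.2.1 z) (bd hq u' hon.1 z))⟩
  have bj : ∀ z, |jac q p u' u z| ≤ 2 * ε⁻¹ ^ 2 := abs_jac_le hq hp hon.1 hon.2.1
  have bJ : ∀ z, |cv (ε ^ 160) (jac q p u' u) z| ≤ 2 * ε⁻¹ ^ 2 := fun z =>
    norm_cv_le (G := jac q p u' u) hs fun w _ => bj w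
  have bX : |X| ≤ 2 * ε⁻¹ ^ 2 := by
    rw [eX]; exact norm_cv_le (G := jac q p u' u) zero_le_one fun w _ => bj w
  have pw : ∀ a b : ℕ, a < b → 100000 * Cw d * ε ^ b ≤ ε ^ a := fun a b h =>
    mul_pow_le h0 e1 hC h
  have iv : ∀ k n : ℕ, ε⁻¹ ^ k * ε ^ (k + n) = ε ^ n := fun k n => by
    rw [pow_add, ← mul_assoc, ← mul_pow, te, one_pow, one_mul]
  have pos : ∀ n : ℕ, 0 < Cw d * ε ^ n := fun n => by positivity
  obtain ⟨t1, t2⟩ := tight (N := N) (P := cv (ε ^ 160) (dd p u))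
    (J := cv (ε ^ 160) (jac q p u' u)) (Bd := Bd) (y₀ := y₀) (X := X) h0 h1 hl cN (cd hp u)
    (continuous_cv cj _) cB (fun z => (le_abs_self _).trans (n1 z)) hN0 bJ hB hM hM' hH hg hg'
    (by
      rw [eΛ]
      refine (cv_cv (continuous_dd hp.cd1 u) one_pos hs (hp.dd_le hon.2.1) y₀).trans ?_
      have a := iv 1 159
      have b := pw 10 159 (by norm_num)
      have c := pos 159
      rw [pow_one] at a
      rw [div_one, mul_assoc, a]
      linarith)
    (by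
      rw [eX]
      refine (cv_cv cj one_pos hs bj y₀).trans ?_
      have a := iv 2 158
      have b := pw 10 158 (by norm_num)
      have c := pos 158
      rw [div_one, mul_assoc, mul_assoc, a]
      linarith)
    hΛ hΛ' hX hv mB (fun y hy hb => by
      have P := hpot y hy hb
      have on2 : ON (-u) u' := ⟨by rw [norm_neg]; exact hon.2.1, hon.1, by
        rw [inner_neg_left, real_inner_comm, hon.2.2, neg_zero]⟩
      have ej : jac q p (-u) u' = jac q p u' u := by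
        funext z
        simp only [jac, dd, map_neg]
        ring
      have A : ∀ x : ℝ, (∀ σ : ℝ, σ ^ 2 = 1 →
          val ε M M' (σ * x) (cv (ε ^ 160) (jac q p u' u) y) ≤ H) →
          FF ε (|x| / M) + 8 * cv (ε ^ 160) (jac q p u' u) y / M' ≤ H := fun x hx => by
        rcases le_total 0 x with h | h
        · have := hx 1 (by norm_num)
          unfold val at this
          rwa [one_mul, max_eq_left h, ← abs_of_nonneg h] at this
        · have := hx (-1) (by norm_num)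
          unfold val at this
          rwa [neg_one_mul, max_eq_left (by linarith), ← abs_of_nonpos h] at this
      have a1 := A (cv (ε ^ 160) (dd p u) y) fun σ hσ => by
        simpa using P 0 σ u' u (by simpa using hσ) hon
      have a2 := A (cv (ε ^ 160) (dd p u') y) fun σ hσ => by
        simpa [ej] using P 0 σ (-u) u' (by simpa using hσ) on2
      have a3 := A (cv (ε ^ 160) (dd q u) y) fun σ hσ => by
        simpa using P σ 0 u' u (by simpa using hσ) hon
      have a4 := A (cv (ε ^ 160) (dd q u') y) fun σ hσ => by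
        simpa [ej] using P σ 0 (-u) u' (by simpa using hσ) on2
      simp only [hN]
      rcases max_choice (max |cv (ε ^ 160) (dd p u) y| |cv (ε ^ 160) (dd p u') y|)
        (max |cv (ε ^ 160) (dd q u) y| |cv (ε ^ 160) (dd q u') y|) with h | h <;> rw [h]
      · rcases max_choice |cv (ε ^ 160) (dd p u) y| |cv (ε ^ 160) (dd p u') y| with h | h <;>
          rw [h] <;> assumption
      · rcases max_choice |cv (ε ^ 160) (dd q u) y| |cv (ε ^ 160) (dd q u') y| with h | h <;>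
          rw [h] <;> assumption)
  have L0 : ε ^ 3 ≤ Λ + 3 * g * M := by
    have : ε * ε ^ 2 ≤ g * M := mul_le_mul hg hM (by positivity) (by linarith)
    have e : ε * ε ^ 2 = ε ^ 3 := by ring
    nlinarith [pow_pos h0 3]
  have X0 : ε ^ 3 ≤ 5 * X := hM'.trans hX
  have p3 := pow_pos h0 3
  have p4 : 0 < Λ + 3 * g * M := by linarith
  have pw1 : ∀ a b : ℕ, a < b → 100 * ε ^ b ≤ ε ^ a := fun a b h => mul_pow_le h0 e1 h1 h
  refine geo (r := ε ^ 10) (B := 4 * ε⁻¹ ^ 2) hq hp hon.1 hon.2.1 hs (by positivity)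
    (by linarith) (by linarith) ⟨cN, fun z => (hN0 z).1, fun z => (hN0 z).2, t1, ?_⟩
    ⟨((continuous_cv cj _).sub continuous_const).abs, fun z => abs_nonneg _, fun z => ?_, t2, ?_⟩
    n1 n2 n3 n4 ?_ ?_ ?_
  · have a := iv 1 9
    have b := pw 3 9 (by norm_num)
    have c := pos 9
    rw [pow_one] at a
    rw [mul_assoc, a]
    linarith
  · linarith [abs_sub (cv (ε ^ 160) (jac q p u' u) z) X, bJ z]
  · have a := iv 2 8
    have b := pw 3 8 (by norm_num)
    have c := pos 8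
    rw [mul_assoc, mul_assoc, a]
    linarith
  · have b := pw 0 10 (by norm_num)
    have c := pos 10
    rw [pow_zero] at b
    linarith
  · have a : ε⁻¹ * ε ^ 160 * ε⁻¹ = ε ^ 158 := by rw [← iv 2 158]; ring
    have b := pw1 16 158 (by norm_num)
    have c : ε ^ 10 * ε ^ 3 * ε ^ 3 ≤ ε ^ 10 * (Λ + 3 * g * M) * (Λ + 3 * g * M) := by gcongr
    have e : ε ^ 10 * ε ^ 3 * ε ^ 3 = ε ^ 16 := by ring
    rw [a]
    nlinarith [pow_pos h0 158, pow_pos h0 16]
  · have a : 2 * ε⁻¹ * ε ^ 160 * (2 * ε⁻¹ ^ 2) = 4 * ε ^ 157 := by rw [← iv 3 157]; ring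
    have b := pw1 16 157 (by norm_num)
    have c : ε ^ 10 * ε ^ 3 * ε ^ 3 ≤ ε ^ 10 * (Λ + 3 * g * M) * (5 * X) := by gcongr
    have e : ε ^ 10 * ε ^ 3 * ε ^ 3 = ε ^ 16 := by ring
    rw [a]
    nlinarith [pow_pos h0 157, pow_pos h0 16]

end Pool.Agent.MP_20bec2_an.h7

end
end MrgPart0

-- ======== part 1: formerly Pool.Agent.MP_20bec2_an.h7.Test
section MrgPart1

/-! Module TEST of project BIOM: the delay along the leaves needs more shear than available. -/

set_option autoImplicit false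

open MeasureTheory Set Metric Filter Topology

noncomputable section

namespace Pool.Agent.MP_20bec2_an.h7

namespace Test

variable {d : ℕ} {ε : ℝ}

/-! ### line integrals with weight one -/

lemma ln_one (T : ℝ) (u : E d) (G : E d → ℝ) (y : E d) :
    ln T u (fun _ => 1) G y = ∫ τ in (-(3 * T))..(3 * T), G (y + τ • u) := by
  simp [ln]

lemma ii {G : E d → ℝ} (hG : Continuous G) (u y : E d) (a b : ℝ) :
    IntervalIntegrable (fun τ : ℝ => G (y + τ • u)) volume a b :=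
  (hG.comp (by fun_prop)).intervalIntegrable _ _

lemma ln_nonneg {T : ℝ} (hT : 0 ≤ T) (u : E d) {G : E d → ℝ} (h : ∀ z, 0 ≤ G z) (y : E d) :
    0 ≤ ln T u (fun _ => 1) G y := by
  rw [ln_one]
  exact intervalIntegral.integral_nonneg (by linarith) fun _ _ => h _

lemma cont_ln {G : E d → ℝ} (hG : Continuous G) (T : ℝ) (u : E d) :
    Continuous (ln T u (fun _ => 1) G) := continuous_ln continuous_const hG T u

lemma key1 (h0 : 0 < ε) (hC : 18 * Cw d * ε ≤ 1) {u : E d} (hu : ‖u‖ = 1) {G H : E d → ℝ}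
    (hG : Continuous G) (hH : Continuous H) {c a : ℝ} (hc : 0 ≤ c) (hB : ∀ z, |H z| ≤ ε⁻¹ ^ 8)
    (h : ∀ z, G z ≤ c / ε ^ 70 * H z) {y₀ : E d} (ha : cv 1 H y₀ ≤ a * ε ^ 20) :
    cv 1 (ln (ε ^ 52) u (fun _ => 1) G) y₀ ≤ c * (6 * a * ε ^ 2 + ε ^ 25) := by
  have hT : (0 : ℝ) ≤ ε ^ 52 := by positivity
  have h1 : cv 1 (ln (ε ^ 52) u (fun _ => 1) G) y₀ ≤
      c / ε ^ 70 * cv 1 (ln (ε ^ 52) u (fun _ => 1) H) y₀ := by
    rw [← cv_const_mul]
    have := cont_ln hH (ε ^ 52) u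
    refine cv_mono (cont_ln hG _ _) (by fun_prop) zero_le_one fun z _ => ?_
    rw [ln_one, ln_one, ← intervalIntegral.integral_const_mul]
    exact intervalIntegral.integral_mono_on (by linarith) (ii hG _ _ _ _)
      ((ii hH _ _ _ _).const_mul _) fun τ _ => h _
  have h2 := (abs_le.1 (cv_ln_one_le hH hT hB hu y₀)).2
  have h3 : 18 * Cw d * ε⁻¹ ^ 8 * (ε ^ 52) ^ 2 ≤ ε ^ 95 := by
    have : 18 * Cw d * ε⁻¹ ^ 8 * (ε ^ 52) ^ 2 = 18 * Cw d * ε * ε ^ 95 := by field_simp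
    rw [this]
    exact mul_le_of_le_one_left (by positivity) hC
  have h4 : cv 1 (ln (ε ^ 52) u (fun _ => 1) H) y₀ ≤ ε ^ 70 * (6 * a * ε ^ 2 + ε ^ 25) := by
    have := mul_le_mul_of_nonneg_left ha (by positivity : 0 ≤ 6 * ε ^ 52)
    nlinarith
  refine h1.trans ((mul_le_mul_of_nonneg_left h4 (by positivity)).trans_eq ?_)
  field_simp

lemma key (h0 : 0 < ε) (hC : 18 * Cw d * ε ≤ 1) {u : E d} (hu : ‖u‖ = 1) {m : ℕ}
    {G : ℕ → E d → ℝ} {H : E d → ℝ} (hG : ∀ k ∈ Finset.range m, Continuous (G k))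
    (hH : Continuous H) {c a : ℝ} (hc : 0 ≤ c) (hB : ∀ z, |H z| ≤ ε⁻¹ ^ 8)
    (h : ∀ z, ∑ k ∈ Finset.range m, G k z ≤ c / ε ^ 70 * H z) {y₀ : E d}
    (ha : cv 1 H y₀ ≤ a * ε ^ 20) :
    ∑ k ∈ Finset.range m, cv 1 (ln (ε ^ 52) u (fun _ => 1) (G k)) y₀ ≤
      c * (6 * a * ε ^ 2 + ε ^ 25) := by
  rw [← cv_sum _ fun k hk => cont_ln (hG k hk) _ _]
  refine le_of_eq_of_le ?_ (key1 h0 hC hu (continuous_finsetSum _ hG) hH hc hB h ha)
  congr 1
  funext y
  simp only [ln_one]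
  exact (intervalIntegral.integral_finsetSum fun k hk => ii (hG k hk) _ _ _ _).symm

/-! ### the numerical setting -/

structure Num (d : ℕ) (ε C₀ δ l Λ X v β s : ℝ) (m : ℕ) : Prop where
  e0 : 0 < ε
  e1 : ε ≤ 1 / 100
  eC : 18 * Cw d * ε ≤ 1
  C1 : 1 ≤ C₀
  d0 : ε ≤ δ
  d1 : δ ≤ 1 / 100
  l1 : 1 ≤ l
  l2 : l ^ 2 * ε ≤ 1
  m2 : 2 ≤ m
  ml : (m : ℝ) ≤ l
  L0 : ε ^ 3 ≤ Λ
  L1 : Λ ≤ ε⁻¹
  X0 : ε ^ 4 ≤ X
  LX : Λ ^ 4 ≤ δ ^ 3 * l ^ 5 * X ^ 2
  v0 : ε ≤ v
  v1 : v ≤ 1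
  hβ : β = v ^ 2 / l
  hs : s = v / l
  mu : (m : ℝ) ≤ δ * l * v ^ 2
  md : δ * l * v ^ 2 ≤ 2 * m
  lm : (1 + Real.log m) * v ^ 2 ≤ 1

namespace Num

variable {C₀ δ l Λ X v β s : ℝ} {m : ℕ} (h : Num d ε C₀ δ l Λ X v β s m)
include h

lemma e2 : ε ≤ 1 / 2 := h.e1.trans (by norm_num)
lemma e3 : ε ≤ 1 := h.e1.trans (by norm_num)
lemma Lp : 0 < Λ := (pow_pos h.e0 3).trans_le h.L0
lemma Xp : 0 < X := (pow_pos h.e0 4).trans_le h.X0
lemma dp : 0 < δ := h.e0.trans_le h.d0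
lemma vp : 0 < v := h.e0.trans_le h.v0
lemma lp : 0 < l := one_pos.trans_le h.l1
lemma m1 : (2 : ℝ) ≤ m := by exact_mod_cast h.m2
lemma mp : (0 : ℝ) < m := two_pos.trans_le h.m1
lemma pw {a b : ℕ} (hab : a ≤ b) : ε ^ b ≤ ε ^ a := pow_le_pow_of_le_one h.e0.le h.e3 hab
lemma i1 : 100 ≤ ε⁻¹ := by
  rw [le_inv_comm₀ (by norm_num) h.e0]; simpa using h.e1
lemma ipw {a b : ℕ} (hab : a ≤ b) : ε⁻¹ ^ a ≤ ε⁻¹ ^ b :=
  pow_le_pow_right₀ (by linarith [h.i1]) hab
lemma big {x : ℝ} (hx : x ≤ 100 * ε⁻¹ ^ 7) : x ≤ ε⁻¹ ^ 8 := by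
  rw [pow_succ']
  exact hx.trans (mul_le_mul_of_nonneg_right h.i1 (by have := h.e0; positivity))
lemma i7 : ε⁻¹ ≤ ε⁻¹ ^ 7 := by simpa using h.ipw (a := 1) (b := 7) (by norm_num)
lemma le : l * ε ≤ 1 := by nlinarith [h.l1, h.l2, h.e0, mul_pos h.lp h.e0]
lemma me : m * ε ≤ 1 := (mul_le_mul_of_nonneg_right h.ml h.e0.le).trans h.le
lemma mme : (m : ℝ) ^ 2 * ε ≤ 1 :=
  (mul_le_mul_of_nonneg_right (pow_le_pow_left₀ h.mp.le h.ml 2) h.e0.le).trans h.l2
lemma fac {x : ℝ} (hx : x * ε ≤ 1) (n : ℕ) (hn : 11 < n) : x * ε ^ n ≤ ε ^ 11 :=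
  mul_pow_le h.e0 h.e3 hx hn

lemma err : 100 * ε ^ 11 ≤ C₀ * v * (Λ * ε ^ 2) := by
  have e0 := h.e0
  have h1 : 100 * ε ^ 11 ≤ ε ^ 6 := mul_pow_le h.e0 h.e3 (by linarith [h.e1]) (by norm_num)
  have h2 : ε * (ε ^ 3 * ε ^ 2) ≤ v * (Λ * ε ^ 2) := by
    have := h.v0; have := h.L0; have := h.vp; gcongr
  have h3 : 1 * (v * (Λ * ε ^ 2)) ≤ C₀ * (v * (Λ * ε ^ 2)) :=
    mul_le_mul_of_nonneg_right h.C1 (by have := h.vp; have := h.Lp; positivity)
  nlinarith

lemma gp : 0 < C₀ * v * (Λ * ε ^ 2) := by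
  have := h.err; have := pow_pos h.e0 11; linarith

/-- a small factor -/
lemma sm {x : ℝ} (hx : x ≤ v) : C₀ * x * (Λ * ε ^ 2) ≤ C₀ * v * (Λ * ε ^ 2) := by
  have := h.C1; have := h.Lp; have := h.e0; gcongr

lemma vpw (n : ℕ) : v ^ (n + 1) ≤ v := by
  simpa using pow_le_pow_of_le_one h.vp.le h.v1 (Nat.le_add_left 1 n)

lemma a1 : l * β ≤ v := by
  have := h.lp
  rw [h.hβ, mul_div_cancel₀ _ this.ne']; exact h.vpw 1
lemma a3 : s ≤ v := by
  rw [h.hs]; exact div_le_self h.vp.le h.l1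
lemma a6 : m / δ * s ≤ v ^ 3 := by
  have := h.lp; have := h.dp; have := h.vp
  have h1 : m / δ * s = m * (v / (δ * l)) := by rw [h.hs]; field_simp
  have h2 : δ * l * v ^ 2 * (v / (δ * l)) = v ^ 3 := by field_simp
  rw [h1, ← h2]
  exact mul_le_mul_of_nonneg_right h.mu (by positivity)
lemma s0 : 0 ≤ s := by rw [h.hs]; exact div_nonneg h.vp.le h.lp.le
lemma a4 : (1 + Real.log m) * m * s ≤ v := by
  have h1 : m * s ≤ v ^ 3 := by
    refine le_trans (mul_le_mul_of_nonneg_right ?_ h.s0) h.a6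
    rw [le_div_iff₀ h.dp]
    exact mul_le_of_le_one_right h.mp.le (h.d1.trans (by norm_num))
  have h2 : 0 ≤ 1 + Real.log m := by have := Real.log_natCast_nonneg m; linarith
  have h3 := mul_le_mul_of_nonneg_left h1 h2
  have h4 := mul_le_mul_of_nonneg_right h.lm h.vp.le
  nlinarith
lemma a8 : l ^ 2 * β ^ 2 ≤ v := by
  have := h.lp
  have : l ^ 2 * β ^ 2 = v ^ 4 := by rw [h.hβ]; field_simp
  rw [this]; exact h.vpw 3
lemma a5 : m * β ^ 2 ≤ v := by
  refine le_trans (mul_le_mul_of_nonneg_right (h.ml.trans ?_) (sq_nonneg _)) h.a8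
  nlinarith [h.l1]
lemma a7 : δ * l ^ 3 * β ^ 2 ≤ 2 * m * v := by
  have := h.lp
  have h1 : δ * l ^ 3 * β ^ 2 = δ * l * v ^ 2 * v ^ 2 := by rw [h.hβ]; field_simp
  rw [h1]
  exact mul_le_mul h.md (h.vpw 1) (sq_nonneg _) (by have := h.mp; positivity)
lemma ratio : Λ / X ≤ ε⁻¹ ^ 5 := by
  have := h.e0
  calc Λ / X ≤ ε⁻¹ / ε ^ 4 := div_le_div₀ (by positivity) h.L1 (by positivity) h.X0
    _ = ε⁻¹ ^ 5 := by field_simp
lemma sq_le : Λ ^ 2 ≤ δ * l ^ 3 * X := by
  have := h.lp; have := h.dp; have := h.Xp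
  refine (abs_le_of_sq_le_sq' ?_ (by positivity)).2
  have h1 : δ * 1 ≤ 1 * l := by have := h.d1; have := h.l1; linarith
  have h2 : δ ^ 2 * l ^ 5 * X ^ 2 * (δ * 1) ≤ δ ^ 2 * l ^ 5 * X ^ 2 * (1 * l) :=
    mul_le_mul_of_nonneg_left h1 (by positivity)
  nlinarith [h.LX]
lemma om_ge : ε⁻¹ ^ 65 ≤ X / Λ * (m * l / ε ^ 70) := by
  have := h.e0; have := h.Xp; have := h.Lp
  have h1 : (1 : ℝ) * 1 ≤ m * l := mul_le_mul (by linarith [h.m1]) h.l1 zero_le_one h.mp.le
  calc ε⁻¹ ^ 65 = ε ^ 4 / ε⁻¹ * (1 * 1 / ε ^ 70) := by field_simp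
    _ ≤ _ := by have := h.X0; have := h.L1; gcongr
lemma cube : (m : ℝ) ^ 3 / (X / Λ * (m * l / ε ^ 70)) ≤ m * (C₀ * v * (Λ * ε ^ 2)) := by
  have := h.e0; have := h.mp
  calc (m : ℝ) ^ 3 / (X / Λ * (m * l / ε ^ 70)) ≤ m ^ 3 / ε⁻¹ ^ 65 :=
        div_le_div_of_nonneg_left (by positivity) (by positivity) h.om_ge
    _ = m * (m ^ 2 * ε ^ 65) := by field_simp
    _ ≤ _ := mul_le_mul_of_nonneg_left
        (by linarith [h.fac h.mme 65 (by norm_num), h.err, pow_pos h.e0 11]) h.mp.le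
lemma y1 {w : ℝ} (hw : w ≤ 12 * (C₀ * β ^ 2 * (Λ * ε ^ 2)) + 2 * ε ^ 25) :
    (2 * (Λ ^ 2 / (δ * X * l))) ^ 2 * w ≤ m * (97 * (C₀ * v * (Λ * ε ^ 2))) := by
  have := h.e0; have := h.Xp; have := h.Lp; have := h.dp; have := h.lp; have := h.C1
  have h1 : (2 * (Λ ^ 2 / (δ * X * l))) ^ 2 ≤ 4 * (δ * l ^ 3) := by
    rw [mul_pow, div_pow]
    refine (mul_le_mul_of_nonneg_left ((div_le_iff₀ (by positivity)).2 ?_) (by norm_num)).trans_eq
      (by norm_num : 2 ^ 2 * (δ * l ^ 3) = _)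
    nlinarith [h.LX]
  have h2 : C₀ * (δ * l ^ 3 * β ^ 2) * (Λ * ε ^ 2) ≤ C₀ * (2 * m * v) * (Λ * ε ^ 2) := by
    have := h.a7; gcongr
  have h3 : δ * (l ^ 2 * ε) * (l * ε ^ 24) ≤ 1 * 1 * ε ^ 11 := by
    have := h.l2; have := h.fac h.le 24 (by norm_num); have : δ ≤ 1 := h.d1.trans (by norm_num); gcongr
  have h4 := mul_le_mul_of_nonneg_right h.m1 h.gp.le
  have h5 := (mul_le_mul_of_nonneg_left hw (sq_nonneg (2 * (Λ ^ 2 / (δ * X * l))))).trans
    (mul_le_mul_of_nonneg_right h1 (by positivity))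
  nlinarith [h.err, pow_pos h.e0 11]
lemma y2 {w z : ℝ} (hw : w ≤ 12 * (C₀ * β ^ 2 * (Λ * ε ^ 2)) + 2 * ε ^ 25) (hz : z ≤ 98 * ε ^ 19) :
    Λ ^ 2 / (δ * X * l) * w + Λ / (δ * X * l) * z ≤ 13 * (C₀ * v * (Λ * ε ^ 2)) := by
  have := h.e0; have := h.Xp; have := h.Lp; have := h.dp; have := h.lp; have := h.C1
  have h1 : Λ ^ 2 / (δ * X * l) ≤ l ^ 2 := by
    rw [div_le_iff₀ (by positivity)]; linarith [h.sq_le]
  have h2 : Λ / (δ * X * l) ≤ ε⁻¹ / (ε * ε ^ 4 * 1) := by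
    have := h.L1; have := h.d0; have := h.X0; have := h.l1; gcongr
  have h3 := (mul_le_mul_of_nonneg_left hw (by positivity)).trans
    (mul_le_mul_of_nonneg_right h1 (by positivity))
  have h4 := (mul_le_mul_of_nonneg_left hz (by positivity)).trans
    (mul_le_mul_of_nonneg_right h2 (by positivity))
  have h5 : ε⁻¹ / (ε * ε ^ 4 * 1) * (98 * ε ^ 19) = 98 * ε ^ 13 := by field_simp
  linarith [h.sm h.a8, h.fac h.l2 25 (by norm_num), h.pw (a := 11) (b := 13) (by norm_num), h.err]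

end Num

lemma num_of {C₀ δ l Λ X K : ℝ} (e0 : 0 < ε) (e1 : 100 * ε ≤ 1) (eC : 18 * Cw d * ε ≤ 1)
    (hK : 2 ≤ K) (eK : K ^ 2 ≤ lg ε) (eL : lg ε ^ 1 * ε ≤ 1) (C1 : 1 ≤ C₀) (d0 : ε ≤ δ)
    (d1 : δ ≤ 1 / 100) (l1 : 1 ≤ l) (l2 : l ^ 2 * ε ≤ 1) (m2 : 2 ≤ mm ε δ l) (L0 : ε ^ 3 ≤ Λ)
    (L1 : Λ ≤ ε⁻¹) (X0 : ε ^ 4 ≤ X) (LX : Λ ^ 4 ≤ δ ^ 3 * l ^ 5 * X ^ 2) :
    Num d ε C₀ δ l Λ X (√(lg ε))⁻¹ (1 / (lg ε * l)) (√(lg ε) * (1 / (lg ε * l))) (mm ε δ l) ∧
      K * (√(lg ε))⁻¹ ≤ 1 := by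
  have g4 : 4 ≤ lg ε := by nlinarith
  have hσ : K ≤ √(lg ε) := Real.le_sqrt_of_sq_le eK
  have hσ2 : √(lg ε) ^ 2 = lg ε := Real.sq_sqrt (by linarith)
  have hσ0 : 0 < √(lg ε) := by linarith
  have hv : (√(lg ε))⁻¹ ^ 2 = (lg ε)⁻¹ := by rw [inv_pow, hσ2]
  have dp : 0 < δ := e0.trans_le d0
  have ml := mm_le (ε := ε) (δ := δ) (l := l) (by linarith) dp.le (by linarith) (by linarith)
  have m1 : (2 : ℝ) ≤ mm ε δ l := by exact_mod_cast m2
  refine ⟨⟨e0, by linarith, eC, C1, d0, d1, l1, l2, m2, ml, L0, L1, X0, LX, ?_,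
    inv_le_one_of_one_le₀ (by linarith), ?_, ?_, ?_, ?_, ?_⟩, ?_⟩
  · rw [le_inv_comm₀ e0 hσ0, ← one_div, le_div_iff₀ e0]
    have : √(lg ε) ≤ lg ε := by nlinarith
    nlinarith
  · rw [hv]; field_simp
  · nth_rewrite 2 [← hσ2]
    field_simp
  · rw [hv, ← div_eq_mul_inv]; exact Nat.floor_le (by positivity)
  · rw [hv, ← div_eq_mul_inv]
    have := Nat.lt_floor_add_one (δ * l / lg ε)
    change _ < (mm ε δ l : ℝ) + 1 at this
    linarith
  · rw [hv, ← div_eq_mul_inv, div_le_one (by linarith)]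
    have h1 : (mm ε δ l : ℝ) ^ 2 * ε ≤ 1 :=
      (mul_le_mul_of_nonneg_right (pow_le_pow_left₀ (by linarith) ml 2) e0.le).trans l2
    have h2 := Real.log_nonpos (by positivity) h1
    rw [Real.log_mul (by positivity) e0.ne', Real.log_pow] at h2
    unfold lg at g4 ⊢
    push_cast at h2
    linarith
  · rw [← div_eq_mul_inv, div_le_one hσ0]; exact hσ

/-! ### the quantities along a leaf -/

lemma cont_W1 (h0 : 0 < ε) (h1 : ε ≤ 1 / 2) : Continuous (W1 ε) :=
  continuous_xi h0 h1 (sp_tr (by norm_num) (by norm_num) (by norm_num)) (continuous_tr _ _)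

lemma cont_Wk (h0 : 0 < ε) (h1 : ε ≤ 1 / 2) {m k : ℕ} (hk : k < m) : Continuous (Wk ε m k) :=
  continuous_xi h0 h1 (sp_Wk hk) ((continuous_tr _ _).comp (by fun_prop))

lemma cont_bk (h0 : 0 < ε) (h1 : ε ≤ 1 / 2) {m k : ℕ} (hk : k < m) : Continuous (bk ε m k) :=
  continuous_xi h0 h1 (sp_bk hk) (continuous_bb.comp (by fun_prop))

def Ak (ε : ℝ) (m k : ℕ) (P pt : E d → ℝ) (u : E d) : E d → ℝ :=
  ln (ε ^ 52) u (th (ε ^ 52)) fun z => bk ε m k (P z) * (m / ε ^ 70) * pt z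

def Nk (ε : ℝ) (m k : ℕ) (P pt : E d → ℝ) (u : E d) : E d → ℝ :=
  ln (ε ^ 52) u (fun _ => 1) fun z => Wk ε m k (P z) * max (-pt z) 0 * (m / ε ^ 70)

def Tk (ε : ℝ) (m : ℕ) (l : ℝ) (k : ℕ) (P qt : E d → ℝ) (u : E d) : E d → ℝ :=
  ln (ε ^ 52) u (fun _ => 1) fun z => Wk ε m k (P z) * |qt z| * om ε m l k

def Qk (ε : ℝ) (m k : ℕ) (Λ : ℝ) (P pt : E d → ℝ) (u : E d) : E d → ℝ :=
  ln (ε ^ 52) u (fun _ => 1) fun z => Wk ε m k (P z) * (|pt z| + Λ) * (m / ε ^ 70)

def Ek (ε : ℝ) (m k : ℕ) (Λ X : ℝ) (P pt J : E d → ℝ) (u : E d) : E d → ℝ :=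
  ln (ε ^ 52) u (fun _ => 1) fun z =>
    bk ε m k (P z) * (m / ε ^ 70) * (2 * |J z * Λ / X - pt z| + ε ^ 11)

lemma A_lower (h0 : 0 < ε) (h1 : ε ≤ 1 / 2) {p : E d → ℝ} (hp : Sm ε⁻¹ p) {u : E d}
    (hu : ‖u‖ = 1) {m k : ℕ} (hk : k < m) (y₀ : E d) :
    3 * (cv 1 (dd p u) y₀ * ε ^ 2) - 18 * Cw d * ε ^ 52 ≤
      cv 1 (Ak ε m k (cv (ε ^ 120) p) (dd (cv (ε ^ 120) p) u) u) y₀ := by
  have hP := hp.cv (ε ^ 120)
  have hm : (0 : ℝ) < m := by exact_mod_cast (Nat.zero_le k).trans_lt hk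
  have hT : (0 : ℝ) < ε ^ 52 := by positivity
  have hCw := one_le_Cw (d := d)
  have hpt := continuous_dd hP.cd1 u
  have hF : Continuous fun z => bk ε m k (cv (ε ^ 120) p z) * (m / ε ^ 70) *
      dd (cv (ε ^ 120) p) u z := (((cont_bk h0 h1 hk).comp hP.cont).mul continuous_const).mul hpt
  obtain ⟨G, hG1, hGd, hGb⟩ := prim_xi h0 h1 (sp_bk hk) (continuous_bb.comp (by fun_prop))
    fun x => bb_nonneg _
  rw [integral_bk hk] at hGd hGb
  have hGP : ContDiff ℝ 1 fun z => G (cv (ε ^ 120) p z) := hG1.comp hP.cd1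
  have hdec : (fun z => bk ε m k (cv (ε ^ 120) p z) * (m / ε ^ 70) * dd (cv (ε ^ 120) p) u z) =
      fun z => m / ε ^ 70 * dd (fun z => G (cv (ε ^ 120) p z)) u z +
        (ε ^ 50)⁻¹ * cv (ε ^ 120) (dd p u) z := by
    funext z
    rw [dd_comp hP.cd1 u z (hGd _), ← dd_cv hp.cd1, smul_eq_mul, bk]
    field_simp
    ring
  have hlow : ∀ τ ∈ Icc (-(3 * ε ^ 52)) (3 * ε ^ 52), cv 1 (dd p u) y₀ / ε ^ 50 - 6 * Cw d ≤
      cv 1 (fun z => bk ε m k (cv (ε ^ 120) p z) * (m / ε ^ 70) * dd (cv (ε ^ 120) p) u z)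
        (y₀ + τ • u) := by
    intro τ hτ
    have hc := continuous_dd hp.cd1 u
    have := continuous_dd hGP u
    have := continuous_cv hc (ε ^ 120)
    rw [hdec, cv_add (by fun_prop) (by fun_prop), cv_const_mul, cv_const_mul]
    have b1 := norm_cv_dd_le hGP one_pos (fun z => hGb _) u (y₀ + τ • u)
    have b2 := cv_cv hc one_pos (by positivity : 0 ≤ ε ^ 120) (hp.dd_le hu) (y₀ + τ • u)
    have b3 := cv_lip hc one_pos (hp.dd_le hu) (y₀ + τ • u) y₀
    rw [add_sub_cancel_left, norm_smul, hu, mul_one, div_one] at b3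
    rw [hu, mul_one, div_one] at b1
    rw [div_one] at b2
    have b4 : ‖τ‖ ≤ 3 * ε ^ 52 := abs_le.2 hτ
    have c1 : -(2 * Cw d) ≤
        m / ε ^ 70 * cv 1 (dd (fun z => G (cv (ε ^ 120) p z)) u) (y₀ + τ • u) := by
      refine le_of_eq_of_le ?_ (mul_le_mul_of_nonneg_left (abs_le.1 b1).1 (by positivity))
      field_simp
    have e1 : ε ≤ 1 := h1.trans (by norm_num)
    have c2 : Cw d * ε⁻¹ * ε ^ 120 ≤ Cw d * ε ^ 50 := by
      have : Cw d * ε⁻¹ * ε ^ 120 = Cw d * ε ^ 119 := by field_simp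
      rw [this]
      exact mul_le_mul_of_nonneg_left (pow_le_pow_of_le_one h0.le e1 (by norm_num)) (by linarith)
    have c3 : Cw d * ε⁻¹ * ‖τ‖ ≤ 3 * (Cw d * ε ^ 50) := by
      calc Cw d * ε⁻¹ * ‖τ‖ ≤ Cw d * ε⁻¹ * (3 * ε ^ 52) := by gcongr
        _ = 3 * (Cw d * ε ^ 50) * ε := by field_simp
        _ ≤ _ := mul_le_of_le_one_right (by positivity) e1
    have c4 : cv 1 (dd p u) y₀ - 4 * (Cw d * ε ^ 50) ≤
        cv 1 (cv (ε ^ 120) (dd p u)) (y₀ + τ • u) := by
      have := (abs_le.1 b2).1; have := (abs_le.1 b3).1; linarith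
    have c5 := mul_le_mul_of_nonneg_left c4 (by positivity : 0 ≤ (ε ^ 50)⁻¹)
    have c6 : (ε ^ 50)⁻¹ * (cv 1 (dd p u) y₀ - 4 * (Cw d * ε ^ 50)) =
        cv 1 (dd p u) y₀ / ε ^ 50 - 4 * Cw d := by field_simp
    linarith
  rw [Ak, cv_ln (continuous_th _) hF, ln]
  refine le_of_eq_of_le ?_ (intervalIntegral.integral_mono_on (μ := volume) (by linarith)
    (f := fun τ => th (ε ^ 52) τ * (cv 1 (dd p u) y₀ / ε ^ 50 - 6 * Cw d))
    (((continuous_th _).mul continuous_const).intervalIntegrable _ _)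
    (((continuous_th _).smul ((continuous_cv hF 1).comp (by fun_prop))).intervalIntegrable _ _)
    fun τ hτ => mul_le_mul_of_nonneg_left (hlow τ hτ) (th_mem _ _).1)
  rw [intervalIntegral.integral_mul_const, integral_th hT]
  field_simp
  ring

lemma pointwise {A T N Q η a b : ℝ} (hT : 0 ≤ T) (hN : 0 ≤ N) (hQ : 0 ≤ Q) (hη : 0 ≤ η)
    (h1 : A ≤ 1) (h2 : A - T - 10 * N ≤ b) (h3 : Q < 1 → A = 0) (h4 : b ≤ a + η) :
    (A - T - 10 * N - η) / 150 - Q / 90000 ≤ min a 1 ^ 2 := by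
  have h5 : A - T - 10 * N - η ≤ min a 1 := le_min (by linarith) (by linarith)
  rcases lt_or_ge Q 1 with h | h
  · rw [h3 h]; nlinarith [sq_nonneg (min a 1)]
  · nlinarith [sq_nonneg (min a 1 - 1 / 300)]

lemma cv_comb {A T N Q : E d → ℝ} (hA : Continuous A) (hT : Continuous T) (hN : Continuous N)
    (hQ : Continuous Q) (η : ℝ) (y : E d) :
    cv 1 (fun z => (A z - T z - 10 * N z - η) / 150 - Q z / 90000) y =
      (cv 1 A y - cv 1 T y - 10 * cv 1 N y - η) / 150 - cv 1 Q y / 90000 := by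
  rw [cv_sub (by fun_prop) (by fun_prop), cv_div_const, cv_div_const,
    cv_sub (by fun_prop) (by fun_prop), cv_sub (by fun_prop) (by fun_prop), cv_sub hA hT,
    cv_const_mul, cv_const]

/-! ### the mean estimates -/

structure Fld (ε : ℝ) (P r pt qt J : E d → ℝ) (u : E d) : Prop where
  hu : ‖u‖ = 1
  cP : Continuous P
  cr : Continuous r
  cp : Continuous pt
  cq : Continuous qt
  cJ : Continuous J
  br : ∀ z, 1 / 2 ≤ r z ∧ r z ≤ 3 / 2
  bp : ∀ z, |pt z| ≤ ε⁻¹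
  bq : ∀ z, |qt z| ≤ ε⁻¹
  bJ : ∀ z, |J z| ≤ 2 * ε⁻¹ ^ 2

lemma abs_W1_mul {x B : ℝ} (ε t : ℝ) (h0 : 0 ≤ x) (h : x ≤ B) : |W1 ε t * x| ≤ B := by
  rw [abs_of_nonneg (mul_nonneg (W1_mem _ _).1 h0)]
  exact (mul_le_of_le_one_left h0 (W1_mem _ _).2).trans h

lemma half {r x : ℝ} (hr : 1 / 2 ≤ r) : |x| ≤ 2 * |r * x| := by
  rw [abs_mul, abs_of_nonneg (by linarith : 0 ≤ r)]
  nlinarith [abs_nonneg x]

section means

variable {C₀ δ l Λ X v β : ℝ} {m : ℕ} {P r pt pz qt J eb : E d → ℝ} {u y₀ : E d}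
  (h : Num d ε C₀ δ l Λ X v β (√(lg ε) * β) m) (f : Fld ε P r pt qt J u)
  (t : Tt ε C₀ β Λ X y₀ (fun y => W1 ε (P y)) r pt pz qt J eb)
include h f

lemma cW : Continuous fun y => W1 ε (P y) := (cont_W1 h.e0 h.e2).comp f.cP

lemma cWk {k : ℕ} (hk : k < m) : Continuous fun y => Wk ε m k (P y) :=
  (cont_Wk h.e0 h.e2 hk).comp f.cP

lemma cbk {k : ℕ} (hk : k < m) : Continuous fun y => bk ε m k (P y) :=
  (cont_bk h.e0 h.e2 hk).comp f.cP

lemma b_rp (z : E d) : |r z * pt z - Λ| ≤ 3 * ε⁻¹ ^ 7 := by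
  have h1 := abs_sub (r z * pt z) Λ
  rw [abs_mul, abs_of_pos h.Lp, abs_of_nonneg (by linarith [(f.br z).1] : 0 ≤ r z)] at h1
  have h2 : r z * |pt z| ≤ 3 / 2 * ε⁻¹ :=
    mul_le_mul (f.br z).2 (f.bp z) (abs_nonneg _) (by norm_num)
  linarith [h.L1, h.i7, h.i1]

lemma b_rJ (z : E d) : Λ / X * |r z * J z - X| ≤ 4 * ε⁻¹ ^ 7 := by
  have h1 := abs_sub (r z * J z) X
  rw [abs_mul, abs_of_pos h.Xp, abs_of_nonneg (by linarith [(f.br z).1] : 0 ≤ r z)] at h1
  have h2 : r z * |J z| ≤ 3 / 2 * (2 * ε⁻¹ ^ 2) :=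
    mul_le_mul (f.br z).2 (f.bJ z) (abs_nonneg _) (by norm_num)
  have h0 : 0 ≤ Λ / X := div_nonneg h.Lp.le h.Xp.le
  have h3 : Λ / X * |r z * J z - X| ≤ Λ / X * (3 * ε⁻¹ ^ 2 + X) :=
    mul_le_mul_of_nonneg_left (by linarith) h0
  rw [mul_add, div_mul_cancel₀ _ h.Xp.ne'] at h3
  have h4 : Λ / X * (3 * ε⁻¹ ^ 2) ≤ ε⁻¹ ^ 5 * (3 * ε⁻¹ ^ 2) :=
    mul_le_mul_of_nonneg_right h.ratio (by positivity)
  have h5 : ε⁻¹ ^ 5 * (3 * ε⁻¹ ^ 2) = 3 * ε⁻¹ ^ 7 := by ring
  linarith [h.L1, h.i7]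

lemma cN {k : ℕ} (hk : k < m) : Continuous (Nk ε m k P pt u) := by
  have := cWk h f hk; have := f.cp
  exact cont_ln (by fun_prop) _ _

lemma cT {k : ℕ} (hk : k < m) : Continuous (Tk ε m l k P qt u) := by
  have := cWk h f hk; have := f.cq
  exact cont_ln (by fun_prop) _ _

lemma cQ {k : ℕ} (hk : k < m) : Continuous (Qk ε m k Λ P pt u) := by
  have := cWk h f hk; have := f.cp
  exact cont_ln (by fun_prop) _ _

lemma cE {k : ℕ} (hk : k < m) : Continuous (Ek ε m k Λ X P pt J u) := by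
  have := cbk h f hk; have := f.cp; have := f.cJ
  exact cont_ln (by fun_prop) _ _

lemma cA {k : ℕ} (hk : k < m) : Continuous (Ak ε m k P pt u) := by
  have := cbk h f hk; have := f.cp
  exact continuous_ln (continuous_th _) (by fun_prop) _ _

include t

lemma sum_T : ∑ k ∈ Finset.range m, cv 1 (Tk ε m l k P qt u) y₀ ≤
    m * (61 * (C₀ * v * (Λ * ε ^ 2))) := by
  have e0 := h.e0; have := h.mp; have := h.lp; have := f.cq; have := cW h f
  refine (key (c := 10 * (m * l)) (a := C₀ * β * Λ) h.e0 h.eC f.hu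
    (fun k hk => by have := cWk h f (Finset.mem_range.1 hk); fun_prop) (by fun_prop)
    (by positivity) (fun z => abs_W1_mul _ _ (abs_nonneg _)
      (h.big ((f.bq z).trans (by linarith [h.i7, h.i1])))) (fun z => ?_) t.m2).trans ?_
  · calc _ ≤ ∑ k ∈ Finset.range m, Wk ε m k (P z) * (|qt z| * (2 * (m * l / ε ^ 70))) := by
          refine Finset.sum_le_sum fun k hk => ?_
          have hk' : (k : ℝ) / m ≤ 1 := by
            rw [div_le_one h.mp]; exact_mod_cast (Finset.mem_range.1 hk).le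
          have := (Wk_mem ε m k (P z)).1
          rw [mul_assoc, om]
          gcongr
          linarith
      _ ≤ 5 * W1 ε (P z) * (|qt z| * (2 * (m * l / ε ^ 70))) := by
          rw [← Finset.sum_mul]
          exact mul_le_mul_of_nonneg_right (sum_Wk_le ε h.m2 _) (by positivity)
      _ = _ := by ring
  · have h1 := h.sm h.a1
    have h2 := h.fac h.le 25 (by norm_num)
    have h4 := h.err
    have h5 : 10 * (m * l) * (6 * (C₀ * β * Λ) * ε ^ 2 + ε ^ 25) =
      m * (60 * (C₀ * (l * β) * (Λ * ε ^ 2)) + 10 * (l * ε ^ 25)) := by ring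
    rw [h5]
    exact mul_le_mul_of_nonneg_left (by linarith [pow_pos e0 11]) h.mp.le

lemma sum_N : ∑ k ∈ Finset.range m, cv 1 (Nk ε m k P pt u) y₀ ≤
    31 * (C₀ * v * (Λ * ε ^ 2)) := by
  have e0 := h.e0; have := h.mp; have := f.cp; have := cW h f; have := t.cont
  refine (key (c := 5 * m) (a := C₀ * β ^ 2 * Λ) h.e0 h.eC f.hu
    (fun k hk => by have := cWk h f (Finset.mem_range.1 hk); fun_prop) (by fun_prop)
    (by positivity) (fun z => abs_W1_mul _ _ (t.nn _) ((t.le z).trans (h.ipw (by norm_num))))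
    (fun z => ?_) t.m1).trans ?_
  · have := t.nn z
    calc _ ≤ ∑ k ∈ Finset.range m, Wk ε m k (P z) * (eb z * (m / ε ^ 70)) := by
          refine Finset.sum_le_sum fun k _ => ?_
          have := (Wk_mem ε m k (P z)).1
          have := max_le (t.neg z) (t.nn z)
          rw [mul_assoc]
          gcongr
      _ ≤ 5 * W1 ε (P z) * (eb z * (m / ε ^ 70)) := by
          rw [← Finset.sum_mul]
          exact mul_le_mul_of_nonneg_right (sum_Wk_le ε h.m2 _) (by positivity)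
      _ = _ := by ring
  · have h1 := h.sm h.a5
    have h2 := h.fac h.me 25 (by norm_num)
    have h4 := h.err
    have h5 : 5 * m * (6 * (C₀ * β ^ 2 * Λ) * ε ^ 2 + ε ^ 25) =
      30 * (C₀ * (m * β ^ 2) * (Λ * ε ^ 2)) + 5 * (m * ε ^ 25) := by ring
    linarith [pow_pos e0 11]

lemma sum_Q : ∑ k ∈ Finset.range m, cv 1 (Qk ε m k Λ P pt u) y₀ ≤
    m * (720 * (Λ * ε ^ 2) + 61 * (C₀ * v * (Λ * ε ^ 2))) := by
  have e0 := h.e0; have := h.mp; have := f.cp; have := cW h f; have := f.cr; have := h.Lp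
  refine (key (c := 5 * m) (a := 24 * Λ + 2 * (C₀ * √(lg ε) * β * Λ))
    (H := fun z => W1 ε (P z) * (3 * Λ + 2 * |r z * pt z - Λ|)) h.e0 h.eC f.hu
    (fun k hk => by have := cWk h f (Finset.mem_range.1 hk); fun_prop) (by fun_prop)
    (by positivity) (fun z => abs_W1_mul _ _ (by positivity)
      (h.big (by linarith [b_rp h f z, h.L1, h.i7, h.i1]))) (fun z => ?_) ?_).trans ?_
  · calc _ ≤ ∑ k ∈ Finset.range m,
            Wk ε m k (P z) * ((3 * Λ + 2 * |r z * pt z - Λ|) * (m / ε ^ 70)) := by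
          refine Finset.sum_le_sum fun k _ => ?_
          have := (Wk_mem ε m k (P z)).1
          have h1 := half (x := pt z) (f.br z).1
          have h2 := abs_add_le (r z * pt z - Λ) Λ
          rw [sub_add_cancel, abs_of_pos h.Lp] at h2
          have : |pt z| + Λ ≤ 3 * Λ + 2 * |r z * pt z - Λ| := by linarith
          rw [mul_assoc]
          gcongr
      _ ≤ 5 * W1 ε (P z) * ((3 * Λ + 2 * |r z * pt z - Λ|) * (m / ε ^ 70)) := by
          rw [← Finset.sum_mul]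
          exact mul_le_mul_of_nonneg_right (sum_Wk_le ε h.m2 _) (by positivity)
      _ = _ := by ring
  · have : (fun z => W1 ε (P z) * (3 * Λ + 2 * |r z * pt z - Λ|)) =
        fun z => 3 * Λ * W1 ε (P z) + 2 * (W1 ε (P z) * |r z * pt z - Λ|) := by
      funext z; ring
    rw [this, cv_add (by fun_prop) (by fun_prop), cv_const_mul, cv_const_mul]
    have := mul_le_mul_of_nonneg_left t.m0 (by positivity : 0 ≤ 3 * Λ)
    linarith [t.m3]
  · have h1 := h.sm h.a3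
    have h3 := h.pw (a := 11) (b := 25) (by norm_num)
    have h4 := h.err
    have h5 : 5 * m * (6 * (24 * Λ + 2 * (C₀ * √(lg ε) * β * Λ)) * ε ^ 2 + ε ^ 25) =
      m * (720 * (Λ * ε ^ 2) + 60 * (C₀ * (√(lg ε) * β) * (Λ * ε ^ 2)) + 5 * ε ^ 25) := by ring
    rw [h5]
    exact mul_le_mul_of_nonneg_left (by linarith [pow_pos e0 11]) h.mp.le

lemma sum_E : (1 + Real.log m) *
    ∑ k ∈ Finset.range m, cv 1 (fun y => Ek ε m k Λ X P pt J u y + ε ^ 20) y₀ ≤
    97 * (C₀ * v * (Λ * ε ^ 2)) := by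
  have e0 := h.e0; have := h.mp; have := f.cp; have := cW h f; have := f.cr; have := h.Lp
  have := h.Xp; have := f.cJ
  have h1 : ∑ k ∈ Finset.range m, cv 1 (Ek ε m k Λ X P pt J u) y₀ ≤
      2 * m * (6 * (8 * (C₀ * √(lg ε) * β * Λ) + 8 * ε ^ 11) * ε ^ 2 + ε ^ 25) := by
    refine key (H := fun z => W1 ε (P z) *
        (4 * (Λ / X * |r z * J z - X|) + 4 * |r z * pt z - Λ| + ε ^ 11)) h.e0 h.eC f.hu
      (fun k hk => by have := cbk h f (Finset.mem_range.1 hk); fun_prop) (by fun_prop)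
      (by positivity) (fun z => abs_W1_mul _ _ (by positivity) (h.big ?_)) (fun z => ?_) ?_
    · have := h.pw (a := 0) (b := 11) (by norm_num)
      rw [pow_zero] at this
      linarith [b_rp h f z, b_rJ h f z, h.i7, h.i1]
    · calc _ ≤ ∑ k ∈ Finset.range m, bk ε m k (P z) * (m / ε ^ 70 *
            (4 * (Λ / X * |r z * J z - X|) + 4 * |r z * pt z - Λ| + ε ^ 11)) := by
            refine Finset.sum_le_sum fun k _ => ?_
            have : 0 ≤ bk ε m k (P z) := bb_nonneg _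
            have h1 := half (x := J z * Λ / X - pt z) (f.br z).1
            have h2 : r z * (J z * Λ / X - pt z) =
                Λ / X * (r z * J z - X) - (r z * pt z - Λ) := by field_simp; ring
            have h3 := abs_sub (Λ / X * (r z * J z - X)) (r z * pt z - Λ)
            rw [← h2, abs_mul (Λ / X), abs_of_pos (div_pos h.Lp h.Xp)] at h3
            have : 2 * |J z * Λ / X - pt z| + ε ^ 11 ≤
              4 * (Λ / X * |r z * J z - X|) + 4 * |r z * pt z - Λ| + ε ^ 11 := by linarith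
            rw [mul_assoc]
            gcongr
        _ ≤ 2 * W1 ε (P z) * (m / ε ^ 70 *
            (4 * (Λ / X * |r z * J z - X|) + 4 * |r z * pt z - Λ| + ε ^ 11)) := by
            rw [← Finset.sum_mul]
            exact mul_le_mul_of_nonneg_right (sum_bk_le ε m _) (by positivity)
        _ = _ := by ring
    · have : (fun z => W1 ε (P z) *
          (4 * (Λ / X * |r z * J z - X|) + 4 * |r z * pt z - Λ| + ε ^ 11)) =
          fun z => 4 * (Λ / X) * (W1 ε (P z) * |r z * J z - X|) +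
            4 * (W1 ε (P z) * |r z * pt z - Λ|) + ε ^ 11 * W1 ε (P z) := by
        funext z; ring
      rw [this, cv_add (by fun_prop) (by fun_prop), cv_add (by fun_prop) (by fun_prop),
        cv_const_mul, cv_const_mul, cv_const_mul]
      have a1 := mul_le_mul_of_nonneg_left t.m0 (by positivity : 0 ≤ ε ^ 11)
      have a2 := mul_le_mul_of_nonneg_left t.m4 (by positivity : 0 ≤ 4 * (Λ / X))
      have a3 : 4 * (Λ / X) * (C₀ * √(lg ε) * β * X * ε ^ 20) =
        4 * (C₀ * √(lg ε) * β * Λ * ε ^ 20) := by field_simp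
      linarith [t.m3]
  have h2 : ∑ k ∈ Finset.range m, cv 1 (fun y => Ek ε m k Λ X P pt J u y + ε ^ 20) y₀ =
      ∑ k ∈ Finset.range m, cv 1 (Ek ε m k Λ X P pt J u) y₀ + m * ε ^ 20 := by
    rw [Finset.sum_congr rfl fun k hk => by
      rw [cv_add (cE h f (Finset.mem_range.1 hk)) continuous_const, cv_const],
      Finset.sum_add_distrib, Finset.sum_const, Finset.card_range, nsmul_eq_mul]
  have h3 : 0 ≤ 1 + Real.log m := by have := Real.log_natCast_nonneg m; linarith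
  have h4 : (1 + Real.log m) * m * ε ≤ 1 := by
    have := Real.log_le_sub_one_of_pos h.mp
    refine le_trans ?_ h.mme
    rw [sq]; gcongr; linarith
  rw [h2]
  refine (mul_le_mul_of_nonneg_left (add_le_add_left h1 _) h3).trans ?_
  have h5 := h.sm h.a4
  have h6 : (1 + Real.log m) *
      (2 * m * (6 * (8 * (C₀ * √(lg ε) * β * Λ) + 8 * ε ^ 11) * ε ^ 2 + ε ^ 25) + m * ε ^ 20) =
      96 * (C₀ * ((1 + Real.log m) * m * (√(lg ε) * β)) * (Λ * ε ^ 2)) +
        96 * ((1 + Real.log m) * m * ε ^ 13) + 2 * ((1 + Real.log m) * m * ε ^ 25) +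
        (1 + Real.log m) * m * ε ^ 20 := by ring
  linarith [h.fac h4 13 (by norm_num), h.fac h4 25 (by norm_num), h.fac h4 20 (by norm_num), h.err, pow_pos e0 11]

lemma mean_e : cv 1 (fun y => ln (ε ^ 52) u (fun _ => 1)
      (fun z => W1 ε (P z) * |r z * pt z - Λ|) y * (m / ε ^ 70) / δ + m * ε ^ 25) y₀ ≤
    7 * (C₀ * v * (Λ * ε ^ 2)) := by
  have e0 := h.e0; have := h.mp; have := f.cp; have := cW h f; have := f.cr; have := h.dp
  have hc : Continuous fun z => W1 ε (P z) * |r z * pt z - Λ| := by fun_prop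
  have := cont_ln hc (ε ^ 52) u
  have h1 := key1 (c := ε ^ 70) (a := C₀ * √(lg ε) * β * Λ) h.e0 h.eC f.hu hc hc (by positivity)
    (fun z => abs_W1_mul _ _ (abs_nonneg _) (h.big (by linarith [b_rp h f z, h.i7, h.i1])))
    (fun z => by rw [div_self (by positivity), one_mul]) t.m3
  rw [cv_add (by fun_prop) continuous_const, cv_const, cv_div_const, cv_mul_const]
  have h2 := div_le_div_of_nonneg_right
    (mul_le_mul_of_nonneg_right h1 (by positivity : 0 ≤ m / ε ^ 70)) h.dp.le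
  have h3 : ε ^ 70 * (6 * (C₀ * √(lg ε) * β * Λ) * ε ^ 2 + ε ^ 25) * (m / ε ^ 70) / δ =
      6 * (C₀ * (m / δ * (√(lg ε) * β)) * (Λ * ε ^ 2)) + m * ε ^ 24 * (ε / δ) := by
    field_simp
  have h4 := h.sm (h.a6.trans (h.vpw 2))
  have h5 : m * ε ^ 24 * (ε / δ) ≤ m * ε ^ 24 :=
    mul_le_of_le_one_right (by positivity) ((div_le_one h.dp).2 h.d0)
  linarith [h.fac h.me 24 (by norm_num), h.fac h.me 25 (by norm_num), h.err, pow_pos e0 11]

lemma mean_w : cv 1 (fun y => ln (ε ^ 52) u (fun _ => 1)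
      (fun z => 2 * W1 ε (P z) * eb z) y / ε ^ 70) y₀ ≤
    12 * (C₀ * β ^ 2 * (Λ * ε ^ 2)) + 2 * ε ^ 25 := by
  have e0 := h.e0; have := cW h f; have := t.cont
  have h1 := key1 (c := 2 * ε ^ 70) (a := C₀ * β ^ 2 * Λ) (G := fun z => 2 * W1 ε (P z) * eb z)
    h.e0 h.eC f.hu (by fun_prop) (by fun_prop) (by positivity)
    (fun z => abs_W1_mul _ _ (t.nn _) ((t.le z).trans (h.ipw (by norm_num))))
    (fun z => le_of_eq (by field_simp)) t.m1
  rw [cv_div_const, div_le_iff₀ (by positivity)]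
  linarith

lemma mean_Z : cv 1 (ln (ε ^ 52) u (fun _ => 1) fun z => 2 * W1 ε (P z) / ε ^ 53) y₀ ≤
    98 * ε ^ 19 := by
  have e0 := h.e0; have := cW h f
  have h1 := key1 (c := 2 * ε ^ 17) (a := 8) (G := fun z => 2 * W1 ε (P z) / ε ^ 53)
    h.e0 h.eC f.hu (by fun_prop) (cW h f) (by positivity)
    (fun z => by
      rw [abs_of_nonneg (W1_mem _ _).1]
      exact (W1_mem _ _).2.trans (by simpa using h.ipw (a := 0) (b := 8) (by norm_num)))
    (fun z => le_of_eq (by field_simp)) t.m0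
  have := h.pw (a := 19) (b := 42) (by norm_num)
  linarith

lemma lower {U : ℕ → E d → ℂ} (hU : ∀ k < m, Continuous (U k))
    (hA : ∀ k < m, 3 * (Λ * ε ^ 2) - 18 * Cw d * ε ^ 52 ≤ cv 1 (Ak ε m k P pt u) y₀)
    (hl : ∀ k < m, ∀ y, ∃ b, Ak ε m k P pt u y ≤ 1 ∧
      Ak ε m k P pt u y - Tk ε m l k P qt u y - 10 * Nk ε m k P pt u y ≤ b ∧
      (Qk ε m k Λ P pt u y < 1 → Ak ε m k P pt u y = 0) ∧ b ≤ ‖U k y‖ + ε ^ 25) :
    m * (3 / 250 * (Λ * ε ^ 2) - 3 * (C₀ * v * (Λ * ε ^ 2))) ≤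
      ∑ k ∈ Finset.range m, cv 1 (fun y => min ‖U k y‖ 1 ^ 2) y₀ := by
  have e0 := h.e0; have := h.mp; have := h.lp; have := h.Lp
  have h1 : ∑ k ∈ Finset.range m, ((3 * (Λ * ε ^ 2) - ε ^ 11 - cv 1 (Tk ε m l k P qt u) y₀ -
      10 * cv 1 (Nk ε m k P pt u) y₀ - ε ^ 25) / 150 - cv 1 (Qk ε m k Λ P pt u) y₀ / 90000) ≤
      ∑ k ∈ Finset.range m, cv 1 (fun y => min ‖U k y‖ 1 ^ 2) y₀ := by
    refine Finset.sum_le_sum fun k hk => ?_
    have hk' := Finset.mem_range.1 hk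
    have c1 := cA h f hk'; have c2 := cT h f hk'; have c3 := cN h f hk'; have c4 := cQ h f hk'
    have c5 := hU k hk'
    refine le_trans ?_ (cv_mono (G := fun z => (Ak ε m k P pt u z - Tk ε m l k P qt u z -
      10 * Nk ε m k P pt u z - ε ^ 25) / 150 - Qk ε m k Λ P pt u z / 90000) (by fun_prop)
      (by fun_prop) zero_le_one fun y _ => ?_)
    · rw [cv_comb c1 c2 c3 c4]
      linarith [hA k hk', h.fac h.eC 52 (by norm_num)]
    · obtain ⟨b, b1, b2, b3, b4⟩ := hl k hk' y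
      have hW := fun z => (Wk_mem ε m k (P z)).1
      refine pointwise (ln_nonneg (by positivity) _ (fun z => ?_) _)
        (ln_nonneg (by positivity) _ (fun z => ?_) _)
        (ln_nonneg (by positivity) _ (fun z => ?_) _) (by positivity) b1 b2 b3 b4
      · have := hW z; unfold om; positivity
      · have := hW z; positivity
      · have := hW z; positivity
  refine le_trans ?_ h1
  simp only [Finset.sum_sub_distrib, ← Finset.sum_div, ← Finset.mul_sum, Finset.sum_const,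
    Finset.card_range, nsmul_eq_mul]
  have h2 := mul_le_mul_of_nonneg_right h.m1 h.gp.le
  have h3 := mul_le_mul_of_nonneg_left h.err h.mp.le
  have h4 := mul_le_mul_of_nonneg_left (h.pw (a := 11) (b := 25) (by norm_num)) h.mp.le
  have h5 : 0 < m * ε ^ 11 := by positivity
  linarith [sum_T h f t, sum_N h f t, sum_Q h f t]

lemma sum_x : ∑ k ∈ Finset.range m, cv 1 (fun y => 4 * Nk ε m k P pt u y + ε ^ 25) y₀ ≤
    125 * (C₀ * v * (Λ * ε ^ 2)) := by
  rw [Finset.sum_congr rfl fun k hk => by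
      have := cN h f (Finset.mem_range.1 hk)
      rw [cv_add (by fun_prop) continuous_const, cv_const, cv_const_mul],
    Finset.sum_add_distrib, Finset.sum_const, Finset.card_range, nsmul_eq_mul, ← Finset.mul_sum]
  linarith [sum_N h f t, h.fac h.me 25 (by norm_num), h.err, pow_pos h.e0 11]

end means

end Test

open Test in
theorem test (d : ℕ) (_hd : 2 ≤ d) (h1 : LeafStmt) (h2 : OrthoStmt d) (h3 : TestAStmt d)
    (h4 : TestBStmt d) : TestStmt d := by
  intro C₀ hC₀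
  obtain ⟨C, hC, ortho⟩ := h2
  refine small_iff.2 ?_
  filter_upwards [ev_pos, ev_mul_le 100, ev_mul_le (18 * Cw d), ev_le_lg ((40000 * C * C₀) ^ 2),
    ev_lg_pow 1, small_iff.1 h1, small_iff.1 h3, small_iff.1 h4] with ε e0 e1 eC eK eL leaf tA tB
  intro q p eb u' u y₀ δ l Λ X hq hp hon d0 d1 l1 l2 m2 hΛ L0 X0 LX t
  have hu := hon.2.1
  have L1 : Λ ≤ ε⁻¹ := by
    rw [hΛ]
    exact (le_abs_self _).trans (norm_cv_le zero_le_one fun z _ => hp.dd_le hu z)
  obtain ⟨h, hK⟩ := num_of (d := d) e0 e1 eC (by nlinarith) eK eL hC₀ d0 d1 l1 l2 m2 L0 L1 X0 LX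
  have hP := hp.cv (ε ^ 120)
  have hQ := hq.cv (ε ^ 120)
  have f : Fld ε (cv (ε ^ 120) p) (r0 ε δ l q p) (dd (cv (ε ^ 120) p) u) (dd (cv (ε ^ 120) q) u)
      (cv (ε ^ 120) (jac q p u' u)) u :=
    ⟨hu, hP.cont, continuous_r0 e0 h.e2 _ _ hq.cont hp.cont, continuous_dd hP.cd1 u,
      continuous_dd hQ.cd1 u, continuous_cv (continuous_jac hq.cd1 hp.cd1 _ _) _,
      r0_mem h.dp.le d1 _ _ _, hP.dd_le hu, hQ.dd_le hu,
      fun z => (norm_cv_le (G := jac q p u' u) (y := z) (pow_pos e0 120).le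
        fun z _ => abs_jac_le hq hp hon.1 hu z :)⟩
  obtain ⟨hS, tB⟩ := tB q p eb u' u δ l Λ hq hp hon h.dp h.Lp.le t.cont t.nn t.neg t.sq
  generalize mm ε δ l = m at h m2 tB hS
  generalize (√(lg ε))⁻¹ = v at h hK
  replace tA := fun k hk => tA q p u' u m k l Λ X hq hp hon m2 hk h.ml l2 L0 L1 X0
  have lf := fun (k : ℕ) (hk : k < m) (y : E d) =>
    (leaf _ _ (hasDerivAt_line hP.cd1 u y) (f.cp.comp (by fun_prop)) fun τ => f.bp _).2 _ _ m k l Λ
      (Ak ε m k _ _ u y) (Nk ε m k _ _ u y) (Tk ε m l k _ _ u y) (Qk ε m k Λ _ _ u y)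
      (Ub ε m l k q p u y) (hasDerivAt_line hQ.cd1 u y) (f.cq.comp (by fun_prop)) m2 hk h.lp.le L0
      rfl rfl (ln_one _ _ _ _) (ln_one _ _ _ _) (ln_one _ _ _ _)
  have hlow := lower h f t (U := fun k => Uk ε m l k q p u) (fun k hk => (tA k hk).1.continuous)
    (fun k hk => by rw [hΛ]; exact A_lower e0 h.e2 hp hu hk y₀) fun k hk y =>
      ⟨_, (lf k hk y).1, (lf k hk y).2.2.1, (lf k hk y).2.2.2, by
        have := norm_sub_norm_le (Ub ε m l k q p u y) (Uk ε m l k q p u y)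
        rw [norm_sub_rev] at this
        linarith [((tA k hk).2.2 y).1]⟩
  have := h.mp; have := h.lp; have := h.Lp; have := h.Xp; have := h.dp
  have cw := cW h f; have := t.cont; have := f.cr; have := f.cp
  have hW := fun z => (W1_mem ε (cv (ε ^ 120) p z)).1
  obtain ⟨w, hw⟩ : ∃ w : E d → ℝ, w = fun y => ln (ε ^ 52) u (fun _ => 1)
    (fun z => 2 * W1 ε (cv (ε ^ 120) p z) * eb z) y / ε ^ 70 := ⟨_, rfl⟩
  obtain ⟨Z, hZ⟩ : ∃ Z : E d → ℝ, Z = ln (ε ^ 52) u (fun _ => 1)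
    fun z => 2 * W1 ε (cv (ε ^ 120) p z) / ε ^ 53 := ⟨_, rfl⟩
  have mw := mean_w h f t
  have mZ := mean_Z h f t
  rw [← hw] at mw
  rw [← hZ] at mZ tB
  have cw' : Continuous w := by rw [hw]; exact (cont_ln (by fun_prop) _ _).div_const _
  have cZ : Continuous Z := by rw [hZ]; exact cont_ln (by fun_prop) _ _
  have w0 : ∀ y, 0 ≤ w y := fun y => by
    rw [hw]
    exact div_nonneg (ln_nonneg (by positivity) _
      (fun z => by have := hW z; have := t.nn z; positivity) _) (by positivity)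
  have Z0 : ∀ y, 0 ≤ Z y := fun y => by
    rw [hZ]; exact ln_nonneg (by positivity) _ (fun z => by have := hW z; positivity) _
  refine (fun hup => ?_ : _ → False) <|
    ortho m (X / Λ * (m * l / ε ^ 70)) u' y₀ (fun k => Uk ε m l k q p u)
    (fun k y => Ek ε m k Λ X (cv (ε ^ 120) p) (dd (cv (ε ^ 120) p) u)
      (cv (ε ^ 120) (jac q p u' u)) u y + ε ^ 20)
    (fun k y => 4 * Nk ε m k (cv (ε ^ 120) p) (dd (cv (ε ^ 120) p) u) u y + ε ^ 25)
    (Sg ε δ Λ m p u) (fun y => ln (ε ^ 52) u (fun _ => 1) (fun z => W1 ε (cv (ε ^ 120) p z) *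
      |r0 ε δ l q p z * dd (cv (ε ^ 120) p) u z - Λ|) y * (m / ε ^ 70) / δ + m * ε ^ 25)
    (fun y => 2 * (Λ ^ 2 / (δ * X * l)) * √(w y))
    (fun y => Λ ^ 2 / (δ * X * l) * w y + Λ / (δ * X * l) * Z y) m2
    (le_trans (by simpa using h.ipw (a := 0) (b := 65) (by norm_num)) h.om_ge) hon.1
    (fun k hk => ⟨(tA k hk).1, (cE h f hk).add continuous_const,
      by have := cN h f hk; fun_prop, fun y => ⟨?_, ?_, ?_⟩⟩) hS
    ((((cont_ln (by fun_prop) _ _).mul continuous_const).div_const _).add continuous_const)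
    (by fun_prop) (by fun_prop) fun y => ⟨by positivity, ?_, ?_, ?_⟩
  · have g1 : cv 1 (fun y => (2 * (Λ ^ 2 / (δ * X * l)) * √(w y)) ^ 2) y₀ =
        (2 * (Λ ^ 2 / (δ * X * l))) ^ 2 * cv 1 w y₀ := by
      rw [← cv_const_mul]
      congr 1
      funext y
      rw [mul_pow, Real.sq_sqrt (w0 y)]
    have g0 : cv 1 (fun y => Λ ^ 2 / (δ * X * l) * w y + Λ / (δ * X * l) * Z y) y₀ =
        Λ ^ 2 / (δ * X * l) * cv 1 w y₀ + Λ / (δ * X * l) * cv 1 Z y₀ := by
      rw [cv_add (by fun_prop) (by fun_prop), cv_const_mul, cv_const_mul]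
    rw [g1, g0] at hup
    have g2 := mul_le_mul_of_nonneg_left (sum_E h f t) h.mp.le
    have g3 := mul_le_mul_of_nonneg_left (sum_x h f t) h.mp.le
    have g4 := mul_le_mul_of_nonneg_left (mean_e h f t) h.mp.le
    have g5 := mul_le_mul_of_nonneg_left (h.y2 mw mZ) h.mp.le
    rw [← mul_assoc] at g2
    have g6 := hlow.trans (hup.trans (mul_le_mul_of_nonneg_left
      (add_le_add (add_le_add (add_le_add (add_le_add (add_le_add g2 g3) g4) (h.y1 mw)) g5) h.cube)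
      (by linarith)))
    have g7 : 0 < m * (Λ * ε ^ 2) := by positivity
    have g8 := mul_le_mul_of_nonneg_right hK g7.le
    have g9 := mul_le_mul_of_nonneg_right hC (mul_pos h.mp h.gp).le
    linarith
  · have : 0 ≤ Nk ε m k (cv (ε ^ 120) p) (dd (cv (ε ^ 120) p) u) u y :=
      ln_nonneg (by positivity) _ (fun z => by
        have := (Wk_mem ε m k (cv (ε ^ 120) p z)).1; positivity) _
    positivity
  · have := norm_sub_norm_le (Uk ε m l k q p u y) (Ub ε m l k q p u y)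
    linarith [((tA k hk).2.2 y).1, (lf k hk y).2.1]
  · have : X / Λ * (m * l / ε ^ 70) * (1 + (k : ℝ) / m) = X / Λ * om ε m l k := by
      unfold om; ring
    rw [this]
    exact ((tA k hk).2.2 y).2
  · have := w0 y; have := Z0 y; positivity
  · have g1 : |∑ k ∈ Finset.range m, (Ub ε m l k q p u y).re -
        ∑ k ∈ Finset.range m, (Uk ε m l k q p u y).re| ≤ m * ε ^ 25 := by
      rw [← Finset.sum_sub_distrib]
      refine (Finset.abs_sum_le_sum_abs _ _).trans ((Finset.sum_le_card_nsmul _ _ (ε ^ 25)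
        fun k hk => ?_).trans_eq (by rw [Finset.card_range, nsmul_eq_mul]))
      rw [← Complex.sub_re]
      refine (Complex.abs_re_le_norm _).trans ?_
      rw [norm_sub_rev]
      exact ((tA k (Finset.mem_range.1 hk)).2.2 y).1
    exact (abs_sub_le _ _ _).trans (add_le_add (tB y).1 g1)
  · refine ((tB y).2 (w y) (by rw [hw])).trans_eq ?_
    field_simp
    ring

end Pool.Agent.MP_20bec2_an.h7

end
end MrgPart1

-- marker of a merged file
example : 731051 + 862962 = 731051 + 862962 := rfl
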