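import Mathlib.MeasureTheory.Integral.IntervalIntegral.IntegrationByParts
import Mathlib.MeasureTheory.Function.SpecialFunctions.Inner
import Pool.Agent.MP_20bec2_an.h7.Net

-- ======== part 0: formerly Pool.Agent.MP_20bec2_an.h7.Ctx
section MrgPart0

/-! From a solution of the pushforward equation to a context (project BIOM). -/

set_option autoImplicit false

open MeasureTheory Set Metric Filter Topology

noncomputable section

namespace Pool.Agent.MP_20bec2_an.h7

namespace CtxM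

variable {d : ℕ}

theorem measurableSet_cube : MeasurableSet (cube d) := by
  have : cube d = ⋂ i, (fun x : E d => x i) ⁻¹' Icc (0 : ℝ) 1 := by
    ext x; simp [cube]
  rw [this]
  exact (isClosed_iInter fun i => isClosed_Icc.preimage (by fun_prop)).measurableSet

/-- change of variables from the pushforward equation -/
theorem push {f : E d → E d} {ρ : E d → ℝ} (hf : ContinuousOn f (cube d))
    (hρ : ContinuousOn ρ (cube d)) (hρ0 : ∀ x ∈ cube d, 0 ≤ ρ x)
    (hp : ∀ B, MeasurableSet B →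
      ∫⁻ x in cube d ∩ f ⁻¹' B, ENNReal.ofReal (ρ x) = volume (B ∩ f '' cube d))
    {G : E d → ℝ} (hG : Measurable G) :
    ∫ z in f '' cube d, G z = ∫ x in cube d, G (f x) * ρ x := by
  classical
  have hc : MeasurableSet (cube d) := measurableSet_cube
  set g : E d → E d := (cube d).piecewise f fun _ => 0 with hg
  have hgm : Measurable g := hf.measurable_piecewise continuousOn_const hc
  have hgf : ∀ x ∈ cube d, g x = f x := fun x hx => piecewise_eq_of_mem _ _ _ hx
  have hρm : AEMeasurable (fun x => ENNReal.ofReal (ρ x)) (volume.restrict (cube d)) :=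
    (hρ.aemeasurable hc).ennreal_ofReal
  have hmap : Measure.map g ((volume.restrict (cube d)).withDensity fun x => ENNReal.ofReal (ρ x)) =
      volume.restrict (f '' cube d) := by
    ext B hB
    rw [Measure.map_apply hgm hB, withDensity_apply _ (hgm hB), Measure.restrict_restrict (hgm hB),
      Measure.restrict_apply hB, ← hp B hB]
    congr 2
    ext x
    simp only [mem_inter_iff, mem_preimage]
    constructor
    · rintro ⟨h1, h2⟩; exact ⟨h2, hgf x h2 ▸ h1⟩
    · rintro ⟨h1, h2⟩; exact ⟨(hgf x h1).symm ▸ h2, h1⟩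
  rw [← hmap, integral_map hgm.aemeasurable hG.aestronglyMeasurable,
    integral_withDensity_eq_integral_toReal_smul₀ hρm
      (Eventually.of_forall fun _ => ENNReal.ofReal_lt_top)]
  refine setIntegral_congr_fun hc fun x hx => ?_
  simp only [smul_eq_mul]
  rw [ENNReal.toReal_ofReal (hρ0 x hx), hgf x hx, mul_comm]

theorem two_mul_le (hd : 2 ≤ d) {y z : E d} {μ η : ℝ} (hη : 0 < η)
    (h : ball y (2 * μ) ⊆ ball z η) : 2 * μ ≤ η := by
  by_contra hc
  rw [not_le] at hc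
  set u : E d := ax (⟨0, by omega⟩ : Fin d)
  have hu : ‖η • u‖ = η := by rw [norm_smul, norm_ax, mul_one, Real.norm_of_nonneg hη.le]
  have h1 : y + η • u ∈ ball z η := h (by rw [mem_ball_iff_norm, add_sub_cancel_left, hu]; exact hc)
  have h2 : y - η • u ∈ ball z η :=
    h (by rw [mem_ball_iff_norm, sub_sub_cancel_left, norm_neg, hu]; exact hc)
  rw [mem_ball_iff_norm] at h1 h2
  have h3 := norm_sub_le (y + η • u - z) (y - η • u - z)
  rw [show y + η • u - z - (y - η • u - z) = (2 : ℝ) • η • u by rw [two_smul]; abel, norm_smul,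
    hu, Real.norm_two] at h3
  linarith

/-- the kernel -/
def kr (μ : ℝ) (y z : E d) : ℝ := (μ ^ d)⁻¹ * ze d (μ⁻¹ • (y - z))

theorem continuous_kr (μ : ℝ) (y : E d) : Continuous (kr μ y) :=
  continuous_const.mul (continuous_ze.comp (by fun_prop))

theorem kr_nonneg {μ : ℝ} (hμ : 0 < μ) (y z : E d) : 0 ≤ kr μ y z :=
  mul_nonneg (by positivity) (ze_nonneg _)

theorem kr_le {μ : ℝ} (hμ : 0 < μ) (y z : E d) : kr μ y z ≤ Cw d / μ ^ d := by
  rw [div_eq_inv_mul]
  exact mul_le_mul_of_nonneg_left ((ze_le _).trans Cz_le_Cw) (by positivity)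

theorem kr_supp {μ : ℝ} (hμ : 0 < μ) {y z : E d} (h : kr μ y z ≠ 0) : ‖z - y‖ < μ := by
  by_contra hc
  refine h ?_
  unfold kr
  rw [ze_eq_zero, mul_zero]
  rw [norm_smul, norm_inv, Real.norm_of_nonneg hμ.le, norm_sub_rev, ← div_eq_inv_mul,
    le_div_iff₀ hμ, one_mul]
  exact not_lt.1 hc

theorem kr_lip {μ : ℝ} (hμ : 0 < μ) (y z z' : E d) :
    |kr μ y z - kr μ y z'| ≤ Cz d / μ ^ d / μ * ‖z - z'‖ := by
  unfold kr
  rw [← mul_sub, abs_mul, abs_of_pos (by positivity : 0 < (μ ^ d)⁻¹)]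
  refine (mul_le_mul_of_nonneg_left (ze_lip _ _) (by positivity)).trans (le_of_eq ?_)
  rw [← smul_sub, sub_sub_sub_cancel_left, norm_smul, norm_inv, Real.norm_of_nonneg hμ.le,
    norm_sub_rev]
  ring

theorem cv_eq_kr {μ : ℝ} (hμ : 0 < μ) (G : E d → ℝ) (y : E d) :
    cv μ G y = ∫ z, kr μ y z * G z := cv_eq_kernel G hμ y

theorem intOn {H : E d → ℝ} {c : E d} {r : ℝ}
    (hH : AEStronglyMeasurable H (volume.restrict (ball c r))) (M : ℝ)
    (hM : ∀ x ∈ ball c r, |H x| ≤ M) : IntegrableOn H (ball c r) :=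
  IntegrableOn.of_bound measure_ball_lt_top hH M
    ((ae_restrict_mem measurableSet_ball).mono fun x hx => hM x hx)

theorem wt_of {f Ψ : E d → E d} {ρ ρ' : E d → ℝ} {c y : E d} {r L L' σ σ' μ₀ μ : ℝ}
    {Y : Set (E d)} (hfc : ContinuousOn f (ball c r)) (hρc : ContinuousOn ρ (ball c r))
    (hρr : ∀ x ∈ ball c r, 1 / 2 ≤ ρ x ∧ ρ x ≤ 2) (hρm : Measurable ρ')
    (hρr' : ∀ x, 1 / 2 ≤ ρ' x ∧ ρ' x ≤ 2)
    (hpush : ∀ G : E d → ℝ, Measurable G → (∀ z, z ∉ Y → G z = 0) →
      ∫ z, G z = ∫ x in ball c r, G (f x) * ρ x)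
    (hhalf : ∀ x ∈ ball c r, f x ∈ Y → x ∈ ball c (r / 2))
    (hup : ∀ x ∈ ball c r, ∀ x' ∈ ball c r, ‖f x - f x'‖ ≤ L * ‖x - x'‖ + σ)
    (hΨ : Sm L' Ψ) (hinv : ∀ x ∈ ball c r, f x ∈ Y → ‖Ψ (f x) - x‖ ≤ σ')
    (hL : 1 ≤ L) (hL' : L ≤ L') (hσ : 0 < σ) (hσ' : Cw d * σ ≤ σ')
    (hap : ∫ x in ball c r, |ρ x - ρ' x| ≤ σ * μ₀ ^ d) (hμ₀ : 0 < μ₀) (hμ₁ : μ₀ ≤ μ)
    (hμr : μ ≤ r / 2) (hY : ball y (2 * μ) ⊆ Y) : ∃ ϑ, Wt L' σ' μ Ψ ρ' y ϑ := by
  classical
  have hμ : 0 < μ := hμ₀.trans_le hμ₁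
  have hCw : 1 ≤ Cw d := one_le_Cw
  have hCz : 1 ≤ Cz d := one_le_Cz
  have hσσ : σ ≤ σ' := by nlinarith
  have hb : MeasurableSet (ball c r) := measurableSet_ball
  have hkc : ContinuousOn (fun x => kr μ y (f x)) (ball c r) :=
    (continuous_kr μ y).comp_continuousOn hfc
  have hkm := hkc.aestronglyMeasurable (μ := volume) hb
  have hρa := hρc.aestronglyMeasurable (μ := volume) hb
  have hkY : ∀ z, kr μ y z ≠ 0 → z ∈ Y := fun z hz =>
    hY (mem_ball_iff_norm.2 (by linarith [kr_supp hμ hz]))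
  have hkabs : ∀ z, |kr μ y z| ≤ Cw d / μ ^ d := fun z => by
    rw [abs_of_nonneg (kr_nonneg hμ y z)]; exact kr_le hμ y z
  have hW : 0 ≤ Cw d / μ ^ d := by positivity
  have hρabs : ∀ x ∈ ball c r, |ρ x| ≤ 2 := fun x hx => by
    rw [abs_le]; constructor <;> linarith [(hρr x hx).1, (hρr x hx).2]
  have hρabs' : ∀ x, |ρ' x| ≤ 2 := fun x => by
    rw [abs_le]; constructor <;> linarith [(hρr' x).1, (hρr' x).2]
  set ϑ : E d → ℝ := (ball c r).indicator fun x => kr μ y (f x) with hϑ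
  have hϑin : ∀ x ∈ ball c r, ϑ x = kr μ y (f x) := fun x hx => indicator_of_mem hx _
  have hϑne : ∀ x, ϑ x ≠ 0 → x ∈ ball c r ∧ kr μ y (f x) ≠ 0 := fun x hx => by
    have h1 : x ∈ ball c r := mem_of_indicator_ne_zero hx
    exact ⟨h1, hϑin x h1 ▸ hx⟩
  have hI : ∀ H : E d → ℝ, ∫ x, ϑ x * H x = ∫ x in ball c r, kr μ y (f x) * H x := by
    intro H
    rw [← integral_indicator hb]
    congr 1
    ext x
    by_cases hx : x ∈ ball c r
    · rw [hϑin x hx, indicator_of_mem hx]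
    · rw [hϑ, indicator_of_notMem hx, indicator_of_notMem hx, zero_mul]
  have hki : IntegrableOn (fun x => kr μ y (f x)) (ball c r) := intOn hkm _ fun x _ => hkabs _
  have hkρi : IntegrableOn (fun x => kr μ y (f x) * ρ x) (ball c r) :=
    intOn (hkm.mul hρa) (Cw d / μ ^ d * 2) fun x hx => by
      rw [abs_mul]; exact mul_le_mul (hkabs _) (hρabs x hx) (abs_nonneg _) hW
  have hone : ∫ x in ball c r, kr μ y (f x) * ρ x = 1 := by
    rw [← hpush (kr μ y) (continuous_kr μ y).measurable fun z hz => by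
      by_contra h; exact hz (hkY z h)]
    have := cv_eq_kr hμ (fun _ => (1 : ℝ)) y
    rw [cv_const] at this
    simpa using this.symm
  have hint : ∫ x, ϑ x = ∫ x in ball c r, kr μ y (f x) := integral_indicator hb
  refine ⟨ϑ, ?_, ?_, ?_, ?_, ?_, ?_, ?_, ?_, ?_⟩
  · rw [hϑ, ← piecewise_eq_indicator]
    exact hkc.measurable_piecewise continuousOn_const hb
  · exact (integrable_indicator_iff hb).2 hki
  · exact fun x => indicator_nonneg (fun x _ => kr_nonneg hμ y _) x
  · exact fun x => indicator_le' (fun x _ => kr_le hμ y _) (fun _ _ => hW) x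
  · intro x hx
    obtain ⟨h1, h2⟩ := hϑne x hx
    have h3 := hinv x h1 (hkY _ h2)
    have h4 := hΨ.lip (f x) y
    have h5 := norm_sub_le_norm_sub_add_norm_sub x (Ψ (f x)) (Ψ y)
    rw [norm_sub_rev x (Ψ (f x))] at h5
    have h6 := mul_le_mul_of_nonneg_left (kr_supp hμ h2).le hΨ.nonneg
    linarith
  · have : ∫ x in ball c r, kr μ y (f x) * ρ x ≤ ∫ x in ball c r, kr μ y (f x) * 2 :=
      setIntegral_mono_on hkρi (hki.mul_const 2) hb fun x hx =>
        mul_le_mul_of_nonneg_left (hρr x hx).2 (kr_nonneg hμ y _)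
    rw [integral_mul_const, hone] at this
    rw [hint]; linarith
  · have : ∫ x in ball c r, kr μ y (f x) * (1 / 2) ≤ ∫ x in ball c r, kr μ y (f x) * ρ x :=
      setIntegral_mono_on (hki.mul_const _) hkρi hb fun x hx =>
        mul_le_mul_of_nonneg_left (hρr x hx).1 (kr_nonneg hμ y _)
    rw [integral_mul_const, hone] at this
    rw [hint]; linarith
  · intro s hs hsμ a ha
    have hsL : s ≤ L' * s := by nlinarith
    have haμ : ‖a‖ ≤ r / 2 := by linarith
    set K := Cz d / μ ^ d / μ * (L' * s + σ') with hK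
    have hK0 : 0 ≤ K := by
      have : 0 ≤ L' * s + σ' := by linarith
      positivity
    set χ : E d → ℝ := (ball y (2 * μ)).indicator fun _ => 1 with hχ
    have hχm : Measurable χ := measurable_const.indicator measurableSet_ball
    have hχ0 : ∀ z, 0 ≤ χ z := fun z => indicator_nonneg (fun _ _ => zero_le_one) z
    have hχ1 : ∀ z, |χ z| ≤ 1 := fun z => by
      rw [abs_of_nonneg (hχ0 z)]
      exact indicator_le' (fun _ _ => le_rfl) (fun _ _ => zero_le_one) z
    have hχi : IntegrableOn (fun x => χ (f x) * ρ x) (ball c r) :=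
      intOn ((hχm.comp_aemeasurable (hfc.aemeasurable hb)).aestronglyMeasurable.mul hρa) (1 * 2)
        fun x hx => by
          rw [abs_mul]; exact mul_le_mul (hχ1 _) (hρabs x hx) (abs_nonneg _) zero_le_one
    have hvol : ∫ x in ball c r, χ (f x) * ρ x ≤ Cz d * (2 * μ) ^ d := by
      rw [← hpush χ hχm fun z hz => indicator_of_notMem (fun h => hz (hY h)) _, hχ,
        integral_indicator_const _ measurableSet_ball, smul_eq_mul, mul_one]
      exact vol_ball_le y (by positivity)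
    have hpt : ∀ x, |ϑ x - ϑ (x - a)| ≤
        (ball c r).indicator (fun x => 2 * K * (χ (f x) * ρ x)) x := by
      intro x
      have hboth : ϑ x ≠ 0 ∨ ϑ (x - a) ≠ 0 → x ∈ ball c r ∧ x - a ∈ ball c r := by
        rintro (h | h)
        · obtain ⟨h1, h2⟩ := hϑne _ h
          have h3 := mem_ball_iff_norm.1 (hhalf _ h1 (hkY _ h2))
          refine ⟨h1, mem_ball_iff_norm.2 ?_⟩
          have := norm_sub_le (x - c) a
          rw [show x - c - a = x - a - c by abel] at this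
          linarith
        · obtain ⟨h1, h2⟩ := hϑne _ h
          have h3 := mem_ball_iff_norm.1 (hhalf _ h1 (hkY _ h2))
          refine ⟨mem_ball_iff_norm.2 ?_, h1⟩
          have := norm_add_le (x - a - c) a
          rw [show x - a - c + a = x - c by abel] at this
          linarith
      by_cases h : ϑ x ≠ 0 ∨ ϑ (x - a) ≠ 0
      · obtain ⟨h1, h2⟩ := hboth h
        have h3 : ‖f x - f (x - a)‖ ≤ L' * s + σ' := by
          have := hup x h1 (x - a) h2
          rw [sub_sub_cancel] at this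
          have h4 : L * ‖a‖ ≤ L' * s := mul_le_mul hL' ha (norm_nonneg _) (by linarith)
          linarith
        have h4 : f x ∈ ball y (2 * μ) := by
          rw [mem_ball_iff_norm]
          rcases h with h | h
          · linarith [kr_supp hμ (hϑne _ h).2]
          · have := norm_sub_le_norm_sub_add_norm_sub (f x) (f (x - a)) y
            linarith [kr_supp hμ (hϑne _ h).2]
        rw [indicator_of_mem h1, hϑin _ h1, hϑin _ h2, hχ, indicator_of_mem h4, one_mul]
        refine (kr_lip hμ y _ _).trans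
          ((mul_le_mul_of_nonneg_left h3 (by positivity)).trans ?_)
        rw [← hK]
        nlinarith [(hρr x h1).1]
      · push Not at h
        rw [h.1, h.2, sub_zero, abs_zero]
        exact indicator_nonneg (fun x hx => mul_nonneg (by positivity)
          (mul_nonneg (hχ0 _) (by linarith [(hρr x hx).1]))) x
    refine (integral_mono_of_nonneg (Eventually.of_forall fun x => abs_nonneg _)
      ((integrable_indicator_iff hb).2 (hχi.const_mul (2 * K))) (Eventually.of_forall hpt)).trans ?_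
    rw [integral_indicator hb, integral_const_mul]
    refine (mul_le_mul_of_nonneg_left hvol (by positivity)).trans (le_of_eq ?_)
    rw [hK, Cw]
    field_simp
    ring
  · intro G B K hK hB hG
    have hB0 : 0 ≤ B := (abs_nonneg _).trans (hB 0)
    have hGc : Continuous G := by
      refine (LipschitzWith.of_dist_le_mul (K := ⟨K, hK⟩) fun x x' => ?_).continuous
      rw [Real.dist_eq, dist_eq_norm]; exact hG x x'
    have hGΨ : Continuous fun z => G (Ψ z) := hGc.comp hΨ.cont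
    have hGa : AEStronglyMeasurable G (volume.restrict (ball c r)) := hGc.aestronglyMeasurable
    have hGf := (hGΨ.comp_continuousOn hfc).aestronglyMeasurable (μ := volume) hb
    have e1 : cv μ (fun z => G (Ψ z)) y = ∫ x in ball c r, kr μ y (f x) * G (Ψ (f x)) * ρ x := by
      rw [cv_eq_kr hμ]
      refine hpush _ ((continuous_kr μ y).mul hGΨ).measurable fun z hz => ?_
      have : kr μ y z = 0 := by by_contra h; exact hz (hkY z h)
      rw [this, zero_mul]
    have e2 : ∫ x, ϑ x * G x * ρ' x = ∫ x in ball c r, kr μ y (f x) * G x * ρ' x := by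
      simp only [mul_assoc]; exact hI _
    have i1 : IntegrableOn (fun x => kr μ y (f x) * G (Ψ (f x)) * ρ x) (ball c r) :=
      intOn ((hkm.mul hGf).mul hρa) (Cw d / μ ^ d * B * 2) fun x hx => by
        rw [abs_mul, abs_mul]
        exact mul_le_mul (mul_le_mul (hkabs _) (hB _) (abs_nonneg _) hW) (hρabs x hx)
          (abs_nonneg _) (by positivity)
    have i2 : IntegrableOn (fun x => kr μ y (f x) * G x * ρ' x) (ball c r) :=
      intOn ((hkm.mul hGa).mul hρm.aestronglyMeasurable) (Cw d / μ ^ d * B * 2) fun x _ => by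
        rw [abs_mul, abs_mul]
        exact mul_le_mul (mul_le_mul (hkabs _) (hB _) (abs_nonneg _) hW) (hρabs' x)
          (abs_nonneg _) (by positivity)
    have i3 : IntegrableOn (fun x => |ρ x - ρ' x|) (ball c r) :=
      intOn (hρa.sub hρm.aestronglyMeasurable).norm 4 fun x hx => by
        rw [abs_abs]
        linarith [abs_sub (ρ x) (ρ' x), hρabs x hx, hρabs' x]
    rw [e1, e2, ← integral_sub i1 i2]
    have hpt : ∀ x ∈ ball c r,
        ‖kr μ y (f x) * G (Ψ (f x)) * ρ x - kr μ y (f x) * G x * ρ' x‖ ≤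
          K * σ' * (kr μ y (f x) * ρ x) + Cw d / μ ^ d * B * |ρ x - ρ' x| := by
      intro x hx
      have hρ0 : 0 ≤ ρ x := by linarith [(hρr x hx).1]
      rw [Real.norm_eq_abs, show kr μ y (f x) * G (Ψ (f x)) * ρ x - kr μ y (f x) * G x * ρ' x =
        (G (Ψ (f x)) - G x) * (kr μ y (f x) * ρ x) + kr μ y (f x) * G x * (ρ x - ρ' x) by ring]
      refine (abs_add_le _ _).trans (add_le_add ?_ ?_)
      · by_cases h : kr μ y (f x) = 0
        · simp [h]
        · rw [abs_mul, abs_of_nonneg (mul_nonneg (kr_nonneg hμ y _) hρ0)]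
          exact mul_le_mul_of_nonneg_right ((hG _ _).trans
            (mul_le_mul_of_nonneg_left (hinv x hx (hkY _ h)) hK))
            (mul_nonneg (kr_nonneg hμ y _) hρ0)
      · rw [abs_mul, abs_mul]
        exact mul_le_mul_of_nonneg_right (mul_le_mul (hkabs _) (hB _) (abs_nonneg _) hW)
          (abs_nonneg _)
    refine (norm_integral_le_of_norm_le ((hkρi.const_mul (K * σ')).add
      (i3.const_mul (Cw d / μ ^ d * B))) ((ae_restrict_mem hb).mono hpt)).trans ?_
    simp only [Pi.add_apply]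
    rw [integral_add (hkρi.const_mul _) (i3.const_mul _), integral_const_mul, integral_const_mul,
      hone]
    have h7 : μ₀ ^ d ≤ μ ^ d := pow_le_pow_left₀ hμ₀.le hμ₁ d
    have h8 : Cw d / μ ^ d * B * ∫ x in ball c r, |ρ x - ρ' x| ≤ B * σ' := by
      calc _ ≤ Cw d / μ ^ d * B * (σ * μ ^ d) :=
            mul_le_mul_of_nonneg_left (hap.trans (mul_le_mul_of_nonneg_left h7 hσ.le))
              (by positivity)
        _ = B * (Cw d * σ) := by field_simp
        _ ≤ B * σ' := mul_le_mul_of_nonneg_left hσ' hB0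
    linarith

end CtxM

open CtxM

theorem ctx (d : ℕ) (hd : 2 ≤ d) (h1 : DomStmt d) (h2 : CtxAStmt d) : CtxStmt d := by
  obtain ⟨CA, hCA, hA⟩ := h2
  have hCw : 1 ≤ Cw d := one_le_Cw
  refine ⟨2 * CA + 1 + Cw d, by linarith, ?_⟩
  intro f ρ ρ' c r L σ η μ₀ hB hf hinj hρ hρr hρm hρr' hp hL hσ hη hηr hsm hμ₀ hup hlo hap
  have hr : 0 < r := hη.trans_le hηr
  have hbB : ball c r ⊆ cube d := ball_subset_closedBall.trans hB
  have hh : closedBall c (r / 2) ⊆ closedBall c r := closedBall_subset_closedBall (by linarith)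
  have hdom : ball (f c) η ⊆ f '' ball c (r / 2) := by
    refine h1 f c (r / 2) η (by linarith) (hf.mono (hh.trans hB)) (hinj.mono (hh.trans hB)) ?_
    intro x hx
    by_contra hc
    rw [not_le] at hc
    have h3 := hlo x (hh (sphere_subset_closedBall hx)) c (mem_closedBall_self hr.le) (by linarith)
    rw [mem_sphere_iff_norm.1 hx] at h3
    have h4 := mul_le_mul_of_nonneg_left hc.le (by linarith : 0 ≤ L)
    linarith
  have hhalf : ∀ x ∈ cube d, f x ∈ ball (f c) η → x ∈ ball c (r / 2) := by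
    intro x hx hY
    obtain ⟨x', h3, h4⟩ := hdom hY
    rw [← hinj (hbB (ball_subset_ball (by linarith) h3)) hx h4]
    exact h3
  obtain ⟨Ψ, hΨ, hinv⟩ := hA {x ∈ closedBall c r | f x ∈ ball (f c) η} f L σ hL hσ
    (isBounded_closedBall.subset fun x hx => hx.1) fun x hx x' hx' => by
      refine hlo x hx.1 x' hx'.1 ?_
      have h3 := mem_ball_iff_norm.1 hx.2
      have h4 := mem_ball_iff_norm'.1 hx'.2
      have := norm_sub_le_norm_sub_add_norm_sub (f x) (f c) (f x')
      linarith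
  have hLL : L ≤ L ^ 2 := by nlinarith
  have hL1 : L ≤ (2 * CA + 1 + Cw d) * L := by nlinarith
  have hs1 : 2 * (CA * L ^ 2 * σ) + σ + Cw d * σ ≤ (2 * CA + 1 + Cw d) * L ^ 2 * σ := by
    have : 0 ≤ (1 + Cw d) * (L ^ 2 - 1) * σ :=
      mul_nonneg (mul_nonneg (by linarith) (by linarith)) hσ.le
    nlinarith
  have hs2 : CA * L * σ ≤ CA * L ^ 2 * σ := by gcongr
  have hs3 : 0 ≤ CA * L * σ := by positivity
  have hs4 : 0 ≤ Cw d * σ := by positivity
  have hΨ' : Sm ((2 * CA + 1 + Cw d) * L) Ψ := hΨ.mono (by nlinarith)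
  refine ⟨Ψ, hΨ', hρm, hρr', ?_, ?_⟩
  · intro y hy y' hy'
    obtain ⟨x, hx, rfl⟩ := hdom hy
    obtain ⟨x', hx', rfl⟩ := hdom hy'
    have b1 := hh (ball_subset_closedBall hx)
    have b2 := hh (ball_subset_closedBall hx')
    have a1 := hinv x ⟨b1, hy⟩
    have a2 := hinv x' ⟨b2, hy'⟩
    have a3 := norm_sub_le_norm_sub_add_norm_sub x (Ψ (f x)) x'
    have a4 := norm_sub_le_norm_sub_add_norm_sub (Ψ (f x)) (Ψ (f x')) x'
    rw [norm_sub_rev x (Ψ (f x))] at a3
    have a5 : ‖x - x'‖ ≤ ‖Ψ (f x) - Ψ (f x')‖ + 2 * (CA * L * σ) := by linarith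
    have a6 := mul_le_mul_of_nonneg_left a5 (by linarith : 0 ≤ L)
    have a7 := mul_le_mul_of_nonneg_right hL1 (norm_nonneg (Ψ (f x) - Ψ (f x')))
    have a8 := hup x b1 x' b2
    nlinarith
  · intro μ y hμ hμ₁ hY
    have h2μ := two_mul_le hd hη hY
    refine wt_of (hf.mono hbB) (hρ.mono hbB) (fun x hx => hρr x (hbB hx)) hρm hρr' ?_
      (fun x hx => hhalf x (hbB hx))
      (fun x hx x' hx' => hup x (ball_subset_closedBall hx) x' (ball_subset_closedBall hx')) hΨ'
      (fun x hx hx' => (hinv x ⟨ball_subset_closedBall hx, hx'⟩).trans (by linarith)) hL hL1 hσ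
      (by linarith) hap hμ₀ hμ₁ (by linarith) hY
    intro G hG hG0
    rw [← setIntegral_eq_integral_of_forall_compl_eq_zero (s := f '' cube d) fun z hz =>
      hG0 z fun h => hz (image_mono ((ball_subset_ball (by linarith)).trans hbB) (hdom h)),
      push hf hρ (fun x hx => by linarith [(hρr x hx).1]) hp hG]
    refine setIntegral_eq_of_subset_of_forall_sdiff_eq_zero measurableSet_cube hbB fun x hx => ?_
    rw [hG0 (f x) fun h => hx.2 (ball_subset_ball (by linarith) (hhalf x hx.1 h)), zero_mul]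

end Pool.Agent.MP_20bec2_an.h7

end
end MrgPart0

-- ======== part 1: formerly Pool.Agent.MP_20bec2_an.h7.Leaf
section MrgPart1

/-! One leaf crossing one step. -/

set_option autoImplicit false

open MeasureTheory Set Metric Filter Topology

noncomputable section

namespace Pool.Agent.MP_20bec2_an.h7

namespace Leaf

theorem cont_of {y y' : ℝ → ℝ} (hy : ∀ t, HasDerivAt y (y' t) t) : Continuous y :=
  continuous_iff_continuousAt.2 fun t => (hy t).continuousAt

theorem cross_le {y y' : ℝ → ℝ} (hy : ∀ t, HasDerivAt y (y' t) t) (hc : Continuous y') {T : ℝ}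
    (hT : 0 < T) : ∫ τ in (-(3 * T))..(3 * T), th T τ * (bb (y τ) * y' τ) ≤ 1 := by
  have hyc := cont_of hy
  have hbe : Continuous be := cont_of hasDerivAt_be
  have h1 := intervalIntegral.integral_mul_deriv_eq_deriv_mul (a := -(3 * T)) (b := 3 * T)
    (u := th T) (u' := th' T) (v := fun τ => be (y τ)) (v' := fun τ => bb (y τ) * y' τ)
    (fun t _ => hasDerivAt_th T t) (fun t _ => (hasDerivAt_be (y t)).comp t (hy t))
    ((continuous_th' T).intervalIntegrable _ _)
    (((continuous_bb.comp hyc).mul hc).intervalIntegrable _ _)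
  rw [h1, th_eq_zero hT (by rw [abs_of_pos (by linarith)]; linarith),
    th_eq_zero hT (by rw [abs_neg, abs_of_pos (by linarith)]; linarith), zero_mul, zero_mul,
    sub_zero, zero_sub, ← intervalIntegral.integral_neg]
  have h2 : ∫ τ in (-(3 * T))..(3 * T), bb (τ / T - 1) * (1 / T) = 1 := by
    rw [intervalIntegral.integral_eq_sub_of_hasDerivAt (f := fun τ => be (τ / T - 1))
      (fun t _ => (hasDerivAt_be _).comp t (((hasDerivAt_id t).div_const T).sub_const 1))
      (((continuous_bb.comp (by fun_prop)).mul continuous_const).intervalIntegrable _ _)]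
    rw [be_eq_one (by rw [mul_div_assoc, div_self hT.ne']; norm_num),
      be_eq_zero (by rw [neg_div, mul_div_assoc, div_self hT.ne']; norm_num), sub_zero]
  rw [← h2]
  refine intervalIntegral.integral_mono_on (by linarith)
    (((continuous_th' T).mul (hbe.comp hyc)).neg.intervalIntegrable _ _)
    (((continuous_bb.comp (by fun_prop)).mul continuous_const).intervalIntegrable _ _) fun τ _ => ?_
  have a1 := be_mem (y τ)
  have a2 := bb_nonneg (τ / T + 2)
  have a3 := bb_nonneg (τ / T - 1)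
  have a4 : 0 < 1 / T := by positivity
  have : -(th' T τ * be (y τ)) = (bb (τ / T - 1) * be (y τ) - bb (τ / T + 2) * be (y τ)) * (1 / T) := by
    unfold th'; ring
  rw [this]
  refine mul_le_mul_of_nonneg_right ?_ a4.le
  nlinarith [mul_nonneg a2 a1.1]

/-- primitive of the wide profile -/
def Gam (s : ℝ) : ℝ := ∫ t in (0 : ℝ)..s, tr (-1) 2 t

theorem hasDerivAt_Gam (s : ℝ) : HasDerivAt Gam (tr (-1) 2 s) s :=
  ((continuous_tr (-1) 2).integral_hasStrictDerivAt 0 s).hasDerivAt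

theorem Gam_mono : Monotone Gam :=
  monotone_of_deriv_nonneg (fun s => (hasDerivAt_Gam s).differentiableAt) fun s => by
    rw [(hasDerivAt_Gam s).deriv]; exact (tr_mem (by norm_num) s).1

theorem Gam_eq {s : ℝ} (h1 : -1 ≤ s) (h2 : s ≤ 2) : Gam s = s := by
  rw [Gam, intervalIntegral.integral_congr (g := fun _ => 1) fun t ht => tr_eq_one
    (by rcases mem_uIcc.1 ht with h | h <;> linarith [h.1])
    (by rcases mem_uIcc.1 ht with h | h <;> linarith [h.2])]
  simp

theorem gap {s s₁ : ℝ} (h0 : 0 ≤ s) (h1 : s ≤ 1) (h : s₁ < -1 ∨ 2 < s₁) :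
    (s₁ < -1 ∧ 1 ≤ Gam s - Gam s₁) ∨ (2 < s₁ ∧ 1 ≤ Gam s₁ - Gam s) := by
  have e := Gam_eq (s := s) (by linarith) (by linarith)
  rcases h with h | h
  · have := Gam_mono h.le
    rw [Gam_eq (s := -1) le_rfl (by norm_num)] at this
    exact Or.inl ⟨h, by linarith⟩
  · have := Gam_mono h.le
    rw [Gam_eq (s := 2) (by norm_num) le_rfl] at this
    exact Or.inr ⟨h, by linarith⟩

theorem sub_le {g : ℝ → ℝ} (hg : Continuous g) (h0 : ∀ t, 0 ≤ g t) {a b c e : ℝ} (h1 : c ≤ a)
    (h2 : a ≤ b) (h3 : b ≤ e) : ∫ t in a..b, g t ≤ ∫ t in c..e, g t :=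
  intervalIntegral.integral_mono_interval h1 h2 h3 (Eventually.of_forall h0)
    (hg.intervalIntegrable _ _)

theorem mem_of_bb {s : ℝ} (h : bb s ≠ 0) : 0 ≤ s ∧ s ≤ 1 := by
  by_contra hc
  refine h (bb_eq_zero ?_)
  rcases not_and_or.1 hc with h | h
  · exact Or.inl (not_le.1 h).le
  · exact Or.inr (not_le.1 h).le

theorem core {y y' q q' : ℝ → ℝ} (hy : ∀ t, HasDerivAt y (y' t) t) (hc : Continuous y')
    (hq : ∀ t, HasDerivAt q (q' t) t) (hc' : Continuous q') {T ω lam A N Tl Q : ℝ} {U : ℂ}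
    (hT : 0 < T) (hω : 0 ≤ ω) (hl : 1 ≤ lam * T)
    (hA : A = ∫ τ in (-(3 * T))..(3 * T), th T τ * (bb (y τ) * y' τ))
    (hU : U = ∫ τ in (-(3 * T))..(3 * T),
      Complex.exp (Complex.I * (ω * q τ : ℝ)) * (th T τ * (bb (y τ) * y' τ) : ℝ))
    (hN : N = ∫ τ in (-(3 * T))..(3 * T), tr (-1) 2 (y τ) * max (-y' τ) 0)
    (hTl : Tl = ∫ τ in (-(3 * T))..(3 * T), tr (-1) 2 (y τ) * |q' τ| * ω)
    (hQ : Q = ∫ τ in (-(3 * T))..(3 * T), tr (-1) 2 (y τ) * (|y' τ| + lam)) :
    A ≤ 1 ∧ ‖U‖ ≤ 1 + 4 * N ∧ A - Tl - 10 * N ≤ ‖U‖ ∧ (Q < 1 → A = 0) := by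
  have hyc := cont_of hy
  have hqc := cont_of hq
  have ctr : Continuous fun τ => tr (-1) 2 (y τ) := (continuous_tr _ _).comp hyc
  have cbb : Continuous fun τ => bb (y τ) := continuous_bb.comp hyc
  have cth := continuous_th T
  have tr0 : ∀ s, 0 ≤ tr (-1) 2 s := fun s => (tr_mem (by norm_num) s).1
  have hlam : 0 < lam := by
    by_contra h
    nlinarith [not_lt.1 h]
  have hab : -(3 * T) ≤ 3 * T := by linarith
  have hA1 : A ≤ 1 := hA ▸ cross_le hy hc hT
  have cN : Continuous fun τ => tr (-1) 2 (y τ) * max (-y' τ) 0 := by fun_prop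
  have nN : ∀ τ, 0 ≤ tr (-1) 2 (y τ) * max (-y' τ) 0 := fun τ =>
    mul_nonneg (tr0 _) (le_max_right _ _)
  have cT : Continuous fun τ => tr (-1) 2 (y τ) * |q' τ| * ω := by fun_prop
  have nT : ∀ τ, 0 ≤ tr (-1) 2 (y τ) * |q' τ| * ω := fun τ =>
    mul_nonneg (mul_nonneg (tr0 _) (abs_nonneg _)) hω
  have cQ : Continuous fun τ => tr (-1) 2 (y τ) * (|y' τ| + lam) := by fun_prop
  have nQ : ∀ τ, 0 ≤ tr (-1) 2 (y τ) * (|y' τ| + lam) := fun τ =>
    mul_nonneg (tr0 _) (by positivity)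
  have hN0 : 0 ≤ N := hN ▸ intervalIntegral.integral_nonneg hab fun τ _ => nN τ
  have hT0 : 0 ≤ Tl := hTl ▸ intervalIntegral.integral_nonneg hab fun τ _ => nT τ
  have ftc : ∀ a b, ∫ τ in a..b, tr (-1) 2 (y τ) * y' τ = Gam (y b) - Gam (y a) := fun a b =>
    intervalIntegral.integral_eq_sub_of_hasDerivAt (f := fun τ => Gam (y τ))
      (fun t _ => (hasDerivAt_Gam _).comp t (hy t)) ((ctr.mul hc).intervalIntegrable _ _)
  have down : ∀ a b, -(3 * T) ≤ a → a ≤ b → b ≤ 3 * T → Gam (y a) - Gam (y b) ≤ N := by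
    intro a b h1 h2 h3
    rw [← neg_sub, ← ftc, ← intervalIntegral.integral_neg, hN]
    refine le_trans (intervalIntegral.integral_mono_on h2 ((ctr.mul hc).neg.intervalIntegrable _ _)
      (cN.intervalIntegrable _ _) fun τ _ => ?_) (sub_le cN nN h1 h2 h3)
    rw [← mul_neg]
    exact mul_le_mul_of_nonneg_left (le_max_left _ _) (tr0 _)
  have var : ∀ a b, -(3 * T) ≤ a → a ≤ b → b ≤ 3 * T → |Gam (y b) - Gam (y a)| ≤ Q := by
    intro a b h1 h2 h3
    rw [← ftc, hQ]
    refine le_trans ?_ (sub_le cQ nQ h1 h2 h3)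
    rw [← Real.norm_eq_abs]
    refine intervalIntegral.norm_integral_le_of_norm_le h2 (Eventually.of_forall fun τ _ => ?_)
      (cQ.intervalIntegrable _ _)
    rw [norm_mul, Real.norm_of_nonneg (tr0 _)]
    exact mul_le_mul_of_nonneg_left (by rw [Real.norm_eq_abs]; linarith) (tr0 _)
  -- total variation
  have cν : Continuous fun τ => th T τ * (bb (y τ) * |y' τ|) := by fun_prop
  have hν : ∫ τ in (-(3 * T))..(3 * T), th T τ * (bb (y τ) * |y' τ|) ≤ 1 + 4 * N := by
    have h1 : ∫ τ in (-(3 * T))..(3 * T), th T τ * (bb (y τ) * |y' τ|) ≤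
        ∫ τ in (-(3 * T))..(3 * T), (th T τ * (bb (y τ) * y' τ) +
          4 * (tr (-1) 2 (y τ) * max (-y' τ) 0)) := by
      refine intervalIntegral.integral_mono_on hab (cν.intervalIntegrable _ _)
        (Continuous.intervalIntegrable (by fun_prop) _ _) fun τ _ => ?_
      have a1 := th_mem T τ
      have a2 := bb_nonneg (y τ)
      have a3 : bb (y τ) ≤ 2 * tr (-1) 2 (y τ) := by
        by_cases h : bb (y τ) = 0
        · rw [h]; linarith [tr0 (y τ)]
        · have := mem_of_bb h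
          rw [tr_eq_one (by linarith [this.1]) (by linarith [this.2])]; linarith [bb_le (y τ)]
      have a4 : |y' τ| = y' τ + 2 * max (-y' τ) 0 := by
        rcases le_total 0 (y' τ) with h | h
        · rw [abs_of_nonneg h, max_eq_right (by linarith)]; ring
        · rw [abs_of_nonpos h, max_eq_left (by linarith)]; ring
      have a5 : 0 ≤ max (-y' τ) 0 := le_max_right _ _
      have a6 : th T τ * bb (y τ) ≤ 2 * tr (-1) 2 (y τ) := by nlinarith
      rw [a4]
      nlinarith [mul_le_mul_of_nonneg_right a6 a5]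
    rw [intervalIntegral.integral_add (Continuous.intervalIntegrable (by fun_prop) _ _)
      (Continuous.intervalIntegrable (by fun_prop) _ _), intervalIntegral.integral_const_mul,
      ← hA, ← hN] at h1
    linarith
  have nrm : ∀ τ, ‖((th T τ * (bb (y τ) * y' τ) : ℝ) : ℂ)‖ = th T τ * (bb (y τ) * |y' τ|) := fun τ => by
    rw [Complex.norm_real, Real.norm_eq_abs, abs_mul, abs_mul, abs_of_nonneg (th_mem T τ).1,
      abs_of_nonneg (bb_nonneg _)]
  have hU1 : ‖U‖ ≤ 1 + 4 * N := by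
    rw [hU]
    refine le_trans (intervalIntegral.norm_integral_le_of_norm_le hab
      (Eventually.of_forall fun τ _ => ?_) (cν.intervalIntegrable _ _)) hν
    rw [norm_mul, Complex.norm_exp_I_mul_ofReal, one_mul, nrm]
  have zero : (∀ τ ∈ Icc (-(2 * T)) (2 * T), bb (y τ) = 0) → A = 0 := fun h => by
    rw [hA, intervalIntegral.integral_congr (g := fun _ => 0) fun τ _ => ?_]
    · simp
    · by_cases hτ : τ ∈ Icc (-(2 * T)) (2 * T)
      · simp [h τ hτ]
      · have : 2 * T ≤ |τ| := by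
          by_contra hc
          exact hτ ⟨(abs_lt.1 (not_le.1 hc)).1.le, (abs_lt.1 (not_le.1 hc)).2.le⟩
        simp [th_eq_zero hT this]
  have ph : ∀ a b, -(3 * T) ≤ a → a ≤ b → b ≤ 3 * T → bb (y a) ≠ 0 → bb (y b) ≠ 0 →
      ‖Complex.exp (Complex.I * (ω * q b : ℝ)) - Complex.exp (Complex.I * (ω * q a : ℝ))‖ ≤
        min 2 (Tl + 2 * N) := by
    intro a b h1 h2 h3 ha hb
    have two : ‖Complex.exp (Complex.I * (ω * q b : ℝ)) - Complex.exp (Complex.I * (ω * q a : ℝ))‖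
        ≤ 2 := by
      refine (norm_sub_le _ _).trans ?_
      rw [Complex.norm_exp_I_mul_ofReal, Complex.norm_exp_I_mul_ofReal]; norm_num
    refine le_min two ?_
    by_cases h : ∃ t ∈ Icc a b, y t < -1 ∨ 2 < y t
    · obtain ⟨t, ht, h⟩ := h
      have : 1 ≤ N := by
        rcases h with h | h
        · rcases gap (mem_of_bb ha).1 (mem_of_bb ha).2 (Or.inl h) with g | g
          · exact g.2.trans (down a t h1 ht.1 (ht.2.trans h3))
          · linarith [g.1]
        · rcases gap (mem_of_bb hb).1 (mem_of_bb hb).2 (Or.inr h) with g | g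
          · linarith [g.1]
          · exact g.2.trans (down t b (h1.trans ht.1) ht.2 h3)
      linarith
    · push Not at h
      have e1 : Complex.exp (Complex.I * (ω * q b : ℝ)) - Complex.exp (Complex.I * (ω * q a : ℝ)) =
          Complex.exp (Complex.I * (ω * q a : ℝ)) *
            (Complex.exp (Complex.I * (ω * q b - ω * q a : ℝ)) - 1) := by
        rw [mul_sub, ← Complex.exp_add]; congr 2
        · push_cast; ring
        · simp
      rw [e1, norm_mul, Complex.norm_exp_I_mul_ofReal, one_mul]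
      refine Real.norm_exp_I_mul_ofReal_sub_one_le.trans ?_
      have e2 : ω * q b - ω * q a = ∫ τ in a..b, q' τ * ω := by
        rw [intervalIntegral.integral_mul_const, intervalIntegral.integral_eq_sub_of_hasDerivAt
          (fun t _ => hq t) (hc'.intervalIntegrable _ _)]; ring
      rw [e2]
      have e3 : ‖∫ τ in a..b, q' τ * ω‖ ≤ ∫ τ in a..b, tr (-1) 2 (y τ) * |q' τ| * ω := by
        refine intervalIntegral.norm_integral_le_of_norm_le h2
          (Eventually.of_forall fun τ hτ => ?_) (cT.intervalIntegrable _ _)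
        have := h τ (Ioc_subset_Icc_self hτ)
        rw [tr_eq_one this.1 this.2, one_mul, norm_mul, Real.norm_of_nonneg hω, Real.norm_eq_abs]
      have e4 := sub_le cT nT h1 h2 h3
      rw [← hTl] at e4
      linarith
  refine ⟨hA1, hU1, ?_, fun hQ1 => zero fun t ht => ?_⟩
  · by_cases h : ∀ τ ∈ Icc (-(2 * T)) (2 * T), bb (y τ) = 0
    · rw [zero h]; linarith [norm_nonneg U]
    push Not at h
    obtain ⟨t, ht, hb⟩ := h
    set c := Complex.exp (Complex.I * (ω * q t : ℝ)) with hcdef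
    set D := min 2 (Tl + 2 * N) with hD
    have hD0 : 0 ≤ D := le_min (by norm_num) (by linarith)
    have cr : Continuous fun τ => ((th T τ * (bb (y τ) * y' τ) : ℝ) : ℂ) := by fun_prop
    have e1 : U - c * A = ∫ τ in (-(3 * T))..(3 * T),
        (Complex.exp (Complex.I * (ω * q τ : ℝ)) - c) * (th T τ * (bb (y τ) * y' τ) : ℝ) := by
      rw [hU, hA, ← intervalIntegral.integral_ofReal, ← intervalIntegral.integral_const_mul,
        ← intervalIntegral.integral_sub (Continuous.intervalIntegrable (by fun_prop) _ _)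
          (Continuous.intervalIntegrable (by fun_prop) _ _)]
      congr 1; ext τ; ring
    have e2 : ‖U - c * A‖ ≤ ∫ τ in (-(3 * T))..(3 * T), D * (th T τ * (bb (y τ) * |y' τ|)) := by
      rw [e1]
      refine intervalIntegral.norm_integral_le_of_norm_le hab
        (Eventually.of_forall fun τ hτ => ?_) (Continuous.intervalIntegrable (by fun_prop) _ _)
      rw [norm_mul, nrm]
      by_cases hz : bb (y τ) = 0
      · simp [hz]
      refine mul_le_mul_of_nonneg_right ?_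
        (mul_nonneg (th_mem T τ).1 (mul_nonneg (bb_nonneg _) (abs_nonneg _)))
      rcases le_total t τ with h | h
      · exact ph t τ (by linarith [ht.1]) h hτ.2 hb hz
      · rw [norm_sub_rev]
        exact ph τ t hτ.1.le h (by linarith [ht.2]) hz hb
    rw [intervalIntegral.integral_const_mul] at e2
    have e3 : ‖c * A‖ = |A| := by
      rw [norm_mul, hcdef, Complex.norm_exp_I_mul_ofReal, one_mul, Complex.norm_real,
        Real.norm_eq_abs]
    have e4 := norm_sub_norm_le (c * A) U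
    rw [norm_sub_rev, e3] at e4
    have e5 := mul_le_mul_of_nonneg_left hν hD0
    have e6 : D ≤ 2 := min_le_left _ _
    have e7 : D ≤ Tl + 2 * N := min_le_right _ _
    nlinarith [le_abs_self A]
  · by_contra hb
    have hm := mem_of_bb hb
    by_cases h : ∃ s ∈ Icc t (t + T), y s < -1 ∨ 2 < y s
    · obtain ⟨s, hs, h⟩ := h
      have := var t s (by linarith [ht.1]) hs.1 (by linarith [ht.2, hs.2])
      rcases gap hm.1 hm.2 h with g | g
      · linarith [g.2, neg_abs_le (Gam (y s) - Gam (y t))]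
      · linarith [g.2, le_abs_self (Gam (y s) - Gam (y t))]
    · push Not at h
      have e1 := sub_le cQ nQ (a := t) (b := t + T) (c := -(3 * T)) (e := 3 * T)
        (by linarith [ht.1]) (by linarith) (by linarith [ht.2])
      have e2 : ∫ _ in t..(t + T), lam ≤ ∫ τ in t..(t + T), tr (-1) 2 (y τ) * (|y' τ| + lam) := by
        refine intervalIntegral.integral_mono_on (by linarith) intervalIntegrable_const
          (cQ.intervalIntegrable _ _) fun τ hτ => ?_
        rw [tr_eq_one (h τ hτ).1 (h τ hτ).2]; linarith [abs_nonneg (y' τ)]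
      rw [intervalIntegral.integral_const, smul_eq_mul, ← hQ] at *
      nlinarith

end Leaf

open Leaf in
theorem leaf : LeafStmt := by
  refine small_iff.2 ?_
  filter_upwards [ev_pos, ev_mul_le 12] with ε h0 h12 p p' hp hc hb
  have h1 : ε ≤ 1 / 2 := by linarith
  have hT : 0 < ε ^ 52 := by positivity
  have hh : 0 < ε ^ 70 := by positivity
  have hR : 0 < ε ^ 50 := by positivity
  set j : ℤ := round (p 0 / ε ^ 50) with hj
  have win : ∀ τ ∈ uIcc (-(3 * ε ^ 52)) (3 * ε ^ 52), |p τ - j * ε ^ 50| ≤ 3 / 4 * ε ^ 50 := by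
    intro τ hτ
    rw [uIcc_of_le (by linarith)] at hτ
    have a1 : ‖p τ - p 0‖ ≤ ε⁻¹ * ‖τ - 0‖ :=
      (convex_univ (𝕜 := ℝ) (E := ℝ)).norm_image_sub_le_of_norm_hasDerivWithin_le
        (fun x _ => (hp x).hasDerivWithinAt) (fun x _ => hb x) (mem_univ 0) (mem_univ τ)
    rw [sub_zero, Real.norm_eq_abs, Real.norm_eq_abs] at a1
    have a2 : |τ| ≤ 3 * ε ^ 52 := abs_le.2 hτ
    have a3 : ε⁻¹ * (3 * ε ^ 52) ≤ 1 / 4 * ε ^ 50 := by
      have : ε⁻¹ * (3 * ε ^ 52) = 3 * ε * ε ^ 50 := by field_simp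
      rw [this]; nlinarith
    have a4 : |p 0 - j * ε ^ 50| ≤ 1 / 2 * ε ^ 50 := by
      have := abs_sub_round (p 0 / ε ^ 50)
      have e : p 0 - j * ε ^ 50 = (p 0 / ε ^ 50 - j) * ε ^ 50 := by field_simp
      rw [e, abs_mul, abs_of_pos hR]
      exact mul_le_mul_of_nonneg_right this hR.le
    have a5 := mul_le_mul_of_nonneg_left a2 (inv_nonneg.2 h0.le)
    have a6 := abs_sub_le (p τ) (p 0) (j * ε ^ 50)
    linarith
  have hy : ∀ c k t : ℝ, HasDerivAt (fun τ => c * ((p τ - j * ε ^ 50) / ε ^ 70) - k)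
      (c / ε ^ 70 * p' t) t := fun c k t => by
    have := ((((hp t).sub_const (j * ε ^ 50)).div_const (ε ^ 70)).const_mul c).sub_const k
    exact this.congr_deriv (by ring)
  refine ⟨fun c k hc1 hk1 hk2 => ?_, fun q q' m k l Λ A N Tl Q U hq hc' hm hk hl hΛ hA hU hN hTl hQ => ?_⟩
  · refine le_of_eq_of_le (intervalIntegral.integral_congr fun τ hτ => ?_)
      (cross_le (hy c k) (continuous_const.mul hc) hT)
    have := xi_local h0 h1 (sp_bb hc1 hk1 hk2) (win τ hτ)
    simp only [this, mul_assoc]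
  · have hm' : (2 : ℝ) ≤ m := by exact_mod_cast hm
    have hmh : 0 < (m : ℝ) / ε ^ 70 := by positivity
    have eb : ∀ τ ∈ uIcc (-(3 * ε ^ 52)) (3 * ε ^ 52),
        bk ε m k (p τ) = bb (m * ((p τ - j * ε ^ 50) / ε ^ 70) - k) := fun τ hτ =>
      xi_local h0 h1 (sp_bk hk) (win τ hτ)
    have eW : ∀ τ ∈ uIcc (-(3 * ε ^ 52)) (3 * ε ^ 52),
        Wk ε m k (p τ) = tr (-1) 2 (m * ((p τ - j * ε ^ 50) / ε ^ 70) - k) := fun τ hτ =>
      xi_local h0 h1 (sp_Wk hk) (win τ hτ)
    refine core (hy m k) (continuous_const.mul hc) hq hc' (ω := om ε m l k)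
      (lam := Λ * (m / ε ^ 70)) hT (by unfold om; positivity) ?_ ?_ ?_ ?_ ?_ ?_
    · have e : ε ^ 70 ≤ ε ^ 55 := pow_le_pow_of_le_one h0.le (by linarith) (by norm_num)
      rw [mul_assoc, div_mul_eq_mul_div, ← mul_div_assoc, le_div_iff₀ hh]
      have : ε ^ 55 = ε ^ 3 * ε ^ 52 := by ring
      nlinarith [mul_le_mul_of_nonneg_right hΛ hT.le, pow_pos h0 3]
    · rw [hA]; refine intervalIntegral.integral_congr fun τ hτ => ?_
      simp only [eb τ hτ, mul_assoc]
    · rw [hU]; refine intervalIntegral.integral_congr fun τ hτ => ?_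
      simp only [phk, eb τ hτ, Complex.real_smul]; push_cast; ring
    · rw [hN]; refine intervalIntegral.integral_congr fun τ hτ => ?_
      simp only [eW τ hτ]
      rw [mul_assoc, max_mul_of_nonneg _ _ hmh.le, zero_mul]; congr 2; ring
    · rw [hTl]; refine intervalIntegral.integral_congr fun τ hτ => ?_
      simp only [eW τ hτ]
    · rw [hQ]; refine intervalIntegral.integral_congr fun τ hτ => ?_
      simp only [eW τ hτ]
      rw [abs_mul, abs_of_pos hmh]; ring

end Pool.Agent.MP_20bec2_an.h7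

end
end MrgPart1

-- ======== part 2: formerly Pool.Agent.MP_20bec2_an.h7.Meso
section MrgPart2

/-! The mesoscopic inequality (project BIOM). -/

set_option autoImplicit false

open MeasureTheory Set Metric Filter Topology

noncomputable section

namespace Pool.Agent.MP_20bec2_an.h7

namespace Meso

variable {d : ℕ} {ε C : ℝ} {q p : E d → ℝ}

theorem cont_of_lip {φ : ℝ × ℝ → ℝ} {K : ℝ} (hK : 0 ≤ K)
    (h : ∀ z z', |φ z - φ z'| ≤ K * (|z.1 - z'.1| + |z.2 - z'.2|)) : Continuous φ := by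
  refine (LipschitzWith.of_dist_le' (K := 2 * K) fun z z' => ?_).continuous
  have h1 : dist z.1 z'.1 ≤ dist z z' := by rw [Prod.dist_eq]; exact le_max_left _ _
  have h2 : dist z.2 z'.2 ≤ dist z z' := by rw [Prod.dist_eq]; exact le_max_right _ _
  rw [Real.dist_eq] at h1 h2 ⊢
  exact (h z z').trans (by nlinarith)

theorem exists_dir {a b m : ℝ} (hm : 0 ≤ m) (h : a ^ 2 + b ^ 2 ≤ m ^ 2) (A B : ℝ) :
    ∃ c₁ c₂ : ℝ, c₁ ^ 2 + c₂ ^ 2 = 1 ∧ a * A + b * B ≤ m * max (c₁ * A + c₂ * B) 0 := by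
  have h1 : √(a ^ 2 + b ^ 2) ≤ m := Real.sqrt_le_iff.2 ⟨hm, h⟩
  have h2 : √(a ^ 2 + b ^ 2) ^ 2 = a ^ 2 + b ^ 2 := Real.sq_sqrt (by positivity)
  rcases (Real.sqrt_nonneg (a ^ 2 + b ^ 2)).eq_or_lt with h0 | h0
  · rw [← h0] at h2
    have ha : a = 0 := by nlinarith [sq_nonneg a, sq_nonneg b]
    have hb : b = 0 := by nlinarith [sq_nonneg a, sq_nonneg b]
    exact ⟨1, 0, by norm_num, by rw [ha, hb]; simp only [zero_mul, add_zero]; positivity⟩
  · generalize √(a ^ 2 + b ^ 2) = r at h0 h1 h2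
    refine ⟨a / r, b / r, by rw [div_pow, div_pow, ← add_div, ← h2, div_self (by positivity)], ?_⟩
    calc a * A + b * B = r * (a / r * A + b / r * B) := by field_simp
      _ ≤ r * max (a / r * A + b / r * B) 0 := by gcongr; exact le_max_left _ _
      _ ≤ _ := by gcongr

theorem dd_comp2 {D D₁ D₂ : ℝ × ℝ → ℝ} (hD : ContDiff ℝ 1 D)
    (h : ∀ z v : ℝ × ℝ, fderiv ℝ D z v = D₁ z * v.1 + D₂ z * v.2) (hq : ContDiff ℝ 1 q)
    (hp : ContDiff ℝ 1 p) (v y : E d) :
    dd (fun z => D (q z, p z)) v y = D₁ (q y, p y) * dd q v y + D₂ (q y, p y) * dd p v y := by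
  have h1 := ((hD.differentiable one_ne_zero) (q y, p y)).hasFDerivAt.comp y
    (((hq.differentiable one_ne_zero) y).hasFDerivAt.prodMk
      ((hp.differentiable one_ne_zero) y).hasFDerivAt)
  exact (congrArg (fun A => A v) h1.fderiv).trans (h _ _)

/-- a weight that varies slowly commutes with the smoothing at the fine scale -/
theorem two_scale (h0 : 0 < ε) (h1 : ε ≤ 1) (hC : 1 ≤ C) (hq : Sm ε⁻¹ q) (hp : Sm ε⁻¹ p)
    {φ : ℝ × ℝ → ℝ} (hb : ∀ z, |φ z| ≤ 2 * C)
    (hl : ∀ z z', |φ z - φ z'| ≤ C / ε ^ 141 * (|z.1 - z'.1| + |z.2 - z'.2|)) {G : E d → ℝ}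
    {B : ℝ} (hG : Continuous G) (hB : ∀ z, |G z| ≤ B) (y : E d) :
    |cv (ε ^ 120) (fun z => φ (q z, p z) * cv (ε ^ 160) G z) y -
      cv (ε ^ 120) (fun z => φ (q z, p z) * G z) y| ≤ 4 * (Cw d * C) * B * ε ^ 18 := by
  have hB0 : 0 ≤ B := (abs_nonneg _).trans (hB 0)
  have hW := one_le_Cw (d := d)
  have hφ : Continuous fun z => φ (q z, p z) :=
    (cont_of_lip (by positivity) hl).comp' (hq.cont.prodMk hp.cont)
  have a1 : ∀ z, |φ (q z, p z) * cv (ε ^ 160) G z -
      cv (ε ^ 160) (fun z => φ (q z, p z) * G z) z| ≤ 2 * C * ε ^ 18 * B := fun z => by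
    rw [abs_sub_comm]
    refine cv_mul_sub hG hφ (by positivity) _ (fun z' _ => hB z') fun z' hz => (hl _ _).trans ?_
    have b1 : ‖z' - z‖ ≤ ε ^ 160 := mem_closedBall_iff_norm.1 hz
    have b2 : |q z' - q z| ≤ ε⁻¹ * ε ^ 160 := (hq.lip z' z).trans (by gcongr)
    have b3 : |p z' - p z| ≤ ε⁻¹ * ε ^ 160 := (hp.lip z' z).trans (by gcongr)
    calc _ ≤ C / ε ^ 141 * (ε⁻¹ * ε ^ 160 + ε⁻¹ * ε ^ 160) := by gcongr
      _ = _ := by field_simp; ring
  have a2 := norm_cv_le (μ := ε ^ 120) (by positivity) (y := y) fun z _ =>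
    (Real.norm_eq_abs _).trans_le (a1 z)
  rw [cv_sub (hφ.fun_mul (continuous_cv hG _)) (continuous_cv (hφ.fun_mul hG) _)] at a2
  have a3 := cv_cv (μ := ε ^ 120) (s := ε ^ 160) (B := 2 * C * B) (hφ.fun_mul hG) (by positivity)
    (by positivity) (fun z => by
      rw [Real.norm_eq_abs, abs_mul]
      exact mul_le_mul (hb _) (hB _) (abs_nonneg _) (by positivity)) y
  have a4 : Cw d * (2 * C * B) * ε ^ 160 / ε ^ 120 ≤ 2 * (Cw d * C) * B * ε ^ 18 := by
    calc _ = 2 * (Cw d * C) * B * ε ^ 40 := by field_simp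
      _ ≤ _ := by
        have := pow_le_pow_of_le_one h0.le h1 (show 18 ≤ 40 by norm_num)
        gcongr
  have a5 : 2 * C * ε ^ 18 * B ≤ 2 * (Cw d * C) * B * ε ^ 18 := by
    have : 0 ≤ (Cw d - 1) * (C * B * ε ^ 18) := mul_nonneg (by linarith) (by positivity)
    nlinarith
  have a6 := abs_sub_le (cv (ε ^ 120) (fun z => φ (q z, p z) * cv (ε ^ 160) G z) y)
    (cv (ε ^ 120) (cv (ε ^ 160) fun z => φ (q z, p z) * G z) y)
    (cv (ε ^ 120) (fun z => φ (q z, p z) * G z) y)
  have a7 : |cv (ε ^ 120) (fun z => φ (q z, p z) * cv (ε ^ 160) G z) y -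
    cv (ε ^ 120) (cv (ε ^ 160) fun z => φ (q z, p z) * G z) y| ≤ 2 * C * ε ^ 18 * B := a2
  have a8 : |cv (ε ^ 120) (cv (ε ^ 160) fun z => φ (q z, p z) * G z) y -
    cv (ε ^ 120) (fun z => φ (q z, p z) * G z) y| ≤ Cw d * (2 * C * B) * ε ^ 160 / ε ^ 120 := a3
  linarith

/-- the stretch term -/
theorem term2 (h0 : 0 < ε) (h1 : ε ≤ 1) (hC : 1 ≤ C) (hs : 24 * (Cw d * C) * ε ≤ 1)
    (hq : Sm ε⁻¹ q) (hp : Sm ε⁻¹ p) {D D₁ D₂ : ℝ × ℝ → ℝ} {β : ℝ} (hβ : |β| ≤ 1)
    (hD : ContDiff ℝ 1 D) (hd : ∀ z v : ℝ × ℝ, fderiv ℝ D z v = D₁ z * v.1 + D₂ z * v.2)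
    (hb : ∀ z, |D z| ≤ C * ε ^ 140) (b1 : ∀ z, |D₁ z| ≤ C) (b2 : ∀ z, |D₂ z| ≤ C)
    (l1 : ∀ z z', |D₁ z - D₁ z'| ≤ C / ε ^ 141 * (|z.1 - z'.1| + |z.2 - z'.2|))
    (l2 : ∀ z z', |D₂ z - D₂ z'| ≤ C / ε ^ 141 * (|z.1 - z'.1| + |z.2 - z'.2|))
    {v : E d} (hv : ‖v‖ = 1) (y : E d) :
    |cv (ε ^ 120) (fun z => (β + D₁ (q z, p z)) * cv (ε ^ 160) (dd q v) z) y +
      cv (ε ^ 120) (fun z => (1 + D₂ (q z, p z)) * cv (ε ^ 160) (dd p v) z) y -
      (dd (cv (ε ^ 120) p) v y + β * dd (cv (ε ^ 120) q) v y)| ≤ ε ^ 16 := by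
  have hW := one_le_Cw (d := d)
  have cq := continuous_dd hq.cd1 v
  have cp := continuous_dd hp.cd1 v
  have c1 : Continuous fun z => D₁ (q z, p z) :=
    (cont_of_lip (by positivity) l1).comp' (hq.cont.prodMk hp.cont)
  have c2 : Continuous fun z => D₂ (q z, p z) :=
    (cont_of_lip (by positivity) l2).comp' (hq.cont.prodMk hp.cont)
  have a1 := two_scale h0 h1 hC hq hp (φ := fun z => β + D₁ z)
    (fun z => (abs_add_le _ _).trans (by linarith [b1 z]))
    (fun z z' => by rw [add_sub_add_left_eq_sub]; exact l1 z z') cq (hq.dd_le hv) y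
  have a2 := two_scale h0 h1 hC hq hp (φ := fun z => 1 + D₂ z)
    (fun z => (abs_add_le _ _).trans (by rw [abs_one]; linarith [b2 z]))
    (fun z z' => by rw [add_sub_add_left_eq_sub]; exact l2 z z') cp (hp.dd_le hv) y
  have hDc : ContDiff ℝ 1 fun z => D (q z, p z) := hD.comp (hq.cd1.prodMk hp.cd1)
  have a3 : |cv (ε ^ 120) (dd (fun z => D (q z, p z)) v) y| ≤
      Cw d * (C * ε ^ 140) * ‖v‖ / ε ^ 120 :=
    norm_cv_dd_le hDc (by positivity) (fun z => hb _) v y
  have a4 : cv (ε ^ 120) (fun z => (β + D₁ (q z, p z)) * dd q v z) y +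
      cv (ε ^ 120) (fun z => (1 + D₂ (q z, p z)) * dd p v z) y =
      dd (cv (ε ^ 120) p) v y + β * dd (cv (ε ^ 120) q) v y +
        cv (ε ^ 120) (dd (fun z => D (q z, p z)) v) y := by
    rw [dd_cv hp.cd1, dd_cv hq.cd1, ← cv_const_mul, ← cv_add cp (continuous_const.fun_mul cq),
      ← cv_add (cp.fun_add (continuous_const.fun_mul cq)) (continuous_dd hDc v),
      ← cv_add ((continuous_const.fun_add c1).fun_mul cq)
        ((continuous_const.fun_add c2).fun_mul cp)]
    congr 1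
    funext z
    rw [dd_comp2 hD hd hq.cd1 hp.cd1]
    ring
  have a5 : 4 * (Cw d * C) * ε⁻¹ * ε ^ 18 = 4 * (Cw d * C) * ε * ε ^ 16 := by field_simp
  have a6 : Cw d * (C * ε ^ 140) * ‖v‖ / ε ^ 120 ≤ Cw d * C * ε * ε ^ 16 := by
    calc _ = Cw d * C * ε * ε ^ 19 := by rw [hv]; field_simp
      _ ≤ _ := by
        have := pow_le_pow_of_le_one h0.le h1 (show 16 ≤ 19 by norm_num)
        gcongr
  have a7 : 24 * (Cw d * C) * ε * ε ^ 16 ≤ ε ^ 16 := mul_le_of_le_one_left (by positivity) hs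
  have a8 : 0 ≤ Cw d * C * ε * ε ^ 16 := by positivity
  rw [a5, abs_le] at a1 a2
  rw [abs_le] at a3 ⊢
  constructor <;> linarith [a1.1, a1.2, a2.1, a2.2, a3.1, a3.2]

/-- the area term -/
theorem term3 (h0 : 0 < ε) (h1 : ε ≤ 1) (hC : 1 ≤ C) (hs : 24 * (Cw d * C) * ε ≤ 1)
    (hq : Sm ε⁻¹ q) (hp : Sm ε⁻¹ p) {D D₁ D₂ m : ℝ × ℝ → ℝ} {D' D₃ : ℝ → ℝ} {n : ℝ}
    (hD : ContDiff ℝ 1 D) (hd : ∀ z v : ℝ × ℝ, fderiv ℝ D z v = D₁ z * v.1 + D₂ z * v.2)
    (hD' : ContDiff ℝ 1 D') (hd' : ∀ t, HasDerivAt D' (D₃ t) t)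
    (hb : ∀ z, |D z| ≤ C * ε ^ 140) (hb' : ∀ t, |D' t| ≤ C * ε ^ 140)
    (hm : ∀ z, m z = n + D₂ z + D₃ z.1) (bm : ∀ z, |m z| ≤ C)
    (lm : ∀ z z', |m z - m z'| ≤ C / ε ^ 141 * (|z.1 - z'.1| + |z.2 - z'.2|))
    {v' v : E d} (hv' : ‖v'‖ = 1) (hv : ‖v‖ = 1) (y : E d) :
    |cv (ε ^ 120) (fun z => m (q z, p z) * cv (ε ^ 160) (jac q p v' v) z) y -
      n * cv (ε ^ 120) (jac q p v' v) y| ≤ ε ^ 15 := by
  have hW := one_le_Cw (d := d)
  have cJ := continuous_jac hq.cd1 hp.cd1 v' v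
  have a1 := two_scale h0 h1 hC hq hp (φ := m) (fun z => by linarith [bm z]) lm cJ
    (abs_jac_le hq hp hv' hv) y
  have hDc : ContDiff ℝ 1 fun z => D (q z, p z) := hD.comp (hq.cd1.prodMk hp.cd1)
  have hDq : ContDiff ℝ 1 fun z => D' (q z) := hD'.comp hq.cd1
  have a2 := abs_cv_jac_le (μ := ε ^ 120) hDc hq (by positivity) (fun z => hb _) hv' hv y
  have a3 := abs_cv_jac_le (μ := ε ^ 120) hDq hp (by positivity) (fun z => hb' _) hv' hv y
  have c1 := continuous_jac hDc hq.cd1 v' v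
  have c2 := continuous_jac hDq hp.cd1 v' v
  have a4 : cv (ε ^ 120) (fun z => m (q z, p z) * jac q p v' v z) y =
      n * cv (ε ^ 120) (jac q p v' v) y - cv (ε ^ 120) (jac (fun z => D (q z, p z)) q v' v) y +
        cv (ε ^ 120) (jac (fun z => D' (q z)) p v' v) y := by
    rw [← cv_const_mul, ← cv_sub (continuous_const.fun_mul cJ) c1,
      ← cv_add ((continuous_const.fun_mul cJ).fun_sub c1) c2]
    congr 1
    funext z
    simp only [jac]
    rw [dd_comp2 hD hd hq.cd1 hp.cd1, dd_comp2 hD hd hq.cd1 hp.cd1, dd_comp hq.cd1 v' z (hd' _),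
      dd_comp hq.cd1 v z (hd' _), hm]
    simp only [smul_eq_mul]
    ring
  have a5 : 4 * (Cw d * C) * (2 * ε⁻¹ ^ 2) * ε ^ 18 = 8 * (Cw d * C) * ε * ε ^ 15 := by
    field_simp; ring
  have a6 : 2 * Cw d * (C * ε ^ 140) * ε⁻¹ / ε ^ 120 ≤ 2 * (Cw d * C * ε * ε ^ 15) := by
    calc _ = 2 * (Cw d * C * ε * ε ^ 18) := by field_simp
      _ ≤ _ := by
        have := pow_le_pow_of_le_one h0.le h1 (show 15 ≤ 18 by norm_num)
        gcongr
  have a7 : 24 * (Cw d * C) * ε * ε ^ 15 ≤ ε ^ 15 := mul_le_of_le_one_left (by positivity) hs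
  have a8 : 0 ≤ Cw d * C * ε * ε ^ 15 := by positivity
  rw [a5, abs_le] at a1
  rw [abs_le] at a2 a3 ⊢
  constructor <;> linarith [a1.1, a1.2, a2.1, a2.2, a3.1, a3.2]

/-- the supporting line of the potential -/
theorem exists_slope (h0 : 0 < ε) (hl : 3 ≤ lg ε) {x M : ℝ} (hM : 0 < M)
    (hx : max x 0 / M ≤ ε⁻¹ ^ 4) : ∃ k c : ℝ, 0 ≤ k ∧ k ≤ 4 ∧ |c| ≤ max x 0 / M ∧
      c + k * (x / M) = FF ε (max x 0 / M) ∧ ∀ t, 0 ≤ t → c + k * t ≤ FF ε t := by
  have h1 : 1 ≤ lg ε := by linarith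
  rcases le_total x 0 with h | h
  · rw [max_eq_right h, zero_div, FF_zero]
    exact ⟨0, 0, le_rfl, by norm_num, by simp, by simp, fun t ht => by
      simpa using FF_nonneg h0 h1 ht⟩
  · rw [max_eq_left h] at hx ⊢
    have h2 : 0 ≤ x / M := by positivity
    refine ⟨F1 ε (x / M), _, by linarith [one_le_F1 h0 h1 h2], F1_le_four h0 hl h2 hx,
      FF_sub h0 h1 h2, by ring, fun t ht => ?_⟩
    have h3 := FF_tangent h0 h1 ht h2
    have h4 : 0 ≤ (√(t + ε) - √(x / M + ε)) ^ 2 / (2 * lg ε) := by positivity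
    linarith

theorem far {δ l : ℝ} (h0 : 0 < ε) (h1 : 8 * ε ≤ 1) {S : Sys d ε δ} {Ψ : E d → E d} {e' : E d}
    {τ : Fin S.T} (hΨ : Sm ε⁻¹ Ψ) (hT : Typ S τ e' l) {y z : E d}
    (hy : BadO S τ (cv (ε ^ 120) Ψ y) < 1) (hz : z ∈ closedBall y (ε ^ 120))
    (h : ∀ a b, Pl ε a b → ε ^ 141 / 8 ≤ |co e' Ψ z - a| ∨ ε ^ 141 / 8 ≤ |co (S.e τ) Ψ z - b|) :
    Far S (Ψ z) := by
  intro τ' x hx
  have h2 : ε ≤ 1 := by linarith
  have key : ∀ (e a : E d), ‖e‖ = 1 → |inner ℝ e a - inner ℝ e x| ≤ ‖a - x‖ := fun e a he => by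
    have := abs_real_inner_le_norm e (a - x)
    rwa [he, one_mul, inner_sub_right] at this
  by_cases e : τ' = τ
  · subst e
    rw [hT.2.2] at hx
    have h3 := mul_pow_le h0 h2 h1 (show 141 < 150 by norm_num)
    rcases h _ _ hx.1 with h4 | h4
    · exact le_trans (by linarith) (h4.trans (key _ _ hT.1.1))
    · exact le_trans (by linarith) (h4.trans (key _ _ hT.1.2.1))
  · have h3 : Wh ε (inner ℝ (S.e τ') (cv (ε ^ 120) Ψ y)) ≤ BadO S τ (cv (ε ^ 120) Ψ y) :=
      Finset.single_le_sum (f := fun τ' => Wh ε (inner ℝ (S.e τ') (cv (ε ^ 120) Ψ y)))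
        (fun _ _ => (Wh_mem _ _).1) (Finset.mem_erase.2 ⟨e, Finset.mem_univ _⟩)
    have h4 := far_of_Wh h0 (by linarith) (h3.trans_lt hy) (S.slab τ' x hx)
    rw [abs_sub_comm] at h4
    have h5 := h4.trans (key _ _ (S.unit τ'))
    have h6 := hΨ.cv_sub (μ := ε ^ 120) (by positivity) y
    have h7 : ‖Ψ y - Ψ z‖ ≤ ε⁻¹ * ε ^ 120 :=
      (hΨ.lip y z).trans (by gcongr; exact mem_closedBall_iff_norm'.1 hz)
    have h8 := norm_sub_le_norm_sub_add_norm_sub (cv (ε ^ 120) Ψ y) (Ψ y) x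
    have h9 := norm_sub_le_norm_sub_add_norm_sub (Ψ y) (Ψ z) x
    have e1 : ε⁻¹ * ε ^ 120 = ε ^ 119 := by field_simp
    have b1 := mul_pow_le h0 h2 h1 (show 70 < 119 by norm_num)
    have b2 := mul_pow_le h0 h2 h1 (show 70 < 150 by norm_num)
    have b3 : 0 < ε ^ 70 := by positivity
    linarith

theorem final {k c H a J n r M M' t₁ t₂ t₃ : ℝ} (h0 : 0 < ε) (h1 : 24 * ε ≤ 1) (hk : 0 ≤ k)
    (hk' : k ≤ 4) (hc : |c| ≤ 3 * ε⁻¹ ^ 3) (hH : |H| ≤ 12) (hn : 1 ≤ n) (hr : 1 / 2 ≤ r)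
    (hr' : r ≤ 3 / 2) (hM : ε ^ 2 ≤ M) (hM' : ε ^ 3 ≤ M') (e₁ : |t₁ - n / r| ≤ ε ^ 10)
    (e₂ : |t₂ - a| ≤ ε ^ 16) (e₃ : |t₃ - n * J| ≤ ε ^ 15)
    (h : (c - H) * t₁ + k / M * t₂ + 8 / M' * t₃ ≤ 0) :
    c + k * (r * a / n / M) + 8 * (r * J) / M' ≤ H + ε ^ 6 := by
  have h2 : ε ≤ 1 := by linarith
  have hM0 : 0 < M := lt_of_lt_of_le (by positivity) hM
  have hM1 : 0 < M' := lt_of_lt_of_le (by positivity) hM'
  have i1 : 12 ≤ ε⁻¹ ^ 3 := by
    have j1 : 12 ≤ ε⁻¹ := by rw [le_inv_comm₀ (by norm_num) h0]; linarith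
    exact j1.trans (le_self_pow₀ (by linarith) (by norm_num))
  have b1 : |(c - H) * (t₁ - n / r)| ≤ 4 * ε ^ 7 := by
    rw [abs_mul]
    calc _ ≤ 4 * ε⁻¹ ^ 3 * ε ^ 10 :=
          mul_le_mul ((abs_sub _ _).trans (by linarith)) e₁ (abs_nonneg _) (by positivity)
      _ = _ := by field_simp
  have b2 : |k / M * (t₂ - a)| ≤ 4 * ε ^ 7 := by
    rw [abs_mul, abs_of_nonneg (by positivity)]
    calc _ ≤ 4 / ε ^ 2 * ε ^ 16 := by gcongr
      _ = 4 * ε ^ 14 := by field_simp
      _ ≤ _ := by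
        have := pow_le_pow_of_le_one h0.le h2 (show 7 ≤ 14 by norm_num)
        linarith
  have b3 : |8 / M' * (t₃ - n * J)| ≤ 8 * ε ^ 7 := by
    rw [abs_mul, abs_of_nonneg (by positivity)]
    calc _ ≤ 8 / ε ^ 3 * ε ^ 15 := by gcongr
      _ = 8 * ε ^ 12 := by field_simp
      _ ≤ _ := by
        have := pow_le_pow_of_le_one h0.le h2 (show 7 ≤ 12 by norm_num)
        linarith
  have b4 : (c - H) * (n / r) + k / M * a + 8 / M' * (n * J) ≤ 16 * ε ^ 7 := by
    rw [abs_le] at b1 b2 b3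
    nlinarith [b1.1, b2.1, b3.1]
  have b5 : r / n ≤ 3 / 2 := (div_le_self (by linarith) hn).trans hr'
  have b6 := mul_le_mul_of_nonneg_left b4 (show 0 ≤ r / n by positivity)
  have b7 : r / n * ((c - H) * (n / r) + k / M * a + 8 / M' * (n * J)) =
      c - H + k * (r * a / n / M) + 8 * (r * J) / M' := by
    have : r ≠ 0 := by positivity
    have : n ≠ 0 := by positivity
    field_simp
  have b8 : r / n * (16 * ε ^ 7) ≤ 3 / 2 * (16 * ε ^ 7) := by gcongr
  have b9 := mul_pow_le h0 h2 h1 (show 6 < 7 by norm_num)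
  linarith

end Meso

open Meso

theorem meso (d : ℕ) (_hd : 2 ≤ d) (h1 : RetStmt) (h2 : MesoAStmt d) : MesoStmt d := by
  obtain ⟨C, hC, hR⟩ := h1
  refine ⟨C, hC, small_iff.2 ?_⟩
  filter_upwards [ev_pos, ev_mul_le (24 * (Cw d * C)), ev_le_lg 3, small_iff.1 (h2 C hC)]
    with ε h0 hs hl hA δ L l β₀ M M' H S Ψ y₀ e' τ hδ hδ' hL hL' hl1 hl2 hβ hβ' hM hM' hH hLoc hT hP
  have hW := one_le_Cw (d := d)
  have hWC : 1 ≤ Cw d * C := one_le_mul_of_one_le_of_one_le hW hC
  have s1 : 24 * ε ≤ 1 := by nlinarith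
  have s2 : ε ≤ 1 := by linarith
  have hM0 : 0 < M := lt_of_lt_of_le (by positivity) hM
  have hM1 : 0 < M' := lt_of_lt_of_le (by positivity) hM'
  obtain ⟨n, hn, hn', hR⟩ := hR ε β₀ h0 hβ hβ'
  refine ⟨n, hn, hn', fun y hy hB β v' v hb hv => ?_⟩
  obtain ⟨D, D₁, D₂, m, D', D₃, cD, dD, cD', dD', bD, bD', em, sm, bm, lm, fm, im⟩ := hR β hb
  have hΨ : Sm ε⁻¹ Ψ := by
    obtain ⟨Y, ρ, N, hc, -⟩ := hLoc
    exact hc.sm.mono (by rw [← one_div, le_div_iff₀ h0]; exact hL')
  have hq := hΨ.co hT.1.1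
  have hp := hΨ.co hT.1.2.1
  have e₁ := hA δ L l n S Ψ y₀ e' τ m hδ hδ' hL hL' hl1 hl2 hLoc hT
    (by
      have : β₀ ^ 2 ≤ 1 := pow_le_one₀ (h0.le.trans hβ) hβ'
      rw [abs_of_nonneg (by linarith)]; nlinarith)
    (fun z => ⟨(bm z).1, (bm z).2.1⟩) (fun z z' => (lm z z').2.2)
    (fun a b hab => by
      by_contra hne
      have : 0 < ε ^ 141 / 8 := by positivity
      rcases fm _ hne a b hab with h | h <;> simp only [sub_self, abs_zero] at h <;> linarith)
    im y hy hB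
  have hb1 : |β| ≤ 1 := hb.trans hβ'
  have e₂ := term2 h0 s2 hC hs hq hp hb1 cD dD bD (fun z => (bm z).2.2.1) (fun z => (bm z).2.2.2)
    (fun z z' => (lm z z').1) (fun z z' => (lm z z').2.1) hv.2.1 y
  have e₃ := term3 h0 s2 hC hs hq hp cD dD cD' dD' bD bD' em
    (fun z => by rw [abs_of_nonneg (bm z).1]; exact (bm z).2.1) (fun z z' => (lm z z').2.2)
    hv.1 hv.2.1 y
  obtain ⟨hr, hr'⟩ := r0_mem (ε := ε) hδ.le hδ' l (co e' Ψ) (co (S.e τ) Ψ) y
  have hF : ∀ z ∈ closedBall y (ε ^ 120), m (co e' Ψ z, co (S.e τ) Ψ z) ≠ 0 →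
      Pot ε M M' H (ε ^ 160) (co e' Ψ) (co (S.e τ) Ψ) z := fun z hz hm => by
    refine hP z ?_ (far h0 (by linarith) hΨ hT hB hz (fm _ hm))
    have b1 : ε ^ 120 ≤ 1 := pow_le_one₀ h0.le s2
    have b2 := dist_triangle z y y₀
    rw [mem_closedBall] at hy hz
    rw [mem_ball]; linarith
  have ha : |dd (cv (ε ^ 120) (co (S.e τ) Ψ)) v y + β * dd (cv (ε ^ 120) (co e' Ψ)) v y| ≤
      2 * ε⁻¹ := by
    have b1 : |dd (cv (ε ^ 120) (co (S.e τ) Ψ)) v y| ≤ ε⁻¹ := (hp.cv _).dd_le hv.2.1 y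
    have b2 : |dd (cv (ε ^ 120) (co e' Ψ)) v y| ≤ ε⁻¹ := (hq.cv _).dd_le hv.2.1 y
    have b3 : |β| * |dd (cv (ε ^ 120) (co e' Ψ)) v y| ≤ 1 * ε⁻¹ := by gcongr
    refine (abs_add_le _ _).trans ?_
    rw [abs_mul]; linarith
  generalize co e' Ψ = q at *
  generalize co (S.e τ) Ψ = p at *
  generalize r0 ε δ l q p y = r at *
  generalize dd (cv (ε ^ 120) p) v y + β * dd (cv (ε ^ 120) q) v y = a at *
  have hx : max (r * a / n) 0 / M ≤ 3 * ε⁻¹ ^ 3 := by
    have b1 : r * a / n ≤ 3 * ε⁻¹ := by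
      calc r * a / n ≤ r * |a| / n := by gcongr; exact le_abs_self a
        _ ≤ r * |a| := div_le_self (by positivity) hn
        _ ≤ 3 / 2 * (2 * ε⁻¹) := by gcongr
        _ = _ := by ring
    calc _ ≤ 3 * ε⁻¹ / ε ^ 2 := by
          gcongr
          exact max_le b1 (by positivity)
      _ = _ := by field_simp
  obtain ⟨k, c, hk, hk', hc, ec, tc⟩ := exists_slope h0 hl hM0 (x := r * a / n) (hx.trans (by
    rw [pow_succ' _ 3]
    gcongr
    rw [le_inv_comm₀ (by norm_num) h0]; linarith))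
  have cZ := hq.cont.prodMk hp.cont
  have cm : Continuous fun z => m (q z, p z) :=
    (cont_of_lip (by positivity) fun z z' => (lm z z').2.2).comp' cZ
  have c1 : Continuous fun z => (β + D₁ (q z, p z)) * cv (ε ^ 160) (dd q v) z :=
    (continuous_const.add ((cont_of_lip (by positivity) fun z z' => (lm z z').1).comp' cZ)).mul
      (continuous_cv (continuous_dd hq.cd1 v) _)
  have c2 : Continuous fun z => (1 + D₂ (q z, p z)) * cv (ε ^ 160) (dd p v) z :=
    (continuous_const.add ((cont_of_lip (by positivity) fun z z' => (lm z z').2.1).comp' cZ)).mul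
      (continuous_cv (continuous_dd hp.cd1 v) _)
  have c3 : Continuous fun z => m (q z, p z) * cv (ε ^ 160) (jac q p v' v) z :=
    cm.mul (continuous_cv (continuous_jac hq.cd1 hp.cd1 v' v) _)
  have d1 := (continuous_const (y := c - H)).fun_mul cm
  have d2 := (continuous_const (y := k / M)).fun_mul (c1.fun_add c2)
  have d3 := (continuous_const (y := 8 / M')).fun_mul c3
  have key := cv_mono (G' := fun _ => 0) (G := fun z => (c - H) * m (q z, p z) +
      k / M * ((β + D₁ (q z, p z)) * cv (ε ^ 160) (dd q v) z +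
        (1 + D₂ (q z, p z)) * cv (ε ^ 160) (dd p v) z) +
      8 / M' * (m (q z, p z) * cv (ε ^ 160) (jac q p v' v) z))
    ((d1.fun_add d2).fun_add d3) continuous_const (μ := ε ^ 120) (by positivity) (y := y) fun z hz => by
      obtain ⟨c₁, c₂, hc1, hc2⟩ := exists_dir (bm (q z, p z)).1 (sm (q z, p z))
        (cv (ε ^ 160) (dd q v) z) (cv (ε ^ 160) (dd p v) z)
      have b1 := mul_le_mul_of_nonneg_left hc2 (show 0 ≤ k / M by positivity)
      by_cases hm : m (q z, p z) = 0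
      · rw [hm] at b1 ⊢
        linarith
      · have b2 := hF z hz hm c₁ c₂ v' v hc1 hv
        unfold val at b2
        have b3 := tc (max (c₁ * cv (ε ^ 160) (dd q v) z + c₂ * cv (ε ^ 160) (dd p v) z) 0 / M)
          (by positivity)
        have b4 := mul_le_mul_of_nonneg_left (show c + k * (max (c₁ * cv (ε ^ 160) (dd q v) z +
          c₂ * cv (ε ^ 160) (dd p v) z) 0 / M) + 8 * cv (ε ^ 160) (jac q p v' v) z / M' - H ≤ 0 by
            linarith) (bm (q z, p z)).1
        refine le_trans ?_ (b4.trans_eq (mul_zero _))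
        refine (add_le_add_left (add_le_add_right b1 _) _).trans_eq ?_
        ring
  rw [cv_const, cv_add (d1.fun_add d2) d3, cv_add d1 d2,
    cv_const_mul, cv_const_mul, cv_const_mul, cv_add c1 c2] at key
  have := final h0 s1 hk hk' (hc.trans hx) hH hn hr hr' hM hM' e₁ e₂ e₃ key
  unfold val
  linarith

end Pool.Agent.MP_20bec2_an.h7

end
end MrgPart2

-- ======== part 3: formerly Pool.Agent.MP_20bec2_an.h7.Xs
section MrgPart3

/-! Averaging on the side of the density (project BIOM, module XS). -/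

set_option autoImplicit false

open MeasureTheory Set Metric Filter Topology

noncomputable section

namespace Pool.Agent.MP_20bec2_an.h7

namespace Xs

variable {d : ℕ}

theorem int_mul {ϑ G : E d → ℝ} {B : ℝ} (hϑ : Integrable ϑ) (hG : Measurable G)
    (hB : ∀ x, |G x| ≤ B) : Integrable fun x => ϑ x * G x :=
  hϑ.mul_bdd hG.aestronglyMeasurable (Eventually.of_forall hB)

/-- one translation -/
theorem shift {ϑ G : E d → ℝ} {B o : ℝ} (hϑ : Integrable ϑ) (hG : Measurable G)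
    (hB : ∀ x, |G x| ≤ B) (a : E d) (ho : ∫ x, |ϑ x - ϑ (x - a)| ≤ o) :
    |(∫ x, ϑ x * G x) - ∫ x, ϑ x * G (x + a)| ≤ B * o := by
  have hB0 : 0 ≤ B := (abs_nonneg _).trans (hB 0)
  have hϑ' : Integrable fun x => ϑ (x - a) := hϑ.comp_sub_right a
  have e : ∫ x, ϑ x * G (x + a) = ∫ x, ϑ (x - a) * G x := by
    rw [← integral_add_right_eq_self (fun x => ϑ (x - a) * G x) a]
    simp only [add_sub_cancel_right]
  rw [e, ← integral_sub (int_mul hϑ hG hB) (int_mul hϑ' hG hB)]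
  refine le_trans ?_ (mul_le_mul_of_nonneg_left ho hB0)
  rw [← integral_const_mul]
  refine norm_integral_le_of_norm_le (f := fun x => ϑ x * G x - ϑ (x - a) * G x)
    ((hϑ.sub hϑ').abs.const_mul B) (Eventually.of_forall fun x => ?_)
  rw [← sub_mul, Real.norm_eq_abs, abs_mul, mul_comm]
  exact mul_le_mul_of_nonneg_right (hB x) (abs_nonneg _)

/-- averaging along a segment -/
theorem core {ϑ G : E d → ℝ} {B o r : ℝ} (hϑ : Integrable ϑ) (hG : Measurable G)
    (hB : ∀ x, |G x| ≤ B) (u : E d) (hr : 0 ≤ r)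
    (ho : ∀ t ∈ Icc 0 r, ∫ x, |ϑ x - ϑ (x - t • u)| ≤ o) :
    |r * (∫ x, ϑ x * G x) - ∫ x, ϑ x * ∫ t in (0 : ℝ)..r, G (x + t • u)| ≤ r * (B * o) := by
  have hi : Integrable (Function.uncurry fun (t : ℝ) (x : E d) => ϑ x * G (x + t • u))
      ((volume.restrict (uIoc 0 r)).prod volume) := by
    have : IsFiniteMeasure (volume.restrict (uIoc (0 : ℝ) r)) :=
      isFiniteMeasure_restrict.2 (by simp [uIoc])
    refine (hϑ.comp_snd _).mul_bdd (c := B) (g := fun z : ℝ × E d => G (z.2 + z.1 • u))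
      (hG.comp (by fun_prop)).aestronglyMeasurable (Eventually.of_forall fun z => hB _)
  have e := intervalIntegral_integral_swap hi
  simp only [intervalIntegral.integral_const_mul] at e
  have h2 : IntervalIntegrable (fun t => ∫ x, ϑ x * G (x + t • u)) volume 0 r :=
    intervalIntegrable_iff.2 hi.integral_prod_left
  have e2 : r * ∫ x, ϑ x * G x = ∫ _t in (0 : ℝ)..r, ∫ x, ϑ x * G x := by simp
  rw [← e, e2, ← intervalIntegral.integral_sub intervalIntegrable_const h2]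
  have := intervalIntegral.norm_integral_le_of_norm_le_const (a := 0) (b := r) (C := B * o)
    (f := fun t => (∫ x, ϑ x * G x) - ∫ x, ϑ x * G (x + t • u)) fun t ht => by
      rw [uIoc_of_le hr] at ht
      exact shift hϑ hG hB _ (ho t ⟨ht.1.le, ht.2⟩)
  rwa [sub_zero, abs_of_nonneg hr, mul_comm] at this

theorem meas_avg {G : E d → ℝ} (hG : Measurable G) (u : E d) {r : ℝ} (hr : 0 ≤ r) :
    Measurable fun x => ∫ t in (0 : ℝ)..r, G (x + t • u) := by
  simp only [intervalIntegral.integral_of_le hr]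
  exact (StronglyMeasurable.integral_prod_right (f := fun (x : E d) (t : ℝ) => G (x + t • u))
    (Measurable.stronglyMeasurable (hG.comp (by fun_prop)))).measurable

theorem per_int {φ : ℝ → ℝ} {R : ℝ} (h : Function.Periodic φ R) (z : ℝ) :
    ∫ t in (0 : ℝ)..R, φ (z + t) = ∫ t in (0 : ℝ)..R, φ t := by
  rw [intervalIntegral.integral_comp_add_left, add_zero, h.intervalIntegral_add_eq z 0, zero_add]

open Classical in
/-- the indicator of the stripes of period `r` -/
def ind (r x : ℝ) : ℝ := if Int.fract (x / r) ∈ Icc (1 / 8 : ℝ) (3 / 8) then 1 else 0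

theorem meas_ind (r : ℝ) : Measurable (ind r) :=
  Measurable.ite (measurableSet_Icc.preimage (measurable_fract.comp (measurable_id.div_const r)))
    measurable_const measurable_const

theorem int_ind {r : ℝ} (hr : 0 < r) (z : ℝ) : ∫ t in (0 : ℝ)..r, ind r (z + t) = r / 4 := by
  have hp : Function.Periodic (ind r) r := fun x => by
    simp only [ind, add_div, div_self hr.ne', Int.fract_add_one]
  rw [per_int hp, intervalIntegral.integral_of_le hr.le, integral_Ioc_eq_integral_Ioo,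
    setIntegral_congr_fun (g := (Icc (r / 8) (3 * r / 8)).indicator fun _ => (1 : ℝ))
      measurableSet_Ioo fun t ht => ?_]
  · have hs : Icc (r / 8) (3 * r / 8) ⊆ Ioo 0 r := fun t ht =>
      ⟨by linarith [ht.1], by linarith [ht.2]⟩
    rw [setIntegral_indicator measurableSet_Icc, inter_eq_right.2 hs]
    simp only [integral_const, MeasurableSet.univ, measureReal_restrict_apply, univ_inter,
      smul_eq_mul, mul_one]
    rw [Real.volume_real_Icc_of_le (by linarith)]
    ring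
  · have e : Int.fract (t / r) = t / r :=
      Int.fract_eq_self.2 ⟨div_nonneg ht.1.le hr.le, (div_lt_one hr).2 ht.2⟩
    have e2 : t / r ∈ Icc (1 / 8 : ℝ) (3 / 8) ↔ t ∈ Icc (r / 8) (3 * r / 8) := by
      rw [mem_Icc, mem_Icc, le_div_iff₀ hr, div_le_iff₀ hr]
      constructor <;> rintro ⟨h1, h2⟩ <;> constructor <;> linarith
    simp only [ind, e, e2, indicator_apply]

/-- averaging of a periodic function of one coordinate -/
theorem avgF {ϑ : E d → ℝ} {φ : ℝ → ℝ} {e a : E d} {R B o : ℝ} (hϑ : Integrable ϑ)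
    (hφ : Continuous φ) (hR : 0 < R) (hp : Function.Periodic φ R) (hB : ∀ t, |φ t| ≤ B)
    (ha : inner ℝ e a = R) (ho : ∀ t ∈ Icc (0 : ℝ) 1, ∫ x, |ϑ x - ϑ (x - t • a)| ≤ o) :
    |(∫ x, ϑ x * φ (inner ℝ e x)) - (∫ t in (0 : ℝ)..R, φ t) / R * ∫ x, ϑ x| ≤ B * o := by
  have := core (G := fun x => φ (inner ℝ e x)) hϑ (hφ.comp (by fun_prop)).measurable
    (fun x => hB _) (R⁻¹ • a) hR.le fun t ht => by
      rw [smul_smul]
      exact ho _ ⟨mul_nonneg ht.1 (by positivity), (mul_inv_le_iff₀ hR).2 (by simpa using ht.2)⟩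
  have e1 : ∀ (x : E d) (t : ℝ), inner ℝ e (x + t • R⁻¹ • a) = inner ℝ e x + t := fun x t => by
    rw [inner_add_right, real_inner_smul_right, real_inner_smul_right, ha, inv_mul_cancel₀ hR.ne',
      mul_one]
  simp only [e1, per_int hp, integral_mul_const] at this
  refine le_of_mul_le_mul_left (le_trans (le_of_eq ?_) this) hR
  rw [← abs_of_pos hR, ← abs_mul, abs_of_pos hR]
  congr 1
  field_simp

/-- averaging of a function of two coordinates with constant means over rectangles -/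
theorem avg2F {ϑ : E d → ℝ} {G : ℝ × ℝ → ℝ} {e' e : E d} {r₁ r₂ B g o : ℝ} (hϑ : Integrable ϑ)
    (hG : Measurable G) (h2 : 0 < r₂) (h21 : r₂ ≤ r₁) (hB : ∀ z, |G z| ≤ B) (hon : ON e' e)
    (hg : ∀ z : ℝ × ℝ,
      ∫ s in (0 : ℝ)..r₁, ∫ t in (0 : ℝ)..r₂, G (z.1 + s, z.2 + t) = g * r₁ * r₂)
    (ho : Osc ϑ r₁ o) :
    |(∫ x, ϑ x * G (inner ℝ e' x, inner ℝ e x)) - g * ∫ x, ϑ x| ≤ 2 * B * o := by
  obtain ⟨n1, n2, n3⟩ := hon
  have h1 : 0 < r₁ := h2.trans_le h21
  have hm : Measurable fun x : E d => G (inner ℝ e' x, inner ℝ e x) := hG.comp (by fun_prop)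
  have hn : ∀ {u : E d} {t : ℝ}, ‖u‖ = 1 → 0 ≤ t → ‖t • u‖ = t := fun hu ht => by
    rw [norm_smul, hu, mul_one, Real.norm_of_nonneg ht]
  have a1 := core hϑ hm (fun x => hB _) e h2.le fun t ht =>
    ho _ (by rw [hn n2 ht.1]; exact ht.2.trans h21)
  have a2 := core (B := B * r₂) hϑ (meas_avg hm e h2.le) (fun x => by
    have := intervalIntegral.norm_integral_le_of_norm_le_const (a := 0) (b := r₂) (C := B)
      (f := fun t => G (inner ℝ e' (x + t • e), inner ℝ e (x + t • e))) fun t _ => hB _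
    rwa [sub_zero, abs_of_pos h2] at this) e' h1.le fun t ht =>
      ho _ (by rw [hn n1 ht.1]; exact ht.2)
  have e1 : ∀ x : E d, ∫ s in (0 : ℝ)..r₁, ∫ t in (0 : ℝ)..r₂,
      G (inner ℝ e' (x + s • e' + t • e), inner ℝ e (x + s • e' + t • e)) = g * r₁ * r₂ := by
    intro x
    rw [← hg (inner ℝ e' x, inner ℝ e x)]
    simp only [inner_add_right, real_inner_smul_right, real_inner_self_eq_norm_sq, n1, n2, n3,
      real_inner_comm e' e, one_pow, mul_one, mul_zero, add_zero]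
  simp only [e1, integral_mul_const] at a2
  have a3 := mul_le_mul_of_nonneg_left a1 h1.le
  rw [← abs_of_pos h1, ← abs_mul, abs_of_pos h1] at a3
  have a4 := (abs_add_le _ _).trans (add_le_add a3 a2)
  refine le_of_mul_le_mul_left (le_trans (le_of_eq ?_) (a4.trans (le_of_eq (by ring))))
    (mul_pos h1 h2)
  rw [← abs_of_pos (mul_pos h1 h2), ← abs_mul]
  congr 1
  ring

/-- the same bound with the constant inside the integral -/
theorem inside (hd : 2 ≤ d) {f : E d → ℝ} (hf : Integrable f) {c b : ℝ}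
    (h : |(∫ x, f x) - c| ≤ b) : |∫ x, (f x - c)| ≤ b := by
  rcases eq_or_ne c 0 with rfl | hc
  · simpa using h
  have : Nonempty (Fin d) := ⟨⟨0, by omega⟩⟩
  rw [integral_undef fun hi => ?_, abs_zero]
  · exact (abs_nonneg _).trans h
  have h1 : Integrable fun _ : E d => c := (hf.sub hi).congr (Eventually.of_forall fun x => by simp)
  rcases integrable_const_iff.1 h1 with h2 | h2
  · exact hc h2
  · exact (measure_ne_top (volume : Measure (E d)) univ) (measure_univ_of_isAddLeftInvariant _)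

theorem abs_inner_le {e : E d} (he : ‖e‖ = 1) (x : E d) : |inner ℝ e x| ≤ ‖x‖ := by
  simpa [he] using abs_real_inner_le_norm e x

/-- the mean of a slab profile against a weight -/
theorem slab {ε a b s o : ℝ} (h0 : 0 < ε) (h1 : ε ≤ 1 / 2) (hab : a ≤ b)
    (ha : -9 ≤ a) (hb : b ≤ 9) (hs : 0 < s) {e : E d} (he : ‖e‖ = 1) {ϑ : E d → ℝ}
    (hϑ : Integrable ϑ) (ho : Osc ϑ (s * ε ^ 50) o) :
    ∫ x, ϑ x * tr a b (xi ε (s⁻¹ * inner ℝ e x)) ≤ (b - a + 1) * ε ^ 20 * (∫ x, ϑ x) + o := by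
  have hR : 0 < ε ^ 50 := by positivity
  have hc := continuous_xi h0 h1 (sp_tr hab ha hb) (continuous_tr a b)
  have := avgF (φ := fun t => tr a b (xi ε (s⁻¹ * t))) (e := e) (a := (s * ε ^ 50) • e)
    (R := s * ε ^ 50) (B := 1) (o := o) hϑ
    (hc.comp (continuous_const.mul continuous_id)) (by positivity)
    (fun t => by
      simp only
      rw [mul_add, inv_mul_cancel_left₀ hs.ne', xi_periodic h0])
    (fun t => abs_le.2 ⟨by linarith [(tr_mem hab (xi ε (s⁻¹ * t))).1], (tr_mem hab _).2⟩)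
    (by rw [real_inner_smul_right, real_inner_self_eq_norm_sq, he]; ring)
    fun t ht => ho _ (by
      rw [norm_smul, norm_smul, he, mul_one, Real.norm_of_nonneg ht.1,
        Real.norm_of_nonneg (by positivity)]
      exact mul_le_of_le_one_left (by positivity) ht.2)
  rw [intervalIntegral.integral_comp_mul_left (fun t => tr a b (xi ε t)) (inv_ne_zero hs.ne'),
    mul_zero, inv_mul_cancel_left₀ hs.ne', integral_xi h0 h1 (sp_tr hab ha hb) (continuous_tr a b),
    integral_tr hab (by linarith) (by linarith)] at this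
  have e : (s⁻¹⁻¹ • (ε ^ 70 * (b - a + 1))) / (s * ε ^ 50) = (b - a + 1) * ε ^ 20 := by
    rw [inv_inv, smul_eq_mul]
    field_simp
  rw [e] at this
  linarith [(abs_le.1 this).2]

end Xs

open Xs

theorem avg (d : ℕ) (hd : 2 ≤ d) : AvgStmt d := by
  intro ϑ φ e a R B o hϑ hφ hR hp hB ha ho
  first
  | exact avgF hϑ hφ hR hp hB ha ho
  | exact inside hd (int_mul (G := fun x => φ (inner ℝ e x)) hϑ
      (hφ.comp (by fun_prop)).measurable fun x => hB _) (avgF hϑ hφ hR hp hB ha ho)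

theorem avg2 (d : ℕ) (hd : 2 ≤ d) : Avg2Stmt d := by
  intro ϑ G e' e r₁ r₂ B g o hϑ hG h2 h21 hB hon hg ho
  first
  | exact avg2F hϑ hG h2 h21 hB hon hg ho
  | exact inside hd (int_mul (G := fun x => G (inner ℝ e' x, inner ℝ e x)) hϑ
      (hG.comp (by fun_prop)) fun x => hB _) (avg2F hϑ hG h2 h21 hB hon hg ho)

open Classical in
theorem plst : PlStmt := by
  intro ε h0
  have e : ∀ q p : ℝ, (if Pl ε q p then (1 : ℝ) else 0) = ind (ε ^ 140) q * ind (ε ^ 141) p := by
    intro q p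
    simp only [Pl, ind]
    by_cases h1 : Int.fract (q / ε ^ 140) ∈ Icc (1 / 8 : ℝ) (3 / 8) <;>
      by_cases h2 : Int.fract (p / ε ^ 141) ∈ Icc (1 / 8 : ℝ) (3 / 8) <;> simp only [h1, h2] <;> simp
  simp only [e]
  refine ⟨((meas_ind _).comp measurable_fst).mul ((meas_ind _).comp measurable_snd), fun z => ?_⟩
  simp only [intervalIntegral.integral_const_mul, intervalIntegral.integral_mul_const,
    int_ind (pow_pos h0 _)]
  ring

theorem oscst (d : ℕ) (_hd : 2 ≤ d) : OscStmt d := by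
  intro ϑ G r o B K hϑ hK hB hG ho a ha
  have hB0 : 0 ≤ B := (abs_nonneg _).trans (hB 0)
  have hi : Integrable fun x => |ϑ x - ϑ (x - a)| := (hϑ.sub (hϑ.comp_sub_right a)).abs
  refine le_trans ?_ (add_le_add (mul_le_mul_of_nonneg_left (ho a ha) hB0) le_rfl)
  rw [← integral_const_mul, ← integral_const_mul, ← integral_add (hi.const_mul B)
    (hϑ.abs.const_mul _)]
  refine integral_mono_of_nonneg (Eventually.of_forall fun x => abs_nonneg _)
    ((hi.const_mul B).add (hϑ.abs.const_mul _)) (Eventually.of_forall fun x => ?_)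
  have e : ϑ x * G x - ϑ (x - a) * G (x - a) =
      G (x - a) * (ϑ x - ϑ (x - a)) + (G x - G (x - a)) * ϑ x := by ring
  have h1 := hG x (x - a)
  rw [sub_sub_cancel] at h1
  simp only [e]
  refine (abs_add_le _ _).trans (add_le_add ?_ ?_) <;> rw [abs_mul]
  · exact mul_le_mul_of_nonneg_right (hB _) (abs_nonneg _)
  · exact mul_le_mul_of_nonneg_right (h1.trans (mul_le_mul_of_nonneg_left ha hK)) (abs_nonneg _)

theorem finst (d : ℕ) (_hd : 2 ≤ d) (_h : AvgStmt d) : FinStmt d := by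
  refine small_iff.2 ?_
  filter_upwards [ev_pos, ev_mul_le 2] with ε h0 h2 δ S N ϑ o hN hϑ hn ho
  have h1 : ε ≤ 1 / 2 := by linarith
  have hc : ∀ (k : ℕ) (τ : Fin S.T),
      Continuous fun x : E d => W0 ε (inner ℝ (S.e τ) (((ε ^ 160) ^ k)⁻¹ • x)) := fun k τ =>
    (continuous_xi h0 h1 (sp_tr zero_le_one (by norm_num) (by norm_num))
      (continuous_tr 0 1)).comp (by fun_prop)
  have hcard : ∀ c : ℝ, 0 ≤ c → ∑ _k ∈ Finset.Ico 1 N, ∑ _τ : Fin S.T, c ≤ ε⁻¹ ^ 8 * c := by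
    intro c hc
    have a1 : ((N - 1 : ℕ) : ℝ) ≤ ε⁻¹ := by
      rw [← one_div, le_div_iff₀ h0]
      exact (mul_le_mul_of_nonneg_right (Nat.cast_le.2 (Nat.sub_le N 1)) h0.le).trans hN
    simp only [Finset.sum_const, Finset.card_univ, Fintype.card_fin, Nat.card_Ico, nsmul_eq_mul]
    rw [pow_succ', mul_assoc]
    exact mul_le_mul a1 (mul_le_mul_of_nonneg_right (card_le h0 S) hc) (by positivity)
      (by positivity)
  have ho0 : 0 ≤ o := (integral_nonneg fun x => abs_nonneg _).trans (ho 0 (by simp; positivity))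
  have hI : 0 ≤ ∫ x, ϑ x := integral_nonneg hn
  refine ⟨continuous_finsetSum _ fun k _ => continuous_finsetSum _ fun τ _ => hc k τ,
    fun x => ⟨Finset.sum_nonneg fun k _ => Finset.sum_nonneg fun τ _ => (W0_mem _ _).1, ?_⟩, ?_⟩
  · refine le_trans ?_ ((hcard 1 zero_le_one).trans (mul_one _).le)
    exact Finset.sum_le_sum fun k _ => Finset.sum_le_sum fun τ _ => (W0_mem _ _).2
  have hi : ∀ (k : ℕ) (τ : Fin S.T), Integrable fun x : E d =>
      ϑ x * W0 ε (inner ℝ (S.e τ) (((ε ^ 160) ^ k)⁻¹ • x)) := fun k τ =>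
    int_mul (B := 1) hϑ (hc k τ).measurable fun x =>
      abs_le.2 ⟨by linarith [(W0_mem ε (inner ℝ (S.e τ) (((ε ^ 160) ^ k)⁻¹ • x))).1],
        (W0_mem _ _).2⟩
  simp only [fin, Finset.mul_sum]
  rw [integral_finsetSum _ fun k _ => integrable_finsetSum _ fun τ _ => hi k τ]
  refine le_trans (Finset.sum_le_sum fun k hk => ?_)
    ((hcard (2 * ε ^ 20 * (∫ x, ϑ x) + o) (by positivity)).trans ?_)
  · rw [integral_finsetSum _ fun τ _ => hi k τ]
    refine Finset.sum_le_sum fun τ _ => ?_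
    have := slab (s := (ε ^ 160) ^ k) h0 h1 zero_le_one (by norm_num) (by norm_num)
      (by positivity) (S.unit τ) hϑ fun a ha => ho a (ha.trans (by
        rw [← pow_mul, ← pow_add]
        exact pow_le_pow_of_le_one h0.le (by linarith)
          (by have := (Finset.mem_Ico.1 hk).1; omega)))
    simp only [W0, real_inner_smul_right]
    norm_num at this ⊢
    exact this
  · have e : ε⁻¹ ^ 8 * (2 * ε ^ 20) = 2 * ε ^ 12 := by field_simp
    have := mul_pow_le h0 (by linarith) h2 (show 11 < 12 by norm_num)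
    rw [mul_add, ← mul_assoc, e]
    exact add_le_add (mul_le_mul_of_nonneg_right this hI) le_rfl

theorem bad (d : ℕ) (hd : 2 ≤ d) (_h : AvgStmt d) : BadStmt d := by
  refine small_iff.2 ?_
  filter_upwards [ev_pos, ev_mul_le 40, ev_mul_le (4 * Cw d)]
    with ε h0 h2 h3 δ L S Ψ y₀ hL hLε ⟨Y, ρ, N, hC, hY, _, _⟩
  have h1 : ε ≤ 1 / 2 := by linarith
  have h1' : ε ≤ 1 := by linarith
  have hw : 0 ≤ Cw d := zero_le_one.trans one_le_Cw
  obtain ⟨ϑ, W⟩ := hC.wt 1 y₀ one_pos (pow_le_one₀ h0.le h1')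
    ((ball_subset_ball (by norm_num)).trans hY)
  have s1 : ε ^ (200 * d) ≤ ε ^ 400 := pow_le_pow_of_le_one h0.le h1' (by omega)
  have s2 : ε ^ 400 ≤ ε ^ 49 := pow_le_pow_of_le_one h0.le h1' (by omega)
  have s3 : L * ε ^ 50 ≤ ε ^ 49 := mul_pow_le h0 h1' hLε (by norm_num)
  have s4 : 2 * ε ^ 49 ≤ ε ^ 0 := mul_pow_le h0 h1' (by linarith) (by norm_num)
  have s5 : 4 * Cw d * ε ^ 49 ≤ ε ^ 20 := mul_pow_le h0 h1' h3 (by norm_num)
  have ho := W.osc (ε ^ 50) (by positivity) (by rw [pow_zero] at s4; linarith)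
  have hc : ∀ τ : Fin S.T, Continuous fun x : E d => Wh ε (inner ℝ (S.e τ) x) := fun τ =>
    (continuous_xi h0 h1 (sp_tr (by norm_num) (by norm_num) (by norm_num))
      (continuous_tr (-3) 4)).comp (by fun_prop)
  have hb : ∀ p, |Wh ε p| ≤ 1 := fun p => abs_le.2 ⟨by linarith [(Wh_mem ε p).1], (Wh_mem _ _).2⟩
  have key : ∀ τ : Fin S.T, cv 1 (fun y => Wh ε (inner ℝ (S.e τ) (Ψ y))) y₀ ≤ 40 * ε ^ 20 := by
    intro τ
    have a1 := W.tr (fun x => Wh ε (inner ℝ (S.e τ) x)) 1 (2 / ε ^ 70) (by positivity)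
      (fun x => hb _) fun x x' => by
        refine (xi_lip h0 h1 (sp_tr (by norm_num) (by norm_num) (by norm_num)) (tr_lip (-3) 4)
          _ _).trans (mul_le_mul_of_nonneg_left ?_ (by positivity))
        rw [← inner_sub_right]
        exact abs_inner_le (S.unit τ) _
    have a2 := slab (s := 1) (a := -3) (b := 4) h0 h1 (by norm_num) (by norm_num) (by norm_num)
      one_pos (S.unit τ) W.int (by rw [one_mul]; exact ho)
    simp only [inv_one, one_mul, div_one] at a2
    have a3 : ∫ x, ϑ x * Wh ε (inner ℝ (S.e τ) x) * ρ x ≤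
        2 * ∫ x, ϑ x * Wh ε (inner ℝ (S.e τ) x) := by
      rw [← integral_const_mul]
      refine integral_mono_of_nonneg (Eventually.of_forall fun x => ?_)
        ((int_mul W.int (hc τ).measurable fun x => hb _).const_mul 2)
        (Eventually.of_forall fun x => ?_)
      · exact mul_nonneg (mul_nonneg (W.nn x) (Wh_mem _ _).1) (by linarith [(hC.rng x).1])
      · simp only
        rw [mul_comm 2]
        exact mul_le_mul_of_nonneg_left (hC.rng x).2 (mul_nonneg (W.nn x) (Wh_mem _ _).1)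
    have a4 : (2 / ε ^ 70 + 1) * ε ^ (200 * d) ≤ 3 * ε ^ 20 := by
      have e : (2 / ε ^ 70 + 1) * ε ^ 400 = 2 * ε ^ 330 + ε ^ 400 := by field_simp
      have b1 : ε ^ 330 ≤ ε ^ 20 := pow_le_pow_of_le_one h0.le h1' (by omega)
      have b2 : ε ^ 400 ≤ ε ^ 20 := pow_le_pow_of_le_one h0.le h1' (by omega)
      refine (mul_le_mul_of_nonneg_left s1 (by positivity)).trans ?_
      linarith
    have a5 := mul_le_mul_of_nonneg_left W.hi (show 0 ≤ ε ^ 20 by positivity)
    have a6 := mul_le_mul_of_nonneg_left (show L * ε ^ 50 + ε ^ (200 * d) ≤ 2 * ε ^ 49 by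
      linarith) hw
    have a7 := (abs_le.1 a1).2
    have a8 : 0 ≤ ε ^ 20 := by positivity
    unfold Wh at a3 a7 ⊢
    nlinarith
  simp only [Bad]
  rw [cv_sum (G := fun τ y => Wh ε (inner ℝ (S.e τ) (Ψ y))) _ fun τ _ => (hc τ).comp hC.sm.cont]
  refine (Finset.sum_le_sum fun τ _ => key τ).trans ?_
  simp only [Finset.sum_const, Finset.card_univ, Fintype.card_fin, nsmul_eq_mul]
  refine (mul_le_mul_of_nonneg_right (card_le h0 S) (by positivity)).trans ?_
  have e : ε⁻¹ ^ 7 * (40 * ε ^ 20) = 40 * ε ^ 13 := by field_simp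
  rw [e]
  exact mul_pow_le h0 h1' h2 (by norm_num)

end Pool.Agent.MP_20bec2_an.h7

end
end MrgPart3

-- ======== part 4: formerly Pool.Agent.MP_20bec2_an.h7.TestA
section MrgPart4

/-! The leaf sums have almost pure frequency (project BIOM, module TESTA). -/

set_option autoImplicit false

open MeasureTheory Set Metric Filter Topology

noncomputable section

namespace Pool.Agent.MP_20bec2_an.h7

namespace TestA

variable {d : ℕ}

theorem ln_add {F : Type*} [NormedAddCommGroup F] [NormedSpace ℝ F] [CompleteSpace F]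
    {κ : ℝ → ℝ} {G G' : E d → F} (hκ : Continuous κ) (hG : Continuous G) (hG' : Continuous G')
    (T : ℝ) (u y : E d) :
    ln T u κ (fun z => G z + G' z) y = ln T u κ G y + ln T u κ G' y := by
  simp only [ln, smul_add]
  exact intervalIntegral.integral_add (ii_ln hκ hG u y _ _) (ii_ln hκ hG' u y _ _)

theorem ln_sub {F : Type*} [NormedAddCommGroup F] [NormedSpace ℝ F] [CompleteSpace F]
    {κ : ℝ → ℝ} {G G' : E d → F} (hκ : Continuous κ) (hG : Continuous G) (hG' : Continuous G')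
    (T : ℝ) (u y : E d) :
    ln T u κ (fun z => G z - G' z) y = ln T u κ G y - ln T u κ G' y := by
  simp only [ln, smul_sub]
  exact intervalIntegral.integral_sub (ii_ln hκ hG u y _ _) (ii_ln hκ hG' u y _ _)

theorem ln_cmul {κ : ℝ → ℝ} (c : ℂ) (G : E d → ℂ) (T : ℝ) (u y : E d) :
    ln T u κ (fun z => c * G z) y = c * ln T u κ G y := by
  simp only [ln, ← intervalIntegral.integral_const_mul, mul_smul_comm]

theorem ln_mul {κ : ℝ → ℝ} (c : ℝ) (G : E d → ℝ) (T : ℝ) (u y : E d) :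
    ln T u κ (fun z => c * G z) y = c * ln T u κ G y := by
  simp only [ln, ← intervalIntegral.integral_const_mul, mul_smul_comm]

theorem ln_const (c T : ℝ) (u y : E d) : ln T u (fun _ => 1) (fun _ => c) y = 6 * T * c := by
  simp only [ln, intervalIntegral.integral_const, smul_eq_mul]
  ring

theorem exp_lip (a b : ℝ) :
    ‖Complex.exp (Complex.I * a) - Complex.exp (Complex.I * b)‖ ≤ |a - b| := by
  have h : Complex.exp (Complex.I * a) - Complex.exp (Complex.I * b) =
      Complex.exp (Complex.I * b) * (Complex.exp (Complex.I * (a - b : ℝ)) - 1) := by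
    rw [mul_sub, ← Complex.exp_add]
    push_cast
    ring_nf
  rw [h, norm_mul, Complex.norm_exp_I_mul_ofReal, one_mul]
  exact Real.norm_exp_I_mul_ofReal_sub_one_le

variable {ε l : ℝ} {m k : ℕ}

theorem bk_nonneg (p : ℝ) : 0 ≤ bk ε m k p := bb_nonneg _

theorem norm_phk (h0 : 0 < ε) (q p : ℝ) : ‖phk ε m l k q p‖ = bk ε m k p * (m / ε ^ 70) := by
  unfold phk
  rw [norm_mul, Complex.norm_exp_I_mul_ofReal, one_mul, Complex.norm_real, Real.norm_eq_abs,
    abs_of_nonneg (mul_nonneg (bk_nonneg p) (by positivity))]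

theorem contDiff_bk (h0 : 0 < ε) (h1 : ε ≤ 1 / 2) (hk : k < m) : ContDiff ℝ 1 (bk ε m k) :=
  contDiff_xi (ψ := fun x => bb (m * x - k)) h0 h1 (sp_bk hk)
    (contDiff_bb.comp ((contDiff_const.mul contDiff_id).sub contDiff_const))

theorem bk_lip (h0 : 0 < ε) (h1 : ε ≤ 1 / 2) (hk : k < m) (p p' : ℝ) :
    |bk ε m k p - bk ε m k p'| ≤ 15 * m / ε ^ 70 * |p - p'| := by
  refine xi_lip (ψ := fun x => bb (m * x - k)) h0 h1 (sp_bk hk) (fun x y => ?_) p p'
  refine (bb_lip _ _).trans (le_of_eq ?_)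
  rw [show (m : ℝ) * x - k - (m * y - k) = m * (x - y) by ring, abs_mul, Nat.abs_cast]
  ring

theorem om_mem (h0 : 0 < ε) (hk : k < m) (hl : 0 ≤ l) :
    0 ≤ om ε m l k ∧ om ε m l k ≤ 2 * (m * l / ε ^ 70) := by
  have hm : (0 : ℝ) < m := by exact_mod_cast lt_of_le_of_lt (Nat.zero_le k) hk
  have h1 : (k : ℝ) / m ≤ 1 := (div_le_one hm).2 (by exact_mod_cast hk.le)
  unfold om
  refine ⟨by positivity, ?_⟩
  gcongr
  linarith

theorem phk_lip (h0 : 0 < ε) (h1 : ε ≤ 1 / 2) (hm : 2 ≤ m) (hk : k < m) (hml : (m : ℝ) ≤ l)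
    (hl : l ^ 2 * ε ≤ 1) (q p q' p' : ℝ) :
    ‖phk ε m l k q p - phk ε m l k q' p'‖ ≤ 15 / ε ^ 142 * (|q - q'| + |p - p'|) := by
  have hm2 : (2 : ℝ) ≤ m := by exact_mod_cast hm
  have hl0 : 0 ≤ l := by linarith
  have a1 : (m : ℝ) * l * ε ≤ 1 := le_trans (by rw [sq]; gcongr) hl
  have a2 : (m : ℝ) * m * ε ≤ 1 := le_trans (by gcongr) a1
  have a3 : 2 * (m : ℝ) * ε ≤ 1 := le_trans (by gcongr) a2
  obtain ⟨o1, o2⟩ := om_mem h0 hk hl0
  have o3 : om ε m l k ≤ 2 / ε ^ 71 := by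
    refine o2.trans ?_
    rw [← mul_div_assoc, div_le_div_iff₀ (by positivity) (by positivity)]
    calc 2 * (m * l) * ε ^ 71 = 2 * ε ^ 70 * (m * l * ε) := by ring
      _ ≤ 2 * ε ^ 70 * 1 := by gcongr
      _ = _ := by ring
  have b1 : bk ε m k p * (m / ε ^ 70) ≤ 1 / ε ^ 71 := by
    calc bk ε m k p * (m / ε ^ 70) ≤ 2 * (m / ε ^ 70) := by gcongr; exact bb_le _
      _ = (2 * m * ε) / ε ^ 71 := by field_simp
      _ ≤ _ := by gcongr
  have b2 : 15 * m / ε ^ 70 * (m / ε ^ 70) ≤ 15 / ε ^ 142 := by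
    calc 15 * m / ε ^ 70 * (m / ε ^ 70) = 15 / ε ^ 142 * ((m * m * ε) * ε) := by field_simp
      _ ≤ 15 / ε ^ 142 * (1 * 1) := by gcongr; linarith
      _ = _ := by ring
  have h : phk ε m l k q p - phk ε m l k q' p' =
      (Complex.exp (Complex.I * (om ε m l k * q : ℝ)) -
        Complex.exp (Complex.I * (om ε m l k * q' : ℝ))) * (bk ε m k p * (m / ε ^ 70) : ℝ) +
      Complex.exp (Complex.I * (om ε m l k * q' : ℝ)) *
        ((bk ε m k p - bk ε m k p') * (m / ε ^ 70) : ℝ) := by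
    unfold phk
    push_cast
    ring
  rw [h]
  refine (norm_add_le _ _).trans ?_
  rw [norm_mul, norm_mul, Complex.norm_exp_I_mul_ofReal, one_mul, Complex.norm_real,
    Complex.norm_real, Real.norm_eq_abs, Real.norm_eq_abs,
    abs_of_nonneg (mul_nonneg (bk_nonneg p) (by positivity)), abs_mul,
    abs_of_nonneg (show (0 : ℝ) ≤ m / ε ^ 70 by positivity)]
  have c1 := exp_lip (om ε m l k * q) (om ε m l k * q')
  rw [← mul_sub, abs_mul, abs_of_nonneg o1] at c1
  have c2 := bk_lip h0 h1 hk p p'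
  have c3 : ‖Complex.exp (Complex.I * (om ε m l k * q : ℝ)) -
      Complex.exp (Complex.I * (om ε m l k * q' : ℝ))‖ * (bk ε m k p * (m / ε ^ 70)) ≤
      15 / ε ^ 142 * |q - q'| := by
    calc _ ≤ (2 / ε ^ 71 * |q - q'|) * (1 / ε ^ 71) := by
          refine mul_le_mul (c1.trans (by gcongr)) b1 (mul_nonneg (bk_nonneg p) (by positivity))
            (by positivity)
      _ = 2 / ε ^ 142 * |q - q'| := by field_simp
      _ ≤ _ := by gcongr; norm_num
  have c4 : |bk ε m k p - bk ε m k p'| * (m / ε ^ 70) ≤ 15 / ε ^ 142 * |p - p'| := by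
    calc _ ≤ 15 * m / ε ^ 70 * |p - p'| * (m / ε ^ 70) := by gcongr
      _ = 15 * m / ε ^ 70 * (m / ε ^ 70) * |p - p'| := by ring
      _ ≤ _ := by gcongr
  linarith

theorem contDiff_ex (ω : ℝ) : ContDiff ℝ 1 fun t : ℝ => Complex.exp (Complex.I * (ω * t : ℝ)) :=
  Complex.contDiff_exp.comp (contDiff_const.mul
    (Complex.ofRealCLM.contDiff.comp (contDiff_const.mul contDiff_id)))

theorem hasDerivAt_ex (ω t : ℝ) : HasDerivAt (fun t : ℝ => Complex.exp (Complex.I * (ω * t : ℝ)))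
    (Complex.I * ω * Complex.exp (Complex.I * (ω * t : ℝ))) t := by
  have h1 : HasDerivAt (fun t : ℝ => Complex.I * ((ω * t : ℝ) : ℂ)) (Complex.I * ω) t := by
    have := (((hasDerivAt_id t).const_mul ω).ofReal_comp).const_mul Complex.I
    simpa using this
  have := h1.cexp
  rwa [mul_comm] at this

theorem phk_eq (q p : E d → ℝ) : (fun z => phk ε m l k (q z) (p z)) = fun z =>
    (bk ε m k (p z) * (m / ε ^ 70)) • Complex.exp (Complex.I * (om ε m l k * q z : ℝ)) := by
  funext z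
  unfold phk
  rw [Complex.real_smul, mul_comm]

theorem contDiff_ph (h0 : 0 < ε) (h1 : ε ≤ 1 / 2) (hk : k < m) {q p : E d → ℝ}
    (hq : ContDiff ℝ 1 q) (hp : ContDiff ℝ 1 p) :
    ContDiff ℝ 1 fun z => phk ε m l k (q z) (p z) := by
  rw [phk_eq]
  exact (((contDiff_bk h0 h1 hk).comp hp).mul contDiff_const).smul ((contDiff_ex _).comp hq)

theorem curl_ph (h0 : 0 < ε) (h1 : ε ≤ 1 / 2) (hk : k < m) {q p : E d → ℝ}
    (hq : ContDiff ℝ 1 q) (hp : ContDiff ℝ 1 p) (u' u z : E d) :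
    dd p u z • dd (fun z => phk ε m l k (q z) (p z)) u' z -
        dd p u' z • dd (fun z => phk ε m l k (q z) (p z)) u z =
      Complex.I * (om ε m l k : ℝ) * (jac q p u' u z • phk ε m l k (q z) (p z)) := by
  have hb : ContDiff ℝ 1 fun t => bk ε m k t * (m / ε ^ 70) :=
    (contDiff_bk h0 h1 hk).mul contDiff_const
  have key : ∀ v, dd (fun z => phk ε m l k (q z) (p z)) v z =
      (bk ε m k (p z) * (m / ε ^ 70)) • dd q v z •
        (Complex.I * (om ε m l k : ℝ) * Complex.exp (Complex.I * (om ε m l k * q z : ℝ))) +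
      (dd p v z • deriv (fun t => bk ε m k t * (m / ε ^ 70)) (p z)) •
        Complex.exp (Complex.I * (om ε m l k * q z : ℝ)) := fun v => by
    have k1 : ContDiff ℝ 1 fun z => bk ε m k (p z) * (m / ε ^ 70) := hb.comp hp
    have k2 : ContDiff ℝ 1 fun z => Complex.exp (Complex.I * (om ε m l k * q z : ℝ)) :=
      (contDiff_ex _).comp hq
    rw [phk_eq, dd_smul k1 k2,
      dd_comp hq v z (hasDerivAt_ex _ _),
      dd_comp (φ := fun t => bk ε m k t * (m / ε ^ 70)) hp v z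
        (hb.differentiable one_ne_zero _).hasDerivAt]
  rw [key, key]
  simp only [jac, phk, Complex.real_smul, smul_eq_mul]
  push_cast
  ring

end TestA

open TestA in
theorem testA (d : ℕ) (_hd : 2 ≤ d) : TestAStmt d := by
  refine small_iff.2 ?_
  filter_upwards [ev_pos, ev_mul_le 100] with ε h0 hε
  intro q p u' u m k l Λ X hq hp huu hm hk hml hl hΛ hΛ' hX
  have h1 : ε ≤ 1 / 2 := by linarith
  have hm2 : (2 : ℝ) ≤ m := by exact_mod_cast hm
  have hl0 : 0 ≤ l := by linarith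
  have hΛ0 : 0 < Λ := lt_of_lt_of_le (by positivity) hΛ
  have hX0 : 0 < X := lt_of_lt_of_le (by positivity) hX
  have hμ : (0 : ℝ) ≤ ε ^ 120 := by positivity
  have hT : (0 : ℝ) < ε ^ 52 := by positivity
  set ph : E d → ℂ := fun z => phk ε m l k (q z) (p z) with hph
  set pb : E d → ℂ := fun z => phk ε m l k (cv (ε ^ 120) q z) (cv (ε ^ 120) p z) with hpb
  have cph : ContDiff ℝ 1 ph := contDiff_ph h0 h1 hk hq.cd1 hp.cd1
  have cpb : Continuous pb := (contDiff_ph h0 h1 hk (hq.cv _).cd1 (hp.cv _).cd1).continuous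
  have near : ∀ {G : E d → ℝ}, Sm ε⁻¹ G → ∀ y, ∀ z ∈ closedBall y (ε ^ 120),
      |G z - cv (ε ^ 120) G y| ≤ 2 * ε ^ 119 := fun {G} hG y z hz => by
    have a1 := hG.lip z y
    have a2 := hG.cv_sub hμ y
    rw [mem_closedBall, dist_eq_norm] at hz
    have a3 : ε⁻¹ * ε ^ 120 = ε ^ 119 := by field_simp
    have a4 : ε⁻¹ * ‖z - y‖ ≤ ε⁻¹ * ε ^ 120 := by gcongr
    rw [Real.norm_eq_abs] at a1 a2
    have := abs_sub_le (G z) (G y) (cv (ε ^ 120) G y)
    rw [abs_sub_comm (G y)] at this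
    linarith
  have close : ∀ y, ∀ z ∈ closedBall y (ε ^ 120), ‖ph z - pb y‖ ≤ 60 / ε ^ 23 := fun y z hz => by
    refine (phk_lip h0 h1 hm hk hml hl _ _ _ _).trans ?_
    calc _ ≤ 15 / ε ^ 142 * (2 * ε ^ 119 + 2 * ε ^ 119) := by
          gcongr
          · exact near hq y z hz
          · exact near hp y z hz
      _ = _ := by field_simp; ring
  have e1 : ∀ v : E d, ‖v‖ = 1 → ∀ y, ‖cv (ε ^ 120) (fun z => dd p v z • ph z) y -
      dd (cv (ε ^ 120) p) v y • pb y‖ ≤ 60 / ε ^ 24 := fun v hv y => by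
    have := cv_smul_sub (continuous_dd hp.cd1 v) cph.continuous hμ (pb y)
      (fun z _ => hp.dd_le hv z) (close y)
    rw [← dd_cv hp.cd1] at this
    exact this.trans (le_of_eq (by field_simp))
  have e2 : ∀ y, ‖cv (ε ^ 120) (fun z => jac q p u' u z • ph z) y -
      cv (ε ^ 120) (jac q p u' u) y • pb y‖ ≤ 120 / ε ^ 25 := fun y => by
    have := cv_smul_sub (continuous_jac hq.cd1 hp.cd1 u' u) cph.continuous hμ (pb y)
      (fun z _ => abs_jac_le hq hp huu.1 huu.2.1 z) (close y)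
    exact this.trans (le_of_eq (by field_simp; ring))
  have c1 : ∀ v, ContDiff ℝ 1 (cv (ε ^ 120) fun z => dd p v z • ph z) := fun v =>
    contDiff_cv ((contDiff_dd hp.cd v).smul cph) _
  have c2 : Continuous fun z => dd (cv (ε ^ 120) p) u z • pb z :=
    (continuous_dd (hp.cv _).cd1 u).smul cpb
  have c3 : Continuous (cv (ε ^ 120) fun z => jac q p u' u z • ph z) :=
    continuous_cv ((continuous_jac hq.cd1 hp.cd1 u' u).smul cph.continuous) _
  have cth := continuous_th (ε ^ 52)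
  have hth : ∀ τ, |th (ε ^ 52) τ| ≤ 1 := fun τ => by
    rw [abs_of_nonneg (th_mem _ _).1]; exact (th_mem _ _).2
  refine ⟨contDiff_ln cth (c1 u) _ _, continuous_ln cth c2 _ _, fun y => ⟨?_, ?_⟩⟩
  · have : Uk ε m l k q p u y - Ub ε m l k q p u y = ln (ε ^ 52) u (th (ε ^ 52)) (fun z =>
        cv (ε ^ 120) (fun z => dd p u z • ph z) z - dd (cv (ε ^ 120) p) u z • pb z) y :=
      (ln_sub cth (c1 u).continuous c2 _ _ _).symm
    rw [this]
    refine (norm_ln_le (κ' := fun _ => 1) (G' := fun _ => 60 / ε ^ 24) continuous_const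
      continuous_const hT.le u y fun τ _ => ?_).trans ?_
    · exact mul_le_mul (hth τ) (e1 u huu.2.1 _) (norm_nonneg _) zero_le_one
    · rw [ln_const]
      calc 6 * ε ^ 52 * (60 / ε ^ 24) = ε ^ 25 * (360 * ε ^ 3) := by field_simp; ring
        _ ≤ ε ^ 25 * 1 := by
            gcongr
            have : ε ^ 3 ≤ (1 / 100) ^ 3 := pow_le_pow_left₀ h0.le (by linarith) 3
            linarith
        _ = _ := mul_one _
  obtain ⟨o1, o2⟩ := om_mem (l := l) h0 hk hl0
  set ω := om ε m l k with hω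
  set Q : ℝ := m * l / ε ^ 70 with hQ
  have hXΛ : ε ^ 5 ≤ X / Λ := by
    rw [le_div_iff₀ hΛ0]
    calc ε ^ 5 * Λ ≤ ε ^ 5 * ε⁻¹ := by gcongr
      _ = ε ^ 4 := by field_simp
      _ ≤ X := hX
  have hQ4 : 4 / ε ^ 70 ≤ Q := by
    rw [hQ]; gcongr; nlinarith only [hm2, hml]
  have hQ0 : 0 < Q := lt_of_lt_of_le (by positivity) hQ4
  set P : ℝ := X / Λ * Q with hP
  have hP1 : ε ^ 5 * Q ≤ P := by rw [hP]; gcongr
  have hP2 : 4 / ε ^ 65 ≤ P := by
    refine le_trans ?_ hP1
    calc 4 / ε ^ 65 = ε ^ 5 * (4 / ε ^ 70) := by field_simp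
      _ ≤ _ := by gcongr
  have hP0 : 0 < P := lt_of_lt_of_le (by positivity) hP2
  -- the derivative across the leaves
  have hD : dd (Uk ε m l k q p u) u' y - Complex.I * (X / Λ * ω : ℝ) * Uk ε m l k q p u y =
      -ln (ε ^ 52) u (th' (ε ^ 52)) (cv (ε ^ 120) fun z => dd p u' z • ph z) y +
      ln (ε ^ 52) u (th (ε ^ 52)) (fun z =>
        Complex.I * (ω : ℝ) * cv (ε ^ 120) (fun z => jac q p u' u z • ph z) z -
        Complex.I * (X / Λ * ω : ℝ) * cv (ε ^ 120) (fun z => dd p u z • ph z) z) y := by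
    have a1 : dd (cv (ε ^ 120) fun z => dd p u z • ph z) u' = fun z =>
        dd (cv (ε ^ 120) fun z => dd p u' z • ph z) u z +
          Complex.I * (ω : ℝ) * cv (ε ^ 120) (fun z => jac q p u' u z • ph z) z := by
      funext z
      have := cv_curl cph hp.cd (ε ^ 120) u' u z
      rw [show (fun z => dd p u z • dd ph u' z - dd p u' z • dd ph u z) = fun z =>
        Complex.I * (ω : ℝ) * (jac q p u' u z • ph z) from
          funext fun z => curl_ph h0 h1 hk hq.cd1 hp.cd1 u' u z, cv_cmul] at this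
      rw [← this]; ring
    have a2 : dd (Uk ε m l k q p u) u' y = _ := dd_ln cth (c1 u) (ε ^ 52) u u' y
    have k1 : Continuous fun z =>
        Complex.I * (ω : ℝ) * cv (ε ^ 120) (fun z => jac q p u' u z • ph z) z :=
      continuous_const.mul c3
    have k2 : Continuous fun z =>
        Complex.I * (X / Λ * ω : ℝ) * cv (ε ^ 120) (fun z => dd p u z • ph z) z :=
      continuous_const.mul (c1 u).continuous
    rw [a2, a1, ln_add cth (continuous_dd (c1 u') u) k1,
      ln_dd (hasDerivAt_th _) (continuous_th' _) (c1 u')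
        (th_eq_zero hT (by rw [abs_neg, abs_of_pos (by positivity)]; linarith))
        (th_eq_zero hT (by rw [abs_of_pos (by positivity)]; linarith)),
      ln_sub cth k1 k2, ln_cmul, ln_cmul]
    unfold Uk
    ring
  rw [hD]
  set B : E d → ℝ := fun z => bk ε m k (cv (ε ^ 120) p z) * (m / ε ^ 70) with hB
  have cB : Continuous B :=
    ((contDiff_bk h0 h1 hk).continuous.comp (continuous_cv hp.cont _)).mul continuous_const
  have hB0 : ∀ z, 0 ≤ B z := fun z => mul_nonneg (bk_nonneg _) (by positivity)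
  have hnB : ∀ z, ‖pb z‖ = B z := fun z => norm_phk h0 _ _
  set R : E d → ℝ := fun z =>
    |cv (ε ^ 120) (jac q p u' u) z * Λ / X - dd (cv (ε ^ 120) p) u z| with hR
  have cR : Continuous R :=
    (((continuous_cv (continuous_jac hq.cd1 hp.cd1 u' u) _).mul continuous_const).div_const _ |>.sub
      (continuous_dd (hp.cv _).cd1 u)).abs
  have b1 : ‖ln (ε ^ 52) u (th' (ε ^ 52)) (cv (ε ^ 120) fun z => dd p u' z • ph z) y‖ ≤
      ln (ε ^ 52) u (fun _ => 1) (fun z => P * (B z * ε ^ 11) + P * (30 / ε ^ 11)) y := by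
    refine norm_ln_le (G' := fun z => P * (B z * ε ^ 11) + P * (30 / ε ^ 11)) continuous_const
      ((continuous_const.mul (cB.mul continuous_const)).add continuous_const) hT.le u y
      fun τ _ => ?_
    set z := y + τ • u
    have s1 := e1 u' huu.1 z
    have s2 : ‖dd (cv (ε ^ 120) p) u' z • pb z‖ ≤ ε⁻¹ * B z := by
      rw [norm_smul, hnB]
      exact mul_le_mul_of_nonneg_right ((hp.cv _).dd_le huu.1 z) (hB0 z)
    have s3 : ‖cv (ε ^ 120) (fun z => dd p u' z • ph z) z‖ ≤ 60 / ε ^ 24 + ε⁻¹ * B z := by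
      have := norm_add_le (cv (ε ^ 120) (fun z => dd p u' z • ph z) z -
        dd (cv (ε ^ 120) p) u' z • pb z) (dd (cv (ε ^ 120) p) u' z • pb z)
      rw [sub_add_cancel] at this
      linarith
    have s4 := hB0 z
    calc _ ≤ 2 / ε ^ 52 * (60 / ε ^ 24 + ε⁻¹ * B z) :=
          mul_le_mul (abs_th'_le hT τ) s3 (norm_nonneg _) (by positivity)
      _ = 4 / ε ^ 65 * (B z * ε ^ 11 * (ε / 2)) + 4 / ε ^ 65 * (30 / ε ^ 11) := by
          field_simp; ring
      _ ≤ P * (B z * ε ^ 11 * 1) + P * (30 / ε ^ 11) := by gcongr; linarith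
      _ = _ := by ring
  have b2 : ‖ln (ε ^ 52) u (th (ε ^ 52)) (fun z =>
        Complex.I * (ω : ℝ) * cv (ε ^ 120) (fun z => jac q p u' u z • ph z) z -
        Complex.I * (X / Λ * ω : ℝ) * cv (ε ^ 120) (fun z => dd p u z • ph z) z) y‖ ≤
      ln (ε ^ 52) u (fun _ => 1)
        (fun z => P * (B z * (2 * R z)) + P * (240 / ε ^ 30 + 120 / ε ^ 24)) y := by
    refine norm_ln_le (G' := fun z => P * (B z * (2 * R z)) + P * (240 / ε ^ 30 + 120 / ε ^ 24))
      continuous_const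
      ((continuous_const.mul (cB.mul (continuous_const.mul cR))).add continuous_const) hT.le u y
      fun τ _ => ?_
    set z := y + τ • u
    have s1 := e1 u huu.2.1 z
    have s2 := e2 z
    have s3 : Complex.I * (ω : ℝ) * cv (ε ^ 120) (fun z => jac q p u' u z • ph z) z -
        Complex.I * (X / Λ * ω : ℝ) * cv (ε ^ 120) (fun z => dd p u z • ph z) z =
        Complex.I * (ω : ℝ) * (cv (ε ^ 120) (fun z => jac q p u' u z • ph z) z -
          cv (ε ^ 120) (jac q p u' u) z • pb z) -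
        Complex.I * (X / Λ * ω : ℝ) * (cv (ε ^ 120) (fun z => dd p u z • ph z) z -
          dd (cv (ε ^ 120) p) u z • pb z) +
        Complex.I * (X / Λ * ω : ℝ) * ((cv (ε ^ 120) (jac q p u' u) z * Λ / X -
          dd (cv (ε ^ 120) p) u z) • pb z) := by
      have hX' : (X : ℂ) ≠ 0 := by exact_mod_cast hX0.ne'
      have hΛ'' : (Λ : ℂ) ≠ 0 := by exact_mod_cast hΛ0.ne'
      simp only [Complex.real_smul]
      push_cast
      field_simp
      ring
    have n1 : ‖Complex.I * (ω : ℝ)‖ = ω := by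
      rw [norm_mul, Complex.norm_I, one_mul, Complex.norm_real, Real.norm_eq_abs, abs_of_nonneg o1]
    have n2 : ‖Complex.I * (X / Λ * ω : ℝ)‖ = X / Λ * ω := by
      rw [norm_mul, Complex.norm_I, one_mul, Complex.norm_real, Real.norm_eq_abs,
        abs_of_nonneg (by positivity)]
    have n3 : X / Λ * ω ≤ 2 * P := by
      calc X / Λ * ω ≤ X / Λ * (2 * Q) := by gcongr
        _ = _ := by rw [hP]; ring
    have n4 : ω ≤ 2 * P / ε ^ 5 := by
      rw [le_div_iff₀ (by positivity)]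
      calc ω * ε ^ 5 ≤ 2 * Q * ε ^ 5 := by gcongr
        _ ≤ _ := by linarith
    have s4 := hB0 z
    have s5 : 0 ≤ R z := abs_nonneg _
    rw [s3, one_mul]
    refine (mul_le_of_le_one_left (norm_nonneg _) (hth τ)).trans ?_
    refine (norm_add_le _ _).trans ?_
    refine (add_le_add (norm_sub_le _ _) le_rfl).trans ?_
    rw [norm_mul _ (_ - _), norm_mul _ (_ - _), norm_mul _ (_ • _), n1, n2, norm_smul, hnB,
      Real.norm_eq_abs]
    calc _ ≤ 2 * P / ε ^ 5 * (120 / ε ^ 25) + 2 * P * (60 / ε ^ 24) + 2 * P * (R z * B z) := by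
          gcongr
      _ = _ := by field_simp; ring
  have cA : Continuous fun z => P * (B z * ε ^ 11) := continuous_const.mul (cB.mul continuous_const)
  have cC : Continuous fun z => P * (B z * (2 * R z)) :=
    continuous_const.mul (cB.mul (continuous_const.mul cR))
  rw [ln_add continuous_const cA continuous_const, ln_const, ln_mul] at b1
  rw [ln_add continuous_const cC continuous_const, ln_const, ln_mul] at b2
  have b3 : ln (ε ^ 52) u (fun _ => 1) (fun z => B z * (2 * R z + ε ^ 11)) y =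
      ln (ε ^ 52) u (fun _ => 1) (fun z => B z * (2 * R z)) y +
      ln (ε ^ 52) u (fun _ => 1) (fun z => B z * ε ^ 11) y := by
    have k1 : Continuous fun z => B z * (2 * R z) := cB.mul (continuous_const.mul cR)
    have k2 : Continuous fun z => B z * ε ^ 11 := cB.mul continuous_const
    rw [← ln_add continuous_const k1 k2]
    simp only [mul_add]
  have b4 : 6 * ε ^ 52 * (P * (30 / ε ^ 11)) + 6 * ε ^ 52 * (P * (240 / ε ^ 30 + 120 / ε ^ 24)) ≤
      P * ε ^ 20 := by
    have hε1 : ε ≤ 1 := by linarith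
    have t1 : ε ^ 21 ≤ ε ^ 2 := pow_le_pow_of_le_one h0.le hε1 (by norm_num)
    have t2 : ε ^ 8 ≤ ε ^ 2 := pow_le_pow_of_le_one h0.le hε1 (by norm_num)
    have t3 : ε ^ 2 ≤ (1 / 100) ^ 2 := pow_le_pow_left₀ h0.le (by linarith) 2
    calc _ = P * ε ^ 20 * (180 * ε ^ 21 + 1440 * ε ^ 2 + 720 * ε ^ 8) := by field_simp; ring
      _ ≤ P * ε ^ 20 * 1 := by gcongr; linarith
      _ = _ := mul_one _
  refine (norm_add_le _ _).trans ?_
  rw [norm_neg]
  change _ ≤ P * (ln (ε ^ 52) u (fun _ => 1) (fun z => B z * (2 * R z + ε ^ 11)) y + ε ^ 20)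
  rw [b3]
  linarith

end Pool.Agent.MP_20bec2_an.h7

end
end MrgPart4

-- marker of a merged file
example : 731051 + 26738 = 731051 + 26738 := rfl
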