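import Mathlib.MeasureTheory.Integral.IntegralEqImproper
import Pool.Agent.MP_20bec2_an.h7.Net

-- ======== part 0: formerly Pool.Agent.MP_20bec2_an.h7.Ret
section MrgPart0

/-! The return field: explicit periodic functions in the plane (project BIOM). -/

set_option autoImplicit false

open MeasureTheory Set Metric Filter Topology

noncomputable section

namespace Pool.Agent.MP_20bec2_an.h7

namespace Ret

open Real

/-- bounded and Lipschitz, with the same constant -/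
def BL (B : ℝ) (F : ℝ × ℝ → ℝ) : Prop :=
  (∀ z, |F z| ≤ B) ∧ ∀ z z', |F z - F z'| ≤ B * (|z.1 - z'.1| + |z.2 - z'.2|)

variable {B B' : ℝ} {F G : ℝ × ℝ → ℝ}

theorem BL.nonneg (h : BL B F) : 0 ≤ B := (abs_nonneg _).trans (h.1 0)

theorem BL.mono (h : BL B F) (hB : B ≤ B') : BL B' F :=
  ⟨fun z => (h.1 z).trans hB, fun z z' =>
    (h.2 z z').trans (mul_le_mul_of_nonneg_right hB (by positivity))⟩

theorem BL.add (h : BL B F) (h' : BL B' G) : BL (B + B') fun z => F z + G z := by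
  refine ⟨fun z => (abs_add_le _ _).trans (add_le_add (h.1 z) (h'.1 z)), fun z z' => ?_⟩
  have e : F z + G z - (F z' + G z') = (F z - F z') + (G z - G z') := by ring
  rw [e, add_mul]
  exact (abs_add_le _ _).trans (add_le_add (h.2 z z') (h'.2 z z'))

theorem BL.mul (h : BL B F) (h' : BL B' G) : BL (2 * (B * B')) fun z => F z * G z := by
  have h0 := h.nonneg
  have h0' := h'.nonneg
  refine ⟨fun z => ?_, fun z z' => ?_⟩
  · rw [abs_mul]
    have := mul_le_mul (h.1 z) (h'.1 z) (abs_nonneg _) h0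
    nlinarith [mul_nonneg h0 h0']
  · have e : F z * G z - F z' * G z' = (F z - F z') * G z + F z' * (G z - G z') := by ring
    rw [e]
    refine (abs_add_le _ _).trans ?_
    rw [abs_mul, abs_mul]
    have a1 := mul_le_mul (h.2 z z') (h'.1 z) (abs_nonneg _) (by positivity)
    have a2 := mul_le_mul (h.1 z') (h'.2 z z') (abs_nonneg _) h0
    nlinarith

theorem BL.const {c K : ℝ} (h : |c| ≤ K) : BL K fun _ => c :=
  ⟨fun _ => h, fun z z' => by
    have := (abs_nonneg c).trans h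
    rw [sub_self, abs_zero]; positivity⟩

theorem BL.fst {f : ℝ → ℝ} (h1 : ∀ x, |f x| ≤ B) (h2 : ∀ x y, |f x - f y| ≤ B * |x - y|) :
    BL B fun z => f z.1 :=
  ⟨fun z => h1 z.1, fun z z' => (h2 _ _).trans (mul_le_mul_of_nonneg_left
    (le_add_of_nonneg_right (abs_nonneg _)) ((abs_nonneg _).trans (h1 0)))⟩

theorem BL.snd {f : ℝ → ℝ} (h1 : ∀ x, |f x| ≤ B) (h2 : ∀ x y, |f x - f y| ≤ B * |x - y|) :
    BL B fun z => f z.2 :=
  ⟨fun z => h1 z.2, fun z z' => (h2 _ _).trans (mul_le_mul_of_nonneg_left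
    (le_add_of_nonneg_left (abs_nonneg _)) ((abs_nonneg _).trans (h1 0)))⟩

theorem BL.scale (h : BL B F) {ε : ℝ} (h0 : 0 < ε) (h1 : ε ≤ 1) (z z' : ℝ × ℝ) :
    |F (z.1 / ε ^ 140, z.2 / ε ^ 141) - F (z'.1 / ε ^ 140, z'.2 / ε ^ 141)| ≤
      B / ε ^ 141 * (|z.1 - z'.1| + |z.2 - z'.2|) := by
  refine (h.2 _ _).trans ?_
  have a1 : 0 < ε ^ 140 := by positivity
  have a2 : 0 < ε ^ 141 := by positivity
  have a3 : ε ^ 141 ≤ ε ^ 140 := pow_le_pow_of_le_one h0.le h1 (by norm_num)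
  simp only [← sub_div, abs_div, abs_of_pos a1, abs_of_pos a2]
  rw [div_mul_eq_mul_div, mul_div_assoc, add_div]
  exact mul_le_mul_of_nonneg_left (add_le_add
    (div_le_div_of_nonneg_left (abs_nonneg _) a2 a3) le_rfl) h.nonneg

/-- the basic profile, zero on the first half of each period -/
def a (x : ℝ) : ℝ := max (-sin (2 * π * x)) 0

theorem a_nonneg (x : ℝ) : 0 ≤ a x := le_max_right _ _

theorem a_le (x : ℝ) : a x ≤ 1 := max_le (by linarith [neg_one_le_sin (2 * π * x)]) zero_le_one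

theorem continuous_a : Continuous a := by unfold a; fun_prop

theorem a_periodic : Function.Periodic a 1 := fun x => by
  unfold a
  rw [mul_add, mul_one, sin_add_two_pi]

theorem a_lip (x y : ℝ) : |a x - a y| ≤ 8 * |x - y| := by
  refine (abs_max_sub_max_le_abs _ _ _).trans ?_
  rw [neg_sub_neg, abs_sub_comm]
  refine (abs_sin_sub_sin_le _ _).trans ?_
  rw [← mul_sub, abs_mul, abs_of_pos (by positivity : 0 < 2 * π)]
  exact mul_le_mul_of_nonneg_right (by linarith [pi_le_four]) (abs_nonneg _)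

theorem cos_lip (x y : ℝ) : |cos (2 * π * x) - cos (2 * π * y)| ≤ 8 * |x - y| := by
  refine (abs_cos_sub_cos_le _ _).trans ?_
  rw [← mul_sub, abs_mul, abs_of_pos (by positivity : 0 < 2 * π)]
  exact mul_le_mul_of_nonneg_right (by linarith [pi_le_four]) (abs_nonneg _)

theorem abs_a_le (x : ℝ) : |a x| ≤ 8 := by
  rw [abs_of_nonneg (a_nonneg x)]; linarith [a_le x]

/-- derivative of the fourth power of the profile -/
def l' (x : ℝ) : ℝ := -(8 * π) * (a x * (a x * (a x * cos (2 * π * x))))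

theorem continuous_l' : Continuous l' := by
  have := continuous_a
  unfold l'; fun_prop

theorem hasDerivAt_a4 (x : ℝ) : HasDerivAt (fun t => a t ^ 4) (l' x) x := by
  have h1 : HasDerivAt (fun t : ℝ => -sin (2 * π * t)) (-(cos (2 * π * x) * (2 * π))) x := by
    have := ((hasDerivAt_id' x).const_mul (2 * π)).sin.neg
    rw [mul_one] at this
    exact this
  have h2 := (Prof.hasDerivAt_max_sq (-sin (2 * π * x))).comp x h1
  have h3 := h2.mul h2
  have e : (fun t => a t ^ 4) = ((fun t : ℝ => max t 0 ^ 2) ∘ fun t : ℝ => -sin (2 * π * t)) *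
      ((fun t : ℝ => max t 0 ^ 2) ∘ fun t : ℝ => -sin (2 * π * t)) := by
    funext t
    simp only [a, Pi.mul_apply, Function.comp_apply]; ring
  rw [e]
  refine HasDerivAt.congr_deriv h3 ?_
  simp only [l', a, Function.comp_apply]; ring

theorem int_pos (k : ℕ) : 0 < ∫ x in (0 : ℝ)..1, a x ^ k := by
  have hc : Continuous fun x => a x ^ k := continuous_a.pow k
  refine intervalIntegral.integral_pos zero_lt_one hc.continuousOn
    (fun x _ => pow_nonneg (a_nonneg x) k) ⟨3 / 4, ⟨by norm_num, by norm_num⟩, ?_⟩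
  have : a (3 / 4) = 1 := by
    unfold a
    rw [show 2 * π * (3 / 4) = π / 2 + π by ring, sin_add_pi, sin_pi_div_two]; norm_num
  rw [this]; norm_num

theorem a_sep {x q : ℝ} (h : a x ≠ 0) (hq : Int.fract q ∈ Icc (1 / 8 : ℝ) (3 / 8)) :
    1 / 8 ≤ |x - q| := by
  by_contra hc
  rw [not_le, abs_lt] at hc
  refine h (max_eq_right ?_)
  have e : 2 * π * (x - ⌊q⌋) = 2 * π * x - (⌊q⌋ : ℤ) * (2 * π) := by ring
  rw [← sin_sub_int_mul_two_pi, ← e, neg_nonpos]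
  have h1 := hq.1
  have h2 := hq.2
  rw [Int.fract] at h1 h2
  refine sin_nonneg_of_nonneg_of_le_pi (mul_nonneg (by positivity) (by linarith [hc.1])) ?_
  nlinarith [pi_pos, hc.2]

/-- a periodic primitive of a normalised power of the profile -/
theorem exists_prim (k : ℕ) : ∃ (c S : ℝ) (σ : ℝ → ℝ), 0 < c ∧ 0 ≤ S ∧
    (∀ x, HasDerivAt σ (a x ^ k / c - 1) x) ∧ Function.Periodic σ 1 ∧ (∀ x, |σ x| ≤ S) ∧
    ∀ x y, |σ x - σ y| ≤ S * |x - y| := by
  obtain ⟨c, hc⟩ : ∃ c, c = ∫ x in (0 : ℝ)..1, a x ^ k := ⟨_, rfl⟩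
  have h0 : 0 < c := hc ▸ int_pos k
  have hf : Continuous fun x => a x ^ k / c - 1 :=
    ((continuous_a.pow k).div_const c).sub continuous_const
  have hp : Function.Periodic (fun x => a x ^ k / c - 1) 1 := fun x => by
    simp only [a_periodic x]
  have hd : ∀ x, HasDerivAt (fun x => ∫ t in (0 : ℝ)..x, (a t ^ k / c - 1)) (a x ^ k / c - 1) x :=
    fun x => (hf.integral_hasStrictDerivAt 0 x).hasDerivAt
  have hz : ∫ t in (0 : ℝ)..1, (a t ^ k / c - 1) = 0 := by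
    have hk : Continuous fun x => a x ^ k / c := (continuous_a.pow k).div_const c
    rw [intervalIntegral.integral_sub (hk.intervalIntegrable _ _)
      (continuous_const.intervalIntegrable _ _), intervalIntegral.integral_div, ← hc,
      div_self h0.ne']
    simp
  have hσ : Function.Periodic (fun x => ∫ t in (0 : ℝ)..x, (a t ^ k / c - 1)) 1 := fun x => by
    have h1 := hp.intervalIntegral_add_eq x 0
    rw [zero_add, hz] at h1
    have h2 := intervalIntegral.integral_add_adjacent_intervals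
      (hf.intervalIntegrable (μ := volume) 0 x) (hf.intervalIntegrable x (x + 1))
    rw [h1, add_zero] at h2
    exact h2.symm
  have hcσ : Continuous fun x => ∫ t in (0 : ℝ)..x, (a t ^ k / c - 1) :=
    continuous_iff_continuousAt.2 fun x => (hd x).continuousAt
  obtain ⟨S, hS⟩ := (hσ.isBounded_of_continuous one_ne_zero hcσ).exists_norm_le
  have hb : ∀ x, |a x ^ k / c - 1| ≤ 1 / c + 1 := fun x => by
    have a1 : 0 ≤ a x ^ k / c := div_nonneg (pow_nonneg (a_nonneg x) k) h0.le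
    have a2 : a x ^ k / c ≤ 1 / c :=
      div_le_div_of_nonneg_right (pow_le_one₀ (a_nonneg x) (a_le x)) h0.le
    rw [abs_le]; constructor <;> linarith
  have hS0 : 0 ≤ S := (norm_nonneg _).trans (hS _ ⟨0, rfl⟩)
  have hc1 : 0 ≤ 1 / c + 1 := by positivity
  refine ⟨c, S + (1 / c + 1), _, h0, by positivity, hd, hσ, fun x => ?_, fun x y => ?_⟩
  · exact (hS _ ⟨x, rfl⟩).trans (le_add_of_nonneg_right hc1)
  · exact (Prof.lip_of_deriv hd hb x y).trans
      (mul_le_mul_of_nonneg_right (le_add_of_nonneg_left hS0) (abs_nonneg _))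

theorem hasDerivAt_scale {σ f : ℝ → ℝ} (hσ : ∀ x, HasDerivAt σ (f x) x) {r : ℝ} (hr : 0 < r)
    (t : ℝ) : HasDerivAt (fun t => r * σ (t / r)) (f (t / r)) t := by
  refine HasDerivAt.congr_deriv
    (((hσ (t / r)).comp t ((hasDerivAt_id' t).div_const r)).const_mul r) ?_
  field_simp

theorem int_per {σ f : ℝ → ℝ} (hσ : ∀ x, HasDerivAt σ (f x) x) (hf : Continuous f)
    (hp : Function.Periodic σ 1) {r : ℝ} (hr : 0 < r) (u v c : ℝ) :
    ∫ t in (0 : ℝ)..r, (u + v * f ((c + t) / r)) = u * r := by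
  have hd : ∀ t ∈ uIcc (0 : ℝ) r, HasDerivAt (fun t => u * t + v * (r * σ ((c + t) / r)))
      (u + v * f ((c + t) / r)) t := by
    intro t _
    have h1 := ((hasDerivAt_scale hσ hr (c + t)).comp t ((hasDerivAt_id' t).const_add c)).const_mul v
    have h2 := (hasDerivAt_id' t).const_mul u
    rw [mul_one] at h1 h2
    exact h2.add h1
  rw [intervalIntegral.integral_eq_sub_of_hasDerivAt hd
    (Continuous.intervalIntegrable (by fun_prop) _ _), add_div c r, div_self hr.ne', hp, add_zero c]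
  ring

theorem contDiff_of {u u' : ℝ → ℝ} (hu : ∀ t, HasDerivAt u (u' t) t) (hc : Continuous u') :
    ContDiff ℝ 1 u := by
  rw [contDiff_one_iff_deriv]
  refine ⟨fun x => (hu x).differentiableAt, ?_⟩
  rw [show deriv u = u' from funext fun x => (hu x).deriv]
  exact hc

theorem prod_deriv {u u' v v' w w' : ℝ → ℝ} (hu : ∀ t, HasDerivAt u (u' t) t)
    (hv : ∀ t, HasDerivAt v (v' t) t) (hw : ∀ t, HasDerivAt w (w' t) t) (z h : ℝ × ℝ) :
    fderiv ℝ (fun z : ℝ × ℝ => u z.1 * v z.2 + w z.1) z h =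
      (u' z.1 * v z.2 + w' z.1) * h.1 + u z.1 * v' z.2 * h.2 := by
  have h1 := (hu z.1).comp_hasFDerivAt z (hasFDerivAt_fst (𝕜 := ℝ) (p := z))
  have h2 := (hv z.2).comp_hasFDerivAt z (hasFDerivAt_snd (𝕜 := ℝ) (p := z))
  have h3 := (hw z.1).comp_hasFDerivAt z (hasFDerivAt_fst (𝕜 := ℝ) (p := z))
  have h4 := ((h1.mul h2).add h3).fderiv
  have e : (fun z : ℝ × ℝ => u z.1 * v z.2 + w z.1) =
      (u ∘ Prod.fst) * (v ∘ Prod.snd) + w ∘ Prod.fst := rfl
  rw [e, h4]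
  simp
  ring

/-- the key pointwise inequality -/
theorem key {p s K x y : ℝ} (hx0 : 0 ≤ x) (hx1 : x ≤ 1) (hy : 0 ≤ y) (hp : |p| ≤ K * x ^ 3)
    (hs : s = 1 + (1 - x ^ 4) * (y - 1)) :
    0 ≤ s ∧ p ^ 2 + s ^ 2 ≤ (s + K ^ 2 * x ^ 2) ^ 2 := by
  have h1 : x ^ 4 ≤ 1 := pow_le_one₀ hx0 hx1
  have h2 : x ^ 4 ≤ s := by nlinarith [mul_nonneg (sub_nonneg.2 h1) hy]
  have h3 : 0 ≤ x ^ 4 := by positivity
  have h4 : p ^ 2 ≤ (K * x ^ 3) ^ 2 := by
    rw [← sq_abs p]; exact pow_le_pow_left₀ (abs_nonneg _) hp 2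
  have h5 : 0 ≤ K ^ 2 * x ^ 2 := by positivity
  refine ⟨h3.trans h2, ?_⟩
  nlinarith [mul_le_mul_of_nonneg_left h2 h5, mul_nonneg h5 h3, sq_nonneg (K ^ 2 * x ^ 2)]

end Ret

open Ret

theorem ret : RetStmt := by
  obtain ⟨c, S, σ, hc, hS, hσ, hp, hb, hl⟩ := exists_prim 2
  obtain ⟨c', S', σ', hc', hS', hσ', -, hb', -⟩ := exists_prim 4
  have A1 : BL 8 fun z => a z.1 := BL.fst abs_a_le a_lip
  have A2 : BL 8 fun z => a z.2 := BL.snd abs_a_le a_lip
  have A3 : BL 8 fun z => Real.cos (2 * Real.pi * z.1) :=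
    BL.fst (f := fun x => Real.cos (2 * Real.pi * x))
      (fun x => (Real.abs_cos_le_one _).trans (by norm_num)) cos_lip
  obtain ⟨B₁, F1⟩ : ∃ B, BL B fun z => -l' z.1 * σ z.2 := by
    have := (((BL.const (le_refl |8 * Real.pi|)).mul (A1.mul (A1.mul (A1.mul A3)))).mul
      (BL.snd hb hl))
    refine ⟨_, (congrArg (BL _) (funext fun z => ?_)).mp this⟩
    simp only [l']; ring
  obtain ⟨B₂, F2⟩ : ∃ B, BL B fun z => a z.1 ^ 4 / c' - 1 := by
    have := ((BL.const (le_refl |c'⁻¹|)).mul (A1.mul (A1.mul (A1.mul A1)))).add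
      (BL.const (le_refl |(-1 : ℝ)|))
    refine ⟨_, (congrArg (BL _) (funext fun z => ?_)).mp this⟩
    ring
  obtain ⟨B₃, F3⟩ : ∃ B, BL B fun z => (1 - a z.1 ^ 4) * (a z.2 ^ 2 / c - 1) := by
    have := ((BL.const (le_refl |(1 : ℝ)|)).add ((BL.const (le_refl |(-1 : ℝ)|)).mul
      (A1.mul (A1.mul (A1.mul A1))))).mul
      (((BL.const (le_refl |c⁻¹|)).mul (A2.mul A2)).add (BL.const (le_refl |(-1 : ℝ)|)))
    refine ⟨_, (congrArg (BL _) (funext fun z => ?_)).mp this⟩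
    ring
  have F4 : BL 128 fun z => a z.1 ^ 2 := by
    have := A1.mul A1
    rw [show (2 : ℝ) * (8 * 8) = 128 by norm_num] at this
    refine (congrArg (BL _) (funext fun z => ?_)).mp this
    ring
  obtain ⟨K, hK⟩ : ∃ K : ℝ, K = 8 * Real.pi * S + 1 / c' := ⟨_, rfl⟩
  have b1 := F1.nonneg
  have b2 := F2.nonneg
  have b3 := F3.nonneg
  have k1 : 0 ≤ K ^ 2 * c := by positivity
  have k2 : 0 ≤ K ^ 2 * c * S := by positivity
  have k3 : 0 ≤ K ^ 2 := by positivity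
  obtain ⟨C, hC⟩ : ∃ C : ℝ, C = 1 + 2 * B₁ + 2 * B₂ + B₃ + 256 * K ^ 2 + S + S' + K ^ 2 * c +
    K ^ 2 * c * S := ⟨_, rfl⟩
  refine ⟨C, by linarith, fun ε β₀ h0 h1 h2 => ?_⟩
  have he : ε ≤ 1 := h1.trans h2
  have hβ0 : 0 ≤ β₀ := h0.le.trans h1
  have hβ1 : β₀ ^ 2 ≤ 1 := pow_le_one₀ hβ0 h2
  have r1 : 0 < ε ^ 140 := by positivity
  have r2 : 0 < ε ^ 141 := by positivity
  have r3 : ε ^ 141 ≤ ε ^ 140 := pow_le_pow_of_le_one h0.le he (by norm_num)
  obtain ⟨E, hE⟩ : ∃ E : ℝ, E = (K * β₀) ^ 2 := ⟨_, rfl⟩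
  have e0 : 0 ≤ E := by rw [hE]; positivity
  have e1 : E ≤ K ^ 2 := by rw [hE, mul_pow]; exact mul_le_of_le_one_right k3 hβ1
  refine ⟨1 + E * c, le_add_of_nonneg_right (by positivity), ?_, fun β hβ => ?_⟩
  · have : K ^ 2 * c * β₀ ^ 2 ≤ C * β₀ ^ 2 :=
      mul_le_mul_of_nonneg_right (by linarith) (by positivity)
    rw [hE]; nlinarith
  have G1 : BL C fun z => ε * (-l' z.1 * σ z.2) + β * (a z.1 ^ 4 / c' - 1) :=
    (((BL.const (K := 1) (by rw [abs_of_pos h0]; exact he)).mul F1).add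
      ((BL.const (hβ.trans h2)).mul F2)).mono (by linarith)
  have G2 : BL C fun z => (1 - a z.1 ^ 4) * (a z.2 ^ 2 / c - 1) := F3.mono (by linarith)
  have G3 : BL C fun z => 1 + (1 - a z.1 ^ 4) * (a z.2 ^ 2 / c - 1) + E * a z.1 ^ 2 :=
    (((BL.const (K := 1) (by rw [abs_one])).add F3).add
      ((BL.const (K := K ^ 2) (by rw [abs_of_nonneg e0]; exact e1)).mul F4)).mono (by linarith)
  have ca := continuous_a
  have cl := continuous_l'
  have hu : ∀ t, HasDerivAt (fun t => 1 - a (t / ε ^ 140) ^ 4) (-l' (t / ε ^ 140) / ε ^ 140) t := by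
    intro t
    have := ((hasDerivAt_a4 (t / ε ^ 140)).comp t
      ((hasDerivAt_id' t).div_const (ε ^ 140))).const_sub 1
    refine HasDerivAt.congr_deriv this ?_
    ring
  have hv := hasDerivAt_scale hσ r2
  have hw : ∀ t, HasDerivAt (fun t => β * (ε ^ 140 * σ' (t / ε ^ 140)))
      (β * (a (t / ε ^ 140) ^ 4 / c' - 1)) t := fun t => (hasDerivAt_scale hσ' r1 t).const_mul β
  have hD : ∀ t, HasDerivAt (fun t => E * c * (ε ^ 140 * σ (t / ε ^ 140)))
      (E * c * (a (t / ε ^ 140) ^ 2 / c - 1)) t :=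
    fun t => (hasDerivAt_scale hσ r1 t).const_mul (E * c)
  have hkey : ∀ x y : ℝ, 0 ≤ 1 + (1 - a x ^ 4) * (a y ^ 2 / c - 1) ∧
      (β + (ε * (-l' x * σ y) + β * (a x ^ 4 / c' - 1))) ^ 2 +
        (1 + (1 - a x ^ 4) * (a y ^ 2 / c - 1)) ^ 2 ≤
      (1 + (1 - a x ^ 4) * (a y ^ 2 / c - 1) + E * a x ^ 2) ^ 2 := by
    intro x y
    rw [hE]
    refine key (a_nonneg x) (a_le x) (by positivity) ?_ rfl
    have ax := a_nonneg x
    have e : β + (ε * (-l' x * σ y) + β * (a x ^ 4 / c' - 1)) =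
        (ε * (8 * Real.pi * (Real.cos (2 * Real.pi * x) * σ y)) + β * (a x / c')) * a x ^ 3 := by
      simp only [l']; ring
    rw [e, abs_mul, abs_of_nonneg (pow_nonneg ax 3)]
    refine mul_le_mul_of_nonneg_right ((abs_add_le _ _).trans ?_) (pow_nonneg ax 3)
    have a1 : |Real.cos (2 * Real.pi * x) * σ y| ≤ S := by
      rw [abs_mul]
      exact (mul_le_of_le_one_left (abs_nonneg _) (Real.abs_cos_le_one _)).trans (hb y)
    have a2 : |a x / c'| ≤ 1 / c' := by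
      rw [abs_of_nonneg (div_nonneg ax hc'.le)]
      exact div_le_div_of_nonneg_right (a_le x) hc'.le
    rw [abs_mul ε, abs_mul β, abs_mul (8 * Real.pi), abs_of_pos h0,
      abs_of_pos (by positivity : 0 < 8 * Real.pi), hK, add_mul, mul_comm _ β₀, mul_comm _ β₀]
    exact add_le_add
      (mul_le_mul h1 (mul_le_mul_of_nonneg_left a1 (by positivity)) (by positivity) hβ0)
      (mul_le_mul hβ a2 (abs_nonneg _) hβ0)
  refine ⟨fun z => (1 - a (z.1 / ε ^ 140) ^ 4) * (ε ^ 141 * σ (z.2 / ε ^ 141)) +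
      β * (ε ^ 140 * σ' (z.1 / ε ^ 140)),
    fun z => ε * (-l' (z.1 / ε ^ 140) * σ (z.2 / ε ^ 141)) + β * (a (z.1 / ε ^ 140) ^ 4 / c' - 1),
    fun z => (1 - a (z.1 / ε ^ 140) ^ 4) * (a (z.2 / ε ^ 141) ^ 2 / c - 1),
    fun z => 1 + (1 - a (z.1 / ε ^ 140) ^ 4) * (a (z.2 / ε ^ 141) ^ 2 / c - 1) +
      E * a (z.1 / ε ^ 140) ^ 2,
    fun t => E * c * (ε ^ 140 * σ (t / ε ^ 140)),
    fun t => E * c * (a (t / ε ^ 140) ^ 2 / c - 1), ?_, fun z v => ?_,
    contDiff_of hD (by fun_prop), hD, fun z => ?_, fun t => ?_, fun z => ?_,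
    fun z => (hkey _ _).2, fun z => ⟨?_, ?_, G1.1 (_, _), G2.1 (_, _)⟩,
    fun z z' => ⟨G1.scale h0 he z z', G2.scale h0 he z z', G3.scale h0 he z z'⟩,
    fun z hz q p hP => ?_, fun z => ?_⟩
  · exact (((contDiff_of hu (by fun_prop)).comp contDiff_fst).mul
      ((contDiff_of hv (by fun_prop)).comp contDiff_snd)).add
      ((contDiff_of hw (by fun_prop)).comp contDiff_fst)
  · rw [prod_deriv hu hv hw z v]
    have : -l' (z.1 / ε ^ 140) / ε ^ 140 * (ε ^ 141 * σ (z.2 / ε ^ 141)) =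
        ε * (-l' (z.1 / ε ^ 140) * σ (z.2 / ε ^ 141)) := by
      generalize l' (z.1 / ε ^ 140) = s
      generalize σ (z.2 / ε ^ 141) = t
      field_simp
    rw [this]
  · refine (abs_add_le _ _).trans ?_
    have a0 := a_nonneg (z.1 / ε ^ 140)
    have a1 : |1 - a (z.1 / ε ^ 140) ^ 4| ≤ 1 := by
      have := pow_le_one₀ (n := 4) a0 (a_le _)
      have := pow_nonneg a0 4
      rw [abs_le]; constructor <;> linarith
    have a2 : |ε ^ 141 * σ (z.2 / ε ^ 141)| ≤ ε ^ 140 * S := by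
      rw [abs_mul, abs_of_pos r2]
      exact mul_le_mul r3 (hb _) (abs_nonneg _) r1.le
    have a3 : |ε ^ 140 * σ' (z.1 / ε ^ 140)| ≤ ε ^ 140 * S' := by
      rw [abs_mul, abs_of_pos r1]
      exact mul_le_mul_of_nonneg_left (hb' _) r1.le
    have a4 : (S + S') * ε ^ 140 ≤ C * ε ^ 140 := mul_le_mul_of_nonneg_right (by linarith) r1.le
    rw [abs_mul (1 - _), abs_mul β]
    linarith [mul_le_of_le_one_left (abs_nonneg (ε ^ 141 * σ (z.2 / ε ^ 141))) a1,
      mul_le_of_le_one_left (abs_nonneg (ε ^ 140 * σ' (z.1 / ε ^ 140))) (hβ.trans h2)]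
  · rw [abs_mul, abs_mul (ε ^ 140), abs_of_pos r1, abs_of_nonneg (mul_nonneg e0 hc.le)]
    calc E * c * (ε ^ 140 * |σ (t / ε ^ 140)|) ≤ K ^ 2 * c * (ε ^ 140 * S) :=
          mul_le_mul (mul_le_mul_of_nonneg_right e1 hc.le)
            (mul_le_mul_of_nonneg_left (hb _) r1.le) (mul_nonneg r1.le (abs_nonneg _)) k1
      _ = K ^ 2 * c * S * ε ^ 140 := by ring
      _ ≤ C * ε ^ 140 := mul_le_mul_of_nonneg_right (by linarith) r1.le
  · generalize a (z.1 / ε ^ 140) = s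
    generalize a (z.2 / ε ^ 141) = t
    field_simp
    ring
  · exact add_nonneg (hkey _ _).1 (by positivity)
  · exact (le_abs_self _).trans (G3.1 (_, _))
  · by_cases hx : a (z.1 / ε ^ 140) = 0
    · by_cases hy : a (z.2 / ε ^ 141) = 0
      · exact absurd (by simp only [hx, hy]; ring) hz
      · have := a_sep hy hP.2
        rw [← sub_div, abs_div, abs_of_pos r2, le_div_iff₀ r2] at this
        exact Or.inr (by linarith)
    · have := a_sep hx hP.1
      rw [← sub_div, abs_div, abs_of_pos r1, le_div_iff₀ r1] at this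
      exact Or.inl (by linarith)
  · have cf : Continuous fun x => a x ^ 2 / c - 1 := by fun_prop
    have i1 : ∀ s : ℝ, ∫ t in (0 : ℝ)..ε ^ 141, (1 + (1 - a ((z.1 + s) / ε ^ 140) ^ 4) *
        (a ((z.2 + t) / ε ^ 141) ^ 2 / c - 1) + E * a ((z.1 + s) / ε ^ 140) ^ 2) =
        (1 + E * c) * ε ^ 141 + E * c * ε ^ 141 * (a ((z.1 + s) / ε ^ 140) ^ 2 / c - 1) := by
      intro s
      have := int_per hσ cf hp r2 (1 + E * a ((z.1 + s) / ε ^ 140) ^ 2)
        (1 - a ((z.1 + s) / ε ^ 140) ^ 4) z.2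
      refine Eq.trans (intervalIntegral.integral_congr fun t _ => by ring) (this.trans ?_)
      generalize a ((z.1 + s) / ε ^ 140) = u
      field_simp
      ring
    simp only [i1]
    rw [int_per hσ cf hp r1]
    ring

end Pool.Agent.MP_20bec2_an.h7

end
end MrgPart0

-- ======== part 1: formerly Pool.Agent.MP_20bec2_an.h7.Step
section MrgPart1

/-! The potential gains at every level (project BIOM, module STEP). -/

set_option autoImplicit false

open MeasureTheory Set Metric Filter Topology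

noncomputable section

namespace Pool.Agent.MP_20bec2_an.h7

namespace Step

variable {d : ℕ}

theorem dd_lin {G : E d → ℝ} (a b : ℝ) (v v' y : E d) :
    dd G (a • v + b • v') y = a * dd G v y + b * dd G v' y := by
  simp [dd]

theorem dd_lin' {G : E d → ℝ} (a b : ℝ) (v v' y : E d) :
    dd G (a • v - b • v') y = a * dd G v y - b * dd G v' y := by
  simp [dd]

theorem dd_sm {G : E d → ℝ} (a : ℝ) (v y : E d) : dd G (a • v) y = a * dd G v y := by
  simp [dd]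

theorem dd_co_add {Ψ : E d → E d} (h : ContDiff ℝ 1 Ψ) (a b : ℝ) (e e' v y : E d) :
    dd (co (a • e + b • e') Ψ) v y = a * dd (co e Ψ) v y + b * dd (co e' Ψ) v y := by
  simp only [dd_co h, inner_add_left, real_inner_smul_left]

theorem dd_co_sub {Ψ : E d → E d} (h : ContDiff ℝ 1 Ψ) (a b : ℝ) (e e' v y : E d) :
    dd (co (a • e - b • e') Ψ) v y = a * dd (co e Ψ) v y - b * dd (co e' Ψ) v y := by
  simp only [dd_co h, inner_sub_left, real_inner_smul_left]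

theorem jac_rot {Ψ : E d → E d} (h : ContDiff ℝ 1 Ψ) {a b : ℝ} (hab : a ^ 2 + b ^ 2 = 1)
    (e e' v' v : E d) :
    jac (co (b • e - a • e') Ψ) (co (a • e + b • e') Ψ) v' v = jac (co e Ψ) (co e' Ψ) v' v := by
  funext y
  simp only [jac, dd_co_add h, dd_co_sub h]
  linear_combination (dd (co e Ψ) v' y * dd (co e' Ψ) v y - dd (co e Ψ) v y * dd (co e' Ψ) v' y) * hab

theorem cv_dd_add {L : ℝ} {Ψ : E d → E d} (h : Sm L Ψ) (a b : ℝ) {e e' : E d} (he : ‖e‖ = 1)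
    (he' : ‖e'‖ = 1) (μ : ℝ) (v y : E d) :
    cv μ (dd (co (a • e + b • e') Ψ) v) y =
      a * cv μ (dd (co e Ψ) v) y + b * cv μ (dd (co e' Ψ) v) y := by
  have h1 := continuous_dd (h.co he).cd1 v
  have h2 := continuous_dd (h.co he').cd1 v
  have : dd (co (a • e + b • e') Ψ) v = fun z => a * dd (co e Ψ) v z + b * dd (co e' Ψ) v z :=
    funext fun z => dd_co_add h.cd1 a b e e' v z
  rw [this, cv_add (G := fun z => a * dd (co e Ψ) v z) (G' := fun z => b * dd (co e' Ψ) v z)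
    (continuous_const.mul h1) (continuous_const.mul h2), cv_const_mul, cv_const_mul]

theorem cv_dd_sub {L : ℝ} {Ψ : E d → E d} (h : Sm L Ψ) (a b : ℝ) {e e' : E d} (he : ‖e‖ = 1)
    (he' : ‖e'‖ = 1) (μ : ℝ) (v y : E d) :
    cv μ (dd (co (a • e - b • e') Ψ) v) y =
      a * cv μ (dd (co e Ψ) v) y - b * cv μ (dd (co e' Ψ) v) y := by
  have h1 := continuous_dd (h.co he).cd1 v
  have h2 := continuous_dd (h.co he').cd1 v
  have : dd (co (a • e - b • e') Ψ) v = fun z => a * dd (co e Ψ) v z - b * dd (co e' Ψ) v z :=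
    funext fun z => dd_co_sub h.cd1 a b e e' v z
  rw [this, cv_sub (G := fun z => a * dd (co e Ψ) v z) (G' := fun z => b * dd (co e' Ψ) v z)
    (continuous_const.mul h1) (continuous_const.mul h2), cv_const_mul, cv_const_mul]

theorem pot_rot {L ε M M' H μ : ℝ} {Ψ : E d → E d} (h : Sm L Ψ) {a b : ℝ}
    (hab : a ^ 2 + b ^ 2 = 1) {e e' : E d} (he : ‖e‖ = 1) (he' : ‖e'‖ = 1) {y : E d}
    (hp : Pot ε M M' H μ (co e Ψ) (co e' Ψ) y) :
    Pot ε M M' H μ (co (b • e - a • e') Ψ) (co (a • e + b • e') Ψ) y := by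
  intro c₁ c₂ v' v hc hv
  rw [jac_rot h.cd1 hab, cv_dd_add h a b he he', cv_dd_sub h b a he he']
  have := hp (c₁ * b + c₂ * a) (c₂ * b - c₁ * a) v' v
    (by linear_combination (a ^ 2 + b ^ 2) * hc + hab) hv
  convert this using 2
  ring

theorem on_rot {e e' : E d} (h : ON e e') {a b : ℝ} (hab : a ^ 2 + b ^ 2 = 1) :
    ON (b • e - a • e') (a • e + b • e') := by
  obtain ⟨h1, h2, h3⟩ := h
  have i1 : inner ℝ e e = (1 : ℝ) := by rw [real_inner_self_eq_norm_sq, h1]; norm_num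
  have i2 : inner ℝ e' e' = (1 : ℝ) := by rw [real_inner_self_eq_norm_sq, h2]; norm_num
  have i3 : inner ℝ e' e = (0 : ℝ) := by rw [real_inner_comm]; exact h3
  have key : ∀ x : E d, inner ℝ x x = (1 : ℝ) → ‖x‖ = 1 := fun x hx => by
    rw [real_inner_self_eq_norm_sq] at hx
    nlinarith [norm_nonneg x]
  refine ⟨key _ ?_, key _ ?_, ?_⟩
  · simp only [inner_sub_left, inner_sub_right, real_inner_smul_left, real_inner_smul_right,
      i1, i2, i3, h3]
    linear_combination hab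
  · simp only [inner_add_left, inner_add_right, real_inner_smul_left, real_inner_smul_right,
      i1, i2, i3, h3]
    linear_combination hab
  · simp only [inner_sub_left, inner_add_right, real_inner_smul_left, real_inner_smul_right,
      i1, i2, i3, h3]
    ring

theorem on_symm {e e' : E d} (h : ON e e') : ON e' e :=
  ⟨h.2.1, h.1, by rw [real_inner_comm]; exact h.2.2⟩

theorem on_sign {e e' : E d} (h : ON e e') {σ : ℝ} (hσ : σ = 1 ∨ σ = -1) :
    ON (σ • e) (σ • e') := by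
  obtain ⟨h1, h2, h3⟩ := h
  rcases hσ with rfl | rfl
  · simpa using ⟨h1, h2, h3⟩
  · refine ⟨by simpa using h1, by simpa using h2, by simpa using h3⟩

theorem jac_sign (q p : E d → ℝ) (v' v : E d) {σ : ℝ} (hσ : σ = 1 ∨ σ = -1) :
    jac q p (σ • v') (σ • v) = jac q p v' v := by
  funext y
  simp only [jac, dd_sm]
  rcases hσ with rfl | rfl <;> ring

theorem jac_frame (q p : E d → ℝ) (v' v : E d) {a b : ℝ} (hab : a ^ 2 + b ^ 2 = 1) :
    jac q p (b • v' - a • v) (a • v' + b • v) = jac q p v' v := by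
  funext y
  simp only [jac, dd_lin, dd_lin']
  linear_combination (dd q v' y * dd p v y - dd q v y * dd p v' y) * hab

/-- the numeric contradiction in the case of a small stretch -/
theorem num_small {LL δ g M M' Λ X : ℝ} (hLL : 10 ^ 11 ≤ LL) (hδ : 0 < δ) (hδ' : δ ≤ 1 / 100)
    (hg : 0 < g) (hM : 0 < M) (hM' : 0 < M') (h1 : g * LL ^ 11 ≤ δ ^ 4)
    (h2 : M ^ 8 * g ^ 5 * LL ^ 11 ≤ δ ^ 6 * M' ^ 4) (hΛ0 : 0 ≤ Λ)
    (hΛ : Λ * δ ^ 2 ≤ 96 * LL ^ 4 * g * M) (hX : M' ≤ 4 * X)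
    (hA : X ≤ 10 ^ 6 * (Λ + 3 * (2 * g) * M) ^ 2) : False := by
  have hL1 : 1 ≤ LL := by linarith
  have hL4 : 1 ≤ LL ^ 4 := one_le_pow₀ hL1
  have hδ2 : δ ^ 2 ≤ 1 := by nlinarith
  have hgM : 0 < g * M := mul_pos hg hM
  have a1 : (Λ + 3 * (2 * g) * M) * δ ^ 2 ≤ 102 * LL ^ 4 * (g * M) := by
    have : 6 * (g * M) * δ ^ 2 ≤ 6 * LL ^ 4 * (g * M) := by nlinarith
    nlinarith
  have a0 : 0 ≤ (Λ + 3 * (2 * g) * M) * δ ^ 2 := by positivity
  have a2 : ((Λ + 3 * (2 * g) * M) * δ ^ 2) ^ 2 ≤ (102 * LL ^ 4 * (g * M)) ^ 2 :=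
    pow_le_pow_left₀ a0 a1 2
  have a3 : M' * δ ^ 4 ≤ 10 ^ 11 * (LL ^ 4 * (g * M)) ^ 2 := by
    have hδ4 : 0 < δ ^ 4 := by positivity
    have b1 : M' * δ ^ 4 ≤ 4 * (10 ^ 6 * (Λ + 3 * (2 * g) * M) ^ 2) * δ ^ 4 :=
      mul_le_mul_of_nonneg_right (by linarith) hδ4.le
    have b2 : 0 ≤ (LL ^ 4 * (g * M)) ^ 2 := by positivity
    calc M' * δ ^ 4 ≤ 4 * 10 ^ 6 * ((Λ + 3 * (2 * g) * M) * δ ^ 2) ^ 2 := by
          calc _ ≤ _ := b1
            _ = _ := by ring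
      _ ≤ 4 * 10 ^ 6 * (102 * LL ^ 4 * (g * M)) ^ 2 := by gcongr
      _ = 4 * 10 ^ 6 * 102 ^ 2 * (LL ^ 4 * (g * M)) ^ 2 := by ring
      _ ≤ _ := by gcongr; norm_num
  have a4 : (M' * δ ^ 4) ^ 4 ≤ (10 ^ 11 * (LL ^ 4 * (g * M)) ^ 2) ^ 4 :=
    pow_le_pow_left₀ (by positivity) a3 4
  have a5 : (g * LL ^ 11) ^ 3 ≤ (δ ^ 4) ^ 3 := pow_le_pow_left₀ (by positivity) h1 3
  have hL0 : 0 < LL := by linarith
  -- δ^10 ≤ K^4 LL^21 g^3
  have a6 : δ ^ 10 ≤ (10 ^ 11) ^ 4 * LL ^ 21 * g ^ 3 := by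
    have hp : 0 < M ^ 8 * g ^ 5 * LL ^ 11 := by positivity
    refine le_of_mul_le_mul_left ?_ hp
    have hδ10 : 0 < δ ^ 10 := by positivity
    calc M ^ 8 * g ^ 5 * LL ^ 11 * δ ^ 10 ≤ δ ^ 6 * M' ^ 4 * δ ^ 10 := by gcongr
      _ = (M' * δ ^ 4) ^ 4 := by ring
      _ ≤ _ := a4
      _ = _ := by ring
  have a7 : LL ^ 12 ≤ (10 ^ 11) ^ 4 * δ ^ 2 := by
    have hp : 0 < δ ^ 10 := by positivity
    refine le_of_mul_le_mul_left ?_ hp
    calc δ ^ 10 * LL ^ 12 ≤ (10 ^ 11) ^ 4 * LL ^ 21 * g ^ 3 * LL ^ 12 := by gcongr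
      _ = (10 ^ 11) ^ 4 * (g * LL ^ 11) ^ 3 := by ring
      _ ≤ (10 ^ 11) ^ 4 * (δ ^ 4) ^ 3 := by gcongr
      _ = _ := by ring
  have a8 : ((10 : ℝ) ^ 11) ^ 12 ≤ LL ^ 12 := pow_le_pow_left₀ (by positivity) hLL 12
  have a9 : ((10 : ℝ) ^ 11) ^ 4 * δ ^ 2 ≤ (10 ^ 11) ^ 4 * 1 := by gcongr
  norm_num at a8 a9 a7
  linarith

/-- the numeric hypothesis of the test -/
theorem num_test {LL δ g M M' Λ₀ Λ X l : ℝ} (hLL : 10 ^ 12 ≤ LL) (hδ : 0 < δ)
    (hg : 0 < g) (hM : 0 < M) (hM' : 0 < M') (hl : 0 < l)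
    (h2 : M ^ 8 * g ^ 5 * LL ^ 11 ≤ δ ^ 6 * M' ^ 4) (hΛ0 : 0 < Λ₀) (hΛM : Λ₀ ≤ M) (hΛ : 0 ≤ Λ)
    (hΛ' : Λ ≤ 2 * Λ₀) (hX : M' ≤ 4 * X) (hk : Λ₀ ≤ 24 * LL ^ 2 * l ^ 2 * g * M) :
    Λ ^ 4 ≤ δ ^ 3 * l ^ 5 * X ^ 2 := by
  have hL0 : 0 < LL := by linarith
  have hX0 : 0 < X := by linarith
  refine (pow_le_pow_iff_left₀ (by positivity) (by positivity) two_ne_zero).1 ?_
  have a1 : Λ ^ 8 ≤ (2 * Λ₀) ^ 8 := pow_le_pow_left₀ hΛ hΛ' 8
  have a2 : Λ₀ ^ 5 ≤ (24 * LL ^ 2 * l ^ 2 * g * M) ^ 5 := pow_le_pow_left₀ hΛ0.le hk 5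
  have a3 : Λ₀ ^ 3 ≤ M ^ 3 := pow_le_pow_left₀ hΛ0.le hΛM 3
  have a4 : M' ^ 4 ≤ (4 * X) ^ 4 := pow_le_pow_left₀ hM'.le hX 4
  refine le_of_mul_le_mul_left ?_ hL0
  calc LL * (Λ ^ 4) ^ 2 = LL * Λ ^ 8 := by ring
    _ ≤ LL * (2 * Λ₀) ^ 8 := by gcongr
    _ = 256 * LL * (Λ₀ ^ 5 * Λ₀ ^ 3) := by ring
    _ ≤ 256 * LL * ((24 * LL ^ 2 * l ^ 2 * g * M) ^ 5 * M ^ 3) := by gcongr
    _ = 256 * 24 ^ 5 * l ^ 10 * (M ^ 8 * g ^ 5 * LL ^ 11) := by ring
    _ ≤ 256 * 24 ^ 5 * l ^ 10 * (δ ^ 6 * M' ^ 4) := by gcongr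
    _ ≤ 256 * 24 ^ 5 * l ^ 10 * (δ ^ 6 * (4 * X) ^ 4) := by gcongr
    _ = 256 * 256 * 24 ^ 5 * (δ ^ 3 * l ^ 5 * X ^ 2) ^ 2 := by ring
    _ ≤ LL * (δ ^ 3 * l ^ 5 * X ^ 2) ^ 2 := by
        gcongr
        refine le_trans ?_ hLL
        norm_num

theorem two_le_mm {ε δ l : ℝ} (hL : 0 < lg ε) (h : 2 * lg ε ≤ δ * l) : 2 ≤ mm ε δ l := by
  unfold mm
  refine Nat.le_floor ?_
  rw [le_div_iff₀ hL]
  exact_mod_cast h

end Step

open Step in
/-- the case of a nonnegative stretch -/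
theorem Step.core (d : ℕ) (h1 : BadStmt d) (h2 : AreaStmt d) (h3 : MesoStmt d)
    (h4 : MassAStmt d) (h5 : MassBStmt d) (h6 : TightStmt d) (h7 : TestStmt d) :
    ∀ᶠ ε in 𝓝[>] (0 : ℝ), ∀ (δ L M M' H g c₁ c₂ Λ₀ X : ℝ) (S : Sys d ε δ) (Ψ : E d → E d)
      (y₀ u' u : E d) (i j : Fin d), Net S → i < j → ε ≤ δ → δ ≤ 1 / 100 → 1 ≤ L → L * ε ≤ 1 →
      Loc S L Ψ y₀ → ε ^ 2 ≤ M → ε ^ 3 ≤ M' → |H| ≤ 12 → ε ≤ g → g * lg ε ^ 11 ≤ δ ^ 4 →
      M ^ 8 * g ^ 5 * lg ε ^ 11 ≤ δ ^ 6 * M' ^ 4 → c₁ ^ 2 + c₂ ^ 2 = 1 → ON u' u →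
      Λ₀ = c₁ * cv 1 (dd (co (ax i) Ψ) u) y₀ + c₂ * cv 1 (dd (co (ax j) Ψ) u) y₀ →
      X = cv 1 (jac (co (ax i) Ψ) (co (ax j) Ψ) u' u) y₀ → 0 ≤ Λ₀ → Λ₀ ≤ M →
      4 ≤ val ε M M' Λ₀ X →
      (∀ y ∈ ball y₀ 4, Far S (Ψ y) → Pot ε M M' H (ε ^ 160) (co (ax i) Ψ) (co (ax j) Ψ) y) →
      H ≤ val ε M M' Λ₀ X + 2 * g → False := by
  obtain ⟨C, hC, h3⟩ := h3
  obtain ⟨C₀, hC₀, h6⟩ := h6 C hC
  have h7 := h7 C₀ hC₀
  filter_upwards [ev_pos, ev_mul_le 100, ev_le_lg (10 ^ 12), ev_lg_pow 2, small_iff.1 h1,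
    small_iff.1 h2, small_iff.1 h3, small_iff.1 h4, small_iff.1 h5, small_iff.1 h6,
    small_iff.1 h7] with ε h0 hε hLL hlg h1 h2 h3 h4 h5 h6 h7
  intro δ L M M' H g c₁ c₂ Λ₀ X S Ψ y₀ u' u i j hnet hij hεδ hδ hL hLε hloc hM hM' hH hεg hg1 hg2
    hc huu hΛ₀ hX hΛ0 hΛM hval hpot hcon
  have hε2 : ε ≤ 1 / 2 := by linarith
  have hε1 : ε ≤ 1 := by linarith
  have hδ0 : 0 < δ := h0.trans_le hεδ
  have hg0 : 0 < g := h0.trans_le hεg
  have hM0 : 0 < M := lt_of_lt_of_le (by positivity) hM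
  have hM'0 : 0 < M' := lt_of_lt_of_le (by positivity) hM'
  have hL1 : 1 ≤ lg ε := by linarith
  have hL3 : 3 ≤ lg ε := by linarith
  have hL0 : 0 < lg ε := by linarith
  have hΨL : Sm L Ψ := by
    obtain ⟨Y, ρ, N, hctx, -⟩ := hloc
    exact hctx.sm
  have hΨ : Sm ε⁻¹ Ψ := hΨL.mono (by rw [← one_div, le_div_iff₀ h0]; exact hLε)
  have hi := norm_ax i
  have hj := norm_ax j
  have hon : ON (ax i : E d) (ax j) := on_ax hij.ne
  have hx1 : Λ₀ / M ≤ 1 := (div_le_one hM0).2 hΛM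
  have hx0 : 0 ≤ Λ₀ / M := div_nonneg hΛ0 hM0.le
  have hF2 : F1 ε (Λ₀ / M) ≤ 2 := F1_le_two h0 hL3 hx0 (by linarith)
  have hF1 : 1 ≤ F1 ε (Λ₀ / M) := one_le_F1 h0 hL1 hx0
  have hX4 : M' ≤ 4 * X := by
    have a1 : FF ε (Λ₀ / M) ≤ 2 := by
      have := FF_le h0 hL1 hx0
      nlinarith only [this, hF2, hx0, hx1, hF1]
    have a2 : 2 ≤ 8 * X / M' := by
      unfold val at hval
      rw [max_eq_left hΛ0] at hval
      linarith
    rw [le_div_iff₀ hM'0] at a2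
    linarith
  have hX0 : 0 < X := by linarith
  have hδ4 : δ ^ 4 ≤ 1 / 10 ^ 8 := by
    calc δ ^ 4 ≤ (1 / 100) ^ 4 := pow_le_pow_left₀ hδ0.le hδ 4
      _ = _ := by norm_num
  have hg4 : g ≤ 1 / 10 ^ 8 := by
    have : 1 ≤ lg ε ^ 11 := one_le_pow₀ hL1
    nlinarith only [this, hg0, hg1, hδ4]
  have hball : ∀ y ∈ closedBall y₀ 1, y ∈ ball y₀ 4 := fun y hy =>
    closedBall_subset_ball (by norm_num) hy
  -- the stretch is not small
  have hbig : 96 * lg ε ^ 4 * g * M < Λ₀ * δ ^ 2 := by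
    by_contra hsm
    have hsm := not_lt.1 hsm
    have hr := on_rot hon hc
    have hΛM' : Λ₀ ≤ M / 1000 := by
      have a1 : 10 ^ 12 ≤ lg ε ^ 7 := hLL.trans (le_self_pow₀ hL1 (by norm_num))
      have a2 : δ ^ 2 ≤ 1 := by nlinarith only [hδ0, hδ]
      have a3 : Λ₀ * δ ^ 2 * lg ε ^ 7 ≤ 96 * M * δ ^ 2 := by
        calc Λ₀ * δ ^ 2 * lg ε ^ 7 ≤ 96 * lg ε ^ 4 * g * M * lg ε ^ 7 := by gcongr
          _ = 96 * M * (g * lg ε ^ 11) := by ring
          _ ≤ 96 * M * δ ^ 4 := by gcongr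
          _ = 96 * M * δ ^ 2 * δ ^ 2 := by ring
          _ ≤ 96 * M * δ ^ 2 * 1 := by gcongr
          _ = _ := by ring
      have a4 : Λ₀ * lg ε ^ 7 ≤ 96 * M := by
        have hp : 0 < δ ^ 2 := by positivity
        refine le_of_mul_le_mul_right ?_ hp
        linarith
      nlinarith only [a1, a4, hΛ0, hM0]
    have := h2 _ _ (fun y => Bad S (Ψ y)) u' u y₀ M M' H (2 * g) Λ₀ X (hΨ.co hr.1) (hΨ.co hr.2.1)
      huu hM hM' hH (by linarith) (by linarith)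
      (by rw [cv_dd_add hΨ c₁ c₂ hi hj]; exact hΛ₀) (by rw [jac_rot hΨ.cd1 hc]; exact hX) hΛ0 hΛM'
      (by linarith) (by linarith) ((continuous_Bad h0 hε2 S).comp hΨ.cont)
      (fun y => (Bad_mem h0 S _).1) (h1 δ L S Ψ y₀ hL hLε hloc)
      (fun y hy hb => pot_rot hΨ hc hi hj (hpot y (hball y hy) (far_of_Bad h0 hε2 S hb)))
    exact num_small (by linarith) hδ0 hδ hg0 hM0 hM'0 hg1 hg2 hΛ0 hsm hX4 this
  have hδ2 : δ ^ 2 ≤ 1 := by nlinarith only [hδ0, hδ]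
  have hgM : 0 < g * M := mul_pos hg0 hM0
  have hL2 : 1 ≤ lg ε ^ 2 := one_le_pow₀ hL1
  have hL4 : lg ε ^ 2 ≤ lg ε ^ 4 := pow_le_pow_right₀ hL1 (by norm_num)
  have hbig' : 96 * lg ε ^ 4 * (g * M) ≤ Λ₀ := by nlinarith only [hbig, hδ2, hΛ0]
  have hden : 0 < 6 * lg ε ^ 2 * (g * M) := by positivity
  obtain ⟨k, hk1, hk2⟩ := exists_nat_pow_near (x := Λ₀ / (6 * lg ε ^ 2 * (g * M))) (y := (4 : ℝ))
    (by rw [one_le_div hden]; nlinarith only [hbig', hL4, hgM, hL2]) (by norm_num)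
  rw [le_div_iff₀ hden] at hk1
  rw [div_lt_iff₀ hden] at hk2
  have hl2 : ((2 : ℝ) ^ k) ^ 2 = 4 ^ k := by rw [← pow_mul, mul_comm, pow_mul]; norm_num
  have h4k : (0 : ℝ) < 4 ^ k := by positivity
  have hkε : (4 : ℝ) ^ k * ε ≤ 1 := by
    have a1 : 4 ^ k * g * M ≤ 1 * M := by nlinarith only [mul_pos h4k hgM, hk1, hΛM, hL2]
    have a2 : 4 ^ k * g ≤ 1 := le_of_mul_le_mul_right a1 hM0
    nlinarith only [a2, h4k, hεg]
  obtain ⟨τ, a, b, σ, hab, hσ, ha, hb, he, htyp⟩ := hnet i j hij c₁ c₂ hc k hkε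
  set l : ℝ := 2 ^ k with hl
  have hl1 : 1 ≤ l := one_le_pow₀ (by norm_num)
  have hl0 : 0 < l := by linarith
  have hlε : l ^ 2 * ε ≤ 1 := by rw [hl2]; exact hkε
  set e' : E d := b • ax i - a • ax j with he'
  have hr : ON e' (S.e τ) := htyp.1
  have hq : Sm ε⁻¹ (co e' Ψ) := hΨ.co hr.1
  have hp : Sm ε⁻¹ (co (S.e τ) Ψ) := hΨ.co hr.2.1
  have hUU : ON (σ • u') (σ • u) := on_sign huu hσ
  set Λ : ℝ := cv 1 (dd (co (S.e τ) Ψ) (σ • u)) y₀ with hΛ
  have hXX : cv 1 (jac (co e' Ψ) (co (S.e τ) Ψ) (σ • u') (σ • u)) y₀ = X := by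
    rw [jac_sign _ _ _ _ hσ, he, he', jac_rot hΨ.cd1 hab, hX]
  have hΛd : |Λ - Λ₀| ≤ 2 * ε ^ 4 := by
    have b1 : |cv 1 (dd (co (ax i) Ψ) u) y₀| ≤ ε⁻¹ :=
      norm_cv_le (F := ℝ) zero_le_one fun z _ => (hΨ.co hi).dd_le huu.2.1 z
    have b2 : |cv 1 (dd (co (ax j) Ψ) u) y₀| ≤ ε⁻¹ :=
      norm_cv_le (F := ℝ) zero_le_one fun z _ => (hΨ.co hj).dd_le huu.2.1 z
    have b3 : Λ = σ * (a * cv 1 (dd (co (ax i) Ψ) u) y₀ + b * cv 1 (dd (co (ax j) Ψ) u) y₀) := by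
      have : dd (co (S.e τ) Ψ) (σ • u) = fun z => σ * dd (co (S.e τ) Ψ) u z :=
        funext fun z => dd_sm σ u z
      rw [hΛ, this, cv_const_mul, he, cv_dd_add hΨ a b hi hj]
    have b4 : Λ - Λ₀ = (σ * a - c₁) * cv 1 (dd (co (ax i) Ψ) u) y₀ +
        (σ * b - c₂) * cv 1 (dd (co (ax j) Ψ) u) y₀ := by rw [b3, hΛ₀]; ring
    have b5 : ε ^ 5 * ε⁻¹ = ε ^ 4 := by field_simp
    rw [b4]
    calc _ ≤ |σ * a - c₁| * |cv 1 (dd (co (ax i) Ψ) u) y₀| +
          |σ * b - c₂| * |cv 1 (dd (co (ax j) Ψ) u) y₀| := by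
          rw [← abs_mul, ← abs_mul]; exact abs_add_le _ _
      _ ≤ ε ^ 5 * ε⁻¹ + ε ^ 5 * ε⁻¹ := by gcongr
      _ = _ := by rw [b5]; ring
  have hε3 : ε ^ 3 ≤ g * M := by
    calc ε ^ 3 = ε * ε ^ 2 := by ring
      _ ≤ g * M := by gcongr
  have hε30 : 0 < ε ^ 3 := by positivity
  have hε4 : ε ^ 4 ≤ ε ^ 3 / 100 := by
    have : ε ^ 4 = ε ^ 3 * ε := by ring
    nlinarith only [this, hε30, hε]
  have hΛ96 : 96 * ε ^ 3 ≤ Λ₀ := by nlinarith only [hbig', hL4, hL2, hε3, hgM]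
  obtain ⟨hd1, hd2⟩ := abs_le.1 hΛd
  have hΛlo : Λ₀ / 2 ≤ Λ := by linarith
  have hΛhi : Λ ≤ 2 * Λ₀ := by linarith
  have hΛpos : 0 ≤ Λ := by linarith
  have hvalΛ : H - 3 * g ≤ val ε M M' Λ X := by
    have t := FF_tangent h0 hL1 (div_nonneg hΛpos hM0.le) hx0
    have t0 : 0 ≤ (√(Λ / M + ε) - √(Λ₀ / M + ε)) ^ 2 / (2 * lg ε) := by positivity
    have t1 : -(2 * ε ^ 2) ≤ Λ / M - Λ₀ / M := by
      rw [← sub_div, le_div_iff₀ hM0]
      have : ε ^ 4 ≤ ε ^ 2 * M := by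
        calc ε ^ 4 = ε ^ 2 * ε ^ 2 := by ring
          _ ≤ _ := by gcongr
      linarith
    have t2 : -(4 * ε ^ 2) ≤ F1 ε (Λ₀ / M) * (Λ / M - Λ₀ / M) := by
      have : 0 < ε ^ 2 := by positivity
      nlinarith only [this, t1, hF1, hF2]
    have t3 : 4 * ε ^ 2 ≤ g := by nlinarith only [h0, hε, hεg]
    unfold val at hcon ⊢
    rw [max_eq_left hΛ0] at hcon
    rw [max_eq_left hΛpos]
    linarith
  set β : ℝ := 1 / (lg ε * l) with hβ
  have hLl : 1 ≤ lg ε * l := one_le_mul_of_one_le_of_one_le hL1 hl1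
  have hβ0 : 0 < β := by positivity
  have hβ1 : β ≤ 1 := (div_le_one (by positivity)).2 hLl
  have hεβ : ε ≤ β := by
    rw [hβ, le_div_iff₀ (by positivity)]
    refine (pow_le_pow_iff_left₀ (by positivity) (by positivity) two_ne_zero).1 ?_
    calc (ε * (lg ε * l)) ^ 2 = (lg ε ^ 2 * ε) * (l ^ 2 * ε) := by ring
      _ ≤ 1 * 1 := by gcongr
      _ = 1 ^ 2 := by ring
  have hpot' : ∀ y ∈ ball y₀ 4, Far S (Ψ y) →
      Pot ε M M' H (ε ^ 160) (co e' Ψ) (co (S.e τ) Ψ) y := fun y hy hf => by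
    rw [he, he']; exact pot_rot hΨ hab hi hj (hpot y hy hf)
  obtain ⟨n, hn1, hn2, hmeso⟩ := h3 δ L l β M M' H S Ψ y₀ e' τ hδ0 hδ hL hLε hl1 hlε hεβ hβ1 hM hM'
    hH hloc htyp hpot'
  obtain ⟨m1, m2⟩ := h4 _ _ (σ • u') (σ • u) y₀ hq hp hUU
  obtain ⟨m3, m4⟩ := h5 δ L l S Ψ y₀ e' τ hδ0 hδ hL hLε hl1 hlε hloc htyp
  rw [hXX] at m2
  have hμ : (0 : ℝ) ≤ ε ^ 120 := by positivity
  have hW1 : Continuous (W1 ε) :=
    continuous_xi h0 hε2 (sp_tr (by norm_num) (by norm_num) (by norm_num)) (continuous_tr _ _)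
  obtain ⟨eb, heb⟩ := h6 (fun y => W1 ε (cv (ε ^ 120) (co (S.e τ) Ψ) y))
    (r0 ε δ l (co e' Ψ) (co (S.e τ) Ψ)) (dd (cv (ε ^ 120) (co (S.e τ) Ψ)) (σ • u))
    (dd (cv (ε ^ 120) (co (S.e τ) Ψ)) (σ • u')) (dd (cv (ε ^ 120) (co e' Ψ)) (σ • u))
    (cv (ε ^ 120) (jac (co e' Ψ) (co (S.e τ) Ψ) (σ • u') (σ • u)))
    (fun y => BadO S τ (cv (ε ^ 120) Ψ y)) y₀ M M' H (3 * g) n Λ X β
    (hW1.comp (continuous_cv hp.cont _)) (continuous_r0 h0 hε2 δ l hq.cont hp.cont)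
    (continuous_dd (hp.cv _).cd1 _) (continuous_dd (hp.cv _).cd1 _)
    (continuous_dd (hq.cv _).cd1 _) (continuous_cv (continuous_jac hq.cd1 hp.cd1 _ _) _)
    ((continuous_BadO h0 hε2 S τ).comp (continuous_cv hΨ.cont _))
    (fun y => W1_mem _ _) (fun y => r0_mem hδ0.le hδ l _ _ y)
    (fun y => ⟨(hp.cv _).dd_le hUU.2.1 y, (hp.cv _).dd_le hUU.1 y, (hq.cv _).dd_le hUU.2.1 y,
      norm_cv_le (F := ℝ) hμ fun z _ => abs_jac_le hq hp hUU.1 hUU.2.1 z⟩)
    (fun y => (BadO_mem h0 S τ _).1) hM hM' hH (by linarith) hβ0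
    (by
      have : lg ε * β ^ 2 = β / l := by rw [hβ]; field_simp
      rw [this, div_le_one hl0]; linarith)
    hn1 hn2 (by linarith only [hΛhi, hΛM])
    (by
      have : β ^ 2 * Λ = Λ / (lg ε ^ 2 * l ^ 2) := by rw [hβ]; field_simp
      rw [this, le_div_iff₀ (by positivity), hl2]
      linarith)
    (by linarith) hvalΛ m1 m2 m3 m4
    (fun y hy hb => ⟨fun s t hst => by
      have := hmeso y hy hb 0 (t • σ • u' - s • σ • u) (s • σ • u' + t • σ • u)
        (by simpa using hβ0.le) (on_rot hUU hst)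
      rwa [jac_frame _ _ _ _ hst, dd_lin, zero_mul, add_zero] at this,
      fun s hs => hmeso y hy hb s _ _ hs hUU⟩)
  refine h7 _ _ eb (σ • u') (σ • u) y₀ δ l Λ X hq hp hUU hεδ hδ hl1 hlε ?_ rfl (by linarith)
    (by linarith) ?_ heb
  · refine two_le_mm hL0 ?_
    refine (pow_le_pow_iff_left₀ (by positivity) (by positivity) two_ne_zero).1 ?_
    have a1 : 96 * lg ε ^ 4 * g * M ≤ 4 ^ (k + 1) * (6 * lg ε ^ 2 * (g * M)) * δ ^ 2 := by
      have : Λ₀ * δ ^ 2 ≤ 4 ^ (k + 1) * (6 * lg ε ^ 2 * (g * M)) * δ ^ 2 := by gcongr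
      linarith
    refine le_of_mul_le_mul_right ?_ (show 0 < 24 * lg ε ^ 2 * (g * M) by positivity)
    rw [mul_pow δ l, hl2]
    calc _ = 96 * lg ε ^ 4 * g * M := by ring
      _ ≤ _ := a1
      _ = _ := by ring
  · refine num_test hLL hδ0 hg0 hM0 hM'0 hl0 hg2 (by linarith) hΛM hΛpos hΛhi hX4 ?_
    rw [hl2]
    calc Λ₀ ≤ 4 ^ (k + 1) * (6 * lg ε ^ 2 * (g * M)) := hk2.le
      _ = _ := by ring

theorem step (d : ℕ) (_hd : 2 ≤ d) (h1 : BadStmt d) (h2 : AreaStmt d) (h3 : MesoStmt d)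
    (h4 : MassAStmt d) (h5 : MassBStmt d) (h6 : TightStmt d) (h7 : TestStmt d) : StepStmt d := by
  refine small_iff.2 ?_
  filter_upwards [Step.core d h1 h2 h3 h4 h5 h6 h7, ev_pos, ev_le_lg 1] with ε h h0 hL1
  intro δ L M M' H g c₁ c₂ S Ψ y₀ u' u i j hnet hij hεδ hδ hL hLε hloc hM hM' hH hεg hg1 hg2 hc huu
    habs hval hpot
  by_contra hcon
  have hcon := not_lt.1 hcon
  obtain ⟨ha1, ha2⟩ := abs_le.1 habs
  have hM0 : 0 < M := lt_of_lt_of_le (by positivity) hM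
  rcases le_total 0 (c₁ * cv 1 (dd (co (ax i) Ψ) u) y₀ + c₂ * cv 1 (dd (co (ax j) Ψ) u) y₀) with
    hs | hs
  · exact h δ L M M' H g c₁ c₂ _ _ S Ψ y₀ u' u i j hnet hij hεδ hδ hL hLε hloc hM hM' hH hεg hg1 hg2
      hc huu rfl rfl hs ha2 hval hpot hcon
  · have hmono : ∀ X : ℝ, val ε M M'
        (c₁ * cv 1 (dd (co (ax i) Ψ) u) y₀ + c₂ * cv 1 (dd (co (ax j) Ψ) u) y₀) X ≤
        val ε M M' (-(c₁ * cv 1 (dd (co (ax i) Ψ) u) y₀ + c₂ * cv 1 (dd (co (ax j) Ψ) u) y₀)) X :=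
      fun X => by
        unfold val
        rw [max_eq_right hs]
        have := FF_mono h0 hL1 (x := 0 / M) (y := max (-(c₁ * cv 1 (dd (co (ax i) Ψ) u) y₀ +
          c₂ * cv 1 (dd (co (ax j) Ψ) u) y₀)) 0 / M) (by simp)
          (div_le_div_of_nonneg_right (le_max_right _ _) hM0.le)
        linarith
    exact h δ L M M' H g (-c₁) (-c₂) _ _ S Ψ y₀ u' u i j hnet hij hεδ hδ hL hLε hloc hM hM' hH hεg
      hg1 hg2 (by linarith) huu (by ring) rfl (neg_nonneg.2 hs) (by linarith)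
      (hval.trans (hmono _)) hpot (by linarith [hmono (cv 1 (jac (co (ax i) Ψ) (co (ax j) Ψ) u' u) y₀)])

end Pool.Agent.MP_20bec2_an.h7

end
end MrgPart1

-- ======== part 2: formerly Pool.Agent.MP_20bec2_an.h7.Tight
section MrgPart2

/-! Tightness in the mean. -/

set_option autoImplicit false

open MeasureTheory Set Metric Filter Topology

noncomputable section

namespace Pool.Agent.MP_20bec2_an.h7

namespace Tight

theorem pin {ε x x₀ s : ℝ} (h0 : 0 < ε) (hx : 0 ≤ x) (hx₀ : ε ≤ x₀) (hs : 0 < s) (hs1 : s ≤ 1) :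
    |x - x₀| ≤ (√(x + ε) - √(x₀ + ε)) ^ 2 * (2 / s) + 2 * s * x₀ := by
  set a := √(x + ε)
  set b := √(x₀ + ε)
  have ha : a ^ 2 = x + ε := Real.sq_sqrt (by linarith)
  have hb : b ^ 2 = x₀ + ε := Real.sq_sqrt (by linarith)
  have ha0 : 0 ≤ a := Real.sqrt_nonneg _
  have hb0 : 0 ≤ b := Real.sqrt_nonneg _
  have e : x - x₀ = (a - b) ^ 2 + 2 * b * (a - b) := by nlinarith
  have h1 : (a - b) ^ 2 * (2 / s) = 2 * ((a - b) ^ 2 / s) := by ring
  have h2 : (a - b) ^ 2 ≤ (a - b) ^ 2 / s := by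
    rw [le_div_iff₀ hs]; nlinarith [sq_nonneg (a - b)]
  have h3 : ∀ t : ℝ, 2 * b * t ≤ t ^ 2 / s + s * b ^ 2 := fun t => by
    have : t ^ 2 / s + s * b ^ 2 - 2 * b * t = (t - s * b) ^ 2 / s := by field_simp; ring
    have : 0 ≤ (t - s * b) ^ 2 / s := by positivity
    linarith
  have h4 := h3 (a - b)
  have h5 := h3 (-(a - b))
  rw [neg_sq] at h5
  have h6 : s * b ^ 2 ≤ 2 * s * x₀ := by rw [hb]; nlinarith
  rw [e, h1, abs_le]
  constructor <;> nlinarith [sq_nonneg (a - b)]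

theorem unit (a b : ℝ) : ∃ c₁ c₂ : ℝ, c₁ ^ 2 + c₂ ^ 2 = 1 ∧ c₁ * b + c₂ * a = √(a ^ 2 + b ^ 2) := by
  by_cases h : a ^ 2 + b ^ 2 = 0
  · have ha : a = 0 := by nlinarith [sq_nonneg a, sq_nonneg b]
    have hb : b = 0 := by nlinarith [sq_nonneg a, sq_nonneg b]
    exact ⟨0, 1, by norm_num, by simp [ha, hb]⟩
  · have h1 : 0 < a ^ 2 + b ^ 2 := lt_of_le_of_ne (by positivity) (Ne.symm h)
    have h2 : 0 < √(a ^ 2 + b ^ 2) := Real.sqrt_pos.2 h1
    have h3 : √(a ^ 2 + b ^ 2) ^ 2 = a ^ 2 + b ^ 2 := Real.sq_sqrt h1.le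
    refine ⟨b / √(a ^ 2 + b ^ 2), a / √(a ^ 2 + b ^ 2), ?_, ?_⟩
    · rw [div_pow, div_pow, h3]; field_simp; ring
    · field_simp; nlinarith

/-- the excess of length -/
def ex (β pt pz qt : ℝ) : ℝ := max √(pt ^ 2 + pz ^ 2) (pt + β * |qt|) - pt

theorem ex1 (β pt pz qt : ℝ) : √(pt ^ 2 + pz ^ 2) ≤ ex β pt pz qt + pt := by
  simp only [ex, sub_add_cancel]; exact le_max_left _ _

theorem ex2 (β pt pz qt : ℝ) : β * |qt| ≤ ex β pt pz qt := by
  have := le_max_right √(pt ^ 2 + pz ^ 2) (pt + β * |qt|)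
  simp only [ex]; linarith

theorem ex4 {β pt pz qt t : ℝ} (hβ0 : 0 ≤ β) (hβ : β ≤ 1) (b1 : |pt| ≤ t) (b2 : |pz| ≤ t)
    (b3 : |qt| ≤ t) : ex β pt pz qt + pt ≤ 2 * t := by
  have ht : 0 ≤ t := (abs_nonneg _).trans b1
  simp only [ex, sub_add_cancel]
  refine max_le (Real.sqrt_le_iff.2 ⟨by positivity, ?_⟩) ?_
  · nlinarith [sq_abs pt, sq_abs pz, abs_nonneg pt, abs_nonneg pz]
  · nlinarith [le_abs_self pt, abs_nonneg qt]

theorem ex5 (β pt pz qt : ℝ) :
    pz ^ 2 ≤ ex β pt pz qt * (2 * pt + ex β pt pz qt) := by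
  have a := mul_self_le_mul_self (Real.sqrt_nonneg _) (ex1 β pt pz qt)
  rw [Real.mul_self_sqrt (by positivity)] at a
  nlinarith

theorem good {ε M M' H β n r pt pz qt J : ℝ} (hβ : 0 < β)
    (h₁ : ∀ c₁ c₂ : ℝ, c₁ ^ 2 + c₂ ^ 2 = 1 →
      val ε M M' (r * (c₁ * pz + c₂ * pt) / n) (r * J) ≤ H)
    (h₂ : ∀ b : ℝ, |b| ≤ β → val ε M M' (r * (pt + b * qt) / n) (r * J) ≤ H) :
    val ε M M' (r * (ex β pt pz qt + pt) / n) (r * J) ≤ H := by
  rcases le_total √(pt ^ 2 + pz ^ 2) (pt + β * |qt|) with h' | h'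
  · have e : ex β pt pz qt + pt = pt + β * |qt| := by
      simp only [ex, sub_add_cancel]; exact max_eq_right h'
    rw [e]
    rcases le_total 0 qt with h'' | h''
    · rw [abs_of_nonneg h'']
      exact h₂ β (by rw [abs_of_pos hβ])
    · rw [abs_of_nonpos h'', mul_neg, ← neg_mul]
      exact h₂ (-β) (by rw [abs_neg, abs_of_pos hβ])
  · have e : ex β pt pz qt + pt = √(pt ^ 2 + pz ^ 2) := by
      simp only [ex, sub_add_cancel]; exact max_eq_left h'
    obtain ⟨c₁, c₂, hc, hc'⟩ := unit pt pz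
    rw [e, ← hc']
    exact h₁ c₁ c₂ hc

theorem crude {ε M M' n r a J : ℝ} (h0 : 0 < ε) (h100 : 100 * ε ≤ 1) (hlg : 3 ≤ lg ε)
    (hM : ε ^ 2 ≤ M) (hM' : ε ^ 3 ≤ M') (hn : 1 ≤ n) (hr0 : 0 < r) (hr : r ≤ 3 / 2) (ha0 : 0 ≤ a)
    (ha : a ≤ 2 * ε⁻¹) (hJ : |J| ≤ 2 * ε⁻¹ ^ 2) :
    FF ε (r * a / n / M) + 8 * (r * J) / M' + 12 ≤ ε⁻¹ ^ 6 := by
  have hM0 : 0 < M := lt_of_lt_of_le (by positivity) hM
  have hM0' : 0 < M' := lt_of_lt_of_le (by positivity) hM'
  have iM : M⁻¹ ≤ ε⁻¹ ^ 2 := by rw [inv_pow]; exact inv_anti₀ (by positivity) hM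
  have iM' : M'⁻¹ ≤ ε⁻¹ ^ 3 := by rw [inv_pow]; exact inv_anti₀ (by positivity) hM'
  have hi1 : 100 ≤ ε⁻¹ := by rw [le_inv_comm₀ (by norm_num) h0]; linarith
  have x0 : 0 ≤ r * a / n / M := by positivity
  have a1 : r * a / n / M ≤ 3 * ε⁻¹ ^ 3 := by
    have ha' : r * a / n ≤ 3 * ε⁻¹ := by
      rw [div_le_iff₀ (by linarith)]; nlinarith
    calc r * a / n / M = r * a / n * M⁻¹ := by ring
      _ ≤ 3 * ε⁻¹ * ε⁻¹ ^ 2 := mul_le_mul ha' iM (by positivity) (by positivity)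
      _ = _ := by ring
  have a2 := F1_le_four h0 hlg x0 (a1.trans (by nlinarith [pow_pos (inv_pos.2 h0) 3]))
  have a2' := FF_le h0 (by linarith) x0
  generalize ε⁻¹ = t at *
  generalize r * a / n / M = x at *
  have t3 : 0 < t ^ 3 := by positivity
  have a2'' : FF ε x ≤ 12 * t ^ 3 := by nlinarith
  have a3 : 8 * (r * J) / M' ≤ 24 * t ^ 5 := by
    have a : r * J ≤ 3 * t ^ 2 := by nlinarith [le_abs_self J, abs_nonneg J]
    calc 8 * (r * J) / M' ≤ 8 * (3 * t ^ 2) / M' := by gcongr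
      _ = 24 * t ^ 2 * M'⁻¹ := by ring
      _ ≤ 24 * t ^ 2 * t ^ 3 := by gcongr
      _ = _ := by ring
  have a5 : 1 ≤ t ^ 3 := one_le_pow₀ (by linarith)
  have a6 : t ^ 3 ≤ t ^ 5 := pow_le_pow_right₀ (by linarith) (by norm_num)
  have a7 : 100 * t ^ 5 ≤ t ^ 6 := by nlinarith
  linarith

theorem errs {ε M M' n f c₀ κ a b c e : ℝ} (h0 : 0 < ε) (h100 : 100 * ε ≤ 1) (hM : ε ^ 2 ≤ M)
    (hM' : ε ^ 3 ≤ M') (hn : 1 ≤ n) (hf0 : 0 < f) (hf : f ≤ 2) (hc : |c₀| ≤ 21) (hκ : ε ≤ κ)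
    (ha : |a| ≤ ε ^ 30) (hb : |b| ≤ ε ^ 30) (hc' : |c| ≤ ε ^ 30) (he0 : 0 ≤ e)
    (he : e ≤ 2 * ε ^ 31) :
    |c₀ * a - 8 / M' * b - f / (n * M) * c + ε⁻¹ ^ 6 * e| ≤ κ * ε ^ 20 := by
  have h1 : ε ≤ 1 := by linarith
  have hM0 : 0 < M := lt_of_lt_of_le (by positivity) hM
  have hM0' : 0 < M' := lt_of_lt_of_le (by positivity) hM'
  have i1 : 8 / M' * ε ^ 30 ≤ 8 * ε ^ 27 := by
    rw [div_mul_eq_mul_div, div_le_iff₀ hM0']
    nlinarith [mul_le_mul_of_nonneg_left hM' (pow_pos h0 27).le, show ε ^ 30 = ε ^ 27 * ε ^ 3 by ring]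
  have i2 : f / (n * M) * ε ^ 30 ≤ 2 * ε ^ 28 := by
    rw [div_mul_eq_mul_div, div_le_iff₀ (by positivity)]
    have : ε ^ 2 ≤ n * M := by nlinarith
    nlinarith [mul_le_mul_of_nonneg_left this (pow_pos h0 28).le,
      show ε ^ 30 = ε ^ 28 * ε ^ 2 by ring, pow_pos h0 30]
  have i3 : ε⁻¹ ^ 6 * (2 * ε ^ 31) = 2 * ε ^ 25 := by field_simp
  have j1 := mul_pow_le h0 h1 (show 84 * ε ≤ 1 by linarith) (show 21 < 30 by norm_num)
  have j2 := mul_pow_le h0 h1 (show 32 * ε ≤ 1 by linarith) (show 21 < 27 by norm_num)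
  have j3 := mul_pow_le h0 h1 (show 8 * ε ≤ 1 by linarith) (show 21 < 28 by norm_num)
  have j4 := mul_pow_le h0 h1 (show 8 * ε ≤ 1 by linarith) (show 21 < 25 by norm_num)
  have j5 : ε ^ 21 ≤ κ * ε ^ 20 := by rw [pow_succ']; gcongr
  have k1 : |c₀ * a| ≤ 21 * ε ^ 30 := by
    rw [abs_mul]; exact mul_le_mul hc ha (abs_nonneg _) (by norm_num)
  have k2 : |8 / M' * b| ≤ 8 / M' * ε ^ 30 := by
    rw [abs_mul, abs_of_pos (by positivity)]; gcongr
  have k3 : |f / (n * M) * c| ≤ f / (n * M) * ε ^ 30 := by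
    rw [abs_mul, abs_of_pos (by positivity)]; gcongr
  have k4 : ε⁻¹ ^ 6 * e ≤ ε⁻¹ ^ 6 * (2 * ε ^ 31) := by gcongr
  have k5 : 0 ≤ ε⁻¹ ^ 6 * e := by positivity
  have k1' := abs_le.1 k1
  have k2' := abs_le.1 k2
  have k3' := abs_le.1 k3
  rw [abs_le]; constructor <;> linarith

theorem pw {w r D Br k eb G nM f lg s x₀ dx : ℝ} (w0 : 0 ≤ w) (r0 : 0 < r) (hr : r ≤ 3 / 2)
    (hD : 0 ≤ D) (hB : 0 ≤ Br) (he : 0 ≤ eb) (hnM : 0 < nM) (hf : 1 ≤ f) (hl : 0 ≤ lg) (hs : 0 < s)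
    (hk : k ≤ 2 * lg * Br) (hdx : dx ≤ k * (2 / s) + 2 * s * x₀)
    (hG : G = w / r * (D + Br) + f / nM * (w * eb)) :
    w * (D + Br) ≤ 3 / 2 * G ∧ w * eb ≤ nM * G ∧ 0 ≤ G ∧
      w * dx ≤ 6 * lg / s * G + 2 * s * x₀ * w := by
  have wr : w ≤ 3 / 2 * (w / r) := by rw [← mul_div_assoc, le_div_iff₀ r0]; nlinarith
  have a := add_nonneg hD hB
  have b : 0 ≤ f / nM * (w * eb) := by positivity
  have p1 : w * (D + Br) ≤ 3 / 2 * G := by
    rw [hG]; nlinarith [mul_le_mul_of_nonneg_right wr a]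
  have c : 0 ≤ w / r * (D + Br) := by positivity
  refine ⟨p1, ?_, by rw [hG]; positivity, ?_⟩
  · have e : nM * (f / nM * (w * eb)) = f * (w * eb) := by field_simp
    rw [hG, mul_add, e]
    nlinarith [mul_nonneg hnM.le c, mul_nonneg w0 he]
  · have b := mul_le_mul_of_nonneg_right hk (show 0 ≤ 2 / s by positivity)
    have c : w * Br ≤ 3 / 2 * G := by nlinarith [mul_nonneg w0 hD]
    have l0 : 0 ≤ 4 * lg / s := by positivity
    calc w * dx ≤ w * (2 * lg * Br * (2 / s) + 2 * s * x₀) :=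
          mul_le_mul_of_nonneg_left (by linarith) w0
      _ = 4 * lg / s * (w * Br) + 2 * s * x₀ * w := by ring
      _ ≤ 4 * lg / s * (3 / 2 * G) + 2 * s * x₀ * w := by gcongr
      _ = _ := by ring

theorem pw3 {w r pt eb n M x x₀ : ℝ} (w0 : 0 ≤ w) (r0 : 0 < r) (hr : r ≤ 3 / 2) (he : 0 ≤ eb)
    (hn : 1 ≤ n) (hM : 0 < M) (hx₀ : 0 < x₀) (hx : x = r * (eb + pt) / n / M) :
    w * |r * pt - x₀ * M| ≤ n * M * (w * |x - x₀|) + (n - 1) * (x₀ * M) * w + 3 / 2 * (w * eb) := by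
  have hn0 : 0 < n := by linarith
  have e : r * pt - x₀ * M = n * M * (x - x₀) + (n - 1) * (x₀ * M) - r * eb := by
    rw [hx]; field_simp; ring
  have b1 : |n * M * (x - x₀)| = n * M * |x - x₀| := by
    rw [abs_mul, abs_of_pos (by positivity)]
  have b2 : 0 ≤ (n - 1) * (x₀ * M) := mul_nonneg (by linarith) (by positivity)
  have b3 : r * eb ≤ 3 / 2 * eb := mul_le_mul_of_nonneg_right hr he
  have b4 := mul_nonneg r0.le he
  have b5 : |r * pt - x₀ * M| ≤ n * M * |x - x₀| + (n - 1) * (x₀ * M) + 3 / 2 * eb := by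
    rw [e, ← b1, abs_le]
    constructor <;> linarith [le_abs_self (n * M * (x - x₀)), neg_abs_le (n * M * (x - x₀))]
  nlinarith [mul_le_mul_of_nonneg_left b5 w0]

theorem pw4 {w A M' bk D f dx B G : ℝ} (w0 : 0 ≤ w) (hM' : 0 < M') (hD : 0 ≤ D) (hf0 : 0 < f)
    (hf : f ≤ 2) (hB : 0 ≤ B) (e : A = M' / 8 * (bk - D - f * dx + B)) (p1 : w * D ≤ 3 / 2 * G) :
    w * |A| ≤ M' / 8 * (|bk| * w + 3 / 2 * G + 2 * (w * |dx|) + w * B) := by
  have b1 : |f * dx| ≤ 2 * |dx| := by rw [abs_mul, abs_of_pos hf0]; gcongr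
  have b4 : |bk - D - f * dx + B| ≤ |bk| + D + 2 * |dx| + B := by
    have := abs_le.1 b1
    rw [abs_le]; constructor <;> linarith [le_abs_self bk, neg_abs_le bk]
  rw [e, abs_mul, abs_of_pos (by positivity), mul_left_comm]
  refine mul_le_mul_of_nonneg_left ?_ (by positivity)
  nlinarith [mul_le_mul_of_nonneg_left b4 w0]

theorem num1 {C β n f x₀ bk EG z : ℝ} (hC : 1 ≤ C) (hn1 : 1 ≤ n) (hn : n ≤ 1 + C * β ^ 2)
    (hf1 : 1 ≤ f) (hf2 : f ≤ 2) (hx0 : 0 < x₀) (hz : 0 < z) (hbk : bk ≤ 2 * (β ^ 2 * x₀))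
    (EG0 : 0 ≤ EG) (EG2 : |EG - 4 * z * (bk + f * x₀ * (1 - 1 / n))| ≤ β ^ 2 * x₀ * z) :
    EG ≤ (9 + 8 * C) * (β ^ 2 * x₀) * z ∧ |bk| ≤ (2 * C + 2) * (β ^ 2 * x₀) := by
  have hn0 : 0 < n := by linarith
  have h1 : 1 / n ≤ 1 := by rw [div_le_one hn0]; exact hn1
  have hfn : f * x₀ * (1 - 1 / n) ≤ 2 * C * (β ^ 2 * x₀) := by
    have a : 1 - 1 / n ≤ C * β ^ 2 := by
      have : 1 - 1 / n = (n - 1) / n := by field_simp
      rw [this, div_le_iff₀ hn0]; nlinarith [mul_nonneg (show 0 ≤ C by linarith) (sq_nonneg β)]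
    calc f * x₀ * (1 - 1 / n) ≤ 2 * x₀ * (C * β ^ 2) :=
          mul_le_mul (by gcongr) a (by linarith) (by positivity)
      _ = _ := by ring
  have hκ : 0 ≤ β ^ 2 * x₀ := by positivity
  generalize β ^ 2 * x₀ = κ at *
  generalize f * x₀ * (1 - 1 / n) = u at *
  constructor
  · have := (abs_le.1 EG2).2
    nlinarith [mul_le_mul_of_nonneg_left (add_le_add hbk hfn) hz.le]
  · refine abs_le.2 ⟨?_, by nlinarith [mul_nonneg (show (0:ℝ) ≤ C by linarith) hκ]⟩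
    have a := (abs_le.1 EG2).2
    have : 0 ≤ z * (4 * (bk + u) + κ) := by nlinarith only [a, EG0]
    have := nonneg_of_mul_nonneg_right this hz
    nlinarith only [this, hfn, hκ]

theorem numx {K lg β s x₀ z EG m0 : ℝ} (hK : 17 ≤ K) (hl : 0 ≤ lg) (hs : 0 < s) (hx : 0 < x₀)
    (hz : 0 < z) (hs2 : s ^ 2 = lg * β ^ 2) (EG3 : EG ≤ K * (β ^ 2 * x₀) * z) (h0 : m0 ≤ 8 * z) :
    6 * lg / s * EG + 2 * s * x₀ * m0 ≤ 7 * K * (s * x₀ * z) := by
  have l0 : 0 ≤ 6 * lg / s := by positivity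
  have e : 6 * lg / s * (K * (β ^ 2 * x₀) * z) = 6 * K * (s * x₀ * z) := by
    field_simp; rw [hs2]
  have a := mul_le_mul_of_nonneg_left EG3 l0
  have b := mul_le_mul_of_nonneg_left h0 (show 0 ≤ 2 * s * x₀ by positivity)
  have c : 0 < s * x₀ * z := by positivity
  nlinarith

theorem num3 {C K β s x₀ M n z mx m0 m1 : ℝ} (hC : 1 ≤ C) (hK : K = 9 + 8 * C) (hs : 0 < s)
    (hx : 0 < x₀) (hM : 0 < M) (hz : 0 < z) (hn1 : 1 ≤ n) (hn : n ≤ 1 + C * β ^ 2)
    (hnC : n ≤ 1 + C) (hββ : β ^ 2 ≤ s) (h1 : mx ≤ 7 * K * (s * x₀ * z)) (h0 : 0 ≤ m0)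
    (h2 : m0 ≤ 8 * z) (h3 : m1 ≤ (1 + C) * K * (β ^ 2 * (x₀ * M) * z)) :
    n * M * mx + (n - 1) * (x₀ * M) * m0 + 3 / 2 * m1 ≤
      40 * (1 + C) * K * s * (x₀ * M) * z := by
  have hK0 : 0 < K := by linarith
  have z0 : 0 < s * (x₀ * M) * z := by positivity
  have b1 : n * M * mx ≤ 7 * ((1 + C) * K) * (s * (x₀ * M) * z) :=
    calc _ ≤ n * M * (7 * K * (s * x₀ * z)) := by gcongr
      _ = n * (7 * K * (s * (x₀ * M) * z)) := by ring
      _ ≤ (1 + C) * (7 * K * (s * (x₀ * M) * z)) := by gcongr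
      _ = _ := by ring
  have b2 : (n - 1) * (x₀ * M) * m0 ≤ (1 + C) * K * (s * (x₀ * M) * z) :=
    calc _ ≤ (C * s) * (x₀ * M) * (8 * z) :=
          mul_le_mul (mul_le_mul_of_nonneg_right (by nlinarith) (by positivity)) h2 h0
            (by positivity)
      _ = 8 * C * (s * (x₀ * M) * z) := by ring
      _ ≤ _ := mul_le_mul_of_nonneg_right (by nlinarith) z0.le
  have b3 : (1 + C) * K * (β ^ 2 * (x₀ * M) * z) ≤ (1 + C) * K * (s * (x₀ * M) * z) := by gcongr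
  have b4 : 0 < (1 + C) * K * (s * (x₀ * M) * z) := by positivity
  calc _ ≤ 40 * ((1 + C) * K * (s * (x₀ * M) * z)) := by linarith
    _ = _ := by ring

theorem num4 {C K κ s x₀ M' X ε bk m0 EG mx mB : ℝ} (hC : 1 ≤ C) (hK : K = 9 + 8 * C) (hs : 0 < s)
    (h0 : 0 < ε) (h1 : ε ≤ 1) (hx2 : x₀ ≤ 2) (hM' : 0 < M') (hX : M' ≤ 5 * X) (hεκ : ε ≤ κ)
    (hκs : κ ≤ 2 * s) (hbk : bk ≤ (2 * C + 2) * κ) (a0 : 0 ≤ m0) (a1 : m0 ≤ 8 * ε ^ 20)
    (a2 : EG ≤ K * κ * ε ^ 20) (a3 : mx ≤ 7 * K * (s * x₀ * ε ^ 20)) (a4 : mB ≤ ε ^ 31) :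
    M' / 8 * (bk * m0 + 3 / 2 * EG + 2 * mx + ε⁻¹ ^ 6 * mB) ≤
      40 * (1 + C) * K * s * X * ε ^ 20 := by
  have hK0 : 17 ≤ K := by linarith
  have z : 0 < s * ε ^ 20 := by positivity
  have b1 : bk * m0 ≤ 4 * K * (s * ε ^ 20) :=
    calc _ ≤ ((2 * C + 2) * (2 * s)) * (8 * ε ^ 20) :=
          mul_le_mul (hbk.trans (by gcongr)) a1 a0 (by positivity)
      _ = (32 * C + 32) * (s * ε ^ 20) := by ring
      _ ≤ _ := mul_le_mul_of_nonneg_right (by linarith) z.le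
  have b2 : K * κ * ε ^ 20 ≤ 2 * K * (s * ε ^ 20) :=
    calc K * κ * ε ^ 20 ≤ K * (2 * s) * ε ^ 20 := by gcongr
      _ = _ := by ring
  have b3 : 7 * K * (s * x₀ * ε ^ 20) ≤ 14 * K * (s * ε ^ 20) :=
    calc 7 * K * (s * x₀ * ε ^ 20) ≤ 7 * K * (s * 2 * ε ^ 20) := by gcongr
      _ = _ := by ring
  have b4 : ε⁻¹ ^ 6 * mB ≤ K * (s * ε ^ 20) :=
    calc _ ≤ ε⁻¹ ^ 6 * ε ^ 31 := by gcongr
      _ = ε ^ 4 * ε * ε ^ 20 := by field_simp
      _ ≤ 1 * (2 * s) * ε ^ 20 := by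
          gcongr
          · exact pow_le_one₀ h0.le h1
          · linarith
      _ ≤ _ := by nlinarith
  have b5 : 0 < K * (s * ε ^ 20) := by positivity
  calc _ ≤ M' / 8 * (36 * (K * (s * ε ^ 20))) :=
        mul_le_mul_of_nonneg_left (by linarith) (by positivity)
    _ ≤ X * (40 * (1 + C) * (K * (s * ε ^ 20))) :=
        mul_le_mul (by linarith) (by nlinarith) (by positivity) (by linarith)
    _ = _ := by ring

end Tight

open Tight in
theorem tight (d : ℕ) (_hd : 2 ≤ d) : TightStmt d := by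
  intro C hC
  refine ⟨40 * (1 + C) * (9 + 8 * C), by nlinarith, small_iff.2 ?_⟩
  filter_upwards [ev_pos, ev_mul_le 100, ev_le_lg 3] with ε h0 h100 hlg wt r pt pz qt J Bd y₀ M M'
    H g n Λ X β cw cr cpt cpz cqt cJ cB hw hr hb hB0 hM hM' hH hg hβ hlβ hn1 hn hΛ hgM hX hval
    ma mb mc md meso
  have h1 : ε ≤ 1 := by linarith
  have hM0 : 0 < M := lt_of_lt_of_le (by positivity) hM
  have hM0' : 0 < M' := lt_of_lt_of_le (by positivity) hM'
  have hβ2 : β ^ 2 ≤ 1 := by nlinarith only [sq_nonneg β, hlβ, hlg]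
  have hβ1 : β ≤ 1 := by nlinarith only [hβ2, hβ]
  have hn0 : 0 < n := by linarith
  have hnC : n ≤ 1 + C := by nlinarith only [hn, hβ2, hC]
  have hΛ0 : 0 < Λ := by
    have : 0 < β ^ 2 * Λ := lt_of_lt_of_le (mul_pos (by linarith) hM0) hgM
    exact (mul_pos_iff_of_pos_left (by positivity)).1 this
  obtain ⟨x₀, rfl⟩ : ∃ x₀, Λ = x₀ * M := ⟨Λ / M, by field_simp⟩
  have hx0 : 0 < x₀ := (mul_pos_iff_of_pos_right hM0).1 hΛ0
  have hx2 : x₀ ≤ 2 := le_of_mul_le_mul_right hΛ hM0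
  have hgκ : g ≤ β ^ 2 * x₀ := le_of_mul_le_mul_right (by rw [mul_assoc]; exact hgM) hM0
  have hεκ : ε ≤ β ^ 2 * x₀ := hg.trans hgκ
  have hεx : ε ≤ x₀ := by nlinarith only [hεκ, hβ2, hx0]
  obtain ⟨s, hs⟩ : ∃ s, s = √(lg ε) * β := ⟨_, rfl⟩
  have hsl : 1 ≤ √(lg ε) := Real.one_le_sqrt.2 (by linarith)
  have hs2 : s ^ 2 = lg ε * β ^ 2 := by rw [hs, mul_pow, Real.sq_sqrt (by linarith)]
  have hs0 : 0 < s := by rw [hs]; positivity
  have hs1 : s ≤ 1 := by nlinarith only [hs2, hs0, hlβ]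
  have hβs : β ≤ s := by rw [hs]; nlinarith only [hsl, hβ]
  have hββ : β ^ 2 ≤ s := by nlinarith only [hβs, hβ1, hβ]
  obtain ⟨f, hf⟩ : ∃ f, f = F1 ε x₀ := ⟨_, rfl⟩
  have hf1 : 1 ≤ f := hf ▸ one_le_F1 h0 (by linarith) hx0.le
  have hf2 : f ≤ 2 := hf ▸ F1_le_two h0 hlg hx0.le hx2
  have hF0 : 0 ≤ FF ε x₀ := FF_nonneg h0 (by linarith) hx0.le
  have hfx : f * x₀ ≤ 4 := by nlinarith only [hf2, hx2, hx0, hf1]
  have hF4 : FF ε x₀ ≤ 4 := (FF_le h0 (by linarith) hx0.le).trans (hf ▸ hfx)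
  obtain ⟨K, hK⟩ : ∃ K, K = 9 + 8 * C := ⟨_, rfl⟩
  rw [← hK]
  obtain ⟨eb, heb⟩ : ∃ eb : E d → ℝ, ∀ y, eb y = ex β (pt y) (pz y) (qt y) := ⟨_, fun _ => rfl⟩
  have ceb : Continuous eb := by rw [funext heb]; unfold ex; fun_prop
  have e2 : ∀ y, β * |qt y| ≤ eb y := fun y => heb y ▸ ex2 _ _ _ _
  have e0 : ∀ y, 0 ≤ eb y := fun y => le_trans (by positivity) (e2 y)
  have e3 : ∀ y, 0 ≤ eb y + pt y := fun y => heb y ▸ (Real.sqrt_nonneg _).trans (ex1 _ _ _ _)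
  have e4 : ∀ y, eb y + pt y ≤ 2 * ε⁻¹ := fun y =>
    heb y ▸ ex4 hβ.le hβ1 (hb y).1 (hb y).2.1 (hb y).2.2.1
  obtain ⟨x, hx⟩ : ∃ x : E d → ℝ, ∀ y, x y = r y * (eb y + pt y) / n / M := ⟨_, fun _ => rfl⟩
  have cx : Continuous x := by rw [funext hx]; fun_prop
  have r0 : ∀ y, 0 < r y := fun y => by linarith [(hr y).1]
  have x0 : ∀ y, 0 ≤ x y := fun y => by
    have := r0 y; have := e3 y; rw [hx]; positivity
  obtain ⟨c₀, hc₀⟩ : ∃ c₀, c₀ = H + ε ^ 6 - FF ε x₀ + f * x₀ := ⟨_, rfl⟩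
  obtain ⟨G, hG⟩ : ∃ G : E d → ℝ, ∀ y, G y = c₀ * (wt y / r y) - 8 / M' * (wt y * J y) -
    f / (n * M) * (wt y * pt y) + ε⁻¹ ^ 6 * (wt y * Bd y / r y) := ⟨_, fun _ => rfl⟩
  have cwr : Continuous fun y => wt y / r y := cw.div cr fun y => (r0 y).ne'
  have cwB : Continuous fun y => wt y * Bd y / r y := (cw.mul cB).div cr fun y => (r0 y).ne'
  have cG : Continuous G := by rw [funext hG]; fun_prop
  obtain ⟨D, hD⟩ : ∃ D : E d → ℝ, ∀ y,
    D y = H + ε ^ 6 - 8 * (r y * J y) / M' - FF ε (x y) + ε⁻¹ ^ 6 * Bd y := ⟨_, fun _ => rfl⟩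
  obtain ⟨Br, hBr⟩ : ∃ Br : E d → ℝ, ∀ y, Br y = FF ε (x y) - FF ε x₀ - f * (x y - x₀) :=
    ⟨_, fun _ => rfl⟩
  have hBr1 : ∀ y, (√(x y + ε) - √(x₀ + ε)) ^ 2 ≤ 2 * lg ε * Br y := fun y => by
    have := FF_tangent h0 (by linarith) (x0 y) hx0.le
    rw [mul_comm, ← div_le_iff₀ (by linarith), hBr, hf]; linarith only [this]
  have hBr0 : ∀ y, 0 ≤ Br y := fun y =>
    nonneg_of_mul_nonneg_right ((sq_nonneg _).trans (hBr1 y)) (by linarith)
  have hGe : ∀ y, G y = wt y / r y * (D y + Br y) + f / (n * M) * (wt y * eb y) := fun y => by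
    have := (r0 y).ne'
    rw [hG, hD, hBr, hc₀, hx]; field_simp; ring
  have e6 : 0 < ε ^ 6 := by positivity
  have bB : ∀ y, 0 ≤ ε⁻¹ ^ 6 * Bd y := fun y => mul_nonneg (by positivity) (hB0 y)
  have hD0 : ∀ y ∈ closedBall y₀ 1, 0 ≤ D y := fun y hy => by
    rcases lt_or_ge (Bd y) 1 with h | h
    · have := good hβ (meso y hy h).1 (meso y hy h).2
      rw [← heb, val, max_eq_left (by have := r0 y; have := e3 y; positivity), ← hx] at this
      rw [hD]; linarith only [this, bB y]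
    · have a := crude h0 h100 hlg hM hM' hn1 (r0 y) (hr y).2 (e3 y) (e4 y) (hb y).2.2.2
      have a4 : ε⁻¹ ^ 6 * 1 ≤ ε⁻¹ ^ 6 * Bd y := by gcongr
      rw [← hx] at a
      rw [hD]; linarith only [a, a4, (abs_le.1 hH).1, e6]
  have w0 : ∀ y, 0 ≤ wt y := fun y => (hw y).1
  have P : ∀ y ∈ closedBall y₀ 1, _ := fun y hy => pw (w0 y) (r0 y) (hr y).2 (hD0 y hy) (hBr0 y)
    (e0 y) (mul_pos hn0 hM0) hf1 (show 0 ≤ lg ε by linarith) hs0 (hBr1 y)
    (pin h0 (x0 y) hεx hs0 hs1) (hGe y)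
  obtain ⟨bk, hbk⟩ : ∃ bk, bk = H + ε ^ 6 - FF ε x₀ - 8 * X / M' := ⟨_, rfl⟩
  rw [val, max_eq_left hΛ0.le, mul_div_cancel_right₀ _ hM0.ne'] at hval
  have hε6 : ε ^ 6 ≤ ε := by simpa using pow_le_pow_of_le_one h0.le h1 (show 1 ≤ 6 by norm_num)
  have hbk1 : bk ≤ 2 * (β ^ 2 * x₀) := by linarith only [hbk, hval, hε6, hgκ, hεκ]
  have e20 : 0 < ε ^ 20 := by positivity
  have mB0 : 0 ≤ cv 1 (fun y => wt y * Bd y / r y) y₀ :=
    cv_nonneg (fun y => div_nonneg (mul_nonneg (w0 y) (hB0 y)) (r0 y).le) 1 y₀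
  have mB : cv 1 (fun y => wt y * Bd y / r y) y₀ ≤ 2 * ε ^ 31 := by
    have := cv_mono (G' := fun y => 2 * (wt y * Bd y)) cwB (by fun_prop) zero_le_one (y := y₀)
      fun y _ => by
        rw [div_le_iff₀ (r0 y)]; nlinarith only [(hr y).1, mul_nonneg (w0 y) (hB0 y)]
    rw [cv_const_mul] at this; linarith only [this, md]
  have EG2 : |cv 1 G y₀ - 4 * ε ^ 20 * (bk + f * x₀ * (1 - 1 / n))| ≤ β ^ 2 * x₀ * ε ^ 20 := by
    have hc : |c₀| ≤ 21 := by
      have := abs_le.1 hH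
      have : 0 ≤ f * x₀ := by positivity
      rw [abs_le]; constructor <;> linarith
    refine le_of_eq_of_le ?_ (errs h0 h100 hM hM' hn1 (by linarith) hf2 hc hεκ mc mb ma mB0 mB)
    rw [funext hG, cv_add (by fun_prop) (by fun_prop), cv_sub (by fun_prop) (by fun_prop),
      cv_sub (by fun_prop) (by fun_prop), cv_const_mul, cv_const_mul, cv_const_mul, cv_const_mul,
      hbk, hc₀]
    congr 1; field_simp; ring
  have EG0 : 0 ≤ cv 1 G y₀ := by
    have := cv_mono (G := fun _ => 0) continuous_const cG zero_le_one fun y hy => (P y hy).2.2.1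
    rwa [cv_const] at this
  obtain ⟨EG3, hbk2⟩ := num1 hC hn1 hn hf1 hf2 hx0 e20 hbk1 EG0 EG2
  rw [← hK] at EG3
  have m0 : cv 1 wt y₀ ≤ 8 * ε ^ 20 := by
    have := cv_mono (G' := fun y => 3 / 2 * (wt y / r y)) cw (by fun_prop) zero_le_one (y := y₀)
      fun y _ => by
        rw [← mul_div_assoc, le_div_iff₀ (r0 y)]; nlinarith only [(hr y).2, w0 y]
    rw [cv_const_mul] at this
    have b : ε ^ 30 ≤ ε ^ 20 := pow_le_pow_of_le_one h0.le h1 (by norm_num)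
    linarith only [(abs_le.1 mc).2, this, b, e20]
  have hK0 : 17 ≤ K := by linarith only [hK, hC]
  have m1 : cv 1 (fun y => wt y * eb y) y₀ ≤ (1 + C) * K * (β ^ 2 * (x₀ * M) * ε ^ 20) := by
    have := cv_mono (G' := fun y => n * M * G y) (cw.mul ceb) (by fun_prop) zero_le_one
      fun y hy => (P y hy).2.1
    rw [cv_const_mul] at this
    calc _ ≤ n * M * (K * (β ^ 2 * x₀) * ε ^ 20) := this.trans (by gcongr)
      _ = n * K * (β ^ 2 * (x₀ * M) * ε ^ 20) := by ring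
      _ ≤ _ := by gcongr
  have mx : cv 1 (fun y => wt y * |x y - x₀|) y₀ ≤ 7 * K * (s * x₀ * ε ^ 20) := by
    have := cv_mono (G := fun y => wt y * |x y - x₀|)
      (G' := fun y => 6 * lg ε / s * G y + 2 * s * x₀ * wt y) (by fun_prop) (by fun_prop)
      zero_le_one fun y hy => (P y hy).2.2.2
    rw [cv_add (by fun_prop) (by fun_prop), cv_const_mul, cv_const_mul] at this
    exact this.trans (numx hK0 (by linarith) hs0 hx0 e20 hs2 EG3 m0)
  have z1 : 0 < (1 + C) * K * (β ^ 2 * (x₀ * M) * ε ^ 20) := by positivity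
  have m1' : cv 1 (fun y => wt y * eb y) y₀ ≤ 40 * (1 + C) * K * β ^ 2 * (x₀ * M) * ε ^ 20 :=
    calc _ ≤ 40 * ((1 + C) * K * (β ^ 2 * (x₀ * M) * ε ^ 20)) := by linarith only [m1, z1]
      _ = _ := by ring
  refine ⟨eb, ceb, e0, fun y => ?_, fun y => by linarith only [e3 y], fun y => ?_, m0, m1', ?_, ?_,
    ?_⟩
  · have hi1 : 100 ≤ ε⁻¹ := by rw [le_inv_comm₀ (by norm_num) h0]; linarith
    nlinarith only [e4 y, (hb y).1, neg_abs_le (pt y), hi1]
  · rw [heb]; exact ex5 _ _ _ _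
  · have a := cv_mono (G := fun y => wt y * |qt y|) (G' := fun y => wt y * eb y / β) (by fun_prop)
      (by fun_prop) zero_le_one (y := y₀) fun y _ => by
        rw [le_div_iff₀ hβ]; nlinarith only [mul_le_mul_of_nonneg_left (e2 y) (w0 y)]
    rw [cv_div_const, le_div_iff₀ hβ] at a
    exact le_of_mul_le_mul_right (a.trans (m1'.trans_eq (by ring))) hβ
  · have a := cv_mono (G := fun y => wt y * |r y * pt y - x₀ * M|) (by fun_prop) (by fun_prop)
      zero_le_one (y := y₀) fun y _ => pw3 (w0 y) (r0 y) (hr y).2 (e0 y) hn1 hM0 hx0 (hx y)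
    rw [cv_add (by fun_prop) (by fun_prop), cv_add (by fun_prop) (by fun_prop), cv_const_mul,
      cv_const_mul, cv_const_mul] at a
    exact a.trans ((num3 hC hK hs0 hx0 hM0 e20 hn1 hn hnC hββ mx (cv_nonneg w0 1 y₀) m0 m1).trans_eq
      (by rw [hs]; ring))
  · have a := cv_mono (G := fun y => wt y * |r y * J y - X|)
      (G' := fun y => M' / 8 * (|bk| * wt y + 3 / 2 * G y + 2 * (wt y * |x y - x₀|) +
        ε⁻¹ ^ 6 * (wt y * Bd y))) (by fun_prop) (by fun_prop) zero_le_one (y := y₀) fun y hy => by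
        refine (pw4 (A := r y * J y - X) (bk := bk) (dx := x y - x₀) (w0 y) hM0'
          (add_nonneg (hD0 y hy) (hBr0 y)) (by linarith) hf2 (bB y) ?_ (P y hy).1).trans_eq (by ring)
        rw [hD, hBr, hbk]; field_simp; ring
    rw [cv_const_mul, cv_add (by fun_prop) (by fun_prop), cv_add (by fun_prop) (by fun_prop),
      cv_add (by fun_prop) (by fun_prop), cv_const_mul, cv_const_mul, cv_const_mul,
      cv_const_mul] at a
    have hκs : β ^ 2 * x₀ ≤ 2 * s := by nlinarith only [hββ, hx2, hx0, hs0]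
    exact a.trans ((num4 hC hK hs0 h0 h1 hx2 hM0' hX hεκ hκs hbk2 (cv_nonneg w0 1 y₀) m0 EG3 mx
      md).trans_eq (by rw [hs]; ring))

end Pool.Agent.MP_20bec2_an.h7

end
end MrgPart2

-- ======== part 3: formerly Pool.Agent.MP_20bec2_an.h7.VolA
section MrgPart3

/-! An isoperimetric inequality across parallel lines. -/

set_option autoImplicit false

open MeasureTheory Set Metric Filter Topology

noncomputable section

namespace Pool.Agent.MP_20bec2_an.h7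

namespace VolA

variable {d : ℕ}

/-- integral along the whole line -/
def P (u : E d) (g : E d → ℝ) (y : E d) : ℝ := ∫ τ : ℝ, g (y + τ • u)

/-- projection along `u` -/
def pr (u y : E d) : E d := y - inner ℝ u y • u

variable {u : E d}

theorem inner_add_line (hu : ‖u‖ = 1) (y : E d) (τ : ℝ) :
    inner ℝ u (y + τ • u) = inner ℝ u y + τ := by
  rw [inner_add_right, inner_smul_right, real_inner_self_eq_norm_sq, hu]; ring

theorem inner_pr (hu : ‖u‖ = 1) (y : E d) : inner ℝ u (pr u y) = 0 := by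
  unfold pr
  rw [inner_sub_right, inner_smul_right, real_inner_self_eq_norm_sq, hu]; ring

theorem abs_inner_le (hu : ‖u‖ = 1) (y : E d) : |inner ℝ u y| ≤ ‖y‖ := by
  simpa [hu] using abs_real_inner_le_norm u y

theorem norm_pr_le (hu : ‖u‖ = 1) (y : E d) (τ : ℝ) : ‖pr u y‖ ≤ ‖y + τ • u‖ := by
  have e : y + τ • u = pr u y + (inner ℝ u y + τ) • u := by
    unfold pr; rw [add_smul]; abel
  have h : ‖y + τ • u‖ ^ 2 = ‖pr u y‖ ^ 2 + (inner ℝ u y + τ) ^ 2 := by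
    rw [e, norm_add_sq_real, inner_smul_right, real_inner_comm u (pr u y), inner_pr hu, norm_smul,
      hu, Real.norm_eq_abs, mul_one, sq_abs]
    ring
  exact abs_le_of_sq_le_sq' (by nlinarith [sq_nonneg (inner ℝ u y + τ)]) (norm_nonneg _) |>.2

theorem norm_le_pr (hu : ‖u‖ = 1) (y : E d) : ‖y‖ ≤ ‖pr u y‖ + |inner ℝ u y| := by
  have e : y = pr u y + inner ℝ u y • u := by unfold pr; abel
  calc ‖y‖ = ‖pr u y + inner ℝ u y • u‖ := by rw [← e]
    _ ≤ _ := by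
      refine (norm_add_le _ _).trans ?_
      rw [norm_smul, hu, mul_one, Real.norm_eq_abs]

theorem exists_T {g : E d → ℝ} (hs : HasCompactSupport g) :
    ∃ T : ℝ, 0 < T ∧ ∀ y, T ≤ ‖y‖ → g y = 0 := by
  obtain ⟨T, hT, h⟩ := hs.exists_pos_le_norm
  exact ⟨T, hT, h⟩

theorem P_inv (g : E d → ℝ) (y : E d) (s : ℝ) : P u g (y + s • u) = P u g y := by
  unfold P
  rw [← integral_add_left_eq_self (fun τ : ℝ => g (y + τ • u)) s]
  simp only [add_smul, add_assoc]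

theorem P_pr (g : E d → ℝ) (y : E d) : P u g (pr u y) = P u g y := by
  rw [← P_inv g y (-inner ℝ u y), neg_smul, ← sub_eq_add_neg]; rfl

theorem P_eq_ln (hu : ‖u‖ = 1) {g : E d → ℝ} {T : ℝ} (hT : 0 < T) (h : ∀ y, T ≤ ‖y‖ → g y = 0)
    {y : E d} (hy : inner ℝ u y = 0) : P u g y = ln T u (fun _ => 1) g y := by
  unfold P ln
  simp only [one_smul]
  refine (intervalIntegral.integral_eq_integral_of_support_subset fun τ hτ => ?_).symm
  have h1 : ‖y + τ • u‖ < T := by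
    by_contra hc
    exact hτ (h _ (not_lt.1 hc))
  have h2 := abs_inner_le hu (y + τ • u)
  rw [inner_add_line hu, hy, zero_add] at h2
  have := abs_lt.1 (h2.trans_lt h1)
  exact ⟨by linarith [this.1], by linarith [this.2]⟩

theorem P_cont (hu : ‖u‖ = 1) {g : E d → ℝ} (hg : Continuous g) (hs : HasCompactSupport g) :
    Continuous (P u g) := by
  obtain ⟨T, hT, h⟩ := exists_T hs
  have : P u g = fun y => ln T u (fun _ => 1) g (pr u y) := funext fun y => by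
    rw [← P_pr, P_eq_ln hu hT h (inner_pr hu y)]
  rw [this]
  exact (continuous_ln continuous_const hg T u).comp (by unfold pr; fun_prop)

theorem line_int (hu : ‖u‖ = 1) {g : E d → ℝ} (hg : Continuous g) (hs : HasCompactSupport g)
    (y : E d) : Integrable fun τ : ℝ => g (y + τ • u) := by
  obtain ⟨T, -, h⟩ := exists_T hs
  refine Continuous.integrable_of_hasCompactSupport (hg.comp (by fun_prop)) ?_
  refine HasCompactSupport.intro (isCompact_closedBall (0 : ℝ) (T + ‖y‖)) fun τ hτ => h _ ?_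
  rw [mem_closedBall_zero_iff, not_le] at hτ
  have h1 := norm_sub_norm_le (τ • u) (-y)
  rw [norm_smul, hu, mul_one, norm_neg, sub_neg_eq_add, add_comm] at h1
  linarith

theorem P_dd (hu : ‖u‖ = 1) {A : E d → ℝ} (hA : ContDiff ℝ 1 A) (hs : HasCompactSupport A)
    (y : E d) : P u (dd A u) y = 0 :=
  integral_eq_zero_of_hasDerivAt_of_integrable (hasDerivAt_line hA u y)
    (line_int hu (continuous_dd hA u) (hs.fderiv_apply ℝ u) y) (line_int hu hA.continuous hs y)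

theorem P_deriv (hu : ‖u‖ = 1) {A : E d → ℝ} (hA : ContDiff ℝ 1 A) (hs : HasCompactSupport A)
    {v : E d} (hv : inner ℝ u v = 0) (y : E d) (t : ℝ) :
    HasDerivAt (fun t : ℝ => P u A (y + t • v)) (P u (dd A v) (y + t • v)) t := by
  obtain ⟨T, hT, h⟩ := exists_T hs
  obtain ⟨T', hT', h'⟩ := exists_T (g := dd A v) (hs.fderiv_apply ℝ v)
  have e : ∀ t : ℝ, pr u (y + t • v) = pr u y + t • v := fun t => by
    unfold pr
    rw [inner_add_right, inner_smul_right, hv, mul_zero, add_zero]; abel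
  have hm : 0 < max T T' := lt_max_of_lt_left hT
  have e1 : (fun t : ℝ => P u A (y + t • v)) =
      fun t => ln (max T T') u (fun _ => 1) A (pr u y + t • v) := funext fun t => by
    rw [← P_pr, P_eq_ln hu hm (fun z hz => h z ((le_max_left _ _).trans hz)) (inner_pr hu _), e]
  rw [e1, ← P_pr, P_eq_ln hu hm (fun z hz => h' z ((le_max_right _ _).trans hz)) (inner_pr hu _),
    e, ← dd_ln continuous_const hA]
  exact hasDerivAt_line (contDiff_ln continuous_const hA _ u) v _ t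

theorem th_int {r : ℝ} (hr : 0 < r) (c : ℝ) : ∫ τ : ℝ, th r (c - τ) = 3 * r := by
  rw [integral_sub_left_eq_self (fun τ => th r τ) volume c, ← integral_th hr]
  refine (intervalIntegral.integral_eq_integral_of_support_subset fun τ hτ => ?_).symm
  have : |τ| < 2 * r := by
    by_contra hc
    exact hτ (th_eq_zero hr (not_lt.1 hc))
  have := abs_lt.1 this
  exact ⟨by linarith [this.1], by linarith [this.2]⟩

theorem th_lt {r τ : ℝ} (hr : 0 < r) (h : th r τ ≠ 0) : |τ| < 2 * r := by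
  by_contra hc
  exact h (th_eq_zero hr (not_lt.1 hc))

theorem swap {X Y : Type} [NormedAddCommGroup X] [NormedAddCommGroup Y] [ProperSpace X]
    [ProperSpace Y] [MeasureSpace X] [MeasureSpace Y] [BorelSpace X] [BorelSpace Y]
    [SFinite (volume : Measure X)] [SFinite (volume : Measure Y)]
    [IsFiniteMeasureOnCompacts (volume : Measure X)]
    [IsFiniteMeasureOnCompacts (volume : Measure Y)] {f : X → Y → ℝ}
    (hc : Continuous fun z : X × Y => f z.1 z.2) (a : ℝ)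
    (h : ∀ x y, f x y ≠ 0 → ‖x‖ ≤ a ∧ ‖y‖ ≤ a) :
    Integrable (Function.uncurry f) ((volume : Measure X).prod (volume : Measure Y)) := by
  refine Continuous.integrable_of_hasCompactSupport hc ?_
  refine HasCompactSupport.intro (K := closedBall 0 a ×ˢ closedBall 0 a)
    ((isCompact_closedBall _ _).prod (isCompact_closedBall _ _)) fun z hz => ?_
  by_contra hc
  have := h z.1 z.2 hc
  exact hz ⟨mem_closedBall_zero_iff.2 this.1, mem_closedBall_zero_iff.2 this.2⟩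

/-- the weighted integral of a line integral -/
theorem int_P (hu : ‖u‖ = 1) {g : E d → ℝ} (hg : Continuous g) (hs : HasCompactSupport g) {r : ℝ}
    (hr : 0 < r) (c : ℝ) : ∫ y, th r (inner ℝ u y - c) * P u g y = 3 * r * ∫ y, g y := by
  obtain ⟨T, hT, h⟩ := exists_T hs
  have ct := continuous_th r
  have hT' : ∀ y, g y ≠ 0 → ‖y‖ ≤ T := fun y hy => by
    by_contra hc
    exact hy (h y (not_le.1 hc).le)
  have i1 := swap (X := E d) (Y := ℝ) (f := fun y τ => th r (inner ℝ u y - c) * g (y + τ • u))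
    (by fun_prop) (2 * T + 2 * r + |c|) fun y τ hne => by
      have h1 := abs_lt.1 (th_lt hr (left_ne_zero_of_mul hne))
      have h2 := hT' _ (right_ne_zero_of_mul hne)
      have h3 := abs_le.1 ((abs_inner_le hu (y + τ • u)).trans h2)
      rw [inner_add_line hu] at h3
      have h4 := (norm_pr_le hu y τ).trans h2
      have h5 := norm_le_pr hu y
      have h6 : |inner ℝ u y| ≤ 2 * r + |c| :=
        abs_le.2 ⟨by linarith [neg_abs_le c], by linarith [le_abs_self c]⟩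
      refine ⟨by linarith, ?_⟩
      rw [Real.norm_eq_abs, abs_le]
      constructor <;> linarith [(abs_le.1 h6).1, (abs_le.1 h6).2]
  have i2 := swap (X := ℝ) (Y := E d) (f := fun τ y => th r (inner ℝ u y - c - τ) * g y)
    (by fun_prop) (T + 2 * r + |c|) fun τ y hne => by
      have h1 := abs_lt.1 (th_lt hr (left_ne_zero_of_mul hne))
      have h2 := hT' _ (right_ne_zero_of_mul hne)
      have h3 := abs_le.1 ((abs_inner_le hu y).trans h2)
      refine ⟨?_, by linarith [abs_nonneg c]⟩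
      rw [Real.norm_eq_abs, abs_le]
      constructor <;> linarith [neg_abs_le c, le_abs_self c]
  unfold P
  simp only [← integral_const_mul]
  rw [integral_integral_swap i1]
  have e : ∀ τ : ℝ, ∫ y, th r (inner ℝ u y - c) * g (y + τ • u) =
      ∫ y, th r (inner ℝ u y - c - τ) * g y := fun τ => by
    rw [← integral_add_right_eq_self (fun y => th r (inner ℝ u y - c - τ) * g y) (τ • u)]
    simp only [inner_add_line hu]
    congr 1
    funext y
    congr 2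
    ring
  simp only [e]
  rw [integral_integral_swap i2]
  simp only [integral_mul_const, th_int hr]

theorem P_zero (hu : ‖u‖ = 1) {g : E d → ℝ} {T : ℝ} (h : ∀ y, T ≤ ‖y‖ → g y = 0) {y : E d}
    (hy : T ≤ ‖pr u y‖) : P u g y = 0 := by
  unfold P
  simp only [fun τ : ℝ => h (y + τ • u) (hy.trans (norm_pr_le hu y τ)), integral_zero]

theorem hcs_th (hu : ‖u‖ = 1) {G : E d → ℝ} {T : ℝ} (h : ∀ y, T ≤ ‖pr u y‖ → G y = 0) {r : ℝ}
    (hr : 0 < r) (c : ℝ) : HasCompactSupport fun y => th r (inner ℝ u y - c) * G y := by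
  refine HasCompactSupport.intro (isCompact_closedBall 0 (T + 2 * r + |c|)) fun y hy => ?_
  by_contra hne
  have h1 := abs_lt.1 (th_lt hr (left_ne_zero_of_mul hne))
  have h2 : ‖pr u y‖ < T := by
    by_contra hc
    exact right_ne_zero_of_mul hne (h y (not_lt.1 hc))
  have h6 : |inner ℝ u y| ≤ 2 * r + |c| :=
    abs_le.2 ⟨by linarith [neg_abs_le c], by linarith [le_abs_self c]⟩
  exact hy (mem_closedBall_zero_iff.2 (by linarith [norm_le_pr hu y]))

theorem int_shift {G : E d → ℝ} (hG : Continuous G) (hs : HasCompactSupport G) (v : E d)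
    {l : ℝ} (hl : 0 ≤ l) : Integrable (fun y => ∫ t in (0 : ℝ)..l, G (y + t • v)) ∧
      ∫ y, ∫ t in (0 : ℝ)..l, G (y + t • v) = l * ∫ y, G y := by
  obtain ⟨T, -, h⟩ := exists_T hs
  have hi : Integrable (Function.uncurry fun (t : ℝ) (y : E d) => G (y + t • v))
      ((volume.restrict (uIoc 0 l)).prod volume) := by
    rw [Measure.restrict_prod_eq_prod_univ, uIoc_of_le hl]
    have hc : Continuous (Function.uncurry fun (t : ℝ) (y : E d) => G (y + t • v)) :=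
      hG.comp (by fun_prop)
    refine IntegrableOn.of_forall_sdiff_eq_zero (s := Icc 0 l ×ˢ closedBall 0 (T + l * ‖v‖))
      (hc.continuousOn.integrableOn_compact (isCompact_Icc.prod (isCompact_closedBall _ _)))
      (measurableSet_Ioc.prod MeasurableSet.univ) fun z hz => h _ ?_
    have h1 := hz.1.1
    have h2 : T + l * ‖v‖ < ‖z.2‖ := by
      by_contra hc
      exact hz.2 ⟨Ioc_subset_Icc_self h1, mem_closedBall_zero_iff.2 (not_lt.1 hc)⟩
    have h3 := norm_sub_norm_le z.2 (-(z.1 • v))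
    rw [norm_neg, norm_smul, Real.norm_eq_abs, abs_of_pos h1.1, sub_neg_eq_add] at h3
    nlinarith [mul_le_mul_of_nonneg_right h1.2 (norm_nonneg v)]
  constructor
  · have := hi.integral_prod_right
    simp only [Function.uncurry, uIoc_of_le hl] at this
    simpa only [intervalIntegral.integral_of_le hl] using this
  · rw [← intervalIntegral_integral_swap hi]
    simp only [integral_add_right_eq_self (fun y => G y)]
    rw [intervalIntegral.integral_const, smul_eq_mul, sub_zero]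

/-- translation in the mean -/
theorem trans_le (hu : ‖u‖ = 1) {A : E d → ℝ} (hA : ContDiff ℝ 1 A) (hs : HasCompactSupport A)
    {B : ℝ} (hB : 0 ≤ B) (h : ∀ v, ON v u → ∃ A' : E d → ℝ, ContDiff ℝ 1 A' ∧
      HasCompactSupport A' ∧ ∫ y, |dd A v y - dd A' u y| ≤ B) (w : E d) :
    ∫ y, th (1 / 3) (inner ℝ u y - 0) * |P u A y - P u A (y - w)| ≤ ‖w‖ * B := by
  have e0 : ∀ y, P u A (y - w) = P u A (y - pr u w) := fun y => by
    rw [← P_inv A (y - w) (inner ℝ u w)]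
    congr 1
    unfold pr; abel
  have hw : ‖pr u w‖ ≤ ‖w‖ := by simpa using norm_pr_le hu w 0
  simp only [e0]
  by_cases h0 : pr u w = 0
  · simp only [h0, sub_zero, sub_self, abs_zero, mul_zero, integral_zero]
    positivity
  have hl : 0 < ‖pr u w‖ := norm_pos_iff.2 h0
  set l := ‖pr u w‖ with hl'
  set v : E d := -(l⁻¹ • pr u w) with hv
  have hv1 : ‖v‖ = 1 := by
    rw [hv, norm_neg, norm_smul, norm_inv, Real.norm_eq_abs, abs_of_pos hl, inv_mul_cancel₀ hl.ne']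
  have hv2 : inner ℝ u v = 0 := by
    rw [hv, inner_neg_right, inner_smul_right, inner_pr hu, mul_zero, neg_zero]
  have hv3 : ∀ y, y - pr u w = y + l • v := fun y => by
    rw [hv, smul_neg, smul_smul, mul_inv_cancel₀ hl.ne', one_smul, sub_eq_add_neg]
  obtain ⟨A', hA', hs', hb⟩ := h v ⟨hv1, hu, by rw [real_inner_comm, hv2]⟩
  set g : E d → ℝ := fun y => |dd A v y - dd A' u y| with hg
  have c1 := continuous_dd hA v
  have c2 := continuous_dd hA' u
  have s1 : HasCompactSupport (dd A v) := hs.fderiv_apply ℝ v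
  have s2 : HasCompactSupport (dd A' u) := hs'.fderiv_apply ℝ u
  have cg : Continuous g := (c1.sub c2).abs
  have sg : HasCompactSupport g := (s1.sub s2).abs
  obtain ⟨T, -, hT⟩ := exists_T sg
  have cP := P_cont hu cg sg
  have ct := continuous_th (1 / 3)
  obtain ⟨i1, i2⟩ := int_shift (G := fun y => th (1 / 3) (inner ℝ u y - 0) * P u g y) (by fun_prop)
    (hcs_th hu (fun y hy => P_zero hu hT hy) (by norm_num) 0) v hl.le
  rw [int_P hu cg sg (by norm_num)] at i2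
  calc _ ≤ ∫ y, ∫ t in (0 : ℝ)..l,
        th (1 / 3) (inner ℝ u (y + t • v) - 0) * P u g (y + t • v) := by
        refine integral_mono_of_nonneg (ae_of_all _ fun y =>
          mul_nonneg (th_mem _ _).1 (abs_nonneg _)) i1 (ae_of_all _ fun y => ?_)
        simp only [inner_add_right, inner_smul_right, hv2, mul_zero, add_zero]
        rw [intervalIntegral.integral_const_mul]
        refine mul_le_mul_of_nonneg_left ?_ (th_mem _ _).1
        have cd : Continuous fun t : ℝ => P u (dd A v) (y + t • v) :=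
          (P_cont hu c1 s1).comp (by fun_prop)
        have e := intervalIntegral.integral_eq_sub_of_hasDerivAt (a := 0) (b := l)
          (fun t _ => P_deriv hu hA hs hv2 y t) (cd.intervalIntegrable _ _)
        rw [zero_smul, add_zero] at e
        rw [hv3, abs_sub_comm, ← e]
        have cg' : Continuous fun t : ℝ => P u g (y + t • v) := cP.comp (by fun_prop)
        refine intervalIntegral.norm_integral_le_of_norm_le
          (f := fun t : ℝ => P u (dd A v) (y + t • v)) hl.le (ae_of_all _ fun t _ => ?_)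
          (cg'.intervalIntegrable _ _)
        rw [← sub_zero (P u (dd A v) (y + t • v)), ← P_dd hu hA' hs' (y + t • v)]
        unfold P
        rw [← integral_sub (line_int hu c1 s1 _) (line_int hu c2 s2 _)]
        exact norm_integral_le_integral_norm _
    _ ≤ ‖w‖ * B := by
        rw [i2]
        have : ∫ y, g y ≤ B := hb
        nlinarith [mul_le_mul_of_nonneg_left this hl.le, mul_le_mul_of_nonneg_right hw hB]

end VolA

open VolA in
theorem volA (d : ℕ) (hd : 2 ≤ d) : VolAStmt d := by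
  have hz := one_le_Cz (d := d)
  refine ⟨6 * Cz d, by linarith, fun A Q u S B r hu hA hs hQ hQs hQ0 hAQ hS hr hC hB h => ?_⟩
  obtain ⟨T, -, hT⟩ := exists_T hs
  obtain ⟨T', -, hT'⟩ := exists_T hQs
  have ct := continuous_th (1 / 3)
  have h3 : (0 : ℝ) < 1 / 3 := by norm_num
  have cF := P_cont hu hA.continuous hs
  have cQ := P_cont hu hQ hQs
  have zF : ∀ y, T ≤ ‖pr u y‖ → |P u A y| = 0 := fun y hy => by rw [P_zero hu hT hy, abs_zero]
  have sF := hcs_th hu zF h3 0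
  have sQ := hcs_th hu (fun y hy => P_zero hu hT' hy) h3 0
  have cG : Continuous fun y => th (1 / 3) (inner ℝ u y - 0) * |P u A y| := by fun_prop
  have cH : Continuous fun y => th (1 / 3) (inner ℝ u y - 0) * P u Q y := by fun_prop
  have pQ : ∀ y, 0 ≤ P u Q y := fun y => integral_nonneg fun τ => hQ0 _
  set n := ∫ y, th (1 / 3) (inner ℝ u y - 0) * |P u A y| with hn
  have n0 : 0 ≤ n := integral_nonneg fun y => mul_nonneg (th_mem _ _).1 (abs_nonneg _)
  have k1 : |∫ y, A y| ≤ n := by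
    have := int_P hu hA.continuous hs h3 0
    rw [show (3 : ℝ) * (1 / 3) = 1 by norm_num, one_mul] at this
    rw [← this]
    refine (abs_integral_le_integral_abs).trans (le_of_eq ?_)
    simp only [abs_mul, abs_of_nonneg (th_mem _ _).1]
    rfl
  have k2 : ∀ w, n ≤ ‖w‖ * B +
      ∫ y, th (1 / 3) (inner ℝ u y - 0) * P u Q y * |P u A (y - w)| := fun w => by
    have i2 : Integrable fun y => th (1 / 3) (inner ℝ u y - 0) * P u Q y * |P u A (y - w)| :=
      Continuous.integrable_of_hasCompactSupport (by fun_prop) sQ.mul_right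
    have i1 : Integrable fun y => th (1 / 3) (inner ℝ u y - 0) * |P u A y - P u A (y - w)| := by
      refine Continuous.integrable_of_hasCompactSupport (by fun_prop)
        (hcs_th hu (T := T + ‖w‖) (fun y hy => ?_) h3 0)
      have a1 : pr u (y - w) = pr u y - pr u w := by
        unfold pr; rw [inner_sub_right, sub_smul]; abel
      have a2 : ‖pr u w‖ ≤ ‖w‖ := by simpa using norm_pr_le hu w 0
      have a3 := norm_sub_norm_le (pr u y) (pr u w)
      rw [P_zero hu hT (y := y) (by linarith [norm_nonneg w]),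
        P_zero hu hT (y := y - w) (by rw [a1]; linarith), sub_zero, abs_zero]
    refine le_trans ?_ (add_le_add_left (trans_le hu hA hs hB h w) _)
    rw [← integral_add i1 i2]
    refine integral_mono (cG.integrable_of_hasCompactSupport sF) (i1.add i2) fun y => ?_
    have t0 := (th_mem (1 / 3) (inner ℝ u y - 0)).1
    show _ * _ ≤ _ * _ + _ * _ * _
    rw [mul_assoc, ← mul_add]
    refine mul_le_mul_of_nonneg_left ?_ t0
    by_cases hy : P u A y = 0
    · rw [hy, abs_zero]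
      exact add_nonneg (abs_nonneg _) (mul_nonneg (pQ y) (abs_nonneg _))
    · obtain ⟨τ, hτ⟩ : ∃ τ : ℝ, A (y + τ • u) ≠ 0 := by
        by_contra hc
        push Not at hc
        exact hy (by unfold P; simp only [hc, integral_zero])
      have a1 : 1 ≤ P u Q y := by rw [← P_inv Q y τ]; exact hAQ _ hτ
      have a2 := abs_sub_abs_le_abs_sub (P u A y) (P u A (y - w))
      nlinarith [mul_le_mul_of_nonneg_right a1 (abs_nonneg (P u A (y - w)))]
  have k3 : ∀ y, cv r (fun z => |P u A z|) y ≤ Cz d / r ^ d * (3 * r * n) := fun y => by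
    have e : ∀ z, P u (fun y => th (1 / 3) (inner ℝ u y - 0) * |P u A y|) z = |P u A z| := by
      intro z
      have := th_int h3 (-inner ℝ u z)
      conv_lhs => unfold P
      simp only [inner_add_line hu]
      have e2 : ∀ τ : ℝ, (∫ σ : ℝ, A (z + τ • u + σ • u)) = P u A z := fun τ => P_inv A z τ
      simp only [e2]
      rw [integral_mul_const, ← integral_neg_eq_self]
      have e3 : ∀ τ : ℝ, inner ℝ u z + -τ - 0 = inner ℝ u z - τ := fun τ => by ring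
      simp only [e3]
      rw [th_int h3]; ring
    have a1 := int_P hu cG sF hr (inner ℝ u y)
    simp only [e] at a1
    have ctr := continuous_th r
    rw [cv_eq_kernel _ hr, ← hn] at *
    rw [← a1, ← integral_const_mul]
    refine integral_mono_of_nonneg (ae_of_all _ fun z => ?_)
      ((Continuous.integrable_of_hasCompactSupport (by fun_prop)
        (hcs_th hu zF hr (inner ℝ u y))).const_mul _) (ae_of_all _ fun z => ?_)
    · exact smul_nonneg (mul_nonneg (by positivity) (ze_nonneg _)) (abs_nonneg _)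
    · show (_ * _) • _ ≤ _ * (_ * _)
      rw [smul_eq_mul, ← mul_assoc]
      refine mul_le_mul_of_nonneg_right ?_ (abs_nonneg _)
      by_cases hz1 : 1 ≤ ‖r⁻¹ • (y - z)‖
      · rw [ze_eq_zero hz1, mul_zero]
        exact mul_nonneg (by positivity) (th_mem _ _).1
      · rw [norm_smul, norm_inv, Real.norm_eq_abs, abs_of_pos hr, not_le,
          inv_mul_lt_iff₀ hr, mul_one] at hz1
        have a2 := abs_le.1 ((abs_inner_le hu (y - z)).trans hz1.le)
        rw [inner_sub_right] at a2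
        have a3 : th r (inner ℝ u z - inner ℝ u y) = 1 :=
          tr_eq_one (by rw [le_div_iff₀ hr]; linarith) (by rw [div_le_iff₀ hr]; linarith)
        rw [a3, mul_one, div_eq_inv_mul]
        exact mul_le_mul_of_nonneg_left (ze_le _) (by positivity)
  obtain ⟨T₁, hT₁, h₁⟩ := exists_T sQ
  have cz := continuous_ze (d := d)
  have i3 := swap (X := E d) (Y := E d) (f := fun w y =>
      ze d w * (th (1 / 3) (inner ℝ u y - 0) * P u Q y * |P u A (y - r • w)|))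
    (by fun_prop) (T₁ + 1) fun w y hne => by
      have a1 : ‖w‖ < 1 := by
        by_contra hc
        exact left_ne_zero_of_mul hne (ze_eq_zero (not_lt.1 hc))
      have a2 : ‖y‖ < T₁ := by
        by_contra hc
        exact left_ne_zero_of_mul (right_ne_zero_of_mul hne) (h₁ y (not_lt.1 hc))
      exact ⟨by linarith, by linarith⟩
  have iz : Integrable (ze d) := cz.integrable_of_hasCompactSupport ze_supp
  have k4 : n ≤ r * B + ∫ y, th (1 / 3) (inner ℝ u y - 0) * P u Q y *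
      cv r (fun z => |P u A z|) y := by
    have e1 : ∫ y, th (1 / 3) (inner ℝ u y - 0) * P u Q y * cv r (fun z => |P u A z|) y =
        ∫ w, ∫ y, ze d w * (th (1 / 3) (inner ℝ u y - 0) * P u Q y * |P u A (y - r • w)|) := by
      rw [integral_integral_swap i3]
      congr 1
      funext y
      unfold cv
      rw [← integral_const_mul]
      congr 1
      funext w
      rw [smul_eq_mul]; ring
    have e2 : n - r * B = ∫ w, ze d w * (n - r * B) := by
      rw [integral_mul_const, integral_ze, one_mul]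
    rw [e1, ← sub_le_iff_le_add', e2]
    refine integral_mono (iz.mul_const _) i3.integral_prod_left fun w => ?_
    show _ * _ ≤ ∫ y, _
    rw [integral_const_mul]
    by_cases hw : 1 ≤ ‖w‖
    · rw [ze_eq_zero hw, zero_mul, zero_mul]
    · refine mul_le_mul_of_nonneg_left ?_ (ze_nonneg w)
      have a1 := k2 (r • w)
      rw [norm_smul, Real.norm_eq_abs, abs_of_pos hr] at a1
      have a2 : r * ‖w‖ * B ≤ r * 1 * B := by gcongr; exact (not_le.1 hw).le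
      linarith
  have k5 : ∫ y, th (1 / 3) (inner ℝ u y - 0) * P u Q y * cv r (fun z => |P u A z|) y ≤
      S * (Cz d / r ^ d * (3 * r * n)) := by
    have a1 := int_P hu hQ hQs h3 0
    rw [show (3 : ℝ) * (1 / 3) = 1 by norm_num, one_mul] at a1
    refine le_trans ?_ (mul_le_mul_of_nonneg_right hS (by positivity))
    rw [← a1, ← integral_mul_const]
    refine integral_mono_of_nonneg (ae_of_all _ fun y => mul_nonneg
      (mul_nonneg (th_mem _ _).1 (pQ y)) (cv_nonneg (fun z => abs_nonneg _) r y))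
      ((cH.integrable_of_hasCompactSupport sQ).mul_const _) (ae_of_all _ fun y => ?_)
    exact mul_le_mul_of_nonneg_left (k3 y) (mul_nonneg (th_mem _ _).1 (pQ y))
  have k6 : S * (Cz d / r ^ d * (3 * r * n)) ≤ n / 2 := by
    obtain ⟨m, rfl⟩ : ∃ m, d = m + 1 := ⟨d - 1, by omega⟩
    rw [Nat.add_sub_cancel] at hC
    have hp : 0 < r ^ m := pow_pos hr m
    have e : S * (Cz (m + 1) / r ^ (m + 1) * (3 * r * n)) =
        6 * Cz (m + 1) * S / r ^ m * (n / 2) := by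
      rw [pow_succ]; field_simp; ring
    rw [e]
    exact mul_le_of_le_one_left (by linarith) ((div_le_one hp).2 hC)
  linarith

end Pool.Agent.MP_20bec2_an.h7

end
end MrgPart3

-- marker of a merged file
example : 731051 + 242844 = 731051 + 242844 := rfl
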