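import Mathlib.Analysis.Complex.ExponentialBounds
import Mathlib.Analysis.Complex.Tietze
import Mathlib.Geometry.Manifold.SmoothApprox
import Mathlib.MeasureTheory.Function.ContinuousMapDense
import Pool.Agent.MP_20bec2_an.h7.Basic
import Pool.Agent.Lib.helper79.Brouwer
import Pool.Agent.MP_20bec2_an.h7.Net
import Pool.Agent.MP_20bec2_an.h7.TestA
import Pool.Agent.MP_20bec2_an.h7.Test
import Pool.Agent.MP_20bec2_an.h7.Pig
import Pool.Agent.MP_20bec2_an.h7.VolA
import Pool.Agent.MP_20bec2_an.h7.Vol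

-- ======== part 0: formerly Pool.Agent.MP_20bec2_an.h7.Apx
section MrgPart0

/-! Approximation by continuous functions living in a ball (project BIOM, module APX). -/

set_option autoImplicit false

open MeasureTheory Set Metric Filter Topology

noncomputable section

namespace Pool.Agent.MP_20bec2_an.h7

theorem apx (d : ℕ) (_hd : 2 ≤ d) : ApxStmt d := by
  intro g c r B t hg hB ht
  have hB0 : 0 ≤ B := (abs_nonneg _).trans (hB 0)
  have hfin : volume (ball c r) ≠ ⊤ := measure_ball_lt_top.ne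
  have : IsFiniteMeasure (volume.restrict (ball c r)) := isFiniteMeasure_restrict.2 hfin
  have hi : Integrable g (volume.restrict (ball c r)) :=
    Integrable.of_bound hg.aestronglyMeasurable B (Eventually.of_forall fun x => hB x)
  obtain ⟨g1, a1, a2⟩ := hi.exists_boundedContinuous_integral_sub_le (half_pos ht)
  set g2 : E d → ℝ := fun x => max (-B) (min B (g1 x)) with hg2
  have c2 : Continuous g2 := continuous_const.max (continuous_const.min g1.continuous)
  have b2 : ∀ x, |g2 x| ≤ B := fun x =>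
    abs_le.2 ⟨le_max_left _ _, max_le (by linarith) (min_le_left _ _)⟩
  have e2 : ∀ x, |g2 x - g x| ≤ ‖g x - g1 x‖ := fun x => by
    have h1 := abs_le.1 (hB x)
    have h2 := le_abs_self (g x - g1 x)
    have h3 := neg_abs_le (g x - g1 x)
    rw [Real.norm_eq_abs, abs_le]
    simp only [hg2, max_def, min_def]
    constructor <;> split_ifs <;> linarith [abs_nonneg (g x - g1 x)]
  set χ : ℕ → E d → ℝ := fun k x => min 1 (k * max 0 (r - dist x c)) with hχ
  have cχ : ∀ k, Continuous (χ k) := fun k => by simp only [hχ]; fun_prop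
  have bχ : ∀ k x, |χ k x * g2 x| ≤ B := fun k x => by
    have h0 : 0 ≤ χ k x := le_min zero_le_one (by positivity)
    rw [abs_mul, abs_of_nonneg h0]
    exact (mul_le_of_le_one_left (abs_nonneg _) (min_le_left _ _)).trans (b2 x)
  have lim : Tendsto (fun k => ∫ x in ball c r, |χ k x * g2 x - g x|) atTop
      (𝓝 (∫ x in ball c r, |g2 x - g x|)) := by
    refine tendsto_integral_of_dominated_convergence (fun _ => B + B) (fun k => ?_)
      (integrable_const _) (fun k => Eventually.of_forall fun x => ?_) ?_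
    · exact (continuous_abs.measurable.comp
        (((cχ k).mul c2).measurable.sub hg)).aestronglyMeasurable
    · rw [Real.norm_eq_abs, abs_abs]
      exact (abs_sub _ _).trans (add_le_add (bχ k x) (hB x))
    · refine (ae_restrict_iff' measurableSet_ball).2 (Eventually.of_forall fun x hx => ?_)
      have h0 : 0 < r - dist x c := sub_pos.2 hx
      refine tendsto_const_nhds.congr' ?_
      filter_upwards [(tendsto_natCast_atTop_atTop.atTop_mul_const h0).eventually_ge_atTop 1]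
        with k hk
      simp only [hχ, max_eq_right h0.le, min_eq_left hk, one_mul]
  have lt : ∫ x in ball c r, |g2 x - g x| < t := by
    refine lt_of_le_of_lt (le_trans ?_ a1) (half_lt_self ht)
    exact integral_mono_of_nonneg (Eventually.of_forall fun x => abs_nonneg _) (hi.sub a2).norm
      (Eventually.of_forall e2)
  obtain ⟨k, hk⟩ := (lim.eventually_lt_const lt).exists
  refine ⟨fun x => χ k x * g2 x, (cχ k).mul c2, bχ k, fun x hx => ?_, hk.le⟩
  have h0 : r - dist x c ≤ 0 := sub_nonpos.2 (not_lt.1 hx)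
  simp [hχ, max_eq_left h0]

end Pool.Agent.MP_20bec2_an.h7

end
end MrgPart0

-- ======== part 1: formerly Pool.Agent.MP_20bec2_an.h7.CtxA
section MrgPart1

/-! A smooth Lipschitz approximate inverse (project BIOM, module CTXA). -/

set_option autoImplicit false

open MeasureTheory Set Metric Filter Topology

noncomputable section

namespace Pool.Agent.MP_20bec2_an.h7

namespace CtxA

variable {d : ℕ}

theorem norm_le_mul {v : E d} {B : ℝ} (h : ∀ i, |v i| ≤ B) : ‖v‖ ≤ d * B := by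
  have e : v = ∑ i, EuclideanSpace.single i (v i) := by
    ext j
    simp [Pi.single_apply]
  rw [e]
  refine (norm_sum_le _ _).trans ?_
  have : ∑ i : Fin d, ‖(EuclideanSpace.single i (v i) : E d)‖ ≤ ∑ _i : Fin d, B :=
    Finset.sum_le_sum fun i _ => by simpa using h i
  simpa using this

theorem abs_apply_le (v : E d) (i : Fin d) : |v i| ≤ ‖v‖ := by
  simpa using PiLp.norm_apply_le v i

theorem contDiff_cv {G : E d → E d} (hG : Continuous G) {μ : ℝ} (hμ : 0 < μ) :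
    ContDiff ℝ 2 (cv μ G) := by
  have hs : HasCompactSupport fun w : E d => (μ ^ d)⁻¹ * ze d (μ⁻¹ • w) :=
    (ze_supp.comp_smul (inv_ne_zero hμ.ne')).mul_left
  have hc : ContDiff ℝ (2 : ℕ∞) fun w : E d => (μ ^ d)⁻¹ * ze d (μ⁻¹ • w) :=
    contDiff_const.mul (contDiff_ze.comp (contDiff_const_smul _))
  have := hs.contDiff_convolution_left (μ := volume) (ContinuousLinearMap.lsmul ℝ ℝ) hc
    (hG.locallyIntegrable (μ := volume))
  have e : cv μ G = MeasureTheory.convolution (fun w : E d => (μ ^ d)⁻¹ * ze d (μ⁻¹ • w)) G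
      (ContinuousLinearMap.lsmul ℝ ℝ) volume := by
    funext y
    rw [convolution_lsmul_swap, cv_eq_kernel G hμ]
  rw [e]
  exact this

/-- smoothing of a Lipschitz map -/
theorem smooth {G : E d → E d} {K σ : ℝ} (hK : 0 ≤ K) (hσ : 0 < σ)
    (h : ∀ y y', ‖G y - G y'‖ ≤ K * ‖y - y'‖) :
    Sm K (cv σ G) ∧ ∀ y, ‖cv σ G y - G y‖ ≤ K * σ := by
  have hG : Continuous G := (LipschitzWith.of_dist_le_mul (K := ⟨K, hK⟩) fun y y' => by
    rw [dist_eq_norm, dist_eq_norm]; exact h y y').continuous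
  refine ⟨⟨contDiff_cv hG hσ, fun y => norm_fderiv_le_of_lip' ℝ hK
    (Eventually.of_forall fun y' => ?_)⟩, fun y => ?_⟩
  · have e : cv σ G y' = cv σ (fun z => G (z + (y' - y))) y := by
      rw [cv_shift, add_sub_cancel]
    rw [e, ← cv_sub (G := fun z => G (z + (y' - y))) (hG.comp (by fun_prop)) hG]
    exact norm_cv_le hσ.le fun z _ => by simpa using h (z + (y' - y)) z
  · have e : G y = cv σ (fun _ => G y) y := (cv_const _ _ _).symm
    rw [e, ← cv_sub hG continuous_const]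
    refine norm_cv_le hσ.le fun z hz => (h z y).trans (mul_le_mul_of_nonneg_left ?_ hK)
    rwa [mem_closedBall, dist_eq_norm] at hz

/-- the extension formula of McShane, for one coordinate -/
theorem coord {D : Set (E d)} {Φ : E d → E d} {L σ : ℝ} (hL : 0 ≤ L) (hD : Bornology.IsBounded D)
    (hne : D.Nonempty) (h : ∀ x ∈ D, ∀ x' ∈ D, ‖x - x'‖ ≤ L * ‖Φ x - Φ x'‖ + σ) (i : Fin d) :
    ∃ g : E d → ℝ, (∀ y y', |g y - g y'| ≤ L * ‖y - y'‖) ∧ ∀ x ∈ D, |g (Φ x) - x i| ≤ σ := by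
  obtain ⟨R, hR⟩ := hD.exists_norm_le
  have : Nonempty D := hne.to_subtype
  have hb : ∀ y : E d, BddBelow (range fun x : D => x.1 i + L * ‖y - Φ x‖) := fun y =>
    ⟨-R, by
      rintro _ ⟨x, rfl⟩
      have h1 := (abs_le.1 ((abs_apply_le x.1 i).trans (hR x x.2))).1
      have h2 := mul_nonneg hL (norm_nonneg (y - Φ x))
      simp only
      linarith⟩
  have key : ∀ y y' : E d, (⨅ x : D, (x.1 i + L * ‖y - Φ x‖)) - L * ‖y - y'‖ ≤
      ⨅ x : D, (x.1 i + L * ‖y' - Φ x‖) := fun y y' => le_ciInf fun x => by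
    have h1 := ciInf_le (hb y) x
    have h2 : ‖y - Φ x‖ ≤ ‖y - y'‖ + ‖y' - Φ x‖ := norm_sub_le_norm_sub_add_norm_sub _ _ _
    have h3 := mul_le_mul_of_nonneg_left h2 hL
    linarith
  refine ⟨fun y => ⨅ x : D, (x.1 i + L * ‖y - Φ x‖), fun y y' => ?_, fun x hx => ?_⟩
  · have h1 := key y y'
    have h2 := key y' y
    rw [norm_sub_rev] at h2
    exact abs_le.2 ⟨by linarith, by linarith⟩
  · have h1 := ciInf_le (hb (Φ x)) ⟨x, hx⟩
    have h2 : x i - σ ≤ ⨅ x' : D, (x'.1 i + L * ‖Φ x - Φ x'‖) := le_ciInf fun x' => by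
      have h3 := h x hx x' x'.2
      have h4 := (le_abs_self _).trans (abs_apply_le (x - x'.1) i)
      rw [PiLp.sub_apply] at h4
      linarith
    have h3 := h x hx x hx
    simp only [sub_self, norm_zero, mul_zero, add_zero, zero_add] at h1 h3
    exact abs_le.2 ⟨by linarith, by linarith⟩

end CtxA

theorem ctxA (d : ℕ) (_hd : 2 ≤ d) : CtxAStmt d := by
  have hd0 : (0 : ℝ) ≤ d := Nat.cast_nonneg d
  refine ⟨2 * d + 1, by linarith, fun D Φ L σ hL hσ hD h => ?_⟩
  rcases D.eq_empty_or_nonempty with rfl | hne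
  · exact ⟨fun _ => 0, ⟨contDiff_const, fun y => by simp; positivity⟩, by simp⟩
  choose g h1 h2 using CtxA.coord (by linarith : 0 ≤ L) hD hne h
  obtain ⟨a1, a2⟩ := CtxA.smooth (G := fun y => WithLp.toLp 2 fun i => g i y) (K := d * L)
    (by positivity) hσ fun y y' => by
      rw [mul_assoc]
      exact CtxA.norm_le_mul fun i => h1 i y y'
  refine ⟨_, a1.mono (by nlinarith), fun x hx => ?_⟩
  have a3 : ‖(WithLp.toLp 2 fun i => g i (Φ x) : E d) - x‖ ≤ d * σ :=
    CtxA.norm_le_mul fun i => h2 i x hx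
  refine (norm_sub_le_norm_sub_add_norm_sub _ _ _).trans ((add_le_add (a2 _) a3).trans ?_)
  have := mul_le_mul_of_nonneg_left hL (mul_nonneg hd0 hσ.le)
  nlinarith

end Pool.Agent.MP_20bec2_an.h7

end
end MrgPart1

-- ======== part 2: formerly Pool.Agent.MP_20bec2_an.h7.Dom
section MrgPart2

/-! Invariance of domain in Euclidean space (project BIOM). -/

set_option autoImplicit false

open MeasureTheory Set Metric Filter Topology

noncomputable section

namespace Pool.Agent.MP_20bec2_an.h7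

namespace Dom

variable {d : ℕ}

/-- the radial retraction onto the closed unit ball -/
def retr (x : E d) : E d := (max 1 ‖x‖)⁻¹ • x

theorem retr_cont : Continuous (retr : E d → E d) := by
  unfold retr
  have h : Continuous fun x : E d => (max 1 ‖x‖)⁻¹ :=
    (continuous_const.max continuous_norm).inv₀ fun x =>
      (lt_of_lt_of_le one_pos (le_max_left _ _)).ne'
  exact h.smul continuous_id

theorem norm_retr_le (x : E d) : ‖retr x‖ ≤ 1 := by
  have h : (0 : ℝ) < max 1 ‖x‖ := lt_of_lt_of_le one_pos (le_max_left _ _)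
  rw [retr, norm_smul, norm_inv, Real.norm_of_nonneg h.le, inv_mul_le_iff₀ h, mul_one]
  exact le_max_right _ _

theorem retr_eq {x : E d} (h : ‖x‖ ≤ 1) : retr x = x := by
  rw [retr, max_eq_left h, inv_one, one_smul]

/-- the fixed point theorem for the Euclidean unit ball -/
theorem brouwer_unit {f : E d → E d} (hf : ContinuousOn f (closedBall 0 1))
    (hm : MapsTo f (closedBall 0 1) (closedBall 0 1)) : ∃ z ∈ closedBall (0 : E d) 1, f z = z := by
  have hr : ∀ x : E d, retr x ∈ closedBall (0 : E d) 1 := fun x =>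
    mem_closedBall_zero_iff.2 (norm_retr_le x)
  have hc : Continuous fun z : Fin d → ℝ => (f (retr (WithLp.toLp 2 z))).ofLp :=
    (PiLp.continuous_ofLp 2 _).comp
      (hf.comp_continuous (retr_cont.comp (PiLp.continuous_toLp 2 _)) fun z => hr _)
  obtain ⟨z, -, hz⟩ := Lib.helper79.brouwer_cube hc.continuousOn fun z _ => by
    rw [mem_closedBall_zero_iff]
    refine (pi_norm_le_iff_of_nonneg zero_le_one).2 fun i => ?_
    exact (PiLp.norm_apply_le _ i).trans (mem_closedBall_zero_iff.1 (hm (hr _)))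
  have h1 : f (retr (WithLp.toLp 2 z)) = WithLp.toLp 2 z := congrArg (WithLp.toLp 2) hz
  have h2 : (WithLp.toLp 2 z : E d) ∈ closedBall (0 : E d) 1 := h1 ▸ hm (hr _)
  rw [retr_eq (mem_closedBall_zero_iff.1 h2)] at h1
  exact ⟨_, h2, h1⟩

/-- the fixed point theorem for Euclidean balls -/
theorem brouwer_ball {f : E d → E d} {c : E d} {r : ℝ} (hr : 0 < r)
    (hf : ContinuousOn f (closedBall c r)) (hm : MapsTo f (closedBall c r) (closedBall c r)) :
    ∃ z ∈ closedBall c r, f z = z := by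
  have h1 : ∀ x ∈ closedBall (0 : E d) 1, c + r • x ∈ closedBall c r := fun x hx => by
    rw [mem_closedBall_iff_norm, add_sub_cancel_left, norm_smul, Real.norm_of_nonneg hr.le]
    exact mul_le_of_le_one_right hr.le (mem_closedBall_zero_iff.1 hx)
  have h2 : ContinuousOn (fun x : E d => f (c + r • x)) (closedBall 0 1) :=
    hf.comp (by fun_prop) h1
  obtain ⟨z, hz, e⟩ := brouwer_unit (f := fun x => r⁻¹ • (f (c + r • x) - c))
    ((h2.fun_sub continuousOn_const).fun_const_smul _) fun x hx => by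
      rw [mem_closedBall_zero_iff, norm_smul, norm_inv, Real.norm_of_nonneg hr.le,
        inv_mul_le_iff₀ hr, mul_one]
      exact mem_closedBall_iff_norm.1 (hm (h1 x hx))
  refine ⟨c + r • z, h1 z hz, ?_⟩
  have := congrArg (fun y => c + r • y) e
  simpa [smul_smul, mul_inv_cancel₀ hr.ne'] using this

/-- the push away from `z` onto the sphere of radius `t` -/
def push (z : E d) (t : ℝ) (y : E d) : E d := z + max 1 (t / ‖y - z‖) • (y - z)

theorem push_cont (z : E d) (t : ℝ) : ContinuousOn (push z t) {z}ᶜ := by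
  unfold push
  have h1 : ContinuousOn (fun y : E d => t / ‖y - z‖) {z}ᶜ :=
    continuousOn_const.div (by fun_prop) fun y hy => norm_ne_zero_iff.2 (sub_ne_zero.2 hy)
  have h2 : ContinuousOn (fun y : E d => max 1 (t / ‖y - z‖)) {z}ᶜ := continuousOn_const.sup h1
  fun_prop

theorem push_far {z y : E d} {t : ℝ} (h : t ≤ ‖y - z‖) : push z t y = y := by
  rw [push, max_eq_left (div_le_one_of_le₀ h (norm_nonneg _)), one_smul, add_sub_cancel]

theorem push_near {z y : E d} {t : ℝ} (hy : y ≠ z) (h : ‖y - z‖ < t) :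
    push z t y ∈ sphere z t := by
  have h0 : 0 < ‖y - z‖ := norm_pos_iff.2 (sub_ne_zero.2 hy)
  rw [mem_sphere_iff_norm, push, add_sub_cancel_left, max_eq_right ((one_le_div h0).2 h.le),
    norm_smul, Real.norm_of_nonneg (div_nonneg (h0.trans h).le h0.le), div_mul_cancel₀ _ h0.ne']

/-- the image of a closed ball under a continuous injective map is a neighbourhood of the image
of the centre -/
theorem image_mem_nhds {f : E d → E d} {c : E d} {r : ℝ} (hr : 0 < r)
    (hf : ContinuousOn f (closedBall c r)) (hi : InjOn f (closedBall c r)) :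
    f '' closedBall c r ∈ 𝓝 (f c) := by
  have hcm : c ∈ closedBall c r := mem_closedBall_self hr.le
  obtain ⟨G, hGc, hG⟩ : ∃ G : E d → E d, Continuous G ∧ ∀ x ∈ closedBall c r, G (f x) = x := by
    have : CompactSpace (closedBall c r) := isCompact_iff_compactSpace.1 (isCompact_closedBall c r)
    have : TietzeExtension (E d) := TietzeExtension.of_tvs ℝ
    obtain ⟨G, hG⟩ := ContinuousMap.exists_extension' (Y := E d)
      (hf.domRestrict.isClosedEmbedding hi.injective) ⟨Subtype.val, continuous_subtype_val⟩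
    exact ⟨G, G.continuous, fun x hx => congrFun hG ⟨x, hx⟩⟩
  obtain ⟨ρ, hρ, hGρ⟩ : ∃ ρ > 0, ∀ y, ‖y - f c‖ ≤ 3 * ρ → ‖G y - c‖ ≤ r / 10 := by
    obtain ⟨δ, hδ, h⟩ := Metric.continuous_iff.1 hGc (f c) (r / 10) (by positivity)
    refine ⟨δ / 4, by positivity, fun y hy => ?_⟩
    have := h y (by rw [dist_eq_norm]; linarith)
    rw [hG c hcm, dist_eq_norm] at this
    exact this.le
  obtain ⟨k, hk, hkr, hfk⟩ : ∃ k > 0, k ≤ r / 10 ∧
      ∀ x ∈ closedBall c r, ‖x - c‖ < 3 * k → ‖f x - f c‖ < ρ := by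
    obtain ⟨δ, hδ, h⟩ := Metric.continuousWithinAt_iff.1 (hf c hcm) ρ hρ
    refine ⟨min (δ / 3) (r / 10), by positivity, min_le_right _ _, fun x hx h1 => ?_⟩
    have h2 := min_le_left (δ / 3) (r / 10)
    have := h hx (by rw [dist_eq_norm]; linarith)
    rwa [dist_eq_norm] at this
  refine mem_of_superset (ball_mem_nhds _ hρ) fun z hz => ?_
  by_contra hzK
  have hz1 : ‖z - f c‖ < ρ := mem_ball_iff_norm.1 hz
  have hne : ∀ x ∈ closedBall c r, f x ≠ z := fun x hx e => hzK ⟨x, hx, e⟩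
  obtain ⟨P, hP, hPG, -⟩ := hGc.exists_contDiff_approx 1 (ε := fun _ => k) continuous_const
    fun _ => hk
  have hPG' : ∀ y, ‖P y - G y‖ < k := fun y => by rw [← dist_eq_norm]; exact hPG y
  obtain ⟨v, hv, hvP⟩ : ∃ v ∈ ball c k, v ∉ P '' sphere z (2 * ρ) := by
    by_contra hc
    push Not at hc
    have h1 : volume (P '' sphere z (2 * ρ)) = 0 :=
      addHaar_image_eq_zero_of_differentiableOn_of_addHaar_eq_zero volume
        (hP.differentiable (by simp)).differentiableOn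
        (Measure.addHaar_sphere_of_ne_zero volume z (by positivity))
    exact (measure_ball_pos volume c hk).ne' (measure_mono_null hc h1)
  have hv1 : ‖v - c‖ < k := mem_ball_iff_norm.1 hv
  obtain ⟨x, hx, e⟩ := brouwer_ball (f := fun x => x - (P (push z (2 * ρ) (f x)) - v)) hr
    (continuousOn_id.sub ((hP.continuous.comp_continuousOn
      ((push_cont z (2 * ρ)).comp hf hne)).sub continuousOn_const)) fun x hx => by
      rw [mem_closedBall_iff_norm]
      beta_reduce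
      rcases le_or_gt (2 * ρ) ‖f x - z‖ with h | h
      · have h1 := hPG' (f x)
        rw [hG x hx] at h1
        rw [push_far h, show x - (P (f x) - v) - c = (v - c) - (P (f x) - x) by abel]
        exact (norm_sub_le _ _).trans (by linarith)
      · have h1 := mem_sphere_iff_norm.1 (push_near (hne x hx) h)
        have h2 := hGρ (f x) ((norm_sub_le_norm_sub_add_norm_sub _ z _).trans (by linarith))
        have h3 := hGρ (push z (2 * ρ) (f x))
          ((norm_sub_le_norm_sub_add_norm_sub _ z _).trans (by linarith))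
        have h4 := hPG' (push z (2 * ρ) (f x))
        have h5 := norm_sub_le_norm_sub_add_norm_sub (P (push z (2 * ρ) (f x)))
          (G (push z (2 * ρ) (f x))) c
        rw [hG x hx] at h2
        rw [show x - (P (push z (2 * ρ) (f x)) - v) - c =
          ((x - c) + (v - c)) - (P (push z (2 * ρ) (f x)) - c) by abel]
        have h6 := norm_add_le (x - c) (v - c)
        exact (norm_sub_le _ _).trans (by linarith)
  have e' : P (push z (2 * ρ) (f x)) = v := by
    have := sub_eq_self.1 e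
    exact sub_eq_zero.1 this
  rcases le_or_gt (2 * ρ) ‖f x - z‖ with h | h
  · rw [push_far h] at e'
    have h1 := hPG' (f x)
    rw [hG x hx, e', norm_sub_rev] at h1
    have h2 := hfk x hx ((norm_sub_le_norm_sub_add_norm_sub _ v _).trans_lt (by linarith))
    have h3 := norm_sub_le_norm_sub_add_norm_sub (f x) (f c) z
    rw [norm_sub_rev (f c)] at h3
    linarith
  · exact hvP ⟨_, push_near (hne x hx) h, e'⟩

theorem isOpen_image {f : E d → E d} {U : Set (E d)} (hU : IsOpen U) (hf : ContinuousOn f U)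
    (hi : InjOn f U) : IsOpen (f '' U) := by
  refine isOpen_iff_mem_nhds.2 ?_
  rintro _ ⟨x, hx, rfl⟩
  obtain ⟨ε, hε, h⟩ := nhds_basis_closedBall.mem_iff.1 (hU.mem_nhds hx)
  exact mem_of_superset (image_mem_nhds hε (hf.mono h) (hi.mono h)) (image_mono h)

end Dom

theorem dom (d : ℕ) (_hd : 2 ≤ d) : DomStmt d := by
  intro f c r η hr hf hi hs
  rcases le_or_gt η 0 with hη | hη
  · rw [ball_eq_empty.2 hη]
    exact empty_subset _
  have hU := Dom.isOpen_image isOpen_ball (hf.mono ball_subset_closedBall)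
    (hi.mono ball_subset_closedBall)
  have hV : IsOpen (f '' closedBall c r)ᶜ :=
    ((isCompact_closedBall c r).image_of_continuousOn hf).isClosed.isOpen_compl
  refine (convex_ball (f c) η).isPreconnected.subset_left_of_subset_union hU hV
    (disjoint_compl_right.mono_left (image_mono ball_subset_closedBall)) (fun y hy => ?_)
    ⟨f c, mem_ball_self hη, c, mem_ball_self hr, rfl⟩
  by_cases h : y ∈ f '' closedBall c r
  · obtain ⟨x, hx, rfl⟩ := h
    refine Or.inl ⟨x, ?_, rfl⟩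
    refine lt_of_le_of_ne (mem_closedBall.1 hx) fun e => ?_
    exact absurd (mem_ball_iff_norm.1 hy) (not_lt.2 (hs x e))
  · exact Or.inr h

end Pool.Agent.MP_20bec2_an.h7

end
end MrgPart2

-- ======== part 3: formerly Pool.Agent.MP_20bec2_an.h7.Glue
section MrgPart3

/-! From the quantitative statement to a single continuous density (project BIOM). -/

set_option autoImplicit false

open MeasureTheory Set Metric Filter Topology

noncomputable section

namespace Pool.Agent.MP_20bec2_an.h7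

namespace Glue

theorem om_le {α t : ℝ} (h0 : 0 ≤ α) (h2 : α ≤ 2) (ht : 0 ≤ t) (ht1 : t < 1) :
    t * Real.log (1 / t) ^ α ≤ 16 * √t := by
  rcases ht.eq_or_lt with rfl | ht
  · simp
  obtain ⟨w, hw⟩ : ∃ w, w = √√t := ⟨_, rfl⟩
  have w0 : 0 < w := by rw [hw]; positivity
  have e1 : √t = w ^ 2 := by rw [hw, Real.sq_sqrt (Real.sqrt_nonneg t)]
  have e2 : t = w ^ 4 := by
    rw [← Real.sq_sqrt ht.le, e1]
    ring
  have w1 : w ≤ 1 := by
    by_contra hc
    have := one_le_pow₀ (n := 4) (not_le.1 hc).le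
    linarith
  have a1 : Real.log (1 / t) ≤ 4 / w := by
    have b1 := Real.log_le_sub_one_of_pos (show 0 < 1 / w by positivity)
    rw [e2, ← one_div_pow, Real.log_pow, div_eq_mul_one_div 4 w]
    push_cast
    linarith
  have a2 : 0 ≤ Real.log (1 / t) := Real.log_nonneg (by rw [le_div_iff₀ ht]; linarith)
  have a3 : (1 : ℝ) ≤ 4 / w := by rw [le_div_iff₀ w0]; linarith
  have a4 : Real.log (1 / t) ^ α ≤ (4 / w) ^ 2 := by
    refine (Real.rpow_le_rpow a2 a1 h0).trans ?_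
    rw [← Real.rpow_two]
    exact Real.rpow_le_rpow_of_exponent_le a3 h2
  refine (mul_le_mul_of_nonneg_left a4 ht.le).trans (le_of_eq ?_)
  rw [e1, e2]
  field_simp
  ring

theorem om_split {α t s : ℝ} (h0 : 0 ≤ α) (h2 : α ≤ 2) (ht : 0 ≤ t) (ht1 : t < 1) (hs : 0 < s)
    (hs1 : s ≤ 1) :
    t * Real.log (1 / t) ^ α ≤ Real.log (1 / s ^ 2) ^ α * t + 16 * s := by
  have a1 : 0 ≤ Real.log (1 / s ^ 2) := Real.log_nonneg (by
    rw [le_div_iff₀ (by positivity), one_mul]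
    exact pow_le_one₀ hs.le hs1)
  rcases le_total (s ^ 2) t with h | h
  · have t0 : 0 < t := lt_of_lt_of_le (by positivity) h
    have a2 : 0 ≤ Real.log (1 / t) := Real.log_nonneg (by rw [le_div_iff₀ t0]; linarith)
    have a3 := Real.rpow_le_rpow a2 (Real.log_le_log (by positivity)
      (one_div_le_one_div_of_le (by positivity) h)) h0
    have a4 := mul_le_mul_of_nonneg_left a3 ht
    linarith
  · have a2 := om_le h0 h2 ht ht1
    have a3 : √t ≤ s := Real.sqrt_le_iff.2 ⟨hs.le, h⟩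
    have a4 := mul_nonneg (Real.rpow_nonneg a1 α) ht
    linarith

theorem ev_log {α γ : ℝ} (h1 : α < γ) (B : ℝ) :
    ∀ᶠ N : ℕ in atTop, B * ((N : ℝ) * Real.log N) ^ α ≤ (N : ℝ) ^ γ := by
  have h := (isLittleO_log_rpow_rpow_atTop α (sub_pos.2 h1)).bound
    (show 0 < 1 / (|B| + 1) by positivity)
  filter_upwards [tendsto_natCast_atTop_atTop.eventually h, eventually_ge_atTop 1] with N hN h1
  have n0 : (0 : ℝ) < N := by exact_mod_cast h1
  have l0 := Real.log_natCast_nonneg N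
  have l1 := Real.rpow_nonneg l0 α
  rw [Real.norm_of_nonneg l1, Real.norm_of_nonneg (Real.rpow_nonneg n0.le _), one_div,
    inv_mul_eq_div, le_div_iff₀ (by positivity)] at hN
  have a1 : B * Real.log N ^ α ≤ (N : ℝ) ^ (γ - α) := by
    have := mul_le_mul_of_nonneg_right (le_abs_self B) l1
    linarith
  calc B * ((N : ℝ) * Real.log N) ^ α = (N : ℝ) ^ α * (B * Real.log N ^ α) := by
        rw [Real.mul_rpow n0.le l0]
        ring
    _ ≤ (N : ℝ) ^ α * (N : ℝ) ^ (γ - α) :=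
        mul_le_mul_of_nonneg_left a1 (Real.rpow_nonneg n0.le _)
    _ = _ := by rw [← Real.rpow_add n0, add_sub_cancel]

variable {d : ℕ}

/-- the two-sided modulus condition with given constants -/
def Md (α C t₀ : ℝ) (f : E d → E d) : Prop := ∀ x ∈ cube d, ∀ y ∈ cube d,
  (‖x - y‖ ≤ t₀ → ‖f x - f y‖ ≤ C * (‖x - y‖ * Real.log (1 / ‖x - y‖) ^ α)) ∧
  (‖f x - f y‖ ≤ t₀ → ‖x - y‖ ≤ C * (‖f x - f y‖ * Real.log (1 / ‖f x - f y‖) ^ α))

theorem cont {α C t₀ : ℝ} {f : E d → E d} (h0 : 0 ≤ α) (h2 : α ≤ 2) (hC : 0 < C) (ht : 0 < t₀)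
    (ht1 : t₀ < 1) (h : Md α C t₀ f) : ContinuousOn f (cube d) := by
  refine Metric.continuousOn_iff.2 fun x hx ε hε =>
    ⟨min t₀ ((ε / (16 * C)) ^ 2), by positivity, fun y hy hd => ?_⟩
  rw [dist_eq_norm] at hd ⊢
  obtain ⟨a1, a2⟩ := lt_min_iff.1 hd
  have a3 := mul_le_mul_of_nonneg_left (om_le h0 h2 (norm_nonneg _) (a1.trans ht1)) hC.le
  have a4 : √‖y - x‖ < ε / (16 * C) := (Real.sqrt_lt' (by positivity)).2 a2
  rw [lt_div_iff₀ (by positivity)] at a4
  linarith [(h y hy x hx).1 a1.le]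

/-- one block: a perturbation inside a ball that excludes all maps with bounded constants -/
theorem block {α γ : ℝ} (h0 : 0 ≤ α) (h1 : α < γ) (h2 : γ ≤ 3 / 2) (hc : CtxStmt d)
    (hs : ScaleStmt d) (ha : ApxStmt d) (hq : QuantStmt d γ) (c : E d) {r δ K : ℝ} (hr : 0 < r)
    (hcr : closedBall c r ⊆ cube d) (hδ : 0 < δ) (hδ1 : δ ≤ 1 / 100) (hK : 1 ≤ K) :
    ∃ h : E d → ℝ, Continuous h ∧ (∀ x, |h x| ≤ 32 * δ) ∧ (∀ x, x ∉ ball c r → h x = 0) ∧
      ∀ (ρ : E d → ℝ) (f : E d → E d) (C t₀ : ℝ), ContinuousOn ρ (cube d) →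
        (∀ x ∈ cube d, 1 / 2 ≤ ρ x ∧ ρ x ≤ 2) → (∀ x ∈ ball c r, ρ x = 1 + h x) →
        InjOn f (cube d) → 0 < C → C ≤ K → 2 * r ≤ t₀ → t₀ < 1 → Md α C t₀ f →
        ¬ ∀ B, MeasurableSet B →
          ∫⁻ x in cube d ∩ f ⁻¹' B, ENNReal.ofReal (ρ x) = volume (B ∩ f '' cube d) := by
  obtain ⟨C₀, hC₀, hc⟩ := hc
  obtain ⟨A, hA⟩ : ∃ A : ℝ, A = 2 * ((1000 * d + 7 : ℕ) : ℝ) := ⟨_, rfl⟩
  have A1 : 1 ≤ A := by
    rw [hA]
    push_cast
    linarith [Nat.cast_nonneg (α := ℝ) d]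
  obtain ⟨N, ⟨ρN, m1, m2, m3⟩, n1, n2, n3⟩ := ((hq δ hδ hδ1).and
    ((ev_log h1 (C₀ * K * A ^ α)).and ((eventually_ge_atTop 400).and
      (tendsto_natCast_atTop_atTop.eventually_ge_atTop (16 * K * C₀ / r))))).exists
  have n4 : (400 : ℝ) ≤ N := by exact_mod_cast n2
  have n0 : (0 : ℝ) < N := by linarith
  obtain ⟨x, hx⟩ : ∃ x : ℝ, x = (N : ℝ)⁻¹ := ⟨_, rfl⟩
  have x0 : 0 < x := by rw [hx]; positivity
  have x1 : x * N = 1 := by rw [hx]; field_simp
  have x2 : x ≤ 1 / 400 := by nlinarith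
  rw [← hx] at m3
  obtain ⟨s, hs'⟩ : ∃ s : ℝ, s = x ^ (1000 * d * N) := ⟨_, rfl⟩
  have s0 : 0 < s := by rw [hs']; positivity
  have s1 : s ≤ 1 := by rw [hs']; exact pow_le_one₀ x0.le (by linarith)
  obtain ⟨L, hL⟩ : ∃ L : ℝ, L = K * (A * (N * Real.log N)) ^ α := ⟨_, rfl⟩
  have l1 : 1 ≤ Real.log N := by
    rw [Real.le_log_iff_exp_le n0]
    linarith [Real.exp_one_lt_d9]
  have L1 : 1 ≤ L := by
    rw [hL]
    exact one_le_mul_of_one_le_of_one_le hK (Real.one_le_rpow (one_le_mul_of_one_le_of_one_le A1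
      (one_le_mul_of_one_le_of_one_le (by linarith) l1)) h0)
  have L2 : C₀ * L ≤ (N : ℝ) ^ γ := by
    rw [hL, Real.mul_rpow (by linarith) (by positivity)]
    linarith
  have L3 : L ^ 2 * x ^ 3 ≤ 1 := by
    have a1 : L ≤ (N : ℝ) ^ (3 / 2 : ℝ) :=
      ((le_mul_of_one_le_left (by linarith) hC₀).trans L2).trans
        (Real.rpow_le_rpow_of_exponent_le (by linarith) h2)
    have a2 := pow_le_pow_left₀ (by linarith) a1 2
    rw [← Real.rpow_natCast ((N : ℝ) ^ (3 / 2 : ℝ)), ← Real.rpow_mul n0.le,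
      show (3 / 2 : ℝ) * ((2 : ℕ) : ℝ) = ((3 : ℕ) : ℝ) by norm_num, Real.rpow_natCast] at a2
    refine (mul_le_mul_of_nonneg_right a2 (by positivity)).trans (le_of_eq ?_)
    rw [← mul_pow, mul_comm, x1, one_pow]
  have L4 : L * x ^ 2 ≤ 1 / 20 := by
    refine (pow_le_pow_iff_left₀ (by positivity) (by norm_num) two_ne_zero).1 ?_
    have := mul_le_mul L3 x2 x0.le zero_le_one
    linarith
  obtain ⟨σ, hσ⟩ : ∃ σ : ℝ, σ = r * x ^ 2 * (s * x ^ 4 / C₀) := ⟨_, rfl⟩
  have σ0 : 0 < σ := by rw [hσ]; positivity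
  have xx : x ^ 2 ≤ 1 / 400 := by nlinarith
  have σ1 : σ ≤ r * x ^ 2 := by
    rw [hσ]
    refine mul_le_of_le_one_right (by positivity) ?_
    rw [div_le_one (by linarith)]
    exact (mul_le_one₀ s1 (by positivity) (pow_le_one₀ x0.le (by linarith))).trans hC₀
  have key : ∀ C t : ℝ, 0 < C → C ≤ K → 0 ≤ t → t < 1 →
      C * (t * Real.log (1 / t) ^ α) ≤ L * t + σ := by
    intro C t c1 c2 c3 c4
    have a0 : 0 < x ^ ((1000 * d + 7) * N) := by positivity
    have a1 := om_split h0 (by linarith) c3 c4 a0 (pow_le_one₀ x0.le (by linarith))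
    have a2 : Real.log (1 / (x ^ ((1000 * d + 7) * N)) ^ 2) = A * (N * Real.log N) := by
      rw [hx, ← pow_mul, inv_pow, one_div, inv_inv, Real.log_pow, hA]
      push_cast
      ring
    have a3 : x ^ ((1000 * d + 7) * N) ≤ s * x ^ 7 := by
      rw [add_mul, pow_add, hs']
      exact mul_le_mul_of_nonneg_left
        (pow_le_pow_of_le_one x0.le (by linarith) (by omega)) (by positivity)
    have a4 : 16 * K * x ≤ r / C₀ := by
      rw [div_le_iff₀ hr] at n3
      rw [le_div_iff₀ (by linarith)]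
      have := mul_le_mul_of_nonneg_left n3 x0.le
      rw [← mul_assoc x (N : ℝ), x1] at this
      linarith
    have a5 : K * (16 * (s * x ^ 7)) ≤ σ := by
      have := mul_le_mul_of_nonneg_right a4 (show 0 ≤ s * x ^ 6 by positivity)
      rw [hσ]
      calc _ = 16 * K * x * (s * x ^ 6) := by ring
        _ ≤ _ := this
        _ = _ := by ring
    rw [a2] at a1
    have a6 : 0 ≤ (A * (N * Real.log N)) ^ α * t + 16 * (s * x ^ 7) := by positivity
    have a7 := mul_le_mul_of_nonneg_left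
      (a1.trans (add_le_add le_rfl (mul_le_mul_of_nonneg_left a3 (by norm_num)))) c1.le
    have a8 := mul_le_mul_of_nonneg_right c2 a6
    rw [hL]
    linarith
  have lam0 : 0 < r * x ^ 2 := by positivity
  have lam1 : r * x ^ 2 ≤ r * (1 / 400) := mul_le_mul_of_nonneg_left xx hr.le
  have mm : Measurable fun z : E d => ρN ((r * x ^ 2)⁻¹ • z) :=
    m1.comp (measurable_const_smul _)
  obtain ⟨h, b1, b2, b3, b4⟩ := ha (fun z => ρN ((r * x ^ 2)⁻¹ • z) - 1) c r (32 * δ)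
    (σ * (r * x ^ 2 * s) ^ d) (mm.sub measurable_const) (fun z => m2 _) (by positivity)
  refine ⟨h, b1, b2, b3, fun ρ f C t₀ c1 c2 c3 c4 c5 c6 c7 c8 c9 c10 => ?_⟩
  obtain ⟨Ψ, hΨ⟩ := hc f ρ (fun z => ρN ((r * x ^ 2)⁻¹ • z)) c r L σ (8 * (r * x ^ 2))
    (r * x ^ 2 * s) hcr (cont h0 (by linarith) c5 (by linarith) c8 c9) c4 c1 c2 mm
    (fun z => by
      have := abs_le.1 (m2 ((r * x ^ 2)⁻¹ • z))
      constructor <;> linarith [this.1, this.2])
    c10 L1 σ0 (by positivity) (by linarith)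
    (by
      have := mul_le_mul_of_nonneg_left L4 hr.le
      linarith)
    (by positivity)
    (fun z hz z' hz' => by
      have a1 : ‖z - z'‖ ≤ t₀ := by
        have := dist_triangle_right z z' c
        rw [← dist_eq_norm]
        linarith [mem_closedBall.1 hz, mem_closedBall.1 hz']
      exact ((c9 z (hcr hz) z' (hcr hz')).1 a1).trans
        (key C _ c5 c6 (norm_nonneg _) (a1.trans_lt c8)))
    (fun z hz z' hz' e => by
      have a1 : ‖f z - f z'‖ ≤ t₀ := by linarith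
      exact ((c9 z (hcr hz) z' (hcr hz')).2 a1).trans
        (key C _ c5 c6 (norm_nonneg _) (a1.trans_lt c8)))
    (by
      refine le_trans (le_of_eq (setIntegral_congr_fun measurableSet_ball fun z hz => ?_)) b4
      simp only [c3 z hz]
      congr 1
      ring)
  have d1 := hs.1 _ _ _ _ _ _ _ lam0 (by linarith) (by positivity) hΨ
  simp only [inv_smul_smul₀ lam0.ne'] at d1
  rw [← hs'] at m3
  refine m3 _ _ ((r * x ^ 2)⁻¹ • f c) (hs.2 _ _ _ _ _ _ _ _ _ L2 ?_ ?_ d1) fun y hy => ?_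
  · rw [div_le_iff₀ lam0, hσ]
    have a1 : L ^ 2 * x ^ 3 * x ≤ 1 := mul_le_one₀ L3 x0.le (by linarith)
    have a2 := mul_le_mul_of_nonneg_right a1 (show 0 ≤ s * (r * x ^ 2) by positivity)
    calc _ = L ^ 2 * x ^ 3 * x * (s * (r * x ^ 2)) := by
          field_simp
      _ ≤ _ := by linarith
  · rw [mul_div_cancel_left₀ _ lam0.ne']
  · rw [mem_ball, dist_eq_norm] at hy
    change (r * x ^ 2) • y ∈ ball (f c) _
    rw [mem_ball, dist_eq_norm, ← smul_inv_smul₀ lam0.ne' (f c), ← smul_sub, norm_smul,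
      Real.norm_of_nonneg lam0.le, mul_comm 8]
    exact mul_lt_mul_of_pos_left hy lam0

/-- the centres of the blocks -/
def cen (d j : ℕ) : E d := WithLp.toLp 2 fun _ => (1 / 2 : ℝ) ^ j / 2

theorem near {j : ℕ} {x : E d} (h : x ∈ closedBall (cen d j) ((1 / 2) ^ j / 16)) (i : Fin d) :
    (1 / 2) ^ j * (7 / 16) ≤ x i ∧ x i ≤ (1 / 2) ^ j * (9 / 16) := by
  have h1 := (PiLp.dist_apply_le x (cen d j) i).trans (mem_closedBall.1 h)
  rw [Real.dist_eq, abs_le] at h1
  change _ ≤ x i - (1 / 2) ^ j / 2 ∧ x i - (1 / 2) ^ j / 2 ≤ _ at h1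
  constructor <;> linarith [h1.1, h1.2]

theorem uniq (hd : 2 ≤ d) {j k : ℕ} {x : E d} (h : x ∈ ball (cen d j) ((1 / 2) ^ j / 16))
    (h' : x ∈ ball (cen d k) ((1 / 2) ^ k / 16)) : j = k := by
  have a1 := near (ball_subset_closedBall h) ⟨0, by omega⟩
  have a2 := near (ball_subset_closedBall h') ⟨0, by omega⟩
  have key : ∀ {m n : ℕ}, m < n → (1 / 2 : ℝ) ^ n * (9 / 16) < (1 / 2) ^ m * (7 / 16) := by
    intro m n e
    have b1 : (1 / 2 : ℝ) ^ n ≤ (1 / 2) ^ (m + 1) :=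
      pow_le_pow_of_le_one (by norm_num) (by norm_num) e
    have b2 : (0 : ℝ) < (1 / 2) ^ m := by positivity
    rw [pow_succ] at b1
    linarith
  rcases lt_trichotomy j k with e | e | e
  · linarith [key e, a1.1, a2.2]
  · exact e
  · linarith [key e, a1.2, a2.1]

end Glue

open Glue in
theorem glue (d : ℕ) (hd : 2 ≤ d) (α γ : ℝ) (h0 : 0 ≤ α) (h1 : α < γ) (h2 : γ ≤ 3 / 2)
    (hc : CtxStmt d) (hs : ScaleStmt d) (ha : ApxStmt d) (hq : QuantStmt d γ) : MainStmt d α := by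
  have p0 : ∀ j : ℕ, (0 : ℝ) < (1 / 2) ^ j := fun j => by positivity
  have p1 : ∀ j : ℕ, (1 / 2 : ℝ) ^ j ≤ 1 := fun j => pow_le_one₀ (by norm_num) (by norm_num)
  choose h b1 b2 b3 b4 using fun j : ℕ => block h0 h1 h2 hc hs ha hq (cen d j)
    (r := (1 / 2) ^ j / 16) (δ := (1 / 2) ^ j / 200) (K := j + 1) (by positivity)
    (fun x hx i => by
      have := near hx i
      constructor <;> linarith [this.1, this.2, p0 j, p1 j])
    (by positivity) (by linarith [p1 j]) (by linarith [Nat.cast_nonneg (α := ℝ) j])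
  have e1 : ∀ j, ∀ x ∈ ball (cen d j) ((1 / 2) ^ j / 16), ∑' k, h k x = h j x := fun j x hx =>
    tsum_eq_single j fun k e => b3 k x fun h' => e (uniq hd h' hx)
  have e2 : ∀ x, 1 / 2 ≤ 1 + ∑' k, h k x ∧ 1 + ∑' k, h k x ≤ 2 := fun x => by
    by_cases e : ∃ j, x ∈ ball (cen d j) ((1 / 2) ^ j / 16)
    · obtain ⟨j, hj⟩ := e
      have := abs_le.1 (b2 j x)
      rw [e1 j x hj]
      constructor <;> linarith [this.1, this.2, p1 j]
    · rw [tsum_congr fun k => b3 k x fun h' => e ⟨k, h'⟩, tsum_zero]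
      norm_num
  have e3 : ContinuousOn (fun x => 1 + ∑' k, h k x) (cube d) :=
    (continuous_const.add (continuous_tsum b1
      ((summable_geometric_two.div_const 200).mul_left 32) b2)).continuousOn
  refine ⟨_, e3, fun x _ => by linarith [(e2 x).1], ?_⟩
  rintro ⟨f, c1, ⟨C, t₀, c2, c3, c4, c5⟩, c6⟩
  obtain ⟨j, d1, d2⟩ := ((tendsto_natCast_atTop_atTop.eventually_ge_atTop C).and
    ((tendsto_pow_atTop_nhds_zero_of_lt_one (r := (1 / 2 : ℝ)) (by norm_num)
      (by norm_num)).eventually_le_const c3)).exists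
  exact b4 j _ f C t₀ e3 (fun x _ => e2 x) (fun x hx => by rw [e1 j x hx]) c1 c2 (by linarith)
    (by linarith [p0 j]) c4 c5 c6

end Pool.Agent.MP_20bec2_an.h7

end
end MrgPart3

-- ======== part 4: formerly Pool.Agent.MP_20bec2_an.h7.LowM
section MrgPart4

/-! Monotonicity of means and the lower bound for the stretch (project BIOM). -/

set_option autoImplicit false

open MeasureTheory Set Metric Filter Topology

noncomputable section

namespace Pool.Agent.MP_20bec2_an.h7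

/-- the mean of an affine majorant -/
theorem LowM.cv_le_aff {d : ℕ} {G K : E d → ℝ} (hG : Continuous G) (hK : Continuous K) {a c : ℝ}
    {y : E d} (h : ∀ z ∈ closedBall y 1, G z ≤ a + c * K z) : cv 1 G y ≤ a + c * cv 1 K y := by
  have hc : Continuous fun z => c * K z := continuous_const.mul hK
  have hc' : Continuous fun z => a + c * K z := continuous_const.add hc
  have h1 := cv_mono hG hc' zero_le_one h
  rwa [cv_add continuous_const hc, cv_const, cv_const_mul] at h1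

theorem mono (d : ℕ) (_hd : 2 ≤ d) : MonoStmt d := by
  refine small_iff.2 ?_
  filter_upwards [ev_pos, ev_mul_le (2 + Cw d)] with ε h0 hC
  intro G Bd y₀ hG hB hB0 hE
  have hCw : 1 ≤ Cw d := one_le_Cw
  have h1 : ε ≤ 1 / 3 := by nlinarith
  have h1' : ε ≤ 1 := by linarith
  have hex : ∃ y ∈ closedBall y₀ 1, Bd y < 1 := by
    by_contra hne
    push Not at hne
    have h2 := cv_mono (G := fun _ => (1 : ℝ)) continuous_const hB zero_le_one hne
    rw [cv_const] at h2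
    have h3 : ε ^ 12 < 1 := pow_lt_one₀ h0.le (by linarith) (by norm_num)
    linarith
  refine ⟨hex, fun H hGb hH => ?_⟩
  obtain ⟨y₁, hy₁, hb₁⟩ := hex
  have hs : (0 : ℝ) ≤ ε ^ 160 := by positivity
  have hcv : ∀ z, |cv (ε ^ 160) G z| ≤ ε⁻¹ ^ 6 := fun z =>
    norm_cv_le (G := G) hs fun w _ => hGb w
  have hH0 : -ε⁻¹ ^ 6 ≤ H := (abs_le.1 (hcv y₁)).1.trans (hH y₁ hy₁ hb₁)
  have hp : (0 : ℝ) ≤ ε⁻¹ ^ 6 := by positivity
  have h2 : cv 1 (cv (ε ^ 160) G) y₀ ≤ H + 2 * ε⁻¹ ^ 6 * cv 1 Bd y₀ := by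
    refine LowM.cv_le_aff (continuous_cv hG _) hB fun z hz => ?_
    rcases lt_or_ge (Bd z) 1 with h | h
    · have := hH z hz h
      have : 0 ≤ 2 * ε⁻¹ ^ 6 * Bd z := mul_nonneg (by positivity) (hB0 z)
      linarith
    · have := (abs_le.1 (hcv z)).2
      nlinarith
  have h3 := cv_cv hG one_pos hs (B := ε⁻¹ ^ 6) hGb y₀
  rw [Real.norm_eq_abs, div_one] at h3
  have h4 : 2 * ε⁻¹ ^ 6 * cv 1 Bd y₀ ≤ 2 * ε ^ 6 := by
    calc 2 * ε⁻¹ ^ 6 * cv 1 Bd y₀ ≤ 2 * ε⁻¹ ^ 6 * ε ^ 12 :=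
          mul_le_mul_of_nonneg_left hE (by positivity)
      _ = 2 * ε ^ 6 := by field_simp
  have h5 : Cw d * ε⁻¹ ^ 6 * ε ^ 160 ≤ Cw d * ε ^ 6 := by
    have : ε⁻¹ ^ 6 * ε ^ 160 = ε ^ 154 := by field_simp
    rw [mul_assoc, this]
    exact mul_le_mul_of_nonneg_left (pow_le_pow_of_le_one h0.le h1' (by norm_num)) (by linarith)
  have h6 := mul_pow_le h0 h1' hC (show 5 < 6 by norm_num)
  have h7 := (abs_le.1 h3).1
  linarith

namespace LowM

variable {d : ℕ}

/-- a bound for all coordinates bounds the derivative of the smoothed map -/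
theorem norm_dd_le {Ψ : E d → E d} (hΨ : ContDiff ℝ 1 Ψ) {s a : ℝ} {u z : E d}
    (h : ∀ f : E d, ‖f‖ = 1 → cv s (dd (co f Ψ) u) z ≤ a) : ‖dd (cv s Ψ) u z‖ ≤ max a 0 := by
  set w := dd (cv s Ψ) u z with hw
  by_cases h0 : w = 0
  · rw [h0, norm_zero]; exact le_max_right _ _
  have hn : 0 < ‖w‖ := norm_pos_iff.2 h0
  have hf : ‖‖w‖⁻¹ • w‖ = 1 := by
    rw [norm_smul, norm_inv, norm_norm, inv_mul_cancel₀ hn.ne']
  have h1 := h _ hf
  have hc : ContDiff ℝ 1 (co (‖w‖⁻¹ • w) Ψ) := (innerSL ℝ (‖w‖⁻¹ • w)).contDiff.comp hΨ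
  rw [← dd_cv hc, show cv s (co (‖w‖⁻¹ • w) Ψ) = co (‖w‖⁻¹ • w) (cv s Ψ) from
    funext fun y => cv_co hΨ.continuous _ s y, dd_co (contDiff_cv hΨ s), ← hw, inner_smul_left,
    real_inner_self_eq_norm_sq] at h1
  refine le_trans (le_of_eq ?_) (h1.trans (le_max_left _ _))
  simp only [conj_trivial]
  field_simp

/-- the increment along a segment -/
theorem incr_le {P : E d → E d} (hP : ContDiff ℝ 1 P) {b : E d → ℝ} (hb : Continuous b)
    {t A L : ℝ} (ht : 0 ≤ t) {u y : E d}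
    (h : ∀ τ ∈ Icc 0 t, ‖dd P u (y + τ • u)‖ ≤ A + L * b (y + τ • u)) :
    ‖P (y + t • u) - P y‖ ≤ t * A + L * ∫ τ in (0 : ℝ)..t, b (y + τ • u) := by
  have hc : Continuous fun τ : ℝ => dd P u (y + τ • u) := (continuous_dd hP u).comp (by fun_prop)
  have hc' : Continuous fun τ : ℝ => L * b (y + τ • u) :=
    continuous_const.mul (hb.comp (by fun_prop))
  have h1 := intervalIntegral.integral_eq_sub_of_hasDerivAt (a := 0) (b := t)
    (f := fun τ : ℝ => P (y + τ • u)) (f' := fun τ => dd P u (y + τ • u))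
    (fun τ _ => hasDerivAt_line hP u y τ) (hc.intervalIntegrable _ _)
  rw [zero_smul, add_zero] at h1
  rw [← h1]
  have h2 := intervalIntegral.norm_integral_le_of_norm_le (μ := volume) ht
    (f := fun τ => dd P u (y + τ • u)) (g := fun τ => A + L * b (y + τ • u))
    (Eventually.of_forall fun τ hτ => h τ (Ioc_subset_Icc_self hτ))
    ((continuous_const.add hc').intervalIntegrable _ _)
  rw [intervalIntegral.integral_add intervalIntegrable_const
    (hc'.intervalIntegrable _ _), intervalIntegral.integral_const,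
    intervalIntegral.integral_const_mul, sub_zero, smul_eq_mul] at h2
  exact h2

/-- the mean of a segment integral -/
theorem cv_seg_le {b : E d → ℝ} (hb : Continuous b) {B t : ℝ} (hB : ∀ z, |b z| ≤ B) (ht : 0 ≤ t)
    {u : E d} (hu : ‖u‖ = 1) (y : E d) :
    cv 1 (fun z => ∫ τ in (0 : ℝ)..t, b (z + τ • u)) y ≤ t * (cv 1 b y + Cw d * B * t) := by
  have hB0 : 0 ≤ B := (abs_nonneg _).trans (hB 0)
  have hC : 0 ≤ Cw d := zero_le_one.trans one_le_Cw
  rw [cv_intervalIntegral (G := fun τ z => b (z + τ • u)) (hb.comp (by fun_prop))]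
  simp only [cv_shift]
  have hc : Continuous fun τ : ℝ => cv 1 b (y + τ • u) := (continuous_cv hb 1).comp (by fun_prop)
  have h1 := intervalIntegral.integral_mono_on (μ := volume) ht (hc.intervalIntegrable _ _)
    (intervalIntegrable_const (c := cv 1 b y + Cw d * B * t)) fun τ hτ => by
      have h3 := cv_lip hb one_pos hB (y + τ • u) y
      rw [add_sub_cancel_left, norm_smul, hu, mul_one, div_one, Real.norm_eq_abs,
        Real.norm_of_nonneg hτ.1] at h3
      have h4 : Cw d * B * τ ≤ Cw d * B * t := mul_le_mul_of_nonneg_left hτ.2 (by positivity)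
      linarith [(abs_le.1 h3).2]
  rwa [intervalIntegral.integral_const, sub_zero, smul_eq_mul] at h1

/-- the final count of powers -/
theorem final {ε L A K σ : ℝ} (h0 : 0 < ε) (h1 : ε ≤ 1 / 10) (hL : 1 ≤ L) (hLε : L * ε ≤ 1)
    (hA : A ≤ ε ^ 2) (hK : K ≤ ε ^ 20 * (2 * ε ^ 12)) (hσ : σ ≤ ε ^ 400)
    (h : ε ^ 20 ≤ L * (ε ^ 20 * A + 2 * (L * ε ^ 160)) + σ + L * L * K) : False := by
  have h1' : ε ≤ 1 := by linarith
  have ht : 0 < ε ^ 20 := by positivity
  have hL0 : 0 ≤ L := by linarith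
  have hLL : L * ε * (L * ε) ≤ 1 := by
    have : 0 ≤ L * ε := by positivity
    nlinarith
  have a1 : L * (ε ^ 20 * A) ≤ ε ^ 20 * ε := by
    calc L * (ε ^ 20 * A) ≤ L * (ε ^ 20 * ε ^ 2) := by gcongr
      _ = L * ε * (ε ^ 20 * ε) := by ring
      _ ≤ 1 * (ε ^ 20 * ε) := by gcongr
      _ = _ := one_mul _
  have a2 : L * (2 * (L * ε ^ 160)) ≤ ε ^ 20 * (2 * ε) := by
    have e1 : ε ^ 137 ≤ 1 := pow_le_one₀ h0.le h1'
    calc L * (2 * (L * ε ^ 160)) = L * ε * (L * ε) * ε ^ 137 * (ε ^ 20 * (2 * ε)) := by ring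
      _ ≤ 1 * 1 * (ε ^ 20 * (2 * ε)) := by gcongr
      _ = _ := by ring
  have a3 : σ ≤ ε ^ 20 * ε := by
    rw [← pow_succ]
    exact hσ.trans (pow_le_pow_of_le_one h0.le h1' (by norm_num))
  have a4 : L * L * K ≤ ε ^ 20 * (2 * ε) := by
    have e1 : ε ^ 9 ≤ 1 := pow_le_one₀ h0.le h1'
    calc L * L * K ≤ L * L * (ε ^ 20 * (2 * ε ^ 12)) := by gcongr
      _ = L * ε * (L * ε) * ε ^ 9 * (ε ^ 20 * (2 * ε)) := by ring
      _ ≤ 1 * 1 * (ε ^ 20 * (2 * ε)) := by gcongr
      _ = _ := by ring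
  nlinarith

end LowM

theorem low (d : ℕ) (hd : 2 ≤ d) (h : BadStmt d) : LowStmt d := by
  refine small_iff.2 ?_
  filter_upwards [ev_pos, ev_mul_le 10, ev_mul_le (Cw d), small_iff.1 h] with ε h0 h10 hC hbad
  intro δ L a S Ψ y₀ hL hLε hloc ha
  have hE := hbad δ L S Ψ y₀ hL hLε hloc
  obtain ⟨Y, ρ, N, hctx, hY, -, -⟩ := hloc
  by_contra hlt
  have h1 : ε ≤ 1 / 10 := by linarith
  have h1' : ε ≤ 1 := by linarith
  have h2 : ε ≤ 1 / 2 := by linarith
  have hsm := hctx.sm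
  set u : E d := ax ⟨0, by omega⟩ with hu'
  have hu : ‖u‖ = 1 := norm_ax _
  have ht : (0 : ℝ) < ε ^ 20 := by positivity
  have ht1 : ε ^ 20 ≤ 1 := pow_le_one₀ h0.le h1'
  have hs : (0 : ℝ) ≤ ε ^ 160 := by positivity
  have hb : Continuous fun y => Bad S (Ψ y) := (continuous_Bad h0 h2 S).comp hsm.cont
  have hP : Sm L (cv (ε ^ 160) Ψ) := hsm.cv _
  have hdd : ∀ z ∈ ball y₀ 4, ‖dd (cv (ε ^ 160) Ψ) u z‖ ≤ max a 0 + L * Bad S (Ψ z) := by
    intro z hz
    have b0 := (Bad_mem h0 S (Ψ z)).1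
    rcases lt_or_ge (Bad S (Ψ z)) 1 with hb1 | hb1
    · have := LowM.norm_dd_le hsm.cd1 fun f hf => ha z hz (far_of_Bad h0 h2 S hb1) f u hf hu
      have : 0 ≤ L * Bad S (Ψ z) := mul_nonneg (by linarith) b0
      linarith
    · have := hP.dd_le hu z
      have := le_max_right a 0
      nlinarith
  have hmem : ∀ y ∈ closedBall y₀ 1, ∀ τ ∈ Icc (0 : ℝ) (ε ^ 20), y + τ • u ∈ ball y₀ 4 := by
    intro y hy τ hτ
    rw [mem_closedBall, dist_eq_norm] at hy
    rw [mem_ball, dist_eq_norm, add_sub_right_comm]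
    have := norm_add_le (y - y₀) (τ • u)
    rw [norm_smul, hu, mul_one, Real.norm_of_nonneg hτ.1] at this
    linarith [hτ.2]
  have hsub : ball y₀ 4 ⊆ Y := (ball_subset_ball (by norm_num)).trans hY
  have hK : Continuous fun z : E d => ∫ τ in (0 : ℝ)..ε ^ 20, Bad S (Ψ (z + τ • u)) :=
    intervalIntegral.continuous_parametric_intervalIntegral_of_continuous'
      (f := fun (z : E d) (τ : ℝ) => Bad S (Ψ (z + τ • u))) (hb.comp (by fun_prop)) _ _
  have hpt : ∀ y ∈ closedBall y₀ 1, ε ^ 20 ≤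
      (L * (ε ^ 20 * max a 0 + 2 * (L * ε ^ 160)) + ε ^ (200 * d)) +
        L * L * ∫ τ in (0 : ℝ)..ε ^ 20, Bad S (Ψ (y + τ • u)) := by
    intro y hy
    have m1 := hmem y hy (ε ^ 20) ⟨ht.le, le_rfl⟩
    have m0 := hmem y hy 0 ⟨le_rfl, ht.le⟩
    rw [zero_smul, add_zero] at m0
    have i1 := hctx.inv _ (hsub m1) _ (hsub m0)
    rw [add_sub_cancel_left, norm_smul, hu, mul_one, Real.norm_of_nonneg ht.le] at i1
    have i2 := LowM.incr_le hP.cd1 hb ht.le (u := u) (y := y) (A := max a 0) (L := L)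
      fun τ hτ => hdd _ (hmem y hy τ hτ)
    have i3 := hsm.cv_sub hs (y + ε ^ 20 • u)
    have i4 := hsm.cv_sub hs y
    have i5 : ‖Ψ (y + ε ^ 20 • u) - Ψ y‖ ≤
        ‖cv (ε ^ 160) Ψ (y + ε ^ 20 • u) - cv (ε ^ 160) Ψ y‖ + 2 * (L * ε ^ 160) := by
      have e : Ψ (y + ε ^ 20 • u) - Ψ y = (cv (ε ^ 160) Ψ (y + ε ^ 20 • u) - cv (ε ^ 160) Ψ y) -
          (cv (ε ^ 160) Ψ (y + ε ^ 20 • u) - Ψ (y + ε ^ 20 • u)) + (cv (ε ^ 160) Ψ y - Ψ y) := by
        abel
      rw [e]
      refine (norm_add_le _ _).trans ?_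
      have := norm_sub_le (cv (ε ^ 160) Ψ (y + ε ^ 20 • u) - cv (ε ^ 160) Ψ y)
        (cv (ε ^ 160) Ψ (y + ε ^ 20 • u) - Ψ (y + ε ^ 20 • u))
      linarith
    have i6 := mul_le_mul_of_nonneg_left (i5.trans (add_le_add_left i2 _)) (by linarith : 0 ≤ L)
    nlinarith
  have hm := LowM.cv_le_aff (G := fun _ => ε ^ 20) continuous_const hK hpt
  rw [cv_const] at hm
  have hseg := LowM.cv_seg_le hb (B := ε⁻¹ ^ 7)
    (fun z => by rw [abs_of_nonneg (Bad_mem h0 S _).1]; exact (Bad_mem h0 S _).2) ht.le hu y₀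
  have e1 : Cw d * ε⁻¹ ^ 7 * ε ^ 20 ≤ ε ^ 12 := by
    have : ε⁻¹ ^ 7 * ε ^ 20 = ε ^ 13 := by field_simp
    rw [mul_assoc, this]
    exact mul_pow_le h0 h1' hC (by norm_num)
  refine LowM.final h0 h1 hL hLε (A := max a 0) (max_le (not_le.1 hlt).le (by positivity))
    (hseg.trans (mul_le_mul_of_nonneg_left (by linarith) ht.le))
    (pow_le_pow_of_le_one h0.le h1' (by omega)) hm

end Pool.Agent.MP_20bec2_an.h7

end
end MrgPart4

-- ======== part 5: formerly Pool.Agent.MP_20bec2_an.h7.MesoA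
section MrgPart5

/-! The mesoscopic mass of a return weight. -/

set_option autoImplicit false

open MeasureTheory Set Metric Filter Topology

noncomputable section

namespace Pool.Agent.MP_20bec2_an.h7

namespace MesoA

variable {d : ℕ}

theorem int_mul {ϑ G : E d → ℝ} {B : ℝ} (hϑ : Integrable ϑ) (hG : Measurable G)
    (hB : ∀ x, |G x| ≤ B) : Integrable fun x => ϑ x * G x :=
  hϑ.mul_bdd hG.aestronglyMeasurable (Eventually.of_forall hB)

theorem abs_int_le {f g : E d → ℝ} (hg : Integrable g) (h : ∀ x, |f x| ≤ g x) :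
    |∫ x, f x| ≤ ∫ x, g x :=
  norm_integral_le_of_norm_le (f := f) hg (Eventually.of_forall h)

/-- replacing the density by its main term -/
theorem err {ϑ G ρ dv fi : E d → ℝ} {B Bd Bf : ℝ} (hϑ : Integrable ϑ) (h0 : ∀ x, 0 ≤ ϑ x)
    (hG : Measurable G) (hB : ∀ x, |G x| ≤ B) (hρ : Measurable ρ) (hρb : ∀ x, |ρ x| ≤ 2)
    (hd : Measurable dv) (hdb : ∀ x, |dv x| ≤ Bd) (hf : Measurable fi) (hfb : ∀ x, |fi x| ≤ Bf)
    (h : ∀ x, ϑ x ≠ 0 → |ρ x - 1 - dv x| ≤ fi x) :
    |(∫ x, ϑ x * G x * ρ x) - (∫ x, ϑ x * G x) - ∫ x, ϑ x * G x * dv x| ≤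
      B * ∫ x, ϑ x * fi x := by
  have i1 := int_mul hϑ hG hB
  have i2 := int_mul i1 hρ hρb
  have i3 := int_mul i1 hd hdb
  have i4 : Integrable fun x => ϑ x * G x * ρ x - ϑ x * G x := i2.sub i1
  rw [← integral_sub i2 i1, ← integral_sub i4 i3, ← integral_const_mul]
  refine abs_int_le ((int_mul hϑ hf hfb).const_mul B) fun x => ?_
  by_cases hx : ϑ x = 0
  · simp [hx]
  have e : ϑ x * G x * ρ x - ϑ x * G x - ϑ x * G x * dv x = G x * (ϑ x * (ρ x - 1 - dv x)) := by
    ring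
  rw [e, abs_mul, abs_mul, abs_of_nonneg (h0 x)]
  exact mul_le_mul (hB x) (mul_le_mul_of_nonneg_left (h x hx) (h0 x))
    (mul_nonneg (h0 x) (abs_nonneg _)) ((abs_nonneg _).trans (hB x))

theorem cont_of_lip {G : E d → ℝ} {K : ℝ} (h : ∀ x x', |G x - G x'| ≤ K * ‖x - x'‖) :
    Continuous G :=
  (LipschitzWith.of_dist_le' (K := K) fun x y => by
    rw [Real.dist_eq, dist_eq_norm]; exact h x y).continuous

theorem meas_pair (e' e : E d) : Measurable fun x : E d => ((inner ℝ e' x, inner ℝ e x) : ℝ × ℝ) :=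
  (by fun_prop : Continuous fun x : E d => ((inner ℝ e' x, inner ℝ e x) : ℝ × ℝ)).measurable

theorem core (h3 : OscStmt d) {ϑ ρ fi g : E d → ℝ} {m P : ℝ × ℝ → ℝ}
    {e' e : E d} {C n δ r₁ r₂ o K Bf φ g₀ η : ℝ} (hϑ : Integrable ϑ) (h0 : ∀ x, 0 ≤ ϑ x)
    (hI : ∫ x, ϑ x ≤ 2) (hρ : Measurable ρ) (hρb : ∀ x, |ρ x| ≤ 2) (hf : Measurable fi)
    (hfb : ∀ x, |fi x| ≤ Bf) (hφ : ∫ x, ϑ x * fi x ≤ φ) (hg : ∀ x, |g x| ≤ 2) (hK : 0 ≤ K)
    (hgl : ∀ x x', |g x - g x'| ≤ K * ‖x - x'‖) (hm : Measurable m) (hmb : ∀ z, |m z| ≤ C)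
    (hmi : ∀ z : ℝ × ℝ, ∫ s in (0 : ℝ)..r₁, ∫ t in (0 : ℝ)..r₂, m (z.1 + s, z.2 + t) = n * r₁ * r₂)
    (hP : Measurable P) (hPb : ∀ z, |P z| ≤ 1)
    (hPi : ∀ z : ℝ × ℝ, ∫ s in (0 : ℝ)..r₁, ∫ t in (0 : ℝ)..r₂, P (z.1 + s, z.2 + t) =
      1 / 16 * r₁ * r₂) (hmP : ∀ z, m z * P z = 0) (hr₂ : 0 < r₂) (hr : r₂ ≤ r₁) (hon : ON e' e)
    (ho : Osc ϑ r₁ o) (hδ : 0 ≤ δ) (hδ' : δ ≤ 1 / 16)
    (hdev : ∀ x, ϑ x ≠ 0 → |ρ x - 1 - 16 * δ * g x * P (inner ℝ e' x, inner ℝ e x)| ≤ fi x)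
    (hη : 0 ≤ η) (hg0 : ∀ x, ϑ x ≠ 0 → |g x - g₀| ≤ η) :
    |(∫ x, ϑ x * m (inner ℝ e' x, inner ℝ e x) * ρ x) - n * ∫ x, ϑ x| ≤ C * φ + 2 * C * o ∧
      |(∫ x, ϑ x * 1 * ρ x) - (1 + δ * g₀) * ∫ x, ϑ x| ≤ φ + 2 * (2 * o + 2 * K * r₁) + η := by
  have hC : 0 ≤ C := (abs_nonneg _).trans (hmb 0)
  have hgm : Measurable g := (cont_of_lip hgl).measurable
  have hd : Measurable fun x => 16 * δ * g x * P (inner ℝ e' x, inner ℝ e x) :=
    (hgm.const_mul _).mul (hP.comp (meas_pair e' e))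
  have hdb : ∀ x, |16 * δ * g x * P (inner ℝ e' x, inner ℝ e x)| ≤ 2 := fun x => by
    rw [abs_mul, abs_mul, abs_of_nonneg (by positivity : 0 ≤ 16 * δ)]
    have b1 : 16 * δ * |g x| ≤ 2 := (mul_le_of_le_one_left (abs_nonneg _) (by linarith)).trans (hg x)
    exact (mul_le_of_le_one_right (by positivity) (hPb _)).trans b1
  constructor
  · have a1 := err hϑ h0 (hm.comp (meas_pair e' e)) (fun x => hmb _) hρ hρb hd hdb hf hfb hdev
    have a2 := Xs.avg2F hϑ hm hr₂ hr hmb hon hmi ho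
    have a3 : ∫ x, ϑ x * m (inner ℝ e' x, inner ℝ e x) *
        (16 * δ * g x * P (inner ℝ e' x, inner ℝ e x)) = 0 := by
      rw [← integral_zero (E d) ℝ (μ := volume)]
      refine integral_congr_ae (Eventually.of_forall fun x => ?_)
      have := hmP (inner ℝ e' x, inner ℝ e x)
      calc _ = ϑ x * (16 * δ * g x) *
            (m (inner ℝ e' x, inner ℝ e x) * P (inner ℝ e' x, inner ℝ e x)) := by ring
        _ = 0 := by rw [this, mul_zero]
    simp only [Function.comp] at a1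
    rw [a3, sub_zero] at a1
    have a4 := mul_le_mul_of_nonneg_left hφ hC
    rw [abs_le] at a1 a2 ⊢
    constructor <;> linarith [a1.1, a1.2, a2.1, a2.2]
  · have a1 := err (G := fun _ => 1) (B := 1) hϑ h0 measurable_const (fun _ => by simp) hρ hρb hd
      hdb hf hfb hdev
    have ig := int_mul hϑ hgm hg
    have b1 := h3 ϑ g r₁ o 2 K hϑ hK hg hgl ho
    have a2 := Xs.avg2F ig hP hr₂ hr hPb hon hPi b1
    have e1 : ∫ x, |ϑ x| = ∫ x, ϑ x :=
      integral_congr_ae (Eventually.of_forall fun x => abs_of_nonneg (h0 x))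
    have a3 : ∫ x, ϑ x * 1 * (16 * δ * g x * P (inner ℝ e' x, inner ℝ e x)) =
        16 * δ * ∫ x, ϑ x * g x * P (inner ℝ e' x, inner ℝ e x) := by
      rw [← integral_const_mul]
      exact integral_congr_ae (Eventually.of_forall fun x => by ring)
    have a4 : |(∫ x, ϑ x * g x) - g₀ * ∫ x, ϑ x| ≤ η * 2 := by
      rw [← integral_const_mul, ← integral_sub ig (hϑ.const_mul _)]
      refine (abs_int_le (hϑ.const_mul η) fun x => ?_).trans ?_
      · by_cases hx : ϑ x = 0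
        · simp [hx]
        rw [show ϑ x * g x - g₀ * ϑ x = (g x - g₀) * ϑ x by ring, abs_mul, abs_of_nonneg (h0 x)]
        exact mul_le_mul_of_nonneg_right (hg0 x hx) (h0 x)
      · rw [integral_const_mul]
        exact mul_le_mul_of_nonneg_left hI hη
    rw [a3] at a1
    simp only [mul_one] at a1 ⊢
    rw [e1] at a2
    set I := ∫ x, ϑ x
    set A := ∫ x, ϑ x * g x * P (inner ℝ e' x, inner ℝ e x)
    set B := ∫ x, ϑ x * g x
    have hr₁ : 0 ≤ K * r₁ := mul_nonneg hK (hr₂.le.trans hr)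
    have a5 : |A - 1 / 16 * B| ≤ 2 * (2 * o + 2 * K * r₁) := by
      have := mul_le_mul_of_nonneg_left hI hr₁
      linarith
    have a6 : |16 * δ * (A - 1 / 16 * B)| ≤ 2 * (2 * o + 2 * K * r₁) := by
      rw [abs_mul, abs_of_nonneg (by positivity : 0 ≤ 16 * δ)]
      exact (mul_le_of_le_one_left (abs_nonneg _) (by linarith)).trans a5
    have a7 : |δ * (B - g₀ * I)| ≤ η := by
      rw [abs_mul, abs_of_nonneg hδ]
      nlinarith [abs_nonneg (B - g₀ * I)]
    rw [abs_le] at a1 a6 a7 ⊢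
    constructor <;> nlinarith [a1.1, a1.2, a6.1, a6.2, a7.1, a7.2]

theorem inner_sub_le {e : E d} (he : ‖e‖ = 1) (x x' : E d) :
    |inner ℝ e x - inner ℝ e x'| ≤ ‖x - x'‖ := by
  rw [← inner_sub_right]
  simpa [he] using abs_real_inner_le_norm e (x - x')

/-- the final division -/
theorem fin_div {Z I r n a b C : ℝ} (hr : 1 / 2 ≤ r) (hn : |n| ≤ 2 * C) (h1 : |Z - n * I| ≤ a)
    (h2 : |1 - r * I| ≤ b) : |Z - n / r| ≤ a + 4 * C * b := by
  have hr0 : 0 < r := by linarith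
  have e : Z - n / r = Z - n * I - n * ((1 - r * I) / r) := by field_simp; ring
  have k : |(1 - r * I) / r| ≤ 2 * b := by
    rw [abs_div, abs_of_pos hr0, div_le_iff₀ hr0]
    nlinarith [abs_nonneg (1 - r * I)]
  have k' : |n * ((1 - r * I) / r)| ≤ 2 * C * (2 * b) := by
    rw [abs_mul]
    exact mul_le_mul hn k (abs_nonneg _) ((abs_nonneg _).trans hn)
  rw [e]
  refine (abs_sub _ _).trans ?_
  linarith

end MesoA

open MesoA in
theorem mesoA (d : ℕ) (hd : 2 ≤ d) (_h1 : Avg2Stmt d) (h2 : PlStmt) (h3 : OscStmt d)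
    (h4 : FinStmt d) : MesoAStmt d := by
  classical
  intro C hC
  refine small_iff.2 ?_
  filter_upwards [ev_pos, ev_mul_le 20, ev_mul_le (40 * C), ev_mul_le (8 * Cw d), ev_le_lg 1,
    small_iff.1 h4] with ε h0 k20 kC kW klg hF
  intro δ L l n S Ψ y₀ e' τ m hδ hδ' hL hLε hl hlε hloc hty hn hmb hml hmP hmi y hy hbad
  obtain ⟨Y, ρ, N, hc, hY, hN, hρ⟩ := hloc
  obtain ⟨hon, hdev, -⟩ := hty
  have e20 : ε ≤ 1 / 20 := by linarith
  have e1 : ε ≤ 1 := by linarith
  have hW := one_le_Cw (d := d)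
  have pw : ∀ {a b : ℕ}, a ≤ b → ε ^ b ≤ ε ^ a := fun h => pow_le_pow_of_le_one h0.le e1 h
  have pp : ∀ a : ℕ, 0 < ε ^ a := fun a => pow_pos h0 a
  have hσ : ε ^ (200 * d) ≤ ε ^ 400 := pw (by omega)
  have Lp : ∀ a : ℕ, L * ε ^ (a + 1) ≤ ε ^ a := fun a => by
    rw [pow_succ', ← mul_assoc]
    exact mul_le_of_le_one_left (pp a).le hLε
  have sm : ∀ a : ℕ, 20 * ε ^ (a + 1) ≤ ε ^ a := fun a => mul_pow_le h0 e1 k20 (lt_add_one a)
  have L119 : L * ε ^ 120 ≤ ε ^ 119 := Lp 119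
  have s118 : 20 * ε ^ 119 ≤ ε ^ 118 := sm 118
  have s11 : 20 * ε ^ 12 ≤ ε ^ 11 := sm 11
  have hy' : ‖y - y₀‖ ≤ 1 := mem_closedBall_iff_norm.1 hy
  obtain ⟨ϑ, hw⟩ := hc.wt (ε ^ 120) y (pp _) (pw (by norm_num)) fun z hz => hY (by
    rw [mem_ball_iff_norm] at hz ⊢
    have := norm_sub_le_norm_sub_add_norm_sub z y y₀
    have := pw (show 0 ≤ 120 by norm_num)
    rw [pow_zero] at this
    linarith)
  -- oscillation at the two scales
  have osc : ∀ a : ℕ, 121 ≤ a → a ≤ 400 → Osc ϑ (ε ^ (a + 1)) (ε ^ (a - 121)) := fun a ha ha' => by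
    have b1 : L * ε ^ (a + 1) + ε ^ (200 * d) ≤ 2 * ε ^ a := by
      linarith [Lp a, pw ha']
    have b0 : 20 * ε ^ 121 ≤ ε ^ 120 := sm 120
    have b2 := hw.osc (ε ^ (a + 1)) (pp _).le (by linarith [pw ha, pp 121])
    intro v hv
    refine (b2 v hv).trans ?_
    rw [div_le_iff₀ (pp _), ← pow_add]
    have b3 : 8 * Cw d * ε ^ a ≤ ε ^ (a - 121 + 120) := mul_pow_le h0 e1 kW (by omega)
    have b4 := mul_le_mul_of_nonneg_left b1 (show 0 ≤ Cw d by linarith)
    nlinarith [mul_pos (show 0 < Cw d by linarith) (pp a)]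
  obtain ⟨f1, f2, f3⟩ := hF δ S N ϑ _ hN hw.int hw.nn (osc 209 (by norm_num) (by norm_num))
  have f4 : ∫ x, ϑ x * fin S N x ≤ 3 * ε ^ 11 := by
    have b1 : ε⁻¹ ^ 8 * ε ^ (209 - 121) = ε ^ 80 := by field_simp
    have := mul_le_mul_of_nonneg_left hw.hi (pp 11).le
    linarith [pw (show 11 ≤ 80 by norm_num)]
  -- the support
  have hs : ∀ x, ϑ x ≠ 0 → ‖x - cv (ε ^ 120) Ψ y‖ ≤ 3 * ε ^ 119 := fun x hx => by
    have b1 := hw.supp x hx
    have b2 := hc.sm.cv_sub (pp 120).le y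
    have b3 := norm_sub_le_norm_sub_add_norm_sub x (Ψ y) (cv (ε ^ 120) Ψ y)
    rw [norm_sub_rev (Ψ y)] at b3
    linarith [pw (show 119 ≤ 400 by norm_num)]
  have hb : ∀ x, ϑ x ≠ 0 → x ∈ ball (Ψ y₀) (10 * L) := fun x hx => by
    have b1 := hw.supp x hx
    have b2 := (hc.sm.lip y y₀).trans (mul_le_of_le_one_right (by linarith) hy')
    have b3 := norm_sub_le_norm_sub_add_norm_sub x (Ψ y) (Ψ y₀)
    have b4 := pw (show 0 ≤ 119 by norm_num)
    have b5 := pw (show 0 ≤ 400 by norm_num)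
    rw [pow_zero] at b4 b5
    rw [mem_ball_iff_norm]
    linarith
  have hml' : (mm ε δ l : ℝ) ≤ l := mm_le klg hδ.le (by linarith) (by linarith)
  have hK : (0 : ℝ) ≤ ε⁻¹ ^ 73 := by positivity
  have gl : ∀ x x' : E d, |gg ε (mm ε δ l) l (inner ℝ e' x) (inner ℝ (S.e τ) x) -
      gg ε (mm ε δ l) l (inner ℝ e' x') (inner ℝ (S.e τ) x')| ≤ 2 * ε⁻¹ ^ 73 * ‖x - x'‖ :=
    fun x x' => (gg_lip h0 e20 hml' hl hlε _ _ _ _).trans (by
      have := mul_le_mul_of_nonneg_left
        (add_le_add (inner_sub_le hon.1 x x') (inner_sub_le hon.2.1 x x')) hK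
      linarith)
  have hK' : 0 ≤ C / ε ^ 141 := by positivity
  have mc : Continuous m := (LipschitzWith.of_dist_le' (K := 2 * (C / ε ^ 141)) fun z z' => by
    rw [Real.dist_eq]
    refine (hml z z').trans ?_
    have b1 : |z.1 - z'.1| ≤ dist z z' := (Real.dist_eq _ _).ge.trans (le_max_left _ _)
    have b2 : |z.2 - z'.2| ≤ dist z z' := (Real.dist_eq _ _).ge.trans (le_max_right _ _)
    have := mul_le_mul_of_nonneg_left (add_le_add b1 b2) hK'
    linarith).continuous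
  have mb : ∀ z, |m z| ≤ C := fun z => by rw [abs_of_nonneg (hmb z).1]; exact (hmb z).2
  obtain ⟨p1, p2⟩ := h2 ε h0
  obtain ⟨c1, c2⟩ := core h3 (g₀ := gg ε (mm ε δ l) l (inner ℝ e' (cv (ε ^ 120) Ψ y))
      (inner ℝ (S.e τ) (cv (ε ^ 120) Ψ y))) (η := 2 * ε⁻¹ ^ 73 * (3 * ε ^ 119)) hw.int hw.nn hw.hi
    hc.meas (fun x => by rw [abs_of_nonneg (by linarith [(hc.rng x).1])]; exact (hc.rng x).2)
    f1.measurable (fun x => by rw [abs_of_nonneg (f2 x).1]; exact (f2 x).2) f4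
    (fun x => abs_gg_le ε _ l _ _) (by positivity) gl mc.measurable mb hmi p1
    (fun z => by split_ifs <;> simp) p2
    (fun z => by
      split_ifs with h
      · rw [mul_one]; exact hmP _ _ h
      · rw [mul_zero])
    (pp 141) (pw (by norm_num)) hon (osc 139 (by norm_num) (by norm_num)) hδ.le (by linarith)
    (fun x hx => by
      have b1 := (hρ x (hb x hx)).2 τ
      have b2 : ∑ τ' ∈ Finset.univ.erase τ, W0 ε (inner ℝ (S.e τ') x) = 0 :=
        Finset.sum_eq_zero fun τ' hτ' => W0_eq_zero_of h0 (by linarith)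
          (lt_of_le_of_lt (Finset.single_le_sum (f := fun τ' => Wh ε (inner ℝ (S.e τ')
            (cv (ε ^ 120) Ψ y))) (fun _ _ => (Wh_mem _ _).1) hτ') hbad)
          ((inner_sub_le (S.unit τ') _ _).trans ((hs x hx).trans (by
            linarith [pw (show 70 ≤ 118 by norm_num), pp 119])))
      rw [b2, zero_add, hdev, devF] at b1
      split_ifs at b1 ⊢
      · rwa [mul_one]
      · rwa [mul_zero])
    (by positivity) fun x hx => (gl x _).trans
      (mul_le_mul_of_nonneg_left (hs x hx) (by positivity))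
  have t1 := hw.tr (fun x => m (inner ℝ e' x, inner ℝ (S.e τ) x)) C (2 * (C / ε ^ 141))
    (by positivity) (fun x => mb _) fun x x' => (hml _ _).trans (by
      have := mul_le_mul_of_nonneg_left
        (add_le_add (inner_sub_le hon.1 x x') (inner_sub_le hon.2.1 x x')) hK'
      linarith)
  have t2 := hw.tr (fun _ => 1) 1 0 le_rfl (fun _ => by simp) fun _ _ => by simp
  rw [cv_const] at t2
  have r1 := (r0_mem (ε := ε) hδ.le hδ' l (co e' Ψ) (co (S.e τ) Ψ) y).1
  have r2 : r0 ε δ l (co e' Ψ) (co (S.e τ) Ψ) y = 1 + δ * gg ε (mm ε δ l) l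
      (inner ℝ e' (cv (ε ^ 120) Ψ y)) (inner ℝ (S.e τ) (cv (ε ^ 120) Ψ y)) := by
    rw [r0, cv_co hc.sm.cont, cv_co hc.sm.cont]
  have n1 : 2 * ε⁻¹ ^ 73 * (3 * ε ^ 119) = 6 * ε ^ 46 := by field_simp; norm_num
  have n2 : 2 * (2 * ε⁻¹ ^ 73) * ε ^ 140 = 4 * ε ^ 67 := by field_simp; norm_num
  have n3 : (2 * (C / ε ^ 141) + C) * ε ^ (200 * d) ≤ C * (3 * ε ^ 12) := by
    have b1 : (2 * (C / ε ^ 141) + C) * ε ^ 400 = C * (2 * ε ^ 259 + ε ^ 400) := by field_simp
    refine (mul_le_mul_of_nonneg_left hσ (by positivity)).trans (b1.trans_le ?_)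
    refine mul_le_mul_of_nonneg_left ?_ (by linarith)
    linarith [pw (show 12 ≤ 259 by norm_num), pw (show 12 ≤ 400 by norm_num)]
  rw [← r2, n1, n2] at c2
  have q18 : ε ^ (139 - 121) ≤ ε ^ 12 := pw (by norm_num)
  have z1 : |cv (ε ^ 120) (fun z => m (co e' Ψ z, co (S.e τ) Ψ z)) y - n * ∫ x, ϑ x| ≤
      C * (4 * ε ^ 11) := by
    have b1 := mul_le_mul_of_nonneg_left q18 (show 0 ≤ C by linarith)
    have b2 := mul_le_mul_of_nonneg_left s11 (show 0 ≤ C by linarith)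
    have b3 := mul_pos (show 0 < C by linarith) (pp 12)
    refine (abs_sub_le _ _ _).trans ((add_le_add (t1.trans n3) c1).trans ?_)
    linarith
  have z2 : |1 - r0 ε δ l (co e' Ψ) (co (S.e τ) Ψ) y * ∫ x, ϑ x| ≤ 4 * ε ^ 11 := by
    refine (abs_sub_le _ _ _).trans ((add_le_add t2 c2).trans ?_)
    linarith [pw (show 12 ≤ 400 by norm_num), pw (show 12 ≤ 67 by norm_num),
      pw (show 12 ≤ 46 by norm_num), pp 12]
  refine (fin_div r1 hn z1 z2).trans ?_
  have := mul_pow_le h0 e1 kC (show 10 < 11 by norm_num)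
  nlinarith [mul_pos (show 0 < C by linarith) (pp 11)]

end Pool.Agent.MP_20bec2_an.h7

end
end MrgPart5

-- ======== part 6: formerly Pool.Agent.MP_20bec2_an.h7.Quant
section MrgPart6

/-! The choice of the parameters (project BIOM). -/

set_option autoImplicit false

open MeasureTheory Set Metric Filter Topology

noncomputable section

namespace Pool.Agent.MP_20bec2_an.h7

namespace Quant

theorem tendsto_eps : Tendsto (fun N : ℕ => ((N : ℝ)⁻¹) ^ 2) atTop (𝓝[>] (0 : ℝ)) := by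
  refine tendsto_nhdsWithin_iff.2 ⟨?_, ?_⟩
  · have h : Tendsto (fun N : ℕ => ((N : ℝ)⁻¹)) atTop (𝓝 0) :=
      tendsto_inv_atTop_zero.comp tendsto_natCast_atTop_atTop
    simpa using h.pow 2
  · filter_upwards [eventually_ge_atTop 1] with N hN
    have : (0 : ℝ) < N := by exact_mod_cast hN
    exact mem_Ioi.2 (by positivity)

/-- powers of the logarithm are below every power -/
theorem ev_log (C : ℝ) (k : ℕ) {s : ℝ} (hs : 0 < s) :
    ∀ᶠ N : ℕ in atTop, C * Real.log N ^ k ≤ (N : ℝ) ^ s := by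
  have h := (isLittleO_log_rpow_rpow_atTop (k : ℝ) hs).const_mul_left C
  have h2 := (h.bound one_pos)
  filter_upwards [tendsto_natCast_atTop_atTop.eventually h2] with N hN
  have h0 : (0 : ℝ) ≤ (N : ℝ) ^ s := Real.rpow_nonneg (Nat.cast_nonneg N) s
  rw [one_mul, Real.norm_of_nonneg h0, Real.rpow_natCast] at hN
  exact (le_abs_self _).trans hN

theorem lg_eps (x : ℝ) : lg ((x⁻¹) ^ 2) = 2 * Real.log x := by
  rw [lg, Real.log_pow, Real.log_inv]; push_cast; ring

theorem meas_dens {d : ℕ} {ε δ : ℝ} (S : Sys d ε δ) (M : ℕ) : Measurable (dens S M) := by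
  unfold dens
  refine measurable_const.add (measurable_const.max (measurable_const.min ?_))
  refine Finset.measurable_sum _ fun k _ => Finset.measurable_sum _ fun τ _ => ?_
  exact (S.meas τ).comp (measurable_const_smul _)

theorem dens_bd {d : ℕ} {ε δ : ℝ} (hδ : 0 < δ) (S : Sys d ε δ) (M : ℕ) (x : E d) :
    |dens S M x - 1| ≤ 32 * δ := by
  unfold dens
  rw [add_sub_cancel_left, abs_le]
  exact ⟨le_max_left _ _, max_le (by linarith) (min_le_left _ _)⟩

/-- the number of levels in a block -/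
theorem block {N I : ℕ} {l : ℝ} (hl : 1 ≤ l) (hI1 : 25 * l ≤ I) (hI2 : (I : ℝ) ≤ 26 * l)
    (hN : I ≤ N) : 1 ≤ N / I ∧ 11 / ((N / I : ℕ) : ℝ) ≤ 572 * l / N := by
  have hI : 0 < I := by
    have : (0 : ℝ) < I := by linarith
    exact_mod_cast this
  have h1 : 1 ≤ N / I := (Nat.le_div_iff_mul_le hI).2 (by omega)
  refine ⟨h1, ?_⟩
  have h2 : N < I * (N / I + 1) := Nat.lt_mul_div_succ N hI
  have h3 : (N : ℝ) ≤ I * ((N / I : ℕ) + 1) := by exact_mod_cast h2.le
  have h4 : (1 : ℝ) ≤ (N / I : ℕ) := by exact_mod_cast h1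
  have h5 : (0 : ℝ) < N := by
    have : 0 < N := by omega
    exact_mod_cast this
  rw [div_le_div_iff₀ (by linarith) h5]
  have h6 : (I : ℝ) * ((N / I : ℕ) + 1) ≤ 26 * l * (2 * (N / I : ℕ)) :=
    mul_le_mul hI2 (by linarith) (by linarith) (by linarith)
  linarith

end Quant

open Quant in
theorem quant (d : ℕ) (hd : 2 ≤ d) (γ : ℝ) (h0 : 0 ≤ γ) (hγ : 4 * d * γ < 5 * (d - 1))
    (h1 : NetStmt d) (h2 : ScaleStmt d) (h3 : TowerStmt d) (h4 : PigStmt d) : QuantStmt d γ := by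
  intro δ hδ hδ1
  have hd2 : (2 : ℝ) ≤ d := by exact_mod_cast hd
  have hγ2 : γ ≤ 2 := by nlinarith
  obtain ⟨m, rfl⟩ : ∃ m, d = m + 1 := ⟨d - 1, by omega⟩
  have hs : 0 < 5 * (m : ℝ) - 4 * (m + 1 : ℕ) * γ := by
    push_cast at hγ ⊢; linarith
  filter_upwards [tendsto_eps.eventually (small_iff.1 h1), tendsto_eps.eventually (small_iff.1 h3),
    tendsto_eps.eventually (small_iff.1 h4), tendsto_eps.eventually (ev_le_lg 1),
    tendsto_eps.eventually (ev_mul_le δ⁻¹), eventually_ge_atTop 1, ev_log 52 1 one_pos,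
    ev_log (572 * 2 ^ 12 / δ ^ 4) 12 one_pos,
    ev_log (2 ^ (4 * (m + 1)) * (572 ^ 5 * 2 ^ 17) ^ m / δ ^ (6 * m)) (17 * m) hs]
    with N hN1 hN3 hN4 hl hεδ hN hA hB hC
  set x : ℝ := (N : ℝ) with hx
  have hx1 : 1 ≤ x := by rw [hx]; exact_mod_cast hN
  have hx0 : 0 < x := by linarith
  set ε : ℝ := (x⁻¹) ^ 2 with hε
  have hlg : lg ε = 2 * Real.log x := lg_eps x
  set I : ℕ := ⌈25 * lg ε⌉₊ with hI
  have hI1 : 25 * lg ε ≤ I := Nat.le_ceil _
  have hI2 : (I : ℝ) ≤ 26 * lg ε := by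
    have := Nat.ceil_lt_add_one (show 0 ≤ 25 * lg ε by linarith)
    linarith
  rw [Real.rpow_one] at hA hB
  have hIN : I ≤ N := by
    have : (I : ℝ) ≤ x := by rw [pow_one] at hA; linarith
    rw [hx] at this
    exact_mod_cast this
  obtain ⟨hb1, hb2⟩ := block hl hI1 hI2 hIN
  set N₁ : ℕ := N / I with hN₁
  have hM : I * N₁ ≤ N := Nat.mul_div_le N I
  have hxi : x⁻¹ ≤ 1 := inv_le_one_of_one_le₀ hx1
  have hxi0 : 0 < x⁻¹ := inv_pos.2 hx0
  have hL1 : 1 ≤ x ^ γ := Real.one_le_rpow hx1 h0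
  have hLε : x ^ γ * ε ≤ 1 := by
    have : x ^ γ ≤ x ^ (2 : ℝ) := Real.rpow_le_rpow_of_exponent_le hx1 hγ2
    rw [Real.rpow_two] at this
    calc x ^ γ * ε ≤ x ^ 2 * ε := mul_le_mul_of_nonneg_right this (by positivity)
      _ = 1 := by rw [hε]; field_simp
  have hMε : ((I * N₁ : ℕ) : ℝ) * ε ≤ 1 := by
    have : ((I * N₁ : ℕ) : ℝ) ≤ x := by rw [hx]; exact_mod_cast hM
    calc ((I * N₁ : ℕ) : ℝ) * ε ≤ x * ε := mul_le_mul_of_nonneg_right this (by positivity)
      _ = x⁻¹ := by rw [hε]; field_simp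
      _ ≤ 1 := hxi
  have hεδ' : ε ≤ δ := by
    rw [inv_mul_le_iff₀ hδ, mul_one] at hεδ; exact hεδ
  have hq0 : 0 ≤ 11 / (N₁ : ℝ) := by positivity
  have hl0 : 0 ≤ lg ε := by linarith
  have hn1 : 11 / (N₁ : ℝ) * lg ε ^ 11 ≤ δ ^ 4 := by
    have hδ4 : 0 < δ ^ 4 := by positivity
    calc 11 / (N₁ : ℝ) * lg ε ^ 11 ≤ 572 * lg ε / x * lg ε ^ 11 :=
          mul_le_mul_of_nonneg_right hb2 (by positivity)
      _ = (572 * 2 ^ 12 / δ ^ 4 * Real.log x ^ 12) * (δ ^ 4 / x) := by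
          rw [hlg]; field_simp
      _ ≤ x * (δ ^ 4 / x) := mul_le_mul_of_nonneg_right hB (by positivity)
      _ = δ ^ 4 := by field_simp
  have hn2 : (2 * x ^ γ) ^ (4 * (m + 1)) * ((11 / (N₁ : ℝ)) ^ 5 * lg ε ^ 12) ^ (m + 1 - 1) ≤
      δ ^ (6 * (m + 1 - 1)) := by
    rw [Nat.add_sub_cancel]
    have hδm : 0 < δ ^ (6 * m) := by positivity
    have e1 : (x ^ γ) ^ (4 * (m + 1)) * x ^ (5 * (m : ℝ) - 4 * (m + 1 : ℕ) * γ) =
        (x ^ 5) ^ m := by
      rw [← Real.rpow_mul_natCast hx0.le, ← Real.rpow_add hx0, ← pow_mul,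
        ← Real.rpow_natCast x (5 * m)]
      congr 1
      push_cast; ring
    have hP : 0 < (x ^ γ) ^ (4 * (m + 1)) := by positivity
    calc (2 * x ^ γ) ^ (4 * (m + 1)) * ((11 / (N₁ : ℝ)) ^ 5 * lg ε ^ 12) ^ m
        ≤ (2 * x ^ γ) ^ (4 * (m + 1)) * ((572 * lg ε / x) ^ 5 * lg ε ^ 12) ^ m := by
          gcongr
      _ = (2 ^ (4 * (m + 1)) * (572 ^ 5 * 2 ^ 17) ^ m / δ ^ (6 * m) * Real.log x ^ (17 * m)) *
            (δ ^ (6 * m) * (x ^ γ) ^ (4 * (m + 1)) / (x ^ 5) ^ m) := by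
          have e2 : (572 * lg ε / x) ^ 5 * lg ε ^ 12 =
              572 ^ 5 * 2 ^ 17 * Real.log x ^ 17 / x ^ 5 := by
            rw [hlg]; field_simp
          rw [e2, div_pow, mul_pow (572 ^ 5 * 2 ^ 17 : ℝ), mul_pow, pow_mul (Real.log x)]
          field_simp
      _ ≤ x ^ (5 * (m : ℝ) - 4 * (m + 1 : ℕ) * γ) *
            (δ ^ (6 * m) * (x ^ γ) ^ (4 * (m + 1)) / (x ^ 5) ^ m) :=
          mul_le_mul_of_nonneg_right hC (by positivity)
      _ = δ ^ (6 * m) := by
          rw [← e1]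
          have : 0 < x ^ (5 * (m : ℝ) - 4 * (m + 1 : ℕ) * γ) := Real.rpow_pos_of_pos hx0 _
          field_simp
  obtain ⟨S, hS⟩ := hN1 δ hδ hδ1
  refine ⟨dens S (I * N₁), meas_dens S _, dens_bd hδ S _, fun Ψ Y y hc hy => ?_⟩
  have hexp : 400 * (m + 1) + 320 * (I * N₁) ≤ 1000 * (m + 1) * N := by nlinarith
  have w1 : x⁻¹ ^ (1000 * (m + 1) * N) ≤ ε ^ (200 * (m + 1)) * (ε ^ 160) ^ (I * N₁) := by
    rw [hε, ← pow_mul, ← pow_mul, ← pow_mul, ← pow_add]
    exact pow_le_pow_of_le_one hxi0.le hxi (by omega)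
  have w2 : x⁻¹ ^ (1000 * (m + 1) * N) ≤ (ε ^ 160) ^ (I * N₁) := by
    rw [hε, ← pow_mul, ← pow_mul]
    exact pow_le_pow_of_le_one hxi0.le hxi (by omega)
  obtain ⟨Ψ', G, hT⟩ := hN3 δ (x ^ γ) S (I * N₁) Ψ Y y hδ hδ1 hL1 hLε hMε
    (h2.2 _ _ _ _ _ _ Ψ Y _ le_rfl w1 w2 hc) hy
  exact hN4 δ (x ^ γ) S I N₁ Ψ' G hS hεδ' hδ1 hL1 hLε hMε hI1 hb1 hn1 hn2 hT

end Pool.Agent.MP_20bec2_an.h7

end
end MrgPart6

-- ======== part 7: formerly Pool.Agent.MP_20bec2_an.h7.Scale
section MrgPart7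

/-! Rescaling of contexts and the tower of levels (project BIOM). -/

set_option autoImplicit false

open MeasureTheory Set Metric Filter Topology

noncomputable section

namespace Pool.Agent.MP_20bec2_an.h7

namespace Scale

variable {d : ℕ}

theorem integral_scl {s : ℝ} (hs : 0 < s) (f : E d → ℝ) : ∫ x, s ^ d * f (s • x) = ∫ x, f x := by
  have h := Measure.integral_comp_smul (volume : Measure (E d)) f s
  rw [finrank_euclideanSpace_fin, abs_of_pos (by positivity), smul_eq_mul] at h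
  rw [integral_const_mul, h, ← mul_assoc, mul_inv_cancel₀ (by positivity), one_mul]

theorem norm_scl {s : ℝ} (hs : 0 < s) (a b : E d) : ‖a - s⁻¹ • b‖ = ‖s • a - b‖ / s := by
  have : s • a - b = s • (a - s⁻¹ • b) := by rw [smul_sub, smul_inv_smul₀ hs.ne']
  rw [this, norm_smul, Real.norm_of_nonneg hs.le, mul_div_cancel_left₀ _ hs.ne']

theorem wt_scl {L σ μ s : ℝ} {Ψ : E d → E d} {ρ ϑ : E d → ℝ} {y : E d} (hs : 0 < s) (hs1 : s ≤ 1)
    (hσ : 0 ≤ σ) (hμ : 0 < μ) (h : Wt L σ (s * μ) Ψ ρ (s • y) ϑ) :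
    Wt L (σ / s) μ (scl s Ψ) (fun x => ρ (s • x)) y fun x => s ^ d * ϑ (s • x) where
  meas := (h.meas.comp (measurable_const_smul s)).const_mul _
  int := (h.int.comp_smul hs.ne').const_mul _
  nn x := mul_nonneg (by positivity) (h.nn _)
  le x := by
    refine (mul_le_mul_of_nonneg_left (h.le _) (by positivity)).trans (le_of_eq ?_)
    rw [mul_pow]
    field_simp
  supp x hx := by
    have h1 := h.supp _ (right_ne_zero_of_mul hx)
    unfold scl
    rw [norm_scl hs, div_le_iff₀ hs]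
    refine h1.trans (le_of_eq ?_)
    field_simp
  lo := by rw [integral_scl hs]; exact h.lo
  hi := by rw [integral_scl hs]; exact h.hi
  osc r hr hμr a ha := by
    have e : L * (s * r) + σ = s * (L * r + σ / s) := by field_simp
    have h1 := h.osc (s * r) (by positivity)
      (by rw [e]; exact mul_le_mul_of_nonneg_left hμr hs.le) (s • a)
      (by rw [norm_smul, Real.norm_of_nonneg hs.le]; exact mul_le_mul_of_nonneg_left ha hs.le)
    rw [← integral_scl hs] at h1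
    have e2 : ∀ x : E d, |s ^ d * ϑ (s • x) - s ^ d * ϑ (s • (x - a))| =
        s ^ d * |ϑ (s • x) - ϑ (s • x - s • a)| := by
      intro x
      rw [← mul_sub, abs_mul, abs_of_pos (pow_pos hs d), smul_sub]
    simp only [e2]
    refine h1.trans (le_of_eq ?_)
    rw [e]
    field_simp
  tr G B K hK hB hG := by
    have hB0 : 0 ≤ B := (abs_nonneg _).trans (hB 0)
    have h1 := h.tr (fun x => G (s⁻¹ • x)) B (K / s) (by positivity) (fun x => hB _)
      (fun x x' => by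
        refine (hG _ _).trans (le_of_eq ?_)
        rw [← smul_sub, norm_smul, Real.norm_of_nonneg (inv_nonneg.2 hs.le)]
        field_simp)
    rw [← integral_scl hs] at h1
    have e1 : cv μ (fun z => G (scl s Ψ z)) y =
        cv (s * μ) (fun z => G (s⁻¹ • Ψ z)) (s • y) := by
      simp only [cv, scl, smul_sub, smul_smul]
    have e2 : ∀ x : E d, s ^ d * (ϑ (s • x) * G (s⁻¹ • s • x) * ρ (s • x)) =
        s ^ d * ϑ (s • x) * G x * ρ (s • x) := by
      intro x
      rw [inv_smul_smul₀ hs.ne']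
      ring
    simp only [e2] at h1
    rw [e1]
    refine h1.trans ?_
    have h2 : B * σ ≤ B * (σ / s) :=
      mul_le_mul_of_nonneg_left (le_div_self hσ hs hs1) hB0
    have h3 : K / s * σ = K * (σ / s) := by ring
    linarith [add_mul (K / s) B σ, mul_comm (K + B) (σ / s), add_mul K B (σ / s)]

theorem wt_mono {L L' σ σ' μ : ℝ} {Ψ : E d → E d} {ρ ϑ : E d → ℝ} {y : E d} (hL : L ≤ L')
    (hσ : σ ≤ σ') (hμ : 0 < μ) (h : Wt L σ μ Ψ ρ y ϑ) : Wt L' σ' μ Ψ ρ y ϑ where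
  meas := h.meas
  int := h.int
  nn := h.nn
  le := h.le
  supp x hx := (h.supp x hx).trans (add_le_add (mul_le_mul_of_nonneg_right hL hμ.le) hσ)
  lo := h.lo
  hi := h.hi
  osc r hr hμr a ha := by
    have h1 : L * r + σ ≤ L' * r + σ' := add_le_add (mul_le_mul_of_nonneg_right hL hr) hσ
    refine (h.osc r hr (h1.trans hμr) a ha).trans (div_le_div_of_nonneg_right ?_ hμ.le)
    exact mul_le_mul_of_nonneg_left h1 (zero_le_one.trans one_le_Cw)
  tr G B K hK hB hG := (h.tr G B K hK hB hG).trans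
    (mul_le_mul_of_nonneg_left hσ (add_nonneg hK ((abs_nonneg _).trans (hB 0))))

theorem clamp {c A b : ℝ} (hb : |b| ≤ c) : |max (-c) (min c A) - b| ≤ |A - b| := by
  obtain ⟨h1, h2⟩ := abs_le.1 hb
  have h3 := le_abs_self (A - b)
  have h4 := neg_abs_le (A - b)
  have h5 := abs_nonneg (A - b)
  rw [abs_le]
  constructor
  · rcases le_total c A with h | h
    · rw [min_eq_left h]
      have := le_max_right (-c) c
      linarith
    · rw [min_eq_right h]
      have := le_max_right (-c) A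
      linarith
  · rcases le_total (-c) (min c A) with h | h
    · rw [max_eq_right h]
      have := min_le_right c A
      linarith
    · rw [max_eq_left h]
      linarith

variable {ε δ : ℝ}

theorem dev_le (S : Sys d ε δ) (hδ : δ ≤ 1 / 100) (τ : Fin S.T) (z : E d) :
    |S.dev τ z| ≤ W0 ε (inner ℝ (S.e τ) z) := by
  by_cases hz : z ∈ S.pl τ
  · have h1 := S.slab τ z hz
    have h2 := S.bd τ z
    unfold W0
    rw [tr_eq_one h1.1 h1.2]
    linarith
  · rw [S.zero τ z hz, abs_zero]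
    exact (W0_mem _ _).1

theorem scl_succ (s : ℝ) (n : ℕ) (Ψ : E d → E d) :
    scl (s ^ (n + 1)) Ψ = scl s (scl (s ^ n) Ψ) := by
  funext y
  simp only [scl, smul_smul, pow_succ, mul_inv, mul_comm]

/-- the sum of the levels seen from level `n` at a point that avoids the coarser plates -/
theorem sum_levels (S : Sys d ε δ) {s : ℝ} (hs : 0 < s) {n N : ℕ} (hn : n < N) {x : E d}
    (hx : ∀ k < n, ∀ τ, s ^ (n - k) • x ∉ S.pl τ) :
    ∑ k ∈ Finset.range N, ∑ τ, S.dev τ ((s ^ k)⁻¹ • s ^ n • x) =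
      ∑ τ, S.dev τ x + ∑ k ∈ Finset.Ico 1 (N - n), ∑ τ, S.dev τ ((s ^ k)⁻¹ • x) := by
  obtain ⟨m, rfl⟩ := Nat.exists_eq_add_of_lt hn
  rw [Nat.add_assoc, Finset.sum_range_add, Finset.sum_eq_zero, zero_add, Nat.add_sub_cancel_left,
    Finset.range_eq_Ico, Finset.sum_eq_sum_Ico_succ_bot (Nat.succ_pos m)]
  · have e : ∀ k : ℕ, (s ^ (n + k))⁻¹ • s ^ n • x = (s ^ k)⁻¹ • x := by
      intro k
      rw [smul_smul, pow_add]
      congr 1
      field_simp
    simp only [e, pow_zero, inv_one, one_smul, zero_add]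
  · intro k hk
    have hk' := Finset.mem_range.1 hk
    refine Finset.sum_eq_zero fun τ _ => S.zero τ _ ?_
    have e : (s ^ k)⁻¹ • s ^ n • x = s ^ (n - k) • x := by
      rw [smul_smul, pow_sub₀ _ hs.ne' hk'.le, mul_comm]
    rw [e]
    exact hx k hk' τ

end Scale

open Scale

theorem scale (d : ℕ) (_hd : 2 ≤ d) : ScaleStmt d := by
  refine ⟨fun L σ μ₀ s Ψ Y ρ hs hs1 hσ h => ?_, fun L L' σ σ' μ₀ μ₀' Ψ Y ρ hL hσ hμ h => ?_⟩
  · refine ⟨h.sm.scl hs, h.meas.comp (measurable_const_smul s), fun x => h.rng _,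
      fun y hy y' hy' => ?_, fun μ y hμ hμ₀ hY => ?_⟩
    · have h1 := h.inv _ hy _ hy'
      rw [← smul_sub, norm_smul, Real.norm_of_nonneg hs.le] at h1
      unfold scl
      rw [← smul_sub, norm_smul, Real.norm_of_nonneg (inv_nonneg.2 hs.le)]
      refine le_of_mul_le_mul_left (h1.trans (le_of_eq ?_)) hs
      field_simp
    · obtain ⟨ϑ, hϑ⟩ := h.wt (s * μ) (s • y) (by positivity)
        (by rw [div_le_iff₀ hs] at hμ₀; linarith) (fun z hz => by
          have h1 : s⁻¹ • z ∈ ball y (2 * μ) := by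
            rw [mem_ball, dist_eq_norm, norm_sub_rev] at hz ⊢
            rw [norm_scl hs, div_lt_iff₀ hs]
            linarith
          have h2 := hY h1
          rwa [mem_ofPred_eq, smul_inv_smul₀ hs.ne'] at h2)
      exact ⟨_, wt_scl hs hs1 hσ hμ hϑ⟩
  · refine ⟨h.sm.mono hL, h.meas, h.rng, fun y hy y' hy' => (h.inv y hy y' hy').trans
      (add_le_add (mul_le_mul_of_nonneg_right hL (norm_nonneg _)) hσ), fun μ y h0 h1 hY => ?_⟩
    obtain ⟨ϑ, hϑ⟩ := h.wt μ y h0 (hμ.trans h1) hY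
    exact ⟨ϑ, wt_mono hL hσ h0 hϑ⟩

theorem tower (d : ℕ) (_hd : 2 ≤ d) (h : ScaleStmt d) : TowerStmt d := by
  refine small_iff.2 ?_
  filter_upwards [ev_pos, ev_mul_le 10] with ε h0 h10 δ L S N Ψ Y y hδ0 hδ hL hLε hN hC hY
  have h1 : ε ≤ 1 := by linarith
  have hs : 0 < ε ^ 160 := by positivity
  have hs2 : 10 * ε ^ 160 ≤ 1 := by simpa using mul_pow_le h0 h1 h10 (a := 0) (b := 160) (by norm_num)
  have hs3 : 10 * L * ε ^ 160 ≤ ε ^ 150 := by
    have h2 : L * ε ^ 160 ≤ ε ^ 159 := mul_pow_le h0 h1 hLε (by norm_num)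
    have h3 : 10 * ε ^ 159 ≤ ε ^ 150 := mul_pow_le h0 h1 h10 (by norm_num)
    linarith
  have hσ : 0 < ε ^ (200 * d) := by positivity
  set s := ε ^ 160 with hsdef
  have hs1 : s ≤ 1 := by linarith
  refine ⟨fun n => scl (s ^ n) Ψ, fun n => {y | ball y 8 ⊆ {z | s ^ n • z ∈ Y} ∧
    ∀ k < n, ∀ τ, ∀ x ∈ S.pl τ, 10 * L ≤ ‖scl (s ^ n) Ψ y - (s ^ (n - k))⁻¹ • x‖},
    fun n => hC.sm.scl (pow_pos hs n), ⟨y, ?_, ?_⟩, ?_, ?_, fun n => scl_succ s n Ψ⟩
  · intro z hz
    rw [mem_ofPred_eq, pow_zero, one_smul]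
    exact hY hz
  · intro k hk
    exact absurd hk (Nat.not_lt_zero k)
  · intro n hn y ⟨hy1, hy2⟩
    have hsn : 0 < s ^ n := pow_pos hs n
    have e1 : s ^ N / s ^ n ≤ s := by
      rw [div_le_iff₀ hsn, ← pow_succ']
      exact pow_le_pow_of_le_one hs.le hs1 hn
    refine ⟨{z | s ^ n • z ∈ Y}, fun x => dens S N (s ^ n • x), N - n, ?_, hy1, ?_, fun x hx => ?_⟩
    · refine h.2 _ _ _ _ _ _ _ _ _ le_rfl ?_ e1
        (h.1 _ _ _ _ _ _ _ hsn (pow_le_one₀ hs.le hs1) (by positivity) hC)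
      rw [mul_div_assoc]
      exact mul_le_of_le_one_right hσ.le (e1.trans hs1)
    · refine le_trans (mul_le_mul_of_nonneg_right ?_ h0.le) hN
      exact_mod_cast Nat.sub_le N n
    · have hx' : ∀ k < n, ∀ τ, s ^ (n - k) • x ∉ S.pl τ := by
        intro k hk τ hc
        have h2 := hy2 k hk τ _ hc
        rw [inv_smul_smul₀ (pow_pos hs _).ne'] at h2
        rw [mem_ball, dist_eq_norm, norm_sub_rev] at hx
        linarith
      have h2 : |∑ k ∈ Finset.Ico 1 (N - n), ∑ τ, S.dev τ ((s ^ k)⁻¹ • x)| ≤ fin S (N - n) x :=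
        (Finset.abs_sum_le_sum_abs _ _).trans (Finset.sum_le_sum fun k _ =>
          (Finset.abs_sum_le_sum_abs _ _).trans (Finset.sum_le_sum fun τ _ => dev_le S hδ τ _))
      have h3 : dens S N (s ^ n • x) - 1 = max (-(32 * δ)) (min (32 * δ) (∑ τ, S.dev τ x +
          ∑ k ∈ Finset.Ico 1 (N - n), ∑ τ, S.dev τ ((s ^ k)⁻¹ • x))) := by
        unfold dens
        rw [← hsdef, sum_levels S hs hn hx', add_sub_cancel_left]
      refine ⟨?_, fun τ => ?_⟩
      · have h4 := clamp (c := 32 * δ) (b := 0) (A := ∑ τ, S.dev τ x +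
          ∑ k ∈ Finset.Ico 1 (N - n), ∑ τ, S.dev τ ((s ^ k)⁻¹ • x))
          (by rw [abs_zero]; positivity)
        rw [sub_zero, sub_zero, ← h3] at h4
        refine h4.trans ((abs_add_le _ _).trans (add_le_add ?_ h2))
        exact (Finset.abs_sum_le_sum_abs _ _).trans (Finset.sum_le_sum fun τ _ => dev_le S hδ τ _)
      · rw [h3]
        refine (clamp (S.bd τ x)).trans ?_
        rw [← Finset.add_sum_erase _ _ (Finset.mem_univ τ), add_assoc, add_sub_cancel_left]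
        refine (abs_add_le _ _).trans (add_le_add ?_ h2)
        exact (Finset.abs_sum_le_sum_abs _ _).trans (Finset.sum_le_sum fun τ _ => dev_le S hδ τ _)
  · intro n _ y₀ ⟨hy1, hy2⟩ y hy hF
    rw [mem_ball, dist_eq_norm] at hy
    refine ⟨fun z hz => ?_, fun k hk τ x hx => ?_⟩
    · have h2 : s • z ∈ ball y₀ 8 := by
        rw [mem_ball, dist_eq_norm, norm_scl hs, div_lt_iff₀ hs] at hz
        rw [mem_ball, dist_eq_norm]
        have := norm_sub_le_norm_sub_add_norm_sub (s • z) y y₀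
        linarith
      have h3 := hy1 h2
      rwa [mem_ofPred_eq, smul_smul, ← pow_succ] at h3
    · have e : scl (s ^ (n + 1)) Ψ (s⁻¹ • y) - (s ^ (n + 1 - k))⁻¹ • x =
          s⁻¹ • (scl (s ^ n) Ψ y - (s ^ (n - k))⁻¹ • x) := by
        rw [scl_succ, smul_sub, Nat.succ_sub (Nat.lt_succ_iff.1 hk), pow_succ', mul_inv,
          ← smul_smul]
        simp only [scl, smul_inv_smul₀ hs.ne']
      rw [e, norm_smul, Real.norm_of_nonneg (inv_nonneg.2 hs.le), mul_comm s⁻¹, ← div_eq_mul_inv,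
        le_div_iff₀ hs]
      rcases Nat.lt_succ_iff_lt_or_eq.1 hk with hk' | rfl
      · have h2 := hy2 k hk' τ x hx
        have h3 := (hC.sm.scl (pow_pos hs n)).lip y₀ y
        have h4 := norm_sub_le_norm_sub_add_norm_sub (scl (s ^ n) Ψ y₀) (scl (s ^ n) Ψ y)
          ((s ^ (n - k))⁻¹ • x)
        rw [norm_sub_rev y₀] at h3
        have h5 : L * ‖y - y₀‖ ≤ L * 4 := mul_le_mul_of_nonneg_left hy.le (by linarith)
        have h6 : L * (10 * s) ≤ L * 1 := mul_le_mul_of_nonneg_left hs2 (by linarith)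
        linarith
      · rw [Nat.sub_self, pow_zero, inv_one, one_smul]
        exact hs3.trans (hF τ x hx)

end Pool.Agent.MP_20bec2_an.h7

end
end MrgPart7

-- ======== part 8: formerly Pool.Agent.MP_20bec2_an.h7.TestB
section MrgPart8

/-! The accumulated delay along a leaf and its transversal derivative (project BIOM). -/

set_option autoImplicit false

open MeasureTheory Set Metric Filter Topology

noncomputable section

namespace Pool.Agent.MP_20bec2_an.h7

namespace TestB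

variable {d : ℕ} {κ κ' : ℝ → ℝ} {G G' : E d → ℝ} {T ε : ℝ}

theorem ln_add (hκ : Continuous κ) (hG : Continuous G) (hG' : Continuous G') (T : ℝ)
    (u y : E d) : ln T u κ (fun z => G z + G' z) y = ln T u κ G y + ln T u κ G' y := by
  simp only [ln, smul_add]
  exact intervalIntegral.integral_add (ii_ln hκ hG u y _ _) (ii_ln hκ hG' u y _ _)

theorem ln_sub (hκ : Continuous κ) (hG : Continuous G) (hG' : Continuous G') (T : ℝ)
    (u y : E d) : ln T u κ (fun z => G z - G' z) y = ln T u κ G y - ln T u κ G' y := by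
  simp only [ln, smul_sub]
  exact intervalIntegral.integral_sub (ii_ln hκ hG u y _ _) (ii_ln hκ hG' u y _ _)

theorem ln_mul (c : ℝ) (κ : ℝ → ℝ) (G : E d → ℝ) (T : ℝ) (u y : E d) :
    ln T u κ (fun z => c * G z) y = c * ln T u κ G y := by
  simp only [ln, smul_eq_mul, ← intervalIntegral.integral_const_mul]
  exact intervalIntegral.integral_congr fun τ _ => by ring

theorem ln_sum {ι : Type*} (s : Finset ι) {H : ι → E d → ℝ} (hκ : Continuous κ)
    (hH : ∀ i ∈ s, Continuous (H i)) (T : ℝ) (u y : E d) :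
    ln T u κ (fun z => ∑ i ∈ s, H i z) y = ∑ i ∈ s, ln T u κ (H i) y := by
  simp only [ln, Finset.smul_sum]
  exact intervalIntegral.integral_finsetSum fun i hi => ii_ln hκ (hH i hi) u y _ _

theorem ln_re {H : E d → ℂ} (hκ : Continuous κ) (hH : Continuous H) (T : ℝ) (u y : E d) :
    (ln T u κ H y).re = ln T u κ (fun z => (H z).re) y := by
  have h := Complex.reCLM.intervalIntegral_comp_comm (ii_ln hκ hH u y (-(3 * T)) (3 * T))
  simp only [map_smul, Complex.reCLM_apply] at h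
  exact h.symm

theorem ln_mono (hκ : Continuous κ) (hκ' : Continuous κ') (hG : Continuous G)
    (hG' : Continuous G') (hT : 0 ≤ T) (u y : E d)
    (h : ∀ τ, κ τ * G (y + τ • u) ≤ κ' τ * G' (y + τ • u)) : ln T u κ G y ≤ ln T u κ' G' y :=
  intervalIntegral.integral_mono_on (by linarith) (ii_ln hκ hG u y _ _) (ii_ln hκ' hG' u y _ _)
    fun τ _ => h τ

theorem phk_re (m : ℕ) (l : ℝ) (k : ℕ) (q p : ℝ) :
    (phk ε m l k q p).re = Real.cos (om ε m l k * q) * (bk ε m k p * (m / ε ^ 70)) := by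
  rw [phk, mul_comm Complex.I, Complex.mul_re, Complex.exp_ofReal_mul_I_re, Complex.ofReal_re,
    Complex.ofReal_im, mul_zero, sub_zero]

theorem continuous_phk (h0 : 0 < ε) (h1 : ε ≤ 1 / 2) {m k : ℕ} (hk : k < m) (l : ℝ)
    {q p : E d → ℝ} (hq : Continuous q) (hp : Continuous p) :
    Continuous fun z => phk ε m l k (q z) (p z) := by
  have := (Prof.continuous_bk h0 h1 hk).comp hp
  unfold phk
  exact (Complex.continuous_exp.comp (by fun_prop)).mul
    (Complex.continuous_ofReal.comp (this.mul continuous_const))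

theorem sp_one (k : ℝ) (h₁ : -2 ≤ k) (h₂ : k ≤ 2) : Sp fun x => bb (x - k) := by
  have := sp_bb (c := 1) (k := k) le_rfl (by linarith) (by linarith)
  simpa only [one_mul] using this

theorem hasDerivAt_W0 (h0 : 0 < ε) (h1 : ε ≤ 1 / 2) (p : ℝ) :
    HasDerivAt (W0 ε) ((bb (xi ε p + 1) - bb (xi ε p - 1)) / ε ^ 70) p := by
  have := hasDerivAt_xi h0 h1 (sp_tr (a := 0) (b := 1) (by norm_num) (by norm_num) (by norm_num))
    (ψ' := fun x => bb (x - 0 + 1) - bb (x - 1)) (fun x hx => by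
      have a := sp_one (-1) (by norm_num) (by norm_num) x hx
      have b := sp_one 1 (by norm_num) (by norm_num) x hx
      simp only [sub_neg_eq_add] at a b
      simp only [sub_zero, a, b]) (hasDerivAt_tr 0 1) p
  simp only [sub_zero] at this
  exact this

theorem contDiff_W0 (h0 : 0 < ε) (h1 : ε ≤ 1 / 2) : ContDiff ℝ 1 (W0 ε) :=
  contDiff_xi (n := 1) h0 h1 (sp_tr (by norm_num) (by norm_num) (by norm_num))
    ((contDiff_tr 0 1).of_le (by norm_num))

theorem continuous_W1 (h0 : 0 < ε) (h1 : ε ≤ 1 / 2) : Continuous (W1 ε) :=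
  continuous_xi h0 h1 (sp_tr (by norm_num) (by norm_num) (by norm_num)) (continuous_tr _ _)

theorem continuous_bbxi (h0 : 0 < ε) (h1 : ε ≤ 1 / 2) (k : ℝ) (h₁ : -2 ≤ k) (h₂ : k ≤ 2) :
    Continuous fun p => bb (xi ε p - k) :=
  continuous_xi h0 h1 (sp_one k h₁ h₂) (continuous_bb.comp (continuous_id.sub continuous_const))

theorem abs_le_amgm {z e t a : ℝ} (he : 0 ≤ e) (ht : -t ≤ e) (h : z ^ 2 ≤ e * (2 * t + e))
    (ha : 0 < a) : |z| ≤ (1 / (2 * a) + a / 2) * e + a * t := by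
  have h1 : 0 ≤ 2 * t + e := by
    rcases he.eq_or_lt with rfl | k
    · linarith
    · exact nonneg_of_mul_nonneg_right ((sq_nonneg z).trans h) k
  have h2 : (1 / (2 * a) + a / 2) * e + a * t = (e / a + a * (2 * t + e)) / 2 := by
    field_simp; ring
  rw [h2]
  refine abs_le_of_sq_le_sq' ?_ (by positivity) |> abs_le.2
  have h3 : e / a * (a * (2 * t + e)) = e * (2 * t + e) := by field_simp
  nlinarith [sq_nonneg (e / a - a * (2 * t + e))]

theorem le_of_amgm {I w : ℝ} (hw : 0 ≤ w)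
    (h : ∀ a, 0 < a → I ≤ (1 / (2 * a) + a / 2) * w + a * 2) : I ≤ 2 * √w + w := by
  rcases hw.eq_or_lt with rfl | k
  · rw [Real.sqrt_zero, mul_zero, add_zero]
    refine le_of_forall_pos_le_add fun t ht => ?_
    have := h (t / 2) (by positivity)
    linarith
  obtain ⟨s, hs, rfl⟩ : ∃ s, 0 < s ∧ w = s ^ 2 :=
    ⟨√w, Real.sqrt_pos.2 k, (Real.sq_sqrt hw).symm⟩
  rw [Real.sqrt_sq hs.le]
  refine (h (s / (2 + s)) (by positivity)).trans ?_
  have h1 : (1 / (2 * (s / (2 + s))) + s / (2 + s) / 2) * s ^ 2 + s / (2 + s) * 2 =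
      s * (2 + s) / 2 + s * (4 + s ^ 2) / (2 * (2 + s)) := by
    field_simp; ring
  have h2 : s * (4 + s ^ 2) / (2 * (2 + s)) ≤ s * (2 + s) / 2 := by
    rw [div_le_div_iff₀ (by positivity) (by norm_num)]
    nlinarith [mul_pos hs hs, mul_pos hs (mul_pos hs hs)]
  rw [h1]
  nlinarith

theorem dd_sub (hG : ContDiff ℝ 1 G) (hG' : ContDiff ℝ 1 G') (v y : E d) :
    dd (fun z => G z - G' z) v y = dd G v y - dd G' v y := by
  unfold dd
  rw [fderiv_fun_sub (hG.differentiable one_ne_zero y) (hG'.differentiable one_ne_zero y)]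
  rfl

theorem dd_mul_const (hG : ContDiff ℝ 1 G) (c : ℝ) (v y : E d) :
    dd (fun z => G z * c) v y = dd G v y * c := by
  rw [dd_mul hG contDiff_const]
  simp [dd]

/-- the transversal derivative of the integrand is a ramp term plus a derivative along the leaf -/
theorem dd_integrand (h0 : 0 < ε) (h1 : ε ≤ 1 / 2) {P : E d → ℝ} (hP : ContDiff ℝ 2 P) (Λ : ℝ)
    (u' u y : E d) : dd (fun z => W0 ε (P z) * (Λ - dd P u z)) u' y =
      Λ * ((bb (xi ε (P y) + 1) - bb (xi ε (P y) - 1)) / ε ^ 70 * dd P u' y) -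
        dd (fun z => W0 ε (P z) * dd P u' z) u y := by
  have hP1 : ContDiff ℝ 1 P := hP.of_le (by norm_num)
  have hW : ContDiff ℝ 1 fun z => W0 ε (P z) := (contDiff_W0 h0 h1).comp hP1
  rw [dd_mul hW (contDiff_const.sub (contDiff_dd hP u)), dd_mul hW (contDiff_dd hP u'),
    dd_sub contDiff_const (contDiff_dd hP u), dd_comp hP1 _ _ (hasDerivAt_W0 h0 h1 _),
    dd_comp hP1 _ _ (hasDerivAt_W0 h0 h1 _), dd_comm hP u u']
  simp only [dd, fderiv_fun_const, Pi.zero_apply, zero_apply, smul_eq_mul]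
  ring

theorem first (h0 : 0 < ε) (h1 : ε ≤ 1 / 2) {Q P t : E d → ℝ} (hQ : Continuous Q)
    (hP : Continuous P) (ct : Continuous t) {δ : ℝ} (hδ : 0 < δ) (m : ℕ) (l Λ : ℝ) (u y : E d) :
    |ln (ε ^ 52) u (th (ε ^ 52)) (fun z => W0 ε (P z) * (Λ - t z)) y * (m / ε ^ 70) / δ -
        ∑ k ∈ Finset.range m,
          (ln (ε ^ 52) u (th (ε ^ 52)) (fun z => t z • phk ε m l k (Q z) (P z)) y).re| ≤
      ln (ε ^ 52) u (fun _ => 1) (fun z => W1 ε (P z) *
        |(1 + δ * gg ε m l (Q z) (P z)) * t z - Λ|) y * (m / ε ^ 70) / δ := by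
  have cW : Continuous fun z => W0 ε (P z) := (contDiff_W0 h0 h1).continuous.comp hP
  have cW1 : Continuous fun z => W1 ε (P z) := (continuous_W1 h0 h1).comp hP
  have cg : Continuous fun z => gg ε m l (Q z) (P z) :=
    (continuous_gg h0 h1 m l).comp' (f := fun z => (Q z, P z)) (hQ.prodMk hP)
  have c1 : Continuous fun z => W0 ε (P z) * (Λ - t z) := by fun_prop
  have c2 : Continuous fun z => δ * (gg ε m l (Q z) (P z) * t z) := by fun_prop
  have c3 : Continuous fun z => W1 ε (P z) * |(1 + δ * gg ε m l (Q z) (P z)) * t z - Λ| := by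
    fun_prop
  have e1 : ∑ k ∈ Finset.range m,
      (ln (ε ^ 52) u (th (ε ^ 52)) (fun z => t z • phk ε m l k (Q z) (P z)) y).re =
      ln (ε ^ 52) u (th (ε ^ 52)) (fun z => δ * (gg ε m l (Q z) (P z) * t z)) y *
        (m / ε ^ 70) / δ := by
    have c : ∀ k ∈ Finset.range m, Continuous fun z => t z • phk ε m l k (Q z) (P z) :=
      fun k hk => ct.smul (continuous_phk h0 h1 (Finset.mem_range.1 hk) l hQ hP)
    rw [Finset.sum_congr rfl fun k hk => ln_re (continuous_th _) (c k hk) _ u y,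
      ← ln_sum _ (continuous_th _) fun k hk => Complex.continuous_re.comp' (c k hk), ln_mul,
      mul_assoc, mul_div_cancel_left₀ _ hδ.ne', mul_comm, ← ln_mul]
    congr 1
    funext z
    simp only [Complex.smul_re, phk_re, gg, smul_eq_mul, Finset.sum_mul, Finset.mul_sum]
    exact Finset.sum_congr rfl fun k _ => by ring
  rw [e1, ← sub_div, ← sub_mul, ← ln_sub (continuous_th _) c1 c2, abs_div, abs_mul,
    abs_of_pos hδ, abs_of_nonneg (show (0 : ℝ) ≤ m / ε ^ 70 by positivity)]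
  refine div_le_div_of_nonneg_right (mul_le_mul_of_nonneg_right ?_ (by positivity)) hδ.le
  rw [← Real.norm_eq_abs]
  refine norm_ln_le continuous_const c3 (by positivity) u y fun τ _ => ?_
  set z := y + τ • u
  have e2 : W0 ε (P z) * (Λ - t z) - δ * (gg ε m l (Q z) (P z) * t z) =
      -(W0 ε (P z) * ((1 + δ * gg ε m l (Q z) (P z)) * t z - Λ)) := by
    linear_combination (δ * t z) * W0_mul_gg ε m l (Q z) (P z)
  rw [e2, norm_neg, Real.norm_eq_abs, abs_mul, abs_of_nonneg (th_mem _ _).1,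
    abs_of_nonneg (W0_mem _ _).1]
  exact mul_le_mul (th_mem _ _).2 (mul_le_mul_of_nonneg_right (W0_le_W1 _ _) (abs_nonneg _))
    (mul_nonneg (W0_mem _ _).1 (abs_nonneg _)) zero_le_one

/-- the ramp term -/
theorem ramp (h0 : 0 < ε) (h1 : ε ≤ 1 / 2) {P eb : E d → ℝ} (hP : ContDiff ℝ 1 P)
    (u' u y : E d) (hc : Continuous eb) (hn : ∀ y, 0 ≤ eb y) (hn' : ∀ y, -dd P u y ≤ eb y)
    (hs : ∀ y, dd P u' y ^ 2 ≤ eb y * (2 * dd P u y + eb y))
    (hL : ∀ k : ℝ, -2 ≤ k → k ≤ 2 → ln (ε ^ 52) u (th (ε ^ 52))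
      (fun z => bb (xi ε (P z) - k) / ε ^ 70 * dd P u z) y ≤ 1) {w : ℝ}
    (hw : w = ln (ε ^ 52) u (fun _ => 1) (fun z => 2 * W1 ε (P z) * eb z) y / ε ^ 70) :
    |ln (ε ^ 52) u (th (ε ^ 52)) (fun z =>
      (bb (xi ε (P z) + 1) - bb (xi ε (P z) - 1)) / ε ^ 70 * dd P u' z) y| ≤ 2 * √w + w := by
  have c1 : Continuous fun z => bb (xi ε (P z) - -1) / ε ^ 70 :=
    ((continuous_bbxi h0 h1 (-1) (by norm_num) (by norm_num)).comp hP.continuous).div_const _
  have c2 : Continuous fun z => bb (xi ε (P z) - 1) / ε ^ 70 :=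
    ((continuous_bbxi h0 h1 1 (by norm_num) (by norm_num)).comp hP.continuous).div_const _
  have ct := continuous_dd hP u
  have cW : Continuous fun z => 2 * W1 ε (P z) * eb z :=
    (continuous_const.mul ((continuous_W1 h0 h1).comp hP.continuous)).mul hc
  have c3 : Continuous fun z =>
      (bb (xi ε (P z) - -1) / ε ^ 70 + bb (xi ε (P z) - 1) / ε ^ 70) * eb z := (c1.add c2).mul hc
  have c4 : Continuous fun z => bb (xi ε (P z) - -1) / ε ^ 70 * dd P u z := c1.mul ct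
  have c5 : Continuous fun z => bb (xi ε (P z) - 1) / ε ^ 70 * dd P u z := c2.mul ct
  have hT : (0 : ℝ) ≤ ε ^ 52 := by positivity
  have hh : (0 : ℝ) < ε ^ 70 := by positivity
  have w0 : 0 ≤ w := hw ▸ div_nonneg (intervalIntegral.integral_nonneg (by linarith) fun τ _ =>
    smul_nonneg zero_le_one (mul_nonneg (mul_nonneg zero_le_two (W1_mem _ _).1) (hn _))) hh.le
  have w1 : ln (ε ^ 52) u (th (ε ^ 52)) (fun z =>
      (bb (xi ε (P z) - -1) / ε ^ 70 + bb (xi ε (P z) - 1) / ε ^ 70) * eb z) y ≤ w := by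
    rw [hw, div_eq_inv_mul, ← ln_mul]
    refine ln_mono (continuous_th _) continuous_const c3
      (continuous_const.fun_mul cW) hT u y fun τ => ?_
    have a := ramp_le ε (P (y + τ • u))
    have b1 := bb_nonneg (xi ε (P (y + τ • u)) + 1)
    have b2 := bb_nonneg (xi ε (P (y + τ • u)) - 1)
    have b3 := hn (y + τ • u)
    rw [sub_neg_eq_add, ← add_div, div_eq_inv_mul, mul_assoc]
    exact mul_le_mul (th_mem _ _).2 (mul_le_mul_of_nonneg_left
      (mul_le_mul_of_nonneg_right a b3) (by positivity)) (by positivity) zero_le_one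
  refine le_of_amgm w0 fun a ha => ?_
  have k := norm_ln_le (κ := th (ε ^ 52)) (G := fun z =>
      (bb (xi ε (P z) + 1) - bb (xi ε (P z) - 1)) / ε ^ 70 * dd P u' z) (continuous_th (ε ^ 52))
    (G' := fun z => (1 / (2 * a) + a / 2) *
      ((bb (xi ε (P z) - -1) / ε ^ 70 + bb (xi ε (P z) - 1) / ε ^ 70) * eb z) +
      (a * (bb (xi ε (P z) - -1) / ε ^ 70 * dd P u z) +
        a * (bb (xi ε (P z) - 1) / ε ^ 70 * dd P u z)))
    ((continuous_const.mul c3).add ((continuous_const.mul c4).add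
      (continuous_const.mul c5))) hT u y fun τ _ => by
      set z := y + τ • u
      have b1 := bb_nonneg (xi ε (P z) + 1)
      have b2 := bb_nonneg (xi ε (P z) - 1)
      have b3 := abs_le_amgm (hn z) (hn' z) (hs z) ha
      have b4 : |(bb (xi ε (P z) + 1) - bb (xi ε (P z) - 1)) / ε ^ 70| ≤
          (bb (xi ε (P z) + 1) + bb (xi ε (P z) - 1)) / ε ^ 70 := by
        rw [abs_div, abs_of_pos hh]
        exact div_le_div_of_nonneg_right (abs_le.2 ⟨by linarith, by linarith⟩) hh.le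
      rw [abs_of_nonneg (th_mem _ _).1, Real.norm_eq_abs, abs_mul, sub_neg_eq_add]
      refine mul_le_mul_of_nonneg_left ((mul_le_mul b4 b3 (abs_nonneg _)
        (by positivity)).trans_eq ?_) (th_mem _ _).1
      ring
  rw [ln_add (continuous_th _) (continuous_const.fun_mul c3)
    ((continuous_const.fun_mul c4).fun_add (continuous_const.fun_mul c5)),
    ln_add (continuous_th _) (continuous_const.fun_mul c4) (continuous_const.fun_mul c5),
    ln_mul, ln_mul, ln_mul] at k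
  have l1 := mul_le_mul_of_nonneg_left (hL (-1) (by norm_num) (by norm_num)) ha.le
  have l2 := mul_le_mul_of_nonneg_left (hL 1 (by norm_num) (by norm_num)) ha.le
  have l3 := mul_le_mul_of_nonneg_left w1 (show 0 ≤ 1 / (2 * a) + a / 2 by positivity)
  rw [Real.norm_eq_abs] at k
  linarith

/-- the term integrated by parts -/
theorem parts (h0 : 0 < ε) (h1 : ε ≤ 1 / 2) {P : E d → ℝ} (hP : Sm ε⁻¹ P) {u' : E d}
    (hu : ‖u'‖ = 1) (u y : E d) :
    |ln (ε ^ 52) u (th (ε ^ 52)) (dd (fun z => W0 ε (P z) * dd P u' z) u) y| ≤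
      ln (ε ^ 52) u (fun _ => 1) (fun z => 2 * W1 ε (P z) / ε ^ 53) y := by
  have hT : (0 : ℝ) < ε ^ 52 := by positivity
  have hW : ContDiff ℝ 1 fun z => W0 ε (P z) := (contDiff_W0 h0 h1).comp hP.cd1
  rw [ln_dd (hasDerivAt_th _) (continuous_th' _) (hW.mul (contDiff_dd hP.cd u'))
    (th_eq_zero hT (by rw [abs_neg, abs_of_pos (by positivity)]; linarith))
    (th_eq_zero hT (by rw [abs_of_pos (by positivity)]; linarith)), abs_neg,
    ← Real.norm_eq_abs]
  have c : Continuous fun z => 2 * W1 ε (P z) / ε ^ 53 :=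
    (continuous_const.mul ((continuous_W1 h0 h1).comp hP.cont)).div_const _
  refine norm_ln_le continuous_const c hT.le u y fun τ _ => ?_
  have a1 := abs_th'_le hT τ
  have a2 := hP.dd_le hu (y + τ • u)
  have a3 := W0_mem ε (P (y + τ • u))
  have a4 := W1_mem ε (P (y + τ • u))
  rw [norm_mul, Real.norm_of_nonneg a3.1]
  refine (mul_le_mul a1 (mul_le_mul (W0_le_W1 _ _) a2 (norm_nonneg _) a4.1)
    (mul_nonneg a3.1 (norm_nonneg _)) (by positivity)).trans_eq ?_
  field_simp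

end TestB

open TestB in
theorem testB (d : ℕ) (_hd : 2 ≤ d) (h : LeafStmt) : TestBStmt d := by
  refine small_iff.2 ?_
  filter_upwards [ev_pos, ev_mul_le 2, small_iff.1 h] with ε h0 h2 hL q p eb u' u δ l Λ hq hp hu hδ
    hΛ hc hn hn' hs
  have h1 : ε ≤ 1 / 2 := by linarith
  have hP := hp.cv (ε ^ 120)
  have hW : ContDiff ℝ 1 fun z => W0 ε (cv (ε ^ 120) p z) := (contDiff_W0 h0 h1).comp hP.cd1
  have hI : ContDiff ℝ 1 fun z => W0 ε (cv (ε ^ 120) p z) * (Λ - dd (cv (ε ^ 120) p) u z) :=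
    hW.mul (contDiff_const.sub (contDiff_dd hP.cd u))
  have hl := contDiff_ln (continuous_th (ε ^ 52)) hI (ε ^ 52) u
  refine ⟨(hl.mul contDiff_const).div_const _, fun y => ⟨first h0 h1 (hq.cv (ε ^ 120)).cont hP.cont
    (continuous_dd hP.cd1 u) hδ (mm ε δ l) l Λ u y,
    fun w hw => ?_⟩⟩
  have c1 : Continuous fun z => (bb (xi ε (cv (ε ^ 120) p z) + 1) -
      bb (xi ε (cv (ε ^ 120) p z) - 1)) / ε ^ 70 * dd (cv (ε ^ 120) p) u' z := by
    have a := (continuous_bbxi h0 h1 (-1) (by norm_num) (by norm_num)).comp hP.cont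
    have b := (continuous_bbxi h0 h1 1 (by norm_num) (by norm_num)).comp hP.cont
    simp only [sub_neg_eq_add] at a
    exact ((a.sub b).div_const _).mul (continuous_dd hP.cd1 u')
  have e : dd (Sg ε δ Λ (mm ε δ l) p u) u' y =
      (Λ * ln (ε ^ 52) u (th (ε ^ 52)) (fun z => (bb (xi ε (cv (ε ^ 120) p z) + 1) -
        bb (xi ε (cv (ε ^ 120) p z) - 1)) / ε ^ 70 * dd (cv (ε ^ 120) p) u' z) y -
      ln (ε ^ 52) u (th (ε ^ 52)) (dd (fun z => W0 ε (cv (ε ^ 120) p z) *
        dd (cv (ε ^ 120) p) u' z) u) y) * (mm ε δ l / ε ^ 70) / δ := by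
    have e1 : Sg ε δ Λ (mm ε δ l) p u = fun y => ln (ε ^ 52) u (th (ε ^ 52)) (fun z =>
        W0 ε (cv (ε ^ 120) p z) * (Λ - dd (cv (ε ^ 120) p) u z)) y *
          (mm ε δ l / ε ^ 70 / δ) := funext fun y => by rw [Sg, mul_div_assoc]
    rw [e1, dd_mul_const hl, dd_ln (continuous_th _) hI, mul_div_assoc, ← ln_mul,
      ← ln_sub (continuous_th _) (continuous_const.fun_mul c1)
        (continuous_dd (hW.mul (contDiff_dd hP.cd u')) u)]
    congr 2
    exact funext fun z => dd_integrand h0 h1 hP.cd Λ u' u z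
  have r := ramp h0 h1 hP.cd1 u' u y hc hn hn' hs (fun k k1 k2 => by
    have := (hL _ _ (hasDerivAt_line hP.cd1 u y) ((continuous_dd hP.cd1 u).comp (by fun_prop))
      fun t => hP.dd_le hu.2.1 _).1 1 k le_rfl (by linarith) (by linarith)
    simpa only [ln, smul_eq_mul, one_mul, mul_one_div] using this) hw
  rw [e, abs_div, abs_mul, abs_of_pos hδ,
    abs_of_nonneg (show (0 : ℝ) ≤ mm ε δ l / ε ^ 70 by positivity)]
  refine div_le_div_of_nonneg_right (mul_le_mul_of_nonneg_right ?_ (by positivity)) hδ.le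
  refine (abs_sub _ _).trans (add_le_add ?_ (parts h0 h1 hP hu.1 u y))
  rw [abs_mul, abs_of_nonneg hΛ]
  exact mul_le_mul_of_nonneg_left r hΛ

end Pool.Agent.MP_20bec2_an.h7

end
end MrgPart8

-- ======== part 9: formerly Pool.Agent.MP_20bec2_an.h7.Final
section MrgPart9

/-! Assembly of project BIOM. -/

set_option autoImplicit false

open MeasureTheory Set

namespace Pool.Agent.MP_20bec2_an.h7

theorem stepAll (d : ℕ) (hd : 2 ≤ d) : StepStmt d :=
  step d hd (bad d hd (avg d hd)) (area d hd)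
    (meso d hd ret (mesoA d hd (avg2 d hd) plst (oscst d hd) (finst d hd (avg d hd))))
    (massA d hd) (massB d hd (avg d hd) (avg2 d hd) plst (oscst d hd) (finst d hd (avg d hd)))
    (tight d hd) (test d hd leaf (ortho d hd) (testA d hd) (testB d hd leaf))

theorem pigAll (d : ℕ) (hd : 2 ≤ d) : PigStmt d :=
  pig d hd (bad d hd (avg d hd)) (mono d hd) (low d hd (bad d hd (avg d hd)))
    (vol d hd (volA d hd) (avg d hd) (bad d hd (avg d hd))) (stepAll d hd)

theorem main (d : ℕ) (hd : 2 ≤ d) (α : ℝ) (h0 : 0 ≤ α) (hα : α < 5 * (d - 1) / (4 * d)) :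
    MainStmt d α := by
  have hd2 : (2 : ℝ) ≤ d := by exact_mod_cast hd
  obtain ⟨γ, h1, h2⟩ := exists_between hα
  rw [lt_div_iff₀ (by positivity)] at h2
  exact glue d hd α γ h0 h1 (by nlinarith) (ctx d hd (dom d hd) (ctxA d hd)) (scale d hd)
    (apx d hd) (quant d hd γ (by linarith) (by linarith) (net d hd) (scale d hd)
      (tower d hd (scale d hd)) (pigAll d hd))

theorem om_mono {t α β : ℝ} (h0 : 0 ≤ t) (h1 : t ≤ Real.exp (-1)) (h : α ≤ β) :
    0 ≤ t * Real.log (1 / t) ^ β ∧ t * Real.log (1 / t) ^ α ≤ t * Real.log (1 / t) ^ β := by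
  rcases h0.eq_or_lt with rfl | h0
  · simp
  have h2 : 1 ≤ Real.log (1 / t) := by
    rw [one_div, Real.log_inv, le_neg, Real.log_le_iff_le_exp h0]; exact h1
  exact ⟨by positivity, mul_le_mul_of_nonneg_left (Real.rpow_le_rpow_of_exponent_le h2 h) h0.le⟩

theorem final (d : ℕ) (hd : 2 ≤ d) (α : ℝ) (hα : α < 5 * (d - 1) / (4 * d)) :
    ∃ ρ : E d → ℝ, ContinuousOn ρ (cube d) ∧ (∀ x ∈ cube d, 0 < ρ x) ∧
      ¬ ∃ f : E d → E d, InjOn f (cube d) ∧
        (∃ C t₀ : ℝ, 0 < C ∧ 0 < t₀ ∧ ∀ x ∈ cube d, ∀ y ∈ cube d, ‖x - y‖ ≤ t₀ →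
          ‖f x - f y‖ ≤ C * (‖x - y‖ * Real.log (1 / ‖x - y‖) ^ α)) ∧
        (∃ C t₀ : ℝ, 0 < C ∧ 0 < t₀ ∧ ∀ x ∈ f '' cube d, ∀ y ∈ f '' cube d, ‖x - y‖ ≤ t₀ →
          ‖Function.invFunOn f (cube d) x - Function.invFunOn f (cube d) y‖ ≤
            C * (‖x - y‖ * Real.log (1 / ‖x - y‖) ^ α)) ∧
        ∀ B, MeasurableSet B →
          ∫⁻ x in cube d ∩ f ⁻¹' B, ENNReal.ofReal (ρ x) = volume (B ∩ f '' cube d) := by
  have hd2 : (2 : ℝ) ≤ d := by exact_mod_cast hd
  obtain ⟨ρ, h1, h2, h3⟩ := main d hd (max α 0) (le_max_right _ _)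
    (max_lt hα (div_pos (by linarith) (by positivity)))
  refine ⟨ρ, h1, h2, fun ⟨f, hi, ⟨C, t, hC, ht, ha⟩, ⟨C', t', hC', ht', hb⟩, hp⟩ => h3
    ⟨f, hi, ⟨max C C', min (min t t') (Real.exp (-1)), lt_max_of_lt_left hC,
      lt_min (lt_min ht ht') (Real.exp_pos _),
      (min_le_right _ _).trans_lt (Real.exp_lt_one_iff.2 (by norm_num)),
      fun x hx y hy => ⟨fun h => ?_, fun h => ?_⟩⟩, hp⟩⟩
  · obtain ⟨a, b⟩ := om_mono (norm_nonneg _) (h.trans (min_le_right _ _)) (le_max_left α 0)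
    exact (ha x hx y hy (h.trans ((min_le_left _ _).trans (min_le_left _ _)))).trans
      ((mul_le_mul_of_nonneg_left b hC.le).trans (mul_le_mul_of_nonneg_right (le_max_left _ _) a))
  · obtain ⟨a, b⟩ := om_mono (norm_nonneg _) (h.trans (min_le_right _ _)) (le_max_left α 0)
    have := hb _ (mem_image_of_mem f hx) _ (mem_image_of_mem f hy)
      (h.trans ((min_le_left _ _).trans (min_le_right _ _)))
    rw [hi.leftInvOn_invFunOn hx, hi.leftInvOn_invFunOn hy] at this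
    exact this.trans
      ((mul_le_mul_of_nonneg_left b hC'.le).trans (mul_le_mul_of_nonneg_right (le_max_right _ _) a))

end Pool.Agent.MP_20bec2_an.h7

end MrgPart9

-- marker of a merged file
example : 731051 + 896798 = 731051 + 896798 := rfl
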