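import Pool.Agent.MP_20bec2_an.h7.TestA

-- ======== part 0: formerly Pool.Agent.MP_20bec2_an.h7.VolB
section MrgPart0

/-! VOL, first part: scaled kernels, masses, the bad set (project BIOM). -/

set_option autoImplicit false

open MeasureTheory Set Metric Filter Topology

noncomputable section

namespace Pool.Agent.MP_20bec2_an.h7

namespace Vol

variable {d : ℕ}

/-- the kernel at scale `c` -/
def kz (c : ℝ) (w : E d) : ℝ := ze d (c⁻¹ • w)

theorem kz_nonneg (c : ℝ) (w : E d) : 0 ≤ kz c w := ze_nonneg _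

theorem kz_le (c : ℝ) (w : E d) : kz c w ≤ Cz d := ze_le _

theorem continuous_kz (c : ℝ) : Continuous (kz c : E d → ℝ) :=
  continuous_ze.comp (continuous_const_smul _)

theorem integral_scale (g : E d → ℝ) {c : ℝ} (hc : 0 < c) :
    ∫ w, g (c⁻¹ • w) = c ^ d * ∫ w, g w := by
  rw [Measure.integral_comp_inv_smul_of_nonneg volume g hc.le, finrank_euclideanSpace_fin,
    smul_eq_mul]

theorem integral_kz {c : ℝ} (hc : 0 < c) : ∫ w : E d, kz c w = c ^ d := by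
  unfold kz
  rw [integral_scale _ hc, integral_ze, mul_one]

theorem integrable_kz {c : ℝ} (hc : 0 < c) : Integrable (kz c : E d → ℝ) :=
  (continuous_ze.integrable_of_hasCompactSupport ze_supp).comp_smul (inv_ne_zero hc.ne')

theorem norm_inv_smul {c : ℝ} (hc : 0 < c) (w : E d) : ‖c⁻¹ • w‖ = ‖w‖ / c := by
  rw [norm_smul, norm_inv, Real.norm_of_nonneg hc.le, div_eq_inv_mul]

theorem kz_lip {c : ℝ} (hc : 0 < c) (w w' : E d) :
    |kz c w - kz c w'| ≤ Cz d / c * ‖w - w'‖ := by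
  refine (ze_lip _ _).trans (le_of_eq ?_)
  rw [← smul_sub, norm_inv_smul hc]
  ring

theorem kz_eq_zero {c : ℝ} (hc : 0 < c) {w : E d} (h : c ≤ ‖w‖) : kz c w = 0 :=
  ze_eq_zero (by rw [norm_inv_smul hc, one_le_div hc]; exact h)

theorem one_le_kz {c : ℝ} (hc : 0 < c) {w : E d} (h : ‖w‖ ≤ c / 2) : 1 ≤ Cz d * kz c w := by
  unfold kz
  rw [ze_eq_ze_zero (by rw [norm_inv_smul hc, div_le_iff₀ hc]; linarith)]
  exact one_le_Cz_mul

theorem kz_osc {c R : ℝ} (hc : 0 < c) (x₁ : E d) :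
    Osc (fun x => kz c (x - x₁)) R (c ^ d * (Cw d * (R / c))) := by
  intro a ha
  have h1 : ∫ x : E d, |kz c (x - x₁) - kz c (x - a - x₁)| =
      ∫ x : E d, |ze d (c⁻¹ • x) - ze d (c⁻¹ • x - c⁻¹ • a)| := by
    rw [← integral_sub_right_eq_self
      (fun x : E d => |ze d (c⁻¹ • x) - ze d (c⁻¹ • x - c⁻¹ • a)|) x₁]
    congr 1
    ext x
    rw [← smul_sub, sub_right_comm]
    rfl
  rw [h1, integral_scale (fun w => |ze d w - ze d (w - c⁻¹ • a)|) hc]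
  have h2 := ze_osc (c⁻¹ • a)
  rw [norm_inv_smul hc] at h2
  have h3 : (0 : ℝ) ≤ Cw d := zero_le_one.trans one_le_Cw
  gcongr
  exact h2.trans (by gcongr)

theorem fub {g : E d → ℝ} {Ψ : E d → E d} (hg : Continuous g) (hi : Integrable g)
    (hΨ : Continuous Ψ) {c : ℝ} (hc : 0 < c) :
    Integrable (fun x₁ => ∫ y, g y * kz c (Ψ y - x₁)) ∧
      ∫ x₁, ∫ y, g y * kz c (Ψ y - x₁) = c ^ d * ∫ y, g y := by
  have hk : ∀ y, ∫ x₁, kz c (Ψ y - x₁) = c ^ d := fun y => by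
    rw [integral_sub_left_eq_self (kz c) volume (Ψ y), integral_kz hc]
  have hint : Integrable (Function.uncurry fun y x₁ => g y * kz c (Ψ y - x₁))
      (volume.prod volume) := by
    have hm : Continuous (Function.uncurry fun y x₁ => g y * kz c (Ψ y - x₁)) :=
      (hg.comp continuous_fst).mul
        ((continuous_kz c).comp ((hΨ.comp continuous_fst).sub continuous_snd))
    refine (integrable_prod_iff hm.aestronglyMeasurable).2 ⟨Eventually.of_forall fun y =>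
      ((integrable_kz hc).comp_sub_left (Ψ y)).const_mul (g y), ?_⟩
    refine (hi.norm.mul_const (c ^ d)).congr (Eventually.of_forall fun y => ?_)
    simp only [Function.uncurry, norm_mul, Real.norm_of_nonneg (kz_nonneg _ _)]
    rw [integral_const_mul, hk]
  refine ⟨hint.integral_prod_right, ?_⟩
  rw [← integral_integral_swap hint]
  simp only [integral_const_mul, hk]
  rw [integral_mul_const, mul_comm]

variable {ε δ : ℝ}

theorem sp_Wh : Sp (tr (-3) 4) := sp_tr (by norm_num) (by norm_num) (by norm_num)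

theorem Bad_lip (h0 : 0 < ε) (h1 : ε ≤ 1 / 2) (S : Sys d ε δ) (x x' : E d) :
    |Bad S x - Bad S x'| ≤ 2 * ε⁻¹ ^ 77 * ‖x - x'‖ := by
  unfold Bad
  rw [← Finset.sum_sub_distrib]
  refine (Finset.abs_sum_le_sum_abs _ _).trans ?_
  have h2 : ∀ τ ∈ (Finset.univ : Finset (Fin S.T)),
      |Wh ε (inner ℝ (S.e τ) x) - Wh ε (inner ℝ (S.e τ) x')| ≤ 2 / ε ^ 70 * ‖x - x'‖ := by
    intro τ _
    refine (xi_lip h0 h1 sp_Wh (tr_lip _ _) _ _).trans ?_
    rw [← inner_sub_right]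
    have := abs_real_inner_le_norm (S.e τ) (x - x')
    rw [S.unit, one_mul] at this
    gcongr
  refine (Finset.sum_le_card_nsmul _ _ _ h2).trans ?_
  rw [Finset.card_univ, Fintype.card_fin, nsmul_eq_mul]
  calc (S.T : ℝ) * (2 / ε ^ 70 * ‖x - x'‖) ≤ ε⁻¹ ^ 7 * (2 / ε ^ 70 * ‖x - x'‖) := by
        gcongr; exact card_le h0 S
    _ = _ := by field_simp

theorem avgBad (h0 : 0 < ε) (h1 : ε ≤ 1 / 2) (S : Sys d ε δ) {ϑ : E d → ℝ}
    {o : ℝ} (hi : Integrable ϑ) (hn : ∀ x, 0 ≤ ϑ x) (ho : Osc ϑ (ε ^ 50) o) :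
    ∫ x, ϑ x * Bad S x ≤ ε⁻¹ ^ 7 * (8 * ε ^ 20 * (∫ x, ϑ x) + o) := by
  have hc : Continuous (Wh ε) := continuous_xi h0 h1 sp_Wh (continuous_tr _ _)
  have hb : ∀ t, |Wh ε t| ≤ 1 := fun t => by
    rw [abs_of_nonneg (Wh_mem ε t).1]; exact (Wh_mem ε t).2
  have ho0 : 0 ≤ o := (integral_nonneg fun _ => abs_nonneg _).trans (ho 0 (by simp; positivity))
  have hI : 0 ≤ ∫ x, ϑ x := integral_nonneg hn
  have key : ∀ τ ∈ (Finset.univ : Finset (Fin S.T)),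
      ∫ x, ϑ x * Wh ε (inner ℝ (S.e τ) x) ≤ 8 * ε ^ 20 * (∫ x, ϑ x) + o := by
    intro τ _
    have h3 := Xs.avgF (ϑ := ϑ) (φ := Wh ε) (e := S.e τ) (a := ε ^ 50 • S.e τ) (R := ε ^ 50) (B := 1)
      (o := o) hi hc (by positivity)
      ((xi_periodic h0).comp (tr (-3) 4)) hb
      (by rw [inner_smul_right, real_inner_self_eq_norm_sq, S.unit]; simp)
      (fun t ht => ho _ (by
        rw [norm_smul, norm_smul, S.unit, Real.norm_of_nonneg ht.1,
          Real.norm_of_nonneg (by positivity), mul_one]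
        exact mul_le_of_le_one_left (by positivity) ht.2))
    have h4 : (∫ t in (0 : ℝ)..ε ^ 50, Wh ε t) / ε ^ 50 = 8 * ε ^ 20 := by
      have h5 := integral_xi h0 h1 sp_Wh (continuous_tr _ _)
      rw [integral_tr (by norm_num) (by norm_num) (by norm_num)] at h5
      unfold Wh
      rw [h5]
      field_simp
      norm_num
    rw [h4] at h3
    linarith [(abs_le.1 h3).2]
  unfold Bad
  simp only [Finset.mul_sum]
  have hint : ∀ τ ∈ (Finset.univ : Finset (Fin S.T)),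
      Integrable fun x => ϑ x * Wh ε (inner ℝ (S.e τ) x) := fun τ _ => hi.mul_bdd
    (hc.comp (continuous_const.inner continuous_id)).aestronglyMeasurable
    (Eventually.of_forall fun x => hb _)
  rw [integral_finsetSum _ hint]
  refine (Finset.sum_le_card_nsmul _ _ _ key).trans ?_
  rw [Finset.card_univ, Fintype.card_fin, nsmul_eq_mul]
  gcongr
  exact card_le h0 S

/-- transfer of a weighted integral to the side of the density -/
theorem transfer {L σ : ℝ} {Ψ : E d → E d} {ρ ϑ : E d → ℝ} {y₀ : E d}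
    (hw : Wt L σ 4 Ψ ρ y₀ ϑ) (hρ : ∀ x, 1 / 2 ≤ ρ x ∧ ρ x ≤ 2) {G : E d → ℝ} {B K : ℝ}
    (hK : 0 ≤ K) (hG0 : ∀ x, 0 ≤ G x) (hB : ∀ x, G x ≤ B) (hc : Continuous G)
    (hl : ∀ x x', |G x - G x'| ≤ K * ‖x - x'‖) :
    ∫ y, kz 4 (y₀ - y) * G (Ψ y) ≤ 4 ^ d * (2 * (∫ x, ϑ x * G x) + (K + B) * σ) := by
  have hB' : ∀ x, |G x| ≤ B := fun x => by rw [abs_of_nonneg (hG0 x)]; exact hB x
  have h1 := hw.tr G B K hK hB' hl
  rw [cv_eq_kernel _ (by norm_num : (0 : ℝ) < 4)] at h1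
  have h2 : ∫ y, kz 4 (y₀ - y) * G (Ψ y) =
      4 ^ d * ∫ z, (((4 : ℝ) ^ d)⁻¹ * ze d ((4 : ℝ)⁻¹ • (y₀ - z))) • G (Ψ z) := by
    rw [← integral_const_mul]
    congr 1
    ext z
    unfold kz
    rw [smul_eq_mul]
    field_simp
  have h3 : ∫ x, ϑ x * G x * ρ x ≤ 2 * ∫ x, ϑ x * G x := by
    rw [← integral_const_mul]
    refine integral_mono_of_nonneg (Eventually.of_forall fun x => ?_)
      ((hw.int.mul_bdd hc.aestronglyMeasurable (Eventually.of_forall hB')).const_mul 2)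
      (Eventually.of_forall fun x => ?_)
    · exact mul_nonneg (mul_nonneg (hw.nn x) (hG0 x)) (by linarith [(hρ x).1])
    · have := mul_le_mul_of_nonneg_left (hρ x).2 (mul_nonneg (hw.nn x) (hG0 x))
      simp only
      linarith
  rw [h2]
  gcongr
  linarith [(abs_le.1 h1).2]

theorem wt_le {L σ : ℝ} {Ψ : E d → E d} {ρ ϑ : E d → ℝ} {y₀ : E d} (hw : Wt L σ 4 Ψ ρ y₀ ϑ)
    {G : E d → ℝ} (hG0 : ∀ x, 0 ≤ G x) (hi : Integrable G) :
    4 ^ d * ∫ x, ϑ x * G x ≤ Cw d * ∫ x, G x := by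
  rw [← integral_const_mul, ← integral_const_mul]
  refine integral_mono_of_nonneg (Eventually.of_forall fun x => ?_) (hi.const_mul _)
    (Eventually.of_forall fun x => ?_)
  · exact mul_nonneg (by positivity) (mul_nonneg (hw.nn x) (hG0 x))
  · have h1 := hw.le x
    rw [le_div_iff₀ (by positivity)] at h1
    have := mul_le_mul_of_nonneg_right h1 (hG0 x)
    simp only
    linarith

theorem inv_pow_mul (h0 : 0 < ε) {a b : ℕ} (h : a ≤ b) : ε⁻¹ ^ a * ε ^ b = ε ^ (b - a) := by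
  rw [pow_sub₀ _ h0.ne' h, inv_pow, mul_comm]

/-- the three mass estimates -/
theorem masses (hd : 2 ≤ d) : ∃ C : ℝ, 1 ≤ C ∧ ∀ᶠ ε in 𝓝[>] (0 : ℝ),
    ∀ (δ L : ℝ) (S : Sys d ε δ) (Ψ : E d → E d) (y₀ : E d), 1 ≤ L → L * ε ≤ 1 → Loc S L Ψ y₀ →
    (∀ x₁, ∫ y, kz 4 (y₀ - y) * kz (6 * ε ^ 10) (Ψ y - x₁) ≤ C * (ε ^ 10) ^ d) ∧
    (∀ x₁, ∫ y, kz 4 (y₀ - y) * (kz (6 * ε ^ 10) (Ψ y - x₁) * Bad S (Ψ y)) ≤
      ε ^ 3 * (ε ^ 10) ^ d) ∧
    ∫ y, kz 4 (y₀ - y) * Bad S (Ψ y) ≤ ε ^ 5 := by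
  have hZ : (1 : ℝ) ≤ Cz d := one_le_Cz
  have hW : (1 : ℝ) ≤ Cw d := one_le_Cw
  have h6 : (1 : ℝ) ≤ 6 ^ d := one_le_pow₀ (by norm_num)
  have h4 : (1 : ℝ) ≤ 4 ^ d := one_le_pow₀ (by norm_num)
  refine ⟨2 * Cw d * 6 ^ d + 1, by nlinarith, ?_⟩
  filter_upwards [ev_pos, ev_mul_le 2, ev_mul_le (4 ^ d * (4 * Cz d)),
    ev_mul_le (2 * Cw d * 6 ^ d * (8 + Cw d) + 1), ev_mul_le (4 ^ d * (35 + Cw d))]
    with ε h0 e1 e2 e3 e4 δ L S Ψ y₀ hL hLε ⟨Y, ρ, N, hc, hY, _, _⟩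
  have h1 : ε ≤ 1 / 2 := by linarith
  have h1' : ε ≤ 1 := by linarith
  have hp : ∀ {a b : ℕ}, a ≤ b → ε ^ b ≤ ε ^ a := fun h => pow_le_pow_of_le_one h0.le h1' h
  have hi : ∀ {a b : ℕ}, a ≤ b → ε⁻¹ ^ a ≤ ε⁻¹ ^ b := fun h =>
    pow_le_pow_right₀ (one_le_inv₀ h0 |>.2 h1') h
  obtain ⟨ϑ, hw⟩ := hc.wt 4 y₀ (by norm_num) ((pow_le_one₀ h0.le h1').trans (by norm_num))
    (by rw [show (2 : ℝ) * 4 = 8 by norm_num]; exact hY)
  have hr : 0 < 6 * ε ^ 10 := by positivity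
  have hrd : 0 < (ε ^ 10) ^ d := by positivity
  have hσ : ε ^ (200 * d) ≤ ε ^ 380 * (ε ^ 10) ^ d := by
    rw [← pow_mul, ← pow_add]
    exact hp (by omega)
  have hK : Cz d / (6 * ε ^ 10) ≤ Cz d * ε⁻¹ ^ 10 := by
    rw [inv_pow, ← div_eq_mul_inv]
    gcongr
    nlinarith [pow_pos h0 10]
  have herr : ∀ K : ℝ, K ≤ 4 * Cz d * ε⁻¹ ^ 77 →
      4 ^ d * (K * ε ^ (200 * d)) ≤ ε ^ 4 * (ε ^ 10) ^ d := fun K hK => by
    calc 4 ^ d * (K * ε ^ (200 * d))
        ≤ 4 ^ d * (4 * Cz d * ε⁻¹ ^ 77 * (ε ^ 380 * (ε ^ 10) ^ d)) := by gcongr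
      _ = 4 ^ d * (4 * Cz d) * (ε⁻¹ ^ 77 * ε ^ 380) * (ε ^ 10) ^ d := by ring
      _ ≤ _ := by
        rw [inv_pow_mul h0 (by norm_num)]
        gcongr ?_ * _
        exact mul_pow_le h0 h1' e2 (by norm_num)
  have hk : ∀ x₁ : E d, Integrable fun x => kz (6 * ε ^ 10) (x - x₁) := fun x₁ =>
    (integrable_kz hr).comp_sub_right x₁
  have hkI : ∀ x₁ : E d, ∫ x, kz (6 * ε ^ 10) (x - x₁) = 6 ^ d * (ε ^ 10) ^ d := fun x₁ => by
    rw [integral_sub_right_eq_self (kz (6 * ε ^ 10)) x₁, integral_kz hr, mul_pow]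
  have hkc : ∀ x₁ : E d, Continuous fun x => kz (6 * ε ^ 10) (x - x₁) := fun x₁ =>
    (continuous_kz _).comp (continuous_id.sub continuous_const)
  have hkl : ∀ x₁ x x' : E d, |kz (6 * ε ^ 10) (x - x₁) - kz (6 * ε ^ 10) (x' - x₁)| ≤
      Cz d * ε⁻¹ ^ 10 * ‖x - x'‖ := fun x₁ x x' => by
    refine (kz_lip hr _ _).trans ?_
    rw [sub_sub_sub_cancel_right]
    gcongr
  have hB := Bad_mem h0 S
  have i0 : (1 : ℝ) ≤ ε⁻¹ ^ 77 := by simpa using hi (Nat.zero_le 77)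
  refine ⟨fun x₁ => ?_, fun x₁ => ?_, ?_⟩
  · have a1 := transfer hw hc.rng (G := fun x => kz (6 * ε ^ 10) (x - x₁)) (by positivity)
      (fun x => kz_nonneg _ _) (fun x => kz_le _ _) (hkc x₁) (hkl x₁)
    have a2 := wt_le hw (fun x => kz_nonneg _ _) (hk x₁)
    have a3 := herr (Cz d * ε⁻¹ ^ 10 + Cz d) (by nlinarith [hi (show 10 ≤ 77 by norm_num)])
    have a4 : ε ^ 4 * (ε ^ 10) ^ d ≤ (ε ^ 10) ^ d :=
      mul_le_of_le_one_left hrd.le (pow_le_one₀ h0.le h1')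
    rw [hkI] at a2
    linarith
  · have b0 : ∀ x, 0 ≤ kz (6 * ε ^ 10) (x - x₁) * Bad S x := fun x =>
      mul_nonneg (kz_nonneg _ _) (hB x).1
    have a1 := transfer hw hc.rng (G := fun x => kz (6 * ε ^ 10) (x - x₁) * Bad S x)
      (B := Cz d * ε⁻¹ ^ 7) (K := 3 * Cz d * ε⁻¹ ^ 77) (by positivity) b0
      (fun x => mul_le_mul (kz_le _ _) (hB x).2 (hB x).1 (by linarith))
      ((hkc x₁).mul (continuous_Bad h0 h1 S)) fun x x' => by
        have e : kz (6 * ε ^ 10) (x - x₁) * Bad S x - kz (6 * ε ^ 10) (x' - x₁) * Bad S x' =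
            (kz (6 * ε ^ 10) (x - x₁) - kz (6 * ε ^ 10) (x' - x₁)) * Bad S x +
              kz (6 * ε ^ 10) (x' - x₁) * (Bad S x - Bad S x') := by ring
        rw [e]
        refine (abs_add_le _ _).trans ?_
        rw [abs_mul, abs_mul, abs_of_nonneg (hB x).1, abs_of_nonneg (kz_nonneg _ _)]
        have c1 := mul_le_mul (hkl x₁ x x') (hB x).2 (hB x).1 (by positivity)
        have c2 := mul_le_mul (kz_le (6 * ε ^ 10) (x' - x₁)) (Bad_lip h0 h1 S x x')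
          (abs_nonneg _) (by linarith)
        have c3 : Cz d * ε⁻¹ ^ 10 * ‖x - x'‖ * ε⁻¹ ^ 7 ≤ Cz d * ε⁻¹ ^ 77 * ‖x - x'‖ := by
          calc _ = Cz d * ε⁻¹ ^ 17 * ‖x - x'‖ := by ring
            _ ≤ _ := by gcongr ?_ * _; gcongr _ * ?_; exact hi (by norm_num)
        linarith
    have a2 := wt_le hw b0 ((hk x₁).mul_bdd (continuous_Bad h0 h1 S).aestronglyMeasurable
      (Eventually.of_forall fun x => by rw [Real.norm_of_nonneg (hB x).1]; exact (hB x).2))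
    have a3 := herr (3 * Cz d * ε⁻¹ ^ 77 + Cz d * ε⁻¹ ^ 7)
      (by nlinarith [hi (show 7 ≤ 77 by norm_num)])
    have a4 := avgBad h0 h1 S (hk x₁) (fun x => kz_nonneg _ _) (kz_osc hr x₁)
    rw [hkI, mul_pow] at a4
    have a5 : ε⁻¹ ^ 7 * (8 * ε ^ 20 * (6 ^ d * (ε ^ 10) ^ d) +
        6 ^ d * (ε ^ 10) ^ d * (Cw d * (ε ^ 50 / (6 * ε ^ 10)))) ≤
        6 ^ d * (8 + Cw d) * ε ^ 4 * (ε ^ 10) ^ d := by
      calc _ = 6 ^ d * (8 * ε ^ 13 + Cw d * (ε ^ 33 / 6)) * (ε ^ 10) ^ d := by field_simp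
        _ ≤ 6 ^ d * (8 * ε ^ 4 + Cw d * ε ^ 4) * (ε ^ 10) ^ d := by
          gcongr 6 ^ d * (8 * ?_ + Cw d * ?_) * _
          · exact hp (by norm_num)
          · linarith [hp (show 4 ≤ 33 by norm_num), pow_pos h0 33]
        _ = _ := by ring
    have a6 := mul_le_mul_of_nonneg_left (a4.trans a5) (show 0 ≤ Cw d by linarith)
    have a7 := mul_le_mul_of_nonneg_right (mul_pow_le h0 h1' e3 (show 3 < 4 by norm_num)) hrd.le
    linarith
  · have a1 := transfer hw hc.rng (G := Bad S) (by positivity) (fun x => (hB x).1)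
      (fun x => (hB x).2) (continuous_Bad h0 h1 S) (Bad_lip h0 h1 S)
    have hs : L * ε ^ 50 + ε ^ (200 * d) ≤ 2 * ε ^ 49 := by
      have c1 : L * ε ^ 50 ≤ ε ^ 49 := mul_pow_le h0 h1' hLε (by norm_num)
      linarith [hp (show 49 ≤ 200 * d by omega)]
    have a2 := avgBad h0 h1 S hw.int hw.nn (hw.osc (ε ^ 50) (by positivity)
      (by linarith [pow_le_one₀ h0.le h1' (n := 49)]))
    have a3 : ε⁻¹ ^ 7 * (8 * ε ^ 20 * (∫ x, ϑ x) + Cw d * (L * ε ^ 50 + ε ^ (200 * d)) / 4) ≤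
        (16 + Cw d / 2) * ε ^ 6 := by
      calc _ ≤ ε⁻¹ ^ 7 * (8 * ε ^ 20 * 2 + Cw d * (2 * ε ^ 49) / 4) := by
            gcongr; exact hw.hi
        _ = 16 * ε ^ 13 + Cw d / 2 * ε ^ 42 := by field_simp; ring
        _ ≤ 16 * ε ^ 6 + Cw d / 2 * ε ^ 6 := by
          gcongr 16 * ?_ + _ * ?_ <;> exact hp (by norm_num)
        _ = _ := by ring
    have a4 : (2 * ε⁻¹ ^ 77 + ε⁻¹ ^ 7) * ε ^ (200 * d) ≤ 3 * ε ^ 6 := by
      calc _ ≤ 3 * ε⁻¹ ^ 77 * ε ^ 83 := by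
            gcongr ?_ * ?_
            · linarith [hi (show 7 ≤ 77 by norm_num)]
            · exact hp (by omega)
        _ = _ := by rw [mul_assoc, inv_pow_mul h0 (by norm_num)]
    calc _ ≤ 4 ^ d * ((35 + Cw d) * ε ^ 6) := a1.trans (by gcongr; linarith)
      _ = 4 ^ d * (35 + Cw d) * ε ^ 6 := by ring
      _ ≤ _ := mul_pow_le h0 h1' e4 (by norm_num)

end Vol

end Pool.Agent.MP_20bec2_an.h7

end
end MrgPart0

-- ======== part 1: formerly Pool.Agent.MP_20bec2_an.h7.VolC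
section MrgPart1

/-! VOL, second part: pointwise estimates (project BIOM). -/

set_option autoImplicit false

open MeasureTheory Set Metric Filter Topology

noncomputable section

namespace Pool.Agent.MP_20bec2_an.h7

namespace Vol

variable {d : ℕ}

theorem fderiv_ze_zero {w : E d} (h : 1 < ‖w‖) : fderiv ℝ (ze d) w = 0 := by
  have h1 : ze d =ᶠ[𝓝 w] fun _ => 0 := by
    filter_upwards [continuous_norm.continuousAt.eventually (lt_mem_nhds h)] with v hv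
    exact ze_eq_zero hv.le
  rw [h1.fderiv_eq]
  simp

/-- a curve that leaves a ball is long inside it -/
theorem exit {φ φ' : ℝ → E d} {w : ℝ → ℝ} {x : E d} {T R₁ R₂ : ℝ}
    (hφ : ∀ t, HasDerivAt φ (φ' t) t) (hc : Continuous φ') (hw : Continuous w)
    (hw0 : ∀ t, 0 ≤ w t) (h0 : ‖φ 0 - x‖ ≤ R₁)
    (h1 : ∀ t ∈ Icc 0 T, ‖φ t - x‖ ≤ R₂ → 1 ≤ w t) {t₁ : ℝ} (ht₁ : t₁ ∈ Icc 0 T)
    (h2 : R₂ ≤ ‖φ t₁ - x‖) : R₂ - R₁ ≤ ∫ t in (0 : ℝ)..T, w t * ‖φ' t‖ := by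
  have hφc : Continuous φ := continuous_iff_continuousAt.2 fun t => (hφ t).continuousAt
  have hK : IsCompact (Icc 0 T ∩ {t | R₂ ≤ ‖φ t - x‖}) :=
    isCompact_Icc.inter_right (isClosed_le continuous_const (hφc.sub continuous_const).norm)
  obtain ⟨s, ⟨hs1, hs2⟩, hmin⟩ := hK.exists_isLeast ⟨t₁, ht₁, h2⟩
  have hi : Continuous fun t => w t * ‖φ' t‖ := hw.mul hc.norm
  have a1 : ‖φ s - φ 0‖ ≤ ∫ t in (0 : ℝ)..s, ‖φ' t‖ := by
    rw [← intervalIntegral.integral_eq_sub_of_hasDerivAt (fun t _ => hφ t)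
      (hc.intervalIntegrable _ _)]
    exact intervalIntegral.norm_integral_le_integral_norm hs1.1
  have a2 : ∫ t in (0 : ℝ)..s, ‖φ' t‖ ≤ ∫ t in (0 : ℝ)..s, w t * ‖φ' t‖ := by
    refine intervalIntegral.integral_mono_on_of_le_Ioo hs1.1 (hc.norm.intervalIntegrable _ _)
      (hi.intervalIntegrable _ _) fun t ht => le_mul_of_one_le_left (norm_nonneg _) ?_
    have ht' : t ∈ Icc 0 T := ⟨ht.1.le, ht.2.le.trans hs1.2⟩
    refine h1 t ht' (le_of_not_ge fun h => ?_)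
    exact absurd (hmin ⟨ht', h⟩) (not_le.2 ht.2)
  have a3 : ∫ t in (0 : ℝ)..s, w t * ‖φ' t‖ ≤ ∫ t in (0 : ℝ)..T, w t * ‖φ' t‖ :=
    intervalIntegral.integral_mono_interval le_rfl hs1.1 hs1.2
      (Eventually.of_forall fun t => mul_nonneg (hw0 t) (norm_nonneg _))
      (hi.intervalIntegrable _ _)
  have a4 : ‖φ s - x‖ ≤ ‖φ s - φ 0‖ + ‖φ 0 - x‖ := norm_sub_le_norm_sub_add_norm_sub _ _ _
  have hs3 : R₂ ≤ ‖φ s - x‖ := hs2
  linarith

theorem stretch {Ψ : E d → E d} (hΨ : ContDiff ℝ 1 Ψ) {s a : ℝ} (ha : 0 ≤ a) {u y : E d}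
    (h : ∀ f : E d, ‖f‖ = 1 → cv s (dd (co f Ψ) u) y ≤ a) : ‖dd (cv s Ψ) u y‖ ≤ a := by
  set w := dd (cv s Ψ) u y with hw
  rcases eq_or_ne w 0 with h0 | h0
  · rw [h0, norm_zero]; exact ha
  have hn : 0 < ‖w‖ := norm_pos_iff.2 h0
  have h1 := h (‖w‖⁻¹ • w) (by rw [norm_inv_smul hn, div_self hn.ne'])
  have h2 : dd (co (‖w‖⁻¹ • w) Ψ) u = co (‖w‖⁻¹ • w) (dd Ψ u) := funext fun z => dd_co hΨ _ _ _
  rw [h2, cv_co (continuous_dd hΨ u), ← dd_cv hΨ, ← hw, inner_smul_left,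
    real_inner_self_eq_norm_sq] at h1
  refine le_trans (le_of_eq ?_) h1
  simp only [conj_trivial]
  field_simp

theorem inner_ax (j : Fin d) (w : E d) : inner ℝ (ax j) w = w j := by
  simp [ax, EuclideanSpace.inner_single_left]

theorem inner_sum (f w : E d) : inner ℝ f w = ∑ k, f k * w k := by
  simp [PiLp.inner_apply, mul_comm]

theorem contDiff_co {Ψ : E d → E d} (hΨ : ContDiff ℝ 1 Ψ) (e : E d) : ContDiff ℝ 1 (co e Ψ) :=
  contDiff_const.inner ℝ hΨ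

/-- the vector of the minors against `p` -/
def mv (Ψ : E d → E d) (p : E d → ℝ) (v u z : E d) : E d :=
  dd p u z • dd Ψ v z - dd p v z • dd Ψ u z

theorem continuous_mv {Ψ : E d → E d} {p : E d → ℝ} (hΨ : ContDiff ℝ 1 Ψ) (hp : ContDiff ℝ 1 p)
    (v u : E d) : Continuous (mv Ψ p v u) :=
  ((continuous_dd hp u).smul (continuous_dd hΨ v)).sub
    ((continuous_dd hp v).smul (continuous_dd hΨ u))

theorem norm_mv {L : ℝ} {Ψ : E d → E d} {p : E d → ℝ} (hΨ : Sm L Ψ) (hp : Sm L p) {v u : E d}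
    (hv : ‖v‖ = 1) (hu : ‖u‖ = 1) (z : E d) : ‖mv Ψ p v u z‖ ≤ 2 * L ^ 2 := by
  refine (norm_sub_le _ _).trans ?_
  rw [norm_smul, norm_smul]
  have h1 := mul_le_mul (hp.dd_le hu z) (hΨ.dd_le hv z) (norm_nonneg _) hΨ.nonneg
  have h2 := mul_le_mul (hp.dd_le hv z) (hΨ.dd_le hu z) (norm_nonneg _) hΨ.nonneg
  linarith

theorem minors {Ψ : E d → E d} (hΨ : ContDiff ℝ 1 Ψ) {f : E d} (hf : ‖f‖ = 1) {s β : ℝ}
    (hβ : 0 ≤ β) {v u y : E d}
    (h : ∀ i j, |cv s (jac (co (ax i) Ψ) (co (ax j) Ψ) v u) y| ≤ β) :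
    ‖cv s (mv Ψ (co f Ψ) v u) y‖ ≤ d ^ 2 * β := by
  have h1 : ∀ j, |cv s (mv Ψ (co f Ψ) v u) y j| ≤ d * β := by
    intro j
    have e : co (ax j) (mv Ψ (co f Ψ) v u) =
        fun z => ∑ k, f k * jac (co (ax j) Ψ) (co (ax k) Ψ) v u z := by
      ext z
      simp only [co, mv, jac, dd_co hΨ, inner_ax]
      simp only [inner_sum f, PiLp.sub_apply, PiLp.smul_apply, smul_eq_mul, Finset.sum_mul,
        ← Finset.sum_sub_distrib]
      exact Finset.sum_congr rfl fun k _ => by ring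
    rw [← inner_ax, ← cv_co (continuous_mv hΨ (contDiff_co hΨ f) v u), e,
      cv_sum (G := fun k z => f k * jac (co (ax j) Ψ) (co (ax k) Ψ) v u z) _
        fun k _ => continuous_const.mul
          (continuous_jac (contDiff_co hΨ _) (contDiff_co hΨ _) v u)]
    refine (Finset.abs_sum_le_sum_abs _ _).trans ((Finset.sum_le_card_nsmul _ _ β
      fun k _ => ?_).trans (by simp))
    rw [cv_const_mul, abs_mul]
    have := PiLp.norm_apply_le f k
    rw [hf, Real.norm_eq_abs] at this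
    nlinarith [h j k, abs_nonneg (f k), abs_nonneg (cv s (jac (co (ax j) Ψ) (co (ax k) Ψ) v u) y)]
  have hd : (d : ℝ) ≤ d ^ 2 := by exact_mod_cast Nat.le_self_pow two_ne_zero d
  refine (pow_le_pow_iff_left₀ (norm_nonneg _) (by positivity) two_ne_zero).1 ?_
  rw [EuclideanSpace.real_norm_sq_eq]
  refine (Finset.sum_le_card_nsmul _ _ ((d * β) ^ 2) fun j _ => ?_).trans ?_
  · rw [← sq_abs]
    exact pow_le_pow_left₀ (abs_nonneg _) (h1 j) 2
  · rw [Finset.card_univ, Fintype.card_fin, nsmul_eq_mul]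
    calc (d : ℝ) * (d * β) ^ 2 ≤ d ^ 2 * (d * β) ^ 2 := by gcongr
      _ = _ := by ring

/-- the cut-off -/
def al (r : ℝ) (Ψ : E d → E d) (y₀ x₁ z : E d) : ℝ := ze d (y₀ - z) * kz r (Ψ z - x₁)

theorem contDiff_al {Ψ : E d → E d} (hΨ : ContDiff ℝ 1 Ψ) (r : ℝ) (y₀ x₁ : E d) :
    ContDiff ℝ 1 (al r Ψ y₀ x₁) :=
  ((contDiff_ze (n := 1)).comp (contDiff_const.sub contDiff_id)).mul
    ((contDiff_ze (n := 1)).comp ((hΨ.sub contDiff_const).const_smul r⁻¹))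

theorem supp_ball {g : E d → ℝ} {y₀ : E d} {R : ℝ} (h : ∀ z, R ≤ ‖y₀ - z‖ → g z = 0) :
    HasCompactSupport g :=
  HasCompactSupport.intro (isCompact_closedBall y₀ R) fun z hz => h z (by
    rw [mem_closedBall, dist_comm, dist_eq_norm, not_le] at hz
    exact hz.le)

theorem dd_al {Ψ : E d → E d} (hΨ : ContDiff ℝ 1 Ψ) (r : ℝ) (y₀ x₁ w z : E d) :
    dd (al r Ψ y₀ x₁) w z =
      ze d (y₀ - z) * (r⁻¹ * fderiv ℝ (ze d) (r⁻¹ • (Ψ z - x₁)) (dd Ψ w z)) -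
        fderiv ℝ (ze d) (y₀ - z) w * kz r (Ψ z - x₁) := by
  have hz : ∀ x, HasFDerivAt (ze d) (fderiv ℝ (ze d) x) x := fun x =>
    ((contDiff_ze (n := 1)).differentiable (by simp) x).hasFDerivAt
  have h1 := (hz (y₀ - z)).comp z ((hasFDerivAt_id z).const_sub y₀)
  have h2 := (hz (r⁻¹ • (Ψ z - x₁))).comp z
    (((hΨ.differentiable (by simp) z).hasFDerivAt.sub_const x₁).const_smul r⁻¹)
  have h3 : HasFDerivAt (al r Ψ y₀ x₁) _ z := h1.mul h2
  unfold dd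
  rw [h3.fderiv]
  simp [kz]
  ring

/-- the exterior derivative of the cut one-form -/
def cu (r : ℝ) (Ψ : E d → E d) (p : E d → ℝ) (y₀ x₁ v u z : E d) : ℝ :=
  dd p u z • dd (al r Ψ y₀ x₁) v z - dd p v z • dd (al r Ψ y₀ x₁) u z

theorem cu_eq {Ψ : E d → E d} (hΨ : ContDiff ℝ 1 Ψ) (r : ℝ) (p : E d → ℝ) (y₀ x₁ v u z : E d) :
    cu r Ψ p y₀ x₁ v u z =
      ((ze d (y₀ - z) * r⁻¹) • fderiv ℝ (ze d) (r⁻¹ • (Ψ z - x₁))) (mv Ψ p v u z) +
        kz r (Ψ z - x₁) *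
          (fderiv ℝ (ze d) (y₀ - z) u * dd p v z - fderiv ℝ (ze d) (y₀ - z) v * dd p u z) := by
  unfold cu mv
  rw [dd_al hΨ, dd_al hΨ]
  simp only [smul_apply, map_sub, map_smul, smul_eq_mul]
  ring

theorem near_of_ne {L s r : ℝ} {Ψ : E d → E d} (hΨ : Sm L Ψ) (hs : 0 ≤ s) {G : E d → ℝ}
    {y₀ x₁ y : E d} (hG : ∀ z, 1 < ‖y₀ - z‖ ∨ r < ‖Ψ z - x₁‖ → G z = 0) (h : cv s G y ≠ 0) :
    ‖y₀ - y‖ ≤ 1 + s ∧ ‖Ψ y - x₁‖ ≤ r + L * s := by
  by_contra hcon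
  refine h ((cv_congr hs (G' := fun _ => 0) fun z hz => hG z ?_).trans (cv_const _ _ _))
  rw [mem_closedBall, dist_eq_norm] at hz
  have h1 := norm_sub_le_norm_sub_add_norm_sub y₀ z y
  have h2 := norm_sub_le_norm_sub_add_norm_sub (Ψ y) (Ψ z) x₁
  have h3 := hΨ.lip y z
  rw [norm_sub_rev y z] at h3
  have h4 := mul_le_mul_of_nonneg_left hz hΨ.nonneg
  by_contra h5
  push Not at h5
  exact hcon ⟨by linarith [h5.1], by linarith [h5.2]⟩

theorem cu_zero {Ψ : E d → E d} (hΨ : ContDiff ℝ 1 Ψ) {r : ℝ} (hr : 0 < r) (p : E d → ℝ)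
    (y₀ x₁ v u z : E d) (h : 1 < ‖y₀ - z‖ ∨ r < ‖Ψ z - x₁‖) : cu r Ψ p y₀ x₁ v u z = 0 := by
  rw [cu_eq hΨ]
  rcases h with h | h
  · simp [ze_eq_zero h.le, fderiv_ze_zero h]
  · rw [kz_eq_zero hr h.le, fderiv_ze_zero (by rwa [norm_inv_smul hr, one_lt_div hr])]
    simp

theorem cu_bound {L s r β : ℝ} {Ψ : E d → E d} {p : E d → ℝ} (hΨ : Sm L Ψ) (hp : Sm L p)
    (hL : 1 ≤ L) (hs : 0 ≤ s) (hr : 0 < r) (hr1 : r ≤ 1) {v u : E d} (hv : ‖v‖ = 1)
    (hu : ‖u‖ = 1) (y₀ x₁ y : E d) (hβ : ‖cv s (mv Ψ p v u) y‖ ≤ β) :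
    |cv s (cu r Ψ p y₀ x₁ v u) y| ≤ Cz d ^ 2 * (β / r + 4 * L ^ 3 * s / r ^ 2 + 2 * L) := by
  have hZ : (1 : ℝ) ≤ Cz d := one_le_Cz
  set Λ : E d → E d →L[ℝ] ℝ :=
    fun z => (ze d (y₀ - z) * r⁻¹) • fderiv ℝ (ze d) (r⁻¹ • (Ψ z - x₁)) with hΛ
  have hm := continuous_mv hΨ.cd1 hp.cd1 v u
  have hal := contDiff_al hΨ.cd1 r y₀ x₁
  have hcu : Continuous (cu r Ψ p y₀ x₁ v u) :=
    ((continuous_dd hp.cd1 u).smul (continuous_dd hal v)).sub
      ((continuous_dd hp.cd1 v).smul (continuous_dd hal u))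
  have h1 : ‖Λ y‖ ≤ Cz d ^ 2 / r := by
    rw [hΛ]
    simp only
    rw [norm_smul, Real.norm_of_nonneg (mul_nonneg (ze_nonneg _) (by positivity))]
    calc _ ≤ Cz d * r⁻¹ * Cz d := by
          gcongr
          · exact ze_le _
          · exact norm_fderiv_ze _
      _ = _ := by ring
  have h2 : ∀ z ∈ closedBall y s, ‖Λ z - Λ y‖ ≤ 2 * Cz d ^ 2 * L * s / r ^ 2 := by
    intro z hz
    rw [mem_closedBall, dist_eq_norm] at hz
    have e : Λ z - Λ y = ((ze d (y₀ - z) - ze d (y₀ - y)) * r⁻¹) •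
        fderiv ℝ (ze d) (r⁻¹ • (Ψ z - x₁)) + (ze d (y₀ - y) * r⁻¹) •
        (fderiv ℝ (ze d) (r⁻¹ • (Ψ z - x₁)) - fderiv ℝ (ze d) (r⁻¹ • (Ψ y - x₁))) := by
      rw [hΛ]
      simp only [sub_mul, sub_smul, smul_sub]
      abel
    have a1 : |ze d (y₀ - z) - ze d (y₀ - y)| ≤ Cz d * s := by
      refine (ze_lip _ _).trans ?_
      rw [sub_sub_sub_cancel_left, norm_sub_rev]
      gcongr
    have a2 : ‖fderiv ℝ (ze d) (r⁻¹ • (Ψ z - x₁)) - fderiv ℝ (ze d) (r⁻¹ • (Ψ y - x₁))‖ ≤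
        Cz d * (L * s / r) := by
      refine (fderiv_ze_lip _ _).trans ?_
      rw [← smul_sub, norm_inv_smul hr, sub_sub_sub_cancel_right]
      gcongr
      exact (hΨ.lip z y).trans (by gcongr)
    rw [e]
    refine (norm_add_le _ _).trans ?_
    rw [norm_smul, norm_smul, norm_mul, norm_mul, Real.norm_of_nonneg (inv_nonneg.2 hr.le),
      Real.norm_eq_abs, Real.norm_of_nonneg (ze_nonneg _)]
    have a3 : (1 : ℝ) ≤ L / r := (one_le_div hr).2 (hr1.trans hL)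
    calc _ ≤ Cz d * s * r⁻¹ * Cz d * (L / r) + Cz d * r⁻¹ * (Cz d * (L * s / r)) := by
          refine add_le_add (le_trans ?_ (le_mul_of_one_le_right (by positivity) a3)) ?_
          · gcongr
            exact norm_fderiv_ze _
          · gcongr
            exact ze_le _
      _ = _ := by field_simp; ring
  have h3 : ‖cv s (fun z => cu r Ψ p y₀ x₁ v u z - Λ y (mv Ψ p v u z)) y‖ ≤
      2 * Cz d ^ 2 * L * s / r ^ 2 * (2 * L ^ 2) + Cz d * (Cz d * L + Cz d * L) := by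
    refine norm_cv_le hs fun z hz => ?_
    have e : cu r Ψ p y₀ x₁ v u z - Λ y (mv Ψ p v u z) = (Λ z - Λ y) (mv Ψ p v u z) +
        kz r (Ψ z - x₁) *
          (fderiv ℝ (ze d) (y₀ - z) u * dd p v z - fderiv ℝ (ze d) (y₀ - z) v * dd p u z) := by
      rw [cu_eq hΨ.cd1, sub_apply]
      ring
    have b1 : ∀ {w w' : E d}, ‖w‖ = 1 → ‖w'‖ = 1 →
        ‖fderiv ℝ (ze d) (y₀ - z) w * dd p w' z‖ ≤ Cz d * L := fun {w w'} hw hw' => by
      rw [norm_mul]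
      refine mul_le_mul ?_ (hp.dd_le hw' z) (norm_nonneg _) (by linarith)
      refine (ContinuousLinearMap.le_opNorm _ _).trans ?_
      rw [hw, mul_one]
      exact norm_fderiv_ze _
    rw [e]
    refine (norm_add_le _ _).trans (add_le_add ?_ ?_)
    · exact (ContinuousLinearMap.le_opNorm _ _).trans
        (mul_le_mul (h2 z hz) (norm_mv hΨ hp hv hu z) (norm_nonneg _) (by positivity))
    · rw [norm_mul, Real.norm_of_nonneg (kz_nonneg _ _)]
      exact mul_le_mul (kz_le _ _) ((norm_sub_le _ _).trans (add_le_add (b1 hu hv) (b1 hv hu)))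
        (norm_nonneg _) (by linarith)
  rw [cv_sub (G' := fun z => Λ y (mv Ψ p v u z)) hcu ((Λ y).continuous.comp hm), cv_clm (Λ y) hm, Real.norm_eq_abs] at h3
  have h4 : |Λ y (cv s (mv Ψ p v u) y)| ≤ Cz d ^ 2 / r * β :=
    ((Λ y).le_opNorm _).trans (mul_le_mul h1 hβ (norm_nonneg _) (by positivity))
  calc _ ≤ |cv s (cu r Ψ p y₀ x₁ v u) y - Λ y (cv s (mv Ψ p v u) y)| +
        |Λ y (cv s (mv Ψ p v u) y)| := by
        simpa using abs_add_le (cv s (cu r Ψ p y₀ x₁ v u) y - Λ y (cv s (mv Ψ p v u) y))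
          (Λ y (cv s (mv Ψ p v u) y))
    _ ≤ _ := (add_le_add h3 h4).trans (le_of_eq (by ring))

end Vol

end Pool.Agent.MP_20bec2_an.h7

end
end MrgPart1

-- ======== part 2: formerly Pool.Agent.MP_20bec2_an.h7.Vol
section MrgPart2

/-! VOL: the volume inequality between stretch and minors (project BIOM). -/

set_option autoImplicit false

open MeasureTheory Set Metric Filter Topology

noncomputable section

namespace Pool.Agent.MP_20bec2_an.h7

namespace Vol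

variable {d : ℕ}

/-- the weight of a slice -/
def wt (r : ℝ) (Ψ : E d → E d) (y₀ x₁ y : E d) : ℝ := kz 4 (y₀ - y) * kz (6 * r) (Ψ y - x₁)

theorem wt_nonneg (r : ℝ) (Ψ : E d → E d) (y₀ x₁ y : E d) : 0 ≤ wt r Ψ y₀ x₁ y :=
  mul_nonneg (kz_nonneg _ _) (kz_nonneg _ _)

theorem continuous_eh (y₀ : E d) : Continuous fun y => kz 4 (y₀ - y) :=
  (continuous_kz _).comp (continuous_const.sub continuous_id)

theorem continuous_wt {Ψ : E d → E d} (h : Continuous Ψ) (r : ℝ) (y₀ x₁ : E d) :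
    Continuous (wt r Ψ y₀ x₁) :=
  (continuous_eh y₀).mul ((continuous_kz _).comp (h.sub continuous_const))

theorem one_le_wt {r : ℝ} (hr : 0 < r) {Ψ : E d → E d} {y₀ x₁ y : E d} (h1 : ‖y₀ - y‖ ≤ 2)
    (h2 : ‖Ψ y - x₁‖ ≤ 3 * r) : 1 ≤ Cz d ^ 2 * wt r Ψ y₀ x₁ y := by
  have a1 := one_le_kz (c := 4) (by norm_num) (w := y₀ - y) (by linarith)
  have a2 := one_le_kz (c := 6 * r) (by positivity) (w := Ψ y - x₁) (by linarith)
  calc (1 : ℝ) ≤ (Cz d * kz 4 (y₀ - y)) * (Cz d * kz (6 * r) (Ψ y - x₁)) :=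
        one_le_mul_of_one_le_of_one_le a1 a2
    _ = _ := by unfold wt; ring

theorem integrable_eh {g : E d → ℝ} (hg : Continuous g) (y₀ : E d) :
    Integrable fun y => kz 4 (y₀ - y) * g y :=
  (show Continuous fun y => kz 4 (y₀ - y) * g y from
    (continuous_eh y₀).mul hg).integrable_of_hasCompactSupport (supp_ball (y₀ := y₀) (R := 4) fun z hz => by rw [kz_eq_zero (by norm_num) hz, zero_mul])

/-- every line through the core meets the weight -/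
theorem line_ge {L s r a : ℝ} {Ψ : E d → E d} (hΨ : Sm L Ψ) (hs : 0 ≤ s) (hs1 : s ≤ 1 / 2)
    (hr : 0 < r) (ha : 2 * r ≤ a) (hLs : 4 * (L * s) ≤ r) {u y₀ x₁ y : E d} (hu : ‖u‖ = 1)
    (h1 : ‖y₀ - y‖ ≤ 1 + s) (h2 : ‖Ψ y - x₁‖ ≤ r + L * s) :
    1 ≤ ∫ τ : ℝ, Cz d ^ 2 * wt r Ψ y₀ x₁ (y + τ • u) *
      ((‖dd (cv s Ψ) u (y + τ • u)‖ + a) / r) := by
  have ha0 : 0 < a := by linarith
  have hP := (hΨ.cv s).cd1
  have hl : Continuous fun τ : ℝ => y + τ • u := by fun_prop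
  have hw : Continuous fun τ : ℝ => Cz d ^ 2 * wt r Ψ y₀ x₁ (y + τ • u) :=
    continuous_const.mul ((continuous_wt hΨ.cont r y₀ x₁).comp hl)
  have hw0 : ∀ τ : ℝ, 0 ≤ Cz d ^ 2 * wt r Ψ y₀ x₁ (y + τ • u) := fun τ =>
    mul_nonneg (sq_nonneg _) (wt_nonneg _ _ _ _ _)
  have hd : Continuous fun τ : ℝ => dd (cv s Ψ) u (y + τ • u) := (continuous_dd hP u).comp hl
  have hQ : Continuous fun τ : ℝ => Cz d ^ 2 * wt r Ψ y₀ x₁ (y + τ • u) *
      ((‖dd (cv s Ψ) u (y + τ • u)‖ + a) / r) :=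
    hw.mul ((hd.norm.add continuous_const).div_const r)
  have hT : 0 ≤ r / a := by positivity
  have hT1 : r / a ≤ 1 / 2 := by rw [div_le_iff₀ ha0]; linarith
  have hcore : ∀ t ∈ Icc 0 (r / a), ‖cv s Ψ (y + t • u) - x₁‖ ≤ 5 / 2 * r →
      1 ≤ Cz d ^ 2 * wt r Ψ y₀ x₁ (y + t • u) := by
    intro t ht h
    refine one_le_wt hr ?_ ?_
    · rw [← sub_sub]
      refine (norm_sub_le _ _).trans ?_
      rw [norm_smul, hu, Real.norm_of_nonneg ht.1]
      linarith [ht.2]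
    · have a1 := norm_sub_le_norm_sub_add_norm_sub (Ψ (y + t • u)) (cv s Ψ (y + t • u)) x₁
      have a2 := hΨ.cv_sub hs (y + t • u)
      rw [norm_sub_rev] at a2
      linarith
  refine le_trans (?_ : _ ≤ ∫ τ in (0 : ℝ)..r / a, Cz d ^ 2 * wt r Ψ y₀ x₁ (y + τ • u) *
      ((‖dd (cv s Ψ) u (y + τ • u)‖ + a) / r)) ?_
  · by_cases hc : ∃ t ∈ Icc 0 (r / a), 5 / 2 * r ≤ ‖cv s Ψ (y + t • u) - x₁‖
    · obtain ⟨t, ht, h⟩ := hc
      have a1 := exit (R₁ := 3 / 2 * r) (hasDerivAt_line hP u y) hd hw hw0 (by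
        have b1 := norm_sub_le_norm_sub_add_norm_sub (cv s Ψ y) (Ψ y) x₁
        have b2 := hΨ.cv_sub hs y
        simp only [zero_smul, add_zero]
        linarith) hcore ht h
      have a2 : (∫ τ in (0 : ℝ)..r / a, Cz d ^ 2 * wt r Ψ y₀ x₁ (y + τ • u) *
          ‖dd (cv s Ψ) u (y + τ • u)‖) / r ≤ ∫ τ in (0 : ℝ)..r / a,
          Cz d ^ 2 * wt r Ψ y₀ x₁ (y + τ • u) * ((‖dd (cv s Ψ) u (y + τ • u)‖ + a) / r) := by
        rw [← intervalIntegral.integral_div]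
        refine intervalIntegral.integral_mono_on hT
          (((hw.mul hd.norm).div_const r).intervalIntegrable _ _) (hQ.intervalIntegrable _ _)
          fun τ _ => ?_
        rw [mul_div_assoc]
        exact mul_le_mul_of_nonneg_left (by gcongr; linarith) (hw0 τ)
      refine le_trans ?_ a2
      rw [one_le_div hr]
      linarith
    · push Not at hc
      have a1 : ∫ _ in (0 : ℝ)..r / a, a / r = 1 := by
        rw [intervalIntegral.integral_const, smul_eq_mul]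
        field_simp
        ring
      rw [← a1]
      refine intervalIntegral.integral_mono_on hT intervalIntegrable_const
        (hQ.intervalIntegrable _ _) fun τ hτ => ?_
      calc a / r = 1 * (a / r) := (one_mul _).symm
        _ ≤ _ := mul_le_mul (hcore τ hτ (hc τ hτ).le)
          (by gcongr; linarith [norm_nonneg (dd (cv s Ψ) u (y + τ • u))]) (by positivity) (hw0 τ)
  · rw [intervalIntegral.integral_of_le hT]
    refine setIntegral_le_integral (hQ.integrable_of_hasCompactSupport ?_)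
      (Eventually.of_forall fun τ => mul_nonneg (hw0 τ) (by positivity))
    refine HasCompactSupport.intro (isCompact_closedBall (0 : ℝ) 6) fun τ hτ => ?_
    rw [mem_closedBall, dist_zero_right, not_le] at hτ
    have b1 : ‖τ • u‖ ≤ ‖y₀ - y‖ + ‖y₀ - (y + τ • u)‖ := by
      refine le_trans (le_of_eq ?_) (norm_sub_le _ _)
      congr 1
      abel
    rw [norm_smul, hu, mul_one] at b1
    unfold wt
    rw [kz_eq_zero (c := 4) (by norm_num) (by linarith)]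
    simp

end Vol

open Vol in
theorem vol (d : ℕ) (hd : 2 ≤ d) (h1 : VolAStmt d) (_h2 : AvgStmt d) (_h3 : BadStmt d) :
    VolStmt d := by
  obtain ⟨CA, hCA, hA⟩ := h1
  obtain ⟨Cm, hCm, hm⟩ := masses hd
  have hZ : (1 : ℝ) ≤ Cz d := one_le_Cz
  have hZ2 : (1 : ℝ) ≤ Cz d ^ 2 := one_le_pow₀ hZ
  have hD : (2 : ℝ) ≤ d := by exact_mod_cast hd
  set C₂ : ℝ := CA * (3 * Cz d ^ 2 * Cm) with hC₂
  have hC2 : 1 ≤ C₂ := one_le_mul_of_one_le_of_one_le hCA (by nlinarith)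
  set Cb : ℝ := Cz d ^ 2 * Cz d ^ 2 * (3 * d ^ 2) with hCb
  have hCb1 : 1 ≤ Cb :=
    one_le_mul_of_one_le_of_one_le (one_le_mul_of_one_le_of_one_le hZ2 hZ2) (by nlinarith)
  have h6 : (1 : ℝ) ≤ 6 ^ d := one_le_pow₀ (by norm_num)
  have h4 : (1 : ℝ) ≤ 4 ^ d := one_le_pow₀ (by norm_num)
  refine ⟨2 * C₂ * Cb * (6 ^ d * (4 ^ d + 1)), one_le_mul_of_one_le_of_one_le
    (one_le_mul_of_one_le_of_one_le (by linarith) hCb1) (by nlinarith), small_iff.2 ?_⟩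
  filter_upwards [hm, ev_pos, ev_mul_le 4]
    with ε hm h0 e1 δ L a b ϱ S Ψ y₀ hL hLε hloc ha hb hϱ haϱ hgood f u hf hu
  obtain ⟨m1, m2, m3⟩ := hm δ L S Ψ y₀ hL hLε hloc
  obtain ⟨Y, ρ, N, hc, -⟩ := hloc
  have hΨ := hc.sm
  have hp := hΨ.co hf
  have h12 : ε ≤ 1 / 2 := by linarith
  have h1' : ε ≤ 1 := by linarith
  have hL0 : 0 ≤ L := by linarith
  have ha0 : 0 < a := (pow_pos h0 2).trans_le ha
  have hb0 : 0 < b := (pow_pos h0 3).trans_le hb
  have hLk : ∀ k j : ℕ, L ^ k * ε ^ (k + j) ≤ ε ^ j := fun k j => by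
    rw [pow_add, ← mul_assoc, ← mul_pow]
    exact mul_le_of_le_one_left (by positivity) (pow_le_one₀ (by positivity) hLε)
  have hLs : 4 * (L * ε ^ 160) ≤ ε ^ 10 := by
    linarith [mul_pow_le h0 h1' hLε (show 159 < 160 by norm_num),
      mul_pow_le h0 h1' e1 (show 10 < 159 by norm_num)]
  have hra : 2 * ε ^ 10 ≤ a := by
    linarith [mul_pow_le h0 h1' e1 (show 2 < 10 by norm_num), pow_pos h0 10]
  have n3 : 4 * L ^ 3 * ε ^ 160 / (ε ^ 10) ^ 2 ≤ b / ε ^ 10 := by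
    rw [div_le_div_iff₀ (by positivity) (by positivity)]
    calc 4 * L ^ 3 * ε ^ 160 * ε ^ 10 ≤ ε ^ 13 * ε ^ 10 := by
          gcongr ?_ * _
          linarith [show L ^ 3 * ε ^ 160 ≤ ε ^ 157 from hLk 3 157,
            mul_pow_le h0 h1' e1 (show 13 < 157 by norm_num)]
      _ = ε ^ 3 * (ε ^ 10) ^ 2 := by ring
      _ ≤ _ := by gcongr
  have n4 : 2 * L ≤ b / ε ^ 10 := by
    rw [le_div_iff₀ (by positivity)]
    linarith [mul_pow_le h0 h1' hLε (show 9 < 10 by norm_num),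
      mul_pow_le h0 h1' e1 (show 3 < 9 by norm_num), pow_pos h0 9]
  have n5 : L * ε ^ 3 ≤ a := (mul_pow_le h0 h1' hLε (by norm_num)).trans ha
  have n6 : L ^ 2 * ε ^ 5 ≤ b := (hLk 2 3).trans hb
  have hr0 : 0 < ε ^ 10 := by positivity
  have hs0 : 0 ≤ ε ^ 160 := by positivity
  have hr1 : ε ^ 10 ≤ 1 := pow_le_one₀ h0.le h1'
  have hs1 : ε ^ 160 ≤ 1 / 2 := (pow_le_of_le_one h0.le h1' (by norm_num)).trans h12
  clear hm hc hLk
  generalize ε ^ 10 = r at *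
  generalize ε ^ 160 = s at *
  have hB := Bad_mem h0 S
  have hBc : Continuous fun y => Bad S (Ψ y) := (continuous_Bad h0 h12 S).comp hΨ.cont
  have hball : ∀ {y}, ‖y₀ - y‖ < 4 → y ∈ ball y₀ 4 := fun h => by
    rwa [mem_ball, dist_comm, dist_eq_norm]
  have hst : ∀ y, ‖y₀ - y‖ < 4 → ‖dd (cv s Ψ) u y‖ ≤ a + L * Bad S (Ψ y) := fun y hy => by
    rcases lt_or_ge (Bad S (Ψ y)) 1 with h | h
    · exact (stretch hΨ.cd1 ha0.le fun f hf =>
        (hgood y (hball hy) (far_of_Bad h0 h12 S h)).1 f u hf hu).trans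
        (le_add_of_nonneg_right (mul_nonneg hL0 (hB _).1))
    · linarith [(hΨ.cv s).dd_le hu y, le_mul_of_one_le_right hL0 h]
  have hmin : ∀ y, ‖y₀ - y‖ < 4 → ∀ v, ON v u → ‖cv s (mv Ψ (co f Ψ) v u) y‖ ≤
      d ^ 2 * (b + 2 * L ^ 2 * Bad S (Ψ y)) := fun y hy v hv => by
    have hB0 := (hB (Ψ y)).1
    refine minors hΨ.cd1 hf (by positivity) fun i j => ?_
    rcases lt_or_ge (Bad S (Ψ y)) 1 with h | h
    · have g := (hgood y (hball hy) (far_of_Bad h0 h12 S h)).2 i j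
      have g1 := g v u hv
      have g2 := g (-v) u ⟨by rw [norm_neg, hv.1], hv.2.1, by rw [inner_neg_left, hv.2.2, neg_zero]⟩
      have e : jac (co (ax i) Ψ) (co (ax j) Ψ) (-v) u =
          fun z => -jac (co (ax i) Ψ) (co (ax j) Ψ) v u z := by
        ext z
        simp only [jac, dd, map_neg]
        ring
      rw [e, cv_neg] at g2
      refine (abs_le.2 ⟨by linarith, g1⟩).trans (le_add_of_nonneg_right (by positivity))
    · have g := norm_cv_le (G := jac (co (ax i) Ψ) (co (ax j) Ψ) v u) (y := y) hs0 fun z _ =>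
        abs_jac_le (hΨ.co (norm_ax i)) (hΨ.co (norm_ax j)) hv.1 hu z
      rw [Real.norm_eq_abs] at g
      linarith [le_mul_of_one_le_right (show 0 ≤ 2 * L ^ 2 by positivity) h]
  have hg2 : Continuous fun y => b + L ^ 2 * Bad S (Ψ y) :=
    continuous_const.add (continuous_const.mul hBc)
  have hg1 : Continuous fun y => dd (co f Ψ) u y * ze d (y₀ - y) :=
    (continuous_dd hp.cd1 u).mul (continuous_ze.comp (continuous_const.sub continuous_id))
  have slice : ∀ x₁, ∫ y, dd (co f Ψ) u y * ze d (y₀ - y) * kz r (Ψ y - x₁) ≤ 2 * C₂ * Cb * ϱ *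
      ∫ y, kz 4 (y₀ - y) * (b + L ^ 2 * Bad S (Ψ y)) * kz (6 * r) (Ψ y - x₁) := by
    intro x₁
    have hal := contDiff_al hΨ.cd1 r y₀ x₁
    have hF : ∀ w, ContDiff ℝ 1 fun z => dd (co f Ψ) w z • al r Ψ y₀ x₁ z := fun w =>
      (contDiff_dd hp.cd w).smul hal
    have hFs : ∀ w, HasCompactSupport fun z => dd (co f Ψ) w z • al r Ψ y₀ x₁ z := fun w =>
      supp_ball (y₀ := y₀) (R := 1) fun z hz => by simp [al, ze_eq_zero hz]
    have hk : Continuous fun y => kz (6 * r) (Ψ y - x₁) :=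
      (continuous_kz _).comp (hΨ.cont.sub continuous_const)
    have hI0 : ∀ y, 0 ≤ kz 4 (y₀ - y) * (b + L ^ 2 * Bad S (Ψ y)) * kz (6 * r) (Ψ y - x₁) :=
      fun y => mul_nonneg (mul_nonneg (kz_nonneg _ _)
        (add_nonneg hb0.le (mul_nonneg (sq_nonneg _) (hB _).1))) (kz_nonneg _ _)
    have hQ0 : ∀ y, 0 ≤ Cz d ^ 2 * wt r Ψ y₀ x₁ y * ((‖dd (cv s Ψ) u y‖ + a) / r) := fun y =>
      mul_nonneg (mul_nonneg (sq_nonneg _) (wt_nonneg _ _ _ _ _)) (by positivity)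
    have key := hA (cv s fun z => dd (co f Ψ) u z • al r Ψ y₀ x₁ z)
      (fun y => Cz d ^ 2 * wt r Ψ y₀ x₁ y * ((‖dd (cv s Ψ) u y‖ + a) / r)) u
      (3 * Cz d ^ 2 * Cm * (a * r ^ (d - 1)))
      (Cb / r * ∫ y, kz 4 (y₀ - y) * (b + L ^ 2 * Bad S (Ψ y)) * kz (6 * r) (Ψ y - x₁))
      (C₂ * ϱ * r) hu (contDiff_cv (hF u) s) (cv_supp (hFs u) s)
      ((continuous_const.mul (continuous_wt hΨ.cont r y₀ x₁)).mul
        (((continuous_dd (hΨ.cv s).cd1 u).norm.add continuous_const).div_const r))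
      (supp_ball (y₀ := y₀) (R := 4) fun z hz => by
        simp [wt, kz_eq_zero (c := 4) (by norm_num) hz])
      hQ0 (fun y hy => ?_) ?_ (by positivity) ?_
      (mul_nonneg (by positivity) (integral_nonneg hI0)) fun v hv => ?_
    · rw [integral_cv (hF u).continuous (hFs u)] at key
      refine le_trans (le_of_eq ?_) ((le_abs_self _).trans (key.trans (le_of_eq ?_)))
      · simp only [al, smul_eq_mul, mul_assoc]
      · field_simp
    · obtain ⟨n1, n2⟩ := near_of_ne hΨ hs0 (r := r) (y₀ := y₀) (x₁ := x₁) (fun z hz => by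
        rcases hz with hz | hz
        · simp [al, ze_eq_zero hz.le]
        · simp [al, kz_eq_zero hr0 hz.le]) hy
      exact line_ge hΨ hs0 hs1 hr0 hra hLs hu n1 n2
    · have i1 := integrable_eh hk y₀
      have i2 := integrable_eh (g := fun y => kz (6 * r) (Ψ y - x₁) * Bad S (Ψ y)) (hk.mul hBc) y₀
      have a1 : ∫ y, Cz d ^ 2 * wt r Ψ y₀ x₁ y * ((‖dd (cv s Ψ) u y‖ + a) / r) ≤
          ∫ y, Cz d ^ 2 / r * (2 * a * (kz 4 (y₀ - y) * kz (6 * r) (Ψ y - x₁)) +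
            L * (kz 4 (y₀ - y) * (kz (6 * r) (Ψ y - x₁) * Bad S (Ψ y)))) := by
        refine integral_mono_of_nonneg (Eventually.of_forall hQ0)
          (((i1.const_mul _).add (i2.const_mul _)).const_mul _) (Eventually.of_forall fun y => ?_)
        rcases lt_or_ge ‖y₀ - y‖ 4 with hy | hy
        · calc Cz d ^ 2 * wt r Ψ y₀ x₁ y * ((‖dd (cv s Ψ) u y‖ + a) / r)
              ≤ Cz d ^ 2 * wt r Ψ y₀ x₁ y * ((a + L * Bad S (Ψ y) + a) / r) := by
                refine mul_le_mul_of_nonneg_left ?_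
                  (mul_nonneg (sq_nonneg _) (wt_nonneg _ _ _ _ _))
                gcongr
                exact hst y hy
            _ = _ := by unfold wt; ring
        · simp [wt, kz_eq_zero (c := 4) (by norm_num) hy]
      rw [integral_const_mul, integral_add (i1.const_mul _) (i2.const_mul _), integral_const_mul,
        integral_const_mul] at a1
      have a2 : L * (ε ^ 3 * r ^ d) ≤ a * (Cm * r ^ d) := by
        calc L * (ε ^ 3 * r ^ d) = L * ε ^ 3 * (1 * r ^ d) := by ring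
          _ ≤ _ := by gcongr
      have a3 : r ^ d = r * r ^ (d - 1) := by rw [← pow_succ']; congr 1; omega
      calc _ ≤ _ := a1
        _ ≤ Cz d ^ 2 / r * (2 * a * (Cm * r ^ d) + a * (Cm * r ^ d)) := by
          gcongr Cz d ^ 2 / r * (2 * a * ?_ + ?_)
          · exact m1 x₁
          · exact (mul_le_mul_of_nonneg_left (m2 x₁) hL0).trans a2
        _ = _ := by rw [a3]; field_simp; ring
    · calc CA * (3 * Cz d ^ 2 * Cm * (a * r ^ (d - 1))) = C₂ * (a * r ^ (d - 1)) := by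
            rw [hC₂]; ring
        _ ≤ C₂ ^ (d - 1) * (ϱ ^ (d - 1) * r ^ (d - 1)) :=
            mul_le_mul (le_self_pow₀ hC2 (by omega))
              (mul_le_mul_of_nonneg_right haϱ (by positivity)) (by positivity) (by positivity)
        _ = _ := by rw [mul_pow (C₂ * ϱ), mul_pow C₂, mul_assoc]
    · refine ⟨cv s fun z => dd (co f Ψ) v z • al r Ψ y₀ x₁ z, contDiff_cv (hF v) s,
        cv_supp (hFs v) s, ?_⟩
      rw [← integral_const_mul]
      refine integral_mono_of_nonneg (Eventually.of_forall fun y => abs_nonneg _)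
        (((integrable_eh (g := fun y => (b + L ^ 2 * Bad S (Ψ y)) * kz (6 * r) (Ψ y - x₁))
          (hg2.mul hk) y₀).const_mul (Cb / r)).congr
          (Eventually.of_forall fun y => by simp only [mul_assoc]))
        (Eventually.of_forall fun y => ?_)
      simp only
      rw [cv_curl hal hp.cd s v u y]
      change |cv s (cu r Ψ (co f Ψ) y₀ x₁ v u) y| ≤ _
      by_cases h : cv s (cu r Ψ (co f Ψ) y₀ x₁ v u) y = 0
      · rw [h, abs_zero]
        exact mul_nonneg (by positivity) (hI0 y)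
      obtain ⟨n1, n2⟩ := near_of_ne hΨ hs0 (fun z hz => cu_zero hΨ.cd1 hr0 _ y₀ x₁ v u z hz) h
      have a1 := cu_bound hΨ hp hL hs0 hr0 hr1 hv.1 hu y₀ x₁ y (hmin y (by linarith) v hv)
      have a2 := one_le_wt hr0 (Ψ := Ψ) (y₀ := y₀) (x₁ := x₁) (y := y) (by linarith) (by linarith)
      have hB0 := mul_nonneg (sq_nonneg L) (hB (Ψ y)).1
      have a5 : (d : ℝ) ^ 2 * (b + 2 * L ^ 2 * Bad S (Ψ y)) / r + b / r + b / r ≤
          3 * d ^ 2 * (b + L ^ 2 * Bad S (Ψ y)) / r := by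
        rw [← add_div, ← add_div]
        gcongr
        have c1 : (4 : ℝ) ≤ (d : ℝ) ^ 2 := by nlinarith
        nlinarith [mul_le_mul_of_nonneg_right c1 hb0.le, mul_nonneg (sq_nonneg (d : ℝ)) hB0]
      calc _ ≤ Cz d ^ 2 * (3 * d ^ 2 * (b + L ^ 2 * Bad S (Ψ y)) / r) :=
            a1.trans (by gcongr; linarith)
        _ ≤ Cz d ^ 2 * (3 * d ^ 2 * (b + L ^ 2 * Bad S (Ψ y)) / r) *
            (Cz d ^ 2 * wt r Ψ y₀ x₁ y) := le_mul_of_one_le_right (by positivity) a2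
        _ = _ := by rw [hCb]; unfold wt; ring
  obtain ⟨i1, j1⟩ := fub hg1 (hg1.integrable_of_hasCompactSupport
    (supp_ball (y₀ := y₀) (R := 1) fun z hz => by rw [ze_eq_zero hz, mul_zero])) hΨ.cont hr0
  obtain ⟨i2, j2⟩ := fub (g := fun y => kz 4 (y₀ - y) * (b + L ^ 2 * Bad S (Ψ y)))
    ((continuous_eh y₀).mul hg2) (integrable_eh hg2 y₀) hΨ.cont
    (show 0 < 6 * r by positivity)
  have t1 := integral_mono i1 (i2.const_mul (2 * C₂ * Cb * ϱ)) slice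
  rw [integral_const_mul, j1, j2] at t1
  have t2 : ∫ y, dd (co f Ψ) u y * ze d (y₀ - y) = cv 1 (dd (co f Ψ) u) y₀ := by
    rw [cv_eq_kernel _ one_pos]
    simp [mul_comm]
  have t3 : ∫ y, kz 4 (y₀ - y) * (b + L ^ 2 * Bad S (Ψ y)) ≤ (4 ^ d + 1) * b := by
    have e : (fun y => kz 4 (y₀ - y) * (b + L ^ 2 * Bad S (Ψ y))) =
        fun y => b * kz 4 (y₀ - y) + L ^ 2 * (kz 4 (y₀ - y) * Bad S (Ψ y)) := by
      ext y; ring
    rw [e, integral_add (((integrable_kz (by norm_num)).comp_sub_left y₀).const_mul b)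
      ((integrable_eh hBc y₀).const_mul _), integral_const_mul, integral_const_mul,
      integral_sub_left_eq_self (kz 4) volume y₀, integral_kz (by norm_num)]
    linarith [mul_le_mul_of_nonneg_left m3 (sq_nonneg L)]
  rw [t2] at t1
  refine le_of_mul_le_mul_left (t1.trans ?_) (show 0 < r ^ d by positivity)
  calc _ ≤ 2 * C₂ * Cb * ϱ * ((6 * r) ^ d * ((4 ^ d + 1) * b)) := by gcongr
    _ = _ := by rw [mul_pow]; ring

end Pool.Agent.MP_20bec2_an.h7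

end
end MrgPart2

-- marker of a merged file
example : 731051 + 725205 = 731051 + 725205 := rfl
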